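import Pool.Agent.Lib.MP_60922f_co.FIN.Stmts43

set_option autoImplicit false

/-! Calculus of the mean `S.m` and of the block averages `S.nu k`. -/

namespace Pool.Agent.FinA

open Filter Topology

/-! ### bounded functions -/

namespace Bdd

variable {F G : ℤ → ℝ}

lemma const (c : ℝ) : Bdd (fun _ => c) := ⟨|c|, fun _ => le_rfl⟩

lemma nonneg_bound (h : Bdd F) : ∃ C : ℝ, 0 ≤ C ∧ ∀ n, |F n| ≤ C := by
  obtain ⟨C, hC⟩ := h
  exact ⟨C, (abs_nonneg _).trans (hC 0), hC⟩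

lemma pos_bound (h : Bdd F) : ∃ C : ℝ, 0 < C ∧ ∀ n, |F n| ≤ C := by
  obtain ⟨C, hC, h⟩ := h.nonneg_bound
  exact ⟨C + 1, by linarith, fun n => (h n).trans (by linarith)⟩

lemma add (hF : Bdd F) (hG : Bdd G) : Bdd (fun n => F n + G n) := by
  obtain ⟨C, hC⟩ := hF
  obtain ⟨D, hD⟩ := hG
  exact ⟨C + D, fun n => (abs_add_le _ _).trans (add_le_add (hC n) (hD n))⟩

lemma neg (hF : Bdd F) : Bdd (fun n => -F n) := by
  obtain ⟨C, hC⟩ := hF
  exact ⟨C, fun n => by rw [abs_neg]; exact hC n⟩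

lemma sub (hF : Bdd F) (hG : Bdd G) : Bdd (fun n => F n - G n) := by
  simpa [sub_eq_add_neg] using hF.add hG.neg

lemma mul (hF : Bdd F) (hG : Bdd G) : Bdd (fun n => F n * G n) := by
  obtain ⟨C, hC0, hC⟩ := hF.nonneg_bound
  obtain ⟨D, hD⟩ := hG
  exact ⟨C * D, fun n => by rw [abs_mul]; exact mul_le_mul (hC n) (hD n) (abs_nonneg _) hC0⟩

lemma smul (c : ℝ) (hF : Bdd F) : Bdd (fun n => c * F n) := (Bdd.const c).mul hF

lemma mul_const (hF : Bdd F) (c : ℝ) : Bdd (fun n => F n * c) := hF.mul (Bdd.const c)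

lemma div_const (hF : Bdd F) (c : ℝ) : Bdd (fun n => F n / c) := by
  simpa [div_eq_mul_inv] using hF.mul_const c⁻¹

lemma abs (hF : Bdd F) : Bdd (fun n => |F n|) := by
  obtain ⟨C, hC⟩ := hF
  exact ⟨C, fun n => by rw [abs_abs]; exact hC n⟩

lemma pow (hF : Bdd F) (k : ℕ) : Bdd (fun n => F n ^ k) := by
  induction k with
  | zero => simpa using Bdd.const 1
  | succ k ih => simpa [pow_succ] using ih.mul hF

lemma sq (hF : Bdd F) : Bdd (fun n => F n ^ 2) := hF.pow 2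

lemma sum {ι : Type*} (s : Finset ι) (H : ι → ℤ → ℝ) (h : ∀ i ∈ s, Bdd (H i)) :
    Bdd (fun n => ∑ i ∈ s, H i n) := by
  classical
  induction s using Finset.induction_on with
  | empty => simpa using Bdd.const 0
  | insert i s hi ih =>
    simp only [Finset.sum_insert hi]
    exact (h i (Finset.mem_insert_self i s)).add
      (ih fun j hj => h j (Finset.mem_insert_of_mem hj))

lemma comp (hF : Bdd F) (e : ℤ → ℤ) : Bdd (fun n => F (e n)) := by
  obtain ⟨C, hC⟩ := hF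
  exact ⟨C, fun n => hC _⟩

lemma shift (hF : Bdd F) (t : ℤ) : Bdd (fun n => F (n + t)) := hF.comp _

lemma ite (P : ℤ → Prop) [DecidablePred P] (hF : Bdd F) : Bdd (fun n => if P n then F n else 0) := by
  obtain ⟨C, hC0, hC⟩ := hF.nonneg_bound
  refine ⟨C, fun n => ?_⟩
  by_cases h : P n
  · simpa [h] using hC n
  · simpa [h] using hC0

lemma of_le (hF : Bdd F) (h : ∀ n, |G n| ≤ |F n|) : Bdd G := by
  obtain ⟨C, hC⟩ := hF
  exact ⟨C, fun n => (h n).trans (hC n)⟩

lemma max (hF : Bdd F) (hG : Bdd G) : Bdd (fun n => max (F n) (G n)) := by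
  obtain ⟨C, hC⟩ := hF
  obtain ⟨D, hD⟩ := hG
  refine ⟨C ⊔ D, fun n => ?_⟩
  exact abs_max_le_max_abs_abs.trans (max_le_max (hC n) (hD n))

lemma min (hF : Bdd F) (hG : Bdd G) : Bdd (fun n => min (F n) (G n)) := by
  obtain ⟨C, hC⟩ := hF
  obtain ⟨D, hD⟩ := hG
  refine ⟨C ⊔ D, fun n => ?_⟩
  exact abs_min_le_max_abs_abs.trans (max_le_max (hC n) (hD n))

end Bdd

lemma U01.bdd {F : ℤ → ℝ} (h : U01 F) : Bdd F :=
  ⟨1, fun n => abs_le.2 ⟨by linarith [(h n).1], (h n).2⟩⟩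

lemma U01.abs_le_one {F : ℤ → ℝ} (h : U01 F) (n : ℤ) : |F n| ≤ 1 :=
  abs_le.2 ⟨by linarith [(h n).1], (h n).2⟩

lemma U01.comp {F : ℤ → ℝ} (h : U01 F) (e : ℤ → ℤ) : U01 (fun n => F (e n)) := fun n => h _

lemma U01.mul {F G : ℤ → ℝ} (h : U01 F) (h' : U01 G) : U01 (fun n => F n * G n) := fun n =>
  ⟨mul_nonneg (h n).1 (h' n).1, mul_le_one₀ (h n).2 (h' n).1 (h' n).2⟩

/-! ### indicators -/

open Classical in
lemma ind_of_mem {A : Set ℤ} {n : ℤ} (h : n ∈ A) : ind A n = 1 := by simp [ind, h]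

open Classical in
lemma ind_of_notMem {A : Set ℤ} {n : ℤ} (h : n ∉ A) : ind A n = 0 := by simp [ind, h]

lemma ind_eq_zero_or_one (A : Set ℤ) (n : ℤ) : ind A n = 0 ∨ ind A n = 1 := by
  by_cases h : n ∈ A
  · exact Or.inr (ind_of_mem h)
  · exact Or.inl (ind_of_notMem h)

lemma ind_nonneg (A : Set ℤ) (n : ℤ) : 0 ≤ ind A n := by
  rcases ind_eq_zero_or_one A n with h | h <;> rw [h]; norm_num

lemma ind_le_one (A : Set ℤ) (n : ℤ) : ind A n ≤ 1 := by
  rcases ind_eq_zero_or_one A n with h | h <;> rw [h]; norm_num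

lemma ind_U01 (A : Set ℤ) : U01 (ind A) := fun n => ⟨ind_nonneg A n, ind_le_one A n⟩

lemma ind_bdd (A : Set ℤ) : Bdd (ind A) := (ind_U01 A).bdd

lemma ind_sq (A : Set ℤ) (n : ℤ) : ind A n ^ 2 = ind A n := by
  rcases ind_eq_zero_or_one A n with h | h <;> rw [h] <;> norm_num

lemma ind_mono {A B : Set ℤ} (h : A ⊆ B) (n : ℤ) : ind A n ≤ ind B n := by
  by_cases hA : n ∈ A
  · rw [ind_of_mem hA, ind_of_mem (h hA)]
  · rw [ind_of_notMem hA]; exact ind_nonneg _ _

lemma ind_inter (A B : Set ℤ) (n : ℤ) : ind (A ∩ B) n = ind A n * ind B n := by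
  by_cases hA : n ∈ A <;> by_cases hB : n ∈ B <;> simp [ind, hA, hB]

lemma ind_union_le (A B : Set ℤ) (n : ℤ) : ind (A ∪ B) n ≤ ind A n + ind B n := by
  by_cases hA : n ∈ A <;> by_cases hB : n ∈ B <;> simp [ind, hA, hB]

lemma ind_union_of_disjoint {A B : Set ℤ} (h : Disjoint A B) (n : ℤ) :
    ind (A ∪ B) n = ind A n + ind B n := by
  by_cases hA : n ∈ A <;> by_cases hB : n ∈ B
  · exact absurd hB (Set.disjoint_left.1 h hA)
  all_goals simp [ind, hA, hB]

lemma ind_compl (A : Set ℤ) (n : ℤ) : ind Aᶜ n = 1 - ind A n := by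
  by_cases hA : n ∈ A <;> simp [ind, hA]

lemma ind_diff {A B : Set ℤ} (n : ℤ) : ind (A \ B) n = ind A n * (1 - ind B n) := by
  by_cases hA : n ∈ A <;> by_cases hB : n ∈ B <;> simp [ind, hA, hB]

lemma ind_univ (n : ℤ) : ind Set.univ n = 1 := by simp [ind]

lemma ind_empty (n : ℤ) : ind ∅ n = 0 := by simp [ind]

lemma ind_preimage (e : ℤ → ℤ) (A : Set ℤ) (n : ℤ) : ind A (e n) = ind (e ⁻¹' A) n := rfl

/-! ### positive normalised functionals -/

/-- positive normalised functional on bounded functions -/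
structure PF (φ : (ℤ → ℝ) → ℝ) : Prop where
  add : ∀ {F G : ℤ → ℝ}, Bdd F → Bdd G → φ (fun n => F n + G n) = φ F + φ G
  smul : ∀ (c : ℝ) {F : ℤ → ℝ}, Bdd F → φ (fun n => c * F n) = c * φ F
  mono : ∀ {F G : ℤ → ℝ}, Bdd F → Bdd G → (∀ n, F n ≤ G n) → φ F ≤ φ G
  one : φ (fun _ => 1) = 1

namespace PF

variable {φ : (ℤ → ℝ) → ℝ} (h : PF φ) {F G : ℤ → ℝ}
include h

lemma const (c : ℝ) : φ (fun _ => c) = c := by
  have := h.smul c (Bdd.const 1)
  simpa [h.one] using this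

lemma zero : φ (fun _ => 0) = 0 := h.const 0

lemma neg (hF : Bdd F) : φ (fun n => -F n) = -φ F := by
  have := h.smul (-1) hF
  simpa using this

lemma sub (hF : Bdd F) (hG : Bdd G) : φ (fun n => F n - G n) = φ F - φ G := by
  have := h.add hF hG.neg
  rw [h.neg hG] at this
  simpa [sub_eq_add_neg] using this

lemma mul_const (hF : Bdd F) (c : ℝ) : φ (fun n => F n * c) = φ F * c := by
  have := h.smul c hF
  simpa [mul_comm] using this

lemma div_const (hF : Bdd F) (c : ℝ) : φ (fun n => F n / c) = φ F / c := by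
  simpa [div_eq_mul_inv] using h.mul_const hF c⁻¹

omit h in
lemma congr' (he : ∀ n, F n = G n) : φ F = φ G := by
  have : F = G := funext he
  rw [this]

set_option linter.unusedSectionVars false in
lemma congr (he : ∀ n, F n = G n) : φ F = φ G := by
  have : F = G := funext he
  rw [this]

lemma nonneg (hF : Bdd F) (h0 : ∀ n, 0 ≤ F n) : 0 ≤ φ F := by
  have := h.mono (Bdd.const 0) hF h0
  rwa [h.const] at this

lemma le_of_le (hF : Bdd F) {C : ℝ} (hC : ∀ n, F n ≤ C) : φ F ≤ C := by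
  have := h.mono hF (Bdd.const C) hC
  rwa [h.const] at this

lemma le_of_ge (hF : Bdd F) {C : ℝ} (hC : ∀ n, C ≤ F n) : C ≤ φ F := by
  have := h.mono (Bdd.const C) hF hC
  rwa [h.const] at this

lemma abs_le {C : ℝ} (hC : ∀ n, |F n| ≤ C) : |φ F| ≤ C := by
  have hF : Bdd F := ⟨C, hC⟩
  exact _root_.abs_le.2 ⟨h.le_of_ge hF fun n => (_root_.abs_le.1 (hC n)).1,
    h.le_of_le hF fun n => (_root_.abs_le.1 (hC n)).2⟩

lemma sum {ι : Type*} (s : Finset ι) (H : ι → ℤ → ℝ) (hb : ∀ i ∈ s, Bdd (H i)) :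
    φ (fun n => ∑ i ∈ s, H i n) = ∑ i ∈ s, φ (H i) := by
  classical
  induction s using Finset.induction_on with
  | empty => simpa using h.zero
  | insert i s hi ih =>
    simp only [Finset.sum_insert hi]
    rw [h.add (hb i (Finset.mem_insert_self i s))
      (Bdd.sum s H fun j hj => hb j (Finset.mem_insert_of_mem hj)),
      ih fun j hj => hb j (Finset.mem_insert_of_mem hj)]

lemma abs_le_abs (hF : Bdd F) : |φ F| ≤ φ (fun n => |F n|) := by
  refine _root_.abs_le.2 ⟨?_, h.mono hF hF.abs fun n => le_abs_self _⟩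
  rw [← h.neg hF.abs]
  exact h.mono hF.abs.neg hF fun n => neg_abs_le _

lemma abs_sub_le (hF : Bdd F) (hG : Bdd G) : |φ F - φ G| ≤ φ (fun n => |F n - G n|) := by
  rw [← h.sub hF hG]; exact h.abs_le_abs (hF.sub hG)

lemma sq_nonneg (hF : Bdd F) : 0 ≤ φ (fun n => F n ^ 2) :=
  h.nonneg hF.sq fun n => _root_.sq_nonneg _

/-- Cauchy-Schwarz -/
lemma cs (hF : Bdd F) (hG : Bdd G) :
    (φ (fun n => F n * G n)) ^ 2 ≤ φ (fun n => F n ^ 2) * φ (fun n => G n ^ 2) := by
  have key : ∀ x : ℝ, 0 ≤ φ (fun n => G n ^ 2) * (x * x) + (2 * φ (fun n => F n * G n)) * x +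
      φ (fun n => F n ^ 2) := by
    intro x
    have h0 : 0 ≤ φ (fun n => (F n + x * G n) ^ 2) := h.sq_nonneg (hF.add (hG.smul x))
    have e : (fun n => (F n + x * G n) ^ 2) =
        fun n => (F n ^ 2 + (2 * x) * (F n * G n)) + (x * x) * G n ^ 2 := by
      funext n; ring
    rw [e, h.add (hF.sq.add ((hF.mul hG).smul _)) (hG.sq.smul _),
      h.add hF.sq ((hF.mul hG).smul _), h.smul _ (hF.mul hG), h.smul _ hG.sq] at h0
    linarith
  have := discrim_le_zero key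
  unfold discrim at this
  nlinarith [this]

lemma sq_le (hF : Bdd F) : (φ F) ^ 2 ≤ φ (fun n => F n ^ 2) := by
  have := h.cs hF (Bdd.const 1)
  simpa [h.one] using this

lemma abs_sq_le (hF : Bdd F) : (φ (fun n => |F n|)) ^ 2 ≤ φ (fun n => F n ^ 2) := by
  have := h.sq_le hF.abs
  simpa using this

lemma abs_le_sqrt (hF : Bdd F) : φ (fun n => |F n|) ≤ Real.sqrt (φ (fun n => F n ^ 2)) :=
  Real.le_sqrt_of_sq_le (h.abs_sq_le hF)

lemma cs_sqrt (hF : Bdd F) (hG : Bdd G) :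
    |φ (fun n => F n * G n)| ≤
      Real.sqrt (φ (fun n => F n ^ 2)) * Real.sqrt (φ (fun n => G n ^ 2)) := by
  rw [← Real.sqrt_mul (h.sq_nonneg hF)]
  apply Real.le_sqrt_of_sq_le
  rw [sq_abs]
  exact h.cs hF hG

/-- Minkowski -/
lemma l2_triangle (hF : Bdd F) (hG : Bdd G) :
    Real.sqrt (φ (fun n => (F n + G n) ^ 2)) ≤
      Real.sqrt (φ (fun n => F n ^ 2)) + Real.sqrt (φ (fun n => G n ^ 2)) := by
  apply Real.sqrt_le_iff.2
  refine ⟨by positivity, ?_⟩
  have e : (fun n => (F n + G n) ^ 2) = fun n => (F n ^ 2 + 2 * (F n * G n)) + G n ^ 2 := by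
    funext n; ring
  rw [e, h.add (hF.sq.add ((hF.mul hG).smul _)) hG.sq, h.add hF.sq ((hF.mul hG).smul _),
    h.smul _ (hF.mul hG), add_sq, Real.sq_sqrt (h.sq_nonneg hF), Real.sq_sqrt (h.sq_nonneg hG)]
  have := (le_abs_self _).trans (h.cs_sqrt hF hG)
  linarith

lemma l2_triangle_sub {H : ℤ → ℝ} (hF : Bdd F) (hG : Bdd G) (hH : Bdd H) :
    Real.sqrt (φ (fun n => (F n - H n) ^ 2)) ≤
      Real.sqrt (φ (fun n => (F n - G n) ^ 2)) + Real.sqrt (φ (fun n => (G n - H n) ^ 2)) := by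
  have := h.l2_triangle (hF.sub hG) (hG.sub hH)
  simpa using this

lemma sq_add_le (hF : Bdd F) (hG : Bdd G) :
    φ (fun n => (F n + G n) ^ 2) ≤ 2 * φ (fun n => F n ^ 2) + 2 * φ (fun n => G n ^ 2) := by
  rw [← h.smul _ hF.sq, ← h.smul _ hG.sq, ← h.add (hF.sq.smul _) (hG.sq.smul _)]
  exact h.mono (hF.add hG).sq ((hF.sq.smul _).add (hG.sq.smul _)) fun n => by
    nlinarith [_root_.sq_nonneg (F n - G n)]

lemma ind_nonneg' (A : Set ℤ) : 0 ≤ φ (ind A) := h.nonneg (ind_bdd A) (ind_nonneg A)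

lemma ind_le_one' (A : Set ℤ) : φ (ind A) ≤ 1 := h.le_of_le (ind_bdd A) (ind_le_one A)

lemma ind_mono' {A B : Set ℤ} (hAB : A ⊆ B) : φ (ind A) ≤ φ (ind B) :=
  h.mono (ind_bdd A) (ind_bdd B) (ind_mono hAB)

lemma ind_union' (A B : Set ℤ) : φ (ind (A ∪ B)) ≤ φ (ind A) + φ (ind B) := by
  rw [← h.add (ind_bdd A) (ind_bdd B)]
  exact h.mono (ind_bdd _) ((ind_bdd A).add (ind_bdd B)) (ind_union_le A B)

lemma ind_union_disj {A B : Set ℤ} (hd : Disjoint A B) :
    φ (ind (A ∪ B)) = φ (ind A) + φ (ind B) := by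
  rw [← h.add (ind_bdd A) (ind_bdd B)]
  exact h.congr (ind_union_of_disjoint hd)

lemma ind_compl' (A : Set ℤ) : φ (ind Aᶜ) = 1 - φ (ind A) := by
  have e : (ind Aᶜ) = fun n => 1 - ind A n := funext (ind_compl A)
  rw [e, h.sub (Bdd.const 1) (ind_bdd A), h.one]

lemma ind_univ' : φ (ind Set.univ) = 1 := by
  rw [h.congr (G := fun _ => 1) ind_univ, h.one]

lemma ind_empty' : φ (ind ∅) = 0 := by
  rw [h.congr (G := fun _ => 0) ind_empty, h.zero]

/-- finite union bound -/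
lemma ind_iUnion_le {ι : Type*} (s : Finset ι) (A : ι → Set ℤ) :
    φ (ind (⋃ i ∈ s, A i)) ≤ ∑ i ∈ s, φ (ind (A i)) := by
  rw [← h.sum s (fun i => ind (A i)) fun i _ => ind_bdd _]
  refine h.mono (ind_bdd _) (Bdd.sum s _ fun i _ => ind_bdd _) fun n => ?_
  by_cases hn : n ∈ ⋃ i ∈ s, A i
  · rw [ind_of_mem hn]
    simp only [Set.mem_iUnion, exists_prop] at hn
    obtain ⟨i, hi, hn⟩ := hn
    calc (1 : ℝ) = ind (A i) n := (ind_of_mem hn).symm
      _ ≤ ∑ i ∈ s, ind (A i) n :=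
        Finset.single_le_sum (f := fun i => ind (A i) n) (fun j _ => ind_nonneg _ _) hi
  · rw [ind_of_notMem hn]
    exact Finset.sum_nonneg fun i _ => ind_nonneg _ _

/-- Markov -/
lemma markov (hF : Bdd F) (h0 : ∀ n, 0 ≤ F n) {a : ℝ} (ha : 0 < a) :
    φ (ind {n | a ≤ F n}) ≤ φ F / a := by
  rw [le_div_iff₀ ha, ← h.mul_const (ind_bdd _)]
  refine h.mono ((ind_bdd _).mul_const a) hF fun n => ?_
  by_cases hn : n ∈ {n | a ≤ F n}
  · rw [ind_of_mem hn, one_mul]; exact hn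
  · rw [ind_of_notMem hn, zero_mul]; exact h0 n

lemma markov_mul (hF : Bdd F) (h0 : ∀ n, 0 ≤ F n) {a : ℝ} (ha : 0 < a) :
    a * φ (ind {n | a ≤ F n}) ≤ φ F := by
  have := h.markov hF h0 ha
  rwa [le_div_iff₀ ha, mul_comm] at this

/-- a bounded function which vanishes off a null set has mean zero -/
lemma eq_zero_of_null (hF : Bdd F) {A : Set ℤ} (hA : φ (ind A) = 0) (h0 : ∀ n, n ∉ A → F n = 0) :
    φ F = 0 := by
  obtain ⟨C, hC0, hC⟩ := hF.nonneg_bound
  have h1 : φ (fun n => |F n|) ≤ φ (fun n => C * ind A n) := by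
    refine h.mono hF.abs ((ind_bdd A).smul C) fun n => ?_
    by_cases hn : n ∈ A
    · rw [ind_of_mem hn, mul_one]; exact hC n
    · rw [h0 n hn, ind_of_notMem hn]; simp
  rw [h.smul C (ind_bdd A), hA, mul_zero] at h1
  have h2 := h.abs_le_abs hF
  exact abs_eq_zero.1 (le_antisymm (h2.trans h1) (abs_nonneg _))

lemma eq_of_null (hF : Bdd F) (hG : Bdd G) {A : Set ℤ} (hA : φ (ind A) = 0)
    (h0 : ∀ n, n ∉ A → F n = G n) : φ F = φ G := by
  have := h.eq_zero_of_null (hF.sub hG) hA fun n hn => by rw [h0 n hn, sub_self]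
  rw [h.sub hF hG] at this
  linarith

lemma ind_eq_zero_of_le {A : Set ℤ} (hle : φ (ind A) ≤ 0) : φ (ind A) = 0 :=
  le_antisymm hle (h.ind_nonneg' A)

lemma null_union {A B : Set ℤ} (hA : φ (ind A) = 0) (hB : φ (ind B) = 0) :
    φ (ind (A ∪ B)) = 0 :=
  h.ind_eq_zero_of_le ((h.ind_union' A B).trans (by rw [hA, hB, add_zero]))

lemma null_mono {A B : Set ℤ} (hAB : A ⊆ B) (hB : φ (ind B) = 0) : φ (ind A) = 0 :=
  h.ind_eq_zero_of_le ((h.ind_mono' hAB).trans hB.le)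

end PF

/-! ### the mean system -/

namespace MeanSys

variable (S : MeanSys) {F G : ℤ → ℝ}

lemma nu_pf (k : ℕ) : PF (S.nu k) where
  add := fun _ _ => by simp only [nu, mul_add, Finset.sum_add_distrib]
  smul := fun c F _ => by
    simp only [nu, Finset.mul_sum]
    exact Finset.sum_congr rfl fun n _ => by ring
  mono := fun _ _ h => Finset.sum_le_sum fun n _ => mul_le_mul_of_nonneg_left (h n) (S.wt_nonneg k n)
  one := by simp only [nu, mul_one]; exact S.wt_sum k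

lemma tendsto_nu (hF : Bdd F) : Tendsto (fun k => S.nu k F) S.U (𝓝 (S.m F)) := S.m_lim F hF

lemma m_eq {L : ℝ} (hF : Bdd F) (h : Tendsto (fun k => S.nu k F) S.U (𝓝 L)) : S.m F = L :=
  tendsto_nhds_unique (S.tendsto_nu hF) h

lemma pf : PF S.m where
  add := fun {F G} hF hG => S.m_eq (hF.add hG) (by
    refine ((S.tendsto_nu hF).add (S.tendsto_nu hG)).congr fun k => ?_
    exact ((S.nu_pf k).add hF hG).symm)
  smul := fun c F hF => S.m_eq (hF.smul c) (by
    refine ((S.tendsto_nu hF).const_mul c).congr fun k => ?_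
    exact ((S.nu_pf k).smul c hF).symm)
  mono := fun hF hG h => le_of_tendsto_of_tendsto' (S.tendsto_nu hF) (S.tendsto_nu hG)
    fun k => (S.nu_pf k).mono hF hG h
  one := S.m_eq (Bdd.const 1) (by
    refine tendsto_const_nhds.congr fun k => ?_
    exact ((S.nu_pf k).one).symm)

/-- `ν_k F` is eventually close to `m F` -/
lemma ev_nu (hF : Bdd F) {ε : ℝ} (hε : 0 < ε) :
    ∀ᶠ k in (S.U : Filter ℕ), |S.nu k F - S.m F| ≤ ε := by
  have := (S.tendsto_nu hF).eventually (Metric.closedBall_mem_nhds (S.m F) hε)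
  filter_upwards [this] with k hk
  rwa [Real.dist_eq] at hk

lemma U_ev {P : ℕ → Prop} (h : ∀ᶠ k in atTop, P k) : ∀ᶠ k in (S.U : Filter ℕ), P k :=
  h.filter_mono S.free

/-- uniform shift error, any bound -/
lemma nu_shift (t : ℤ) (C : ℝ) {ε : ℝ} (hε : 0 < ε) : ∀ᶠ k in atTop, ∀ F : ℤ → ℝ,
    (∀ n, |F n| ≤ C) → |S.nu k (fun n => F (n + t)) - S.nu k F| ≤ ε := by
  have hC : 0 < |C| + 1 := by positivity
  filter_upwards [S.shift_err t (ε / (|C| + 1)) (by positivity)] with k hk F hF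
  have hb : Bdd F := ⟨C, hF⟩
  have h1 := hk (fun n => F n / (|C| + 1)) (fun n => by
    rw [abs_div, abs_of_pos hC, div_le_one hC]
    exact (hF n).trans ((le_abs_self C).trans (by linarith)))
  have e1 := (S.nu_pf k).div_const (hb.shift t) (|C| + 1)
  have e2 := (S.nu_pf k).div_const hb (|C| + 1)
  change |S.nu k (fun n => F (n + t) / (|C| + 1)) - S.nu k (fun n => F n / (|C| + 1))| ≤ _ at h1
  rw [e1, e2, ← sub_div, abs_div, abs_of_pos hC] at h1
  exact (div_le_div_iff_of_pos_right hC).1 h1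

/-- uniform dilation error, any bound -/
lemma nu_dil (r : ℕ) (hr : 0 < r) (C : ℝ) {ε : ℝ} (hε : 0 < ε) : ∀ᶠ k in atTop, ∀ F : ℤ → ℝ,
    (∀ n, |F n| ≤ C) → |S.nu k (fun n => F (r * n)) -
      r * S.nu k (fun n => if (r : ℤ) ∣ n then F n else 0)| ≤ ε := by
  have hC : 0 < |C| + 1 := by positivity
  filter_upwards [S.dil_err r hr (ε / (|C| + 1)) (by positivity)] with k hk F hF
  have hb : Bdd F := ⟨C, hF⟩
  have h1 := hk (fun n => F n / (|C| + 1)) (fun n => by
    rw [abs_div, abs_of_pos hC, div_le_one hC]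
    exact (hF n).trans ((le_abs_self C).trans (by linarith)))
  have e1 := (S.nu_pf k).div_const (hb.comp (fun n => r * n)) (|C| + 1)
  have e2 := (S.nu_pf k).div_const (hb.ite (fun n => (r : ℤ) ∣ n)) (|C| + 1)
  change |S.nu k (fun n => F (r * n) / (|C| + 1)) -
    r * S.nu k (fun n => if (r : ℤ) ∣ n then F n / (|C| + 1) else 0)| ≤ _ at h1
  have e3 : (fun n : ℤ => if (r : ℤ) ∣ n then F n / (|C| + 1) else 0) =
      fun n => (if (r : ℤ) ∣ n then F n else 0) / (|C| + 1) := by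
    funext n; split_ifs <;> simp
  rw [e3, e1, e2, ← mul_div_assoc, ← sub_div, abs_div, abs_of_pos hC] at h1
  exact (div_le_div_iff_of_pos_right hC).1 h1

/-- shift invariance -/
lemma m_shift (t : ℤ) (hF : Bdd F) : S.m (fun n => F (n + t)) = S.m F := by
  obtain ⟨C, hC⟩ := id hF
  have h1 := (S.tendsto_nu (hF.shift t)).sub (S.tendsto_nu hF)
  have h2 : Tendsto (fun k => S.nu k (fun n => F (n + t)) - S.nu k F) (S.U : Filter ℕ) (𝓝 0) := by
    rw [Metric.tendsto_nhds]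
    intro ε hε
    filter_upwards [S.U_ev (S.nu_shift t C (half_pos hε))] with k hk
    rw [Real.dist_eq, sub_zero]
    exact (hk F hC).trans_lt (half_lt_self hε)
  exact sub_eq_zero.1 (tendsto_nhds_unique h1 h2)

lemma m_shift_sub (t : ℤ) (hF : Bdd F) : S.m (fun n => F (n - t)) = S.m F := by
  simpa [sub_eq_add_neg] using S.m_shift (-t) hF

lemma m_shift_left (t : ℤ) (hF : Bdd F) : S.m (fun n => F (t + n)) = S.m F := by
  simpa [add_comm] using S.m_shift t hF

/-- dilation law -/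
lemma m_dil {r : ℕ} (hr : 0 < r) (hF : Bdd F) :
    S.m (fun n => F (r * n)) = r * S.m (fun n => if (r : ℤ) ∣ n then F n else 0) := by
  obtain ⟨C, hC⟩ := id hF
  have h1 := (S.tendsto_nu (hF.comp (fun n => r * n))).sub
    ((S.tendsto_nu (hF.ite (fun n => (r : ℤ) ∣ n))).const_mul (r : ℝ))
  have h2 : Tendsto (fun k => S.nu k (fun n => F (r * n)) -
      r * S.nu k (fun n => if (r : ℤ) ∣ n then F n else 0)) (S.U : Filter ℕ) (𝓝 0) := by
    rw [Metric.tendsto_nhds]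
    intro ε hε
    filter_upwards [S.U_ev (S.nu_dil r hr C (half_pos hε))] with k hk
    rw [Real.dist_eq, sub_zero]
    exact (hk F hC).trans_lt (half_lt_self hε)
  exact sub_eq_zero.1 (tendsto_nhds_unique h1 h2)

lemma ite_dvd_eq (r : ℕ) (F : ℤ → ℝ) (n : ℤ) :
    (if (r : ℤ) ∣ n then F n else 0) = ind (cls 0 r) n * F n := by
  by_cases h : (r : ℤ) ∣ n
  · rw [if_pos h, ind_of_mem (by simpa [cls] using h), one_mul]
  · rw [if_neg h, ind_of_notMem (by simpa [cls] using h), zero_mul]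

lemma m_dil' {r : ℕ} (hr : 0 < r) (hF : Bdd F) :
    S.m (fun n => F (r * n)) = r * S.m (fun n => ind (cls 0 r) n * F n) := by
  rw [S.m_dil hr hF]
  congr 1
  exact S.pf.congr (ite_dvd_eq r F)

/-- pull back of a function on multiples -/
lemma m_dil_ind {r : ℕ} (hr : 0 < r) (hF : Bdd F) :
    S.m (fun n => ind (cls 0 r) n * F n) = S.m (fun n => F (r * n)) / r := by
  have hr' : (r : ℝ) ≠ 0 := by positivity
  rw [S.m_dil' hr hF]; field_simp

/-- functions which agree from some point on have the same mean -/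
lemma m_congr_ev (hF : Bdd F) (hG : Bdd G) {N0 : ℤ} (h : ∀ n, N0 ≤ n → F n = G n) :
    S.m F = S.m G := by
  apply S.m_eq hF
  refine (S.tendsto_nu hG).congr' ?_
  filter_upwards [S.U_ev (eventually_ge_atTop N0.toNat)] with k hk
  unfold nu
  refine Finset.sum_congr rfl fun n hn => ?_
  have := S.blk_gt k n hn
  rw [h n (by omega)]

lemma m_mono_ev (hF : Bdd F) (hG : Bdd G) {N0 : ℤ} (h : ∀ n, N0 ≤ n → F n ≤ G n) :
    S.m F ≤ S.m G := by
  refine le_of_tendsto_of_tendsto (S.tendsto_nu hF) (S.tendsto_nu hG) ?_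
  filter_upwards [S.U_ev (eventually_ge_atTop N0.toNat)] with k hk
  unfold nu
  refine Finset.sum_le_sum fun n hn => mul_le_mul_of_nonneg_left ?_ (S.wt_nonneg k n)
  have := S.blk_gt k n hn
  exact h n (by omega)

lemma m_zero_ev (hF : Bdd F) {N0 : ℤ} (h : ∀ n, N0 ≤ n → F n = 0) : S.m F = 0 := by
  rw [S.m_congr_ev hF (Bdd.const 0) h, S.pf.const]

lemma m_ind_bddAbove {A : Set ℤ} (hA : BddAbove A) : S.m (ind A) = 0 := by
  obtain ⟨B, hB⟩ := hA
  exact S.m_zero_ev (ind_bdd A) (N0 := B + 1) fun n hn => ind_of_notMem fun h => by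
    have := hB h; omega

lemma m_ind_finite {A : Set ℤ} (hA : A.Finite) : S.m (ind A) = 0 := S.m_ind_bddAbove hA.bddAbove

lemma m_ind_nonpos : S.m (ind {n | n ≤ 0}) = 0 := S.m_ind_bddAbove ⟨0, fun _ h => h⟩

/-- residue classes have mean `1 / Q` -/
lemma m_cls (c : ℤ) {Q : ℕ} (hQ : 0 < Q) : S.m (ind (cls c Q)) = 1 / Q := by
  have h0 : ∀ c : ℤ, S.m (ind (cls c Q)) = S.m (ind (cls 0 Q)) := by
    intro c
    rw [← S.m_shift c (ind_bdd (cls c Q))]
    refine S.pf.congr fun n => ?_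
    rw [ind_preimage (fun n => n + c)]
    congr 1
    ext n
    simp [cls]
  have h1 : S.m (fun n => ∑ j ∈ Finset.range Q, ind (cls (j : ℤ) Q) n) = 1 := by
    rw [S.pf.congr (G := fun _ => 1), S.pf.one]
    intro n
    have hQ' : (0 : ℤ) < Q := by exact_mod_cast hQ
    have hmem : (n % Q).toNat ∈ Finset.range Q := by
      rw [Finset.mem_range]
      have := Int.emod_lt_of_pos n hQ'
      have := Int.emod_nonneg n hQ'.ne'
      omega
    rw [Finset.sum_eq_single_of_mem _ hmem]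
    · apply ind_of_mem
      have := Int.emod_nonneg n hQ'.ne'
      simp only [cls, Set.mem_ofPred_eq, Int.toNat_of_nonneg this]
      exact Int.dvd_self_sub_emod
    · intro j hj hne
      apply ind_of_notMem
      simp only [cls, Set.mem_ofPred_eq]
      intro hd
      apply hne
      rw [Finset.mem_range] at hj
      have : n % Q = j := by
        have := (Int.emod_emod_of_dvd n (dvd_refl (Q : ℤ)))
        have h3 := Int.emod_eq_emod_iff_emod_sub_eq_zero.2 (Int.emod_eq_zero_of_dvd hd)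
        rw [h3]
        exact Int.emod_eq_of_lt (by omega) (by omega)
      omega
  rw [S.pf.sum _ _ fun j _ => ind_bdd _,
    Finset.sum_congr rfl (fun (j : ℕ) _ => h0 (j : ℤ)),
    Finset.sum_const, Finset.card_range, nsmul_eq_mul] at h1
  rw [h0 c, eq_div_iff (by positivity)]
  linarith

/-- the mean is invariant under any shift inside a product -/
lemma m_mul_shift (t : ℤ) (hF : Bdd F) (hG : Bdd G) :
    S.m (fun n => F (n + t) * G n) = S.m (fun n => F n * G (n - t)) := by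
  rw [← S.m_shift t (hF.mul (hG.comp (fun n => n - t)))]
  refine S.pf.congr fun n => ?_
  simp

end MeanSys

end Pool.Agent.FinA
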