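import Pool.Agent.Lib.MP_60922f_co.FIN.Defs82

/-!
FIN, module M3 (tie cells), over an abstract finitely additive mean `μ` on subsets of `ℕ`.
-/

namespace Pool.Agent.FinClique

open Set

/-- What the cells need from the mean. -/
structure SetMean (μ : Set ℕ → ℝ) : Prop where
  nonneg : ∀ A, 0 ≤ μ A
  mono : ∀ A B : Set ℕ, A ⊆ B → μ A ≤ μ B
  add : ∀ A B : Set ℕ, Disjoint A B → μ (A ∪ B) = μ A + μ B
  finite : ∀ A : Set ℕ, A.Finite → μ A = 0
  univ : μ Set.univ = 1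

/-- Decreasing sequences of sets have a limit set. -/
def DecrLim (μ : Set ℕ → ℝ) : Prop :=
  ∀ B : ℕ → Set ℕ, (∀ n, B (n + 1) ⊆ B n) →
    ∃ C : Set ℕ, (∀ n, μ (C \ B n) = 0) ∧ (∀ r : ℝ, (∀ n, r ≤ μ (B n)) → r ≤ μ C)

/-- No infinite sequence with all pairwise sums and products of one colour. -/
def NoInf (f : ℕ → Bool) : Prop :=
  ¬ ∃ x : ℕ → ℕ, StrictMono x ∧ (∀ i, 1 ≤ x i) ∧
    ∃ c, ∀ i j, i < j → f (x i + x j) = c ∧ f (x i * x j) = c

/-- No infinite sequence as in `NoInf` all of whose finite parts have a set of positive mean of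
common partners. -/
def PosBadM (μ : Set ℕ → ℝ) (f : ℕ → Bool) : Prop :=
  ¬ ∃ (a : ℕ → ℕ) (c : Bool), StrictMono a ∧ (∀ i, 1 ≤ a i) ∧
    (∀ i j, i < j → f (a i + a j) = c ∧ f (a i * a j) = c) ∧
    ∀ k, 0 < μ {y | ∀ i < k, f (a i + y) = c ∧ f (a i * y) = c}

theorem posBadM_of_noInf {μ : Set ℕ → ℝ} {f : ℕ → Bool} (h : NoInf f) : PosBadM μ f := by
  rintro ⟨a, c, h1, h2, h3, _⟩
  exact h ⟨a, h1, h2, c, h3⟩

theorem noInf_of_kBad {f : ℕ → Bool} {K : ℕ} (h : KBad f K) : NoInf f := by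
  rintro ⟨x, hx, h1, c, hc⟩
  exact h ⟨fun i => x i, fun i j hij => hx hij, fun i => h1 i, c, fun i j hij => hc i j hij⟩

/-- `A` is a tie cell: every `n ∈ A` is tied with almost every `y ∈ A`. -/
def TieCell (μ : Set ℕ → ℝ) (f : ℕ → Bool) (A : Set ℕ) : Prop :=
  ∀ n ∈ A, μ {y | y ∈ A ∧ ¬ Tie f n y} = 0

namespace SetMean

variable {μ : Set ℕ → ℝ}

theorem union_le (h : SetMean μ) (A B : Set ℕ) : μ (A ∪ B) ≤ μ A + μ B := by
  have h1 : A ∪ B = A ∪ (B \ A) := by simp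
  rw [h1, h.add A (B \ A) disjoint_sdiff_right]
  have := h.mono (B \ A) B sdiff_subset
  linarith

theorem null_mono (h : SetMean μ) {A B : Set ℕ} (hAB : A ⊆ B) (hB : μ B = 0) : μ A = 0 :=
  le_antisymm (hB ▸ h.mono A B hAB) (h.nonneg A)

theorem eq_of_diff_null (h : SetMean μ) {A B : Set ℕ} (hAB : B ⊆ A) (h0 : μ (A \ B) = 0) :
    μ A = μ B := by
  have h1 : A = B ∪ (A \ B) := by rw [union_sdiff_cancel hAB]
  rw [h1, h.add B (A \ B) disjoint_sdiff_right]
  have : μ ((B ∪ A \ B) \ B) = 0 := by rw [← h1]; exact h0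
  linarith

end SetMean

theorem TieCell.subset {μ : Set ℕ → ℝ} {f : ℕ → Bool} {A B : Set ℕ} (hμ : SetMean μ)
    (hA : TieCell μ f A) (hBA : B ⊆ A) : TieCell μ f B := fun n hn =>
  hμ.null_mono (B := {y | y ∈ A ∧ ¬ Tie f n y}) (fun _ hy => ⟨hBA hy.1, hy.2⟩) (hA n (hBA hn))

/-- One extension step. -/
theorem cell_step {μ : Set ℕ → ℝ} {f : ℕ → Bool} (hμ : SetMean μ) {B : Set ℕ}
    (hno : ∀ A ⊆ B, TieCell μ f A → μ A = 0) (D : Set ℕ) (hD : D ⊆ B) (hpos : 0 < μ D) (N : ℕ) :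
    ∃ n c, n ∈ D ∧ N < n ∧ 0 < μ {y | y ∈ D ∧ f (n + y) = c ∧ f (n * y) = c} := by
  by_contra hcon
  push Not at hcon
  set A : Set ℕ := D \ Iic N with hA
  have hAD : A ⊆ D := sdiff_subset
  have hcell : TieCell μ f A := by
    intro n hn
    have hn1 : n ∈ D := hn.1
    have hn2 : N < n := by simpa using hn.2
    have h1 : μ {y | y ∈ D ∧ f (n + y) = true ∧ f (n * y) = true} = 0 :=
      le_antisymm (hcon n true hn1 hn2) (hμ.nonneg _)
    have h2 : μ {y | y ∈ D ∧ f (n + y) = false ∧ f (n * y) = false} = 0 :=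
      le_antisymm (hcon n false hn1 hn2) (hμ.nonneg _)
    have h3 := hμ.union_le {y | y ∈ D ∧ f (n + y) = true ∧ f (n * y) = true}
      {y | y ∈ D ∧ f (n + y) = false ∧ f (n * y) = false}
    rw [h1, h2, add_zero] at h3
    refine hμ.null_mono ?_ (le_antisymm h3 (hμ.nonneg _))
    rintro y ⟨hyA, hy⟩
    have hy' : f (n + y) = f (n * y) := by
      by_contra h; exact hy h
    cases hb : f (n + y)
    · right; exact ⟨hyA.1, hb, hy' ▸ hb⟩
    · left; exact ⟨hyA.1, hb, hy' ▸ hb⟩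
  have h0 : μ A = 0 := hno A (hAD.trans hD) hcell
  have h1 : μ (D ∩ Iic N) = 0 := hμ.finite _ ((finite_Iic N).subset inter_subset_right)
  have h2 : D = A ∪ (D ∩ Iic N) := by rw [hA, sdiff_union_inter]
  have h3 := hμ.union_le A (D ∩ Iic N)
  rw [← h2, h0, h1] at h3
  linarith

/-- Every set of positive mean contains a tie cell of positive mean. -/
theorem exists_cell {μ : Set ℕ → ℝ} {f : ℕ → Bool} (hμ : SetMean μ) (hf : PosBadM μ f) (B : Set ℕ)
    (hB : 0 < μ B) : ∃ A ⊆ B, TieCell μ f A ∧ 0 < μ A := by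
  by_contra hcon
  push Not at hcon
  have hno : ∀ A ⊆ B, TieCell μ f A → μ A = 0 := fun A hA hc =>
    le_antisymm (hcon A hA hc) (hμ.nonneg A)
  -- states
  let St := {p : Set ℕ × ℕ // p.1 ⊆ B ∧ 0 < μ p.1}
  have hstep : ∀ s : St, ∃ q : (ℕ × Bool) × St, q.1.1 ∈ s.1.1 ∧ s.1.2 < q.1.1 ∧
      q.2.1.1 = {y | y ∈ s.1.1 ∧ f (q.1.1 + y) = q.1.2 ∧ f (q.1.1 * y) = q.1.2} ∧
      q.2.1.2 = q.1.1 := by
    rintro ⟨⟨D, N⟩, hD, hpos⟩
    obtain ⟨n, c, hn, hN, hp⟩ := cell_step hμ hno D hD hpos N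
    exact ⟨⟨(n, c), ⟨⟨{y | y ∈ D ∧ f (n + y) = c ∧ f (n * y) = c}, n⟩,
      fun y hy => hD hy.1, hp⟩⟩, hn, hN, rfl, rfl⟩
  choose q hq1 hq2 hq3 hq4 using hstep
  let s : ℕ → St := fun k => Nat.rec ⟨⟨B, 0⟩, subset_rfl, hB⟩ (fun _ t => (q t).2) k
  have hs : ∀ k, s (k + 1) = (q (s k)).2 := fun k => rfl
  set n : ℕ → ℕ := fun k => (q (s k)).1.1 with hn
  set c : ℕ → Bool := fun k => (q (s k)).1.2 with hc
  have hD : ∀ k, (s (k + 1)).1.1 = {y | y ∈ (s k).1.1 ∧ f (n k + y) = c k ∧ f (n k * y) = c k} :=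
    fun k => by rw [hs, hq3]
  have hanti : ∀ j k, j ≤ k → (s k).1.1 ⊆ (s j).1.1 := by
    intro j k hjk
    induction hjk with
    | refl => exact subset_rfl
    | step _ ih =>
      refine subset_trans ?_ ih
      rw [Nat.succ_eq_add_one, hD]
      exact fun y hy => hy.1
  have hmem : ∀ k, n k ∈ (s k).1.1 := fun k => hq1 (s k)
  have hlt : ∀ k, n k < n (k + 1) := by
    intro k
    have h1 := hq2 (s (k + 1))
    have h2 : (s (k + 1)).1.2 = n k := by rw [hs, hq4]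
    rw [h2] at h1
    exact h1
  have hmono : StrictMono n := strictMono_nat_of_lt_succ hlt
  have hpos : ∀ k, 1 ≤ n k := by
    intro k
    have := hq2 (s k)
    have h1 : (s k).1.2 < n k := this
    omega
  have hcol : ∀ j k, j < k → f (n j + n k) = c j ∧ f (n j * n k) = c j := by
    intro j k hjk
    have h1 : n k ∈ (s (j + 1)).1.1 := hanti (j + 1) k hjk (hmem k)
    rw [hD] at h1
    exact h1.2
  -- constant colour
  have : ∃ b, {k | c k = b}.Infinite := by
    by_contra hcon2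
    push Not at hcon2
    have h1 : ({k | c k = true} ∪ {k | c k = false}).Finite :=
      (hcon2 true).union (hcon2 false)
    refine infinite_univ (h1.subset ?_)
    intro k _
    cases h : c k
    · right; exact h
    · left; exact h
  obtain ⟨b, hb⟩ := this
  refine hf ⟨fun k => n (Nat.nth (fun k => c k = b) k), b, ?_, fun i => hpos _, ?_, ?_⟩
  · exact hmono.comp (Nat.nth_strictMono hb)
  · intro i j hij
    have h1 : Nat.nth (fun k => c k = b) i < Nat.nth (fun k => c k = b) j :=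
      Nat.nth_strictMono hb hij
    have h2 := hcol _ _ h1
    have h3 : c (Nat.nth (fun k => c k = b) i) = b :=
      Nat.nth_mem_of_infinite (p := fun k => c k = b) hb i
    rw [h3] at h2
    exact h2
  · intro k
    refine lt_of_lt_of_le (s (Nat.nth (fun k => c k = b) k)).2.2 (hμ.mono _ _ ?_)
    intro y hy i hik
    have h1 : Nat.nth (fun k => c k = b) i < Nat.nth (fun k => c k = b) k :=
      Nat.nth_strictMono hb hik
    have h2 := hanti (Nat.nth (fun k => c k = b) i + 1) _ h1 hy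
    rw [hD] at h2
    have h3 : c (Nat.nth (fun k => c k = b) i) = b :=
      Nat.nth_mem_of_infinite (p := fun k => c k = b) hb i
    have h4 := h2.2
    rw [h3] at h4
    exact h4

/-- finite disjoint unions of tie cells -/
def CellUnion (μ : Set ℕ → ℝ) (f : ℕ → Bool) (G : Set ℕ) : Prop :=
  ∃ l : List (Set ℕ), (∀ A ∈ l, TieCell μ f A) ∧ l.Pairwise Disjoint ∧
    G = {x | ∃ A ∈ l, x ∈ A} ∧ μ G = (l.map μ).sum

theorem cellUnion_empty {μ : Set ℕ → ℝ} {f : ℕ → Bool} (hμ : SetMean μ) : CellUnion μ f ∅ :=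
  ⟨[], by simp, by simp, by simp, by simp [hμ.finite ∅ finite_empty]⟩

theorem CellUnion.insert {μ : Set ℕ → ℝ} {f : ℕ → Bool} (hμ : SetMean μ) {G A : Set ℕ}
    (hG : CellUnion μ f G) (hA : TieCell μ f A) : CellUnion μ f (A ∪ G) := by
  obtain ⟨l, h1, h2, h3, h4⟩ := hG
  refine ⟨(A \ G) :: l, ?_, ?_, ?_, ?_⟩
  · intro D hD
    rcases List.mem_cons.1 hD with rfl | hD
    · exact hA.subset hμ sdiff_subset
    · exact h1 D hD
  · refine List.pairwise_cons.2 ⟨?_, h2⟩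
    intro D hD
    refine disjoint_left.2 fun x hx hxD => hx.2 ?_
    rw [h3]; exact ⟨D, hD, hxD⟩
  · ext x
    constructor
    · rintro (hx | hx)
      · by_cases hxG : x ∈ G
        · have := hxG
          rw [h3] at this
          obtain ⟨D, hD, hxD⟩ := this
          exact ⟨D, List.mem_cons_of_mem _ hD, hxD⟩
        · exact ⟨A \ G, List.mem_cons_self, hx, hxG⟩
      · rw [h3] at hx
        obtain ⟨D, hD, hxD⟩ := hx
        exact ⟨D, List.mem_cons_of_mem _ hD, hxD⟩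
    · rintro ⟨D, hD, hxD⟩
      rcases List.mem_cons.1 hD with rfl | hD
      · left; exact hxD.1
      · right; rw [h3]; exact ⟨D, hD, hxD⟩
  · rw [List.map_cons, List.sum_cons, ← h4, ← hμ.add _ _ disjoint_sdiff_left, sdiff_union_self]

theorem CellUnion.union {μ : Set ℕ → ℝ} {f : ℕ → Bool} (hμ : SetMean μ) {G H : Set ℕ}
    (hG : CellUnion μ f G) (hH : CellUnion μ f H) : CellUnion μ f (H ∪ G) := by
  obtain ⟨l, h1, _, h3, _⟩ := hH
  subst h3
  clear * - hμ hG h1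
  induction l with
  | nil => simpa using hG
  | cons A l ih =>
    have h5 := ih (fun D hD => h1 D (List.mem_cons_of_mem _ hD))
    have h6 := h5.insert hμ (h1 A List.mem_cons_self)
    convert h6 using 1
    ext x
    simp only [List.mem_cons, mem_union, mem_ofPred_eq]
    constructor
    · rintro (⟨D, rfl | hD, hx⟩ | hx)
      · left; exact hx
      · right; left; exact ⟨D, hD, hx⟩
      · right; right; exact hx
    · rintro (hx | ⟨D, hD, hx⟩ | hx)
      · left; exact ⟨A, Or.inl rfl, hx⟩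
      · left; exact ⟨D, Or.inr hD, hx⟩
      · right; exact hx

/-- **M3.** If `f` has no infinite clique with positive partner sets, finitely many disjoint tie
cells exhaust `ℕ` up to `ε`. -/
theorem cells_exhaust {μ : Set ℕ → ℝ} {f : ℕ → Bool} (hμ : SetMean μ) (hlim : DecrLim μ)
    (hf : PosBadM μ f) {ε : ℝ} (hε : 0 < ε) :
    ∃ l : List (Set ℕ), (∀ A ∈ l, TieCell μ f A) ∧ l.Pairwise Disjoint ∧
      1 - ε ≤ (l.map μ).sum ∧ 1 - ε ≤ μ {x | ∃ A ∈ l, x ∈ A} := by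
  set T : Set ℝ := {r | ∃ G, CellUnion μ f G ∧ μ G = r} with hT
  have hne : T.Nonempty := ⟨μ ∅, ∅, cellUnion_empty hμ, rfl⟩
  have hbd : BddAbove T := ⟨1, by
    rintro r ⟨G, _, rfl⟩
    rw [← hμ.univ]; exact hμ.mono _ _ (subset_univ _)⟩
  set s : ℝ := sSup T with hs
  have hle : ∀ G, CellUnion μ f G → μ G ≤ s := fun G hG => le_csSup hbd ⟨G, hG, rfl⟩
  have hs1 : s ≤ 1 := csSup_le hne (by
    rintro r ⟨G, _, rfl⟩
    rw [← hμ.univ]; exact hμ.mono _ _ (subset_univ _))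
  -- approximating sequence
  have hseq : ∀ k : ℕ, ∃ G, CellUnion μ f G ∧ s - 1 / (k + 1 : ℝ) < μ G := by
    intro k
    have hk : (0 : ℝ) < 1 / (k + 1 : ℝ) := by positivity
    obtain ⟨r, ⟨G, hG, rfl⟩, hr⟩ := exists_lt_of_lt_csSup hne (show s - 1 / (k + 1 : ℝ) < sSup T by
      rw [← hs]; linarith)
    exact ⟨G, hG, hr⟩
  choose G hG hGs using hseq
  let U : ℕ → Set ℕ := fun k => Nat.rec (G 0) (fun j V => G (j + 1) ∪ V) k
  have hUs : ∀ k, U (k + 1) = G (k + 1) ∪ U k := fun k => rfl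
  have hU : ∀ k, CellUnion μ f (U k) := by
    intro k
    induction k with
    | zero => exact hG 0
    | succ k ih => rw [hUs]; exact ih.union hμ (hG _)
  have hGU : ∀ k, G k ⊆ U k := by
    intro k
    cases k with
    | zero => exact subset_rfl
    | succ k => rw [hUs]; exact subset_union_left
  have hcompl : ∀ D : Set ℕ, μ Dᶜ = 1 - μ D := by
    intro D
    have h1 := hμ.add D Dᶜ disjoint_compl_right
    rw [union_compl_self, hμ.univ] at h1
    linarith
  have hone : s = 1 := by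
    by_contra hne1
    have hlt : s < 1 := lt_of_le_of_ne hs1 hne1
    obtain ⟨C, hC1, hC2⟩ := hlim (fun k => (U k)ᶜ) (fun k => by
      show (U (k + 1))ᶜ ⊆ (U k)ᶜ
      rw [compl_subset_compl, hUs]; exact subset_union_right)
    have hC3 : 1 - s ≤ μ C := hC2 (1 - s) (fun k => by
      rw [hcompl]; have := hle _ (hU k); linarith)
    obtain ⟨A, hAC, hA, hApos⟩ := exists_cell hμ hf C (by linarith)
    have key : ∀ k : ℕ, s - 1 / (k + 1 : ℝ) + μ A ≤ s := by
      intro k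
      have h1 : μ (A ∪ U k) ≤ s := hle _ ((hU k).insert hμ hA)
      have h2 : μ (A \ U k ∪ U k) = μ (A \ U k) + μ (U k) := hμ.add _ _ disjoint_sdiff_left
      rw [sdiff_union_self] at h2
      have h3 : μ A = μ (A \ U k) := by
        refine hμ.eq_of_diff_null sdiff_subset ?_
        refine hμ.null_mono ?_ (hC1 k)
        rintro x ⟨hx, hx2⟩
        refine ⟨hAC hx, fun hx3 => hx2 ⟨hx, hx3⟩⟩
      have h4 : μ (G k) ≤ μ (U k) := hμ.mono _ _ (hGU k)
      have h5 := hGs k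
      linarith
    obtain ⟨k, hk⟩ := exists_nat_one_div_lt hApos
    have := key k
    linarith
  obtain ⟨k, hk⟩ := exists_nat_one_div_lt hε
  obtain ⟨l, h1, h2, h3, h4⟩ := hU k
  have h5 : 1 - ε ≤ μ (U k) := by
    have h6 := hGs k
    have h7 := hμ.mono _ _ (hGU k)
    rw [hone] at h6
    linarith
  exact ⟨l, h1, h2, h4 ▸ h5, h3 ▸ h5⟩

end Pool.Agent.FinClique
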