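import Mathlib

/-! FIN (R): simultaneous corners in the integers. -/

set_option autoImplicit false
set_option linter.unusedSectionVars false
set_option linter.unusedVariables false

namespace Pool.Agent.FIN
open Finset

/-- the corners theorem with a positive side -/
theorem pos_corner (ε : ℝ) (hε : 0 < ε) : ∃ q₀ : ℕ, ∀ n, q₀ ≤ n → ∀ A : Finset (ℕ × ℕ),
    A ⊆ range n ×ˢ range n → ε * n ^ 2 ≤ #A →
    ∃ x y i : ℕ, 0 < i ∧ (x, y) ∈ A ∧ (x + i, y) ∈ A ∧ (x, y + i) ∈ A := by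
  classical
  set ε' : ℝ := ε ^ 2 / 4 with hε'
  have hε'0 : 0 < ε' := by positivity
  refine ⟨max 1 (cornersTheoremBound (ε' / 9)), fun n hn A hA hc => ?_⟩
  have hn1 : 1 ≤ n := (le_max_left _ _).trans hn
  have hn2 : cornersTheoremBound (ε' / 9) ≤ n := (le_max_right _ _).trans hn
  have hn0 : (0 : ℝ) < n := by exact_mod_cast hn1
  -- the fibres of the sum
  set t : Finset (ℕ × ℕ) := range (2 * n) ×ˢ range (2 * n) with ht
  have hmaps : ∀ a ∈ A ×ˢ A, a.1 + a.2 ∈ t := by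
    rintro ⟨⟨a, b⟩, ⟨c, d⟩⟩ h
    rw [mem_product] at h
    have h1 := hA h.1
    have h2 := hA h.2
    simp only [mem_product, mem_range] at h1 h2
    simp only [ht, Prod.mk_add_mk, mem_product, mem_range]
    omega
  have htn : t.Nonempty := by
    refine ⟨(0, 0), ?_⟩
    simp only [ht, mem_product, mem_range]
    omega
  have hcard : (#t : ℝ) = 4 * n ^ 2 := by
    rw [ht, card_product, card_range]
    push_cast
    ring
  have hb : #t • (ε' * n ^ 2) ≤ (#(A ×ˢ A) : ℝ) := by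
    rw [nsmul_eq_mul, hcard, card_product]
    push_cast
    have h1 : (0 : ℝ) ≤ ε * n ^ 2 := by positivity
    calc (4 * (n : ℝ) ^ 2) * (ε' * n ^ 2) = (ε * n ^ 2) * (ε * n ^ 2) := by rw [hε']; ring
      _ ≤ (#A : ℝ) * (#A : ℝ) := mul_le_mul hc hc h1 (h1.trans hc)
  obtain ⟨c, hct, hcf⟩ := exists_le_card_fiber_of_nsmul_le_card_of_maps_to hmaps htn hb
  -- the symmetrised set
  set B : Finset (ℕ × ℕ) := A.filter fun p => ∃ p' ∈ A, p + p' = c with hB
  have hBA : B ⊆ A := filter_subset _ _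
  have hsym : ∀ p ∈ B, ∃ p' ∈ A, p + p' = c := fun p hp => (mem_filter.mp hp).2
  have hBcard : ε' * n ^ 2 ≤ #B := by
    refine hcf.trans ?_
    have h1 : #{x ∈ A ×ˢ A | x.1 + x.2 = c} ≤ #B := by
      refine card_le_card_of_injOn (fun x => x.1) (fun x hx => ?_) fun x hx y hy hxy => ?_
      · simp only [coe_filter, mem_product, Set.mem_ofPred_eq] at hx
        simp only [hB, coe_filter, Set.mem_ofPred_eq]
        exact ⟨hx.1.1, x.2, hx.1.2, hx.2⟩
      · simp only [coe_filter, mem_product, Set.mem_ofPred_eq] at hx hy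
        have h2 : x.1 = y.1 := hxy
        have h3 : x.2 = y.2 := by
          have := hx.2.trans hy.2.symm
          rw [h2] at this
          exact add_left_cancel this
        exact Prod.ext h2 h3
    exact_mod_cast h1
  have hcor := corners_theorem_nat hε'0 hn2 B (hBA.trans hA) hBcard
  unfold IsCornerFree at hcor
  push Not at hcor
  obtain ⟨x₁, y₁, x₂, y₂, h, hne⟩ := hcor
  have m1 : (x₁, y₁) ∈ B := h.fst_fst_mem
  have m2 : (x₁, y₂) ∈ B := h.fst_snd_mem
  have m3 : (x₂, y₁) ∈ B := h.snd_fst_mem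
  have m4 : x₁ + y₂ = x₂ + y₁ := h.add_eq_add
  rcases lt_or_gt_of_ne hne with hlt | hgt
  · refine ⟨x₁, y₁, x₂ - x₁, by omega, hBA m1, ?_, ?_⟩
    · rw [show x₁ + (x₂ - x₁) = x₂ by omega]; exact hBA m3
    · rw [show y₁ + (x₂ - x₁) = y₂ by omega]; exact hBA m2
  · obtain ⟨⟨a₁, b₁⟩, ha1, hs1⟩ := hsym _ m1
    obtain ⟨⟨a₂, b₂⟩, ha2, hs2⟩ := hsym _ m2
    obtain ⟨⟨a₃, b₃⟩, ha3, hs3⟩ := hsym _ m3
    obtain ⟨c₁, c₂⟩ := c
    simp only [Prod.mk_add_mk, Prod.mk.injEq] at hs1 hs2 hs3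
    refine ⟨a₁, b₁, x₁ - x₂, by omega, ha1, ?_, ?_⟩
    · rw [show a₁ + (x₁ - x₂) = a₃ by omega, show b₁ = b₃ by omega]; exact ha3
    · rw [show a₁ = a₂ by omega, show b₁ + (x₁ - x₂) = b₂ by omega]; exact ha2

/-- **(R)** simultaneous corners -/
theorem simul_corners (δ : ℝ) (hδ : 0 < δ) : ∃ q : ℕ, 1 ≤ q ∧ ∀ {ι : Type} [Fintype ι]
    (E : ι → Finset ℤ) (N : ι → ℕ) (d : ι → ℝ) (α β : ι → ℤ),
    (∀ l, 0 < N l) → (∀ l, E l ⊆ Finset.Ico 0 (N l : ℤ)) → (∀ l, 0 ≤ d l) →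
    (∀ l, d l * N l ≤ #(E l)) → δ ≤ ∏ l, d l → (∀ l, 2 * q * (|α l| + |β l|) * Fintype.card ι ≤ N l) →
    ∃ i : ℕ, 1 ≤ i ∧ i ≤ q ∧ ∀ l, ∃ n ∈ E l, n + i * α l ∈ E l ∧ n + i * β l ∈ E l := by
  classical
  obtain ⟨q₀, hq₀⟩ := pos_corner (δ / 3) (by positivity)
  refine ⟨max 1 q₀, le_max_left _ _, ?_⟩
  intro ι _ E N d α β hN hE hd hdN hprod hwin
  set q : ℕ := max 1 q₀ with hq
  have hq1 : 1 ≤ q := le_max_left _ _
  set Q : ι → ℤ := fun l => q * (|α l| + |β l|) with hQ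
  have hQ0 : ∀ l, 0 ≤ Q l := fun l => by positivity
  set W : ι → Finset ℤ := fun l => Finset.Ico (-(Q l)) (N l + Q l) with hW
  have hWcard : ∀ l, (#(W l) : ℝ) = N l + 2 * Q l := by
    intro l
    have h1 : (#(W l) : ℤ) = N l + 2 * Q l := by
      rw [hW]
      simp only [Int.card_Ico]
      rw [Int.toNat_of_nonneg (by have := hQ0 l; have := Int.natCast_nonneg (N l); linarith)]
      ring
    exact_mod_cast h1
  set S : Finset (ℕ × ℕ) := range q ×ˢ range q with hS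
  set T : (ι → ℤ) → Finset (ℕ × ℕ) := fun b =>
    S.filter fun p => ∀ l, b l + p.1 * α l + p.2 * β l ∈ E l with hT
  -- the shift of one factor
  have hshift : ∀ l, ∀ p ∈ S, #{n ∈ W l | n + p.1 * α l + p.2 * β l ∈ E l} = #(E l) := by
    intro l p hp
    rw [hS, mem_product, mem_range, mem_range] at hp
    have hb : |(p.1 : ℤ) * α l + p.2 * β l| ≤ Q l := by
      refine (abs_add_le _ _).trans ?_
      rw [abs_mul, abs_mul, Nat.abs_cast, Nat.abs_cast]
      simp only [hQ]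
      have h1 : (p.1 : ℤ) ≤ q := by exact_mod_cast hp.1.le
      have h2 : (p.2 : ℤ) ≤ q := by exact_mod_cast hp.2.le
      nlinarith [mul_le_mul_of_nonneg_right h1 (abs_nonneg (α l)),
        mul_le_mul_of_nonneg_right h2 (abs_nonneg (β l))]
    rw [abs_le] at hb
    refine card_bij (fun n _ => n + p.1 * α l + p.2 * β l) (fun n hn => (mem_filter.mp hn).2)
      (fun n _ n' _ h => by simpa using h) fun e he => ?_
    refine ⟨e - p.1 * α l - p.2 * β l, ?_, by ring⟩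
    have h3 := hE l he
    rw [mem_Ico] at h3
    rw [mem_filter]
    refine ⟨?_, by rw [show e - p.1 * α l - p.2 * β l + p.1 * α l + p.2 * β l = e by ring]; exact he⟩
    simp only [hW, mem_Ico]
    constructor <;> linarith
  -- double counting
  have hcount : ∑ b ∈ Fintype.piFinset W, #(T b) = #S * ∏ l, #(E l) := by
    have h1 : ∀ b, #(T b) = ∑ p ∈ S, if ∀ l, b l + p.1 * α l + p.2 * β l ∈ E l then 1 else 0 := by
      intro b
      rw [hT, card_filter]
    simp only [h1]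
    rw [sum_comm]
    have h2 : ∀ p ∈ S, (∑ b ∈ Fintype.piFinset W,
        if ∀ l, b l + p.1 * α l + p.2 * β l ∈ E l then 1 else 0) = ∏ l, #(E l) := by
      intro p hp
      rw [← card_filter]
      have h3 : (Fintype.piFinset W).filter (fun b => ∀ l, b l + p.1 * α l + p.2 * β l ∈ E l) =
          Fintype.piFinset fun l => {n ∈ W l | n + p.1 * α l + p.2 * β l ∈ E l} := by
        ext b
        simp only [mem_filter, Fintype.mem_piFinset]
        exact ⟨fun h l => ⟨h.1 l, h.2 l⟩, fun h => ⟨fun l => (h l).1, fun l => (h l).2⟩⟩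
      rw [h3, Fintype.card_piFinset]
      exact prod_congr rfl fun l _ => hshift l p hp
    rw [sum_congr rfl h2, sum_const, smul_eq_mul]
  -- the number of base points
  have hk : (δ / 3) * ∏ l, (#(W l) : ℝ) ≤ ∏ l, (#(E l) : ℝ) := by
    set k : ℕ := Fintype.card ι with hk
    have h1 : ∀ l, (#(W l) : ℝ) ≤ N l * Real.exp (1 / k) := by
      intro l
      have hk0 : 0 < k := Fintype.card_pos_iff.mpr ⟨l⟩
      have hk0' : (0 : ℝ) < k := by exact_mod_cast hk0
      rw [hWcard l]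
      have h2 : 2 * (Q l : ℝ) * k ≤ N l := by
        have h3 := hwin l
        have h4 : 2 * Q l * k ≤ (N l : ℤ) := by
          simp only [hQ]
          linarith [h3]
        exact_mod_cast h4
      have h5 : 2 * (Q l : ℝ) ≤ N l * (1 / k) := by
        rw [mul_one_div, le_div_iff₀ hk0']
        exact h2
      have h6 : 1 / (k : ℝ) + 1 ≤ Real.exp (1 / k) := Real.add_one_le_exp _
      have h7 : (0 : ℝ) ≤ N l := Nat.cast_nonneg _
      nlinarith
    have h2 : ∏ l, (#(W l) : ℝ) ≤ (∏ l, (N l : ℝ)) * 3 := by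
      calc ∏ l, (#(W l) : ℝ) ≤ ∏ l, ((N l : ℝ) * Real.exp (1 / k)) :=
            prod_le_prod (fun l _ => Nat.cast_nonneg _) fun l _ => h1 l
        _ = (∏ l, (N l : ℝ)) * Real.exp (1 / k) ^ k := by
            rw [prod_mul_distrib, prod_const, card_univ]
        _ ≤ (∏ l, (N l : ℝ)) * 3 := by
            refine mul_le_mul_of_nonneg_left ?_ (prod_nonneg fun l _ => Nat.cast_nonneg _)
            rw [← Real.exp_nat_mul]
            by_cases hk0 : k = 0
            · rw [hk0]; norm_num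
            · rw [mul_one_div, div_self (by exact_mod_cast hk0)]
              linarith [Real.exp_one_lt_d9]
    have h3 : δ * ∏ l, (N l : ℝ) ≤ ∏ l, (#(E l) : ℝ) := by
      calc δ * ∏ l, (N l : ℝ) ≤ (∏ l, d l) * ∏ l, (N l : ℝ) :=
            mul_le_mul_of_nonneg_right hprod (prod_nonneg fun l _ => Nat.cast_nonneg _)
        _ = ∏ l, (d l * N l) := by rw [prod_mul_distrib]
        _ ≤ _ := prod_le_prod (fun l _ => mul_nonneg (hd l) (Nat.cast_nonneg _)) fun l _ => hdN l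
    calc (δ / 3) * ∏ l, (#(W l) : ℝ) ≤ (δ / 3) * ((∏ l, (N l : ℝ)) * 3) :=
          mul_le_mul_of_nonneg_left h2 (by positivity)
      _ = δ * ∏ l, (N l : ℝ) := by ring
      _ ≤ _ := h3
  have hne : (Fintype.piFinset W).Nonempty := by
    rw [Fintype.piFinset_nonempty]
    intro l
    rw [← card_pos]
    have h4 := hWcard l
    have h5 : (0 : ℝ) ≤ Q l := by exact_mod_cast hQ0 l
    have h6 : (0 : ℝ) < N l := by exact_mod_cast hN l
    have h7 : (0 : ℝ) < #(W l) := by rw [h4]; linarith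
    exact_mod_cast h7
  obtain ⟨b, hb, hbc⟩ : ∃ b ∈ Fintype.piFinset W, (δ / 3) * (q : ℝ) ^ 2 ≤ #(T b) := by
    refine exists_le_of_sum_le hne ?_
    rw [sum_const, nsmul_eq_mul]
    have h1 : ∑ b ∈ Fintype.piFinset W, (#(T b) : ℝ) = #S * ∏ l, (#(E l) : ℝ) := by
      exact_mod_cast hcount
    rw [h1, hS, card_product, card_range, Fintype.card_piFinset]
    push_cast
    have h2 : (0 : ℝ) ≤ (q : ℝ) ^ 2 := by positivity
    calc (∏ l, (#(W l) : ℝ)) * (δ / 3 * (q : ℝ) ^ 2) = (q : ℝ) ^ 2 * ((δ / 3) * ∏ l, (#(W l) : ℝ)) := by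
          ring
      _ ≤ (q : ℝ) ^ 2 * ∏ l, (#(E l) : ℝ) := mul_le_mul_of_nonneg_left hk h2
      _ = _ := by ring
  obtain ⟨x, y, i, hi, m1, m2, m3⟩ := hq₀ q (le_max_right _ _) (T b) (filter_subset _ _) hbc
  simp only [hT, mem_filter] at m1 m2 m3
  refine ⟨i, hi, ?_, fun l => ⟨b l + x * α l + y * β l, m1.2 l, ?_, ?_⟩⟩
  · have := m2.1
    rw [hS, mem_product, mem_range, mem_range] at this
    simp only at this
    omega
  · have := m2.2 l
    push_cast at this
    rw [show b l + x * α l + y * β l + i * α l = b l + (x + i) * α l + y * β l by ring]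
    exact this
  · have := m3.2 l
    push_cast at this
    rw [show b l + x * α l + y * β l + i * β l = b l + x * α l + (y + i) * β l by ring]
    exact this

/-- **(R)** simultaneous corners, natural numbers, arbitrary windows -/
theorem simul_corners_nat (δ : ℝ) (hδ : 0 < δ) : ∃ q : ℕ, 1 ≤ q ∧ ∀ {ι : Type} [Fintype ι]
    (E : ι → Finset ℕ) (n₀ N : ι → ℕ) (d : ι → ℝ) (α β : ι → ℕ),
    (∀ l, 0 < N l) → (∀ l, E l ⊆ Finset.Ico (n₀ l) (n₀ l + N l)) → (∀ l, 0 ≤ d l) →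
    (∀ l, d l * N l ≤ #(E l)) → δ ≤ ∏ l, d l →
    (∀ l, 2 * q * (α l + β l) * Fintype.card ι ≤ N l) →
    ∃ i : ℕ, 1 ≤ i ∧ i ≤ q ∧ ∀ l, ∃ n ∈ E l, n + i * α l ∈ E l ∧ n + i * β l ∈ E l := by
  classical
  obtain ⟨q, hq1, hq⟩ := simul_corners δ hδ
  refine ⟨q, hq1, ?_⟩
  intro ι _ E n₀ N d α β hN hE hd hdN hprod hwin
  set E' : ι → Finset ℤ := fun l => (E l).image fun n : ℕ => (n : ℤ) - n₀ l with hE'
  have hinj : ∀ l, Function.Injective fun n : ℕ => (n : ℤ) - n₀ l := fun l a b h => by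
    simp only at h
    omega
  have hmem : ∀ l, ∀ m : ℤ, m ∈ E' l ↔ ∃ n ∈ E l, (n : ℤ) - n₀ l = m := fun l m => by
    simp only [hE', mem_image]
  have a1 : ∀ l, E' l ⊆ Finset.Ico 0 (N l : ℤ) := by
    intro l m hm
    obtain ⟨n, hn, rfl⟩ := (hmem l m).mp hm
    have h1 := hE l hn
    rw [mem_Ico] at h1 ⊢
    obtain ⟨h2, h3⟩ := h1
    constructor <;> omega
  have a2 : ∀ l, d l * N l ≤ #(E' l) := by
    intro l
    have : #(E' l) = #(E l) := card_image_of_injective _ (hinj l)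
    rw [this]
    exact hdN l
  have a3 : ∀ l, 2 * (q : ℤ) * (|(α l : ℤ)| + |(β l : ℤ)|) * Fintype.card ι ≤ N l := by
    intro l
    rw [Nat.abs_cast, Nat.abs_cast]
    exact_mod_cast hwin l
  obtain ⟨i, hi1, hiq, h⟩ := hq E' N d (fun l => (α l : ℤ)) (fun l => (β l : ℤ)) hN a1 hd a2
    hprod a3
  refine ⟨i, hi1, hiq, fun l => ?_⟩
  obtain ⟨m, hm, hm1, hm2⟩ := h l
  obtain ⟨n, hn, rfl⟩ := (hmem l m).mp hm
  obtain ⟨n₁, hn1, e1⟩ := (hmem l _).mp hm1
  obtain ⟨n₂, hn2, e2⟩ := (hmem l _).mp hm2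
  refine ⟨n, hn, ?_, ?_⟩
  · have : n + i * α l = n₁ := by
      zify
      linarith
    rw [this]; exact hn1
  · have : n + i * β l = n₂ := by
      zify
      linarith
    rw [this]; exact hn2

end Pool.Agent.FIN
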