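import Pool.Agent.Lib.MP_60922f_co.FIN.Defs82
import Pool.Agent.Lib.MP_60922f_co.FIN.RecCor74

/-!
FIN chain, part A: simultaneous recurrence for rich numbers, monotonicity of `StabAt`, refinement of
residues, and the construction of constants and residues stage by stage.
-/

open Finset

namespace Pool.Agent.FinClique

/-- simultaneous recurrence from simultaneous corners -/
theorem recB (f : ℕ → Bool) (δ : ℝ) (hδ : 0 < δ) :
    ∃ q : ℕ, 1 ≤ q ∧ ∀ S : ℕ, RecB f δ S q (4 * q * S) := by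
  obtain ⟨q, hq, H⟩ := Pool.Agent.FIN.simul_corners_nat δ hδ
  refine ⟨q, hq, fun S => ⟨hq, ?_⟩⟩
  intro s p z a N d t hs ht hl hprod
  classical
  have key : ∀ l ∈ s, ∃ n0 : ℕ, ∃ E : Finset ℕ, E ⊆ Finset.Ico n0 (n0 + N l) ∧
      d l * N l ≤ (E.card : ℝ) ∧
      (∀ n ∈ E, (p l).2 * n < z l ∧ (p l).1 ∣ z l - (p l).2 * n) ∧
      ∀ n' ∈ E, ∀ n'' ∈ E, f ((p l).2 * n' + (z l - (p l).2 * n'')) =
        f ((p l).1 * n' + (p l).2 * ((z l - (p l).2 * n'') / (p l).1)) :=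
    fun l hls => (hl l hls).2.2.2.2.2.1
  choose! n0 E hE1 hE2 hE3 hE4 using key
  have hcard : Fintype.card {x // x ∈ s} ≤ S := by simpa using hs
  have hstep : ∀ l ∈ s, ∃ c, t = step (p l) * c := fun l hls => (hl l hls).2.2.2.2.1
  choose! c hc using hstep
  have hwin : ∀ l ∈ s, 2 * q * ((p l).1 ^ 2 * (c l * a l) + (p l).2 ^ 2 * (c l * a l)) * S ≤ N l := by
    intro l hls
    obtain ⟨ha, hd, hp1, hp2, hst, hr, hN⟩ := hl l hls
    have h1 : (p l).1 ^ 2 ≤ (p l).2 ^ 2 := Nat.pow_le_pow_left hp2.le 2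
    have h2 : c l ≤ t := by
      rcases Nat.eq_zero_or_pos (step (p l)) with h0 | h0
      · rw [hc l hls, h0] at ht; simp at ht
      · rw [hc l hls]; exact Nat.le_mul_of_pos_left _ h0
    calc 2 * q * ((p l).1 ^ 2 * (c l * a l) + (p l).2 ^ 2 * (c l * a l)) * S
        ≤ 2 * q * ((p l).2 ^ 2 * (t * a l) + (p l).2 ^ 2 * (t * a l)) * S := by gcongr
      _ = 4 * q * S * ((p l).2 ^ 2 * (t * a l)) := by ring
      _ ≤ N l := hN
  have hNpos : ∀ l ∈ s, 0 < N l := by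
    intro l hls
    obtain ⟨ha, hd, hp1, hp2, hst, hr, hN⟩ := hl l hls
    have hS : 0 < S := lt_of_lt_of_le (Finset.card_pos.2 ⟨l, hls⟩) hs
    have hv : 0 < (p l).2 := lt_trans hp1 hp2
    refine lt_of_lt_of_le ?_ hN
    positivity
  obtain ⟨i, hi1, hiq, hi⟩ := H (ι := {x // x ∈ s}) (fun l => E l.1) (fun l => n0 l.1)
    (fun l => N l.1) (fun l => d l.1) (fun l => (p l.1).1 ^ 2 * (c l.1 * a l.1))
    (fun l => (p l.1).2 ^ 2 * (c l.1 * a l.1)) (fun l => hNpos _ l.2) (fun l => hE1 _ l.2)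
    (fun l => (hl _ l.2).2.1.le) (fun l => hE2 _ l.2)
    (by rw [Finset.prod_coe_sort s d]; exact hprod)
    (fun l => le_trans (Nat.mul_le_mul_left _ hcard) (hwin _ l.2))
  refine ⟨i, hi1, hiq, fun l hls => ?_⟩
  obtain ⟨n, hn, hn1, hn2⟩ := hi ⟨l, hls⟩
  obtain ⟨ha, hd, hp1, hp2, hst, hr, hN⟩ := hl l hls
  have h1 : n + (p l).1 ^ 2 * (i * (c l * a l)) ∈ E l := by
    have : n + i * ((p l).1 ^ 2 * (c l * a l)) = n + (p l).1 ^ 2 * (i * (c l * a l)) := by ring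
    rw [← this]; exact hn1
  have h2 : n + (p l).2 ^ 2 * (i * (c l * a l)) ∈ E l := by
    have : n + i * ((p l).2 ^ 2 * (c l * a l)) = n + (p l).2 ^ 2 * (i * (c l * a l)) := by ring
    rw [← this]; exact hn2
  have h3 := shift hp1 hp2 (hE3 l hls) (hE4 l hls) hn h1 h2
  have h4 : i * t * a l = step ((p l).1, (p l).2) * (i * (c l * a l)) := by
    have := hc l hls
    calc i * t * a l = i * (step (p l) * c l) * a l := by rw [← this]
      _ = _ := by simp only [Prod.mk.eta]; ring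
  rw [h4]
  exact h3

theorem Rich.mono {f : ℕ → Bool} {u v : ℕ} {d d' : ℝ} {L z : ℕ} (h : Rich f u v d L z)
    (hd : d' ≤ d) : Rich f u v d' L z := by
  obtain ⟨n0, E, h1, h2, h3, h4⟩ := h
  exact ⟨n0, E, h1, le_trans (mul_le_mul_of_nonneg_right hd (Nat.cast_nonneg L)) h2, h3, h4⟩

theorem StabAt.mono {μ : Set ℕ → ℝ} (hμ : SubMean μ) {f : ℕ → Bool} {e d d' : ℝ}
    {S S' : Finset (ℕ × ℕ)} {M b M' b' : ℕ} (h : StabAt μ f e S d M b) (hS : S ⊆ S')
    (hd : d' ≤ d) (hM : M ∣ M') (hb : b' ≡ b [MOD M]) : StabAt μ f e S' d' M' b' := by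
  intro X q a hX hq hx L₀
  obtain ⟨L, hL, h1⟩ := h X q a hX hq (fun x hxa => ((hx x hxa).of_dvd hM).trans hb) L₀
  refine ⟨L, hL, le_trans (hμ.mono _ _ ?_) h1⟩
  rintro x ⟨hx1, hx2⟩
  refine ⟨hx1, fun ⟨p, hp, hr⟩ => hx2 ⟨p, hS hp, hr.mono hd⟩⟩

theorem StabAt.mono_e {μ : Set ℕ → ℝ} (hμ : SubMean μ) {f : ℕ → Bool} {e e' d : ℝ}
    {S : Finset (ℕ × ℕ)} {M b : ℕ} (h : StabAt μ f e S d M b) (he : e ≤ e') :
    StabAt μ f e' S d M b := by
  intro X q a hX hq hx L₀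
  obtain ⟨L, hL, h1⟩ := h X q a hX hq hx L₀
  exact ⟨L, hL, le_trans h1 (mul_le_mul_of_nonneg_right he (hμ.cls a q hq).le)⟩

/-- Refinement of one residue so that all its multiples `C x`, `1 ≤ C ≤ B`, become stable. -/
theorem refine_res {μ : Set ℕ → ℝ} (hμ : SubMean μ) {f : ℕ → Bool} (hS : Stab μ f) {e : ℝ}
    (he : 0 < e) (W x : ℕ) (hW : 0 < W) (hW2 : 2 ∣ W) (hx2 : 2 ∣ x) (hx : 0 < x) (B : ℕ) :
    ∃ (W' x' : ℕ) (S : Finset (ℕ × ℕ)) (d : ℝ), 0 < W' ∧ W ∣ W' ∧ x' ≡ x [MOD W] ∧ 0 < x' ∧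
      0 < d ∧ (∀ p ∈ S, 0 < p.1 ∧ p.1 < p.2) ∧
      ∀ C, 1 ≤ C → C ≤ B → StabAt μ f e S d W' (C * x') := by
  classical
  induction B with
  | zero =>
    refine ⟨W, x, ∅, 1, hW, dvd_rfl, Nat.ModEq.refl _, hx, one_pos, by simp, ?_⟩
    intro C h1 h2; omega
  | succ B ih =>
    obtain ⟨W1, x1, S1, d1, hW1, hWW1, hx1, hx1p, hd1, hS1, H1⟩ := ih
    have h2W1 : 2 ∣ W1 := hW2.trans hWW1
    have h2x1 : 2 ∣ x1 := (hx1.of_dvd hW2).dvd_iff (dvd_refl 2) |>.2 hx2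
    obtain ⟨M, b, S2, d2, hM, hQM, hb, hd2, hS2, H2⟩ :=
      hS e he ((B + 1) * W1) ((B + 1) * x1) (by positivity) (h2W1.mul_left _) (h2x1.mul_left _)
    have hCM : (B + 1) ∣ M := (Dvd.intro _ rfl).trans hQM
    have hW1M : W1 ∣ M := (Dvd.intro_left _ rfl).trans hQM
    -- b + M is a positive multiple of B + 1
    have hb' : b + M ≡ (B + 1) * x1 [MOD (B + 1) * W1] := by
      have h3 : b + M ≡ b + 0 [MOD (B + 1) * W1] :=
        Nat.ModEq.add_left b ((Nat.modEq_zero_iff_dvd).2 hQM)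
      simpa using h3.trans hb
    have hdiv : (B + 1) ∣ b + M := by
      have h3 : b + M ≡ (B + 1) * x1 [MOD (B + 1)] := hb'.of_dvd (Dvd.intro _ rfl)
      exact (h3.dvd_iff (dvd_refl _)).2 (Dvd.intro _ rfl)
    obtain ⟨x2, hx2e⟩ := hdiv
    have hx2m : x2 ≡ x1 [MOD W1] := by
      rw [hx2e] at hb'
      exact Nat.ModEq.mul_left_cancel' (by omega) hb'
    have hx2p : 0 < x2 := by
      rcases Nat.eq_zero_or_pos x2 with h0 | h0
      · rw [h0] at hx2e; simp at hx2e; omega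
      · exact h0
    refine ⟨M, x2, S1 ∪ S2, min d1 d2, hM, hWW1.trans hW1M,
      (hx2m.of_dvd hWW1).trans hx1, hx2p, lt_min hd1 hd2, ?_, ?_⟩
    · intro p hp
      rcases Finset.mem_union.1 hp with h | h
      · exact hS1 p h
      · exact hS2 p h
    · intro C hC1 hC2
      rcases Nat.lt_or_ge B C with hlt | hge
      · have hCB : C = B + 1 := by omega
        subst hCB
        refine H2.mono hμ Finset.subset_union_right (min_le_right _ _) dvd_rfl ?_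
        rw [← hx2e]
        exact Nat.add_modEq_right
      · exact (H1 C hC1 hge).mono hμ Finset.subset_union_left (min_le_left _ _) hW1M
          (Nat.ModEq.mul_left C hx2m)

end Pool.Agent.FinClique
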