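import Pool.Agent.Lib.MP_60922f_co.FIN.ChainB82

/-!
FIN chain, part C: the integers, smallest first, by the union bound.
-/

open Finset

namespace Pool.Agent.FinClique

theorem SubMean.biUnion_le {μ : Set ℕ → ℝ} (hμ : SubMean μ) {ι : Type*} (s : Finset ι)
    (B : ι → Set ℕ) : μ (⋃ i ∈ s, B i) ≤ ∑ i ∈ s, μ (B i) := by
  classical
  induction s using Finset.induction_on with
  | empty => simp [hμ.finite ∅ Set.finite_empty]
  | insert a s ha ih =>
    rw [Finset.set_biUnion_insert, Finset.sum_insert ha]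
    exact le_trans (hμ.union _ _) (by linarith)

/-- union bound inside a class, with positive measure -/
theorem SubMean.pos_good {μ : Set ℕ → ℝ} (hμ : SubMean μ) {ι : Type*} (s : Finset ι)
    (B : ι → Set ℕ) (e : ι → ℝ) (a q : ℕ) (hq : 0 < q)
    (hB : ∀ i ∈ s, μ {x | x ≡ a [MOD q] ∧ x ∈ B i} ≤ e i * μ {x | x ≡ a [MOD q]})
    (he : ∑ i ∈ s, e i < 1) (T : ℕ) :
    0 < μ {x | x ≡ a [MOD q] ∧ T < x ∧ ∀ i ∈ s, x ∉ B i} := by
  classical
  have hsub : {x | x ≡ a [MOD q]} ⊆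
      {x | x ≡ a [MOD q] ∧ T < x ∧ ∀ i ∈ s, x ∉ B i} ∪
      ((⋃ i ∈ s, {x | x ≡ a [MOD q] ∧ x ∈ B i}) ∪ {x | x ≤ T}) := by
    intro x hx
    by_cases h : T < x
    · by_cases h' : ∀ i ∈ s, x ∉ B i
      · left; exact ⟨hx, h, h'⟩
      · push Not at h'
        obtain ⟨i, his, hiB⟩ := h'
        right; left
        simp only [Set.mem_iUnion]
        exact ⟨i, his, hx, hiB⟩
    · right; right; exact not_lt.1 h
  have h1 := hμ.mono _ _ hsub
  have h1' := hμ.union {x | x ≡ a [MOD q] ∧ T < x ∧ ∀ i ∈ s, x ∉ B i}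
    ((⋃ i ∈ s, {x | x ≡ a [MOD q] ∧ x ∈ B i}) ∪ {x | x ≤ T})
  have h2 := hμ.union (⋃ i ∈ s, {x | x ≡ a [MOD q] ∧ x ∈ B i}) {x | x ≤ T}
  have h3 := hμ.biUnion_le s (fun i => {x | x ≡ a [MOD q] ∧ x ∈ B i})
  have h4 := hμ.finite {x | x ≤ T} (Set.finite_le_nat T)
  have h5 := hμ.cls a q hq
  have h6 : ∑ i ∈ s, μ {x | x ≡ a [MOD q] ∧ x ∈ B i} ≤
      ∑ i ∈ s, e i * μ {x | x ≡ a [MOD q]} := Finset.sum_le_sum hB
  rw [← Finset.sum_mul] at h6
  have h7 : (∑ i ∈ s, e i) * μ {x | x ≡ a [MOD q]} < 1 * μ {x | x ≡ a [MOD q]} :=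
    mul_lt_mul_of_pos_right he h5
  linarith

/-- menus on `G`, extended by `1` -/
noncomputable def ext {G : Finset ℕ} (φ : (a : ℕ) → a ∈ G → ℕ) : ℕ → ℕ := by
  classical
  exact fun h => if hh : h ∈ G then φ h hh else 1

theorem ext_mem {G : Finset ℕ} (φ : (a : ℕ) → a ∈ G → ℕ) {g : ℕ} (hg : g ∈ G) :
    ext φ g = φ g hg := by
  unfold ext; simp [hg]

variable {μ : Set ℕ → ℝ} {f : ℕ → Bool} {n : ℕ} {r : ℕ → ℕ} {S : ℕ → Finset (ℕ × ℕ)}
  {d : ℕ → ℝ} {W : ℕ} {ρ : ℕ → ℕ}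

/-- the integers chosen for the indices `g ≤ h < n` -/
structure Picked (f : ℕ → Bool) (n g : ℕ) (r : ℕ → ℕ) (S : ℕ → Finset (ℕ × ℕ)) (d : ℕ → ℝ)
    (W : ℕ) (ρ : ℕ → ℕ) (K : ℕ) (H : ℕ → ℕ) (t : ℕ → ℕ) : Prop where
  res : ∀ h, g ≤ h → h < n → t h ≡ ρ h [MOD W]
  big : ∀ h, g ≤ h → h < n → ∏ k ∈ Ico (h + 1) n, r k * t k +
    ∑ m ∈ range (∏ k ∈ Ico (h + 1) n, r k * t k + 1), H m < t h
  rich : ∀ h, g ≤ h → h < n → ∀ G : Finset ℕ, G ⊆ Ico h n → h ∈ G →
    ∀ i : ℕ → ℕ, (∀ k ∈ G, 1 ≤ i k ∧ i k ≤ r k) →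
    ∃ L, K * ∏ k ∈ Ico (h + 1) n, r k * t k ≤ L ∧
      ∃ p ∈ S (top G), Rich f p.1 p.2 (d (top G)) L (∏ k ∈ G, i k * t k)

theorem pick_succ (hμ : SubMean μ) (H : Stg μ f n n r S d W ρ) {g : ℕ} (hg : g < n) (K : ℕ)
    (Hf : ℕ → ℕ) {t : ℕ → ℕ} (P : Picked f n (g + 1) r S d W ρ K Hf t) :
    0 < μ {x | Picked f n g r S d W ρ K Hf (Function.update t g x)} := by
  classical
  have htpos : ∀ h, g + 1 ≤ h → h < n → 0 < t h := fun h h1 h2 =>
    lt_of_le_of_lt (Nat.zero_le _) (P.big h h1 h2)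
  -- the index set
  set Gs : Finset (Finset ℕ) := (Ico g n).powerset.filter (fun G => g ∈ G) with hGs
  have hGsmem : ∀ G, G ∈ Gs ↔ G ⊆ Ico g n ∧ g ∈ G := by
    intro G; simp [hGs, mem_powerset]
  set I : Finset (Σ G : Finset ℕ, ((a : ℕ) → a ∈ G → ℕ)) :=
    Gs.sigma (fun G => G.pi (fun h => Icc 1 (r h))) with hI
  -- for every index the multiplier and the window
  have key : ∀ k ∈ I, ∃ L, K * ∏ h ∈ Ico (g + 1) n, r h * t h ≤ L ∧
      μ {x | x ≡ ρ g [MOD W] ∧ ¬ ∃ p ∈ S (top k.1), Rich f p.1 p.2 (d (top k.1)) L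
        ((ext k.2 g * ∏ h ∈ k.1.erase g, ext k.2 h * t h) * x)} ≤
        err n r k.1 * μ {x | x ≡ ρ g [MOD W]} := by
    rintro ⟨G, φ⟩ hk
    obtain ⟨hG, hφ⟩ := Finset.mem_sigma.1 hk
    simp only at hG hφ ⊢
    obtain ⟨hGsub, hgG⟩ := (hGsmem G).1 hG
    have hφ' := Finset.mem_pi.1 hφ
    have hmenu : ∀ h ∈ G, 1 ≤ ext φ h ∧ ext φ h ≤ r h := by
      intro h hh
      rw [ext_mem φ hh]
      exact Finset.mem_Icc.1 (hφ' h hh)
    have hst := H.stb G (fun x hx => by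
      have := Finset.mem_Ico.1 (hGsub hx); exact mem_range.2 this.2) ⟨g, hgG⟩ (ext φ) hmenu
    have hXpos : 0 < ext φ g * ∏ h ∈ G.erase g, ext φ h * t h := by
      refine Nat.mul_pos (hmenu g hgG).1 (Finset.prod_pos (fun h hh => ?_))
      have h1 := Finset.mem_of_mem_erase hh
      have h2 := Finset.ne_of_mem_erase hh
      have h3 := Finset.mem_Ico.1 (hGsub h1)
      exact Nat.mul_pos (hmenu h h1).1 (htpos h (by omega) h3.2)
    refine hst _ W (ρ g) hXpos H.W_pos ?_ _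
    intro x hx
    rw [← Finset.mul_prod_erase G (fun h => ext φ h * ρ h) hgG]
    have h1 : ∏ h ∈ G.erase g, ext φ h * t h ≡ ∏ h ∈ G.erase g, ext φ h * ρ h [MOD W] := by
      refine Nat.ModEq.prod (fun h hh => ?_)
      have h1 := Finset.mem_of_mem_erase hh
      have h2 := Finset.ne_of_mem_erase hh
      have h3 := Finset.mem_Ico.1 (hGsub h1)
      exact Nat.ModEq.mul_left _ (P.res h (by omega) h3.2)
    have h2 : (ext φ g * ∏ h ∈ G.erase g, ext φ h * t h) * x =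
        ext φ g * x * ∏ h ∈ G.erase g, ext φ h * t h := by ring
    rw [h2]
    exact Nat.ModEq.mul (Nat.ModEq.mul_left _ hx) h1
  choose! L hL1 hL2 using key
  -- total error
  have hrpos : ∀ G : Finset ℕ, (0 : ℝ) < ∏ h ∈ G, (r h : ℝ) := fun G =>
    Finset.prod_pos (fun h _ => by exact_mod_cast H.r_pos h)
  have hsum : ∑ k ∈ I, err n r k.1 < 1 := by
    rw [hI, Finset.sum_sigma]
    have h1 : ∀ G ∈ Gs, ∑ φ ∈ G.pi (fun h => Icc 1 (r h)), err n r G = 1 / 2 ^ (n + 1) := by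
      intro G hG
      rw [Finset.sum_const, Finset.card_pi]
      simp only [Nat.card_Icc, Nat.add_sub_cancel, nsmul_eq_mul, Nat.cast_prod]
      unfold err
      have := hrpos G
      field_simp
    rw [Finset.sum_congr rfl h1, Finset.sum_const, nsmul_eq_mul]
    have h2 : (Gs.card : ℝ) ≤ 2 ^ n := by
      have h3 : Gs.card ≤ (Ico g n).powerset.card := Finset.card_filter_le _ _
      rw [Finset.card_powerset, Nat.card_Ico] at h3
      have h4 : 2 ^ (n - g) ≤ 2 ^ n := Nat.pow_le_pow_right (by norm_num) (by omega)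
      exact_mod_cast h3.trans h4
    have h5 : (0 : ℝ) < 2 ^ n := by positivity
    calc (Gs.card : ℝ) * (1 / 2 ^ (n + 1)) ≤ 2 ^ n * (1 / 2 ^ (n + 1)) := by gcongr
      _ = 1 / 2 := by rw [pow_succ]; field_simp
      _ < 1 := by norm_num
  have hposet := hμ.pos_good I
    (fun k => {x | ¬ ∃ p ∈ S (top k.1), Rich f p.1 p.2 (d (top k.1)) (L k)
        ((ext k.2 g * ∏ h ∈ k.1.erase g, ext k.2 h * t h) * x)}) (fun k => err n r k.1) (ρ g) W
    H.W_pos hL2 hsum (∏ k ∈ Ico (g + 1) n, r k * t k +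
      ∑ m ∈ range (∏ k ∈ Ico (g + 1) n, r k * t k + 1), Hf m)
  refine lt_of_lt_of_le hposet (hμ.mono _ _ ?_)
  rintro x ⟨hx1, hx2, hx3⟩
  show Picked f n g r S d W ρ K Hf (Function.update t g x)
  -- the new function
  set t' : ℕ → ℕ := Function.update t g x with ht'
  have ht'g : t' g = x := by simp [ht']
  have ht'ne : ∀ h, h ≠ g → t' h = t h := fun h hh => by simp [ht', Function.update_of_ne hh]
  have hprod : ∀ h, g ≤ h → ∏ k ∈ Ico (h + 1) n, r k * t' k = ∏ k ∈ Ico (h + 1) n, r k * t k := by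
    intro h hh
    refine Finset.prod_congr rfl (fun k hk => ?_)
    have := Finset.mem_Ico.1 hk
    rw [ht'ne k (by omega)]
  refine ⟨?_, ?_, ?_⟩
  · intro h h1 h2
    by_cases hh : h = g
    · rw [hh, ht'g]; exact hx1
    · rw [ht'ne h hh]; exact P.res h (by omega) h2
  · intro h h1 h2
    rw [hprod h h1]
    by_cases hh : h = g
    · rw [hh, ht'g]; exact hx2
    · rw [ht'ne h hh]; exact P.big h (by omega) h2
  · intro h h1 h2 G hG hhG i hi
    rw [hprod h h1]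
    by_cases hh : h = g
    · subst hh
      -- restrict the menu
      have hmem : (⟨G, fun a _ => i a⟩ : Σ G : Finset ℕ, ((a : ℕ) → a ∈ G → ℕ)) ∈ I := by
        rw [hI, Finset.mem_sigma]
        refine ⟨(hGsmem G).2 ⟨hG, hhG⟩, Finset.mem_pi.2 (fun a ha => ?_)⟩
        exact Finset.mem_Icc.2 (hi a ha)
      have h3 := hx3 _ hmem
      simp only [Set.mem_ofPred_eq, not_not] at h3
      refine ⟨_, hL1 _ hmem, ?_⟩
      have h4 : (ext (fun a (_ : a ∈ G) => i a) h *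
          ∏ k ∈ G.erase h, ext (fun a (_ : a ∈ G) => i a) k * t k) * x =
          ∏ k ∈ G, i k * t' k := by
        rw [← Finset.mul_prod_erase G (fun k => i k * t' k) hhG, ht'g, ext_mem _ hhG]
        have h5 : ∏ k ∈ G.erase h, ext (fun a (_ : a ∈ G) => i a) k * t k =
            ∏ k ∈ G.erase h, i k * t' k := by
          refine Finset.prod_congr rfl (fun k hk => ?_)
          rw [ext_mem _ (Finset.mem_of_mem_erase hk), ht'ne k (Finset.ne_of_mem_erase hk)]
        rw [h5]; ring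
      rw [h4] at h3
      exact h3
    · have h6 : ∏ k ∈ G, i k * t' k = ∏ k ∈ G, i k * t k := by
        refine Finset.prod_congr rfl (fun k hk => ?_)
        have := Finset.mem_Ico.1 (hG hk)
        rw [ht'ne k (by omega)]
      rw [h6]
      exact P.rich h (by omega) h2 G hG hhG i hi

/-- iterated positivity: `x_{g-1}, …, x_0` can be chosen with positive measure one after the other -/
def Rg (μ : Set ℕ → ℝ) (Φ : (ℕ → ℕ) → Prop) : ℕ → (ℕ → ℕ) → Prop
  | 0, t => Φ t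
  | g + 1, t => 0 < μ {x | Rg μ Φ g (Function.update t g x)}

theorem picked_n (t : ℕ → ℕ) (K : ℕ) (Hf : ℕ → ℕ) : Picked f n n r S d W ρ K Hf t :=
  ⟨fun h h1 h2 => absurd h2 (by omega), fun h h1 h2 => absurd h2 (by omega),
    fun h h1 h2 => absurd h2 (by omega)⟩

theorem picked_Rg (hμ : SubMean μ) (H : Stg μ f n n r S d W ρ) (K : ℕ) (Hf : ℕ → ℕ) :
    ∀ g, g ≤ n → ∀ t, Picked f n g r S d W ρ K Hf t →
      Rg μ (Picked f n 0 r S d W ρ K Hf) g t := by
  intro g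
  induction g with
  | zero => intro _ t h; exact h
  | succ g ih =>
    intro hg t h
    show 0 < μ _
    refine lt_of_lt_of_le (pick_succ hμ H (by omega) K Hf h) (hμ.mono _ _ ?_)
    intro x hx
    exact ih (by omega) _ hx

theorem Rg.mono (hμ : SubMean μ) {Φ Ψ : (ℕ → ℕ) → Prop} (h : ∀ t, Φ t → Ψ t) :
    ∀ g t, Rg μ Φ g t → Rg μ Ψ g t := by
  intro g
  induction g with
  | zero => intro t ht; exact h t ht
  | succ g ih =>
    intro t ht
    show 0 < μ _
    exact lt_of_lt_of_le ht (hμ.mono _ _ (fun x hx => ih _ hx))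

/-- a finite partition of the data: one part is met with iterated positivity -/
theorem Rg.pigeon (hμ : SubMean μ) {β : Type*} [Fintype β] {Φ : (ℕ → ℕ) → Prop}
    (D : (ℕ → ℕ) → β) : ∀ g t, Rg μ Φ g t → ∃ b, Rg μ (fun t => Φ t ∧ D t = b) g t := by
  classical
  intro g
  induction g with
  | zero => intro t ht; exact ⟨D t, ht, rfl⟩
  | succ g ih =>
    intro t ht
    by_contra hcon
    push Not at hcon
    have h1 : {x | Rg μ Φ g (Function.update t g x)} ⊆
        ⋃ b ∈ (Finset.univ : Finset β),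
          {x | Rg μ (fun t => Φ t ∧ D t = b) g (Function.update t g x)} := by
      intro x hx
      obtain ⟨b, hb⟩ := ih _ hx
      simp only [Set.mem_iUnion]
      exact ⟨b, Finset.mem_univ b, hb⟩
    have h2 := hμ.mono _ _ h1
    have h3 := hμ.biUnion_le (Finset.univ : Finset β)
      (fun b => {x | Rg μ (fun t => Φ t ∧ D t = b) g (Function.update t g x)})
    have h4 : ∑ b ∈ (Finset.univ : Finset β),
        μ {x | Rg μ (fun t => Φ t ∧ D t = b) g (Function.update t g x)} ≤ 0 :=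
      Finset.sum_nonpos (fun b _ => not_lt.1 (hcon b))
    have h5 : 0 < μ {x | Rg μ Φ g (Function.update t g x)} := ht
    linarith

theorem SubMean.nonempty (hμ : SubMean μ) {A : Set ℕ} (h : 0 < μ A) : A.Nonempty := by
  rcases Set.eq_empty_or_nonempty A with h0 | h0
  · rw [h0, hμ.finite ∅ Set.finite_empty] at h
    exact absurd h (lt_irrefl 0)
  · exact h0

/-- go down from level `n` to level `g` -/
theorem Rg.down (hμ : SubMean μ) {Φ : (ℕ → ℕ) → Prop} {g : ℕ} : ∀ m, g ≤ m → ∀ t, Rg μ Φ m t →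
    ∃ t', (∀ k, m ≤ k → t' k = t k) ∧ Rg μ Φ g t' := by
  intro m
  induction m with
  | zero =>
    intro hg t ht
    have : g = 0 := by omega
    subst this
    exact ⟨t, fun _ _ => rfl, ht⟩
  | succ m ih =>
    intro hg t ht
    rcases Nat.lt_or_ge m g with h | h
    · have : g = m + 1 := by omega
      subst this
      exact ⟨t, fun _ _ => rfl, ht⟩
    · obtain ⟨x, hx⟩ := hμ.nonempty (A := {x | Rg μ Φ m (Function.update t m x)}) ht
      obtain ⟨t', h1, h2⟩ := ih h _ hx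
      refine ⟨t', fun k hk => ?_, h2⟩
      rw [h1 k (by omega), Function.update_of_ne (by omega)]

end Pool.Agent.FinClique
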