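import Pool.Agent.Lib.MP_60922f_co.FIN.M12_82
import Pool.Agent.Lib.MP_60922f_co.FIN.ChainC82

/-!
FIN chain for finite sums and finite products, part B: constants and residues, stage by stage.
The terms are sums of products over families of finite sets of indices.
-/

set_option autoImplicit false

open Finset

namespace Pool.Agent.FinFS
open Pool.Agent.FinClique Pool.Agent.FinA

/-- simultaneous recurrence for finitely many rich numbers, any index type -/
def RecG (ι : Type) (f : ℕ → Bool) (δ : ℝ) (S q C : ℕ) : Prop :=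
  1 ≤ q ∧ ∀ (s : Finset ι) (p : ι → ℕ × ℕ)
    (z a N : ι → ℕ) (d : ι → ℝ) (t : ℕ),
    s.card ≤ S → 0 < t →
    (∀ l ∈ s, 0 < a l ∧ 0 < d l ∧ 0 < (p l).1 ∧ (p l).1 < (p l).2 ∧ step (p l) ∣ t ∧
      Rich f (p l).1 (p l).2 (d l) (N l) (z l) ∧ C * ((p l).2 ^ 2 * (t * a l)) ≤ N l) →
    δ ≤ ∏ l ∈ s, d l → ∃ i, 1 ≤ i ∧ i ≤ q ∧ ∀ l ∈ s, f (z l + i * t * a l) = f (z l)

theorem recG (ι : Type) (f : ℕ → Bool) (δ : ℝ) (hδ : 0 < δ) :
    ∃ q : ℕ, 1 ≤ q ∧ ∀ S : ℕ, RecG ι f δ S q (4 * q * S) := by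
  obtain ⟨q, hq, H⟩ := Pool.Agent.FIN.simul_corners_nat δ hδ
  refine ⟨q, hq, fun S => ⟨hq, ?_⟩⟩
  intro s p z a N d t hs ht hl hprod
  classical
  have key : ∀ l ∈ s, ∃ n0 : ℕ, ∃ E : Finset ℕ, E ⊆ Finset.Ico n0 (n0 + N l) ∧
      d l * N l ≤ (E.card : ℝ) ∧
      (∀ n ∈ E, (p l).2 * n < z l ∧ (p l).1 ∣ z l - (p l).2 * n) ∧
      ∀ n' ∈ E, ∀ n'' ∈ E, f ((p l).2 * n' + (z l - (p l).2 * n'')) =
        f ((p l).1 * n' + (p l).2 * ((z l - (p l).2 * n'') / (p l).1)) :=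
    fun l hls => (hl l hls).2.2.2.2.2.1
  choose! n0 E hE1 hE2 hE3 hE4 using key
  have hcard : Fintype.card {x // x ∈ s} ≤ S := by simpa using hs
  have hstep : ∀ l ∈ s, ∃ c, t = step (p l) * c := fun l hls => (hl l hls).2.2.2.2.1
  choose! c hc using hstep
  have hwin : ∀ l ∈ s, 2 * q * ((p l).1 ^ 2 * (c l * a l) + (p l).2 ^ 2 * (c l * a l)) * S ≤ N l := by
    intro l hls
    obtain ⟨ha, hd, hp1, hp2, hst, hr, hN⟩ := hl l hls
    have h1 : (p l).1 ^ 2 ≤ (p l).2 ^ 2 := Nat.pow_le_pow_left hp2.le 2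
    have h2 : c l ≤ t := by
      rcases Nat.eq_zero_or_pos (step (p l)) with h0 | h0
      · rw [hc l hls, h0] at ht; simp at ht
      · rw [hc l hls]; exact Nat.le_mul_of_pos_left _ h0
    calc 2 * q * ((p l).1 ^ 2 * (c l * a l) + (p l).2 ^ 2 * (c l * a l)) * S
        ≤ 2 * q * ((p l).2 ^ 2 * (t * a l) + (p l).2 ^ 2 * (t * a l)) * S := by gcongr
      _ = 4 * q * S * ((p l).2 ^ 2 * (t * a l)) := by ring
      _ ≤ N l := hN
  have hNpos : ∀ l ∈ s, 0 < N l := by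
    intro l hls
    obtain ⟨ha, hd, hp1, hp2, hst, hr, hN⟩ := hl l hls
    have hS : 0 < S := lt_of_lt_of_le (Finset.card_pos.2 ⟨l, hls⟩) hs
    have hv : 0 < (p l).2 := lt_trans hp1 hp2
    refine lt_of_lt_of_le ?_ hN
    positivity
  obtain ⟨i, hi1, hiq, hi⟩ := H (ι := {x // x ∈ s}) (fun l => E l.1) (fun l => n0 l.1)
    (fun l => N l.1) (fun l => d l.1) (fun l => (p l.1).1 ^ 2 * (c l.1 * a l.1))
    (fun l => (p l.1).2 ^ 2 * (c l.1 * a l.1)) (fun l => hNpos _ l.2) (fun l => hE1 _ l.2)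
    (fun l => (hl _ l.2).2.1.le) (fun l => hE2 _ l.2)
    (by rw [Finset.prod_coe_sort s d]; exact hprod)
    (fun l => le_trans (Nat.mul_le_mul_left _ hcard) (hwin _ l.2))
  refine ⟨i, hi1, hiq, fun l hls => ?_⟩
  obtain ⟨n, hn, hn1, hn2⟩ := hi ⟨l, hls⟩
  obtain ⟨ha, hd, hp1, hp2, hst, hr, hN⟩ := hl l hls
  have h1 : n + (p l).1 ^ 2 * (i * (c l * a l)) ∈ E l := by
    have : n + i * ((p l).1 ^ 2 * (c l * a l)) = n + (p l).1 ^ 2 * (i * (c l * a l)) := by ring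
    rw [← this]; exact hn1
  have h2 : n + (p l).2 ^ 2 * (i * (c l * a l)) ∈ E l := by
    have : n + i * ((p l).2 ^ 2 * (c l * a l)) = n + (p l).2 ^ 2 * (i * (c l * a l)) := by ring
    rw [← this]; exact hn2
  have h3 := shift hp1 hp2 (hE3 l hls) (hE4 l hls) hn h1 h2
  have h4 : i * t * a l = step ((p l).1, (p l).2) * (i * (c l * a l)) := by
    have := hc l hls
    calc i * t * a l = i * (step (p l) * c l) * a l := by rw [← this]
      _ = _ := by simp only [Prod.mk.eta]; ring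
  rw [h4]
  exact h3

theorem affMono {μ : Set ℕ → ℝ} (hμ : SubMean μ) {f : ℕ → Bool} {e d d' : ℝ}
    {S S' : Finset (ℕ × ℕ)} {M b M' b' : ℕ} (h : StabAffAt μ f e S d M b) (hS : S ⊆ S')
    (hd : d' ≤ d) (hM : M ∣ M') (hb : b' ≡ b [MOD M]) : StabAffAt μ f e S' d' M' b' := by
  intro X T q a hX hq hx L₀
  obtain ⟨L, hL, h1⟩ := h X T q a hX hq (fun x hxa => ((hx x hxa).of_dvd hM).trans hb) L₀
  refine ⟨L, hL, le_trans (hμ.mono _ _ ?_) h1⟩
  rintro x ⟨hx1, hx2⟩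
  refine ⟨hx1, fun ⟨p, hp, hr⟩ => hx2 ⟨p, hS hp, hr.mono hd⟩⟩

theorem affMono_e {μ : Set ℕ → ℝ} (hμ : SubMean μ) {f : ℕ → Bool} {e e' d : ℝ}
    {S : Finset (ℕ × ℕ)} {M b : ℕ} (h : StabAffAt μ f e S d M b) (he : e ≤ e') :
    StabAffAt μ f e' S d M b := by
  intro X T q a hX hq hx L₀
  obtain ⟨L, hL, h1⟩ := h X T q a hX hq hx L₀
  exact ⟨L, hL, le_trans h1 (mul_le_mul_of_nonneg_right he (hμ.cls a q hq).le)⟩

/-- Refinement of one residue so that finitely many affine images `C x + c` become stable. -/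
theorem refine_aff {μ : Set ℕ → ℝ} (hμ : SubMean μ) {f : ℕ → Bool} (hS : StabAff μ f) {e : ℝ}
    (he : 0 < e) (W x : ℕ) (hW : 0 < W) (hW2 : 2 ∣ W) (hx2 : 2 ∣ x) (hx : 0 < x)
    (P : Finset (ℕ × ℕ)) :
    (∀ p ∈ P, 1 ≤ p.1 ∧ 2 ∣ p.2) →
    ∃ (W' x' : ℕ) (S : Finset (ℕ × ℕ)) (d : ℝ), 0 < W' ∧ W ∣ W' ∧ x' ≡ x [MOD W] ∧ 0 < x' ∧
      0 < d ∧ (∀ p ∈ S, 0 < p.1 ∧ p.1 < p.2) ∧
      ∀ p ∈ P, StabAffAt μ f e S d W' (p.1 * x' + p.2) := by
  classical
  induction P using Finset.induction_on with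
  | empty =>
    intro _
    exact ⟨W, x, ∅, 1, hW, dvd_rfl, Nat.ModEq.refl _, hx, one_pos, by simp, by simp⟩
  | insert p₀ P hp₀ ih =>
    intro hP
    obtain ⟨W1, x1, S1, d1, hW1, hWW1, hx1, hx1p, hd1, hS1, H1⟩ :=
      ih (fun p hp => hP p (Finset.mem_insert_of_mem hp))
    obtain ⟨hC, hc⟩ := hP p₀ (Finset.mem_insert_self _ _)
    set C := p₀.1 with hCdef
    set c := p₀.2 with hcdef
    have h2W1 : 2 ∣ W1 := hW2.trans hWW1
    have h2x1 : 2 ∣ x1 := (hx1.of_dvd hW2).dvd_iff (dvd_refl 2) |>.2 hx2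
    obtain ⟨M, b, S2, d2, hM, hQM, hb, hd2, hS2, H2⟩ :=
      hS e he (C * W1) (C * x1 + c) (Nat.mul_pos hC hW1) (h2W1.mul_left _)
        (dvd_add (h2x1.mul_left _) hc)
    have hCM : C ∣ M := (Dvd.intro _ rfl).trans hQM
    have hW1M : W1 ∣ M := (Dvd.intro_left _ rfl).trans hQM
    -- `b + M (c + 1) - c` is a positive multiple of `C`
    have hbig : c < b + M * (c + 1) := by
      have : c + 1 ≤ M * (c + 1) := Nat.le_mul_of_pos_left _ hM
      omega
    have hb' : b + M * (c + 1) ≡ C * x1 + c [MOD C * W1] := by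
      have h3 : b + M * (c + 1) ≡ b + 0 [MOD C * W1] :=
        Nat.ModEq.add_left b ((Nat.modEq_zero_iff_dvd).2 (hQM.mul_right _))
      simpa using h3.trans hb
    obtain ⟨y, hy⟩ : ∃ y, b + M * (c + 1) = y + c := ⟨b + M * (c + 1) - c, by omega⟩
    have hypos : 0 < y := by omega
    have hy' : y ≡ C * x1 [MOD C * W1] := by
      rw [hy] at hb'
      exact Nat.ModEq.add_right_cancel' c hb'
    have hdiv : C ∣ y := by
      have h3 : y ≡ C * x1 [MOD C] := hy'.of_dvd (Dvd.intro _ rfl)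
      exact (h3.dvd_iff (dvd_refl _)).2 (Dvd.intro _ rfl)
    obtain ⟨x2, hx2e⟩ := hdiv
    have hx2m : x2 ≡ x1 [MOD W1] := by
      rw [hx2e] at hy'
      exact Nat.ModEq.mul_left_cancel' (by omega) hy'
    have hx2p : 0 < x2 := by
      rcases Nat.eq_zero_or_pos x2 with h0 | h0
      · rw [h0, Nat.mul_zero] at hx2e; omega
      · exact h0
    refine ⟨M, x2, S1 ∪ S2, min d1 d2, hM, hWW1.trans hW1M,
      (hx2m.of_dvd hWW1).trans hx1, hx2p, lt_min hd1 hd2, ?_, ?_⟩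
    · intro p hp
      rcases Finset.mem_union.1 hp with h | h
      · exact hS1 p h
      · exact hS2 p h
    · intro p hp
      rcases Finset.mem_insert.1 hp with h | h
      · subst h
        refine affMono hμ H2 Finset.subset_union_right (min_le_right _ _) dvd_rfl ?_
        have h4 : C * x2 + c = b + M * (c + 1) := by rw [hy, hx2e]
        rw [h4]
        have h5 : b + M * (c + 1) ≡ b + 0 [MOD M] :=
          Nat.ModEq.add_left b ((Nat.modEq_zero_iff_dvd).2 (Dvd.intro _ rfl))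
        rwa [add_zero] at h5
      · exact affMono hμ (H1 p h) Finset.subset_union_left (min_le_left _ _) hW1M
          (Nat.ModEq.add_right _ (Nat.ModEq.mul_left _ hx2m))

/-- the support of a family -/
def supp (GG : Finset (Finset ℕ)) : Finset ℕ := GG.biUnion id

theorem mem_supp {GG : Finset (Finset ℕ)} {a : ℕ} : a ∈ supp GG ↔ ∃ G ∈ GG, a ∈ G := by
  simp [supp]

theorem sub_supp {GG : Finset (Finset ℕ)} {G : Finset ℕ} (h : G ∈ GG) : G ⊆ supp GG :=
  fun _ ha => mem_supp.2 ⟨G, h, ha⟩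

/-- the term of a family: the sum of the products -/
def zz (i t : ℕ → ℕ) (GG : Finset (Finset ℕ)) : ℕ := ∑ G ∈ GG, ∏ g ∈ G, i g * t g

theorem zz_congr {i i' t t' : ℕ → ℕ} {GG : Finset (Finset ℕ)}
    (h : ∀ g ∈ supp GG, i g = i' g ∧ t g = t' g) : zz i t GG = zz i' t' GG :=
  Finset.sum_congr rfl fun G hG => Finset.prod_congr rfl fun g hg => by
    rw [(h g (sub_supp hG hg)).1, (h g (sub_supp hG hg)).2]

/-- the recurrence conditions at stage `j` -/
def itemsF (j : ℕ) : Finset (Finset (Finset ℕ) × Finset ℕ) :=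
  ((range j).powerset.powerset ×ˢ (range j).powerset).filter
    (fun l => l.1.Nonempty ∧ (∀ G ∈ l.1, G.Nonempty) ∧ ∀ a ∈ supp l.1, ∀ b ∈ l.2, a < b)

theorem mem_itemsF {j : ℕ} {l : Finset (Finset ℕ) × Finset ℕ} :
    l ∈ itemsF j ↔ (supp l.1 ⊆ range j ∧ l.2 ⊆ range j) ∧ l.1.Nonempty ∧
      (∀ G ∈ l.1, G.Nonempty) ∧ ∀ a ∈ supp l.1, ∀ b ∈ l.2, a < b := by
  rw [itemsF, Finset.mem_filter, Finset.mem_product, Finset.mem_powerset, Finset.mem_powerset]
  have h : l.1 ⊆ (range j).powerset ↔ supp l.1 ⊆ range j := by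
    constructor
    · intro h a ha
      obtain ⟨G, hG, haG⟩ := mem_supp.1 ha
      exact Finset.mem_powerset.1 (h hG) haG
    · intro h G hG
      exact Finset.mem_powerset.2 ((sub_supp hG).trans h)
  rw [h]

theorem supp_nonempty {GG : Finset (Finset ℕ)} (h : GG.Nonempty) (h' : ∀ G ∈ GG, G.Nonempty) :
    (supp GG).Nonempty := by
  obtain ⟨G, hG⟩ := h
  obtain ⟨g, hg⟩ := h' G hG
  exact ⟨g, mem_supp.2 ⟨G, hG, hg⟩⟩

/-- admissible error for the family `GG` -/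
noncomputable def errF (n : ℕ) (r : ℕ → ℕ) (GG : Finset (Finset ℕ)) : ℝ :=
  1 / (2 ^ (2 ^ n + 1) * ∏ h ∈ supp GG, (r h : ℝ))

/-- The state after `j` stages. -/
structure StgF (μ : Set ℕ → ℝ) (f : ℕ → Bool) (n j : ℕ) (r : ℕ → ℕ) (S : ℕ → Finset (ℕ × ℕ))
    (d : ℕ → ℝ) (W : ℕ) (ρ : ℕ → ℕ) : Prop where
  r_pos : ∀ g, 1 ≤ r g
  W_pos : 0 < W
  W_two : 2 ∣ W
  ρ_pos : ∀ g, g < j → 0 < ρ g
  ρ_two : ∀ g, g < j → 2 ∣ ρ g
  d_pos : ∀ g, 0 < d g
  S_ok : ∀ g, ∀ p ∈ S g, 0 < p.1 ∧ p.1 < p.2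
  stp : ∀ g, g < j → ∀ k, k < g → ∀ p ∈ S k, step p ∣ ρ g ∧ step p ∣ W
  rcr : ∀ g, g < j → ∀ Z, RecG (Finset (Finset ℕ) × Finset ℕ) f
    (∏ l ∈ itemsF g, d (top (supp l.1))) Z (r g) (4 * r g * Z)
  stb : ∀ GG : Finset (Finset ℕ), supp GG ⊆ range j → GG.Nonempty → (∀ G ∈ GG, G.Nonempty) →
    ∀ i : ℕ → ℕ, (∀ g ∈ supp GG, 1 ≤ i g ∧ i g ≤ r g) →
    StabAffAt μ f (errF n r GG) (S (top (supp GG))) (d (top (supp GG))) W (zz i ρ GG)

theorem stgF_zero (μ : Set ℕ → ℝ) (f : ℕ → Bool) (n : ℕ) :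
    StgF μ f n 0 (fun _ => 1) (fun _ => ∅) (fun _ => 1) 2 (fun _ => 1) where
  r_pos := fun _ => le_rfl
  W_pos := two_pos
  W_two := dvd_rfl
  ρ_pos := fun g hg => absurd hg (Nat.not_lt_zero g)
  ρ_two := fun g hg => absurd hg (Nat.not_lt_zero g)
  d_pos := fun _ => one_pos
  S_ok := fun g p hp => absurd hp (Finset.notMem_empty p)
  stp := fun g hg => absurd hg (Nat.not_lt_zero g)
  rcr := fun g hg => absurd hg (Nat.not_lt_zero g)
  stb := by
    intro GG hG hne hne'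
    obtain ⟨g, hg⟩ := supp_nonempty hne hne'
    have := hG hg
    simp at this

/-- splitting the term of a family at one index -/
theorem zz_split (i t : ℕ → ℕ) (GG : Finset (Finset ℕ)) (j : ℕ) :
    zz i t GG = (i j * ∑ G ∈ GG.filter (fun G => j ∈ G), ∏ g ∈ G.erase j, i g * t g) * t j +
      ∑ G ∈ GG.filter (fun G => j ∉ G), ∏ g ∈ G, i g * t g := by
  classical
  unfold zz
  rw [← Finset.sum_filter_add_sum_filter_not GG (fun G => j ∈ G)]
  congr 1
  rw [Finset.mul_sum, Finset.sum_mul]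
  refine Finset.sum_congr rfl fun G hG => ?_
  rw [← Finset.mul_prod_erase G _ (Finset.mem_filter.1 hG).2]
  ring

theorem stgF_succ {μ : Set ℕ → ℝ} (hμ : SubMean μ) {f : ℕ → Bool} (hS : StabAff μ f) {n j : ℕ}
    {r : ℕ → ℕ} {S : ℕ → Finset (ℕ × ℕ)} {d : ℕ → ℝ} {W : ℕ} {ρ : ℕ → ℕ}
    (H : StgF μ f n j r S d W ρ) :
    ∃ (r' : ℕ → ℕ) (S' : ℕ → Finset (ℕ × ℕ)) (d' : ℕ → ℝ) (W' : ℕ) (ρ' : ℕ → ℕ),
      StgF μ f n (j + 1) r' S' d' W' ρ' := by
  classical
  have hδ : 0 < ∏ l ∈ itemsF j, d (top (supp l.1)) := Finset.prod_pos (fun l _ => H.d_pos _)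
  obtain ⟨q, hq, hrec⟩ := recG (Finset (Finset ℕ) × Finset ℕ) f _ hδ
  -- menus
  set r' : ℕ → ℕ := Function.update r j q with hr'
  have hr'j : r' j = q := by simp [hr']
  have hr'ne : ∀ g, g ≠ j → r' g = r g := fun g hg => by simp [hr', Function.update_of_ne hg]
  have hr'pos : ∀ g, 1 ≤ r' g := by
    intro g
    by_cases h : g = j
    · rw [h, hr'j]; exact hq
    · rw [hr'ne g h]; exact H.r_pos g
  -- the step of all earlier configurations
  set D : ℕ := ∏ k ∈ range j, ∏ p ∈ S k, step p with hD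
  have hDpos : 0 < D := by
    refine Finset.prod_pos (fun k _ => Finset.prod_pos (fun p hp => ?_))
    obtain ⟨h1, h2⟩ := H.S_ok k p hp
    have h3 : p.1 ^ 2 < p.2 ^ 2 := Nat.pow_lt_pow_left h2 two_ne_zero
    exact Nat.mul_pos (lt_trans h1 h2) (Nat.sub_pos_of_lt h3)
  have hDdvd : ∀ k, k < j → ∀ p ∈ S k, step p ∣ D := by
    intro k hk p hp
    exact (Finset.dvd_prod_of_mem _ hp).trans
      (Finset.dvd_prod_of_mem (fun k => ∏ p ∈ S k, step p) (mem_range.2 hk))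
  -- error
  set e : ℝ := 1 / (2 ^ (2 ^ n + 1) * ∏ h ∈ range (j + 1), (r' h : ℝ)) with he
  have hprodpos : ∀ G : Finset ℕ, (0 : ℝ) < ∏ h ∈ G, (r' h : ℝ) := fun G =>
    Finset.prod_pos (fun h _ => by exact_mod_cast hr'pos h)
  have hepos : 0 < e := by
    have := hprodpos (range (j + 1))
    positivity
  have hele : ∀ GG : Finset (Finset ℕ), supp GG ⊆ range (j + 1) → e ≤ errF n r' GG := by
    intro GG hG
    unfold errF
    have h1 : ∏ h ∈ supp GG, (r' h : ℝ) ≤ ∏ h ∈ range (j + 1), (r' h : ℝ) :=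
      Finset.prod_le_prod_of_subset_of_one_le hG (fun h _ => by positivity)
        (fun h _ _ => by exact_mod_cast hr'pos h)
    rw [he]
    apply one_div_le_one_div_of_le
    · have := hprodpos (supp GG); positivity
    · gcongr
  -- bounds for the constants
  set Q0 : ℕ := ∏ g ∈ range j, r' g * ρ g with hQ0
  set B0 : ℕ := 2 ^ (j + 1) * Q0 with hB0
  set B : ℕ := r' j * B0 with hB
  set P : Finset (ℕ × ℕ) := (range (B + 1) ×ˢ range (B0 + 1)).filter
    (fun p => 1 ≤ p.1 ∧ 2 ∣ p.2) with hPdef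
  obtain ⟨W', x', Sj, dj, hW', hWW', hx', hx'pos, hdj, hSj, hst⟩ :=
    refine_aff hμ hS hepos (W * D) (W * D) (Nat.mul_pos H.W_pos hDpos) (H.W_two.mul_right _)
      (H.W_two.mul_right _) (Nat.mul_pos H.W_pos hDpos) P
      (fun p hp => (Finset.mem_filter.1 hp).2)
  have hWdvd : W ∣ W' := (Dvd.intro _ rfl).trans hWW'
  have hDW' : D ∣ W' := (Dvd.intro_left _ rfl).trans hWW'
  have hDx' : D ∣ x' := ((hx'.of_dvd (Dvd.intro_left W rfl)).dvd_iff dvd_rfl).2
    (Dvd.intro_left _ rfl)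
  have h2x' : 2 ∣ x' := ((hx'.of_dvd (H.W_two.mul_right D)).dvd_iff dvd_rfl).2
    (H.W_two.mul_right _)
  set S' : ℕ → Finset (ℕ × ℕ) := Function.update S j Sj with hS'
  set d' : ℕ → ℝ := Function.update d j dj with hd'
  set ρ' : ℕ → ℕ := Function.update ρ j x' with hρ'
  have hS'j : S' j = Sj := by simp [hS']
  have hd'j : d' j = dj := by simp [hd']
  have hρ'j : ρ' j = x' := by simp [hρ']
  have hS'ne : ∀ g, g ≠ j → S' g = S g := fun g hg => by simp [hS', Function.update_of_ne hg]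
  have hd'ne : ∀ g, g ≠ j → d' g = d g := fun g hg => by simp [hd', Function.update_of_ne hg]
  have hρ'ne : ∀ g, g ≠ j → ρ' g = ρ g := fun g hg => by simp [hρ', Function.update_of_ne hg]
  refine ⟨r', S', d', W', ρ', ?_⟩
  constructor
  · exact hr'pos
  · exact hW'
  · exact H.W_two.trans hWdvd
  · intro g hg
    by_cases h : g = j
    · rw [h, hρ'j]; exact hx'pos
    · rw [hρ'ne g h]; exact H.ρ_pos g (by omega)
  · intro g hg
    by_cases h : g = j
    · rw [h, hρ'j]; exact h2x'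
    · rw [hρ'ne g h]; exact H.ρ_two g (by omega)
  · intro g
    by_cases h : g = j
    · rw [h, hd'j]; exact hdj
    · rw [hd'ne g h]; exact H.d_pos g
  · intro g
    by_cases h : g = j
    · rw [h, hS'j]; exact hSj
    · rw [hS'ne g h]; exact H.S_ok g
  · intro g hg k hk p hp
    rw [hS'ne k (by omega)] at hp
    by_cases h : g = j
    · subst h
      rw [hρ'j]
      exact ⟨(hDdvd k hk p hp).trans hDx', (hDdvd k hk p hp).trans hDW'⟩
    · rw [hρ'ne g h]
      have := H.stp g (by omega) k hk p hp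
      exact ⟨this.1, this.2.trans hWdvd⟩
  · intro g hg Z
    have hprod : ∏ l ∈ itemsF g, d' (top (supp l.1)) = ∏ l ∈ itemsF g, d (top (supp l.1)) := by
      refine Finset.prod_congr rfl (fun l hl => ?_)
      obtain ⟨⟨h1, -⟩, h2, h3, -⟩ := mem_itemsF.1 hl
      have := top_lt h1 (supp_nonempty h2 h3)
      rw [hd'ne _ (by omega)]
    rw [hprod]
    by_cases h : g = j
    · subst h
      rw [hr'j]; exact hrec Z
    · rw [hr'ne g h]; exact H.rcr g (by omega) Z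
  · intro GG hG hne hne' i hi
    by_cases hjG : j ∈ supp GG
    · -- new families
      rw [top_eq hG hjG, hS'j, hd'j, zz_split i ρ' GG j, hρ'j]
      -- the two constants
      have hlt : ∀ G ∈ GG, ∀ g ∈ G, g ≠ j → g < j := by
        intro G hGG g hg hgj
        have h1 := mem_range.1 (hG (sub_supp hGG hg))
        omega
      have hterm : ∀ G ∈ GG, ∀ G' ⊆ G, j ∉ G' →
          1 ≤ ∏ g ∈ G', i g * ρ' g ∧ ∏ g ∈ G', i g * ρ' g ≤ Q0 := by
        intro G hGG G' hG' hj'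
        have h0 : ∀ g ∈ G', g < j := fun g hg =>
          hlt G hGG g (hG' hg) (fun h => hj' (h ▸ hg))
        have h1 : ∀ g ∈ G', 1 ≤ i g ∧ i g ≤ r' g := fun g hg =>
          hi g (sub_supp hGG (hG' hg))
        have h2 : ∏ g ∈ G', i g * ρ' g = ∏ g ∈ G', i g * ρ g :=
          Finset.prod_congr rfl (fun g hg => by rw [hρ'ne g (h0 g hg).ne])
        rw [h2]
        constructor
        · exact Finset.prod_pos (fun g hg => Nat.mul_pos (h1 g hg).1 (H.ρ_pos g (h0 g hg)))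
        · calc ∏ g ∈ G', i g * ρ g ≤ ∏ g ∈ G', r' g * ρ g :=
                Finset.prod_le_prod' (fun g hg => Nat.mul_le_mul_right _ (h1 g hg).2)
            _ ≤ Q0 := Finset.prod_le_prod_of_subset_of_one_le'
                (fun g hg => mem_range.2 (h0 g hg))
                (fun g hg _ => Nat.mul_pos (hr'pos g) (H.ρ_pos g (mem_range.1 hg)))
      have hcard : GG.card ≤ 2 ^ (j + 1) := by
        have h1 : GG ⊆ (range (j + 1)).powerset := fun G hGG =>
          Finset.mem_powerset.2 ((sub_supp hGG).trans hG)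
        have h2 := Finset.card_le_card h1
        rwa [Finset.card_powerset, Finset.card_range] at h2
      obtain ⟨G1, hG1, hjG1⟩ := mem_supp.1 hjG
      have hC1 : 1 ≤ i j * ∑ G ∈ GG.filter (fun G => j ∈ G), ∏ g ∈ G.erase j, i g * ρ' g := by
        refine Nat.mul_pos (hi j hjG).1 ?_
        refine Finset.sum_pos' (fun _ _ => Nat.zero_le _)
          ⟨G1, Finset.mem_filter.2 ⟨hG1, hjG1⟩, ?_⟩
        exact (hterm G1 hG1 _ (Finset.erase_subset _ _) (Finset.notMem_erase _ _)).1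
      have hCB : i j * ∑ G ∈ GG.filter (fun G => j ∈ G), ∏ g ∈ G.erase j, i g * ρ' g ≤ B := by
        refine Nat.mul_le_mul (hi j hjG).2 ?_
        calc ∑ G ∈ GG.filter (fun G => j ∈ G), ∏ g ∈ G.erase j, i g * ρ' g
            ≤ ∑ G ∈ GG.filter (fun G => j ∈ G), Q0 :=
              Finset.sum_le_sum (fun G hGG =>
                (hterm G (Finset.mem_filter.1 hGG).1 _ (Finset.erase_subset _ _)
                  (Finset.notMem_erase _ _)).2)
          _ = (GG.filter (fun G => j ∈ G)).card * Q0 := by rw [Finset.sum_const, smul_eq_mul]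
          _ ≤ B0 := Nat.mul_le_mul_right _ ((Finset.card_filter_le _ _).trans hcard)
      have hcB : ∑ G ∈ GG.filter (fun G => j ∉ G), ∏ g ∈ G, i g * ρ' g ≤ B0 := by
        calc ∑ G ∈ GG.filter (fun G => j ∉ G), ∏ g ∈ G, i g * ρ' g
            ≤ ∑ G ∈ GG.filter (fun G => j ∉ G), Q0 :=
              Finset.sum_le_sum (fun G hGG =>
                (hterm G (Finset.mem_filter.1 hGG).1 _ Finset.Subset.rfl
                  (Finset.mem_filter.1 hGG).2).2)
          _ = (GG.filter (fun G => j ∉ G)).card * Q0 := by rw [Finset.sum_const, smul_eq_mul]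
          _ ≤ B0 := Nat.mul_le_mul_right _ ((Finset.card_filter_le _ _).trans hcard)
      have hc2 : 2 ∣ ∑ G ∈ GG.filter (fun G => j ∉ G), ∏ g ∈ G, i g * ρ' g := by
        refine Finset.dvd_sum (fun G hGG => ?_)
        obtain ⟨h1, h2⟩ := Finset.mem_filter.1 hGG
        obtain ⟨g, hg⟩ := hne' G h1
        have hgj : g < j := hlt G h1 g hg (fun h => h2 (h ▸ hg))
        refine Dvd.dvd.trans ?_ (Finset.dvd_prod_of_mem _ hg)
        rw [hρ'ne g hgj.ne]
        exact (H.ρ_two g hgj).mul_left _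
      refine affMono_e hμ (hst (_, _) ?_) (hele GG hG)
      rw [hPdef, Finset.mem_filter, Finset.mem_product, Finset.mem_range, Finset.mem_range]
      exact ⟨⟨Nat.lt_succ_of_le hCB, Nat.lt_succ_of_le hcB⟩, hC1, hc2⟩
    · -- old families
      have hsub : supp GG ⊆ range j := by
        intro g hg
        have h3 := mem_range.1 (hG hg)
        have h4 : g ≠ j := fun h => hjG (h ▸ hg)
        exact mem_range.2 (by omega)
      have htop := top_lt hsub (supp_nonempty hne hne')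
      rw [hS'ne _ (by omega), hd'ne _ (by omega)]
      have hne2 : ∀ g ∈ supp GG, g ≠ j := fun g hg h => hjG (h ▸ hg)
      have hprod : zz i ρ' GG = zz i ρ GG :=
        zz_congr (fun g hg => ⟨rfl, hρ'ne g (hne2 g hg)⟩)
      have herr : errF n r' GG = errF n r GG := by
        unfold errF
        rw [Finset.prod_congr rfl (fun g hg => by rw [hr'ne g (hne2 g hg)])]
      rw [hprod, herr]
      exact affMono hμ (H.stb GG hsub hne hne' i
        (fun g hg => by rw [← hr'ne g (hne2 g hg)]; exact hi g hg))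
        Finset.Subset.rfl le_rfl hWdvd (Nat.ModEq.refl _)

theorem stgF_all {μ : Set ℕ → ℝ} (hμ : SubMean μ) {f : ℕ → Bool} (hS : StabAff μ f) (n j : ℕ) :
    ∃ (r : ℕ → ℕ) (S : ℕ → Finset (ℕ × ℕ)) (d : ℕ → ℝ) (W : ℕ) (ρ : ℕ → ℕ),
      StgF μ f n j r S d W ρ := by
  induction j with
  | zero => exact ⟨_, _, _, _, _, stgF_zero μ f n⟩
  | succ j ih =>
    obtain ⟨r, S, d, W, ρ, H⟩ := ih
    exact stgF_succ hμ hS H

end Pool.Agent.FinFS
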