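import Pool.Agent.Lib.MP_60922f_co.FIN.ChainA82

/-!
FIN chain, part B: constants and residues, stage by stage.
-/

open Finset

namespace Pool.Agent.FinClique

/-- the recurrence conditions at stage `j`: pairs `G < F'` inside `range j`, `G` nonempty -/
def items (j : ℕ) : Finset (Finset ℕ × Finset ℕ) :=
  ((range j).powerset ×ˢ (range j).powerset).filter
    (fun l => l.1.Nonempty ∧ ∀ a ∈ l.1, ∀ b ∈ l.2, a < b)

theorem mem_items {j : ℕ} {l : Finset ℕ × Finset ℕ} :
    l ∈ items j ↔ (l.1 ⊆ range j ∧ l.2 ⊆ range j) ∧ l.1.Nonempty ∧ ∀ a ∈ l.1, ∀ b ∈ l.2, a < b := by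
  simp [items, mem_powerset]

/-- index of the last element -/
def top (G : Finset ℕ) : ℕ := G.sup id

theorem top_lt {G : Finset ℕ} {j : ℕ} (hG : G ⊆ range j) (hne : G.Nonempty) : top G < j := by
  obtain ⟨g, hg⟩ := hne
  have hj : 0 < j := lt_of_le_of_lt (Nat.zero_le g) (mem_range.1 (hG hg))
  rw [top, Finset.sup_lt_iff (by simpa using hj)]
  intro b hb
  exact mem_range.1 (hG hb)

theorem top_eq {G : Finset ℕ} {j : ℕ} (hG : G ⊆ range (j + 1)) (hj : j ∈ G) : top G = j := by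
  apply le_antisymm
  · exact Nat.lt_succ_iff.1 (top_lt hG ⟨j, hj⟩)
  · exact Finset.le_sup (f := id) hj

/-- admissible error for `G` -/
noncomputable def err (n : ℕ) (r : ℕ → ℕ) (G : Finset ℕ) : ℝ := 1 / (2 ^ (n + 1) * ∏ h ∈ G, (r h : ℝ))

/-- The state after `j` stages. -/
structure Stg (μ : Set ℕ → ℝ) (f : ℕ → Bool) (n j : ℕ) (r : ℕ → ℕ) (S : ℕ → Finset (ℕ × ℕ))
    (d : ℕ → ℝ) (W : ℕ) (ρ : ℕ → ℕ) : Prop where
  r_pos : ∀ g, 1 ≤ r g
  W_pos : 0 < W
  W_two : 2 ∣ W
  ρ_pos : ∀ g, g < j → 0 < ρ g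
  ρ_two : ∀ g, g < j → 2 ∣ ρ g
  d_pos : ∀ g, 0 < d g
  S_ok : ∀ g, ∀ p ∈ S g, 0 < p.1 ∧ p.1 < p.2
  stp : ∀ g, g < j → ∀ k, k < g → ∀ p ∈ S k, step p ∣ ρ g ∧ step p ∣ W
  rcr : ∀ g, g < j → ∀ Z, RecB f (∏ l ∈ items g, d (top l.1)) Z (r g) (4 * r g * Z)
  stb : ∀ G : Finset ℕ, G ⊆ range j → G.Nonempty → ∀ i : ℕ → ℕ, (∀ g ∈ G, 1 ≤ i g ∧ i g ≤ r g) →
    StabAt μ f (err n r G) (S (top G)) (d (top G)) W (∏ g ∈ G, i g * ρ g)

theorem stg_zero (μ : Set ℕ → ℝ) (f : ℕ → Bool) (n : ℕ) :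
    Stg μ f n 0 (fun _ => 1) (fun _ => ∅) (fun _ => 1) 2 (fun _ => 1) where
  r_pos := fun _ => le_rfl
  W_pos := two_pos
  W_two := dvd_rfl
  ρ_pos := fun g hg => absurd hg (Nat.not_lt_zero g)
  ρ_two := fun g hg => absurd hg (Nat.not_lt_zero g)
  d_pos := fun _ => one_pos
  S_ok := fun g p hp => absurd hp (Finset.notMem_empty p)
  stp := fun g hg => absurd hg (Nat.not_lt_zero g)
  rcr := fun g hg => absurd hg (Nat.not_lt_zero g)
  stb := by
    intro G hG hne
    obtain ⟨g, hg⟩ := hne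
    have := hG hg
    simp at this

theorem stg_succ {μ : Set ℕ → ℝ} (hμ : SubMean μ) {f : ℕ → Bool} (hS : Stab μ f) {n j : ℕ}
    {r : ℕ → ℕ} {S : ℕ → Finset (ℕ × ℕ)} {d : ℕ → ℝ} {W : ℕ} {ρ : ℕ → ℕ}
    (H : Stg μ f n j r S d W ρ) :
    ∃ (r' : ℕ → ℕ) (S' : ℕ → Finset (ℕ × ℕ)) (d' : ℕ → ℝ) (W' : ℕ) (ρ' : ℕ → ℕ),
      Stg μ f n (j + 1) r' S' d' W' ρ' := by
  classical
  have hδ : 0 < ∏ l ∈ items j, d (top l.1) := Finset.prod_pos (fun l _ => H.d_pos _)
  obtain ⟨q, hq, hrec⟩ := recB f _ hδ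
  -- menus
  set r' : ℕ → ℕ := Function.update r j q with hr'
  have hr'j : r' j = q := by simp [hr']
  have hr'ne : ∀ g, g ≠ j → r' g = r g := fun g hg => by simp [hr', Function.update_of_ne hg]
  have hr'pos : ∀ g, 1 ≤ r' g := by
    intro g
    by_cases h : g = j
    · rw [h, hr'j]; exact hq
    · rw [hr'ne g h]; exact H.r_pos g
  -- the step of all earlier configurations
  set D : ℕ := ∏ k ∈ range j, ∏ p ∈ S k, step p with hD
  have hDpos : 0 < D := by
    refine Finset.prod_pos (fun k _ => Finset.prod_pos (fun p hp => ?_))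
    obtain ⟨h1, h2⟩ := H.S_ok k p hp
    have h3 : p.1 ^ 2 < p.2 ^ 2 := Nat.pow_lt_pow_left h2 two_ne_zero
    exact Nat.mul_pos (lt_trans h1 h2) (Nat.sub_pos_of_lt h3)
  have hDdvd : ∀ k, k < j → ∀ p ∈ S k, step p ∣ D := by
    intro k hk p hp
    exact (Finset.dvd_prod_of_mem _ hp).trans
      (Finset.dvd_prod_of_mem (fun k => ∏ p ∈ S k, step p) (mem_range.2 hk))
  -- error
  set e : ℝ := 1 / (2 ^ (n + 1) * ∏ h ∈ range (j + 1), (r' h : ℝ)) with he
  have hprodpos : ∀ G : Finset ℕ, (0 : ℝ) < ∏ h ∈ G, (r' h : ℝ) := fun G =>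
    Finset.prod_pos (fun h _ => by exact_mod_cast hr'pos h)
  have hepos : 0 < e := by
    have := hprodpos (range (j + 1))
    positivity
  have hele : ∀ G : Finset ℕ, G ⊆ range (j + 1) → e ≤ err n r' G := by
    intro G hG
    unfold err
    have h1 : ∏ h ∈ G, (r' h : ℝ) ≤ ∏ h ∈ range (j + 1), (r' h : ℝ) :=
      Finset.prod_le_prod_of_subset_of_one_le hG (fun h _ => by positivity)
        (fun h _ _ => by exact_mod_cast hr'pos h)
    rw [he]
    apply one_div_le_one_div_of_le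
    · have := hprodpos G; positivity
    · gcongr
  -- bound for the constants
  set B : ℕ := (∏ g ∈ range (j + 1), r' g) * ∏ g ∈ range j, ρ g with hB
  obtain ⟨W', x', Sj, dj, hW', hWW', hx', hx'pos, hdj, hSj, hst⟩ :=
    refine_res hμ hS hepos (W * D) (W * D) (Nat.mul_pos H.W_pos hDpos) (H.W_two.mul_right _)
      (H.W_two.mul_right _) (Nat.mul_pos H.W_pos hDpos) B
  have hWdvd : W ∣ W' := (Dvd.intro _ rfl).trans hWW'
  have hDW' : D ∣ W' := (Dvd.intro_left _ rfl).trans hWW'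
  have hDx' : D ∣ x' := ((hx'.of_dvd (Dvd.intro_left W rfl)).dvd_iff dvd_rfl).2
    (Dvd.intro_left _ rfl)
  have h2x' : 2 ∣ x' := ((hx'.of_dvd (H.W_two.mul_right D)).dvd_iff dvd_rfl).2
    (H.W_two.mul_right _)
  set S' : ℕ → Finset (ℕ × ℕ) := Function.update S j Sj with hS'
  set d' : ℕ → ℝ := Function.update d j dj with hd'
  set ρ' : ℕ → ℕ := Function.update ρ j x' with hρ'
  have hS'j : S' j = Sj := by simp [hS']
  have hd'j : d' j = dj := by simp [hd']
  have hρ'j : ρ' j = x' := by simp [hρ']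
  have hS'ne : ∀ g, g ≠ j → S' g = S g := fun g hg => by simp [hS', Function.update_of_ne hg]
  have hd'ne : ∀ g, g ≠ j → d' g = d g := fun g hg => by simp [hd', Function.update_of_ne hg]
  have hρ'ne : ∀ g, g ≠ j → ρ' g = ρ g := fun g hg => by simp [hρ', Function.update_of_ne hg]
  refine ⟨r', S', d', W', ρ', ?_⟩
  constructor
  · exact hr'pos
  · exact hW'
  · exact H.W_two.trans hWdvd
  · intro g hg
    by_cases h : g = j
    · rw [h, hρ'j]; exact hx'pos
    · rw [hρ'ne g h]; exact H.ρ_pos g (by omega)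
  · intro g hg
    by_cases h : g = j
    · rw [h, hρ'j]; exact h2x'
    · rw [hρ'ne g h]; exact H.ρ_two g (by omega)
  · intro g
    by_cases h : g = j
    · rw [h, hd'j]; exact hdj
    · rw [hd'ne g h]; exact H.d_pos g
  · intro g
    by_cases h : g = j
    · rw [h, hS'j]; exact hSj
    · rw [hS'ne g h]; exact H.S_ok g
  · intro g hg k hk p hp
    rw [hS'ne k (by omega)] at hp
    by_cases h : g = j
    · subst h
      rw [hρ'j]
      exact ⟨(hDdvd k hk p hp).trans hDx', (hDdvd k hk p hp).trans hDW'⟩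
    · rw [hρ'ne g h]
      have := H.stp g (by omega) k hk p hp
      exact ⟨this.1, this.2.trans hWdvd⟩
  · intro g hg Z
    have hprod : ∏ l ∈ items g, d' (top l.1) = ∏ l ∈ items g, d (top l.1) := by
      refine Finset.prod_congr rfl (fun l hl => ?_)
      obtain ⟨⟨h1, -⟩, h2, -⟩ := mem_items.1 hl
      have := top_lt h1 h2
      rw [hd'ne _ (by omega)]
    rw [hprod]
    by_cases h : g = j
    · subst h
      rw [hr'j]; exact hrec Z
    · rw [hr'ne g h]; exact H.rcr g (by omega) Z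
  · intro G hG hne i hi
    by_cases hjG : j ∈ G
    · -- new sets
      rw [top_eq hG hjG, hS'j, hd'j]
      have hprod : ∏ g ∈ G, i g * ρ' g = (i j * ∏ g ∈ G.erase j, i g * ρ g) * x' := by
        rw [← Finset.mul_prod_erase G _ hjG, hρ'j]
        have : ∏ g ∈ G.erase j, i g * ρ' g = ∏ g ∈ G.erase j, i g * ρ g :=
          Finset.prod_congr rfl (fun g hg => by rw [hρ'ne g (Finset.ne_of_mem_erase hg)])
        rw [this]; ring
      rw [hprod]
      have hpos : ∀ g ∈ G.erase j, 0 < i g * ρ g := by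
        intro g hg
        have h1 := Finset.mem_of_mem_erase hg
        have h2 := Finset.ne_of_mem_erase hg
        have h3 := mem_range.1 (hG h1)
        exact Nat.mul_pos (hi g h1).1 (H.ρ_pos g (by omega))
      have hC1 : 1 ≤ i j * ∏ g ∈ G.erase j, i g * ρ g :=
        Nat.mul_pos (hi j hjG).1 (Finset.prod_pos hpos)
      have hsub : G.erase j ⊆ range j := by
        intro g hg
        have h1 := Finset.mem_of_mem_erase hg
        have h2 := Finset.ne_of_mem_erase hg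
        have h3 := mem_range.1 (hG h1)
        exact mem_range.2 (by omega)
      have hCB : i j * ∏ g ∈ G.erase j, i g * ρ g ≤ B := by
        rw [Finset.prod_mul_distrib, ← mul_assoc, Finset.mul_prod_erase G i hjG]
        refine Nat.mul_le_mul ?_ ?_
        · calc ∏ g ∈ G, i g ≤ ∏ g ∈ G, r' g := Finset.prod_le_prod' (fun g hg => (hi g hg).2)
            _ ≤ ∏ g ∈ range (j + 1), r' g :=
              Finset.prod_le_prod_of_subset_of_one_le' hG (fun g _ _ => hr'pos g)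
        · exact Finset.prod_le_prod_of_subset_of_one_le' hsub
            (fun g hg _ => H.ρ_pos g (mem_range.1 hg))
      exact (hst _ hC1 hCB).mono_e hμ (hele G hG)
    · -- old sets
      have hsub : G ⊆ range j := by
        intro g hg
        have h3 := mem_range.1 (hG hg)
        have h4 : g ≠ j := fun h => hjG (h ▸ hg)
        exact mem_range.2 (by omega)
      have htop := top_lt hsub hne
      rw [hS'ne _ (by omega), hd'ne _ (by omega)]
      have hne' : ∀ g ∈ G, g ≠ j := fun g hg h => hjG (h ▸ hg)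
      have hprod : ∏ g ∈ G, i g * ρ' g = ∏ g ∈ G, i g * ρ g :=
        Finset.prod_congr rfl (fun g hg => by rw [hρ'ne g (hne' g hg)])
      have herr : err n r' G = err n r G := by
        unfold err
        rw [Finset.prod_congr rfl (fun g hg => by rw [hr'ne g (hne' g hg)])]
      rw [hprod, herr]
      exact (H.stb G hsub hne i (fun g hg => by rw [← hr'ne g (hne' g hg)]; exact hi g hg)).mono hμ
        Finset.Subset.rfl le_rfl hWdvd (Nat.ModEq.refl _)

theorem stg_all {μ : Set ℕ → ℝ} (hμ : SubMean μ) {f : ℕ → Bool} (hS : Stab μ f) (n j : ℕ) :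
    ∃ (r : ℕ → ℕ) (S : ℕ → Finset (ℕ × ℕ)) (d : ℕ → ℝ) (W : ℕ) (ρ : ℕ → ℕ),
      Stg μ f n j r S d W ρ := by
  induction j with
  | zero => exact ⟨_, _, _, _, _, stg_zero μ f n⟩
  | succ j ih =>
    obtain ⟨r, S, d, W, ρ, H⟩ := ih
    exact stg_succ hμ hS H

end Pool.Agent.FinClique
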