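import Pool.Agent.Lib.MP_60922f_co.FIN.ChainB19

/-!
FIN chain for finite sums and finite products, part C: the integers, by the union bound, and the
menus.
-/

set_option autoImplicit false

open Finset

namespace Pool.Agent.FinFS
open Pool.Agent.FinClique Pool.Agent.FinA

variable {μ : Set ℕ → ℝ} {f : ℕ → Bool} {n : ℕ} {r : ℕ → ℕ} {S : ℕ → Finset (ℕ × ℕ)}
  {d : ℕ → ℝ} {W : ℕ} {ρ : ℕ → ℕ} {Hf : ℕ → ℕ}

/-- the integers chosen for the indices `g ≤ h < n` -/
structure PickedF (f : ℕ → Bool) (n g : ℕ) (r : ℕ → ℕ) (S : ℕ → Finset (ℕ × ℕ)) (d : ℕ → ℝ)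
    (W : ℕ) (ρ : ℕ → ℕ) (K : ℕ) (H : ℕ → ℕ) (t : ℕ → ℕ) : Prop where
  res : ∀ h, g ≤ h → h < n → t h ≡ ρ h [MOD W]
  big : ∀ h, g ≤ h → h < n → ∏ k ∈ Ico (h + 1) n, r k * t k +
    ∑ m ∈ range (∏ k ∈ Ico (h + 1) n, r k * t k + 1), H m < t h
  rich : ∀ h, g ≤ h → h < n → ∀ GG : Finset (Finset ℕ), supp GG ⊆ Ico h n → h ∈ supp GG →
    (∀ G ∈ GG, G.Nonempty) → ∀ i : ℕ → ℕ, (∀ k ∈ supp GG, 1 ≤ i k ∧ i k ≤ r k) →
    ∃ L, K * ∏ k ∈ Ico (h + 1) n, r k * t k ≤ L ∧
      ∃ p ∈ S (top (supp GG)), Rich f p.1 p.2 (d (top (supp GG))) L (zz i t GG)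

theorem pickF_succ (hμ : SubMean μ) (H : StgF μ f n n r S d W ρ) {g : ℕ} (hg : g < n) (K : ℕ)
    (Hf : ℕ → ℕ) {t : ℕ → ℕ} (P : PickedF f n (g + 1) r S d W ρ K Hf t) :
    0 < μ {x | PickedF f n g r S d W ρ K Hf (Function.update t g x)} := by
  classical
  have htpos : ∀ h, g + 1 ≤ h → h < n → 0 < t h := fun h h1 h2 =>
    lt_of_le_of_lt (Nat.zero_le _) (P.big h h1 h2)
  -- the index set
  set Gs : Finset (Finset (Finset ℕ)) := ((Ico g n).powerset.powerset).filter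
    (fun GG => g ∈ supp GG ∧ ∀ G ∈ GG, G.Nonempty) with hGs
  have hGsmem : ∀ GG, GG ∈ Gs ↔ supp GG ⊆ Ico g n ∧ g ∈ supp GG ∧ ∀ G ∈ GG, G.Nonempty := by
    intro GG
    rw [hGs, Finset.mem_filter, Finset.mem_powerset]
    have h : GG ⊆ (Ico g n).powerset ↔ supp GG ⊆ Ico g n := by
      constructor
      · intro h a ha
        obtain ⟨G, hG, haG⟩ := mem_supp.1 ha
        exact Finset.mem_powerset.1 (h hG) haG
      · intro h G hG
        exact Finset.mem_powerset.2 ((sub_supp hG).trans h)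
    rw [h]
  set I : Finset (Σ GG : Finset (Finset ℕ), ((a : ℕ) → a ∈ supp GG → ℕ)) :=
    Gs.sigma (fun GG => (supp GG).pi (fun h => Icc 1 (r h))) with hI
  -- multiplier and shift of an index
  set X : (Σ GG : Finset (Finset ℕ), ((a : ℕ) → a ∈ supp GG → ℕ)) → ℕ := fun k =>
    ext k.2 g * ∑ G ∈ k.1.filter (fun G => g ∈ G), ∏ h ∈ G.erase g, ext k.2 h * t h with hX
  set T : (Σ GG : Finset (Finset ℕ), ((a : ℕ) → a ∈ supp GG → ℕ)) → ℕ := fun k =>
    ∑ G ∈ k.1.filter (fun G => g ∉ G), ∏ h ∈ G, ext k.2 h * t h with hT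
  have hsplit : ∀ (GG : Finset (Finset ℕ)) (i : ℕ → ℕ) (t' : ℕ → ℕ) (x : ℕ),
      supp GG ⊆ Ico g n → (∀ h, g < h → h < n → t' h = t h) → t' g = x →
      zz i t' GG = (i g * ∑ G ∈ GG.filter (fun G => g ∈ G), ∏ h ∈ G.erase g, i h * t h) * x +
        ∑ G ∈ GG.filter (fun G => g ∉ G), ∏ h ∈ G, i h * t h := by
    intro GG i t' x hsub ht' hx
    rw [zz_split i t' GG g, hx]
    have hmem : ∀ G ∈ GG, ∀ h ∈ G, h ≠ g → t' h = t h := by
      intro G hG h hh hne
      have h1 := Finset.mem_Ico.1 (hsub (sub_supp hG hh))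
      exact ht' h (by omega) h1.2
    congr 1
    · congr 2
      refine Finset.sum_congr rfl (fun G hG => Finset.prod_congr rfl (fun h hh => ?_))
      rw [hmem G (Finset.mem_filter.1 hG).1 h (Finset.mem_of_mem_erase hh)
        (Finset.ne_of_mem_erase hh)]
    · refine Finset.sum_congr rfl (fun G hG => Finset.prod_congr rfl (fun h hh => ?_))
      rw [hmem G (Finset.mem_filter.1 hG).1 h hh
        (fun hc => (Finset.mem_filter.1 hG).2 (hc ▸ hh))]
  -- for every index the window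
  have key : ∀ k ∈ I, ∃ L, K * ∏ h ∈ Ico (g + 1) n, r h * t h ≤ L ∧
      μ {x | x ≡ ρ g [MOD W] ∧ ¬ ∃ p ∈ S (top (supp k.1)),
        Rich f p.1 p.2 (d (top (supp k.1))) L (X k * x + T k)} ≤
        errF n r k.1 * μ {x | x ≡ ρ g [MOD W]} := by
    rintro ⟨GG, φ⟩ hk
    obtain ⟨hG, hφ⟩ := Finset.mem_sigma.1 hk
    simp only at hG hφ ⊢
    obtain ⟨hsub, hgG, hne'⟩ := (hGsmem GG).1 hG
    have hφ' := Finset.mem_pi.1 hφ
    have hmenu : ∀ h ∈ supp GG, 1 ≤ ext φ h ∧ ext φ h ≤ r h := by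
      intro h hh
      rw [ext_mem φ hh]
      exact Finset.mem_Icc.1 (hφ' h hh)
    obtain ⟨G1, hG1, hgG1⟩ := mem_supp.1 hgG
    have hst := H.stb GG (fun x hx => by
      have := Finset.mem_Ico.1 (hsub hx); exact mem_range.2 this.2) ⟨G1, hG1⟩ hne' (ext φ) hmenu
    have hXpos : 0 < X ⟨GG, φ⟩ := by
      refine Nat.mul_pos (hmenu g hgG).1 (Finset.sum_pos' (fun _ _ => Nat.zero_le _)
        ⟨G1, Finset.mem_filter.2 ⟨hG1, hgG1⟩, Finset.prod_pos (fun h hh => ?_)⟩)
      have h1 := sub_supp hG1 (Finset.mem_of_mem_erase hh)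
      have h2 := Finset.ne_of_mem_erase hh
      have h3 := Finset.mem_Ico.1 (hsub h1)
      exact Nat.mul_pos (hmenu h h1).1 (htpos h (by omega) h3.2)
    refine hst _ _ W (ρ g) hXpos H.W_pos ?_ _
    intro x hx
    set t' : ℕ → ℕ := Function.update t g x with ht'
    have h1 := hsplit GG (ext φ) t' x hsub
      (fun h h2 _ => by rw [ht', Function.update_of_ne (by omega)])
      (by rw [ht', Function.update_self])
    have h2 : X ⟨GG, φ⟩ * x + T ⟨GG, φ⟩ = zz (ext φ) t' GG := h1.symm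
    rw [h2]
    unfold zz
    refine Nat.ModEq.sum (fun G hGG => Nat.ModEq.prod (fun h hh => ?_))
    refine Nat.ModEq.mul_left _ ?_
    have h3 := Finset.mem_Ico.1 (hsub (sub_supp hGG hh))
    by_cases hhg : h = g
    · rw [hhg, ht', Function.update_self]; exact hx
    · rw [ht', Function.update_of_ne hhg]
      exact P.res h (by omega) h3.2
  choose! L hL1 hL2 using key
  -- total error
  have hrpos : ∀ G : Finset ℕ, (0 : ℝ) < ∏ h ∈ G, (r h : ℝ) := fun G =>
    Finset.prod_pos (fun h _ => by exact_mod_cast H.r_pos h)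
  have hsum : ∑ k ∈ I, errF n r k.1 < 1 := by
    rw [hI, Finset.sum_sigma]
    have h1 : ∀ GG ∈ Gs, ∑ φ ∈ (supp GG).pi (fun h => Icc 1 (r h)), errF n r GG =
        1 / 2 ^ (2 ^ n + 1) := by
      intro GG hG
      rw [Finset.sum_const, Finset.card_pi]
      simp only [Nat.card_Icc, Nat.add_sub_cancel, nsmul_eq_mul, Nat.cast_prod]
      unfold errF
      have := hrpos (supp GG)
      field_simp
    rw [Finset.sum_congr rfl h1, Finset.sum_const, nsmul_eq_mul]
    have h2 : (Gs.card : ℝ) ≤ 2 ^ (2 ^ n) := by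
      have h3 : Gs.card ≤ (Ico g n).powerset.powerset.card := Finset.card_filter_le _ _
      rw [Finset.card_powerset, Finset.card_powerset, Nat.card_Ico] at h3
      have h4 : 2 ^ (n - g) ≤ 2 ^ n := Nat.pow_le_pow_right (by norm_num) (by omega)
      have h5 : 2 ^ (2 ^ (n - g)) ≤ 2 ^ (2 ^ n) := Nat.pow_le_pow_right (by norm_num) h4
      exact_mod_cast h3.trans h5
    have h5 : (0 : ℝ) < 2 ^ (2 ^ n) := by positivity
    calc (Gs.card : ℝ) * (1 / 2 ^ (2 ^ n + 1)) ≤ 2 ^ (2 ^ n) * (1 / 2 ^ (2 ^ n + 1)) := by gcongr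
      _ = 1 / 2 := by rw [pow_succ]; field_simp
      _ < 1 := by norm_num
  have hposet := hμ.pos_good I
    (fun k => {x | ¬ ∃ p ∈ S (top (supp k.1)), Rich f p.1 p.2 (d (top (supp k.1))) (L k)
        (X k * x + T k)}) (fun k => errF n r k.1) (ρ g) W
    H.W_pos hL2 hsum (∏ k ∈ Ico (g + 1) n, r k * t k +
      ∑ m ∈ range (∏ k ∈ Ico (g + 1) n, r k * t k + 1), Hf m)
  refine lt_of_lt_of_le hposet (hμ.mono _ _ ?_)
  rintro x ⟨hx1, hx2, hx3⟩
  show PickedF f n g r S d W ρ K Hf (Function.update t g x)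
  -- the new function
  set t' : ℕ → ℕ := Function.update t g x with ht'
  have ht'g : t' g = x := by simp [ht']
  have ht'ne : ∀ h, h ≠ g → t' h = t h := fun h hh => by simp [ht', Function.update_of_ne hh]
  have hprod : ∀ h, g ≤ h → ∏ k ∈ Ico (h + 1) n, r k * t' k = ∏ k ∈ Ico (h + 1) n, r k * t k := by
    intro h hh
    refine Finset.prod_congr rfl (fun k hk => ?_)
    have := Finset.mem_Ico.1 hk
    rw [ht'ne k (by omega)]
  refine ⟨?_, ?_, ?_⟩
  · intro h h1 h2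
    by_cases hh : h = g
    · rw [hh, ht'g]; exact hx1
    · rw [ht'ne h hh]; exact P.res h (by omega) h2
  · intro h h1 h2
    rw [hprod h h1]
    by_cases hh : h = g
    · rw [hh, ht'g]; exact hx2
    · rw [ht'ne h hh]; exact P.big h (by omega) h2
  · intro h h1 h2 GG hG hhG hne' i hi
    rw [hprod h h1]
    by_cases hh : h = g
    · subst hh
      -- restrict the menu
      have hmem : (⟨GG, fun a _ => i a⟩ : Σ GG : Finset (Finset ℕ),
          ((a : ℕ) → a ∈ supp GG → ℕ)) ∈ I := by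
        rw [hI, Finset.mem_sigma]
        refine ⟨(hGsmem GG).2 ⟨hG, hhG, hne'⟩, Finset.mem_pi.2 (fun a ha => ?_)⟩
        exact Finset.mem_Icc.2 (hi a ha)
      have h3 := hx3 _ hmem
      simp only [Set.mem_ofPred_eq, not_not] at h3
      refine ⟨_, hL1 _ hmem, ?_⟩
      have h4 : X ⟨GG, fun a _ => i a⟩ * x + T ⟨GG, fun a _ => i a⟩ = zz i t' GG := by
        have h5 := hsplit GG (ext (fun a (_ : a ∈ supp GG) => i a)) t' x hG
          (fun k hk _ => ht'ne k (by omega)) ht'g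
        have h6 : X ⟨GG, fun a _ => i a⟩ * x + T ⟨GG, fun a _ => i a⟩ =
          zz (ext (fun a (_ : a ∈ supp GG) => i a)) t' GG := h5.symm
        rw [h6]
        exact zz_congr (fun k hk => ⟨ext_mem _ hk, rfl⟩)
      rw [h4] at h3
      exact h3
    · have h6 : zz i t' GG = zz i t GG :=
        zz_congr (fun k hk => ⟨rfl, ht'ne k (by
          have := Finset.mem_Ico.1 (hG hk)
          omega)⟩)
      rw [h6]
      exact P.rich h (by omega) h2 GG hG hhG hne' i hi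

theorem pickedF_n (t : ℕ → ℕ) (K : ℕ) (Hf : ℕ → ℕ) : PickedF f n n r S d W ρ K Hf t :=
  ⟨fun h h1 h2 => absurd h2 (by omega), fun h h1 h2 => absurd h2 (by omega),
    fun h h1 h2 => absurd h2 (by omega)⟩

theorem pickedF_Rg (hμ : SubMean μ) (H : StgF μ f n n r S d W ρ) (K : ℕ) (Hf : ℕ → ℕ) :
    ∀ g, g ≤ n → ∀ t, PickedF f n g r S d W ρ K Hf t →
      Rg μ (PickedF f n 0 r S d W ρ K Hf) g t := by
  intro g
  induction g with
  | zero => intro _ t h; exact h
  | succ g ih =>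
    intro hg t h
    show 0 < μ _
    refine lt_of_lt_of_le (pickF_succ hμ H (by omega) K Hf h) (hμ.mono _ _ ?_)
    intro x hx
    exact ih (by omega) _ hx

/-- the window factor needed by all recurrences -/
def bigKF (n : ℕ) (r : ℕ → ℕ) (S : ℕ → Finset (ℕ × ℕ)) : ℕ :=
  (∑ j ∈ range n, 4 * r j * (itemsF j).card) * ∑ k ∈ range n, ∑ p ∈ S k, p.2 ^ 2

theorem PickedF.big' {K : ℕ} {t : ℕ → ℕ} (P : PickedF f n 0 r S d W ρ K Hf t) {h : ℕ}
    (hh : h < n) : ∏ k ∈ Ico (h + 1) n, r k * t k < t h :=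
  lt_of_le_of_lt (Nat.le_add_right _ _) (P.big h (Nat.zero_le _) hh)

theorem PickedF.growth {K : ℕ} {t : ℕ → ℕ} (P : PickedF f n 0 r S d W ρ K Hf t) {h m : ℕ}
    (hh : h < n) (hm : m ≤ ∏ k ∈ Ico (h + 1) n, r k * t k) : Hf m < t h := by
  refine lt_of_le_of_lt ?_ (P.big h (Nat.zero_le _) hh)
  refine le_trans ?_ (Nat.le_add_left _ _)
  exact Finset.single_le_sum (f := Hf) (fun _ _ => Nat.zero_le _)
    (mem_range.2 (Nat.lt_succ_of_le hm))

theorem menuF_step (H : StgF μ f n n r S d W ρ) {t : ℕ → ℕ}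
    (P : PickedF f n 0 r S d W ρ (bigKF n r S) Hf t) {j : ℕ} (hj : j < n) {i : ℕ → ℕ}
    (hi : ∀ h, 1 ≤ i h ∧ i h ≤ r h) :
    ∃ k, 1 ≤ k ∧ k ≤ r j ∧ ∀ l ∈ itemsF j,
      f (zz i t l.1 + k * t j * ∏ g ∈ l.2, i g * t g) = f (zz i t l.1) := by
  classical
  have htpos : ∀ h, h < n → 0 < t h := fun h h2 =>
    lt_of_le_of_lt (Nat.zero_le _) (P.big' h2)
  have hfac : ∀ h, h < n → 0 < i h * t h := fun h hh => Nat.mul_pos (hi h).1 (htpos h hh)
  -- richness of all terms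
  have key : ∀ l ∈ itemsF j, ∃ L : ℕ, ∃ p : ℕ × ℕ, p ∈ S (top (supp l.1)) ∧
      Rich f p.1 p.2 (d (top (supp l.1))) L (zz i t l.1) ∧
      bigKF n r S * (t j * ∏ g ∈ l.2, i g * t g) ≤ L := by
    intro l hl
    obtain ⟨⟨h1, h2⟩, hne0, hne', h3⟩ := mem_itemsF.1 hl
    have hne := supp_nonempty hne0 hne'
    set m := (supp l.1).min' hne with hm
    have hmG : m ∈ supp l.1 := Finset.min'_mem _ _
    have hmj : m < j := mem_range.1 (h1 hmG)
    have hsub : supp l.1 ⊆ Ico m n := by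
      intro x hx
      rw [Finset.mem_Ico]
      exact ⟨Finset.min'_le _ _ hx, lt_trans (mem_range.1 (h1 hx)) hj⟩
    obtain ⟨L, hL, p, hp, hr⟩ := P.rich m (Nat.zero_le _) (by omega) l.1 hsub hmG hne' i
      (fun k _ => hi k)
    refine ⟨L, p, hp, hr, le_trans (Nat.mul_le_mul_left _ ?_) hL⟩
    have hjF : j ∉ l.2 := fun h => by
      have := mem_range.1 (h2 h); omega
    have hins : insert j l.2 ⊆ Ico (m + 1) n := by
      intro x hx
      rcases Finset.mem_insert.1 hx with h | h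
      · rw [h, Finset.mem_Ico]; omega
      · have h5 := h3 m hmG x h
        have h6 := mem_range.1 (h2 h)
        rw [Finset.mem_Ico]; omega
    calc t j * ∏ g ∈ l.2, i g * t g ≤ (i j * t j) * ∏ g ∈ l.2, i g * t g := by
          refine Nat.mul_le_mul_right _ (Nat.le_mul_of_pos_left _ (hi j).1)
      _ = ∏ g ∈ insert j l.2, i g * t g := by rw [Finset.prod_insert hjF]
      _ ≤ ∏ g ∈ Ico (m + 1) n, i g * t g :=
          Finset.prod_le_prod_of_subset_of_one_le' hins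
            (fun g hg _ => hfac g (Finset.mem_Ico.1 hg).2)
      _ ≤ ∏ g ∈ Ico (m + 1) n, r g * t g :=
          Finset.prod_le_prod' (fun g _ => Nat.mul_le_mul_right _ (hi g).2)
  choose! L p hp hr hL using key
  have hrec := H.rcr j hj (itemsF j).card
  obtain ⟨k, hk1, hk2, hk3⟩ := hrec.2 (itemsF j) p (fun l => zz i t l.1)
    (fun l => ∏ g ∈ l.2, i g * t g) L (fun l => d (top (supp l.1))) (t j) le_rfl (htpos j hj)
    (by
      intro l hl
      obtain ⟨⟨h1, h2⟩, hne0, hne', h3⟩ := mem_itemsF.1 hl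
      have htop : top (supp l.1) < j := top_lt h1 (supp_nonempty hne0 hne')
      obtain ⟨hp1, hp2⟩ := H.S_ok _ _ (hp l hl)
      refine ⟨?_, H.d_pos _, hp1, hp2, ?_, hr l hl, ?_⟩
      · exact Finset.prod_pos (fun g hg => hfac g (lt_trans (mem_range.1 (h2 hg)) hj))
      · obtain ⟨h4, h5⟩ := H.stp j hj _ htop _ (hp l hl)
        exact (((P.res j (Nat.zero_le _) hj).of_dvd h5).dvd_iff dvd_rfl).2 h4
      · have hv : (p l).2 ^ 2 ≤ ∑ k ∈ range n, ∑ p ∈ S k, p.2 ^ 2 := by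
          calc (p l).2 ^ 2 ≤ ∑ p ∈ S (top (supp l.1)), p.2 ^ 2 :=
                Finset.single_le_sum (f := fun p : ℕ × ℕ => p.2 ^ 2)
                  (fun _ _ => Nat.zero_le _) (hp l hl)
            _ ≤ _ := Finset.single_le_sum (f := fun k => ∑ p ∈ S k, p.2 ^ 2)
                  (fun _ _ => Nat.zero_le _) (mem_range.2 (lt_trans htop hj))
        have hc : 4 * r j * (itemsF j).card ≤ ∑ j ∈ range n, 4 * r j * (itemsF j).card :=
          Finset.single_le_sum (f := fun j => 4 * r j * (itemsF j).card)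
            (fun _ _ => Nat.zero_le _) (mem_range.2 hj)
        calc 4 * r j * (itemsF j).card * ((p l).2 ^ 2 * (t j * ∏ g ∈ l.2, i g * t g))
            = (4 * r j * (itemsF j).card) * (p l).2 ^ 2 * (t j * ∏ g ∈ l.2, i g * t g) := by ring
          _ ≤ bigKF n r S * (t j * ∏ g ∈ l.2, i g * t g) := by
              unfold bigKF; gcongr
          _ ≤ L l := hL l hl)
    le_rfl
  exact ⟨k, hk1, hk2, hk3⟩

theorem menuF_all (H : StgF μ f n n r S d W ρ) {t : ℕ → ℕ}
    (P : PickedF f n 0 r S d W ρ (bigKF n r S) Hf t) :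
    ∃ i : ℕ → ℕ, (∀ h, 1 ≤ i h ∧ i h ≤ r h) ∧ ∀ j, j < n → ∀ l ∈ itemsF j,
      f (zz i t l.1 + i j * t j * ∏ g ∈ l.2, i g * t g) = f (zz i t l.1) := by
  classical
  have h : ∀ m, m ≤ n → ∃ i : ℕ → ℕ, (∀ h, 1 ≤ i h ∧ i h ≤ r h) ∧ ∀ j, j < m → ∀ l ∈ itemsF j,
      f (zz i t l.1 + i j * t j * ∏ g ∈ l.2, i g * t g) = f (zz i t l.1) := by
    intro m
    induction m with
    | zero =>
      intro _
      exact ⟨fun _ => 1, fun h => ⟨le_rfl, H.r_pos h⟩, fun j hj => absurd hj (by omega)⟩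
    | succ m ih =>
      intro hm
      obtain ⟨i, hi1, hi2⟩ := ih (by omega)
      obtain ⟨k, hk1, hk2, hk3⟩ := menuF_step H P (j := m) (by omega) hi1
      refine ⟨Function.update i m k, ?_, ?_⟩
      · intro h
        by_cases hh : h = m
        · rw [hh, Function.update_self]; exact ⟨hk1, hk2⟩
        · rw [Function.update_of_ne hh]; exact hi1 h
      · intro j hj l hl
        obtain ⟨⟨h1, h2⟩, -, -, -⟩ := mem_itemsF.1 hl
        have hc1 : zz (Function.update i m k) t l.1 = zz i t l.1 := by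
          refine zz_congr (fun g hg => ⟨?_, rfl⟩)
          have := mem_range.1 (h1 hg)
          rw [Function.update_of_ne (by omega)]
        have hc2 : ∏ g ∈ l.2, Function.update i m k g * t g = ∏ g ∈ l.2, i g * t g := by
          refine Finset.prod_congr rfl (fun g hg => ?_)
          have := mem_range.1 (h2 hg)
          rw [Function.update_of_ne (by omega)]
        rw [hc1, hc2]
        by_cases hh : j = m
        · rw [hh, Function.update_self]
          rw [hh] at hl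
          exact hk3 l hl
        · rw [Function.update_of_ne hh]
          exact hi2 j (by omega) l hl
  exact h n le_rfl

end Pool.Agent.FinFS
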