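import Mathlib

/-! FIN (U): the finite unions theorem for ordered blocks, finite form. -/

set_option autoImplicit false
set_option linter.unusedSectionVars false
set_option linter.unusedVariables false

namespace Pool.Agent.FIN
open Finset Filter

/-- finite sets with the union of ordered pairs as product, and a zero -/
inductive OU : Type
  | z : OU
  | s : Finset ℕ → OU

namespace OU

/-- `A` lies below `B` -/
def Lt (A B : Finset ℕ) : Prop := ∀ a ∈ A, ∀ b ∈ B, a < b

open Classical in
noncomputable def mul : OU → OU → OU
  | s A, s B => if Lt A B then s (A ∪ B) else z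
  | _, _ => z

theorem mul_some {A B : Finset ℕ} (h : Lt A B) : mul (s A) (s B) = s (A ∪ B) := by
  simp only [mul, if_pos h]

theorem mul_some_not {A B : Finset ℕ} (h : ¬ Lt A B) : mul (s A) (s B) = z := by
  simp only [mul, if_neg h]

theorem mul_none (x : OU) : mul x z = z := by
  cases x <;> rfl

theorem none_mul (x : OU) : mul z x = z := by
  cases x <;> rfl

theorem s_inj {A B : Finset ℕ} (h : s A = s B) : A = B := by injection h

theorem mul_assoc' (x y w : OU) : mul (mul x y) w = mul x (mul y w) := by
  rcases x with _ | A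
  · rw [none_mul, none_mul, none_mul]
  rcases y with _ | B
  · rw [none_mul, mul_none, none_mul]
  rcases w with _ | C
  · rw [mul_none, mul_none, mul_none]
  by_cases h1 : Lt A B
  · by_cases h2 : Lt B C
    · by_cases h3 : Lt A C
      · have h4 : Lt (A ∪ B) C := fun a ha b hb => by
          rcases mem_union.mp ha with h | h
          · exact h3 a h b hb
          · exact h2 a h b hb
        have h5 : Lt A (B ∪ C) := fun a ha b hb => by
          rcases mem_union.mp hb with h | h
          · exact h1 a ha b h
          · exact h3 a ha b h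
        rw [mul_some h1, mul_some h2, mul_some h4, mul_some h5, union_assoc]
      · have h4 : ¬ Lt (A ∪ B) C := fun h => h3 fun a ha b hb =>
          h a (mem_union_left _ ha) b hb
        have h5 : ¬ Lt A (B ∪ C) := fun h => h3 fun a ha b hb =>
          h a ha b (mem_union_right _ hb)
        rw [mul_some h1, mul_some h2, mul_some_not h4, mul_some_not h5]
    · have h4 : ¬ Lt (A ∪ B) C := fun h => h2 fun a ha b hb =>
        h a (mem_union_right _ ha) b hb
      rw [mul_some h1, mul_some_not h2, mul_some_not h4, mul_none]
  · rw [mul_some_not h1, none_mul]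
    by_cases h2 : Lt B C
    · have h5 : ¬ Lt A (B ∪ C) := fun h => h1 fun a ha b hb =>
        h a ha b (mem_union_left _ hb)
      rw [mul_some h2, mul_some_not h5]
    · rw [mul_some_not h2, mul_none]

noncomputable instance : Semigroup OU where
  mul := mul
  mul_assoc := mul_assoc'

theorem mul_def (x y : OU) : x * y = mul x y := rfl

end OU

/-- the infinite form -/
theorem ord_unions_inf (χ : Finset ℕ → Bool) : ∃ (c : Bool) (F : ℕ → Finset ℕ),
    (∀ i, (F i).Nonempty) ∧ (∀ i j, i < j → ∀ a ∈ F i, ∀ b ∈ F j, a < b) ∧
    ∀ I : Finset ℕ, I.Nonempty → χ (I.biUnion F) = c := by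
  classical
  set a : Stream' OU := fun i => OU.s {i} with ha
  set cl : Bool → Set OU := fun b => {m | ∃ A : Finset ℕ, m = OU.s A ∧
    A.Nonempty ∧ χ A = b} with hcl
  have hFP : ∀ (b : Stream' OU), ∀ m ∈ Hindman.FP b, ∀ N : ℕ, (∀ i, b.get i = a.get (N + i)) →
      ∃ A : Finset ℕ, m = OU.s A ∧ A.Nonempty ∧ ∀ x ∈ A, N ≤ x := by
    intro b m hm
    induction hm with
    | head' b =>
      intro N hN
      refine ⟨{N}, ?_, singleton_nonempty _, fun x hx => ?_⟩
      · have := hN 0
        rw [add_zero] at this
        exact this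
      · rw [mem_singleton] at hx; omega
    | tail' b m h ih =>
      intro N hN
      obtain ⟨A, h1, h2, h3⟩ := ih (N + 1) fun i => by
        have := hN (i + 1)
        rw [show N + 1 + i = N + (i + 1) by omega]
        exact this
      exact ⟨A, h1, h2, fun x hx => by have := h3 x hx; omega⟩
    | cons' b m h ih =>
      intro N hN
      obtain ⟨A, h1, h2, h3⟩ := ih (N + 1) fun i => by
        have := hN (i + 1)
        rw [show N + 1 + i = N + (i + 1) by omega]
        exact this
      refine ⟨{N} ∪ A, ?_, (singleton_nonempty _).inl, fun x hx => ?_⟩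
      · have e1 : b.head = OU.s {N} := by
          have := hN 0
          rw [add_zero] at this
          exact this
        rw [e1, h1]
        refine OU.mul_some fun x hx y hy => ?_
        rw [mem_singleton] at hx
        have := h3 y hy
        omega
      · rcases mem_union.mp hx with h' | h'
        · rw [mem_singleton] at h'; omega
        · have := h3 x h'; omega
  have hcov : Hindman.FP a ⊆ ⋃₀ (Set.range cl) := by
    intro m hm
    obtain ⟨A, h1, h2, -⟩ := hFP a m hm 0 fun i => by rw [zero_add]
    exact ⟨cl (χ A), ⟨χ A, rfl⟩, A, h1, h2, rfl⟩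
  obtain ⟨c', ⟨c, rfl⟩, b, hb⟩ := Hindman.FP_partition_regular a (Set.range cl)
    (Set.finite_range cl) hcov
  have hget : ∀ i, ∃ A : Finset ℕ, b.get i = OU.s A ∧ A.Nonempty ∧
      χ A = c := fun i => hb (Hindman.FP.singleton b i)
  choose F hF1 hF2 hF3 using hget
  have hlt : ∀ i j, i < j → OU.Lt (F i) (F j) := by
    intro i j hij
    obtain ⟨A, h1, -, -⟩ := hb (Hindman.FP.mul_two b i j hij)
    by_contra h
    rw [hF1 i, hF1 j] at h1
    have h2 := OU.mul_some_not h
    have h3 : OU.z = OU.s A := h2.symm.trans h1
    exact OU.noConfusion h3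
  refine ⟨c, F, hF2, hlt, ?_⟩
  have key : ∀ (I : Finset ℕ) (hI : I.Nonempty),
      OU.s (I.biUnion F) ∈ Hindman.FP (b.drop (I.min' hI)) := by
    intro I
    induction I using Finset.eraseInduction with
    | H I ih =>
      intro hI
      set m := I.min' hI with hm
      have hmI : m ∈ I := min'_mem _ _
      by_cases he : (I.erase m).Nonempty
      · have h1 := ih m hmI he
        have h2 : I.biUnion F = F m ∪ (I.erase m).biUnion F := by
          conv_lhs => rw [← insert_erase hmI, biUnion_insert]
        have h3 : OU.Lt (F m) ((I.erase m).biUnion F) := by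
          intro x hx y hy
          obtain ⟨j, hj, hy'⟩ := mem_biUnion.mp hy
          refine hlt m j ?_ x hx y hy'
          have := mem_erase.mp hj
          exact lt_of_le_of_ne (min'_le _ _ this.2) (Ne.symm this.1)
        have h4 : OU.s (I.biUnion F) =
            OU.mul (b.drop m).head (OU.s ((I.erase m).biUnion F)) := by
          have e : (b.drop m).head = OU.s (F m) := by
            rw [Stream'.head_drop]; exact hF1 m
          rw [e, h2]
          exact (OU.mul_some h3).symm
        have h5 : (OU.s ((I.erase m).biUnion F)) ∈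
            Hindman.FP (b.drop m).tail := by
          rw [Stream'.tail_eq_drop, Stream'.drop_drop]
          have h6 : m + 1 ≤ (I.erase m).min' he := by
            have h7 := mem_erase.mp (min'_mem _ he)
            exact lt_of_le_of_ne (min'_le _ _ h7.2) (Ne.symm h7.1)
          obtain ⟨d, hd⟩ := Nat.exists_eq_add_of_le h6
          rw [hd] at h1
          have h8 := Hindman.FP_drop_subset_FP (b.drop (1 + m)) d
          rw [Stream'.drop_drop] at h8
          rw [show m + 1 = 1 + m by omega] at h1 ⊢
          exact h8 h1
        have h10 := Hindman.FP.cons (b.drop m) _ h5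
        rw [h4]
        exact h10
      · have h1 : I = {m} := by
          rw [not_nonempty_iff_eq_empty] at he
          rw [← insert_erase hmI, he]
          rfl
        have h2 : I.biUnion F = F m := by
          rw [h1, singleton_biUnion]
        have h3 : OU.s (I.biUnion F) = (b.drop m).head := by
          rw [Stream'.head_drop, h2]; exact (hF1 m).symm
        rw [h3]
        exact Hindman.FP.head _
  intro I hI
  obtain ⟨A, h1, -, h2⟩ := hb (Hindman.FP_drop_subset_FP b _ (key I hI))
  have h3 : I.biUnion F = A := OU.s_inj h1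
  rw [h3]; exact h2

/-- **(U)** the finite form -/
theorem ord_unions (k : ℕ) : ∃ n : ℕ, ∀ χ : Finset ℕ → Bool, ∃ (c : Bool) (F : ℕ → Finset ℕ),
    (∀ i, i < k → (F i).Nonempty ∧ F i ⊆ range n) ∧
    (∀ i j, i < j → j < k → ∀ a ∈ F i, ∀ b ∈ F j, a < b) ∧
    ∀ I : Finset ℕ, I.Nonempty → I ⊆ range k → χ (I.biUnion F) = c := by
  classical
  by_contra hcon
  push Not at hcon
  choose χ hχ using hcon
  set U : Ultrafilter ℕ := hyperfilter ℕ with hU
  set ψ : Finset ℕ → Bool := fun A => decide (∀ᶠ n in (U : Filter ℕ), χ n A = true) with hψ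
  have hlim : ∀ A, ∀ᶠ n in (U : Filter ℕ), χ n A = ψ A := by
    intro A
    by_cases h : ∀ᶠ n in (U : Filter ℕ), χ n A = true
    · have e : ψ A = true := by simp only [hψ, decide_eq_true_eq]; exact h
      rw [e]; exact h
    · have e : ψ A = false := by simp only [hψ, decide_eq_false_iff_not]; exact h
      rw [e]
      have h2 := (Ultrafilter.eventually_not).mpr h
      filter_upwards [h2] with n hn
      simpa using hn
  obtain ⟨c, F, h1, h2, h3⟩ := ord_unions_inf ψ
  set S : Finset ℕ := (range k).biUnion F with hS
  obtain ⟨N, hN⟩ : ∃ N, S ⊆ range N := S.exists_nat_subset_range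
  have e1 : ∀ᶠ n in (U : Filter ℕ), N ≤ n := by
    have : ∀ᶠ n in (atTop : Filter ℕ), N ≤ n := eventually_ge_atTop N
    exact (Nat.hyperfilter_le_atTop) this
  have e2 : ∀ᶠ n in (U : Filter ℕ), ∀ I ∈ (range k).powerset, χ n (I.biUnion F) =
      ψ (I.biUnion F) := by
    rw [Filter.eventually_all_finset]
    intro I _
    exact hlim _
  obtain ⟨n, hn1, hn2⟩ := (e1.and e2).exists
  obtain ⟨I, hI1, hI2, hI3⟩ := hχ n c F (fun i hi => ⟨h1 i, fun x hx => by
    have h4 : x ∈ S := mem_biUnion.mpr ⟨i, mem_range.mpr hi, hx⟩
    have h5 := mem_range.mp (hN h4)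
    exact mem_range.mpr (by omega)⟩) fun i j hij _ => h2 i j hij
  refine hI3 ?_
  rw [hn2 I (mem_powerset.mpr hI2)]
  exact h3 I hI1

end Pool.Agent.FIN
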