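import Pool.Agent.Lib.MP_60922f_co.FIN.ChainC82
import Pool.Agent.Lib.MP_60922f_co.FIN.OrdUnions74

/-!
FIN chain, part D: the menus are fixed one after the other, and the final theorems.
-/

open Finset

namespace Pool.Agent.FinClique

variable {μ : Set ℕ → ℝ} {f : ℕ → Bool} {n : ℕ} {r : ℕ → ℕ} {S : ℕ → Finset (ℕ × ℕ)}
  {d : ℕ → ℝ} {W : ℕ} {ρ : ℕ → ℕ} {Hf : ℕ → ℕ}

/-- the window factor needed by all recurrences -/
def bigK (n : ℕ) (r : ℕ → ℕ) (S : ℕ → Finset (ℕ × ℕ)) : ℕ :=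
  (∑ j ∈ range n, 4 * r j * (items j).card) * ∑ k ∈ range n, ∑ p ∈ S k, p.2 ^ 2

theorem Picked.big' {K : ℕ} {t : ℕ → ℕ} (P : Picked f n 0 r S d W ρ K Hf t) {h : ℕ} (hh : h < n) :
    ∏ k ∈ Ico (h + 1) n, r k * t k < t h :=
  lt_of_le_of_lt (Nat.le_add_right _ _) (P.big h (Nat.zero_le _) hh)

theorem Picked.growth {K : ℕ} {t : ℕ → ℕ} (P : Picked f n 0 r S d W ρ K Hf t) {h m : ℕ}
    (hh : h < n) (hm : m ≤ ∏ k ∈ Ico (h + 1) n, r k * t k) : Hf m < t h := by
  refine lt_of_le_of_lt ?_ (P.big h (Nat.zero_le _) hh)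
  refine le_trans ?_ (Nat.le_add_left _ _)
  exact Finset.single_le_sum (f := Hf) (fun _ _ => Nat.zero_le _)
    (mem_range.2 (Nat.lt_succ_of_le hm))

theorem menu_step (H : Stg μ f n n r S d W ρ) {t : ℕ → ℕ}
    (P : Picked f n 0 r S d W ρ (bigK n r S) Hf t) {j : ℕ} (hj : j < n) {i : ℕ → ℕ}
    (hi : ∀ h, 1 ≤ i h ∧ i h ≤ r h) :
    ∃ k, 1 ≤ k ∧ k ≤ r j ∧ ∀ l ∈ items j,
      f ((∏ g ∈ l.1, i g * t g) + k * t j * ∏ g ∈ l.2, i g * t g) = f (∏ g ∈ l.1, i g * t g) := by
  classical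
  have htpos : ∀ h, h < n → 0 < t h := fun h h2 =>
    lt_of_le_of_lt (Nat.zero_le _) (P.big' h2)
  have hfac : ∀ h, h < n → 0 < i h * t h := fun h hh => Nat.mul_pos (hi h).1 (htpos h hh)
  -- richness of all products
  have key : ∀ l ∈ items j, ∃ L : ℕ, ∃ p : ℕ × ℕ, p ∈ S (top l.1) ∧
      Rich f p.1 p.2 (d (top l.1)) L (∏ g ∈ l.1, i g * t g) ∧
      bigK n r S * (t j * ∏ g ∈ l.2, i g * t g) ≤ L := by
    intro l hl
    obtain ⟨⟨h1, h2⟩, hne, h3⟩ := mem_items.1 hl
    set m := l.1.min' hne with hm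
    have hmG : m ∈ l.1 := Finset.min'_mem _ _
    have hmj : m < j := mem_range.1 (h1 hmG)
    have hsub : l.1 ⊆ Ico m n := by
      intro x hx
      rw [Finset.mem_Ico]
      exact ⟨Finset.min'_le _ _ hx, lt_trans (mem_range.1 (h1 hx)) hj⟩
    obtain ⟨L, hL, p, hp, hr⟩ := P.rich m (Nat.zero_le _) (by omega) l.1 hsub hmG i
      (fun k _ => hi k)
    refine ⟨L, p, hp, hr, le_trans (Nat.mul_le_mul_left _ ?_) hL⟩
    have hjF : j ∉ l.2 := fun h => by
      have := mem_range.1 (h2 h); omega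
    have hins : insert j l.2 ⊆ Ico (m + 1) n := by
      intro x hx
      rcases Finset.mem_insert.1 hx with h | h
      · rw [h, Finset.mem_Ico]; omega
      · have h5 := h3 m hmG x h
        have h6 := mem_range.1 (h2 h)
        rw [Finset.mem_Ico]; omega
    calc t j * ∏ g ∈ l.2, i g * t g ≤ (i j * t j) * ∏ g ∈ l.2, i g * t g := by
          refine Nat.mul_le_mul_right _ (Nat.le_mul_of_pos_left _ (hi j).1)
      _ = ∏ g ∈ insert j l.2, i g * t g := by rw [Finset.prod_insert hjF]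
      _ ≤ ∏ g ∈ Ico (m + 1) n, i g * t g :=
          Finset.prod_le_prod_of_subset_of_one_le' hins
            (fun g hg _ => hfac g (Finset.mem_Ico.1 hg).2)
      _ ≤ ∏ g ∈ Ico (m + 1) n, r g * t g :=
          Finset.prod_le_prod' (fun g _ => Nat.mul_le_mul_right _ (hi g).2)
  choose! L p hp hr hL using key
  have hrec := H.rcr j hj (items j).card
  obtain ⟨k, hk1, hk2, hk3⟩ := hrec.2 (items j) p (fun l => ∏ g ∈ l.1, i g * t g)
    (fun l => ∏ g ∈ l.2, i g * t g) L (fun l => d (top l.1)) (t j) le_rfl (htpos j hj)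
    (by
      intro l hl
      obtain ⟨⟨h1, h2⟩, hne, h3⟩ := mem_items.1 hl
      have htop : top l.1 < j := top_lt h1 hne
      obtain ⟨hp1, hp2⟩ := H.S_ok _ _ (hp l hl)
      refine ⟨?_, H.d_pos _, hp1, hp2, ?_, hr l hl, ?_⟩
      · exact Finset.prod_pos (fun g hg => hfac g (lt_trans (mem_range.1 (h2 hg)) hj))
      · obtain ⟨h4, h5⟩ := H.stp j hj _ htop _ (hp l hl)
        exact (((P.res j (Nat.zero_le _) hj).of_dvd h5).dvd_iff dvd_rfl).2 h4
      · have hv : (p l).2 ^ 2 ≤ ∑ k ∈ range n, ∑ p ∈ S k, p.2 ^ 2 := by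
          calc (p l).2 ^ 2 ≤ ∑ p ∈ S (top l.1), p.2 ^ 2 :=
                Finset.single_le_sum (f := fun p : ℕ × ℕ => p.2 ^ 2)
                  (fun _ _ => Nat.zero_le _) (hp l hl)
            _ ≤ _ := Finset.single_le_sum (f := fun k => ∑ p ∈ S k, p.2 ^ 2)
                  (fun _ _ => Nat.zero_le _) (mem_range.2 (lt_trans htop hj))
        have hc : 4 * r j * (items j).card ≤ ∑ j ∈ range n, 4 * r j * (items j).card :=
          Finset.single_le_sum (f := fun j => 4 * r j * (items j).card)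
            (fun _ _ => Nat.zero_le _) (mem_range.2 hj)
        calc 4 * r j * (items j).card * ((p l).2 ^ 2 * (t j * ∏ g ∈ l.2, i g * t g))
            = (4 * r j * (items j).card) * (p l).2 ^ 2 * (t j * ∏ g ∈ l.2, i g * t g) := by ring
          _ ≤ bigK n r S * (t j * ∏ g ∈ l.2, i g * t g) := by
              unfold bigK; gcongr
          _ ≤ L l := hL l hl)
    le_rfl
  exact ⟨k, hk1, hk2, hk3⟩

theorem menu_all (H : Stg μ f n n r S d W ρ) {t : ℕ → ℕ}
    (P : Picked f n 0 r S d W ρ (bigK n r S) Hf t) :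
    ∃ i : ℕ → ℕ, (∀ h, 1 ≤ i h ∧ i h ≤ r h) ∧ ∀ j, j < n → ∀ l ∈ items j,
      f ((∏ g ∈ l.1, i g * t g) + i j * t j * ∏ g ∈ l.2, i g * t g) =
        f (∏ g ∈ l.1, i g * t g) := by
  classical
  have h : ∀ m, m ≤ n → ∃ i : ℕ → ℕ, (∀ h, 1 ≤ i h ∧ i h ≤ r h) ∧ ∀ j, j < m → ∀ l ∈ items j,
      f ((∏ g ∈ l.1, i g * t g) + i j * t j * ∏ g ∈ l.2, i g * t g) =
        f (∏ g ∈ l.1, i g * t g) := by
    intro m
    induction m with
    | zero => intro _; exact ⟨fun _ => 1, fun h => ⟨le_rfl, H.r_pos h⟩, fun j hj => absurd hj (by omega)⟩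
    | succ m ih =>
      intro hm
      obtain ⟨i, hi1, hi2⟩ := ih (by omega)
      obtain ⟨k, hk1, hk2, hk3⟩ := menu_step H P (show m < n by omega) hi1
      refine ⟨Function.update i m k, ?_, ?_⟩
      · intro h
        by_cases hh : h = m
        · rw [hh, Function.update_self]; exact ⟨hk1, hk2⟩
        · rw [Function.update_of_ne hh]; exact hi1 h
      · intro j hj l hl
        obtain ⟨⟨h1, h2⟩, hne, h3⟩ := mem_items.1 hl
        have hc : ∀ G : Finset ℕ, G ⊆ range j →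
            ∏ g ∈ G, Function.update i m k g * t g = ∏ g ∈ G, i g * t g := by
          intro G hG
          refine Finset.prod_congr rfl (fun g hg => ?_)
          have := mem_range.1 (hG hg)
          rw [Function.update_of_ne (by omega)]
        rw [hc _ h1, hc _ h2]
        by_cases hh : j = m
        · rw [hh, Function.update_self]
          rw [hh] at hl
          exact hk3 l hl
        · rw [Function.update_of_ne hh]
          exact hi2 j (by omega) l hl
  exact h n le_rfl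

/-- the menus extended by `1` -/
def exm (n : ℕ) {R : ℕ} (a : Fin n → Fin R) (h : ℕ) : ℕ := if hh : h < n then (a ⟨h, hh⟩ : ℕ) else 1

/-- product over `G` -/
def Qp (i t : ℕ → ℕ) (G : Finset ℕ) : ℕ := ∏ g ∈ G, i g * t g

theorem Qp_congr {i i' t t' : ℕ → ℕ} {G : Finset ℕ} (h : ∀ g ∈ G, i g = i' g ∧ t g = t' g) :
    Qp i t G = Qp i' t' G :=
  Finset.prod_congr rfl (fun g hg => by rw [(h g hg).1, (h g hg).2])

/-- all conditions on the integers and the menus -/
structure Data (f : ℕ → Bool) (n : ℕ) (r : ℕ → ℕ) (S : ℕ → Finset (ℕ × ℕ))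
    (d : ℕ → ℝ) (W : ℕ) (ρ : ℕ → ℕ) (Hf : ℕ → ℕ) (i t : ℕ → ℕ) : Prop where
  P : Picked f n 0 r S d W ρ (bigK n r S) Hf t
  i1 : ∀ h, h < n → 1 ≤ i h ∧ i h ≤ r h
  rcr : ∀ j, j < n → ∀ l ∈ items j, f (Qp i t l.1 + i j * t j * Qp i t l.2) = f (Qp i t l.1)

theorem Data.t_pos {i t : ℕ → ℕ} (h : Data f n r S d W ρ Hf i t) {g : ℕ} (hg : g < n) :
    0 < t g := lt_of_le_of_lt (Nat.zero_le _) (h.P.big' hg)

theorem Data.fac {i t : ℕ → ℕ} (h : Data f n r S d W ρ Hf i t) {g : ℕ} (hg : g < n) :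
    0 < i g * t g := Nat.mul_pos (h.i1 g hg).1 (h.t_pos hg)

theorem Data.Q_pos {i t : ℕ → ℕ} (h : Data f n r S d W ρ Hf i t) {G : Finset ℕ}
    (hG : G ⊆ range n) : 0 < Qp i t G :=
  Finset.prod_pos (fun g hg => h.fac (mem_range.1 (hG hg)))

theorem Data.sum {i t : ℕ → ℕ} (h : Data f n r S d W ρ Hf i t) {F G : Finset ℕ}
    (hF : F.Nonempty) (hG : G.Nonempty) (hGn : G ⊆ range n)
    (hFG : ∀ a ∈ F, ∀ b ∈ G, a < b) : f (Qp i t F + Qp i t G) = f (Qp i t F) := by
  set j := G.max' hG with hj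
  have hjG : j ∈ G := Finset.max'_mem _ _
  have hjn : j < n := mem_range.1 (hGn hjG)
  have hl : (F, G.erase j) ∈ items j := by
    rw [mem_items]
    refine ⟨⟨?_, ?_⟩, hF, ?_⟩
    · intro x hx
      exact mem_range.2 (hFG x hx j hjG)
    · intro x hx
      have h1 := Finset.mem_of_mem_erase hx
      have h2 := Finset.ne_of_mem_erase hx
      have h3 := Finset.le_max' G x h1
      exact mem_range.2 (lt_of_le_of_ne h3 h2)
    · intro x hx y hy
      exact hFG x hx y (Finset.mem_of_mem_erase hy)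
  have h1 := h.rcr j hjn _ hl
  have h2 : i j * t j * Qp i t (G.erase j) = Qp i t G :=
    Finset.mul_prod_erase G (fun g => i g * t g) hjG
  simp only [h2] at h1
  exact h1

theorem Data.grow {i t : ℕ → ℕ} (h : Data f n r S d W ρ Hf i t) {F G : Finset ℕ}
    (hF : F.Nonempty) (hFn : F ⊆ range n) (hGn : G ⊆ range n)
    (hFG : ∀ a ∈ F, ∀ b ∈ G, a < b) :
    Qp i t G < Qp i t F ∧ Hf (Qp i t G) < Qp i t F := by
  obtain ⟨g, hg⟩ := hF
  have hgn : g < n := mem_range.1 (hFn hg)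
  have hsub : G ⊆ Ico (g + 1) n := by
    intro x hx
    have h1 := hFG g hg x hx
    have h2 := mem_range.1 (hGn hx)
    rw [Finset.mem_Ico]; omega
  have hQG : Qp i t G ≤ ∏ k ∈ Ico (g + 1) n, r k * t k :=
    calc Qp i t G ≤ ∏ k ∈ Ico (g + 1) n, i k * t k :=
          Finset.prod_le_prod_of_subset_of_one_le' hsub
            (fun k hk _ => h.fac (Finset.mem_Ico.1 hk).2)
      _ ≤ ∏ k ∈ Ico (g + 1) n, r k * t k :=
          Finset.prod_le_prod' (fun k hk => Nat.mul_le_mul_right _ (h.i1 k (Finset.mem_Ico.1 hk).2).2)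
  have hQF : t g ≤ Qp i t F :=
    calc t g ≤ i g * t g := Nat.le_mul_of_pos_left _ (h.i1 g hgn).1
      _ ≤ Qp i t F := by
          refine Finset.single_le_prod' (f := fun k => i k * t k) (fun k hk => ?_) hg
          exact h.fac (mem_range.1 (hFn hk))
  exact ⟨lt_of_lt_of_le (lt_of_le_of_lt hQG (h.P.big' hgn)) hQF,
    lt_of_lt_of_le (h.P.growth hgn hQG) hQF⟩

/-- THE CHAIN, strong form: a stable colouring has, for every `K` and every growth function `Hf`,
numbers `x_1 < … < x_K` and a set `Y` of positive measure such that all `x_i`, `x_i + x_j`,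
`x_i x_j`, `y`, `x_i + y`, `x_i y` lie in one class. -/
theorem clique_plus {μ : Set ℕ → ℝ} (hμ : SubMean μ)
    (hdil : ∀ (C : ℕ) (T : Set ℕ), 0 < C → 0 < μ T → 0 < μ {y | ∃ x ∈ T, y = C * x})
    {f : ℕ → Bool} (hS : Stab μ f) (K : ℕ) (Hf : ℕ → ℕ) :
    ∃ (x : Fin K → ℕ) (Y : Set ℕ) (c : Bool), StrictMono x ∧ (∀ i, 1 ≤ x i) ∧
      (∀ i j, i < j → Hf (x i) < x j) ∧ 0 < μ Y ∧
      (∀ i, f (x i) = c) ∧ (∀ i j, i < j → f (x i + x j) = c ∧ f (x i * x j) = c) ∧
      ∀ y ∈ Y, f y = c ∧ ∀ i, x i < y ∧ Hf (x i) < y ∧ f (x i + y) = c ∧ f (x i * y) = c := by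
  classical
  obtain ⟨n, hn⟩ := Pool.Agent.FIN.ord_unions (K + 1)
  obtain ⟨r, S, d, W, ρ, H⟩ := stg_all hμ hS n n
  -- the finite data
  set R : ℕ := ∑ h ∈ range n, r h + 1 with hR
  have hrR : ∀ h, h < n → r h < R := by
    intro h hh
    have := Finset.single_le_sum (f := r) (fun _ _ => Nat.zero_le _) (mem_range.2 hh)
    omega
  have hRpos : 0 < R := by omega
  set Φ : (ℕ → ℕ) → Prop := Picked f n 0 r S d W ρ (bigK n r S) Hf with hΦ
  have hex : ∀ t, Φ t → ∃ a : Fin n → Fin R, Data f n r S d W ρ Hf (exm n a) t := by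
    intro t ht
    obtain ⟨i, hi1, hi2⟩ := menu_all H ht
    refine ⟨fun h => ⟨i h, lt_of_le_of_lt (hi1 h).2 (hrR h h.2)⟩, ht, ?_, ?_⟩
    · intro h hh
      simp only [exm, dif_pos hh]
      exact hi1 h
    · intro j hj l hl
      obtain ⟨⟨h1, h2⟩, hne, h3⟩ := mem_items.1 hl
      have hc : ∀ G : Finset ℕ, G ⊆ range j →
          Qp (exm n (fun h : Fin n => (⟨i h, lt_of_le_of_lt (hi1 h).2 (hrR h h.2)⟩ : Fin R))) t G =
            ∏ g ∈ G, i g * t g := by
        intro G hG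
        refine Finset.prod_congr rfl (fun g hg => ?_)
        have h5 := mem_range.1 (hG hg)
        simp only [exm, dif_pos (lt_trans h5 hj)]
      rw [hc _ h1, hc _ h2]
      simp only [exm, dif_pos hj]
      exact hi2 j hj l hl
  set a : (ℕ → ℕ) → (Fin n → Fin R) := fun t =>
    if h : Φ t then Classical.choose (hex t h) else fun _ => ⟨0, hRpos⟩ with ha
  have haD : ∀ t, Φ t → Data f n r S d W ρ Hf (exm n (a t)) t := by
    intro t ht
    simp only [ha, dif_pos ht]
    exact Classical.choose_spec (hex t ht)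
  set D : (ℕ → ℕ) → (Fin n → Fin R) × (Finset (Fin n) → Bool) := fun t =>
    (a t, fun G => f (Qp (exm n (a t)) t (G.map Fin.valEmbedding))) with hD
  have hRg : Rg μ Φ n (fun _ => 1) :=
    picked_Rg hμ H _ Hf n le_rfl _ (picked_n _ _ _)
  obtain ⟨⟨a0, χ⟩, hb⟩ := Rg.pigeon hμ D n _ hRg
  set i : ℕ → ℕ := exm n a0 with hi
  set Ψ : (ℕ → ℕ) → Prop := fun t => Φ t ∧ D t = (a0, χ) with hΨ
  have hΨD : ∀ t, Ψ t → Data f n r S d W ρ Hf i t ∧
      ∀ G : Finset ℕ, G ⊆ range n → f (Qp i t G) =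
        χ (Finset.univ.filter (fun h : Fin n => (h : ℕ) ∈ G)) := by
    rintro t ⟨h1, h2⟩
    have h3 : a t = a0 := congrArg Prod.fst h2
    have h4 := haD t h1
    rw [h3] at h4
    refine ⟨h4, fun G hG => ?_⟩
    have h5 : (fun G => f (Qp (exm n (a t)) t (G.map Fin.valEmbedding))) = χ :=
      congrArg Prod.snd h2
    rw [← h5]
    simp only [h3]
    congr 2
    ext x
    simp only [Finset.mem_map, Finset.mem_filter, Finset.mem_univ, true_and,
      Fin.valEmbedding_apply]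
    constructor
    · intro hx
      exact ⟨⟨x, mem_range.1 (hG hx)⟩, hx, rfl⟩
    · rintro ⟨y, hy, rfl⟩
      exact hy
  -- the blocks
  obtain ⟨c, F, hF1, hF2, hF3⟩ :=
    hn (fun G => χ (Finset.univ.filter (fun h : Fin n => (h : ℕ) ∈ G)))
  have hFsub : ∀ b, b < K + 1 → F b ⊆ range n := fun b hb => (hF1 b hb).2
  have hFne : ∀ b, b < K + 1 → (F b).Nonempty := fun b hb => (hF1 b hb).1
  -- consequences for every completed choice
  have cons : ∀ t, Ψ t → (∀ b, b < K + 1 → f (Qp i t (F b)) = c) ∧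
      ∀ b b', b < b' → b' < K + 1 → f (Qp i t (F b) + Qp i t (F b')) = c ∧
        f (Qp i t (F b) * Qp i t (F b')) = c := by
    intro t ht
    obtain ⟨hdat, hχ⟩ := hΨD t ht
    have h1 : ∀ b, b < K + 1 → f (Qp i t (F b)) = c := by
      intro b hb
      rw [hχ _ (hFsub b hb)]
      have := hF3 {b} (Finset.singleton_nonempty b) (by simpa using hb)
      simpa using this
    refine ⟨h1, fun b b' hbb hb' => ⟨?_, ?_⟩⟩
    · rw [hdat.sum (hFne b (by omega)) (hFne b' hb') (hFsub b' hb') (hF2 b b' hbb hb')]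
      exact h1 b (by omega)
    · have h3 : Disjoint (F b) (F b') := by
        rw [Finset.disjoint_left]
        intro x hx hx'
        exact lt_irrefl _ (hF2 b b' hbb hb' x hx x hx')
      have h4 : Qp i t (F b) * Qp i t (F b') = Qp i t (F b ∪ F b') := (Finset.prod_union h3).symm
      rw [h4, hχ _ (Finset.union_subset (hFsub b (by omega)) (hFsub b' hb'))]
      have := hF3 {b, b'} (Finset.insert_nonempty _ _) (by
        intro x hx
        simp only [Finset.mem_insert, Finset.mem_singleton] at hx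
        rw [mem_range]; omega)
      have h2 : ({b, b'} : Finset ℕ).biUnion F = F b ∪ F b' := by
        rw [Finset.biUnion_insert, Finset.singleton_biUnion]
      rw [h2] at this
      exact this
  -- the smallest index of the first block
  set g : ℕ := (F 0).min' (hFne 0 (Nat.succ_pos K)) with hg
  have hgF : g ∈ F 0 := Finset.min'_mem _ _
  have hgn : g < n := mem_range.1 (hFsub 0 (Nat.succ_pos K) hgF)
  obtain ⟨t, -, ht⟩ := Rg.down hμ (g := g + 1) n (by omega) _ hb
  set T : Set ℕ := {x | Rg μ Ψ g (Function.update t g x)} with hT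
  have hTpos : 0 < μ T := ht
  have hcomp : ∀ x ∈ T, ∃ t', Ψ t' ∧ t' g = x ∧ ∀ k, g < k → t' k = t k := by
    intro x hx
    obtain ⟨t', h1, h2⟩ := Rg.down hμ (g := 0) g (Nat.zero_le _) _ hx
    refine ⟨t', h2, ?_, fun k hk => ?_⟩
    · rw [h1 g le_rfl, Function.update_self]
    · rw [h1 k hk.le, Function.update_of_ne (by omega)]
  have hQb : ∀ t', (∀ k, g < k → t' k = t k) → ∀ b, 0 < b → b < K + 1 →
      Qp i t' (F b) = Qp i t (F b) := by
    intro t' h1 b hb0 hb
    refine Qp_congr (fun k hk => ⟨rfl, h1 k ?_⟩)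
    exact hF2 0 b hb0 hb g hgF k hk
  set C : ℕ := i g * Qp i t ((F 0).erase g) with hC
  have hQ0 : ∀ t', (∀ k, g < k → t' k = t k) → Qp i t' (F 0) = C * t' g := by
    intro t' h1
    have h2 : Qp i t' (F 0) = i g * t' g * Qp i t' ((F 0).erase g) :=
      (Finset.mul_prod_erase (F 0) (fun k => i k * t' k) hgF).symm
    have h3 : Qp i t' ((F 0).erase g) = Qp i t ((F 0).erase g) := by
      refine Qp_congr (fun k hk => ⟨rfl, h1 k ?_⟩)
      have h4 := Finset.min'_le (F 0) k (Finset.mem_of_mem_erase hk)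
      have h5 := Finset.ne_of_mem_erase hk
      omega
    rw [h2, h3, hC]; ring
  obtain ⟨x0, hx0⟩ := hμ.nonempty hTpos
  obtain ⟨t0, ht0, ht0g, ht0k⟩ := hcomp x0 hx0
  obtain ⟨hdat0, -⟩ := hΨD t0 ht0
  have hCpos : 0 < C := by
    have h1 := hQ0 t0 ht0k
    have h2 := hdat0.Q_pos (hFsub 0 (Nat.succ_pos K))
    rw [h1] at h2
    exact Nat.pos_of_mul_pos_right h2
  refine ⟨fun k => Qp i t (F (K - k.1)), {y | ∃ x ∈ T, y = C * x}, c, ?_, ?_, ?_,
    hdil C T hCpos hTpos, ?_, ?_, ?_⟩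
  · intro b b' hbb
    have h1 := b.2
    have h2 := b'.2
    have h3 : b.1 < b'.1 := hbb
    have := (hdat0.grow (hFne (K - b'.1) (by omega)) (hFsub (K - b'.1) (by omega))
      (hFsub (K - b.1) (by omega)) (hF2 (K - b'.1) (K - b.1) (by omega) (by omega))).1
    rwa [hQb t0 ht0k _ (by omega) (by omega), hQb t0 ht0k _ (by omega) (by omega)] at this
  · intro b
    have h1 := b.2
    have := hdat0.Q_pos (hFsub (K - b.1) (by omega))
    rwa [hQb t0 ht0k _ (by omega) (by omega)] at this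
  · intro b b' hbb
    have h1 := b.2
    have h2 := b'.2
    have h3 : b.1 < b'.1 := hbb
    have := (hdat0.grow (hFne (K - b'.1) (by omega)) (hFsub (K - b'.1) (by omega))
      (hFsub (K - b.1) (by omega)) (hF2 (K - b'.1) (K - b.1) (by omega) (by omega))).2
    rwa [hQb t0 ht0k _ (by omega) (by omega), hQb t0 ht0k _ (by omega) (by omega)] at this
  · intro b
    have h1 := b.2
    have := (cons t0 ht0).1 (K - b.1) (by omega)
    rwa [hQb t0 ht0k _ (by omega) (by omega)] at this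
  · intro b b' hbb
    have h1 := b.2
    have h2 := b'.2
    have h3 : b.1 < b'.1 := hbb
    have := (cons t0 ht0).2 (K - b'.1) (K - b.1) (by omega) (by omega)
    rw [hQb t0 ht0k _ (by omega) (by omega), hQb t0 ht0k _ (by omega) (by omega)] at this
    rw [add_comm, mul_comm]
    exact this
  · rintro y ⟨x, hx, rfl⟩
    obtain ⟨t1, ht1, ht1g, ht1k⟩ := hcomp x hx
    obtain ⟨hdat1, -⟩ := hΨD t1 ht1
    have h0 : C * x = Qp i t1 (F 0) := by rw [hQ0 t1 ht1k, ht1g]
    rw [h0]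
    refine ⟨(cons t1 ht1).1 0 (Nat.succ_pos K), fun b => ?_⟩
    have h1 := b.2
    have h2 := hdat1.grow (hFne 0 (Nat.succ_pos K)) (hFsub 0 (Nat.succ_pos K))
      (hFsub (K - b.1) (by omega)) (hF2 0 (K - b.1) (by omega) (by omega))
    have h3 := (cons t1 ht1).2 0 (K - b.1) (by omega) (by omega)
    rw [hQb t1 ht1k (K - b.1) (by omega) (by omega)] at h2 h3
    refine ⟨h2.1, h2.2, ?_, ?_⟩
    · show f (Qp i t (F (K - b.1)) + _) = c
      rw [add_comm]; exact h3.1
    · show f (Qp i t (F (K - b.1)) * _) = c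
      rw [mul_comm]; exact h3.2

/-- THE CHAIN, without the dilation law: a stable colouring has `K`-element sets with all elements,
all pairwise sums and all pairwise products in one class, with arbitrary growth. -/
theorem clique_of_stab {μ : Set ℕ → ℝ} (hμ : SubMean μ) {f : ℕ → Bool} (hS : Stab μ f) (K : ℕ)
    (Hf : ℕ → ℕ) :
    ∃ x : Fin K → ℕ, StrictMono x ∧ (∀ i, 1 ≤ x i) ∧ (∀ i j, i < j → Hf (x i) < x j) ∧
      ∃ c, (∀ i, f (x i) = c) ∧ ∀ i j, i < j → f (x i + x j) = c ∧ f (x i * x j) = c := by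
  classical
  obtain ⟨n, hn⟩ := Pool.Agent.FIN.ord_unions K
  obtain ⟨r, S, d, W, ρ, H⟩ := stg_all hμ hS n n
  obtain ⟨t, -, P⟩ := Rg.down hμ (g := 0) n (Nat.zero_le _) _
    (picked_Rg hμ H (bigK n r S) Hf n le_rfl (fun _ => 1) (picked_n _ _ _))
  obtain ⟨i, hi1, hi2⟩ := menu_all H P
  have hdat : Data f n r S d W ρ Hf i t := ⟨P, fun h _ => hi1 h, hi2⟩
  obtain ⟨c, F, hF1, hF2, hF3⟩ := hn (fun G => f (Qp i t G))
  have hFsub : ∀ b, b < K → F b ⊆ range n := fun b hb => (hF1 b hb).2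
  have hFne : ∀ b, b < K → (F b).Nonempty := fun b hb => (hF1 b hb).1
  have hFc : ∀ a, a < K → f (Qp i t (F a)) = c := by
    intro a ha
    have := hF3 {a} (Finset.singleton_nonempty a) (by simpa using ha)
    simpa using this
  have hFu : ∀ a b, a < b → b < K → f (Qp i t (F a) * Qp i t (F b)) = c := by
    intro a b hab hb
    have h1 := hF3 {a, b} (Finset.insert_nonempty _ _) (by
      intro x hx
      simp only [Finset.mem_insert, Finset.mem_singleton] at hx
      rw [mem_range]; omega)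
    have h2 : ({a, b} : Finset ℕ).biUnion F = F a ∪ F b := by
      rw [Finset.biUnion_insert, Finset.singleton_biUnion]
    have h3 : Disjoint (F a) (F b) := by
      rw [Finset.disjoint_left]
      intro x hx hx'
      exact lt_irrefl _ (hF2 a b hab hb x hx x hx')
    rw [h2] at h1
    have h4 : Qp i t (F a ∪ F b) = Qp i t (F a) * Qp i t (F b) := Finset.prod_union h3
    simp only [h4] at h1
    exact h1
  refine ⟨fun k => Qp i t (F (K - 1 - k.1)), ?_, ?_, ?_, c, ?_, ?_⟩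
  · intro a b hab
    have ha := a.2
    have hb := b.2
    have hab' : a.1 < b.1 := hab
    exact (hdat.grow (hFne _ (by omega)) (hFsub _ (by omega)) (hFsub _ (by omega))
      (hF2 (K - 1 - b.1) (K - 1 - a.1) (by omega) (by omega))).1
  · intro a
    have ha := a.2
    exact hdat.Q_pos (hFsub _ (by omega))
  · intro a b hab
    have ha := a.2
    have hb := b.2
    have hab' : a.1 < b.1 := hab
    exact (hdat.grow (hFne _ (by omega)) (hFsub _ (by omega)) (hFsub _ (by omega))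
      (hF2 (K - 1 - b.1) (K - 1 - a.1) (by omega) (by omega))).2
  · intro a
    have ha := a.2
    exact hFc _ (by omega)
  · intro a b hab
    have ha := a.2
    have hb := b.2
    have hab' : a.1 < b.1 := hab
    constructor
    · have := hdat.sum (hFne (K - 1 - b.1) (by omega)) (hFne (K - 1 - a.1) (by omega))
        (hFsub (K - 1 - a.1) (by omega)) (hF2 (K - 1 - b.1) (K - 1 - a.1) (by omega) (by omega))
      rw [hFc _ (by omega), add_comm] at this
      exact this
    · have := hFu (K - 1 - b.1) (K - 1 - a.1) (by omega) (by omega)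
      rw [mul_comm] at this
      exact this

end Pool.Agent.FinClique
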