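import Pool.Agent.Lib.MP_60922f_co.FIN.ChainC19
import Pool.Agent.Lib.MP_60922f_co.FIN.ChainD82

/-!
FIN chain for finite sums and finite products, part D: the final theorem of the chain.
-/

set_option autoImplicit false

open Finset

namespace Pool.Agent.FinFS
open Pool.Agent.FinClique Pool.Agent.FinA

variable {μ : Set ℕ → ℝ} {f : ℕ → Bool} {n : ℕ} {r : ℕ → ℕ} {S : ℕ → Finset (ℕ × ℕ)}
  {d : ℕ → ℝ} {W : ℕ} {ρ : ℕ → ℕ} {Hf : ℕ → ℕ}

/-- any two different members of the family are separated -/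
def OrdFam {α : Type} [LT α] (GG : Finset (Finset α)) : Prop :=
  ∀ G ∈ GG, ∀ G' ∈ GG, G ≠ G' → (∀ a ∈ G, ∀ b ∈ G', a < b) ∨ (∀ a ∈ G, ∀ b ∈ G', b < a)

/-- all conditions on the integers and the menus -/
structure DataF (f : ℕ → Bool) (n : ℕ) (r : ℕ → ℕ) (S : ℕ → Finset (ℕ × ℕ))
    (d : ℕ → ℝ) (W : ℕ) (ρ : ℕ → ℕ) (Hf : ℕ → ℕ) (i t : ℕ → ℕ) : Prop where
  P : PickedF f n 0 r S d W ρ (bigKF n r S) Hf t
  i1 : ∀ h, h < n → 1 ≤ i h ∧ i h ≤ r h
  rcr : ∀ j, j < n → ∀ l ∈ itemsF j, f (zz i t l.1 + i j * t j * Qp i t l.2) = f (zz i t l.1)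

theorem DataF.t_pos {i t : ℕ → ℕ} (h : DataF f n r S d W ρ Hf i t) {g : ℕ} (hg : g < n) :
    0 < t g := lt_of_le_of_lt (Nat.zero_le _) (h.P.big' hg)

theorem DataF.fac {i t : ℕ → ℕ} (h : DataF f n r S d W ρ Hf i t) {g : ℕ} (hg : g < n) :
    0 < i g * t g := Nat.mul_pos (h.i1 g hg).1 (h.t_pos hg)

theorem DataF.Q_pos {i t : ℕ → ℕ} (h : DataF f n r S d W ρ Hf i t) {G : Finset ℕ}
    (hG : G ⊆ range n) : 0 < Qp i t G :=
  Finset.prod_pos (fun g hg => h.fac (mem_range.1 (hG hg)))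

theorem DataF.sum {i t : ℕ → ℕ} (h : DataF f n r S d W ρ Hf i t) {FF : Finset (Finset ℕ)}
    {G : Finset ℕ} (hF : FF.Nonempty) (hF' : ∀ F ∈ FF, F.Nonempty) (hG : G.Nonempty)
    (hGn : G ⊆ range n) (hFG : ∀ a ∈ supp FF, ∀ b ∈ G, a < b) :
    f (zz i t FF + Qp i t G) = f (zz i t FF) := by
  set j := G.max' hG with hj
  have hjG : j ∈ G := Finset.max'_mem _ _
  have hjn : j < n := mem_range.1 (hGn hjG)
  have hl : (FF, G.erase j) ∈ itemsF j := by
    rw [mem_itemsF]
    refine ⟨⟨?_, ?_⟩, hF, hF', ?_⟩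
    · intro x hx
      exact mem_range.2 (hFG x hx j hjG)
    · intro x hx
      have h1 := Finset.mem_of_mem_erase hx
      have h2 := Finset.ne_of_mem_erase hx
      have h3 := Finset.le_max' G x h1
      exact mem_range.2 (lt_of_le_of_ne h3 h2)
    · intro x hx y hy
      exact hFG x hx y (Finset.mem_of_mem_erase hy)
  have h1 := h.rcr j hjn _ hl
  have h2 : i j * t j * Qp i t (G.erase j) = Qp i t G :=
    Finset.mul_prod_erase G (fun g => i g * t g) hjG
  simp only [h2] at h1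
  exact h1

theorem DataF.grow {i t : ℕ → ℕ} (h : DataF f n r S d W ρ Hf i t) {F G : Finset ℕ}
    (hF : F.Nonempty) (hFn : F ⊆ range n) (hGn : G ⊆ range n)
    (hFG : ∀ a ∈ F, ∀ b ∈ G, a < b) :
    Qp i t G < Qp i t F ∧ Hf (Qp i t G) < Qp i t F := by
  obtain ⟨g, hg⟩ := hF
  have hgn : g < n := mem_range.1 (hFn hg)
  have hsub : G ⊆ Ico (g + 1) n := by
    intro x hx
    have h1 := hFG g hg x hx
    have h2 := mem_range.1 (hGn hx)
    rw [Finset.mem_Ico]; omega
  have hQG : Qp i t G ≤ ∏ k ∈ Ico (g + 1) n, r k * t k :=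
    calc Qp i t G ≤ ∏ k ∈ Ico (g + 1) n, i k * t k :=
          Finset.prod_le_prod_of_subset_of_one_le' hsub
            (fun k hk _ => h.fac (Finset.mem_Ico.1 hk).2)
      _ ≤ ∏ k ∈ Ico (g + 1) n, r k * t k :=
          Finset.prod_le_prod' (fun k hk => Nat.mul_le_mul_right _ (h.i1 k (Finset.mem_Ico.1 hk).2).2)
  have hQF : t g ≤ Qp i t F :=
    calc t g ≤ i g * t g := Nat.le_mul_of_pos_left _ (h.i1 g hgn).1
      _ ≤ Qp i t F := by
          refine Finset.single_le_prod' (f := fun k => i k * t k) (fun k hk => ?_) hg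
          exact h.fac (mem_range.1 (hFn hk))
  exact ⟨lt_of_lt_of_le (lt_of_le_of_lt hQG (h.P.big' hgn)) hQF,
    lt_of_lt_of_le (h.P.growth hgn hQG) hQF⟩

/-- The colour of the term of an ordered family is the colour of its members. -/
theorem DataF.fam {i t : ℕ → ℕ} (h : DataF f n r S d W ρ Hf i t) {c : Bool} :
    ∀ (m : ℕ) (FF : Finset (Finset ℕ)), FF.card = m → FF.Nonempty → (∀ F ∈ FF, F.Nonempty) →
      OrdFam FF → (∀ F ∈ FF, F ⊆ range n) → (∀ F ∈ FF, f (Qp i t F) = c) → f (zz i t FF) = c := by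
  classical
  intro m
  induction m with
  | zero =>
    intro FF hm hne
    exact absurd (Finset.card_eq_zero.1 hm) hne.ne_empty
  | succ m ih =>
    intro FF hm hne hne' hord hn hc
    -- the member with the largest index
    obtain ⟨g, hgs, hgmax⟩ := (supp FF).exists_max_image id (supp_nonempty hne hne')
    obtain ⟨G, hG, hgG⟩ := mem_supp.1 hgs
    have hzz : zz i t FF = zz i t (FF.erase G) + Qp i t G := by
      unfold zz Qp
      rw [Finset.sum_erase_add _ _ hG]
    by_cases hm0 : (FF.erase G).Nonempty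
    · have hbel : ∀ a ∈ supp (FF.erase G), ∀ b ∈ G, a < b := by
        intro a ha b hb
        obtain ⟨G', hG', haG'⟩ := mem_supp.1 ha
        have hne2 := Finset.ne_of_mem_erase hG'
        have hG'2 := Finset.mem_of_mem_erase hG'
        rcases hord G' hG'2 G hG hne2 with h1 | h1
        · exact h1 a haG' b hb
        · have h2 := h1 a haG' g hgG
          have h3 : a ≤ g := hgmax a (mem_supp.2 ⟨G', hG'2, haG'⟩)
          omega
      rw [hzz, h.sum hm0 (fun F hF => hne' F (Finset.mem_of_mem_erase hF)) ⟨g, hgG⟩ (hn G hG) hbel]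
      refine ih (FF.erase G) ?_ hm0 (fun F hF => hne' F (Finset.mem_of_mem_erase hF)) ?_
        (fun F hF => hn F (Finset.mem_of_mem_erase hF))
        (fun F hF => hc F (Finset.mem_of_mem_erase hF))
      · rw [Finset.card_erase_of_mem hG, hm]; rfl
      · intro F hF F' hF' hFF'
        exact hord F (Finset.mem_of_mem_erase hF) F' (Finset.mem_of_mem_erase hF') hFF'
    · rw [Finset.not_nonempty_iff_eq_empty] at hm0
      have h1 : zz i t (FF.erase G) = 0 := by rw [hm0]; rfl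
      rw [hzz, h1, zero_add]
      exact hc G hG

/-- the numbers `x_k = Qp (F (K - k))`, `k ≤ K` -/
def XX (i t : ℕ → ℕ) (F : ℕ → Finset ℕ) (K : ℕ) (k : Fin (K + 1)) : ℕ := Qp i t (F (K - k.1))

/-- all sums of products over ordered families have one colour -/
theorem DataF.final {i t : ℕ → ℕ} (h : DataF f n r S d W ρ Hf i t) {c : Bool} {K : ℕ}
    {F : ℕ → Finset ℕ} (hF1 : ∀ b, b < K + 1 → (F b).Nonempty ∧ F b ⊆ range n)
    (hF2 : ∀ b b', b < b' → b' < K + 1 → ∀ x ∈ F b, ∀ y ∈ F b', x < y)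
    (hF3 : ∀ I : Finset ℕ, I.Nonempty → I ⊆ range (K + 1) → f (Qp i t (I.biUnion F)) = c)
    (J : Finset (Finset (Fin (K + 1)))) (hJ : J.Nonempty) (hJ' : ∀ G ∈ J, G.Nonempty)
    (hord : OrdFam J) : f (∑ G ∈ J, ∏ k ∈ G, XX i t F K k) = c := by
  classical
  -- the block of a set of positions
  set B : Finset (Fin (K + 1)) → Finset ℕ := fun G => G.biUnion (fun k => F (K - k.1)) with hB
  have hlt : ∀ k : Fin (K + 1), K - k.1 < K + 1 := fun k => by have := k.2; omega
  have hdis : ∀ G : Finset (Fin (K + 1)), ∀ k ∈ G, ∀ k' ∈ G, k ≠ k' →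
      Disjoint (F (K - k.1)) (F (K - k'.1)) := by
    intro G k _ k' _ hkk
    rw [Finset.disjoint_left]
    intro x hx hx'
    have h1 := k.2
    have h2 := k'.2
    rcases lt_or_gt_of_ne (Fin.val_ne_of_ne hkk) with h3 | h3
    · exact lt_irrefl _ (hF2 (K - k'.1) (K - k.1) (by omega) (by omega) x hx' x hx)
    · exact lt_irrefl _ (hF2 (K - k.1) (K - k'.1) (by omega) (by omega) x hx x hx')
  have hprod : ∀ G : Finset (Fin (K + 1)), ∏ k ∈ G, XX i t F K k = Qp i t (B G) := by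
    intro G
    unfold Qp XX
    rw [hB]
    simp only
    rw [Finset.prod_biUnion]
    · rfl
    · intro k hk k' hk' hkk
      exact hdis G k hk k' hk' hkk
  have hBne : ∀ G : Finset (Fin (K + 1)), G.Nonempty → (B G).Nonempty := by
    rintro G ⟨k, hk⟩
    obtain ⟨x, hx⟩ := (hF1 (K - k.1) (hlt k)).1
    exact ⟨x, Finset.mem_biUnion.2 ⟨k, hk, hx⟩⟩
  have hBn : ∀ G : Finset (Fin (K + 1)), B G ⊆ range n := by
    intro G x hx
    obtain ⟨k, -, hx⟩ := Finset.mem_biUnion.1 hx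
    exact (hF1 (K - k.1) (hlt k)).2 hx
  have hBord : ∀ G G' : Finset (Fin (K + 1)), (∀ a ∈ G, ∀ b ∈ G', a < b) →
      ∀ x ∈ B G, ∀ y ∈ B G', y < x := by
    intro G G' hGG x hx y hy
    obtain ⟨k, hk, hx⟩ := Finset.mem_biUnion.1 hx
    obtain ⟨k', hk', hy⟩ := Finset.mem_biUnion.1 hy
    have h1 : k.1 < k'.1 := hGG k hk k' hk'
    have h2 := k'.2
    exact hF2 (K - k'.1) (K - k.1) (by omega) (by omega) y hy x hx
  have hBc : ∀ G : Finset (Fin (K + 1)), G.Nonempty → f (Qp i t (B G)) = c := by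
    intro G hG
    have h1 : B G = (G.image (fun k => K - k.1)).biUnion F := by
      rw [Finset.image_biUnion]
    rw [h1]
    refine hF3 _ (hG.image _) ?_
    intro x hx
    obtain ⟨k, -, rfl⟩ := Finset.mem_image.1 hx
    exact mem_range.2 (hlt k)
  have hinj : ∀ G ∈ J, ∀ G' ∈ J, B G = B G' → G = G' := by
    intro G hG G' hG' hBB
    by_contra hne
    obtain ⟨x, hx⟩ := hBne G (hJ' G hG)
    have hx' : x ∈ B G' := hBB ▸ hx
    rcases hord G hG G' hG' hne with h1 | h1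
    · exact lt_irrefl _ (hBord G G' h1 x hx x hx')
    · exact lt_irrefl _ (hBord G' G (fun a ha b hb => h1 b hb a ha) x hx' x hx)
  have hsum : ∑ G ∈ J, ∏ k ∈ G, XX i t F K k = zz i t (J.image B) := by
    unfold zz
    rw [Finset.sum_image hinj]
    exact Finset.sum_congr rfl (fun G _ => hprod G)
  rw [hsum]
  refine h.fam _ (J.image B) rfl (hJ.image _) ?_ ?_ ?_ ?_
  · intro X hX
    obtain ⟨G, hG, rfl⟩ := Finset.mem_image.1 hX
    exact hBne G (hJ' G hG)
  · intro X hX X' hX' hne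
    obtain ⟨G, hG, rfl⟩ := Finset.mem_image.1 hX
    obtain ⟨G', hG', rfl⟩ := Finset.mem_image.1 hX'
    have hne' : G ≠ G' := fun hc => hne (by rw [hc])
    rcases hord G hG G' hG' hne' with h1 | h1
    · right; exact fun a ha b hb => hBord G G' h1 a ha b hb
    · left
      exact fun a ha b hb => hBord G' G (fun a ha b hb => h1 b hb a ha) b hb a ha
  · intro X hX
    obtain ⟨G, hG, rfl⟩ := Finset.mem_image.1 hX
    exact hBn G
  · intro X hX
    obtain ⟨G, hG, rfl⟩ := Finset.mem_image.1 hX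
    exact hBc G (hJ' G hG)

/-- THE CHAIN FOR SUMS OF PRODUCTS: a stable colouring has, for every `K` and every growth function
`Hf`, numbers `x_1 < … < x_K` and a set `Y` of positive measure such that for every `y ∈ Y` all sums
of products over ordered families of blocks of `x_1, …, x_K, y` have one colour. -/
theorem fsfp_plus {μ : Set ℕ → ℝ} (hμ : SubMean μ)
    (hdil : ∀ (C : ℕ) (T : Set ℕ), 0 < C → 0 < μ T → 0 < μ {y | ∃ x ∈ T, y = C * x})
    {f : ℕ → Bool} (hS : StabAff μ f) (K : ℕ) (Hf : ℕ → ℕ) :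
    ∃ (x : Fin K → ℕ) (Y : Set ℕ) (c : Bool), StrictMono x ∧ (∀ i, 1 ≤ x i) ∧
      (∀ i j, i < j → Hf (x i) < x j) ∧ 0 < μ Y ∧
      ∀ y ∈ Y, (∀ i, x i < y ∧ Hf (x i) < y) ∧
        ∀ J : Finset (Finset (Fin (K + 1))), J.Nonempty → (∀ G ∈ J, G.Nonempty) → OrdFam J →
          f (∑ G ∈ J, ∏ k ∈ G, (Fin.snoc x y : Fin (K + 1) → ℕ) k) = c := by
  classical
  obtain ⟨n, hn⟩ := Pool.Agent.FIN.ord_unions (K + 1)
  obtain ⟨r, S, d, W, ρ, H⟩ := stgF_all hμ hS n n
  -- the finite data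
  set R : ℕ := ∑ h ∈ range n, r h + 1 with hR
  have hrR : ∀ h, h < n → r h < R := by
    intro h hh
    have := Finset.single_le_sum (f := r) (fun _ _ => Nat.zero_le _) (mem_range.2 hh)
    omega
  have hRpos : 0 < R := by omega
  set Φ : (ℕ → ℕ) → Prop := PickedF f n 0 r S d W ρ (bigKF n r S) Hf with hΦ
  have hex : ∀ t, Φ t → ∃ a : Fin n → Fin R, DataF f n r S d W ρ Hf (exm n a) t := by
    intro t ht
    obtain ⟨i, hi1, hi2⟩ := menuF_all H ht
    refine ⟨fun h => ⟨i h, lt_of_le_of_lt (hi1 h).2 (hrR h h.2)⟩, ht, ?_, ?_⟩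
    · intro h hh
      simp only [exm, dif_pos hh]
      exact hi1 h
    · intro j hj l hl
      obtain ⟨⟨h1, h2⟩, -, -, -⟩ := mem_itemsF.1 hl
      have hc1 : zz (exm n (fun h : Fin n =>
          (⟨i h, lt_of_le_of_lt (hi1 h).2 (hrR h h.2)⟩ : Fin R))) t l.1 = zz i t l.1 := by
        refine zz_congr (fun g hg => ⟨?_, rfl⟩)
        have h5 := mem_range.1 (h1 hg)
        simp only [exm, dif_pos (lt_trans h5 hj)]
      have hc2 : Qp (exm n (fun h : Fin n =>
          (⟨i h, lt_of_le_of_lt (hi1 h).2 (hrR h h.2)⟩ : Fin R))) t l.2 =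
            ∏ g ∈ l.2, i g * t g := by
        refine Finset.prod_congr rfl (fun g hg => ?_)
        have h5 := mem_range.1 (h2 hg)
        simp only [exm, dif_pos (lt_trans h5 hj)]
      rw [hc1, hc2]
      simp only [exm, dif_pos hj]
      exact hi2 j hj l hl
  set a : (ℕ → ℕ) → (Fin n → Fin R) := fun t =>
    if h : Φ t then Classical.choose (hex t h) else fun _ => ⟨0, hRpos⟩ with ha
  have haD : ∀ t, Φ t → DataF f n r S d W ρ Hf (exm n (a t)) t := by
    intro t ht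
    simp only [ha, dif_pos ht]
    exact Classical.choose_spec (hex t ht)
  set D : (ℕ → ℕ) → (Fin n → Fin R) × (Finset (Fin n) → Bool) := fun t =>
    (a t, fun G => f (Qp (exm n (a t)) t (G.map Fin.valEmbedding))) with hD
  have hRg : Rg μ Φ n (fun _ => 1) :=
    pickedF_Rg hμ H _ Hf n le_rfl _ (pickedF_n _ _ _)
  obtain ⟨⟨a0, χ⟩, hb⟩ := Rg.pigeon hμ D n _ hRg
  set i : ℕ → ℕ := exm n a0 with hi
  set Ψ : (ℕ → ℕ) → Prop := fun t => Φ t ∧ D t = (a0, χ) with hΨ
  have hΨD : ∀ t, Ψ t → DataF f n r S d W ρ Hf i t ∧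
      ∀ G : Finset ℕ, G ⊆ range n → f (Qp i t G) =
        χ (Finset.univ.filter (fun h : Fin n => (h : ℕ) ∈ G)) := by
    rintro t ⟨h1, h2⟩
    have h3 : a t = a0 := congrArg Prod.fst h2
    have h4 := haD t h1
    rw [h3] at h4
    refine ⟨h4, fun G hG => ?_⟩
    have h5 : (fun G => f (Qp (exm n (a t)) t (G.map Fin.valEmbedding))) = χ :=
      congrArg Prod.snd h2
    rw [← h5]
    simp only [h3]
    congr 2
    ext x
    simp only [Finset.mem_map, Finset.mem_filter, Finset.mem_univ, true_and,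
      Fin.valEmbedding_apply]
    constructor
    · intro hx
      exact ⟨⟨x, mem_range.1 (hG hx)⟩, hx, rfl⟩
    · rintro ⟨y, hy, rfl⟩
      exact hy
  -- the blocks
  obtain ⟨c, F, hF1, hF2, hF3⟩ :=
    hn (fun G => χ (Finset.univ.filter (fun h : Fin n => (h : ℕ) ∈ G)))
  have hFsub : ∀ b, b < K + 1 → F b ⊆ range n := fun b hb => (hF1 b hb).2
  have hFne : ∀ b, b < K + 1 → (F b).Nonempty := fun b hb => (hF1 b hb).1
  -- consequences for every completed choice
  have cons : ∀ t, Ψ t → ∀ J : Finset (Finset (Fin (K + 1))), J.Nonempty →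
      (∀ G ∈ J, G.Nonempty) → OrdFam J → f (∑ G ∈ J, ∏ k ∈ G, XX i t F K k) = c := by
    intro t ht J hJ hJ' hord
    obtain ⟨hdat, hχ⟩ := hΨD t ht
    refine hdat.final hF1 hF2 ?_ J hJ hJ' hord
    intro I hI hIr
    rw [hχ _ ?_]
    · exact hF3 I hI hIr
    · intro x hx
      obtain ⟨b, hbI, hxb⟩ := Finset.mem_biUnion.1 hx
      exact hFsub b (mem_range.1 (hIr hbI)) hxb
  -- the smallest index of the first block
  set g : ℕ := (F 0).min' (hFne 0 (Nat.succ_pos K)) with hg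
  have hgF : g ∈ F 0 := Finset.min'_mem _ _
  have hgn : g < n := mem_range.1 (hFsub 0 (Nat.succ_pos K) hgF)
  obtain ⟨t, -, ht⟩ := Rg.down hμ (g := g + 1) n (by omega) _ hb
  set T : Set ℕ := {x | Rg μ Ψ g (Function.update t g x)} with hT
  have hTpos : 0 < μ T := ht
  have hcomp : ∀ x ∈ T, ∃ t', Ψ t' ∧ t' g = x ∧ ∀ k, g < k → t' k = t k := by
    intro x hx
    obtain ⟨t', h1, h2⟩ := Rg.down hμ (g := 0) g (Nat.zero_le _) _ hx
    refine ⟨t', h2, ?_, fun k hk => ?_⟩
    · rw [h1 g le_rfl, Function.update_self]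
    · rw [h1 k hk.le, Function.update_of_ne (by omega)]
  have hQb : ∀ t', (∀ k, g < k → t' k = t k) → ∀ b, 0 < b → b < K + 1 →
      Qp i t' (F b) = Qp i t (F b) := by
    intro t' h1 b hb0 hb
    refine Qp_congr (fun k hk => ⟨rfl, h1 k ?_⟩)
    exact hF2 0 b hb0 hb g hgF k hk
  set C : ℕ := i g * Qp i t ((F 0).erase g) with hC
  have hQ0 : ∀ t', (∀ k, g < k → t' k = t k) → Qp i t' (F 0) = C * t' g := by
    intro t' h1
    have h2 : Qp i t' (F 0) = i g * t' g * Qp i t' ((F 0).erase g) :=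
      (Finset.mul_prod_erase (F 0) (fun k => i k * t' k) hgF).symm
    have h3 : Qp i t' ((F 0).erase g) = Qp i t ((F 0).erase g) := by
      refine Qp_congr (fun k hk => ⟨rfl, h1 k ?_⟩)
      have h4 := Finset.min'_le (F 0) k (Finset.mem_of_mem_erase hk)
      have h5 := Finset.ne_of_mem_erase hk
      omega
    rw [h2, h3, hC]; ring
  obtain ⟨x0, hx0⟩ := hμ.nonempty hTpos
  obtain ⟨t0, ht0, ht0g, ht0k⟩ := hcomp x0 hx0
  obtain ⟨hdat0, -⟩ := hΨD t0 ht0
  have hCpos : 0 < C := by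
    have h1 := hQ0 t0 ht0k
    have h2 := hdat0.Q_pos (hFsub 0 (Nat.succ_pos K))
    rw [h1] at h2
    exact Nat.pos_of_mul_pos_right h2
  refine ⟨fun k => Qp i t (F (K - k.1)), {y | ∃ x ∈ T, y = C * x}, c, ?_, ?_, ?_,
    hdil C T hCpos hTpos, ?_⟩
  · intro b b' hbb
    have h1 := b.2
    have h2 := b'.2
    have h3 : b.1 < b'.1 := hbb
    have := (hdat0.grow (hFne (K - b'.1) (by omega)) (hFsub (K - b'.1) (by omega))
      (hFsub (K - b.1) (by omega)) (hF2 (K - b'.1) (K - b.1) (by omega) (by omega))).1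
    rwa [hQb t0 ht0k _ (by omega) (by omega), hQb t0 ht0k _ (by omega) (by omega)] at this
  · intro b
    have h1 := b.2
    have := hdat0.Q_pos (hFsub (K - b.1) (by omega))
    rwa [hQb t0 ht0k _ (by omega) (by omega)] at this
  · intro b b' hbb
    have h1 := b.2
    have h2 := b'.2
    have h3 : b.1 < b'.1 := hbb
    have := (hdat0.grow (hFne (K - b'.1) (by omega)) (hFsub (K - b'.1) (by omega))
      (hFsub (K - b.1) (by omega)) (hF2 (K - b'.1) (K - b.1) (by omega) (by omega))).2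
    rwa [hQb t0 ht0k _ (by omega) (by omega), hQb t0 ht0k _ (by omega) (by omega)] at this
  · rintro y ⟨x, hx, rfl⟩
    obtain ⟨t1, ht1, ht1g, ht1k⟩ := hcomp x hx
    obtain ⟨hdat1, -⟩ := hΨD t1 ht1
    have h0 : C * x = Qp i t1 (F 0) := by rw [hQ0 t1 ht1k, ht1g]
    rw [h0]
    refine ⟨fun b => ?_, fun J hJ hJ' hord => ?_⟩
    · have h1 := b.2
      have h2 := hdat1.grow (hFne 0 (Nat.succ_pos K)) (hFsub 0 (Nat.succ_pos K))
        (hFsub (K - b.1) (by omega)) (hF2 0 (K - b.1) (by omega) (by omega))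
      rw [hQb t1 ht1k (K - b.1) (by omega) (by omega)] at h2
      exact h2
    · have h1 : (Fin.snoc (fun k : Fin K => Qp i t (F (K - k.1))) (Qp i t1 (F 0)) :
          Fin (K + 1) → ℕ) = XX i t1 F K := by
        funext k
        refine Fin.lastCases ?_ (fun k => ?_) k
        · rw [Fin.snoc_last]
          unfold XX
          rw [Fin.val_last, Nat.sub_self]
        · rw [Fin.snoc_castSucc]
          unfold XX
          have h2 := k.2
          rw [Fin.val_castSucc, hQb t1 ht1k (K - k.1) (by omega) (by omega)]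
      rw [h1]
      exact cons t1 ht1 J hJ hJ' hord

end Pool.Agent.FinFS
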