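import Mathlib

/-! FIN: double limits of inner products along an ultrafilter, and an ultrafilter on the primes. -/

set_option autoImplicit false

namespace Pool.Agent.FIN
open Filter Topology UniformSpace

theorem exists_tendsto_of_bdd {ι : Type*} (P : Ultrafilter ι) (x : ι → ℝ) (C : ℝ)
    (hx : ∀ i, |x i| ≤ C) : ∃ l : ℝ, Tendsto x P (𝓝 l) ∧ |l| ≤ C := by
  have hK : IsCompact (Set.Icc (-C) C) := isCompact_Icc
  have h1 : (P.map x : Filter ℝ) ≤ 𝓟 (Set.Icc (-C) C) := by
    rw [le_principal_iff, Ultrafilter.coe_map, Filter.mem_map]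
    exact Filter.mem_of_superset univ_mem fun i _ => abs_le.mp (hx i)
  obtain ⟨l, hl, hlim⟩ := hK.ultrafilter_le_nhds (P.map x) h1
  exact ⟨l, hlim, abs_le.mpr hl⟩

/-- weak limits of bounded families along an ultrafilter -/
theorem wlim {H : Type*} [NormedAddCommGroup H] [InnerProductSpace ℝ H] [CompleteSpace H]
    {ι : Type*} (P : Ultrafilter ι) (g : ι → H) (C : ℝ) (hg : ∀ i, ‖g i‖ ≤ C) :
    ∃ G : H, ‖G‖ ≤ C ∧ ∀ x : H, Tendsto (fun i => inner ℝ (g i) x) P (𝓝 (inner ℝ G x)) := by
  have hne : Nonempty ι := by
    by_contra hcon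
    rw [not_nonempty_iff] at hcon
    exact P.neBot.ne (Filter.filter_eq_bot_of_isEmpty _)
  have hC : 0 ≤ C := (norm_nonneg _).trans (hg (Classical.choice hne))
  have key : ∀ x : H, ∃ l : ℝ, Tendsto (fun i => inner ℝ (g i) x) P (𝓝 l) ∧ |l| ≤ C * ‖x‖ :=
    fun x => exists_tendsto_of_bdd P _ (C * ‖x‖) fun i =>
      (abs_real_inner_le_norm _ _).trans (mul_le_mul_of_nonneg_right (hg i) (norm_nonneg _))
  choose φ hφ hφ2 using key
  let L : H →ₗ[ℝ] ℝ :=
    { toFun := φ
      map_add' := fun x y => by
        refine tendsto_nhds_unique (hφ (x + y)) ?_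
        have := (hφ x).add (hφ y)
        simpa only [inner_add_right] using this
      map_smul' := fun c x => by
        refine tendsto_nhds_unique (hφ (c • x)) ?_
        have := (hφ x).const_mul c
        simpa only [inner_smul_right, RingHom.id_apply, smul_eq_mul] using this }
  let L' : StrongDual ℝ H := L.mkContinuous C fun x => hφ2 x
  refine ⟨(InnerProductSpace.toDual ℝ H).symm L', ?_, fun x => ?_⟩
  · rw [LinearIsometryEquiv.norm_map]
    exact L.mkContinuous_norm_le hC _
  · rw [InnerProductSpace.toDual_symm_apply]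
    exact hφ x

/-- the two iterated limits of inner products of bounded families agree -/
theorem double_limit {E : Type*} [SeminormedAddCommGroup E] [InnerProductSpace ℝ E]
    {ι : Type*} (P : Ultrafilter ι) (g h : ι → E) (C : ℝ) (hg : ∀ i, ‖g i‖ ≤ C)
    (hh : ∀ i, ‖h i‖ ≤ C) :
    ∃ (l : ℝ) (a b : ι → ℝ),
      (∀ v, Tendsto (fun u => inner ℝ (g v) (h u)) P (𝓝 (a v))) ∧ Tendsto a P (𝓝 l) ∧
      (∀ u, Tendsto (fun v => inner ℝ (g v) (h u)) P (𝓝 (b u))) ∧ Tendsto b P (𝓝 l) := by
  obtain ⟨G, -, hG⟩ := wlim P (fun i => (g i : Completion E)) C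
    (fun i => by rw [Completion.norm_coe]; exact hg i)
  obtain ⟨H, -, hH⟩ := wlim P (fun i => (h i : Completion E)) C
    (fun i => by rw [Completion.norm_coe]; exact hh i)
  refine ⟨inner ℝ G H, fun v => inner ℝ (g v : Completion E) H,
    fun u => inner ℝ G (h u : Completion E), fun v => ?_, hG H, fun u => ?_, ?_⟩
  · have := hH (g v : Completion E)
    simp only [Completion.inner_coe] at this
    change Tendsto _ _ (𝓝 (inner ℝ (g v : Completion E) H))
    rw [← real_inner_comm]
    refine this.congr fun u => ?_
    rw [real_inner_comm]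
  · have := hG (h u : Completion E)
    simpa only [Completion.inner_coe] using this
  · have := hH G
    rw [← real_inner_comm]
    refine this.congr fun u => ?_
    rw [real_inner_comm]

/-- sets of primes whose complement has convergent sum of reciprocals -/
def primeFilter : Filter ℕ where
  sets := {S | Summable (Set.indicator ({p : ℕ | p.Prime} \ S) fun n => (1 : ℝ) / n)}
  univ_sets := by
    simp only [Set.mem_ofPred_eq, Set.sdiff_univ, Set.indicator_empty]
    exact summable_zero
  sets_of_superset := by
    intro S T hS hST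
    simp only [Set.mem_ofPred_eq] at hS ⊢
    refine Summable.of_nonneg_of_le (fun n => ?_) (fun n => ?_) hS
    · exact Set.indicator_nonneg (fun n _ => by positivity) n
    · exact Set.indicator_le_indicator_of_subset (Set.sdiff_subset_sdiff_right hST)
        (fun n => by positivity) n
  inter_sets := by
    intro S T hS hT
    simp only [Set.mem_ofPred_eq] at hS hT ⊢
    refine Summable.of_nonneg_of_le (fun n => ?_) (fun n => ?_) (hS.add hT)
    · exact Set.indicator_nonneg (fun n _ => by positivity) n
    · classical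
      have h0 : (0 : ℝ) ≤ 1 / (n : ℝ) := by positivity
      rw [Set.indicator_apply, Set.indicator_apply, Set.indicator_apply]
      by_cases hp : n ∈ {p : ℕ | p.Prime} <;> by_cases h1 : n ∈ S <;> by_cases h2 : n ∈ T <;>
        simp [hp, h1, h2]

theorem mem_primeFilter {S : Set ℕ} : S ∈ primeFilter ↔
    Summable (Set.indicator ({p : ℕ | p.Prime} \ S) fun n => (1 : ℝ) / n) := Iff.rfl

instance : primeFilter.NeBot := by
  rw [neBot_iff]
  intro hbot
  have h : (∅ : Set ℕ) ∈ primeFilter := by rw [hbot]; exact mem_bot
  rw [mem_primeFilter, Set.sdiff_empty] at h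
  exact not_summable_one_div_on_primes h

/-- the ultrafilter on the primes -/
noncomputable def primeU : Ultrafilter ℕ := Ultrafilter.of primeFilter

theorem primeU_le : (primeU : Filter ℕ) ≤ primeFilter := Ultrafilter.of_le _

theorem eventually_prime : ∀ᶠ p in (primeU : Filter ℕ), Nat.Prime p := by
  refine primeU_le ?_
  rw [mem_primeFilter]
  have : ({p : ℕ | p.Prime} \ {x | (fun p => Nat.Prime p) x}) = ∅ := by
    ext p; simp
  rw [this, Set.indicator_empty]
  exact summable_zero

theorem eventually_ge (N : ℕ) : ∀ᶠ p in (primeU : Filter ℕ), N ≤ p := by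
  refine primeU_le ?_
  rw [mem_primeFilter]
  refine summable_of_hasFiniteSupport ((Set.finite_Iio N).subset fun p hp => ?_)
  rw [Function.mem_support, Set.indicator_apply_ne_zero] at hp
  have := hp.1.2
  simpa using this

/-- a nonnegative function with bounded sums of `x p / p` over the primes tends to zero -/
theorem tendsto_zero_of_sum (x : ℕ → ℝ) (hx : ∀ p, 0 ≤ x p) (C : ℝ)
    (hC : ∀ s : Finset ℕ, (∀ p ∈ s, p.Prime) → ∑ p ∈ s, x p / p ≤ C) :
    Tendsto x primeU (𝓝 0) := by
  rw [Metric.tendsto_nhds]
  intro ε hε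
  refine primeU_le ?_
  change {p | dist (x p) 0 < ε} ∈ primeFilter
  rw [mem_primeFilter]
  have h1 : Summable (Set.indicator {p : ℕ | p.Prime} fun p => x p / p) := by
    refine summable_of_sum_le (c := C) (fun p => ?_) fun s => ?_
    · exact Set.indicator_nonneg (fun p _ => div_nonneg (hx p) (Nat.cast_nonneg _)) p
    · classical
      have := hC (s.filter fun p => p.Prime) (fun p hp => (Finset.mem_filter.mp hp).2)
      rw [Finset.sum_filter] at this
      simpa only [Set.indicator_apply, Set.mem_ofPred_eq] using this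
  refine Summable.of_nonneg_of_le (fun n => ?_) (fun n => ?_) (h1.mul_left (1 / ε))
  · exact Set.indicator_nonneg (fun n _ => by positivity) n
  · simp only [Set.indicator_apply, Set.mem_sdiff, Set.mem_ofPred_eq]
    by_cases hp : n.Prime
    · by_cases h2 : dist (x n) 0 < ε
      · simp only [hp, h2, not_true_eq_false, and_false, if_false, if_true]
        exact mul_nonneg (by positivity) (div_nonneg (hx n) (Nat.cast_nonneg _))
      · simp only [hp, h2, not_false_eq_true, and_self, if_true]
        rw [Real.dist_eq, sub_zero, abs_of_nonneg (hx n), not_lt] at h2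
        rw [div_mul_div_comm, one_mul]
        have hn : (0 : ℝ) < n := by exact_mod_cast hp.pos
        rw [div_le_div_iff₀ hn (by positivity)]
        nlinarith
    · simp [hp]

end Pool.Agent.FIN
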