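import Mathlib

/-!
FIN: finite cliques of pairwise sums and pairwise products in every 2-colouring of `ℕ`.
Interface between the analytic part (`Stab`) and the combinatorial chain
(`Rich`, `SubMean`, `Stab` as proposed by helper97).
-/

namespace Pool.Agent.FinClique

/-- `x` and `y` are tied: `x + y` and `x * y` have different colours. -/
def Tie (f : ℕ → Bool) (x y : ℕ) : Prop := f (x + y) ≠ f (x * y)

/-- There is no `K`-element set all of whose pairwise sums and pairwise products have one colour. -/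
def KBad (f : ℕ → Bool) (K : ℕ) : Prop :=
  ¬ ∃ x : Fin K → ℕ, StrictMono x ∧ (∀ i, 1 ≤ x i) ∧
    ∃ c, ∀ i j, i < j → f (x i + x j) = c ∧ f (x i * x j) = c

/-- `z` is rich for `(u, v)` in a window of length `L`, with density `d`. -/
def Rich (f : ℕ → Bool) (u v : ℕ) (d : ℝ) (L z : ℕ) : Prop :=
  ∃ n0 : ℕ, ∃ E : Finset ℕ, E ⊆ Finset.Ico n0 (n0 + L) ∧ d * L ≤ (E.card : ℝ) ∧
    (∀ n ∈ E, v * n < z ∧ u ∣ z - v * n) ∧
    ∀ n' ∈ E, ∀ n'' ∈ E,
      f (v * n' + (z - v * n'')) = f (u * n' + v * ((z - v * n'') / u))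

/-- What the chain needs from the mean. -/
structure SubMean (μ : Set ℕ → ℝ) : Prop where
  mono : ∀ A B : Set ℕ, A ⊆ B → μ A ≤ μ B
  union : ∀ A B : Set ℕ, μ (A ∪ B) ≤ μ A + μ B
  finite : ∀ A : Set ℕ, A.Finite → μ A = 0
  cls : ∀ b q : ℕ, 0 < q → 0 < μ {x | x ≡ b [MOD q]}

/-- Stability at the residue class `b` modulo `M`: for every multiplier `X`, most `x` of a class that
`X` sends into `b` mod `M` have `X x` rich, in arbitrarily long windows. -/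
def StabAt (μ : Set ℕ → ℝ) (f : ℕ → Bool) (e : ℝ) (S : Finset (ℕ × ℕ)) (d : ℝ) (M b : ℕ) : Prop :=
  ∀ X q a : ℕ, 0 < X → 0 < q → (∀ x, x ≡ a [MOD q] → X * x ≡ b [MOD M]) →
    ∀ L₀ : ℕ, ∃ L, L₀ ≤ L ∧
      μ {x | x ≡ a [MOD q] ∧ ¬ ∃ p ∈ S, Rich f p.1 p.2 d L (X * x)} ≤ e * μ {x | x ≡ a [MOD q]}

/-- The analytic input: every even class contains a stable subclass. -/
def Stab (μ : Set ℕ → ℝ) (f : ℕ → Bool) : Prop :=
  ∀ e : ℝ, 0 < e → ∀ Q a : ℕ, 0 < Q → 2 ∣ Q → 2 ∣ a →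
    ∃ (M b : ℕ) (S : Finset (ℕ × ℕ)) (d : ℝ), 0 < M ∧ Q ∣ M ∧ b ≡ a [MOD Q] ∧ 0 < d ∧
      (∀ p ∈ S, 0 < p.1 ∧ p.1 < p.2) ∧ StabAt μ f e S d M b

/-- the step of the pair `(u, v)` -/
def step (p : ℕ × ℕ) : ℕ := p.2 * (p.2 ^ 2 - p.1 ^ 2)

/-- Simultaneous recurrence for finitely many rich numbers. -/
def RecB (f : ℕ → Bool) (δ : ℝ) (S q C : ℕ) : Prop :=
  1 ≤ q ∧ ∀ (s : Finset (Finset ℕ × Finset ℕ)) (p : Finset ℕ × Finset ℕ → ℕ × ℕ)
    (z a N : Finset ℕ × Finset ℕ → ℕ) (d : Finset ℕ × Finset ℕ → ℝ) (t : ℕ),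
    s.card ≤ S → 0 < t →
    (∀ l ∈ s, 0 < a l ∧ 0 < d l ∧ 0 < (p l).1 ∧ (p l).1 < (p l).2 ∧ step (p l) ∣ t ∧
      Rich f (p l).1 (p l).2 (d l) (N l) (z l) ∧ C * ((p l).2 ^ 2 * (t * a l)) ≤ N l) →
    δ ≤ ∏ l ∈ s, d l → ∃ i, 1 ≤ i ∧ i ≤ q ∧ ∀ l ∈ s, f (z l + i * t * a l) = f (z l)

/-- Ordered blocks with pairwise unions of one colour (finite unions theorem). -/
def OrdUnions : Prop :=
  ∀ k : ℕ, ∃ n : ℕ, ∀ χ : Finset ℕ → Bool, ∃ F : Fin k → Finset ℕ,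
    (∀ i, (F i).Nonempty ∧ F i ⊆ Finset.range n) ∧
    (∀ i j, i < j → ∀ a ∈ F i, ∀ b ∈ F j, a < b) ∧
    ∃ s, (∀ i, χ (F i) = s) ∧ ∀ i j, i < j → χ (F i ∪ F j) = s

theorem bool_eq_of_ne {a b c : Bool} (h1 : a ≠ c) (h2 : b ≠ c) : a = b := by
  revert a b c; decide

/-- Three points `n`, `n + u² d`, `n + v² d` of the set give `f (z + v (v² - u²) d) = f z`. -/
theorem shift {f : ℕ → Bool} {u v z n d : ℕ} {E : Finset ℕ} (hu : 0 < u) (huv : u < v)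
    (hE : ∀ n ∈ E, v * n < z ∧ u ∣ z - v * n)
    (hf : ∀ n' ∈ E, ∀ n'' ∈ E, f (v * n' + (z - v * n'')) = f (u * n' + v * ((z - v * n'') / u)))
    (h0 : n ∈ E) (h1 : n + u ^ 2 * d ∈ E) (h2 : n + v ^ 2 * d ∈ E) :
    f (z + step (u, v) * d) = f z := by
  obtain ⟨w, hw⟩ := (hE _ h0).2
  obtain ⟨w', hw'⟩ := (hE _ h1).2
  have hz : z = v * n + u * w := by have := (hE _ h0).1; omega
  have hz' : z = v * (n + u ^ 2 * d) + u * w' := by have := (hE _ h1).1; omega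
  have hww : w = w' + u * v * d := by
    have h3 : u * w = u * (w' + u * v * d) := by
      have : v * n + u * w = v * (n + u ^ 2 * d) + u * w' := by rw [← hz, ← hz']
      nlinarith [this]
    exact Nat.eq_of_mul_eq_mul_left hu h3
  have e1 : f z = f (u * n + v * w) := by
    have := hf _ h0 _ h0
    rw [hw, Nat.mul_div_cancel_left _ hu, ← hz] at this
    exact this
  have e2 : f (v * (n + v ^ 2 * d) + u * w') = f (u * (n + v ^ 2 * d) + v * w') := by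
    have := hf _ h2 _ h1
    rwa [hw', Nat.mul_div_cancel_left _ hu] at this
  have e3 : u * (n + v ^ 2 * d) + v * w' = u * n + v * w := by rw [hww]; ring
  have e4 : z + step (u, v) * d = v * (n + v ^ 2 * d) + u * w' := by
    have h5 : u ^ 2 ≤ v ^ 2 := Nat.pow_le_pow_left huv.le 2
    have h6 : step (u, v) + v * u ^ 2 = v * v ^ 2 := by
      unfold step
      simp only
      rw [← Nat.mul_add, Nat.sub_add_cancel h5]
    have h7 : (step (u, v) + v * u ^ 2) * d = v * v ^ 2 * d := by rw [h6]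
    rw [hz, hww]
    nlinarith [h7]
  rw [e4, e2, e3, ← e1]

end Pool.Agent.FinClique
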