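import Pool.Agent.Lib.MP_60922f_co.FIN.Final82
import Pool.Agent.Lib.MP_60922f_co.FIN.ChainD19

/-!
FIN: final theorems with all finite sums and all finite products.
-/

set_option autoImplicit false

namespace Pool.Agent.FinFS
open Pool.Agent.FinClique Pool.Agent.FinA Finset

/-- Dichotomy: an infinite clique with positively many common extensions of its finite parts, or,
for every `K` and every growth function, `K` numbers and positively many `y` such that all sums of
products over ordered families of blocks of `x_1, …, x_K, y` have one colour. -/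
theorem dichotomyFS (f : ℕ → Bool) :
    (∃ (c : Bool) (a : ℕ → ℕ), StrictMono a ∧ (∀ i, 1 ≤ a i) ∧
      (∀ i j, i < j → f (a i + a j) = c ∧ f (a i * a j) = c) ∧
      ∀ k, PosULD {y | ∀ i < k, f (a i + y) = c ∧ f (a i * y) = c}) ∨
    (∀ (K : ℕ) (h : ℕ → ℕ), ∃ (c : Bool) (x : Fin K → ℕ) (Y : Set ℕ), StrictMono x ∧
      (∀ i, 1 ≤ x i) ∧ (∀ i j, i < j → h (x i) < x j) ∧ PosULD Y ∧
      ∀ y ∈ Y, (∀ i, x i < y ∧ h (x i) < y) ∧
        ∀ J : Finset (Finset (Fin (K + 1))), J.Nonempty → (∀ G ∈ J, G.Nonempty) → OrdFam J →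
          f (∑ G ∈ J, ∏ k ∈ G, (Fin.snoc x y : Fin (K + 1) → ℕ) k) = c) := by
  by_cases hf : PosBad meanSys55 f
  · right
    intro K h
    obtain ⟨x, Y, c, h1, h2, h3, h4, h5⟩ := fsfp_plus (subMean meanSys55)
      (mu_dil_pos meanSys55) (stabAff_of_posBad meanSys55 hf) K h
    exact ⟨c, x, Y, h1, h2, h3, posULD_of_mu Y h4, h5⟩
  · left
    unfold PosBad at hf
    push Not at hf
    obtain ⟨a, c, h1, h2, h3, h4⟩ := hf
    exact ⟨c, a, h1, h2, h3, fun k => posULD_of_mu _ (h4 k)⟩

end Pool.Agent.FinFS
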