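import Pool.Agent.Lib.MP_60922f_co.FIN.Calc55

/-!
FIN, module M12: the set function `mu S` of a mean system satisfies `SubMean`; cells + M11 give
`Stab (mu S) f`.
-/

set_option autoImplicit false

open Filter Topology

namespace Pool.Agent.FinA
open Pool.Agent.FinClique

variable (S : MeanSys)

/-- positive integers with natural part in `B` -/
def lift82 (B : Set ℕ) : Set ℤ := {n | 0 < n ∧ n.toNat ∈ B}

theorem mu_eq (B : Set ℕ) : mu S B = S.m (ind (lift82 B)) := rfl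

theorem mu_cls (b q : ℕ) (hq : 0 < q) : mu S {x | x ≡ b [MOD q]} = 1 / q := by
  rw [mu_eq, ← S.m_cls (b : ℤ) hq]
  refine S.m_congr_ev (ind_bdd _) (ind_bdd _) (N0 := 1) fun n hn => ?_
  have hn0 : 0 ≤ n := by omega
  have e : n ∈ lift82 {x | x ≡ b [MOD q]} ↔ n ∈ cls (b : ℤ) q := by
    unfold lift82 cls
    simp only [Set.mem_ofPred_eq]
    rw [← Int.natCast_modEq_iff, Int.toNat_of_nonneg hn0, Int.modEq_comm, Int.modEq_iff_dvd]
    constructor
    · exact fun h => h.2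
    · exact fun h => ⟨by omega, h⟩
  by_cases h : n ∈ cls (b : ℤ) q
  · rw [ind_of_mem h, ind_of_mem (e.2 h)]
  · rw [ind_of_notMem h, ind_of_notMem fun h' => h (e.1 h')]

theorem subMean : SubMean (mu S) where
  mono := fun A B h => S.pf.ind_mono' fun n hn => ⟨hn.1, h hn.2⟩
  union := fun A B => by
    rw [mu_eq, mu_eq, mu_eq]
    refine le_trans (S.pf.ind_mono' ?_) (S.pf.ind_union' _ _)
    rintro n ⟨h1, h2 | h2⟩
    · exact Or.inl ⟨h1, h2⟩
    · exact Or.inr ⟨h1, h2⟩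
  finite := fun A hA => by
    refine S.m_ind_finite ((hA.image (fun n : ℕ => (n : ℤ))).subset ?_)
    rintro n ⟨h1, h2⟩
    exact ⟨n.toNat, h2, Int.toNat_of_nonneg h1.le⟩
  cls := fun b q hq => by
    rw [mu_cls S b q hq]; positivity

theorem mu_dil (C : ℕ) (T : Set ℕ) (hC : 0 < C) :
    (C : ℝ) * mu S {y | ∃ x ∈ T, y = C * x} = mu S T := by
  have hC' : (0 : ℤ) < C := by exact_mod_cast hC
  have h1 := S.m_dil hC (ind_bdd (lift82 {y | ∃ x ∈ T, y = C * x}))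
  have e1 : ∀ n : ℤ, ind (lift82 {y | ∃ x ∈ T, y = C * x}) (C * n) = ind (lift82 T) n := by
    intro n
    have : (C : ℤ) * n ∈ lift82 {y | ∃ x ∈ T, y = C * x} ↔ n ∈ lift82 T := by
      unfold lift82
      simp only [Set.mem_ofPred_eq]
      constructor
      · rintro ⟨h, x, hx, hxe⟩
        have hn : 0 < n := by
          by_contra h0
          exact absurd h (not_lt.2 (mul_nonpos_of_nonneg_of_nonpos hC'.le (by omega)))
        refine ⟨hn, ?_⟩
        have : n.toNat = x := by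
          apply Nat.eq_of_mul_eq_mul_left hC
          rw [← hxe]
          zify
          rw [Int.toNat_of_nonneg hn.le, Int.toNat_of_nonneg h.le]
        rw [this]; exact hx
      · rintro ⟨h, hx⟩
        refine ⟨by positivity, n.toNat, hx, ?_⟩
        zify
        rw [Int.toNat_of_nonneg h.le, Int.toNat_of_nonneg (by positivity)]
    by_cases h : n ∈ lift82 T
    · rw [ind_of_mem h, ind_of_mem (this.2 h)]
    · rw [ind_of_notMem h, ind_of_notMem fun h' => h (this.1 h')]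
  have e2 : ∀ n : ℤ, (if (C : ℤ) ∣ n then ind (lift82 {y | ∃ x ∈ T, y = C * x}) n else 0) =
      ind (lift82 {y | ∃ x ∈ T, y = C * x}) n := by
    intro n
    split_ifs with h
    · rfl
    · rw [ind_of_notMem]
      rintro ⟨h0, x, _, hx⟩
      apply h
      refine ⟨x, ?_⟩
      zify at hx
      rwa [Int.toNat_of_nonneg h0.le] at hx
  rw [S.pf.congr e1, S.pf.congr e2] at h1
  exact h1.symm

theorem mu_dil_pos (C : ℕ) (T : Set ℕ) (hC : 0 < C) (hT : 0 < mu S T) :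
    0 < mu S {y | ∃ x ∈ T, y = C * x} := by
  have h := mu_dil S C T hC
  by_contra h0
  have h1 : (C : ℝ) * mu S {y | ∃ x ∈ T, y = C * x} ≤ 0 :=
    mul_nonpos_of_nonneg_of_nonpos (by positivity) (not_lt.1 h0)
  linarith

/-- windows of length `L` see the block average -/
theorem window (L : ℕ) (c : ℝ) (hc : 0 < c) :
    ∀ᶠ k in (S.U : Filter ℕ), ∀ T : Set ℤ, c ≤ S.nu k (ind T) →
      ∃ n0 ∈ S.blk k, c / 2 * L ≤ ∑ s ∈ Finset.range L, ind T (n0 + s) := by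
  have h1 : ∀ᶠ k in atTop, ∀ s ∈ Finset.range L, ∀ F : ℤ → ℝ, (∀ n, |F n| ≤ 1) →
      |S.nu k (fun n => F (n + s)) - S.nu k F| ≤ c / 2 := by
    rw [Filter.eventually_all_finset]
    intro s _
    exact S.nu_shift s 1 (half_pos hc)
  filter_upwards [S.U_ev h1] with k hk T hT
  have h2 : c / 2 * L ≤ S.nu k (fun n => ∑ s ∈ Finset.range L, ind T (n + s)) := by
    rw [(S.nu_pf k).sum (Finset.range L) (fun (s : ℕ) (n : ℤ) => ind T (n + s))
      fun s _ => (ind_bdd T).shift s]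
    calc c / 2 * L = ∑ _s ∈ Finset.range L, c / 2 := by
          rw [Finset.sum_const, Finset.card_range, nsmul_eq_mul]; ring
      _ ≤ _ := Finset.sum_le_sum fun s hs => by
        have h3 := abs_le.1 (hk s hs (ind T) fun n => (ind_U01 T).abs_le_one n)
        linarith [h3.1]
  by_contra hcon
  push Not at hcon
  have h4 : ∑ n ∈ S.blk k, S.wt k n * (c / 2 * L - ∑ s ∈ Finset.range L, ind T (n + s)) ≤ 0 := by
    have e : ∑ n ∈ S.blk k, S.wt k n * (c / 2 * L - ∑ s ∈ Finset.range L, ind T (n + s)) =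
        c / 2 * L - S.nu k (fun n => ∑ s ∈ Finset.range L, ind T (n + s)) := by
      unfold MeanSys.nu
      simp only [mul_sub, Finset.sum_sub_distrib]
      rw [← Finset.sum_mul, S.wt_sum, one_mul]
    rw [e]; linarith
  have h5 : ∀ n ∈ S.blk k,
      0 ≤ S.wt k n * (c / 2 * L - ∑ s ∈ Finset.range L, ind T (n + s)) := fun n hn =>
    mul_nonneg (S.wt_nonneg k n) (by linarith [hcon n hn])
  have h6 := (Finset.sum_eq_zero_iff_of_nonneg h5).1 (le_antisymm h4 (Finset.sum_nonneg h5))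
  have h7 : ∑ n ∈ S.blk k, S.wt k n = 0 := Finset.sum_eq_zero fun n hn => by
    rcases mul_eq_zero.1 (h6 n hn) with h | h
    · exact h
    · have := hcon n hn; linarith
  rw [S.wt_sum] at h7
  exact one_ne_zero h7

theorem null_shift {N : Set ℤ} (h : S.m (ind N) = 0) (t : ℤ) :
    S.m (ind {z | z - t ∈ N}) = 0 := by
  have := S.m_shift_sub t (ind_bdd N)
  rw [h] at this
  exact this

theorem null_pull {N : Set ℤ} (h : S.m (ind N) = 0) {v : ℕ} (hv : 0 < v) :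
    S.m (ind {w | (v : ℤ) * w ∈ N}) = 0 := by
  have h1 := S.m_dil' hv (ind_bdd N)
  have h2 : S.m (fun n => ind (cls 0 v) n * ind N n) = 0 :=
    S.pf.eq_zero_of_null ((ind_bdd _).mul (ind_bdd _)) h fun n hn => by
      rw [ind_of_notMem hn, mul_zero]
  rw [h2, mul_zero] at h1
  exact h1

theorem null_push {N : Set ℤ} (h : S.m (ind N) = 0) {u : ℕ} (hu : 0 < u) :
    S.m (ind {y | ∃ w ∈ N, y = (u : ℤ) * w}) = 0 := by
  have hu' : (u : ℤ) ≠ 0 := by exact_mod_cast hu.ne'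
  have h1 := S.m_dil' hu (ind_bdd {y | ∃ w ∈ N, y = (u : ℤ) * w})
  have e1 : S.m (fun n => ind {y | ∃ w ∈ N, y = (u : ℤ) * w} (u * n)) = 0 := by
    rw [← h]
    refine S.pf.congr fun n => ?_
    by_cases hn : n ∈ N
    · rw [ind_of_mem hn, ind_of_mem (A := {y | ∃ w ∈ N, y = (u : ℤ) * w}) ⟨n, hn, rfl⟩]
    · rw [ind_of_notMem hn, ind_of_notMem]
      rintro ⟨w, hw, he⟩
      exact hn (by rwa [mul_left_cancel₀ hu' he])
  have e2 : S.m (fun n => ind (cls 0 u) n * ind {y | ∃ w ∈ N, y = (u : ℤ) * w} n) =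
      S.m (ind {y | ∃ w ∈ N, y = (u : ℤ) * w}) := by
    refine S.pf.congr fun n => ?_
    by_cases hn : n ∈ cls 0 u
    · rw [ind_of_mem hn, one_mul]
    · rw [ind_of_notMem hn, zero_mul, ind_of_notMem]
      rintro ⟨w, _, he⟩
      exact hn (by simp [cls, he])
  rw [e1, e2] at h1
  have hu2 : (u : ℝ) ≠ 0 := by exact_mod_cast hu.ne'
  rcases mul_eq_zero.1 h1.symm with h3 | h3
  · exact absurd h3 hu2
  · exact h3

theorem null_biUnion {ι : Type*} (s : Finset ι) (A : ι → Set ℤ)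
    (h : ∀ i ∈ s, S.m (ind (A i)) = 0) : S.m (ind (⋃ i ∈ s, A i)) = 0 :=
  S.pf.ind_eq_zero_of_le ((S.pf.ind_iUnion_le s A).trans (Finset.sum_eq_zero h).le)

/-- points `z = v n'' + u w''` where the tie of `v n'` and `u w''` fails -/
def bad1 (f : ℕ → Bool) (A : Set ℤ) (v n' n'' : ℕ) : Set ℤ :=
  {z | z - (v : ℤ) * n'' ∈ {y | (v : ℤ) * n' ∈ A ∧ y ∈ A ∧
    f ((v : ℤ) * n' + y).toNat = f ((v : ℤ) * n' * y).toNat}}

/-- points `z = v n'' + u w''` where the tie of `u n'` and `v w''` fails -/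
def bad2 (f : ℕ → Bool) (A : Set ℤ) (u v n' n'' : ℕ) : Set ℤ :=
  {z | z - (v : ℤ) * n'' ∈ {y | ∃ w ∈ {w : ℤ | (v : ℤ) * w ∈ {y | (u : ℤ) * n' ∈ A ∧ y ∈ A ∧
    f ((u : ℤ) * n' + y).toNat = f ((u : ℤ) * n' * y).toNat}}, y = (u : ℤ) * w}}

theorem null_cell {f : ℕ → Bool} {A : Set ℤ} (hA : TieCell S f A) (X : ℤ) :
    S.m (ind {y | X ∈ A ∧ y ∈ A ∧ f (X + y).toNat = f (X * y).toNat}) = 0 := by
  by_cases h : X ∈ A
  · exact S.pf.null_mono (B := {y | y ∈ A ∧ f (X + y).toNat = f (X * y).toNat})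
      (fun y hy => ⟨hy.2.1, hy.2.2⟩) (hA.2 X h)
  · exact S.pf.null_mono (B := ∅) (fun y hy => absurd hy.1 h) S.pf.ind_empty'

theorem null_bad1 {f : ℕ → Bool} {A : Set ℤ} (hA : TieCell S f A) (v n' n'' : ℕ) :
    S.m (ind (bad1 f A v n' n'')) = 0 :=
  null_shift S (null_cell S hA _) _

theorem null_bad2 {f : ℕ → Bool} {A : Set ℤ} (hA : TieCell S f A) {u v : ℕ} (hu : 0 < u)
    (hv : 0 < v) (n' n'' : ℕ) : S.m (ind (bad2 f A u v n' n'')) = 0 :=
  null_shift S (null_push S (null_pull S (null_cell S hA _) hv) hu) _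

/-- a window of representations off the bad sets gives `Rich` -/
theorem rich_of_window {f : ℕ → Bool} {A B : Set ℤ} (hA : ∀ n ∈ A, 0 < n)
    {u v : ℕ} (hu : 0 < u) {d : ℝ} {L n0 T z : ℕ} (hT : n0 + L ≤ T)
    (hd : d * L ≤ ∑ s ∈ Finset.range L,
      ind {n | n ∈ Yset A B u v ∧ ∃ w ∈ Yset A B v u, (z : ℤ) = v * n + u * w} ((n0 : ℤ) + s))
    (h1 : ∀ n' ∈ Finset.range T, ∀ n'' ∈ Finset.range T, (z : ℤ) ∉ bad1 f A v n' n'')
    (h2 : ∀ n' ∈ Finset.range T, ∀ n'' ∈ Finset.range T, (z : ℤ) ∉ bad2 f B u v n' n'') :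
    Rich f u v d L z := by
  classical
  set Y : Set ℤ := {n | n ∈ Yset A B u v ∧ ∃ w ∈ Yset A B v u, (z : ℤ) = v * n + u * w} with hY
  have key : ∀ n : ℕ, (n : ℤ) ∈ Y → (v : ℤ) * n ∈ A ∧ (u : ℤ) * n ∈ B ∧ ∃ w : ℕ,
      (u : ℤ) * w ∈ A ∧ (v : ℤ) * w ∈ B ∧ z = v * n + u * w ∧ 0 < u * w := by
    rintro n ⟨⟨ha, hb⟩, w, ⟨ha', hb'⟩, hz⟩
    have hw : 0 < w := by
      by_contra h0
      have := hA _ ha'
      have h3 : (u : ℤ) * w ≤ 0 := mul_nonpos_of_nonneg_of_nonpos (by positivity) (by omega)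
      omega
    obtain ⟨w', rfl⟩ := Int.eq_ofNat_of_zero_le hw.le
    refine ⟨ha, hb, w', ha', hb', by exact_mod_cast hz, ?_⟩
    have : 0 < w' := by exact_mod_cast hw
    positivity
  refine ⟨n0, (Finset.Ico n0 (n0 + L)).filter (fun n : ℕ => (n : ℤ) ∈ Y),
    Finset.filter_subset _ _, ?_, ?_, ?_⟩
  · refine hd.trans (le_of_eq ?_)
    rw [Finset.card_filter, Finset.sum_Ico_eq_sum_range]
    push_cast
    rw [Nat.add_sub_cancel_left]
    refine Finset.sum_congr rfl fun s _ => ?_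
    by_cases h : ((n0 : ℤ) + s) ∈ Y
    · rw [ind_of_mem h, if_pos h]
    · rw [ind_of_notMem h, if_neg h]
  · intro n hn
    obtain ⟨_, _, w, _, _, hz, hw⟩ := key n (Finset.mem_filter.1 hn).2
    refine ⟨by omega, ⟨w, by omega⟩⟩
  · intro n' hn' n'' hn''
    rw [Finset.mem_filter, Finset.mem_Ico] at hn' hn''
    obtain ⟨ha, hb, -⟩ := key n' hn'.2
    obtain ⟨-, -, w, ha', hb', hz, hw⟩ := key n'' hn''.2
    have hsub : z - v * n'' = u * w := by omega
    rw [hsub, Nat.mul_div_cancel_left _ hu]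
    have hr' : n' ∈ Finset.range T := Finset.mem_range.2 (by omega)
    have hr'' : n'' ∈ Finset.range T := Finset.mem_range.2 (by omega)
    have hzz : (z : ℤ) - (v : ℤ) * n'' = (u : ℤ) * w := by rw [hz]; push_cast; ring
    have t1 := h1 n' hr' n'' hr''
    have t2 := h2 n' hr' n'' hr''
    have s1 : f (v * n' + u * w) ≠ f (v * n' * (u * w)) := by
      intro h
      apply t1
      unfold bad1
      rw [Set.mem_ofPred_eq, hzz]
      refine ⟨ha, ha', ?_⟩
      have e1 : ((v : ℤ) * n' + u * w).toNat = v * n' + u * w := by norm_cast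
      have e2 : ((v : ℤ) * n' * (u * w)).toNat = v * n' * (u * w) := by norm_cast
      rw [e1, e2, h]
    have s2 : f (u * n' + v * w) ≠ f (u * n' * (v * w)) := by
      intro h
      apply t2
      unfold bad2
      rw [Set.mem_ofPred_eq, hzz]
      refine ⟨w, ⟨hb, hb', ?_⟩, rfl⟩
      have e1 : ((u : ℤ) * n' + v * w).toNat = u * n' + v * w := by norm_cast
      have e2 : ((u : ℤ) * n' * (v * w)).toNat = u * n' * (v * w) := by norm_cast
      rw [e1, e2, h]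
    have e3 : u * n' * (v * w) = v * n' * (u * w) := by ring
    rw [e3] at s2
    exact bool_eq_of_ne s1 s2

/-- affine form of `StabAt` (19) -/
def StabAffAt (μ : Set ℕ → ℝ) (f : ℕ → Bool) (e : ℝ) (P : Finset (ℕ × ℕ)) (d : ℝ) (M b : ℕ) :
    Prop :=
  ∀ X T q a : ℕ, 0 < X → 0 < q → (∀ x, x ≡ a [MOD q] → X * x + T ≡ b [MOD M]) →
    ∀ L₀ : ℕ, ∃ L, L₀ ≤ L ∧
      μ {x | x ≡ a [MOD q] ∧ ¬ ∃ p ∈ P, Rich f p.1 p.2 d L (X * x + T)} ≤
        e * μ {x | x ≡ a [MOD q]}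

/-- affine form of `Stab` (19) -/
def StabAff (μ : Set ℕ → ℝ) (f : ℕ → Bool) : Prop :=
  ∀ e : ℝ, 0 < e → ∀ Q a : ℕ, 0 < Q → 2 ∣ Q → 2 ∣ a →
    ∃ (M b : ℕ) (P : Finset (ℕ × ℕ)) (d : ℝ), 0 < M ∧ Q ∣ M ∧ b ≡ a [MOD Q] ∧ 0 < d ∧
      (∀ p ∈ P, 0 < p.1 ∧ p.1 < p.2) ∧ StabAffAt μ f e P d M b

theorem StabAff.stab {μ : Set ℕ → ℝ} {f : ℕ → Bool} (h : StabAff μ f) : Stab μ f := by
  intro e he Q a hQ h2 h2a
  obtain ⟨M, b, P, d, hM, hQM, hb, hd, hP, H⟩ := h e he Q a hQ h2 h2a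
  refine ⟨M, b, P, d, hM, hQM, hb, hd, hP, ?_⟩
  intro X q a' hX hq hmod L₀
  exact H X 0 q a' hX hq hmod L₀

/-- cells and M11 give `StabAff` -/
theorem stabAff_of_cells (h11 : M11 S) (f : ℕ → Bool)
    (hcell : ∀ θ > (0 : ℝ), ∃ (J : ℕ) (A : Fin J → Set ℤ), (∀ i j, i ≠ j → Disjoint (A i) (A j)) ∧
      (∀ i, TieCell S f (A i)) ∧ 1 - ∑ i, S.m (ind (A i)) ≤ θ) : StabAff (mu S) f := by
  classical
  intro e he Q a hQ h2Q h2a
  obtain ⟨θ, hθ, H⟩ := h11 e he Q (a : ℤ) hQ h2Q (by exact_mod_cast h2a)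
  obtain ⟨J, A, hdis, hA, hsum⟩ := hcell θ hθ
  obtain ⟨M, a₁, P, c, hM, hQM, ha₁, hP, hc, HH⟩ := H J A hdis hsum
  have hM' : (0 : ℤ) < M := by exact_mod_cast hM
  have hb0 : 0 ≤ a₁ % M := Int.emod_nonneg _ hM'.ne'
  have hb1 : (M : ℤ) ∣ a₁ - ((a₁ % M).toNat : ℤ) := by
    rw [Int.toNat_of_nonneg hb0]; exact Int.dvd_self_sub_emod
  refine ⟨M, (a₁ % M).toNat, P, c / 2, hM, hQM, ?_, by positivity, hP, ?_⟩
  · rw [← Int.natCast_modEq_iff, Int.modEq_comm, Int.modEq_iff_dvd]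
    have h3 : (Q : ℤ) ∣ a₁ - ((a₁ % M).toNat : ℤ) := (Int.natCast_dvd_natCast.2 hQM).trans hb1
    have h4 := dvd_sub ha₁ h3
    have e4 : a₁ - (a : ℤ) - (a₁ - ((a₁ % M).toNat : ℤ)) = ((a₁ % M).toNat : ℤ) - a := by ring
    rwa [e4] at h4
  · intro X T' q a' hX hq hmod L₀
    set b := (a₁ % M).toNat with hbdef
    refine ⟨L₀, le_rfl, ?_⟩
    have hXq : M ∣ X * q := by
      have h1 := hmod a' rfl
      have h2 := hmod (a' + q) (by simp [Nat.ModEq])
      have h3 : (X * a' + T') + X * q ≡ (X * a' + T') + 0 [MOD M] := by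
        rw [add_zero]
        have e3 : (X * a' + T') + X * q = X * (a' + q) + T' := by ring
        rw [e3]; exact h2.trans h1.symm
      exact (Nat.modEq_zero_iff_dvd).1 (Nat.ModEq.add_left_cancel' _ h3)
    have ha2 : (M : ℤ) ∣ ((X * a' + T' : ℕ) : ℤ) - a₁ := by
      have h1 := hmod a' rfl
      rw [← Int.natCast_modEq_iff, Int.modEq_comm, Int.modEq_iff_dvd] at h1
      have h2 := dvd_sub h1 hb1
      have e2 : ((X * a' + T' : ℕ) : ℤ) - (b : ℤ) - (a₁ - (b : ℤ)) =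
          ((X * a' + T' : ℕ) : ℤ) - a₁ := by ring
      rwa [e2] at h2
    have hR : 0 < X * q := Nat.mul_pos hX hq
    have HR := HH ((X * a' + T' : ℕ) : ℤ) (X * q) hR hXq ha2
    obtain ⟨k, hk1, hk2⟩ := (HR.and (window S L₀ c hc)).exists
    -- a bound for the block
    obtain ⟨T, hT⟩ : ∃ T : ℕ, ∀ n ∈ S.blk k, n.toNat + L₀ ≤ T := by
      refine ⟨(S.blk k).sup (fun n => n.toNat + L₀), fun n hn => ?_⟩
      exact Finset.le_sup (f := fun n : ℤ => n.toNat + L₀) hn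
    set Bad : Set ℤ := {z | z ∈ cls ((X * a' + T' : ℕ) : ℤ) (X * q) ∧
      ∀ i j, ∀ p ∈ P, ER S (A i) (A j) p.1 p.2 k z < c} with hBad
    set N1 : Set ℤ := ⋃ i ∈ (Finset.univ : Finset (Fin J)), ⋃ p ∈ P, ⋃ n' ∈ Finset.range T,
      ⋃ n'' ∈ Finset.range T, bad1 f (A i) p.2 n' n'' with hN1
    set N2 : Set ℤ := ⋃ i ∈ (Finset.univ : Finset (Fin J)), ⋃ p ∈ P, ⋃ n' ∈ Finset.range T,
      ⋃ n'' ∈ Finset.range T, bad2 f (A i) p.1 p.2 n' n'' with hN2
    have hn1 : S.m (ind N1) = 0 :=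
      null_biUnion S _ _ fun i _ => null_biUnion S _ _ fun p _ => null_biUnion S _ _ fun n' _ =>
        null_biUnion S _ _ fun n'' _ => null_bad1 S (hA i) _ _ _
    have hn2 : S.m (ind N2) = 0 :=
      null_biUnion S _ _ fun i _ => null_biUnion S _ _ fun p hp => null_biUnion S _ _ fun n' _ =>
        null_biUnion S _ _ fun n'' _ =>
          null_bad2 S (hA i) (hP p hp).1 ((hP p hp).1.trans (hP p hp).2) _ _
    have hn12 : S.m (ind (N1 ∪ N2)) = 0 := S.pf.null_union hn1 hn2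
    -- the inclusion
    have hincl : ∀ z : ℕ, (z : ℤ) ∈ cls ((X * a' + T' : ℕ) : ℤ) (X * q) →
        (¬ ∃ p ∈ P, Rich f p.1 p.2 (c / 2) L₀ z) → (z : ℤ) ∈ Bad ∪ (N1 ∪ N2) := by
      intro z hz hnr
      by_contra hcon
      simp only [Set.mem_union, not_or] at hcon
      obtain ⟨hcb, hc1, hc2⟩ := hcon
      have h3 : ∃ i j, ∃ p ∈ P, c ≤ ER S (A i) (A j) p.1 p.2 k z := by
        by_contra h4
        push Not at h4
        exact hcb ⟨hz, h4⟩
      obtain ⟨i, j, p, hp, hER⟩ := h3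
      obtain ⟨n0, hn0, hwin⟩ := hk2 _ hER
      have hn0pos : 0 ≤ n0 := by
        have := S.blk_gt k n0 hn0
        omega
      apply hnr
      refine ⟨p, hp, ?_⟩
      refine rich_of_window (A := A i) (B := A j) (fun n hn => (hA i).1 n hn)
        (hP p hp).1 (n0 := n0.toNat)
        (hT n0 hn0) ?_ ?_ ?_
      · rw [Int.toNat_of_nonneg hn0pos]; exact hwin
      · intro n' hn' n'' hn'' hmem
        apply hc1
        rw [hN1]
        simp only [Set.mem_iUnion]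
        exact ⟨i, Finset.mem_univ i, p, hp, n', hn', n'', hn'', hmem⟩
      · intro n' hn' n'' hn'' hmem
        apply hc2
        rw [hN2]
        simp only [Set.mem_iUnion]
        exact ⟨j, Finset.mem_univ j, p, hp, n', hn', n'', hn'', hmem⟩
    -- pull back by `x ↦ X x + T'`
    have hmcls : mu S {x | x ≡ a' [MOD q]} = 1 / q := mu_cls S a' q hq
    rw [hmcls, mu_eq]
    have h5 : S.m (ind (lift82 {x | x ≡ a' [MOD q] ∧
        ¬ ∃ p ∈ P, Rich f p.1 p.2 (c / 2) L₀ (X * x + T')})) ≤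
        S.m (fun n => ind (Bad ∪ (N1 ∪ N2)) (X * n + T')) := by
      refine S.pf.mono (ind_bdd _) ((ind_bdd _).comp _) fun n => ?_
      by_cases hn : n ∈ lift82 {x | x ≡ a' [MOD q] ∧
        ¬ ∃ p ∈ P, Rich f p.1 p.2 (c / 2) L₀ (X * x + T')}
      · rw [ind_of_mem hn]
        obtain ⟨hn0, hn1, hn2⟩ := hn
        have hz : ((X * n.toNat + T' : ℕ) : ℤ) = X * n + T' := by
          push_cast
          rw [Int.toNat_of_nonneg hn0.le]
        have hin : ((X * n.toNat + T' : ℕ) : ℤ) ∈ Bad ∪ (N1 ∪ N2) := by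
          refine hincl (X * n.toNat + T') ?_ hn2
          unfold cls
          rw [Set.mem_ofPred_eq]
          rw [Nat.modEq_iff_dvd] at hn1
          have h6 : (q : ℤ) ∣ (n.toNat : ℤ) - a' := by
            rw [← Int.dvd_neg, neg_sub]; exact hn1
          have h7 := mul_dvd_mul_left (X : ℤ) h6
          push_cast
          have e7 : (X : ℤ) * (n.toNat : ℤ) + T' - (X * a' + T') = X * ((n.toNat : ℤ) - a') := by
            ring
          rw [e7]
          exact h7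
        rw [hz] at hin
        rw [ind_of_mem hin]
      · rw [ind_of_notMem hn]
        exact ind_nonneg _ _
    refine h5.trans ?_
    have hb : Bdd (fun z => ind (Bad ∪ (N1 ∪ N2)) (z + T')) := (ind_bdd _).shift _
    rw [S.m_dil' hX hb]
    have h6 : S.m (fun n => ind (cls 0 X) n * ind (Bad ∪ (N1 ∪ N2)) (n + T')) ≤
        e / (X * q : ℕ) := by
      refine le_trans (S.pf.mono ((ind_bdd _).mul hb) hb fun n => ?_) ?_
      · exact mul_le_of_le_one_left (ind_nonneg _ _) (ind_le_one _ _)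
      · rw [S.m_shift (T' : ℤ) (ind_bdd (Bad ∪ (N1 ∪ N2)))]
        refine (S.pf.ind_union' _ _).trans ?_
        rw [hn12, add_zero]
        exact hk1
    calc (X : ℝ) * S.m (fun n => ind (cls 0 X) n * ind (Bad ∪ (N1 ∪ N2)) (n + T'))
        ≤ X * (e / (X * q : ℕ)) := mul_le_mul_of_nonneg_left h6 (by positivity)
      _ = e * (1 / q) := by
        have hX2 : (X : ℝ) ≠ 0 := by exact_mod_cast hX.ne'
        have hq2 : (q : ℝ) ≠ 0 := by exact_mod_cast hq.ne'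
        push_cast
        field_simp

/-- cells and M11 give `Stab` -/
theorem stab_of_cells (h11 : M11 S) (f : ℕ → Bool)
    (hcell : ∀ θ > (0 : ℝ), ∃ (J : ℕ) (A : Fin J → Set ℤ), (∀ i j, i ≠ j → Disjoint (A i) (A j)) ∧
      (∀ i, TieCell S f (A i)) ∧ 1 - ∑ i, S.m (ind (A i)) ≤ θ) : Stab (mu S) f :=
  (stabAff_of_cells S h11 f hcell).stab

/-- M12 -/
theorem m12 : M12 S := fun h3 h11 => ⟨subMean S, fun f hf => stab_of_cells S h11 f (h3 f hf)⟩

end Pool.Agent.FinA
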