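import Pool.Agent.Lib.MP_60922f_co.FIN.Stmts43

/-! Sums of totally bounded pseudonorms are totally bounded pseudonorms. -/

set_option autoImplicit false

namespace Pool.Agent.FinA

namespace PN

theorem const_zero : PN (fun _ => (0 : ℝ)) where
  nonneg := fun _ => le_refl _
  zero := rfl
  neg := fun _ => rfl
  add := fun _ _ => by simp
  tb := fun η hη => ⟨{0}, fun t => ⟨0, by simp, hη.le⟩⟩

theorem smul {N : ℤ → ℝ} (hN : PN N) {c : ℝ} (hc : 0 ≤ c) : PN (fun t => c * N t) where
  nonneg := fun t => mul_nonneg hc (hN.nonneg t)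
  zero := by simp [hN.zero]
  neg := fun t => by simp [hN.neg]
  add := fun s t => by
    have := mul_le_mul_of_nonneg_left (hN.add s t) hc
    linarith
  tb := fun η hη => by
    obtain ⟨P, hP⟩ := hN.tb (η / (c + 1)) (by positivity)
    refine ⟨P, fun t => ?_⟩
    obtain ⟨s, hs, hst⟩ := hP t
    refine ⟨s, hs, ?_⟩
    have h1 : c * N (t - s) ≤ c * (η / (c + 1)) := mul_le_mul_of_nonneg_left hst hc
    have h2 : c * (η / (c + 1)) ≤ η := by
      rw [mul_div_assoc', div_le_iff₀ (by linarith)]
      nlinarith
    linarith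

theorem sum2 {N N' : ℤ → ℝ} (hN : PN N) (hN' : PN N') : PN (fun t => N t + N' t) where
  nonneg := fun t => add_nonneg (hN.nonneg t) (hN'.nonneg t)
  zero := by simp [hN.zero, hN'.zero]
  neg := fun t => by simp [hN.neg, hN'.neg]
  add := fun s t => by
    have h1 := hN.add s t
    have h2 := hN'.add s t
    linarith
  tb := fun η hη => by
    classical
    obtain ⟨P, hP⟩ := hN.tb (η / 4) (by linarith)
    obtain ⟨P', hP'⟩ := hN'.tb (η / 4) (by linarith)
    -- choose a joint point for each pair of net points that has one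
    have hch : ∀ s : ℤ × ℤ, ∃ r : ℤ, (∃ t, N (t - s.1) ≤ η / 4 ∧ N' (t - s.2) ≤ η / 4) →
        N (r - s.1) ≤ η / 4 ∧ N' (r - s.2) ≤ η / 4 := by
      intro s
      by_cases h : ∃ t, N (t - s.1) ≤ η / 4 ∧ N' (t - s.2) ≤ η / 4
      · obtain ⟨t, ht⟩ := h
        exact ⟨t, fun _ => ht⟩
      · exact ⟨0, fun h' => absurd h' h⟩
    choose r hr using hch
    refine ⟨(P ×ˢ P').image r, fun t => ?_⟩
    obtain ⟨s, hs, hst⟩ := hP t
    obtain ⟨s', hs', hst'⟩ := hP' t
    obtain ⟨h1, h2⟩ := hr (s, s') ⟨t, hst, hst'⟩
    refine ⟨r (s, s'), Finset.mem_image.mpr ⟨(s, s'), Finset.mk_mem_product hs hs', rfl⟩, ?_⟩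
    simp only at h1 h2
    have e1 : N (t - r (s, s')) ≤ N (t - s) + N (r (s, s') - s) := by
      have := hN.add (t - s) (-(r (s, s') - s))
      rw [hN.neg] at this
      have e : t - s + -(r (s, s') - s) = t - r (s, s') := by ring
      rwa [e] at this
    have e2 : N' (t - r (s, s')) ≤ N' (t - s') + N' (r (s, s') - s') := by
      have := hN'.add (t - s') (-(r (s, s') - s'))
      rw [hN'.neg] at this
      have e : t - s' + -(r (s, s') - s') = t - r (s, s') := by ring
      rwa [e] at this
    linarith

theorem sum {ι : Type*} (s : Finset ι) {N : ι → ℤ → ℝ} (hN : ∀ i ∈ s, PN (N i)) :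
    PN (fun t => ∑ i ∈ s, N i t) := by
  classical
  induction s using Finset.induction_on with
  | empty => simpa using const_zero
  | insert a s ha ih =>
    have h1 := sum2 (hN a (Finset.mem_insert_self a s))
      (ih fun i hi => hN i (Finset.mem_insert_of_mem hi))
    simpa [Finset.sum_insert ha] using h1

/-- the pseudonorm `C` on odd numbers, `0` on even numbers -/
theorem parity {C : ℝ} (hC : 0 ≤ C) : PN (fun t => if Even t then 0 else C) where
  nonneg := fun t => by split_ifs <;> linarith
  zero := by simp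
  neg := fun t => by simp
  add := fun s t => by
    by_cases hs : Even s <;> by_cases ht : Even t
    · simp [hs, ht, hs.add ht]
    · have : ¬ Even (s + t) := by
        rw [Int.even_add]; tauto
      simp [hs, ht, this]
    · have : ¬ Even (s + t) := by
        rw [Int.even_add]; tauto
      simp [hs, ht, this]
    · have : Even (s + t) := by
        rw [Int.even_add]; tauto
      simp [hs, ht, this]
      linarith
  tb := fun η hη => by
    refine ⟨{0, 1}, fun t => ?_⟩
    by_cases ht : Even t
    · exact ⟨0, by simp, by simp [ht, hη.le]⟩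
    · refine ⟨1, by simp, ?_⟩
      have : Even (t - 1) := by
        rw [Int.even_sub]
        constructor
        · intro h; exact absurd h ht
        · intro h; exact absurd h (by decide)
      simp [this, hη.le]

/-- a pseudonorm below a totally bounded one, with the triangle inequality, is one -/
theorem of_le {N N' : ℤ → ℝ} (hN : PN N) (h0 : ∀ t, 0 ≤ N' t) (hz : N' 0 = 0)
    (hneg : ∀ t, N' (-t) = N' t) (hadd : ∀ s t, N' (s + t) ≤ N' s + N' t)
    (hle : ∀ t, N' t ≤ N t) : PN N' where
  nonneg := h0
  zero := hz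
  neg := hneg
  add := hadd
  tb := fun η hη => by
    obtain ⟨P, hP⟩ := hN.tb η hη
    exact ⟨P, fun t => by obtain ⟨s, hs, h⟩ := hP t; exact ⟨s, hs, (hle _).trans h⟩⟩

end PN

end Pool.Agent.FinA
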