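import Pool.Agent.Lib.MP_60922f_co.FIN.Calc55
import Pool.Agent.Lib.MP_60922f_co.FIN.PN24

set_option autoImplicit false

/-! M5: the density of representations `z = v n + u w` with `n` in block `k` converges in `L²(m)`
along the ultrafilter; the limit is almost periodic on every residue class. -/

namespace Pool.Agent.FinA

open Filter Topology

namespace M574

variable (S : MeanSys)

lemma bdd_nu (k : ℕ) (F : ℤ → ℤ → ℝ) (hF : ∀ n, Bdd (F n)) :
    Bdd (fun z => S.nu k (fun n => F n z)) := by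
  unfold MeanSys.nu
  exact Bdd.sum _ _ fun n _ => (hF n).smul _

/-- interchange of `m` and a block average -/
lemma m_nu (k : ℕ) (F : ℤ → ℤ → ℝ) (hF : ∀ n, Bdd (F n)) :
    S.m (fun z => S.nu k (fun n => F n z)) = S.nu k (fun n => S.m (F n)) := by
  unfold MeanSys.nu
  rw [S.pf.sum _ _ fun n _ => (hF n).smul _]
  exact Finset.sum_congr rfl fun n _ => S.pf.smul _ (hF n)

lemma nu_mono (k : ℕ) {F G : ℤ → ℝ} (h : ∀ n, F n ≤ G n) : S.nu k F ≤ S.nu k G :=
  Finset.sum_le_sum fun n _ => mul_le_mul_of_nonneg_left (h n) (S.wt_nonneg k n)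

lemma nu_le (k : ℕ) {F : ℤ → ℝ} {C : ℝ} (h : ∀ n, F n ≤ C) : S.nu k F ≤ C := by
  have h1 := nu_mono S k (F := F) (G := fun _ => C) h
  rwa [(S.nu_pf k).const] at h1

lemma nu_nonneg (k : ℕ) {F : ℤ → ℝ} (h : ∀ n, 0 ≤ F n) : 0 ≤ S.nu k F :=
  Finset.sum_nonneg fun n _ => mul_nonneg (S.wt_nonneg k n) (h n)

lemma nu_smul (k : ℕ) (c : ℝ) (F : ℤ → ℝ) : S.nu k (fun n => c * F n) = c * S.nu k F := by
  unfold MeanSys.nu
  rw [Finset.mul_sum]
  exact Finset.sum_congr rfl fun n _ => by ring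

lemma nu_mul_const (k : ℕ) (c : ℝ) (F : ℤ → ℝ) : S.nu k (fun n => F n * c) = S.nu k F * c := by
  unfold MeanSys.nu
  rw [Finset.sum_mul]
  exact Finset.sum_congr rfl fun n _ => by ring

lemma nu_add (k : ℕ) (F G : ℤ → ℝ) : S.nu k (fun n => F n + G n) = S.nu k F + S.nu k G := by
  unfold MeanSys.nu
  rw [← Finset.sum_add_distrib]
  exact Finset.sum_congr rfl fun n _ => by ring

lemma nu_sub (k : ℕ) (F G : ℤ → ℝ) : S.nu k (fun n => F n - G n) = S.nu k F - S.nu k G := by
  unfold MeanSys.nu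
  rw [← Finset.sum_sub_distrib]
  exact Finset.sum_congr rfl fun n _ => by ring

lemma nu_abs (k : ℕ) (F : ℤ → ℝ) : |S.nu k F| ≤ S.nu k (fun n => |F n|) := by
  unfold MeanSys.nu
  refine (Finset.abs_sum_le_sum_abs _ _).trans (Finset.sum_le_sum fun n _ => ?_)
  rw [abs_mul, abs_of_nonneg (S.wt_nonneg k n)]

lemma nu_fsum (k : ℕ) {ι : Type*} (s : Finset ι) (H : ι → ℤ → ℝ) :
    S.nu k (fun n => ∑ i ∈ s, H i n) = ∑ i ∈ s, S.nu k (H i) := by
  unfold MeanSys.nu
  rw [Finset.sum_comm]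
  exact Finset.sum_congr rfl fun n _ => by rw [Finset.mul_sum]

/-- square of a block average of a function of `n` (no boundedness needed) -/
lemma nu_sq_le (k : ℕ) (F : ℤ → ℝ) : (S.nu k F) ^ 2 ≤ S.nu k (fun n => F n ^ 2) := by
  have h0 : 0 ≤ S.nu k (fun n => (F n - S.nu k F) ^ 2) := nu_nonneg S k fun n => sq_nonneg _
  have e : (fun n => (F n - S.nu k F) ^ 2) =
      fun n => F n ^ 2 + ((-2 * S.nu k F) * F n + (S.nu k F) ^ 2 * 1) := by
    funext n; ring
  rw [e, nu_add, nu_add, nu_smul, nu_smul, (S.nu_pf k).const] at h0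
  nlinarith [h0]

/-- block average of translates -/
noncomputable def AV (a : ℤ → ℝ) (v : ℕ) (h : ℤ → ℝ) (k : ℕ) (z : ℤ) : ℝ :=
  S.nu k (fun n => a n * h (z - v * n))

variable {S} {a : ℤ → ℝ} {v : ℕ} {h φ : ℤ → ℝ}

lemma bdd_AV (hh : Bdd h) (k : ℕ) : Bdd (AV S a v h k) :=
  bdd_nu S k (fun n z => a n * h (z - v * n)) fun n => (hh.comp (fun z => z - v * n)).smul _

lemma AV_add (h φ : ℤ → ℝ) (k : ℕ) (z : ℤ) :
    AV S a v (fun x => h x + φ x) k z = AV S a v h k z + AV S a v φ k z := by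
  unfold AV
  rw [← nu_add]
  congr 1
  funext n; ring

lemma AV_sub (h φ : ℤ → ℝ) (k : ℕ) (z : ℤ) :
    AV S a v (fun x => h x - φ x) k z = AV S a v h k z - AV S a v φ k z := by
  unfold AV
  rw [← nu_sub]
  congr 1
  funext n; ring

/-- `L²` norm of a block average of translates through correlations -/
lemma AV_sq_le (ha : U01 a) (hh : Bdd h) (k : ℕ) :
    S.m (fun z => (AV S a v h k z) ^ 2) ≤
      S.nu k (fun n => S.nu k (fun n' => |S.m (fun x => h (x - v * n) * h (x - v * n'))|)) := by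
  have hb : ∀ n n' : ℤ, Bdd (fun x => h (x - v * n) * h (x - v * n')) := fun n n' =>
    (hh.comp (fun x => x - v * n)).mul (hh.comp (fun x => x - v * n'))
  have e : ∀ z, (AV S a v h k z) ^ 2 =
      S.nu k (fun n => S.nu k (fun n' => (a n * a n') * (h (z - v * n) * h (z - v * n')))) := by
    intro z
    have e1 : ∀ n, S.nu k (fun n' => (a n * a n') * (h (z - v * n) * h (z - v * n'))) =
        (a n * h (z - v * n)) * AV S a v h k z := by
      intro n
      unfold AV
      rw [← nu_smul]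
      congr 1
      funext n'; ring
    simp only [e1]
    rw [nu_mul_const, sq]
    rfl
  rw [S.pf.congr e, m_nu S k (fun n z => S.nu k (fun n' => (a n * a n') *
    (h (z - v * n) * h (z - v * n')))) fun n => bdd_nu S k (fun n' z => (a n * a n') *
    (h (z - v * n) * h (z - v * n'))) fun n' => (hb n n').smul _]
  refine nu_mono S k fun n => ?_
  rw [m_nu S k (fun n' z => (a n * a n') * (h (z - v * n) * h (z - v * n')))
    fun n' => (hb n n').smul _]
  refine nu_mono S k fun n' => ?_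
  rw [S.pf.smul _ (hb n n')]
  refine (le_abs_self _).trans ?_
  rw [abs_mul]
  have h1 : |a n * a n'| ≤ 1 := by
    rw [abs_mul]
    exact mul_le_one₀ (ha.abs_le_one n) (abs_nonneg _) (ha.abs_le_one n')
  exact mul_le_of_le_one_left (abs_nonneg _) h1

/-- the almost periodic part is close to a fixed bounded function -/
lemma AV_limit (ha : U01 a) (hφ : Bdd φ) {N : ℤ → ℝ} (hN : PN N) {η : ℝ} (hη : 0 < η)
    (hap : ∀ t : ℤ, S.m (fun x => (φ (x + t) - φ x) ^ 2) ≤ (N t + η) ^ 2) :
    ∃ B : ℤ → ℝ, Bdd B ∧ ∀ᶠ k in (S.U : Filter ℕ),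
      S.m (fun z => (AV S a v φ k z - B z) ^ 2) ≤ 10 * η ^ 2 := by
  classical
  obtain ⟨P, hP⟩ := hN.tb η hη
  choose p hpP hp using fun n : ℤ => hP (-(v * n))
  set q : ℤ → ℤ → ℝ := fun r n => if p n = r then a n else 0 with hq
  have hqb : ∀ r, Bdd (q r) := fun r => ha.bdd.ite (fun n => p n = r)
  set c : ℤ → ℝ := fun r => S.m (q r) with hc
  obtain ⟨D, hD0, hD⟩ := hφ.pos_bound
  have hBb : Bdd (fun z => ∑ r ∈ P, c r * φ (z + r)) :=
    Bdd.sum _ _ fun r _ => (hφ.shift r).smul _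
  refine ⟨fun z => ∑ r ∈ P, c r * φ (z + r), hBb, ?_⟩
  -- weights converge
  have hδ : 0 < η / (D * (P.card + 1)) := by positivity
  have hev : ∀ᶠ k in (S.U : Filter ℕ), ∀ r ∈ P, |S.nu k (q r) - c r| ≤ η / (D * (P.card + 1)) :=
    (Finset.eventually_all P).2 fun r _ => S.ev_nu (hqb r) hδ
  filter_upwards [hev] with k hk
  -- the intermediate function
  have hBk : ∀ z, S.nu k (fun n => a n * φ (z + p n)) = ∑ r ∈ P, S.nu k (q r) * φ (z + r) := by
    intro z
    have e1 : (fun n => a n * φ (z + p n)) = fun n => ∑ r ∈ P, q r n * φ (z + r) := by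
      funext n
      rw [Finset.sum_eq_single_of_mem (p n) (hpP n)]
      · simp [hq]
      · intro r _ hr
        simp [hq, Ne.symm hr]
    rw [e1, nu_fsum]
    exact Finset.sum_congr rfl fun r _ => nu_mul_const S k _ _
  have hBkb : Bdd (fun z => S.nu k (fun n => a n * φ (z + p n))) :=
    bdd_nu S k (fun n z => a n * φ (z + p n)) fun n => (hφ.shift (p n)).smul _
  have h1 : S.m (fun z => (AV S a v φ k z - S.nu k (fun n => a n * φ (z + p n))) ^ 2) ≤
      (2 * η) ^ 2 := by
    have hb1 : ∀ n : ℤ, Bdd (fun z => (φ (z - v * n) - φ (z + p n)) ^ 2) := fun n =>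
      ((hφ.comp (fun z => z - v * n)).sub (hφ.shift (p n))).sq
    have h2 : ∀ z, (AV S a v φ k z - S.nu k (fun n => a n * φ (z + p n))) ^ 2 ≤
        S.nu k (fun n => (φ (z - v * n) - φ (z + p n)) ^ 2) := by
      intro z
      have e2 : AV S a v φ k z - S.nu k (fun n => a n * φ (z + p n)) =
          S.nu k (fun n => a n * (φ (z - v * n) - φ (z + p n))) := by
        unfold AV
        rw [← nu_sub]
        congr 1
        funext n; ring
      rw [e2]
      refine (nu_sq_le S k _).trans (nu_mono S k fun n => ?_)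
      rw [mul_pow]
      have h3 : a n ^ 2 ≤ 1 := by
        have := ha n
        nlinarith [this.1, this.2]
      exact mul_le_of_le_one_left (sq_nonneg _) h3
    refine (S.pf.mono ((bdd_AV hφ k).sub hBkb).sq
      (bdd_nu S k (fun n z => (φ (z - v * n) - φ (z + p n)) ^ 2) hb1) h2).trans ?_
    rw [m_nu S k (fun n z => (φ (z - v * n) - φ (z + p n)) ^ 2) hb1]
    refine nu_le S k fun n => ?_
    have h4 : S.m (fun z => (φ (z - v * n) - φ (z + p n)) ^ 2) =
        S.m (fun x => (φ (x + (-(v * n) - p n)) - φ x) ^ 2) := by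
      rw [← S.m_shift (p n) (F := fun x => (φ (x + (-(v * n) - p n)) - φ x) ^ 2)
        ((hφ.shift _).sub hφ).sq]
      refine S.pf.congr fun z => ?_
      have : z + p n + (-(v * n) - p n) = z - v * n := by ring
      rw [this]
    rw [h4]
    refine (hap _).trans ?_
    have := hp n
    have h5 := hN.nonneg (-(v * n) - p n)
    nlinarith
  have h2 : S.m (fun z => (S.nu k (fun n => a n * φ (z + p n)) - ∑ r ∈ P, c r * φ (z + r)) ^ 2) ≤
      η ^ 2 := by
    refine S.pf.le_of_le (hBkb.sub hBb).sq fun z => ?_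
    rw [hBk z, ← Finset.sum_sub_distrib]
    have h3 : |∑ r ∈ P, (S.nu k (q r) * φ (z + r) - c r * φ (z + r))| ≤ η := by
      refine (Finset.abs_sum_le_sum_abs _ _).trans ?_
      calc ∑ r ∈ P, |S.nu k (q r) * φ (z + r) - c r * φ (z + r)|
          ≤ ∑ r ∈ P, η / (D * (P.card + 1)) * D := by
            refine Finset.sum_le_sum fun r hr => ?_
            rw [← sub_mul, abs_mul]
            exact mul_le_mul (hk r hr) (hD _) (abs_nonneg _) hδ.le
        _ = η * (P.card / (P.card + 1)) := by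
            rw [Finset.sum_const, nsmul_eq_mul]
            field_simp
        _ ≤ η * 1 := by
            refine mul_le_mul_of_nonneg_left ?_ hη.le
            rw [div_le_one (by positivity)]
            linarith
        _ = η := mul_one η
    rw [← sq_abs]
    exact pow_le_pow_left₀ (abs_nonneg _) h3 2
  have h3 := S.pf.sq_add_le (F := fun z => AV S a v φ k z - S.nu k (fun n => a n * φ (z + p n)))
    (G := fun z => S.nu k (fun n => a n * φ (z + p n)) - ∑ r ∈ P, c r * φ (z + r))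
    ((bdd_AV hφ k).sub hBkb) (hBkb.sub hBb)
  have e3 : (fun z => (AV S a v φ k z - ∑ r ∈ P, c r * φ (z + r)) ^ 2) =
      fun z => (AV S a v φ k z - S.nu k (fun n => a n * φ (z + p n)) +
        (S.nu k (fun n => a n * φ (z + p n)) - ∑ r ∈ P, c r * φ (z + r))) ^ 2 := by
    funext z; ring
  rw [e3]
  nlinarith [h1, h2, h3]

/-- class densities are uniformly small -/
lemma cls_unif (S : MeanSys) (v : ℕ) (hv : 0 < v) (c : ℤ) {Q : ℕ} (hQ : 0 < Q) {ε : ℝ}
    (hε : 0 < ε) : ∀ᶠ k in (S.U : Filter ℕ), ∀ x : ℤ,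
      S.nu k (fun n => ind (cls c Q) (x + v * n)) ≤ v / Q + ε := by
  have h1 : ∀ x : ℤ, S.m (fun n => ind (cls c Q) (x + v * n)) ≤ v / Q := by
    intro x
    have hb : Bdd (fun y => ind (cls c Q) (x + y)) := (ind_bdd _).comp _
    have := S.m_dil' hv hb
    rw [this]
    have h2 : S.m (fun n => ind (cls 0 v) n * ind (cls c Q) (x + n)) ≤ 1 / Q := by
      rw [← S.m_cls c hQ, ← S.m_shift_left x (ind_bdd (cls c Q))]
      refine S.pf.mono ((ind_bdd _).mul hb) hb fun n => ?_
      exact mul_le_of_le_one_left (ind_nonneg _ _) (ind_le_one _ _)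
    calc (v : ℝ) * S.m (fun n => ind (cls 0 v) n * ind (cls c Q) (x + n)) ≤ v * (1 / Q) :=
          mul_le_mul_of_nonneg_left h2 (by positivity)
      _ = v / Q := by ring
  have hev : ∀ᶠ k in (S.U : Filter ℕ), ∀ j ∈ Finset.range Q,
      |S.nu k (fun n => ind (cls c Q) ((j : ℤ) + v * n)) -
        S.m (fun n => ind (cls c Q) ((j : ℤ) + v * n))| ≤ ε :=
    (Finset.eventually_all _).2 fun j _ => S.ev_nu ((ind_bdd _).comp _) hε
  filter_upwards [hev] with k hk x
  have hQ' : (0 : ℤ) < Q := by exact_mod_cast hQ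
  have hn0 := Int.emod_nonneg x hQ'.ne'
  have hlt := Int.emod_lt_of_pos x hQ'
  have hj : (x % Q).toNat ∈ Finset.range Q := by
    rw [Finset.mem_range]; omega
  have h2 := hk _ hj
  have e : (fun n : ℤ => ind (cls c Q) (x + v * n)) =
      fun n => ind (cls c Q) (((x % Q).toNat : ℤ) + v * n) := by
    funext n
    rw [Int.toNat_of_nonneg hn0]
    have hiff : (x + v * n ∈ cls c Q) ↔ (x % Q + v * n ∈ cls c Q) := by
      simp only [cls, Set.mem_ofPred_eq]
      have hd : (Q : ℤ) ∣ (x + v * n - c) - (x % Q + v * n - c) := by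
        have : (x + v * n - c) - (x % Q + v * n - c) = x - x % Q := by ring
        rw [this]
        exact Int.dvd_self_sub_emod
      constructor
      · intro h
        have h3 := dvd_sub h hd
        have e3 : (x + v * n - c) - ((x + v * n - c) - (x % Q + v * n - c)) = x % Q + v * n - c := by
          ring
        rwa [e3] at h3
      · intro h
        have h3 := dvd_add hd h
        have e3 : (x + v * n - c) - (x % Q + v * n - c) + (x % Q + v * n - c) = x + v * n - c := by
          ring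
        rwa [e3] at h3
    by_cases hx : x + v * n ∈ cls c Q
    · rw [ind_of_mem hx, ind_of_mem (hiff.1 hx)]
    · rw [ind_of_notMem hx, ind_of_notMem fun h => hx (hiff.2 h)]
  rw [e]
  have := (abs_le.1 h2).2
  have h3 := h1 ((x % Q).toNat : ℤ)
  linarith

/-- class bound for the almost periodic part -/
lemma AV_cls (ha : U01 a) (hφ : Bdd φ) {k : ℕ} {c : ℤ} {Q : ℕ} {K E : ℝ}
    (hK : ∀ x : ℤ, S.nu k (fun n => ind (cls c Q) (x + v * n)) ≤ K) (t : ℤ)
    (hE : S.m (fun x => |φ (x + t) - φ x|) ≤ E) (hK0 : 0 ≤ K) :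
    S.m (fun z => ind (cls c Q) z * |AV S a v φ k (z + t) - AV S a v φ k z|) ≤ K * E := by
  have hd : Bdd (fun x => |φ (x + t) - φ x|) := ((hφ.shift t).sub hφ).abs
  have hb1 : ∀ n : ℤ, Bdd (fun z => ind (cls c Q) z * |φ (z - v * n + t) - φ (z - v * n)|) :=
    fun n => (ind_bdd _).mul (hd.comp (fun z => z - v * n))
  have h1 : ∀ z, ind (cls c Q) z * |AV S a v φ k (z + t) - AV S a v φ k z| ≤
      S.nu k (fun n => ind (cls c Q) z * |φ (z - v * n + t) - φ (z - v * n)|) := by
    intro z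
    rw [nu_smul]
    refine mul_le_mul_of_nonneg_left ?_ (ind_nonneg _ _)
    have e1 : AV S a v φ k (z + t) - AV S a v φ k z =
        S.nu k (fun n => a n * (φ (z - v * n + t) - φ (z - v * n))) := by
      unfold AV
      rw [← nu_sub]
      congr 1
      funext n
      have : z + t - v * n = z - v * n + t := by ring
      rw [this]; ring
    rw [e1]
    refine (nu_abs S k _).trans (nu_mono S k fun n => ?_)
    rw [abs_mul]
    exact mul_le_of_le_one_left (abs_nonneg _) (ha.abs_le_one n)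
  refine (S.pf.mono ((ind_bdd _).mul (((bdd_AV hφ k).shift t).sub (bdd_AV hφ k)).abs)
    (bdd_nu S k (fun n z => ind (cls c Q) z * |φ (z - v * n + t) - φ (z - v * n)|) hb1) h1).trans ?_
  rw [m_nu S k (fun n z => ind (cls c Q) z * |φ (z - v * n + t) - φ (z - v * n)|) hb1]
  have h2 : ∀ n : ℤ, S.m (fun z => ind (cls c Q) z * |φ (z - v * n + t) - φ (z - v * n)|) =
      S.m (fun x => ind (cls c Q) (x + v * n) * |φ (x + t) - φ x|) := by
    intro n
    rw [← S.m_shift (v * n) (hb1 n)]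
    refine S.pf.congr fun x => ?_
    have : x + v * n - v * n = x := by ring
    rw [this]
  simp only [h2]
  have hb2 : ∀ n : ℤ, Bdd (fun x => ind (cls c Q) (x + v * n) * |φ (x + t) - φ x|) :=
    fun n => ((ind_bdd _).comp _).mul hd
  rw [← m_nu S k (fun n x => ind (cls c Q) (x + v * n) * |φ (x + t) - φ x|) hb2]
  refine (S.pf.mono (bdd_nu S k _ hb2) (hd.smul K) fun x => ?_).trans ?_
  · rw [nu_mul_const]
    exact mul_le_mul_of_nonneg_right (hK x) (abs_nonneg _)
  · rw [S.pf.smul K hd]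
    exact mul_le_mul_of_nonneg_left hE hK0

/-- the averages are given by an average of translates -/
lemma EA_eq (u v : ℕ) (Y Y' : Set ℤ) (k : ℕ) (z : ℤ) :
    EA S u v Y Y' k z = AV S (ind Y) v (ind {y | ∃ w ∈ Y', y = u * w}) k z := by
  unfold EA AV
  congr 1
  funext n
  have hiff : (n ∈ {n : ℤ | n ∈ Y ∧ ∃ w ∈ Y', z = v * n + u * w}) ↔
      (n ∈ Y ∧ z - v * n ∈ {y : ℤ | ∃ w ∈ Y', y = u * w}) := by
    simp only [Set.mem_ofPred_eq]
    constructor
    · rintro ⟨hn, w, hw, h⟩
      exact ⟨hn, w, hw, by rw [h]; ring⟩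
    · rintro ⟨hn, w, hw, h⟩
      exact ⟨hn, w, hw, by linarith⟩
  by_cases h1 : n ∈ Y
  · by_cases h2 : z - v * n ∈ {y : ℤ | ∃ w ∈ Y', y = u * w}
    · rw [ind_of_mem (hiff.2 ⟨h1, h2⟩), ind_of_mem h1, ind_of_mem h2, one_mul]
    · rw [ind_of_notMem fun h => h2 (hiff.1 h).2, ind_of_notMem h2, mul_zero]
  · rw [ind_of_notMem fun h => h1 (hiff.1 h).1, ind_of_notMem h1, zero_mul]

lemma AV_U01 {g : ℤ → ℝ} (ha : U01 a) (hg : U01 g) (k : ℕ) : U01 (AV S a v g k) := fun _ =>
  ⟨nu_nonneg S k fun n => mul_nonneg (ha n).1 (hg _).1,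
    nu_le S k fun n => mul_le_one₀ (ha n).2 (hg _).1 (hg _).2⟩

/-- the main statement, for averages of translates of one function -/
theorem main (S : MeanSys) (h2 : M2a S) (h4 : M4 S) {v : ℕ} (hv : 0 < v) {a g : ℤ → ℝ}
    (ha : U01 a) (hg : U01 g) : ∃ A N : ℤ → ℝ, PN N ∧ U01 A ∧
    Tendsto (fun k => S.m (fun z => (AV S a v g k z - A z) ^ 2)) S.U (𝓝 0) ∧
    ∀ (c : ℤ) (Q : ℕ), 0 < Q → ∀ t : ℤ,
      S.m (fun z => ind (cls c Q) z * |A (z + t) - A z|) ≤ N t / Q := by
  obtain ⟨N, hN, h4N⟩ := h4 g hg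
  have hgb : ∀ k, U01 (AV S a v g k) := fun k => AV_U01 ha hg k
  -- (i) approximation by a fixed function
  have hB : ∀ η > (0 : ℝ), ∃ B : ℤ → ℝ, Bdd B ∧ ∀ᶠ k in (S.U : Filter ℕ),
      S.m (fun z => (AV S a v g k z - B z) ^ 2) ≤ 2 * η + 20 * η ^ 2 := by
    intro η hη
    obtain ⟨φ, hφ, hap, hwm⟩ := h4N η hη
    obtain ⟨B, hBb, hBk⟩ := AV_limit (v := v) ha hφ hN hη hap
    refine ⟨B, hBb, ?_⟩
    filter_upwards [hBk, hwm v hv] with k hk hk'
    have hhb : Bdd (fun x => g x - φ x) := hg.bdd.sub hφ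
    have h3 := AV_sq_le (S := S) (v := v) ha hhb k
    have h5 := S.pf.sq_add_le (F := fun z => AV S a v (fun x => g x - φ x) k z)
      (G := fun z => AV S a v φ k z - B z) (bdd_AV hhb k) ((bdd_AV hφ k).sub hBb)
    have e : (fun z => (AV S a v g k z - B z) ^ 2) = fun z =>
        (AV S a v (fun x => g x - φ x) k z + (AV S a v φ k z - B z)) ^ 2 := by
      funext z
      rw [AV_sub]; ring
    rw [e]
    have h6 := h3.trans hk'
    linarith
  -- a sequence of thresholds
  have hseq : ∀ r : ℕ, ∃ B : ℤ → ℝ, Bdd B ∧ ∀ᶠ k in (S.U : Filter ℕ),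
      S.m (fun z => (AV S a v g k z - B z) ^ 2) ≤ 22 * (1 / ((r : ℝ) + 1)) := by
    intro r
    have hr : (0 : ℝ) < 1 / ((r : ℝ) + 1) := by positivity
    have hr1 : 1 / ((r : ℝ) + 1) ≤ 1 := by
      rw [div_le_one (by positivity)]
      have : (0 : ℝ) ≤ r := Nat.cast_nonneg r
      linarith
    obtain ⟨B, hBb, hk⟩ := hB _ hr
    refine ⟨B, hBb, hk.mono fun k hk => hk.trans ?_⟩
    nlinarith
  choose B hBb hBev using hseq
  have hex : ∀ r : ℕ, ∃ k : ℕ, ∀ j ∈ Finset.range (r + 1),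
      S.m (fun z => (AV S a v g k z - B j z) ^ 2) ≤ 22 * (1 / ((j : ℝ) + 1)) := fun r =>
    ((Finset.eventually_all _).2 fun j _ => hBev j).exists
  choose κ hκ using hex
  have hFB : ∀ j r : ℕ, j ≤ r →
      S.m (fun z => (AV S a v g (κ r) z - B j z) ^ 2) ≤ 22 * (1 / ((j : ℝ) + 1)) := fun j r hjr =>
    hκ r j (Finset.mem_range.2 (by omega))
  have hdist : ∀ F G H : ℤ → ℝ, Bdd F → Bdd G → Bdd H →
      S.m (fun z => (F z - H z) ^ 2) ≤
        2 * S.m (fun z => (F z - G z) ^ 2) + 2 * S.m (fun z => (H z - G z) ^ 2) := by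
    intro F G H hF hG hH
    have := S.pf.sq_add_le (hF.sub hG) (hG.sub hH)
    have e1 : (fun z => (F z - G z + (G z - H z)) ^ 2) = fun z => (F z - H z) ^ 2 := by
      funext z; ring
    have e2 : (fun z => (G z - H z) ^ 2) = fun z => (H z - G z) ^ 2 := by
      funext z; ring
    rw [e1, e2] at this
    exact this
  have hsmall : ∀ ε > (0 : ℝ), ∃ j : ℕ, 22 * (1 / ((j : ℝ) + 1)) ≤ ε := by
    intro ε hε
    obtain ⟨j, hj⟩ := exists_nat_one_div_lt (show (0 : ℝ) < ε / 22 by positivity)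
    exact ⟨j, by linarith⟩
  obtain ⟨A, hA, hAlim⟩ := h2 (fun r => AV S a v g (κ r)) (fun r => hgb _) (by
    intro ε hε
    obtain ⟨j, hj⟩ := hsmall (ε / 4) (by positivity)
    refine ⟨j, fun r s hr hs => ?_⟩
    have := hdist _ (B j) _ (hgb (κ r)).bdd (hBb j) (hgb (κ s)).bdd
    have h1 := hFB j r hr
    have h3 := hFB j s hs
    linarith)
  -- convergence along the ultrafilter
  have hconv : ∀ ε > (0 : ℝ), ∀ᶠ k in (S.U : Filter ℕ),
      S.m (fun z => (AV S a v g k z - A z) ^ 2) ≤ ε := by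
    intro ε hε
    obtain ⟨j, hj⟩ := hsmall (ε / 10) (by positivity)
    obtain ⟨R, hR⟩ := hAlim (ε / 10) (by positivity)
    have h1 := hFB j (max j R) (le_max_left _ _)
    have h3 := hR (max j R) (le_max_right _ _)
    filter_upwards [hBev j] with k hk
    have h5 := hdist _ (B j) _ (hgb k).bdd (hBb j) hA.bdd
    have h6 := hdist _ (AV S a v g (κ (max j R))) _ hA.bdd (hgb _).bdd (hBb j)
    have e2 : S.m (fun z => (A z - AV S a v g (κ (max j R)) z) ^ 2) =
        S.m (fun z => (AV S a v g (κ (max j R)) z - A z) ^ 2) := S.pf.congr fun z => by ring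
    have e3 : S.m (fun z => (B j z - AV S a v g (κ (max j R)) z) ^ 2) =
        S.m (fun z => (AV S a v g (κ (max j R)) z - B j z) ^ 2) := S.pf.congr fun z => by ring
    rw [e2, e3] at h6
    linarith
  refine ⟨A, fun t => v * N t, PN.smul hN (Nat.cast_nonneg v), hA, ?_, ?_⟩
  · rw [Metric.tendsto_nhds]
    intro ε hε
    filter_upwards [hconv (ε / 2) (half_pos hε)] with k hk
    rw [Real.dist_eq, sub_zero, abs_of_nonneg (S.pf.sq_nonneg ((hgb k).bdd.sub hA.bdd))]
    linarith
  · -- class bound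
    intro c Q hQ t
    have hQ' : (0 : ℝ) < Q := by exact_mod_cast hQ
    -- for every `η` small
    have key : ∀ η > (0 : ℝ), S.m (fun z => ind (cls c Q) z * |A (z + t) - A z|) ≤
        (v / Q + η) * (N t + η) + 4 * Real.sqrt η := by
      intro η hη
      obtain ⟨φ, hφ, hap, hwm⟩ := h4N η hη
      obtain ⟨k, hk1, hk2, hk3⟩ :=
        ((hwm v hv).and ((cls_unif S v hv c hQ hη).and (hconv η hη))).exists
      have hhb : Bdd (fun x => g x - φ x) := hg.bdd.sub hφ
      set Gk : ℤ → ℝ := AV S a v g k with hGk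
      set Hk : ℤ → ℝ := AV S a v (fun x => g x - φ x) k with hHk
      set Fk : ℤ → ℝ := AV S a v φ k with hFk
      have hGb : Bdd Gk := (hgb k).bdd
      have hHb : Bdd Hk := bdd_AV hhb k
      have hFb : Bdd Fk := bdd_AV hφ k
      have hH2 : S.m (fun z => |Hk z|) ≤ Real.sqrt η := by
        refine (S.pf.abs_le_sqrt hHb).trans (Real.sqrt_le_sqrt ?_)
        exact (AV_sq_le (v := v) ha hhb k).trans hk1
      have hA2 : S.m (fun z => |Gk z - A z|) ≤ Real.sqrt η := by
        refine (S.pf.abs_le_sqrt (hGb.sub hA.bdd)).trans (Real.sqrt_le_sqrt ?_)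
        exact hk3
      have hE : S.m (fun x => |φ (x + t) - φ x|) ≤ N t + η := by
        refine (S.pf.abs_le_sqrt ((hφ.shift t).sub hφ)).trans ?_
        rw [Real.sqrt_le_left (by have := hN.nonneg t; linarith)]
        exact hap t
      have hF2 := AV_cls (v := v) ha hφ hk2 t hE (by positivity)
      have hHs : S.m (fun z => |Hk (z + t)|) = S.m (fun z => |Hk z|) :=
        S.m_shift t hHb.abs
      have hAs : S.m (fun z => |Gk (z + t) - A (z + t)|) = S.m (fun z => |Gk z - A z|) :=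
        S.m_shift t (hGb.sub hA.bdd).abs
      have hdb : Bdd (fun z => |Gk z - A z|) := (hGb.sub hA.bdd).abs
      have hpt : ∀ z, ind (cls c Q) z * |A (z + t) - A z| ≤
          (ind (cls c Q) z * |Fk (z + t) - Fk z|) +
            ((|Hk (z + t)| + |Hk z|) + (|Gk (z + t) - A (z + t)| + |Gk z - A z|)) := by
        intro z
        have e1 : ∀ y, Gk y = Hk y + Fk y := by
          intro y
          rw [hGk, hHk, hFk, AV_sub]; ring
        have h5 : |A (z + t) - A z| ≤ |Fk (z + t) - Fk z| +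
            ((|Hk (z + t)| + |Hk z|) + (|Gk (z + t) - A (z + t)| + |Gk z - A z|)) := by
          have e2 : A (z + t) - A z = (Fk (z + t) - Fk z) + (Hk (z + t) - Hk z) -
              ((Gk (z + t) - A (z + t)) - (Gk z - A z)) := by
            rw [e1, e1]; ring
          rw [e2]
          have a1 := abs_sub (Fk (z + t) - Fk z + (Hk (z + t) - Hk z))
            ((Gk (z + t) - A (z + t)) - (Gk z - A z))
          have a2 := abs_add_le (Fk (z + t) - Fk z) (Hk (z + t) - Hk z)
          have a3 := abs_sub (Hk (z + t)) (Hk z)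
          have a4 := abs_sub (Gk (z + t) - A (z + t)) (Gk z - A z)
          linarith
        have h6 := ind_nonneg (cls c Q) z
        have h7 := ind_le_one (cls c Q) z
        have h8 : 0 ≤ (|Hk (z + t)| + |Hk z|) + (|Gk (z + t) - A (z + t)| + |Gk z - A z|) := by
          positivity
        calc ind (cls c Q) z * |A (z + t) - A z| ≤ ind (cls c Q) z * (|Fk (z + t) - Fk z| +
            ((|Hk (z + t)| + |Hk z|) + (|Gk (z + t) - A (z + t)| + |Gk z - A z|))) :=
              mul_le_mul_of_nonneg_left h5 h6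
          _ = ind (cls c Q) z * |Fk (z + t) - Fk z| + ind (cls c Q) z *
            ((|Hk (z + t)| + |Hk z|) + (|Gk (z + t) - A (z + t)| + |Gk z - A z|)) := by ring
          _ ≤ _ := by
            have := mul_le_of_le_one_left h8 h7
            linarith
      have b1 : Bdd (fun z => ind (cls c Q) z * |Fk (z + t) - Fk z|) :=
        (ind_bdd _).mul ((hFb.shift t).sub hFb).abs
      have b2 : Bdd (fun z => |Hk (z + t)| + |Hk z|) := (hHb.shift t).abs.add hHb.abs
      have b3 : Bdd (fun z => |Gk (z + t) - A (z + t)| + |Gk z - A z|) := (hdb.shift t).add hdb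
      have hm := S.pf.mono ((ind_bdd (cls c Q)).mul ((hA.bdd.shift t).sub hA.bdd).abs)
        (b1.add (b2.add b3)) hpt
      rw [S.pf.add b1 (b2.add b3), S.pf.add b2 b3, S.pf.add (hHb.shift t).abs hHb.abs,
        S.pf.add (hdb.shift t) hdb, hHs, hAs] at hm
      linarith
    -- let `η → 0`
    have hlim : Tendsto (fun η : ℝ => (v / Q + η) * (N t + η) + 4 * Real.sqrt η)
        (𝓝[>] 0) (𝓝 ((v / Q + 0) * (N t + 0) + 4 * Real.sqrt 0)) := by
      refine Tendsto.mono_left ?_ nhdsWithin_le_nhds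
      have : Continuous (fun η : ℝ => (v / Q + η) * (N t + η) + 4 * Real.sqrt η) := by
        fun_prop
      exact this.tendsto 0
    have h9 := ge_of_tendsto hlim (by
      filter_upwards [self_mem_nhdsWithin] with η hη
      exact key η hη)
    rw [Real.sqrt_zero, mul_zero, add_zero, add_zero, add_zero] at h9
    calc S.m (fun z => ind (cls c Q) z * |A (z + t) - A z|) ≤ v / Q * N t := h9
      _ = v * N t / Q := by ring

end M574

/-- M5 -/
theorem m5 (S : MeanSys) (h2 : M2a S) (h4 : M4 S) : M5 S := by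
  intro u v _ hv Y Y'
  obtain ⟨A, N, hN, hA, h1, h3⟩ := M574.main S h2 h4 hv (ind_U01 Y)
    (ind_U01 {y | ∃ w ∈ Y', y = (u : ℤ) * w})
  refine ⟨A, N, hN, hA, h1.congr fun k => ?_, h3⟩
  exact S.pf.congr fun z => by rw [M574.EA_eq]

end Pool.Agent.FinA
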