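import Pool.Agent.Lib.MP_60922f_co.FIN.Stmts43

/-!
FIN, module M9, error half: after inserting the almost periodic weights `W (v n + s) W (u w + s)` and
averaging over `s < L`, the value `b (v n + u w)` may be replaced by `b (u w - s)`.
-/

set_option autoImplicit false

open Filter Topology

namespace Pool.Agent.FinA
open Pool.Agent.FinClique

/-! ### the few rules for the mean that are needed -/

namespace R39
variable (S : MeanSys) {F G : ℤ → ℝ}

theorem nuc (k : ℕ) (c : ℝ) : ∑ n ∈ S.blk k, S.wt k n * c = c := by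
  rw [← Finset.sum_mul, S.wt_sum, one_mul]

theorem badd (hF : Bdd F) (hG : Bdd G) : Bdd (fun n => F n + G n) := by
  obtain ⟨C, hC⟩ := hF
  obtain ⟨D, hD⟩ := hG
  exact ⟨C + D, fun n => (abs_add_le _ _).trans (add_le_add (hC n) (hD n))⟩

theorem bmul (hF : Bdd F) (hG : Bdd G) : Bdd (fun n => F n * G n) := by
  obtain ⟨C, hC⟩ := hF
  obtain ⟨D, hD⟩ := hG
  refine ⟨C * D, fun n => ?_⟩
  rw [abs_mul]
  exact mul_le_mul (hC n) (hD n) (abs_nonneg _) ((abs_nonneg _).trans (hC n))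

theorem bconst (c : ℝ) : Bdd (fun _ => c) := ⟨|c|, fun _ => le_rfl⟩

theorem bsmul (c : ℝ) (hF : Bdd F) : Bdd (fun n => c * F n) := bmul (bconst c) hF

theorem bshift (t : ℤ) (hF : Bdd F) : Bdd (fun n => F (n + t)) := by
  obtain ⟨C, hC⟩ := hF
  exact ⟨C, fun n => hC _⟩

theorem bcomp (g : ℤ → ℤ) (hF : Bdd F) : Bdd (fun n => F (g n)) := by
  obtain ⟨C, hC⟩ := hF
  exact ⟨C, fun n => hC _⟩

theorem bite (p : ℤ → Prop) [DecidablePred p] (hF : Bdd F) :
    Bdd (fun n => if p n then F n else 0) := by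
  obtain ⟨C, hC⟩ := hF
  refine ⟨C, fun n => ?_⟩
  dsimp only
  split_ifs
  · exact hC n
  · rw [abs_zero]; exact (abs_nonneg _).trans (hC n)

theorem bsum {ι : Type*} (s : Finset ι) {F : ι → ℤ → ℝ} (h : ∀ i ∈ s, Bdd (F i)) :
    Bdd (fun n => ∑ i ∈ s, F i n) := by
  classical
  induction s using Finset.induction_on with
  | empty => exact ⟨0, fun n => by simp⟩
  | insert i s hi ih =>
    have h1 := badd (h i (Finset.mem_insert_self _ _))
      (ih fun j hj => h j (Finset.mem_insert_of_mem hj))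
    obtain ⟨C, hC⟩ := h1
    refine ⟨C, fun n => ?_⟩
    dsimp only
    rw [Finset.sum_insert hi]
    exact hC n

theorem add (hF : Bdd F) (hG : Bdd G) : S.m (fun n => F n + G n) = S.m F + S.m G := by
  refine tendsto_nhds_unique (S.m_lim _ (badd hF hG)) ?_
  have h := (S.m_lim F hF).add (S.m_lim G hG)
  refine h.congr fun k => ?_
  rw [← Finset.sum_add_distrib]
  exact Finset.sum_congr rfl fun n _ => by ring

theorem smul (c : ℝ) (hF : Bdd F) : S.m (fun n => c * F n) = c * S.m F := by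
  refine tendsto_nhds_unique (S.m_lim _ (bsmul c hF)) ?_
  have h := (S.m_lim F hF).const_mul c
  refine h.congr fun k => ?_
  rw [Finset.mul_sum]
  exact Finset.sum_congr rfl fun n _ => by ring

theorem const (c : ℝ) : S.m (fun _ => c) = c := by
  refine tendsto_nhds_unique (S.m_lim _ (bconst c)) ?_
  simp only [nuc]
  exact tendsto_const_nhds

theorem mono (hF : Bdd F) (hG : Bdd G) (h : ∀ n, F n ≤ G n) : S.m F ≤ S.m G := by
  refine le_of_tendsto_of_tendsto' (S.m_lim F hF) (S.m_lim G hG) fun k => ?_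
  exact Finset.sum_le_sum fun n _ => mul_le_mul_of_nonneg_left (h n) (S.wt_nonneg k n)

theorem nonneg (hF : Bdd F) (h : ∀ n, 0 ≤ F n) : 0 ≤ S.m F := by
  have := mono S (bconst 0) hF h
  rwa [const] at this

theorem absb {C : ℝ} (h : ∀ n, |F n| ≤ C) : |S.m F| ≤ C := by
  have hF : Bdd F := ⟨C, h⟩
  rw [abs_le]
  constructor
  · have := mono S (bconst (-C)) hF fun n => (abs_le.mp (h n)).1
    rwa [const] at this
  · have := mono S hF (bconst C) fun n => (abs_le.mp (h n)).2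
    rwa [const] at this

theorem sum {ι : Type*} (s : Finset ι) {F : ι → ℤ → ℝ} (h : ∀ i ∈ s, Bdd (F i)) :
    S.m (fun n => ∑ i ∈ s, F i n) = ∑ i ∈ s, S.m (F i) := by
  classical
  induction s using Finset.induction_on with
  | empty => simpa using const S 0
  | insert i s hi ih =>
    rw [Finset.sum_insert hi, ← ih fun j hj => h j (Finset.mem_insert_of_mem hj),
      ← add S (h i (Finset.mem_insert_self _ _))
        (bsum s fun j hj => h j (Finset.mem_insert_of_mem hj))]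
    congr 1
    funext n
    rw [Finset.sum_insert hi]

/-- two bounded functions whose averages differ by a null sequence have equal means -/
theorem eq_of_err {F G : ℤ → ℝ} (hF : Bdd F) (hG : Bdd G) {c : ℝ}
    (h : ∀ ε > (0 : ℝ), ∀ᶠ k in (atTop : Filter ℕ),
      |∑ n ∈ S.blk k, S.wt k n * F n - c * ∑ n ∈ S.blk k, S.wt k n * G n| ≤ ε) :
    S.m F = c * S.m G := by
  have h1 : Tendsto (fun k => ∑ n ∈ S.blk k, S.wt k n * F n
      - c * ∑ n ∈ S.blk k, S.wt k n * G n) S.U (𝓝 (S.m F - c * S.m G)) :=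
    (S.m_lim F hF).sub ((S.m_lim G hG).const_mul c)
  have h2 : |S.m F - c * S.m G| ≤ 0 := by
    refine le_of_forall_pos_le_add fun ε hε => ?_
    rw [zero_add]
    exact le_of_tendsto h1.abs (S.free (h ε hε))
  have h3 := abs_nonpos_iff.mp h2
  linarith

theorem shift (t : ℤ) (hF : Bdd F) : S.m (fun n => F (n + t)) = S.m F := by
  obtain ⟨C, hC⟩ := hF
  have hC0 : 0 ≤ C := (abs_nonneg _).trans (hC 0)
  have key := eq_of_err S (F := fun n => F (n + t)) (G := F) (c := 1) ⟨C, fun n => hC _⟩ ⟨C, hC⟩ ?_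
  · simpa using key
  intro ε hε
  have h1 := S.shift_err t (ε / (C + 1)) (by positivity)
  filter_upwards [h1] with k hk
  have h2 := hk (fun n => F n / (C + 1)) fun n => by
    rw [abs_div, abs_of_pos (by linarith : (0 : ℝ) < C + 1), div_le_one (by linarith)]
    linarith [hC n]
  have h3 : ∀ G : ℤ → ℝ, ∑ n ∈ S.blk k, S.wt k n * (G n / (C + 1))
      = (∑ n ∈ S.blk k, S.wt k n * G n) / (C + 1) := fun G => by
    rw [Finset.sum_div]
    exact Finset.sum_congr rfl fun n _ => by ring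
  rw [h3 (fun n => F (n + t)), h3 F, ← sub_div, abs_div,
    abs_of_pos (by linarith : (0 : ℝ) < C + 1)] at h2
  rw [one_mul]
  exact (div_le_div_iff_of_pos_right (by linarith)).mp h2

theorem dil (r : ℕ) (hr : 0 < r) (hF : Bdd F) :
    S.m (fun n => F (r * n)) = r * S.m (fun n => if (r : ℤ) ∣ n then F n else 0) := by
  obtain ⟨C, hC⟩ := hF
  have hC0 : 0 ≤ C := (abs_nonneg _).trans (hC 0)
  refine eq_of_err S (F := fun n => F (r * n)) (G := fun n => if (r : ℤ) ∣ n then F n else 0)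
    (c := r) ⟨C, fun n => hC _⟩ (bite _ ⟨C, hC⟩) ?_
  intro ε hε
  have h1 := S.dil_err r hr (ε / (C + 1)) (by positivity)
  filter_upwards [h1] with k hk
  have h2 := hk (fun n => F n / (C + 1)) fun n => by
    rw [abs_div, abs_of_pos (by linarith : (0 : ℝ) < C + 1), div_le_one (by linarith)]
    linarith [hC n]
  have h3 : ∀ G : ℤ → ℝ, ∑ n ∈ S.blk k, S.wt k n * (G n / (C + 1))
      = (∑ n ∈ S.blk k, S.wt k n * G n) / (C + 1) := fun G => by
    rw [Finset.sum_div]
    exact Finset.sum_congr rfl fun n _ => by ring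
  have h4 : ∑ n ∈ S.blk k, S.wt k n * (if (r : ℤ) ∣ n then F n / (C + 1) else 0)
      = (∑ n ∈ S.blk k, S.wt k n * (if (r : ℤ) ∣ n then F n else 0)) / (C + 1) := by
    rw [← h3 (fun n => if (r : ℤ) ∣ n then F n else 0)]
    refine Finset.sum_congr rfl fun n _ => ?_
    split_ifs <;> simp
  rw [h3 (fun n => F (r * n)), h4, mul_div_assoc', ← sub_div, abs_div,
    abs_of_pos (by linarith : (0 : ℝ) < C + 1)] at h2
  exact (div_le_div_iff_of_pos_right (by linarith)).mp h2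

end R39

/-! ### the weight -/

/-- the tent function of a pseudonorm -/
noncomputable def psi39 (N : ℤ → ℝ) (δ : ℝ) (n : ℤ) : ℝ := max 0 (1 - N n / δ)

/-- the tent function divided by its mean -/
noncomputable def W39 (S : MeanSys) (N : ℤ → ℝ) (δ : ℝ) (n : ℤ) : ℝ :=
  psi39 N δ n / S.m (psi39 N δ)

section weight
variable {S : MeanSys} {N : ℤ → ℝ} {δ : ℝ}

theorem psi39_nonneg (n : ℤ) : 0 ≤ psi39 N δ n := le_max_left _ _

theorem psi39_le_one (hN : PN N) (hδ : 0 < δ) (n : ℤ) : psi39 N δ n ≤ 1 := by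
  unfold psi39
  have := div_nonneg (hN.nonneg n) hδ.le
  exact max_le zero_le_one (by linarith)

theorem psi39_zero (hδ : 0 < δ) {n : ℤ} (h : δ ≤ N n) : psi39 N δ n = 0 := by
  unfold psi39
  rw [max_eq_left]
  have : 1 ≤ N n / δ := by rwa [le_div_iff₀ hδ, one_mul]
  linarith

theorem psi39_lip (hN : PN N) (hδ : 0 < δ) (x t : ℤ) :
    |psi39 N δ (x + t) - psi39 N δ x| ≤ N t / δ := by
  have h1 : N (x + t) ≤ N x + N t := hN.add x t
  have h2 : N x ≤ N (x + t) + N t := by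
    have := hN.add (x + t) (-t)
    rwa [add_neg_cancel_right, hN.neg] at this
  have h3 : |(1 - N (x + t) / δ) - (1 - N x / δ)| ≤ N t / δ := by
    rw [show (1 - N (x + t) / δ) - (1 - N x / δ) = (N x - N (x + t)) / δ by ring, abs_div,
      abs_of_pos hδ]
    refine div_le_div_of_nonneg_right ?_ hδ.le
    rw [abs_le]
    constructor <;> linarith
  unfold psi39
  exact (abs_max_sub_max_le_max _ _ _ _).trans (max_le (by
    rw [sub_self, abs_zero]; exact div_nonneg (hN.nonneg t) hδ.le) h3)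

theorem psi39_bdd (hN : PN N) (hδ : 0 < δ) : Bdd (psi39 N δ) := ⟨1, fun n => by
  rw [abs_of_nonneg (psi39_nonneg n)]; exact psi39_le_one hN hδ n⟩

theorem W39_nonneg (hm : 0 < S.m (psi39 N δ)) (n : ℤ) : 0 ≤ W39 S N δ n :=
  div_nonneg (psi39_nonneg n) hm.le

theorem W39_le (hN : PN N) (hδ : 0 < δ) (hm : 0 < S.m (psi39 N δ)) (n : ℤ) :
    W39 S N δ n ≤ 1 / S.m (psi39 N δ) :=
  div_le_div_of_nonneg_right (psi39_le_one hN hδ n) hm.le

theorem W39_zero (hδ : 0 < δ) {n : ℤ} (h : δ ≤ N n) : W39 S N δ n = 0 := by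
  unfold W39
  rw [psi39_zero hδ h, zero_div]

theorem W39_bdd (hN : PN N) (hδ : 0 < δ) (hm : 0 < S.m (psi39 N δ)) : Bdd (W39 S N δ) :=
  ⟨1 / S.m (psi39 N δ), fun n => by
    rw [abs_of_nonneg (W39_nonneg hm n)]; exact W39_le hN hδ hm n⟩

theorem W39_mean (hN : PN N) (hδ : 0 < δ) (hm : 0 < S.m (psi39 N δ)) : S.m (W39 S N δ) = 1 := by
  have h := R39.smul S (1 / S.m (psi39 N δ)) (psi39_bdd hN hδ)
  have h2 : (fun n => 1 / S.m (psi39 N δ) * psi39 N δ n) = W39 S N δ := by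
    funext n
    unfold W39
    ring
  rw [h2] at h
  rw [h, one_div, inv_mul_cancel₀ hm.ne']

theorem pn_smul (hN : PN N) {c : ℝ} (hc : 0 < c) : PN (fun t => N t / c) where
  nonneg t := div_nonneg (hN.nonneg t) hc.le
  zero := by rw [hN.zero, zero_div]
  neg t := by rw [hN.neg]
  add s t := by
    rw [← add_div]
    exact div_le_div_of_nonneg_right (hN.add s t) hc.le
  tb η hη := by
    obtain ⟨P, hP⟩ := hN.tb (η * c) (mul_pos hη hc)
    refine ⟨P, fun t => ?_⟩
    obtain ⟨s, hs, h⟩ := hP t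
    exact ⟨s, hs, by rwa [div_le_iff₀ hc]⟩

theorem W39_lip (hN : PN N) (hδ : 0 < δ) (hm : 0 < S.m (psi39 N δ)) (x t : ℤ) :
    |W39 S N δ (x + t) - W39 S N δ x| ≤ N t / (δ * S.m (psi39 N δ)) := by
  unfold W39
  rw [← sub_div, abs_div, abs_of_pos hm, ← div_div]
  exact div_le_div_of_nonneg_right (psi39_lip hN hδ x t) hm.le

/-! ### averages of the weight along `y + 2 s` -/

theorem sum_range_two (g : ℕ → ℝ) (L : ℕ) :
    ∑ j ∈ Finset.range (2 * L), g j = ∑ s ∈ Finset.range L, (g (2 * s) + g (2 * s + 1)) := by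
  induction L with
  | zero => simp
  | succ L ih =>
    rw [show 2 * (L + 1) = 2 * L + 1 + 1 by ring, Finset.sum_range_succ, Finset.sum_range_succ, ih,
      Finset.sum_range_succ]
    ring

theorem crt39 {u v : ℕ} (huv : u.Coprime v) (t y : ℤ) :
    ∃ a : ℤ, ∀ s : ℤ, ((v : ℤ) ∣ t - s ∧ (u : ℤ) ∣ y + s) ↔ ((u * v : ℕ) : ℤ) ∣ s - a := by
  have hc : IsCoprime (u : ℤ) (v : ℤ) := Nat.isCoprime_iff_coprime.mpr huv
  obtain ⟨α, β, h⟩ := hc
  refine ⟨t * α * u - y * β * v, fun s => ?_⟩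
  have h1 : s - (t * α * u - y * β * v) = (s - t) + (t + y) * β * v := by
    linear_combination (-t) * h
  have h2 : s - (t * α * u - y * β * v) = (s + y) - (t + y) * α * u := by
    linear_combination y * h
  constructor
  · rintro ⟨hv, hu⟩
    push_cast
    refine IsCoprime.mul_dvd ⟨α, β, h⟩ ?_ ?_
    · rw [h2]
      exact dvd_sub (by rwa [add_comm]) (Dvd.intro_left _ rfl)
    · rw [h1]
      refine dvd_add ?_ (Dvd.intro_left _ rfl)
      rw [← neg_sub, dvd_neg]
      exact hv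
  · intro hd
    push_cast at hd
    constructor
    · have h3 : (v : ℤ) ∣ s - (t * α * u - y * β * v) := (Dvd.intro_left _ rfl).trans hd
      rw [h1] at h3
      have h4 := (dvd_add_left (Dvd.intro_left ((t + y) * β) rfl)).mp h3
      rw [← neg_sub, dvd_neg]
      exact h4
    · have h3 : (u : ℤ) ∣ s - (t * α * u - y * β * v) := (Dvd.intro _ rfl).trans hd
      rw [h2] at h3
      have h4 : (u : ℤ) ∣ (t + y) * α * u := Dvd.intro_left _ rfl
      have h5 := dvd_add h3 h4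
      rwa [sub_add_cancel, add_comm] at h5

/-- only odd moduli: the averages along `y + 2 s` come from the averages along `y + s` -/
theorem sum_two39 {W : ℤ → ℝ} (hWodd : ∀ n, ¬ Even n → W n = 0) {Q : ℕ} (hQ : Odd Q) (L : ℕ)
    (a y : ℤ) (hy : Even y) :
    ∑ s ∈ Finset.range (2 * L), (if (Q : ℤ) ∣ y + s - (y + 2 * a) then W (y + s) else 0)
      = ∑ s ∈ Finset.range L, if (Q : ℤ) ∣ s - a then W (y + 2 * s) else 0 := by
  rw [sum_range_two]
  refine Finset.sum_congr rfl fun s _ => ?_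
  have h3 : W (y + ((2 * s + 1 : ℕ) : ℤ)) = 0 := by
    refine hWodd _ ?_
    rw [Int.not_even_iff_odd]
    obtain ⟨k, hk⟩ := hy
    exact ⟨k + s, by push_cast; omega⟩
  have h4 : ((Q : ℤ) ∣ y + ((2 * s : ℕ) : ℤ) - (y + 2 * a)) ↔ (Q : ℤ) ∣ s - a := by
    rw [show y + ((2 * s : ℕ) : ℤ) - (y + 2 * a) = 2 * ((s : ℤ) - a) by push_cast; ring]
    have hc : IsCoprime (Q : ℤ) 2 := by
      have : IsCoprime ((Q : ℕ) : ℤ) ((2 : ℕ) : ℤ) :=
        Nat.isCoprime_iff_coprime.mpr (Nat.Coprime.symm (Nat.coprime_two_left.mpr hQ))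
      exact_mod_cast this
    exact ⟨fun hd => hc.dvd_of_dvd_mul_left hd, fun hd => Dvd.dvd.mul_left hd 2⟩
  have h5 : (0 : ℝ) = if (Q : ℤ) ∣ y + ((2 * s + 1 : ℕ) : ℤ) - (y + 2 * a)
        then W (y + ((2 * s + 1 : ℕ) : ℤ)) else 0 := by
    rw [h3]; simp
  rw [← h5, add_zero]
  simp only [h4]
  push_cast
  rfl

/-- the kernel of the double average is at most `2 + 2 η` -/
theorem kernelW39 {W : ℤ → ℝ} (hWodd : ∀ n, ¬ Even n → W n = 0) {u v L : ℕ} {η : ℝ}
    (hu : Odd u) (hv : Odd v) (huv : Nat.Coprime u v) (hL : 0 < L) (hη : 0 ≤ η)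
    (hU : ∀ y a : ℤ, |((u * v : ℕ) : ℝ) / ((2 * L : ℕ) : ℝ) * (∑ s ∈ Finset.range (2 * L),
      if ((u * v : ℕ) : ℤ) ∣ y + s - a then W (y + s) else 0) - 1| ≤ η) (t y : ℤ) :
    ((u * v : ℕ) : ℝ) / L * ∑ s ∈ Finset.range L,
      (if (v : ℤ) ∣ t - s then (if (u : ℤ) ∣ y + s then W (y + s + s) else 0) else 0)
      ≤ 2 + 2 * η := by
  have hLpos : (0 : ℝ) < L := by exact_mod_cast hL
  by_cases hy : Even y
  · obtain ⟨a, ha⟩ := crt39 huv t y
    have h1 := hU y (y + 2 * a)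
    rw [sum_two39 hWodd (hu.mul hv) L a y hy] at h1
    have h2 : ∀ s ∈ Finset.range L, (if (v : ℤ) ∣ t - s then
        (if (u : ℤ) ∣ y + s then W (y + s + s) else 0) else 0)
        = if ((u * v : ℕ) : ℤ) ∣ s - a then W (y + 2 * s) else 0 := by
      intro s _
      have h3 := ha s
      rw [show y + (s : ℤ) + s = y + 2 * s by ring]
      by_cases hv : (v : ℤ) ∣ t - s
      · by_cases hu : (u : ℤ) ∣ y + s
        · rw [if_pos hv, if_pos hu, if_pos (h3.mp ⟨hv, hu⟩)]
        · rw [if_pos hv, if_neg hu, if_neg fun hh => hu (h3.mpr hh).2]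
      · rw [if_neg hv, if_neg fun hh => hv (h3.mpr hh).1]
    rw [Finset.sum_congr rfl h2]
    set X := ∑ s ∈ Finset.range L, (if ((u * v : ℕ) : ℤ) ∣ s - a then W (y + 2 * s) else 0)
      with hX
    have h3 := (abs_le.mp h1).2
    have h6 : ((u * v : ℕ) : ℝ) / L * X = 2 * (((u * v : ℕ) : ℝ) / ((2 * L : ℕ) : ℝ) * X) := by
      rw [Nat.cast_mul 2 L, Nat.cast_ofNat]
      field_simp
    rw [h6]
    linarith
  · have h2 : ∀ s ∈ Finset.range L, (if (v : ℤ) ∣ t - s then
        (if (u : ℤ) ∣ y + s then W (y + s + s) else 0) else 0) = 0 := by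
      intro s _
      have h3 : W (y + s + s) = 0 := by
        refine hWodd _ fun he => hy ?_
        rw [show y + (s : ℤ) + s = y + 2 * s by ring] at he
        rwa [Int.even_add, iff_true_right ⟨(s : ℤ), by ring⟩] at he
      rw [h3]
      simp
    rw [Finset.sum_congr rfl h2, Finset.sum_const_zero, mul_zero]
    linarith

/-- the error half of M9: `b (v n + u w)` may be replaced by `b (u w - s)` -/
theorem err39 (S : MeanSys) (W N : ℤ → ℝ) (δ κ η : ℝ) (u v L : ℕ) (hu : Odd u) (hv : Odd v)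
    (huv : Nat.Coprime u v) (hL : 0 < L) (hη : 0 ≤ η) (hW0 : ∀ n, 0 ≤ W n) (hWb : Bdd W)
    (hWodd : ∀ n, ¬ Even n → W n = 0) (hWN : ∀ t, W t ≠ 0 → N t ≤ δ) (hWm : S.m W = 1)
    (hδκ : 0 ≤ δ + κ)
    (hU : ∀ y a : ℤ, |((u * v : ℕ) : ℝ) / ((2 * L : ℕ) : ℝ) * (∑ s ∈ Finset.range (2 * L),
      if ((u * v : ℕ) : ℤ) ∣ y + s - a then W (y + s) else 0) - 1| ≤ η)
    (b : ℤ → ℝ) (hb : U01 b) (hbN : ∀ t, S.m (fun n => |b (n + t) - b n|) ≤ N t + κ) :
    (1 / (L : ℝ)) * ∑ s ∈ Finset.range L, S.m (fun n => S.m (fun w =>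
      W (v * n + s) * W (u * w + s) * |b (v * n + u * w) - b (u * w - s)|))
      ≤ (2 + 2 * η) * (δ + κ) := by
  have hLpos : (0 : ℝ) < L := by exact_mod_cast hL
  have hu0 : 0 < u := hu.pos
  have hv0 : 0 < v := hv.pos
  have hK := kernelW39 hWodd hu hv huv hL hη hU
  obtain ⟨B, hB⟩ := hWb
  have hB0 : 0 ≤ B := (abs_nonneg _).trans (hB 0)
  -- the difference function
  have hd : ∀ x y, |b x - b y| ≤ 1 := fun x y => by
    rw [abs_le]
    constructor <;> linarith [(hb x).1, (hb x).2, (hb y).1, (hb y).2]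
  have hgB : ∀ (s : ℕ) (t : ℤ), Bdd (fun y => if (u : ℤ) ∣ y + s then
      W (y + s + s) * |b (y + t) - b y| else 0) := fun s t => ⟨B, fun y => by
    dsimp only
    split_ifs
    · rw [abs_mul, abs_abs]
      exact (mul_le_mul (hB _) (hd _ _) (abs_nonneg _) hB0).trans (by rw [mul_one])
    · rw [abs_zero]; exact hB0⟩
  obtain ⟨Φ, hΦ⟩ : ∃ Φ : ℕ → ℤ → ℝ, Φ = fun (s : ℕ) (t : ℤ) =>
      W t * (u * S.m (fun y => if (u : ℤ) ∣ y + s then W (y + s + s) * |b (y + t) - b y| else 0)) := ⟨_, rfl⟩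
  have hΦB : ∀ s, Bdd (Φ s) := by
    intro s
    rw [hΦ]
    refine ⟨B * (u * B), fun t => ?_⟩
    dsimp only
    rw [abs_mul, abs_mul]
    refine mul_le_mul (hB t) ?_ (by positivity) hB0
    rw [abs_of_nonneg (Nat.cast_nonneg u)]
    refine mul_le_mul_of_nonneg_left ?_ (Nat.cast_nonneg u)
    refine R39.absb S fun y => ?_
    split_ifs
    · rw [abs_mul, abs_abs]
      exact (mul_le_mul (hB _) (hd _ _) (abs_nonneg _) hB0).trans (by rw [mul_one])
    · rw [abs_zero]; exact hB0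
  -- step 1: the inner mean
  have step1 : ∀ (s : ℕ) (n : ℤ), S.m (fun w => W (v * n + s) * W (u * w + s)
      * |b (v * n + u * w) - b (u * w - s)|) = Φ s (v * n + s) := by
    intro s n
    have hFB : Bdd (fun x => W (x + s) * |b (x + v * n) - b (x - s)|) := ⟨B, fun x => by
      rw [abs_mul, abs_abs]
      exact (mul_le_mul (hB _) (hd _ _) (abs_nonneg _) hB0).trans (by rw [mul_one])⟩
    have e1 : (fun w : ℤ => W (v * n + s) * W (u * w + s) * |b (v * n + u * w) - b (u * w - s)|)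
        = fun w => W (v * n + s) * (fun x => W (x + s) * |b (x + v * n) - b (x - s)|) (u * w) := by
      funext w
      dsimp only
      rw [add_comm (v * n : ℤ) (u * w)]
      ring
    rw [e1, R39.smul S _ (R39.bcomp (fun w => u * w) hFB), R39.dil S u hu0 hFB,
      ← R39.shift S (s : ℤ) (R39.bite _ hFB), hΦ]
    dsimp only
    congr 3
    funext y
    rw [show y + (s : ℤ) + v * n = y + (v * n + s) by ring,
      show y + (s : ℤ) - s = y by ring]
  -- step 2: the outer mean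
  have step2 : ∀ s : ℕ, S.m (fun n => Φ s (v * n + s))
      = v * S.m (fun t => if (v : ℤ) ∣ t - s then Φ s t else 0) := by
    intro s
    have hGB : Bdd (fun x => Φ s (x + s)) := R39.bshift _ (hΦB s)
    have h1 := R39.dil S v hv0 hGB
    rw [h1, ← R39.shift S (-(s : ℤ)) (R39.bite _ hGB)]
    congr 2
    funext t
    rw [← sub_eq_add_neg, sub_add_cancel]
  have step3 : ∀ s ∈ Finset.range L, S.m (fun n => S.m (fun w => W (v * n + s) * W (u * w + s)
      * |b (v * n + u * w) - b (u * w - s)|))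
      = S.m (fun t => v * (if (v : ℤ) ∣ t - s then Φ s t else 0)) := by
    intro s _
    rw [R39.smul S _ (R39.bite _ (hΦB s)), ← step2]
    congr 1
    funext n
    exact step1 s n
  rw [Finset.sum_congr rfl step3]
  have hTB : ∀ s ∈ Finset.range L, Bdd (fun t => (v : ℝ) * (if (v : ℤ) ∣ t - s then Φ s t else 0)) :=
    fun s _ => R39.bsmul _ (R39.bite _ (hΦB s))
  rw [← R39.sum S _ hTB, ← R39.smul S _ (R39.bsum _ hTB)]
  -- step 4: pointwise bound
  have hpt : ∀ t : ℤ, 1 / (L : ℝ) * ∑ s ∈ Finset.range L,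
      (v : ℝ) * (if (v : ℤ) ∣ t - s then Φ s t else 0) ≤ (2 + 2 * η) * (δ + κ) * W t := by
    intro t
    rcases (hW0 t).eq_or_lt with h0 | h0
    · have : ∀ s ∈ Finset.range L, (v : ℝ) * (if (v : ℤ) ∣ t - s then Φ s t else 0) = 0 := by
        intro s _
        rw [hΦ]
        dsimp only
        rw [← h0]
        simp
      rw [Finset.sum_congr rfl this, Finset.sum_const_zero, mul_zero, ← h0, mul_zero]
    · have hNt := hWN t h0.ne'
      -- rewrite as one mean
      have hsB : ∀ s ∈ Finset.range L, Bdd (fun y => (if (v : ℤ) ∣ t - s then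
          (if (u : ℤ) ∣ y + s then W (y + s + s) else 0) else 0) * |b (y + t) - b y|) := by
        intro s _
        refine ⟨B, fun y => ?_⟩
        rw [abs_mul, abs_abs]
        refine (mul_le_mul ?_ (hd _ _) (abs_nonneg _) hB0).trans (by rw [mul_one])
        split_ifs
        · exact hB _
        · rw [abs_zero]; exact hB0
        · rw [abs_zero]; exact hB0
      have e1 : ∀ s ∈ Finset.range L, (v : ℝ) * (if (v : ℤ) ∣ t - s then Φ s t else 0)
          = W t * ((u * v : ℕ) * S.m (fun y => (if (v : ℤ) ∣ t - s then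
            (if (u : ℤ) ∣ y + s then W (y + s + s) else 0) else 0) * |b (y + t) - b y|)) := by
        intro s _
        by_cases hvs : (v : ℤ) ∣ t - s
        · simp only [if_pos hvs]
          rw [hΦ]
          dsimp only
          have e2 : (fun y : ℤ => (if (u : ℤ) ∣ y + s then W (y + s + s) else 0)
              * |b (y + t) - b y|) = fun y => if (u : ℤ) ∣ y + s then
                W (y + s + s) * |b (y + t) - b y| else 0 := by
            funext y
            split_ifs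
            · rfl
            · rw [zero_mul]
          rw [e2]
          push_cast
          ring
        · simp only [if_neg hvs, mul_zero, zero_mul]
          rw [R39.const, mul_zero, mul_zero]
      rw [Finset.sum_congr rfl e1, ← Finset.mul_sum, ← Finset.mul_sum, ← R39.sum S _ hsB]
      have e3 : 1 / (L : ℝ) * (W t * ((u * v : ℕ) * S.m (fun y => ∑ s ∈ Finset.range L,
          (if (v : ℤ) ∣ t - s then (if (u : ℤ) ∣ y + s then W (y + s + s) else 0) else 0)
            * |b (y + t) - b y|)))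
          = W t * S.m (fun y => ((u * v : ℕ) : ℝ) / L * ∑ s ∈ Finset.range L,
          (if (v : ℤ) ∣ t - s then (if (u : ℤ) ∣ y + s then W (y + s + s) else 0) else 0)
            * |b (y + t) - b y|) := by
        rw [R39.smul S _ (R39.bsum _ hsB)]
        ring
      rw [e3]
      have hdB : Bdd (fun y => |b (y + t) - b y|) := ⟨1, fun y => by rw [abs_abs]; exact hd _ _⟩
      have h5 : S.m (fun y => ((u * v : ℕ) : ℝ) / L * ∑ s ∈ Finset.range L,
          (if (v : ℤ) ∣ t - s then (if (u : ℤ) ∣ y + s then W (y + s + s) else 0) else 0)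
            * |b (y + t) - b y|) ≤ S.m (fun y => (2 + 2 * η) * |b (y + t) - b y|) := by
        refine R39.mono S (R39.bsmul _ (R39.bsum _ hsB)) (R39.bsmul _ hdB) fun y => ?_
        rw [← Finset.sum_mul, ← mul_assoc]
        exact mul_le_mul_of_nonneg_right (hK t y) (abs_nonneg _)
      rw [R39.smul S _ hdB] at h5
      have h6 := hbN t
      have h7 : S.m (fun y => |b (y + t) - b y|) ≤ δ + κ := h6.trans (by linarith)
      have h8' : (2 + 2 * η) * S.m (fun y => |b (y + t) - b y|) ≤ (2 + 2 * η) * (δ + κ) :=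
        mul_le_mul_of_nonneg_left h7 (by linarith)
      calc _ ≤ W t * ((2 + 2 * η) * (δ + κ)) :=
            mul_le_mul_of_nonneg_left (h5.trans h8') (hW0 t)
        _ = (2 + 2 * η) * (δ + κ) * W t := by ring
  have hWB : Bdd W := ⟨B, hB⟩
  have h9 := R39.mono S (R39.bsmul _ (R39.bsum _ hTB)) (R39.bsmul ((2 + 2 * η) * (δ + κ)) hWB) hpt
  rw [R39.smul S _ hWB, hWm, mul_one] at h9
  exact h9

theorem W39_avg2 (h8 : M8 S) (hN : PN N) (hδ : 0 < δ) (hodd : ∀ t, ¬ Even t → δ ≤ N t)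
    (hm : 0 < S.m (psi39 N δ)) {η : ℝ} (hη : 0 < η) :
    ∃ M : ℕ, 0 < M ∧ ∀ Q : ℕ, 0 < Q → Odd Q → Q.Coprime M → ∃ L₀ : ℕ, 0 < L₀ ∧
      ∀ L : ℕ, L₀ ≤ L → ∀ a y : ℤ, Even y →
        |(Q : ℝ) / L * (∑ s ∈ Finset.range L,
          if (Q : ℤ) ∣ s - a then W39 S N δ (y + 2 * s) else 0) - 2| ≤ η := by
  obtain ⟨M, hM, h⟩ := h8 (W39 S N δ) (fun t => N t / (δ * S.m (psi39 N δ)))
    (pn_smul hN (mul_pos hδ hm)) (W39_lip hN hδ hm) (η / 2) (by positivity)
  refine ⟨M, hM, fun Q hQ hQo hQM => ?_⟩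
  obtain ⟨L₀, hL₀, hL⟩ := h Q hQ hQM
  refine ⟨L₀, hL₀, fun L hLL a y hy => ?_⟩
  have hLpos : (0 : ℝ) < L := by exact_mod_cast lt_of_lt_of_le hL₀ hLL
  have h1 := hL (2 * L) (by omega) y (y + 2 * a)
  rw [W39_mean hN hδ hm, sum_range_two] at h1
  have h2 : ∀ s ∈ Finset.range L,
      ((if (Q : ℤ) ∣ y + ((2 * s : ℕ) : ℤ) - (y + 2 * a) then W39 S N δ (y + ((2 * s : ℕ) : ℤ))
          else 0)
        + (if (Q : ℤ) ∣ y + ((2 * s + 1 : ℕ) : ℤ) - (y + 2 * a)
          then W39 S N δ (y + ((2 * s + 1 : ℕ) : ℤ)) else 0))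
      = if (Q : ℤ) ∣ s - a then W39 S N δ (y + 2 * s) else 0 := by
    intro s _
    have h3 : W39 S N δ (y + ((2 * s + 1 : ℕ) : ℤ)) = 0 := by
      refine W39_zero hδ (hodd _ ?_)
      rw [Int.not_even_iff_odd]
      obtain ⟨k, hk⟩ := hy
      exact ⟨k + s, by push_cast; omega⟩
    have h4 : ((Q : ℤ) ∣ y + ((2 * s : ℕ) : ℤ) - (y + 2 * a)) ↔ (Q : ℤ) ∣ s - a := by
      rw [show y + ((2 * s : ℕ) : ℤ) - (y + 2 * a) = 2 * ((s : ℤ) - a) by push_cast; ring]
      have hc : IsCoprime (Q : ℤ) 2 := by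
        have : IsCoprime ((Q : ℕ) : ℤ) ((2 : ℕ) : ℤ) :=
          Nat.isCoprime_iff_coprime.mpr (Nat.Coprime.symm (Nat.coprime_two_left.mpr hQo))
        exact_mod_cast this
      exact ⟨fun hd => hc.dvd_of_dvd_mul_left hd, fun hd => Dvd.dvd.mul_left hd 2⟩
    have h5 : (0 : ℝ) = if (Q : ℤ) ∣ y + ((2 * s + 1 : ℕ) : ℤ) - (y + 2 * a)
          then W39 S N δ (y + ((2 * s + 1 : ℕ) : ℤ)) else 0 := by
      rw [h3]; simp
    rw [← h5, add_zero]
    simp only [h4]
    push_cast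
    rfl
  rw [Finset.sum_congr rfl h2] at h1
  set X := ∑ s ∈ Finset.range L, (if (Q : ℤ) ∣ s - a then W39 S N δ (y + 2 * s) else 0) with hX
  have h6 : (Q : ℝ) / L * X - 2 = 2 * ((Q : ℝ) / ((2 * L : ℕ) : ℝ) * X - 1) := by
    push_cast
    field_simp
  rw [h6, abs_mul, abs_of_pos (by norm_num : (0 : ℝ) < 2)]
  linarith

/-- the same for the normalised tent function of a pseudonorm, from M8 -/
theorem err39_M8 (h8 : M8 S) (hN : PN N) (hδ : 0 < δ) (hodd : ∀ t, ¬ Even t → δ ≤ N t)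
    (hm : 0 < S.m (psi39 N δ)) {η : ℝ} (hη : 0 < η) :
    ∃ M : ℕ, 0 < M ∧ ∀ u v : ℕ, u.Coprime v → Odd u → Odd v →
      (u * v).Coprime M → ∃ L₀ : ℕ, 0 < L₀ ∧ ∀ L : ℕ, L₀ ≤ L → ∀ (κ : ℝ) (b : ℤ → ℝ), 0 ≤ κ →
        U01 b → (∀ t, S.m (fun n => |b (n + t) - b n|) ≤ N t + κ) →
        1 / (L : ℝ) * ∑ s ∈ Finset.range L, S.m (fun n => S.m (fun w =>
          W39 S N δ (v * n + s) * W39 S N δ (u * w + s)
            * |b (v * n + u * w) - b (u * w - s)|)) ≤ (2 + 2 * η) * (δ + κ) := by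
  obtain ⟨M, hM, h⟩ := h8 (W39 S N δ) (fun t => N t / (δ * S.m (psi39 N δ)))
    (pn_smul hN (mul_pos hδ hm)) (W39_lip hN hδ hm) η hη
  refine ⟨M, hM, fun u v huv hu hv hQM => ?_⟩
  obtain ⟨L₀, hL₀, hL⟩ := h (u * v) (Nat.mul_pos hu.pos hv.pos) hQM
  refine ⟨L₀, hL₀, fun L hLL κ b hκ hb hbN => ?_⟩
  refine err39 S (W39 S N δ) N δ κ η u v L hu hv huv (lt_of_lt_of_le hL₀ hLL) hη.le
    (W39_nonneg hm) (W39_bdd hN hδ hm) (fun n hn => W39_zero hδ (hodd n hn))
    (fun t ht => ?_) (W39_mean hN hδ hm) (by linarith) (fun y a => ?_) b hb hbN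
  · by_contra hc
    exact ht (W39_zero hδ (le_of_not_ge hc))
  · have := hL (2 * L) (by omega) y a
    rwa [W39_mean hN hδ hm] at this

end weight

end Pool.Agent.FinA
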