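import Pool.Agent.Lib.MP_60922f_co.FIN.Glue99
import Pool.Agent.Lib.MP_60922f_co.FIN.M5_74
import Pool.Agent.Lib.MP_60922f_co.FIN.M9_43
import Pool.Agent.Lib.MP_60922f_co.FIN.M12_82
import Pool.Agent.Lib.MP_60922f_co.FIN.ChainD82

/-!
FIN: final theorems.
-/

set_option autoImplicit false

namespace Pool.Agent.FinA
open Pool.Agent.FinClique

/-- no infinite clique with positively many common extensions: then `f` is stable -/
theorem stabAff_of_posBad (S : MeanSys) {f : ℕ → Bool} (hf : PosBad S f) :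
    StabAff (mu S) f :=
  stabAff_of_cells S
    (m11 S m6 (P67.m10 S (m5 S (m2a S) (m4 S)) (m9 S (P67.m7 S) (m8 S m6)))) f
    (cells_of_posBad S hf)

theorem stab_of_posBad (S : MeanSys) {f : ℕ → Bool} (hf : PosBad S f) : Stab (mu S) f :=
  (stabAff_of_posBad S hf).stab

/-- thin a sequence so that it grows faster than `h` -/
theorem thin {a : ℕ → ℕ} (ha : StrictMono a) (h : ℕ → ℕ) :
    ∃ g : ℕ → ℕ, StrictMono g ∧ ∀ i j, i < j → h (a (g i)) < a (g j) := by
  let g : ℕ → ℕ := fun n => Nat.rec 0 (fun _ r => max (r + 1) (h (a r) + 1)) n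
  have hg : ∀ n, g (n + 1) = max (g n + 1) (h (a (g n)) + 1) := fun n => rfl
  have hmono : StrictMono g := strictMono_nat_of_lt_succ fun n => by
    rw [hg]; exact (Nat.lt_succ_self _).trans_le (le_max_left _ _)
  refine ⟨g, hmono, fun i j hij => ?_⟩
  have h1 : h (a (g i)) < g (i + 1) := by
    rw [hg]; exact (Nat.lt_succ_self _).trans_le (le_max_right _ _)
  exact h1.trans_le ((ha.id_le _).trans (ha.monotone (hmono.monotone hij)))

/-- dichotomy: an infinite clique, or finite cliques of every size together with their elements;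
in both cases positively many common extensions -/
theorem dichotomy (f : ℕ → Bool) :
    (∃ (c : Bool) (a : ℕ → ℕ), StrictMono a ∧ (∀ i, 1 ≤ a i) ∧
      (∀ i j, i < j → f (a i + a j) = c ∧ f (a i * a j) = c) ∧
      ∀ k, PosULD {y | ∀ i < k, f (a i + y) = c ∧ f (a i * y) = c}) ∨
    (∀ (K : ℕ) (h : ℕ → ℕ), ∃ (c : Bool) (x : Fin K → ℕ) (Y : Set ℕ), StrictMono x ∧
      (∀ i, 1 ≤ x i) ∧ (∀ i j, i < j → h (x i) < x j) ∧ (∀ i, f (x i) = c) ∧
      (∀ i j, i < j → f (x i + x j) = c ∧ f (x i * x j) = c) ∧ PosULD Y ∧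
      ∀ y ∈ Y, f y = c ∧ ∀ i, x i < y ∧ h (x i) < y ∧ f (x i + y) = c ∧ f (x i * y) = c) := by
  by_cases hf : PosBad meanSys55 f
  · right
    intro K h
    obtain ⟨x, Y, c, h1, h2, h3, h4, h5, h6, h7⟩ := clique_plus (subMean meanSys55)
      (mu_dil_pos meanSys55) (stab_of_posBad meanSys55 hf) K h
    exact ⟨c, x, Y, h1, h2, h3, h5, h6, posULD_of_mu Y h4, h7⟩
  · left
    unfold PosBad at hf
    push Not at hf
    obtain ⟨a, c, h1, h2, h3, h4⟩ := hf
    exact ⟨c, a, h1, h2, h3, fun k => posULD_of_mu _ (h4 k)⟩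

/-- FIN+ -/
theorem fin_plus (f : ℕ → Bool) (K : ℕ) (h : ℕ → ℕ) :
    ∃ (c : Bool) (x : Fin K → ℕ) (Y : Set ℕ), StrictMono x ∧ (∀ i, 1 ≤ x i) ∧
      (∀ i j, i < j → h (x i) < x j) ∧
      (∀ i j, i < j → f (x i + x j) = c ∧ f (x i * x j) = c) ∧
      (∀ y ∈ Y, ∀ i, f (x i + y) = c ∧ f (x i * y) = c) ∧ PosULD Y := by
  rcases dichotomy f with ⟨c, a, h1, h2, h3, h4⟩ | H
  · obtain ⟨g, hg, hh⟩ := thin h1 h
    refine ⟨c, fun i => a (g i), _, fun i j hij => h1 (hg hij), fun i => h2 _,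
      fun i j hij => hh i j hij, fun i j hij => h3 _ _ (hg hij), ?_, h4 (g K)⟩
    intro y hy i
    exact hy (g i) (hg i.2)
  · obtain ⟨c, x, Y, h1, h2, h3, _, h5, h6, h7⟩ := H K h
    exact ⟨c, x, Y, h1, h2, h3, h5, fun y hy i => ((h7 y hy).2 i).2.2, h6⟩

end Pool.Agent.FinA
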