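import Pool.Agent.Lib.MP_60922f_co.FIN.Prime67

/-! FIN, module M10: almost everywhere positivity from M5 and M9. -/

set_option autoImplicit false

namespace Pool.Agent.FinA.P67
open Filter Topology Pool.Agent.FIN Pool.Agent.FinA

variable (S : MeanSys)

lemma m_shift1 (t : ℤ) {F : ℤ → ℝ} (hF : ∀ n, |F n| ≤ 1) : S.m (fun n => F (n + t)) = S.m F := by
  have hb : Bdd F := ⟨1, hF⟩
  have h3 := ((S.m_lim _ (bdd_comp hb fun n => n + t)).sub (S.m_lim _ hb)).abs
  have h4 : ∀ ε > (0 : ℝ), |S.m (fun n => F (n + t)) - S.m F| ≤ ε := by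
    intro ε hε
    refine le_of_tendsto h3 ?_
    exact ((S.shift_err t ε hε).filter_mono S.free).mono fun k hk => hk F hF
  have h5 : |S.m (fun n => F (n + t)) - S.m F| ≤ 0 :=
    le_of_forall_pos_le_add fun ε hε => by rw [zero_add]; exact h4 ε hε
  exact sub_eq_zero.mp (abs_nonpos_iff.mp h5)

lemma m_shift (t : ℤ) {F : ℤ → ℝ} (hF : Bdd F) : S.m (fun n => F (n + t)) = S.m F := by
  obtain ⟨C, hC⟩ := hF
  have hF : Bdd F := ⟨C, hC⟩
  set D : ℝ := |C| + 1 with hD
  have hD0 : 0 < D := by positivity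
  have hFD : ∀ n, |D⁻¹ * F n| ≤ 1 := by
    intro n
    rw [abs_mul, abs_of_pos (inv_pos.mpr hD0), inv_mul_le_iff₀ hD0, mul_one]
    exact (hC n).trans ((le_abs_self C).trans (by rw [hD]; linarith))
  have h1 := m_shift1 S t hFD
  rw [m_smul S D⁻¹ (bdd_comp hF fun n => n + t), m_smul S D⁻¹ hF] at h1
  exact mul_left_cancel₀ (inv_ne_zero hD0.ne') h1

lemma u01_bdd {F : ℤ → ℝ} (hF : U01 F) : Bdd F :=
  ⟨1, fun n => by rw [abs_of_nonneg (hF n).1]; exact (hF n).2⟩

lemma bdd_ind (A : Set ℤ) : Bdd (ind A) := by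
  refine ⟨1, fun n => ?_⟩
  unfold ind
  split_ifs <;> simp

lemma ind_nonneg (A : Set ℤ) (n : ℤ) : 0 ≤ ind A n := by unfold ind; split_ifs <;> simp

lemma ind_of_mem {A : Set ℤ} {n : ℤ} (h : n ∈ A) : ind A n = 1 := by unfold ind; rw [if_pos h]

lemma ind_of_not_mem {A : Set ℤ} {n : ℤ} (h : n ∉ A) : ind A n = 0 := by
  unfold ind; rw [if_neg h]

lemma ind_congr {A B : Set ℤ} {n k : ℤ} (h : n ∈ A ↔ k ∈ B) : ind A n = ind B k := by
  by_cases h1 : n ∈ A
  · rw [ind_of_mem h1, ind_of_mem (h.mp h1)]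
  · rw [ind_of_not_mem h1, ind_of_not_mem fun h2 => h1 (h.mpr h2)]

lemma ind_le_one (A : Set ℤ) (n : ℤ) : ind A n ≤ 1 := by unfold ind; split_ifs <;> simp

lemma bdd_abs {F : ℤ → ℝ} (hF : Bdd F) : Bdd fun n => |F n| := by
  obtain ⟨C, hC⟩ := hF
  exact ⟨C, fun n => by rw [abs_abs]; exact hC n⟩

lemma bdd_sq {F : ℤ → ℝ} (hF : Bdd F) : Bdd fun n => F n ^ 2 := by
  refine Eq.subst (motive := Bdd) ?_ (bdd_mul hF hF)
  ext n; rw [sq]

lemma m_cls (c : ℤ) {Q : ℕ} (hQ : 0 < Q) : S.m (ind (cls c Q)) = 1 / Q := by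
  rw [← m_dv S hQ, ← m_shift S (-c) (bdd_dv Q)]
  congr 1
  ext n
  unfold ind cls dv
  simp only [Set.mem_ofPred_eq, sub_eq_add_neg]

/-- Cauchy-Schwarz for the mean of the absolute value -/
lemma m_abs_sq {F : ℤ → ℝ} (hF : Bdd F) : S.m (fun n => |F n|) ^ 2 ≤ S.m (fun n => F n ^ 2) := by
  set a := S.m (fun n => |F n|) with ha
  have h0 : 0 ≤ S.m (fun n => (|F n| - a) ^ 2) :=
    m_nonneg S (bdd_sq (bdd_sub (bdd_abs hF) (bdd_const a))) fun n => sq_nonneg _
  have h1 : (fun n => (|F n| - a) ^ 2) = fun n => (F n ^ 2 - 2 * a * |F n|) + a ^ 2 := by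
    ext n
    rw [sub_sq, sq_abs]; ring
  rw [h1, m_add S (bdd_sub (bdd_sq hF) (bdd_smul _ (bdd_abs hF))) (bdd_const _),
    m_sub S (bdd_sq hF) (bdd_smul _ (bdd_abs hF)), m_smul S _ (bdd_abs hF), m_const, ← ha] at h0
  nlinarith

lemma m_abs_mono {F : ℤ → ℝ} (hF : Bdd F) : |S.m F| ≤ S.m (fun n => |F n|) := by
  rw [abs_le]
  constructor
  · have := m_mono S (bdd_smul (-1) (bdd_abs hF)) hF fun n => by
      have := neg_abs_le (F n); linarith
    rw [m_smul S _ (bdd_abs hF)] at this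
    linarith
  · exact m_mono S hF (bdd_abs hF) fun n => le_abs_self _

/-- Markov inequality for squares -/
lemma m_markov {F : ℤ → ℝ} (hF : Bdd F) {c : ℝ} (hc : 0 < c) :
    S.m (ind {z | c ≤ |F z|}) ≤ S.m (fun n => F n ^ 2) / c ^ 2 := by
  rw [le_div_iff₀ (by positivity), mul_comm, ← m_smul S _ (bdd_ind _)]
  refine m_mono S (bdd_smul _ (bdd_ind _)) (bdd_sq hF) fun n => ?_
  unfold ind
  split_ifs with h
  · simp only [Set.mem_ofPred_eq] at h
    rw [mul_one, ← sq_abs (F n)]
    exact pow_le_pow_left₀ hc.le h 2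
  · rw [mul_zero]; exact sq_nonneg _

/-! ### pseudonorms -/

lemma PN.smul {N : ℤ → ℝ} (hN : PN N) {c : ℝ} (hc : 0 ≤ c) : PN fun t => c * N t where
  nonneg t := mul_nonneg hc (hN.nonneg t)
  zero := by rw [hN.zero, mul_zero]
  neg t := by rw [hN.neg]
  add s t := by rw [← mul_add]; exact mul_le_mul_of_nonneg_left (hN.add s t) hc
  tb η hη := by
    obtain ⟨P, hP⟩ := hN.tb (η / (c + 1)) (by positivity)
    refine ⟨P, fun t => ?_⟩
    obtain ⟨s, hs, h⟩ := hP t
    refine ⟨s, hs, ?_⟩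
    have h1 : c * N (t - s) ≤ c * (η / (c + 1)) := mul_le_mul_of_nonneg_left h hc
    have h2 : c * (η / (c + 1)) ≤ η := by
      rw [mul_div_assoc', div_le_iff₀ (by positivity)]
      nlinarith
    exact h1.trans h2

lemma PN.addN {N N' : ℤ → ℝ} (hN : PN N) (hN' : PN N') : PN fun t => N t + N' t where
  nonneg t := add_nonneg (hN.nonneg t) (hN'.nonneg t)
  zero := by rw [hN.zero, hN'.zero, add_zero]
  neg t := by rw [hN.neg, hN'.neg]
  add s t := by have h1 := hN.add s t; have h2 := hN'.add s t; linarith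
  tb η hη := by
    classical
    obtain ⟨P, hP⟩ := hN.tb (η / 4) (by positivity)
    obtain ⟨P', hP'⟩ := hN'.tb (η / 4) (by positivity)
    have key : ∀ p : ℤ × ℤ, ∃ s : ℤ, (∃ t, N (t - p.1) ≤ η / 4 ∧ N' (t - p.2) ≤ η / 4) →
        N (s - p.1) ≤ η / 4 ∧ N' (s - p.2) ≤ η / 4 := by
      intro p
      by_cases h : ∃ t, N (t - p.1) ≤ η / 4 ∧ N' (t - p.2) ≤ η / 4
      · obtain ⟨t, ht⟩ := h
        exact ⟨t, fun _ => ht⟩
      · exact ⟨0, fun h' => absurd h' h⟩
    choose s hs using key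
    refine ⟨(P ×ˢ P').image s, fun t => ?_⟩
    obtain ⟨p, hp, h1⟩ := hP t
    obtain ⟨p', hp', h2⟩ := hP' t
    refine ⟨s (p, p'), Finset.mem_image_of_mem _ (Finset.mk_mem_product hp hp'), ?_⟩
    obtain ⟨h3, h4⟩ := hs (p, p') ⟨t, h1, h2⟩
    simp only at h3 h4
    have h5 : N (t - s (p, p')) ≤ N (t - p) + N (s (p, p') - p) := by
      have := hN.add (t - p) (-(s (p, p') - p))
      rw [hN.neg] at this
      convert this using 2
      ring
    have h6 : N' (t - s (p, p')) ≤ N' (t - p') + N' (s (p, p') - p') := by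
      have := hN'.add (t - p') (-(s (p, p') - p'))
      rw [hN'.neg] at this
      convert this using 2
      ring
    linarith

lemma PN.zeroN : PN fun _ => 0 where
  nonneg _ := le_rfl
  zero := rfl
  neg _ := rfl
  add _ _ := by norm_num
  tb η hη := ⟨{0}, fun _ => ⟨0, Finset.mem_singleton_self _, hη.le⟩⟩

lemma PN.sumN {ι : Type*} (s : Finset ι) {N : ι → ℤ → ℝ} (hN : ∀ i ∈ s, PN (N i)) :
    PN fun t => ∑ i ∈ s, N i t := by
  classical
  induction s using Finset.induction_on with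
  | empty => simpa using PN.zeroN
  | insert i s hi ih =>
    have h1 := PN.addN (hN i (Finset.mem_insert_self _ _))
      (ih fun j hj => hN j (Finset.mem_insert_of_mem hj))
    refine Eq.subst (motive := PN) ?_ h1
    ext n
    rw [Finset.sum_insert hi]

/-- parity pseudonorm -/
noncomputable def par (t : ℤ) : ℝ := if Even t then 0 else 1

lemma PN.par : PN par where
  nonneg t := by unfold P67.par; split_ifs <;> simp
  zero := by simp [P67.par]
  neg t := by simp [P67.par]
  add s t := by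
    unfold P67.par
    by_cases hs : Even s <;> by_cases ht : Even t <;> simp [hs, ht, Int.even_add]
  tb η hη := by
    refine ⟨{0, 1}, fun t => ?_⟩
    by_cases ht : Even t
    · exact ⟨0, by simp, by simp [P67.par, ht, hη.le]⟩
    · refine ⟨1, by simp, ?_⟩
      have : Even (t - 1) := by
        rw [Int.even_sub]
        simp [ht]
      simp [P67.par, this, hη.le]

/-! ### the truncated function -/

lemma mul_even {r : ℕ} (z : ℤ) : (r : ℤ) * z = z * r := mul_comm _ _

/-- correlation of `EA` with a bounded function -/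
lemma m_EA (u v : ℕ) (hu : 0 < u) (Y Y' : Set ℤ) (k : ℕ) {b : ℤ → ℝ} (hb : Bdd b) :
    (u : ℝ) * S.m (fun z => EA S u v Y Y' k z * b z)
      = S.nu k (fun n => S.m (fun w => ind Y n * ind Y' w * b (v * n + u * w))) := by
  have hu' : (u : ℝ) ≠ 0 := by positivity
  have hb1 : ∀ n ∈ S.blk k, Bdd fun z : ℤ =>
      S.wt k n * (ind {n | n ∈ Y ∧ ∃ w ∈ Y', z = v * n + u * w} n * b z) := by
    intro n _
    refine bdd_smul _ (bdd_mul ⟨1, fun z => ?_⟩ hb)
    rw [abs_of_nonneg (ind_nonneg _ _)]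
    exact ind_le_one _ _
  have h1 : (fun z => EA S u v Y Y' k z * b z) = fun z => ∑ n ∈ S.blk k,
      S.wt k n * (ind {n | n ∈ Y ∧ ∃ w ∈ Y', z = v * n + u * w} n * b z) := by
    ext z
    unfold EA MeanSys.nu
    rw [Finset.sum_mul]
    exact Finset.sum_congr rfl fun n _ => by ring
  rw [h1, m_sum S _ hb1, Finset.mul_sum]
  unfold MeanSys.nu
  refine Finset.sum_congr rfl fun n _ => ?_
  -- one value of `n`
  set G : ℤ → ℝ := fun y => (if (u : ℤ) ∣ y then ind Y n * ind Y' (y / u) * b (v * n + y) else 0)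
    with hG
  have hbG0 : Bdd fun y : ℤ => ind Y n * ind Y' (y / u) * b (v * n + y) :=
    bdd_mul (bdd_smul _ (bdd_comp (bdd_ind Y') fun y => y / u)) (bdd_comp hb fun y => v * n + y)
  have hbG : Bdd G := bdd_ite hbG0 _
  have h2 : (fun z : ℤ => ind {n | n ∈ Y ∧ ∃ w ∈ Y', z = v * n + u * w} n * b z)
      = fun z => G (z + -(v * n)) := by
    ext z
    rw [hG]
    simp only
    have hz : (v : ℤ) * n + (z + -(v * n)) = z := by ring
    rw [hz]
    by_cases hn : n ∈ Y
    · by_cases hd : (u : ℤ) ∣ z + -(v * n)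
      · rw [if_pos hd]
        obtain ⟨w, hw⟩ := hd
        have hw2 : (z + -(v * n)) / (u : ℤ) = w := by
          rw [hw]; exact Int.mul_ediv_cancel_left _ (by exact_mod_cast hu.ne')
        rw [hw2]
        have h3 : n ∈ {n | n ∈ Y ∧ ∃ w ∈ Y', z = v * n + u * w} ↔ w ∈ Y' := by
          constructor
          · rintro ⟨_, w', hw', h4⟩
            have h5 : (u : ℤ) * w' = u * w := by rw [← hw, h4]; ring
            have h6 : w' = w := mul_left_cancel₀ (by exact_mod_cast hu.ne') h5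
            rwa [← h6]
          · intro hw'
            exact ⟨hn, w, hw', by rw [← hw]; ring⟩
        rw [ind_congr h3, ind_of_mem hn, one_mul]
      · rw [if_neg hd]
        have h3 : n ∉ {n | n ∈ Y ∧ ∃ w ∈ Y', z = v * n + u * w} := by
          rintro ⟨_, w', _, h4⟩
          exact hd ⟨w', by rw [h4]; ring⟩
        rw [ind_of_not_mem h3, zero_mul]
    · have h3 : n ∉ {n | n ∈ Y ∧ ∃ w ∈ Y', z = v * n + u * w} := fun h => hn h.1
      rw [ind_of_not_mem h3, ind_of_not_mem hn]
      simp only [zero_mul, ite_self]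
  have hbI : Bdd fun z : ℤ => ind {n | n ∈ Y ∧ ∃ w ∈ Y', z = v * n + u * w} n * b z := by
    rw [h2]; exact bdd_comp hbG fun z => z + -(v * n)
  rw [m_smul S _ hbI, h2, m_shift S (-(v * n)) hbG]
  have h4 := m_dil S hu hbG0
  have h5 : (fun w : ℤ => ind Y n * ind Y' ((u : ℤ) * w / u) * b (v * n + u * w))
      = fun w => ind Y n * ind Y' w * b (v * n + u * w) := by
    ext w
    rw [Int.mul_ediv_cancel_left _ (by exact_mod_cast hu.ne')]
  rw [h5] at h4
  simp only
  rw [h4]
  simp only [hG]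
  ring

lemma u01_EA (u v : ℕ) (Y Y' : Set ℤ) (k : ℕ) : U01 (EA S u v Y Y' k) := by
  intro z
  unfold EA MeanSys.nu
  constructor
  · exact Finset.sum_nonneg fun n _ => mul_nonneg (S.wt_nonneg k n) (ind_nonneg _ _)
  · rw [← S.wt_sum k]
    refine Finset.sum_le_sum fun n _ => ?_
    calc S.wt k n * ind _ n ≤ S.wt k n * 1 :=
          mul_le_mul_of_nonneg_left (ind_le_one _ _) (S.wt_nonneg k n)
      _ = S.wt k n := mul_one _

lemma ind_Yset (A B : Set ℤ) (u v : ℕ) (n : ℤ) :
    ind (Yset A B u v) n = ind A (v * n) * ind B (u * n) := by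
  by_cases h1 : (v : ℤ) * n ∈ A
  · by_cases h2 : (u : ℤ) * n ∈ B
    · rw [ind_of_mem h1, ind_of_mem h2, ind_of_mem (A := Yset A B u v) ⟨h1, h2⟩, one_mul]
    · rw [ind_of_not_mem h2, ind_of_not_mem (A := Yset A B u v) fun h => h2 h.2, mul_zero]
  · rw [ind_of_not_mem h1, ind_of_not_mem (A := Yset A B u v) fun h => h1 h.1, zero_mul]

/-- `L²` convergence gives convergence of correlations -/
lemma tendsto_corr {F : ℕ → ℤ → ℝ} {G b : ℤ → ℝ} (hF : ∀ k, Bdd (F k)) (hG : Bdd G) (hb : U01 b)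
    (h : Tendsto (fun k => S.m (fun z => (F k z - G z) ^ 2)) S.U (𝓝 0)) :
    Tendsto (fun k => S.m (fun z => F k z * b z)) S.U (𝓝 (S.m fun z => G z * b z)) := by
  rw [tendsto_iff_norm_sub_tendsto_zero]
  have h1 := (Real.continuous_sqrt.tendsto 0).comp h
  rw [Real.sqrt_zero] at h1
  have hb' := u01_bdd hb
  refine squeeze_zero (fun k => norm_nonneg _) (fun k => ?_) h1
  simp only [Function.comp_apply, Real.norm_eq_abs]
  have h2 : S.m (fun z => F k z * b z) - S.m (fun z => G z * b z)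
      = S.m (fun z => (F k z - G z) * b z) := by
    rw [← m_sub S (bdd_mul (hF k) hb') (bdd_mul hG hb')]
    congr 1
    ext z
    ring
  rw [h2]
  have hd : Bdd fun z => F k z - G z := bdd_sub (hF k) hG
  have h3 : |S.m (fun z => (F k z - G z) * b z)| ≤ S.m (fun z => |F k z - G z|) := by
    refine (m_abs_mono S (bdd_mul hd hb')).trans ?_
    refine m_mono S (bdd_abs (bdd_mul hd hb')) (bdd_abs hd) fun z => ?_
    rw [abs_mul, abs_of_nonneg (hb z).1]
    exact mul_le_of_le_one_right (abs_nonneg _) (hb z).2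
  refine h3.trans (Real.le_sqrt_of_sq_le (m_abs_sq S hd))

lemma cor_eq {u v : ℕ} (hu : 0 < u) (A B : Set ℤ) {L b : ℤ → ℝ} (hL : Bdd L) (hb : U01 b)
    (h : Tendsto (fun k => S.m (fun z =>
      (EA S u v (Yset A B u v) (Yset A B v u) k z - L z) ^ 2)) S.U (𝓝 0)) :
    Cor S A B u v b = u * S.m (fun z => L z * b z) := by
  have h1 := (tendsto_corr S (fun k => u01_bdd (u01_EA S u v _ _ k)) hL hb h).const_mul (u : ℝ)
  simp_rw [m_EA S u v hu (Yset A B u v) (Yset A B v u) _ (u01_bdd hb)] at h1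
  refine tendsto_nhds_unique ?_ h1
  have hB : Bdd fun n : ℤ => S.m (fun w =>
      ind (Yset A B u v) n * ind (Yset A B v u) w * b (v * n + u * w)) := by
    refine ⟨1, fun n => m_abs_le S fun w => ?_⟩
    have h2 : 0 ≤ ind (Yset A B u v) n * ind (Yset A B v u) w * b (v * n + u * w) :=
      mul_nonneg (mul_nonneg (ind_nonneg _ _) (ind_nonneg _ _)) (hb _).1
    rw [abs_of_nonneg h2]
    exact mul_le_one₀ (mul_le_one₀ (ind_le_one _ _) (ind_nonneg _ _) (ind_le_one _ _)) (hb _).1
      (hb _).2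
  have h3 := S.m_lim _ hB
  have h4 : (fun n : ℤ => S.m (fun w =>
      ind (Yset A B u v) n * ind (Yset A B v u) w * b (v * n + u * w)))
      = fun n => S.m (fun w => ind A (v * n) * ind B (u * n) * (ind A (u * w) * ind B (v * w))
        * b (v * n + u * w)) := by
    ext n
    congr 1
    ext w
    rw [ind_Yset, ind_Yset]
  rw [h4] at h3
  unfold Cor
  refine h3.congr fun k => ?_
  unfold MeanSys.nu
  exact Finset.sum_congr rfl fun n _ => rfl

lemma max_lip (x y : ℝ) : |max 0 (1 - x) - max 0 (1 - y)| ≤ |x - y| := by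
  have h := abs_max_sub_max_le_max 0 (1 - x) 0 (1 - y)
  refine h.trans (max_le ?_ ?_)
  · simp
  · rw [show 1 - x - (1 - y) = y - x by ring, abs_sub_comm]

/-- M10 from M5 and M9 -/
theorem m10 (h5 : M5 S) (h9 : M9 S) : M10 S := by
  classical
  intro J A hdisj ε hε hcov
  -- the limits
  have hlim : ∀ q : Fin J × Fin J × (ℕ × ℕ), ∃ L N : ℤ → ℝ, PN N ∧ U01 L ∧
      (0 < q.2.2.1 → 0 < q.2.2.2 → Tendsto (fun k => S.m (fun z =>
        (ER S (A q.1) (A q.2.1) q.2.2.1 q.2.2.2 k z - L z) ^ 2)) S.U (𝓝 0)) ∧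
      ∀ (c : ℤ) (Q : ℕ), 0 < Q → ∀ t : ℤ,
        S.m (fun z => ind (cls c Q) z * |L (z + t) - L z|) ≤ N t / Q := by
    intro q
    by_cases hp : 0 < q.2.2.1 ∧ 0 < q.2.2.2
    · obtain ⟨L, N, h1, h2, h3, h4⟩ := h5 q.2.2.1 q.2.2.2 hp.1 hp.2
        (Yset (A q.1) (A q.2.1) q.2.2.1 q.2.2.2) (Yset (A q.1) (A q.2.1) q.2.2.2 q.2.2.1)
      exact ⟨L, N, h1, h2, fun _ _ => h3, h4⟩
    · refine ⟨fun _ => 0, fun _ => 0, PN.zeroN, fun _ => ⟨le_rfl, zero_le_one⟩,
        fun h1 h2 => absurd ⟨h1, h2⟩ hp, fun c Q _ t => ?_⟩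
      simp only [sub_self, abs_zero, mul_zero, zero_div]
      rw [m_const]
  choose L N hPN hU hT hC using hlim
  -- the truncated functions
  set I : Finset (ℕ × ℕ) → Finset (Fin J × Fin J × (ℕ × ℕ)) := fun P =>
    Finset.univ ×ˢ (Finset.univ ×ˢ P) with hI
  have hIm : ∀ P (i j : Fin J) p, p ∈ P → (i, j, p) ∈ I P := by
    intro P i j p hp
    rw [hI]
    exact Finset.mk_mem_product (Finset.mem_univ _)
      (Finset.mk_mem_product (Finset.mem_univ _) hp)
  set σ : Finset (ℕ × ℕ) → ℤ → ℝ := fun P z => ∑ q ∈ I P, L q z with hσ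
  set b : Finset (ℕ × ℕ) → ℝ → ℤ → ℝ := fun P c z =>
    if Even z then max 0 (1 - σ P z / c) else 0 with hb
  have hσ0 : ∀ P z, 0 ≤ σ P z := fun P z => Finset.sum_nonneg fun q _ => (hU q z).1
  have hbU : ∀ P c, 0 < c → U01 (b P c) := by
    intro P c hc z
    rw [hb]
    simp only
    split_ifs
    · exact ⟨le_max_left _ _, max_le zero_le_one (by
        have := div_nonneg (hσ0 P z) hc.le
        linarith)⟩
    · exact ⟨le_rfl, zero_le_one⟩
  have hbo : ∀ P c n, ¬ Even n → b P c n = 0 := by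
    intro P c n hn
    rw [hb]
    simp only
    rw [if_neg hn]
  set NN : Finset (ℕ × ℕ) → ℝ → ℤ → ℝ := fun P c t => par t + c⁻¹ * ∑ q ∈ I P, N q t with hNN
  have hPNP : ∀ P c, 0 < c → PN (NN P c) := by
    intro P c hc
    exact P67.PN.addN P67.PN.par (P67.PN.smul (P67.PN.sumN _ fun q _ => hPN q)
      (inv_nonneg.mpr hc.le))
  -- pointwise difference
  have hdiff : ∀ P c, 0 < c → ∀ t z, |b P c (z + t) - b P c z|
      ≤ par t + c⁻¹ * ∑ q ∈ I P, |L q (z + t) - L q z| := by
    intro P c hc t z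
    have hs0 : 0 ≤ c⁻¹ * ∑ q ∈ I P, |L q (z + t) - L q z| :=
      mul_nonneg (inv_nonneg.mpr hc.le) (Finset.sum_nonneg fun q _ => abs_nonneg _)
    by_cases ht : Even t
    · have hz : Even (z + t) ↔ Even z := by rw [Int.even_add]; simp [ht]
      have hp : par t = 0 := by unfold P67.par; rw [if_pos ht]
      rw [hp, zero_add]
      by_cases hz' : Even z
      · have e1 : b P c (z + t) = max 0 (1 - σ P (z + t) / c) := by
          rw [hb]; simp only; rw [if_pos (hz.mpr hz')]
        have e2 : b P c z = max 0 (1 - σ P z / c) := by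
          rw [hb]; simp only; rw [if_pos hz']
        rw [e1, e2]
        refine (max_lip _ _).trans ?_
        rw [← sub_div, abs_div, abs_of_pos hc, div_eq_inv_mul]
        refine mul_le_mul_of_nonneg_left ?_ (inv_nonneg.mpr hc.le)
        rw [hσ]
        simp only
        rw [← Finset.sum_sub_distrib]
        exact Finset.abs_sum_le_sum_abs _ _
      · rw [hbo P c z hz', hbo P c _ fun h => hz' (hz.mp h), sub_self, abs_zero]
        exact hs0
    · have hp : par t = 1 := by unfold P67.par; rw [if_neg ht]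
      rw [hp]
      have h1 := hbU P c hc (z + t)
      have h2 := hbU P c hc z
      have h3 : |b P c (z + t) - b P c z| ≤ 1 := by
        rw [abs_le]; constructor <;> linarith [h1.1, h1.2, h2.1, h2.2]
      linarith
  have hcls : ∀ P c, 0 < c → ∀ (a : ℤ) (Q : ℕ), 0 < Q → ∀ t : ℤ,
      S.m (fun z => ind (cls a Q) z * |b P c (z + t) - b P c z|) ≤ NN P c t / Q := by
    intro P c hc a Q hQ t
    have hbL : ∀ q ∈ I P, Bdd fun z => ind (cls a Q) z * |L q (z + t) - L q z| := fun q _ =>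
      bdd_mul (bdd_ind _) (bdd_abs (bdd_sub (bdd_comp (u01_bdd (hU q)) fun z => z + t)
        (u01_bdd (hU q))))
    have hbs := bdd_sum (I P) hbL
    calc S.m (fun z => ind (cls a Q) z * |b P c (z + t) - b P c z|)
        ≤ S.m (fun z => par t * ind (cls a Q) z
            + c⁻¹ * ∑ q ∈ I P, ind (cls a Q) z * |L q (z + t) - L q z|) := by
          refine m_mono S ?_ (bdd_add (bdd_smul _ (bdd_ind _)) (bdd_smul _ hbs)) fun z => ?_
          · exact bdd_mul (bdd_ind _) (bdd_abs (bdd_sub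
              (bdd_comp (u01_bdd (hbU P c hc)) fun z => z + t) (u01_bdd (hbU P c hc))))
          · have := mul_le_mul_of_nonneg_left (hdiff P c hc t z) (ind_nonneg (cls a Q) z)
            refine this.trans_eq ?_
            rw [← Finset.mul_sum]
            ring
      _ = par t * (1 / Q) + c⁻¹ * ∑ q ∈ I P,
            S.m (fun z => ind (cls a Q) z * |L q (z + t) - L q z|) := by
          rw [m_add S (bdd_smul _ (bdd_ind _)) (bdd_smul _ hbs), m_smul S _ (bdd_ind _),
            m_smul S _ hbs, m_sum S _ hbL, m_cls S a hQ]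
      _ ≤ par t * (1 / Q) + c⁻¹ * ∑ q ∈ I P, N q t / Q := by
          have h1 : ∑ q ∈ I P, S.m (fun z => ind (cls a Q) z * |L q (z + t) - L q z|)
              ≤ ∑ q ∈ I P, N q t / Q := Finset.sum_le_sum fun q _ => hC q a Q hQ t
          have := mul_le_mul_of_nonneg_left h1 (inv_nonneg.mpr hc.le)
          linarith
      _ = NN P c t / Q := by
          rw [hNN]
          simp only
          rw [← Finset.sum_div]
          ring
  have hmain : ∃ P : Finset (ℕ × ℕ), ∃ c : ℝ, (∀ p ∈ P, 0 < p.1 ∧ p.1 < p.2) ∧ 0 < c ∧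
      S.m (b P c) ≤ ε := by
    by_contra hcon
    push Not at hcon
    obtain ⟨κ, hκ, hM⟩ := h9 J A hdisj ε hε hcov
    set V : Set ℝ := {x | ∃ P : Finset (ℕ × ℕ), ∃ c : ℝ, (∀ p ∈ P, 0 < p.1 ∧ p.1 < p.2) ∧ 0 < c ∧
      x = S.m (b P c)} with hV
    have hVne : V.Nonempty := ⟨_, ∅, 1, by simp, one_pos, rfl⟩
    have hVb : BddBelow V := ⟨ε, by
      rintro x ⟨P, c, hP, hc, rfl⟩
      exact (hcon P c hP hc).le⟩
    obtain ⟨x, ⟨P, c, hP, hc, rfl⟩, hx⟩ := exists_lt_of_csInf_lt hVne
      (lt_add_of_pos_right (sInf V) (half_pos hκ))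
    obtain ⟨c1, hc1, u, v, hu, hv, huv, hbig⟩ := hM (NN P c) (hPNP P c hc)
    set P' := insert (u, v) P with hP'
    have hP'2 : ∀ p ∈ P', 0 < p.1 ∧ p.1 < p.2 := by
      intro p hp
      rw [hP', Finset.mem_insert] at hp
      rcases hp with rfl | hp
      · exact ⟨hu.pos, huv⟩
      · exact hP p hp
    set c' : ℝ := min c (c1 / (2 * ((J : ℝ) * J * u + 1))) with hc'
    have hJ : 0 < (J : ℝ) * J * u + 1 := by positivity
    have hc'0 : 0 < c' := lt_min hc (by positivity)
    have hle : ∀ z, b P' c' z ≤ b P c z := by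
      intro z
      rw [hb]
      simp only
      split_ifs
      · refine max_le_max le_rfl ?_
        have h1 : σ P z ≤ σ P' z := by
          rw [hσ]
          refine Finset.sum_le_sum_of_subset_of_nonneg ?_ fun q _ _ => (hU q z).1
          rw [hI]
          exact Finset.product_subset_product_right
            (Finset.product_subset_product_right (Finset.subset_insert _ _))
        have h2 : σ P z / c ≤ σ P' z / c' := div_le_div₀ (hσ0 P' z) h1 hc'0 (min_le_left _ _)
        linarith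
      · exact le_rfl
    have hbB : Bdd (b P c) := u01_bdd (hbU P c hc)
    have hbB' : Bdd (b P' c') := u01_bdd (hbU P' c' hc'0)
    have hinf : sInf V ≤ S.m (b P' c') := csInf_le hVb ⟨P', c', hP'2, hc'0, rfl⟩
    have hdd : S.m (fun n => b P c n - b P' c' n) ≤ κ / 2 := by
      rw [m_sub S hbB hbB']; linarith
    have hreg : ∀ t, S.m (fun n => |b P' c' (n + t) - b P' c' n|) ≤ NN P c t + κ := by
      intro t
      have hB1 : Bdd fun n => |b P c (n + t) - b P c n| :=
        bdd_abs (bdd_sub (bdd_comp hbB fun n => n + t) hbB)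
      have hB2 : Bdd fun n => b P c n - b P' c' n := bdd_sub hbB hbB'
      have hB3 : Bdd fun n => b P c (n + t) - b P' c' (n + t) := bdd_comp hB2 fun n => n + t
      have h1 : S.m (fun n => |b P' c' (n + t) - b P' c' n|)
          ≤ S.m (fun n => |b P c (n + t) - b P c n| + ((b P c (n + t) - b P' c' (n + t))
            + (b P c n - b P' c' n))) := by
        refine m_mono S (bdd_abs (bdd_sub (bdd_comp hbB' fun n => n + t) hbB'))
          (bdd_add hB1 (bdd_add hB3 hB2)) fun n => ?_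
        have h2 := hle n
        have h3 := hle (n + t)
        rw [abs_le]
        have h4 := neg_abs_le (b P c (n + t) - b P c n)
        have h5 := le_abs_self (b P c (n + t) - b P c n)
        constructor <;> linarith
      rw [m_add S hB1 (bdd_add hB3 hB2), m_add S hB3 hB2, m_shift S t hB2] at h1
      have h6 := hcls P c hc 0 1 one_pos t
      have h7 : (fun z => ind (cls 0 1) z * |b P c (z + t) - b P c z|)
          = fun z => |b P c (z + t) - b P c z| := by
        ext z
        rw [ind_of_mem (A := cls 0 1) (show (((1 : ℕ) : ℤ) ∣ z - 0) from by simp), one_mul]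
      rw [h7, Nat.cast_one, div_one] at h6
      linarith
    have hfin := hbig (b P' c') (hbU P' c' hc'0) (hbo P' c')
      (hcon P' c' hP'2 hc'0).le hreg
    have hcorr : ∀ i j : Fin J, Cor S (A i) (A j) u v (b P' c') ≤ u * c' := by
      intro i j
      have hq := hT (i, j, (u, v)) hu.pos hv.pos
      simp only at hq
      unfold ER at hq
      rw [cor_eq S hu.pos (A i) (A j) (u01_bdd (hU _)) (hbU P' c' hc'0) hq]
      refine mul_le_mul_of_nonneg_left ?_ (Nat.cast_nonneg _)
      refine (m_mono S (bdd_mul (u01_bdd (hU _)) hbB') (bdd_const c') fun z => ?_).trans_eq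
        (m_const S _)
      have hL0 := (hU (i, j, (u, v)) z).1
      by_cases hz : L (i, j, (u, v)) z ≤ c'
      · calc L (i, j, (u, v)) z * b P' c' z ≤ c' * 1 :=
              mul_le_mul hz (hbU P' c' hc'0 z).2 (hbU P' c' hc'0 z).1 hc'0.le
          _ = c' := mul_one _
      · have h1 : b P' c' z = 0 := by
          rw [hb]
          simp only
          split_ifs
          · refine max_eq_left ?_
            have h2 : L (i, j, (u, v)) z ≤ σ P' z := by
              rw [hσ]
              exact Finset.single_le_sum (f := fun q => L q z) (fun q _ => (hU q z).1)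
                (hIm P' i j (u, v) (Finset.mem_insert_self _ _))
            have h3 : 1 ≤ σ P' z / c' := by
              rw [le_div_iff₀ hc'0]; linarith
            linarith
          · rfl
        rw [h1, mul_zero]
        exact hc'0.le
    have hsum : ∑ i, ∑ j, Cor S (A i) (A j) u v (b P' c') ≤ (J : ℝ) * J * u * c' := by
      calc ∑ i, ∑ j, Cor S (A i) (A j) u v (b P' c')
          ≤ ∑ _i : Fin J, ∑ _j : Fin J, (u : ℝ) * c' :=
            Finset.sum_le_sum fun i _ => Finset.sum_le_sum fun j _ => hcorr i j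
        _ = (J : ℝ) * J * u * c' := by
            simp only [Finset.sum_const, Finset.card_univ, Fintype.card_fin, nsmul_eq_mul]
            ring
    have h8 : (J : ℝ) * J * u * c' < c1 := by
      have h9 : c' ≤ c1 / (2 * ((J : ℝ) * J * u + 1)) := min_le_right _ _
      have h10 : ((J : ℝ) * J * u + 1) * c' ≤ c1 / 2 := by
        calc ((J : ℝ) * J * u + 1) * c'
            ≤ ((J : ℝ) * J * u + 1) * (c1 / (2 * ((J : ℝ) * J * u + 1))) :=
              mul_le_mul_of_nonneg_left h9 hJ.le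
          _ = c1 / 2 := by field_simp
      linarith
    linarith
  obtain ⟨P, c, hP, hc, hbε⟩ := hmain
  -- the final constant
  set n0 : ℝ := ((I P).card : ℝ) + 1 with hn0
  have hn0p : 0 < n0 := by positivity
  set c2 : ℝ := c / (4 * n0) with hc2
  have hc2p : 0 < c2 := by positivity
  refine ⟨P, c2, b P c, NN P c, hP, hc2p, hPNP P c hc, hbU P c hc, hbε, hcls P c hc, ?_⟩
  intro η hη
  have hq : ∀ q ∈ I P, ∀ᶠ k in (S.U : Filter ℕ),
      S.m (fun z => (ER S (A q.1) (A q.2.1) q.2.2.1 q.2.2.2 k z - L q z) ^ 2)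
        < η * c2 ^ 2 / n0 := by
    intro q hq
    rw [hI] at hq
    simp only [Finset.mem_product, Finset.mem_univ, true_and] at hq
    have h1 := hP _ hq
    exact (hT q h1.1 (h1.1.trans h1.2)).eventually_lt_const (by positivity)
  have hall := (Filter.eventually_all_finset (I P)).mpr hq
  filter_upwards [hall] with k hk
  have hEB : ∀ q, Bdd fun z => ER S (A q.1) (A q.2.1) q.2.2.1 q.2.2.2 k z - L q z := fun q =>
    bdd_sub (u01_bdd (u01_EA S _ _ _ _ k)) (u01_bdd (hU q))
  have hcover : ∀ z, ind {z | Even z ∧ b P c z < 1 / 2 ∧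
      ∀ i j, ∀ p ∈ P, ER S (A i) (A j) p.1 p.2 k z < c2} z
      ≤ ∑ q ∈ I P, ind {z | c2 ≤ |ER S (A q.1) (A q.2.1) q.2.2.1 q.2.2.2 k z - L q z|} z := by
    intro z
    by_cases hz : z ∈ {z | Even z ∧ b P c z < 1 / 2 ∧
      ∀ i j, ∀ p ∈ P, ER S (A i) (A j) p.1 p.2 k z < c2}
    · rw [ind_of_mem hz]
      obtain ⟨hz1, hz2, hz3⟩ := hz
      have h1 : 1 / 2 < σ P z / c := by
        rw [hb] at hz2
        simp only at hz2
        rw [if_pos hz1] at hz2
        have := (le_max_right 0 (1 - σ P z / c)).trans_lt hz2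
        linarith
      rw [lt_div_iff₀ hc] at h1
      have h2 : ∃ q ∈ I P, 2 * c2 ≤ L q z := by
        by_contra hcon
        push Not at hcon
        have h3 : σ P z ≤ (I P).card • (2 * c2) :=
          Finset.sum_le_card_nsmul _ _ _ fun q hq => (hcon q hq).le
        rw [nsmul_eq_mul] at h3
        have h4 : ((I P).card : ℝ) * (2 * c2) ≤ n0 * (2 * c2) :=
          mul_le_mul_of_nonneg_right (by rw [hn0]; linarith) (by positivity)
        have h5 : n0 * (2 * c2) = c / 2 := by rw [hc2]; field_simp; ring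
        linarith
      obtain ⟨q, hqI, hq2⟩ := h2
      have h6 : z ∈ {z | c2 ≤ |ER S (A q.1) (A q.2.1) q.2.2.1 q.2.2.2 k z - L q z|} := by
        have hqP : q.2.2 ∈ P := by
          rw [hI] at hqI
          simpa only [Finset.mem_product, Finset.mem_univ, true_and] using hqI
        have h7 := hz3 q.1 q.2.1 q.2.2 hqP
        simp only [Set.mem_ofPred_eq]
        rw [abs_sub_comm]
        refine le_trans ?_ (le_abs_self _)
        linarith
      calc (1 : ℝ) = ind {z | c2 ≤ |ER S (A q.1) (A q.2.1) q.2.2.1 q.2.2.2 k z - L q z|} z := by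
            rw [ind_of_mem h6]
        _ ≤ _ := Finset.single_le_sum
            (f := fun q => ind {z | c2 ≤ |ER S (A q.1) (A q.2.1) q.2.2.1 q.2.2.2 k z - L q z|} z)
            (fun q _ => ind_nonneg _ _) hqI
    · rw [ind_of_not_mem hz]
      exact Finset.sum_nonneg fun q _ => ind_nonneg _ _
  calc S.m (ind {z | Even z ∧ b P c z < 1 / 2 ∧
        ∀ i j, ∀ p ∈ P, ER S (A i) (A j) p.1 p.2 k z < c2})
      ≤ S.m (fun z => ∑ q ∈ I P,
          ind {z | c2 ≤ |ER S (A q.1) (A q.2.1) q.2.2.1 q.2.2.2 k z - L q z|} z) :=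
        m_mono S (bdd_ind _) (bdd_sum _ fun q _ => bdd_ind _) hcover
    _ = ∑ q ∈ I P, S.m
          (ind {z | c2 ≤ |ER S (A q.1) (A q.2.1) q.2.2.1 q.2.2.2 k z - L q z|}) :=
        m_sum S _ fun q _ => bdd_ind _
    _ ≤ ∑ q ∈ I P, η / n0 := by
        refine Finset.sum_le_sum fun q hq => ?_
        refine (m_markov S (hEB q) hc2p).trans ?_
        rw [div_le_div_iff₀ (by positivity) hn0p]
        have := (hk q hq).le
        rw [le_div_iff₀ hn0p] at this
        linarith
    _ = (I P).card * (η / n0) := by rw [Finset.sum_const, nsmul_eq_mul]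
    _ ≤ n0 * (η / n0) := mul_le_mul_of_nonneg_right (by rw [hn0]; linarith) (by positivity)
    _ = η := by field_simp

end Pool.Agent.FinA.P67
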