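import Pool.Agent.Lib.MP_60922f_co.FIN.Stmts43

/-! FIN (M11), core: from one class to all classes of a subclass. -/

set_option autoImplicit false
set_option linter.unusedVariables false

namespace Pool.Agent.FIN.T98
open Finset

/-- bounded function -/
def Bd (f : ℤ → ℝ) : Prop := ∃ C : ℝ, ∀ z, |f z| ≤ C

theorem Bd.add {f g : ℤ → ℝ} (hf : Bd f) (hg : Bd g) : Bd (fun z => f z + g z) := by
  obtain ⟨C, hC⟩ := hf
  obtain ⟨D, hD⟩ := hg
  exact ⟨C + D, fun z => (abs_add_le _ _).trans (add_le_add (hC z) (hD z))⟩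

theorem Bd.mul {f g : ℤ → ℝ} (hf : Bd f) (hg : Bd g) : Bd (fun z => f z * g z) := by
  obtain ⟨C, hC⟩ := hf
  obtain ⟨D, hD⟩ := hg
  refine ⟨C * D, fun z => ?_⟩
  rw [abs_mul]
  exact mul_le_mul (hC z) (hD z) (abs_nonneg _) ((abs_nonneg _).trans (hC z))

theorem Bd.const (c : ℝ) : Bd (fun _ => c) := ⟨|c|, fun _ => le_refl _⟩

theorem Bd.smul {f : ℤ → ℝ} (c : ℝ) (hf : Bd f) : Bd (fun z => c * f z) := (Bd.const c).mul hf

theorem Bd.sub {f g : ℤ → ℝ} (hf : Bd f) (hg : Bd g) : Bd (fun z => f z - g z) := by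
  have := hf.add (hg.smul (-1))
  refine ⟨this.choose, fun z => ?_⟩
  have h := this.choose_spec z
  simpa [sub_eq_add_neg] using h

theorem Bd.abs {f : ℤ → ℝ} (hf : Bd f) : Bd (fun z => |f z|) := by
  obtain ⟨C, hC⟩ := hf
  exact ⟨C, fun z => by rw [abs_abs]; exact hC z⟩

theorem Bd.shift {f : ℤ → ℝ} (hf : Bd f) (t : ℤ) : Bd (fun z => f (z + t)) := by
  obtain ⟨C, hC⟩ := hf
  exact ⟨C, fun z => hC _⟩

theorem Bd.sum {ι : Type*} (s : Finset ι) {f : ι → ℤ → ℝ} (hf : ∀ i ∈ s, Bd (f i)) :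
    Bd (fun z => ∑ i ∈ s, f i z) := by
  classical
  induction s using Finset.induction_on with
  | empty => simpa using Bd.const 0
  | insert a s ha ih =>
    have h1 := (hf a (mem_insert_self a s)).add (ih fun i hi => hf i (mem_insert_of_mem hi))
    simpa [sum_insert ha] using h1

theorem Bd.of01 {f : ℤ → ℝ} (h0 : ∀ z, 0 ≤ f z) (h1 : ∀ z, f z ≤ 1) : Bd f :=
  ⟨1, fun z => by rw [abs_of_nonneg (h0 z)]; exact h1 z⟩

/-- a shift invariant mean of bounded functions on the integers -/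
structure LM (m : (ℤ → ℝ) → ℝ) : Prop where
  add : ∀ f g, Bd f → Bd g → m (fun z => f z + g z) = m f + m g
  smul : ∀ (c : ℝ) f, Bd f → m (fun z => c * f z) = c * m f
  mono : ∀ f g, Bd f → Bd g → (∀ z, f z ≤ g z) → m f ≤ m g
  one : m (fun _ => 1) = 1
  shift : ∀ (f : ℤ → ℝ) (t : ℤ), Bd f → m (fun z => f (z + t)) = m f

/-- the indicator of a residue class -/
noncomputable def ci (Q : ℕ) (a : ℤ) (z : ℤ) : ℝ := if z ≡ a [ZMOD Q] then 1 else 0

theorem ci_nonneg (Q : ℕ) (a z : ℤ) : 0 ≤ ci Q a z := by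
  unfold ci; split_ifs <;> norm_num

theorem ci_le_one (Q : ℕ) (a z : ℤ) : ci Q a z ≤ 1 := by
  unfold ci; split_ifs <;> norm_num

theorem ci_bd (Q : ℕ) (a : ℤ) : Bd (ci Q a) := Bd.of01 (ci_nonneg Q a) (ci_le_one Q a)

theorem ci_congr {Q : ℕ} {a b : ℤ} (h : a ≡ b [ZMOD Q]) (z : ℤ) : ci Q a z = ci Q b z := by
  unfold ci
  by_cases h1 : z ≡ a [ZMOD Q]
  · rw [if_pos h1, if_pos (h1.trans h)]
  · rw [if_neg h1, if_neg (fun h2 => h1 (h2.trans h.symm))]

theorem ci_shift (Q : ℕ) (a z t : ℤ) : ci Q (a + t) (z + t) = ci Q a z := by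
  unfold ci
  have : z + t ≡ a + t [ZMOD Q] ↔ z ≡ a [ZMOD Q] := by
    constructor
    · intro h; exact Int.ModEq.add_right_cancel' t h
    · intro h; exact h.add_right t
  by_cases h1 : z ≡ a [ZMOD Q]
  · rw [if_pos h1, if_pos (this.mpr h1)]
  · rw [if_neg h1, if_neg (fun h2 => h1 (this.mp h2))]

/-- a class is the disjoint union of `k` classes -/
theorem ci_split (Q k : ℕ) (hQ : 0 < Q) (hk : 0 < k) (a z : ℤ) :
    ci Q a z = ∑ j ∈ range k, ci (Q * k) (a + j * Q) z := by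
  have hQ' : (0 : ℤ) < Q := by exact_mod_cast hQ
  have hk' : (0 : ℤ) < k := by exact_mod_cast hk
  by_cases h : z ≡ a [ZMOD Q]
  · obtain ⟨s, hs⟩ := h.symm.dvd
    -- z - a = Q * s
    have hj0 : 0 ≤ s % k := Int.emod_nonneg _ hk'.ne'
    have hj1 : s % k < k := Int.emod_lt_of_pos _ hk'
    obtain ⟨j, hj⟩ := Int.eq_ofNat_of_zero_le hj0
    have hjk : j < k := by rw [hj] at hj1; exact_mod_cast hj1
    have key : ∀ i : ℕ, i < k → (z ≡ a + i * Q [ZMOD (Q * k : ℕ)] ↔ i = j) := by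
      intro i hi
      constructor
      · intro h1
        obtain ⟨r, hr⟩ := h1.symm.dvd
        push_cast at hr
        have h2 : (Q : ℤ) * (s - i - k * r) = 0 := by
          linear_combination hr - hs
        have h3 : s - i - k * r = 0 := by
          rcases mul_eq_zero.mp h2 with h | h
          · exact absurd h hQ'.ne'
          · exact h
        have h4 : s = i + k * r := by linarith
        have h5 : s % k = i := by
          rw [h4, Int.add_mul_emod_self_left]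
          exact Int.emod_eq_of_lt (by positivity) (by exact_mod_cast hi)
        rw [hj] at h5
        exact_mod_cast h5.symm
      · rintro rfl
        apply Int.ModEq.symm
        rw [Int.modEq_iff_dvd]
        refine ⟨s / k, ?_⟩
        have h6 := Int.emod_add_mul_ediv s k
        rw [hj] at h6
        push_cast
        linear_combination hs - (Q : ℤ) * h6
    have h7 : ∀ i ∈ range k, ci (Q * k) (a + i * Q) z = if i = j then 1 else 0 := by
      intro i hi
      unfold ci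
      by_cases h8 : i = j
      · rw [if_pos h8, if_pos ((key i (mem_range.mp hi)).mpr h8)]
      · rw [if_neg h8, if_neg (fun h9 => h8 ((key i (mem_range.mp hi)).mp h9))]
    rw [sum_congr rfl h7, sum_ite_eq' (range k) j, if_pos (mem_range.mpr hjk)]
    unfold ci
    rw [if_pos h]
  · have h7 : ∀ i ∈ range k, ci (Q * k) (a + i * Q) z = 0 := by
      intro i hi
      unfold ci
      rw [if_neg]
      intro h1
      apply h
      have h2 : z ≡ a + i * Q [ZMOD Q] := by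
        apply Int.ModEq.of_mul_right (k : ℤ)
        exact_mod_cast h1
      refine h2.trans ?_
      apply Int.ModEq.symm
      rw [Int.modEq_iff_dvd]
      exact ⟨i, by ring⟩
    rw [sum_eq_zero h7]
    unfold ci
    rw [if_neg h]

variable {m : (ℤ → ℝ) → ℝ}

theorem LM.sum (hm : LM m) {ι : Type*} (s : Finset ι) {f : ι → ℤ → ℝ} (hf : ∀ i ∈ s, Bd (f i)) :
    m (fun z => ∑ i ∈ s, f i z) = ∑ i ∈ s, m (f i) := by
  classical
  induction s using Finset.induction_on with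
  | empty =>
    have h := hm.smul 0 (fun _ => 1) (Bd.const 1)
    simpa using h
  | insert a s ha ih =>
    have h1 := hm.add (f a) (fun z => ∑ i ∈ s, f i z) (hf a (mem_insert_self a s))
      (Bd.sum s fun i hi => hf i (mem_insert_of_mem hi))
    rw [sum_insert ha, ← ih fun i hi => hf i (mem_insert_of_mem hi), ← h1]
    congr 1
    funext z
    rw [sum_insert ha]

theorem LM.ci_shift (hm : LM m) (Q : ℕ) (a t : ℤ) : m (ci Q (a + t)) = m (ci Q a) := by
  rw [← hm.shift (ci Q (a + t)) t (ci_bd _ _)]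
  congr 1
  funext z
  exact T98.ci_shift Q a z t

theorem LM.zero (hm : LM m) : m (fun _ => 0) = 0 := by
  have h := hm.smul 0 (fun _ => 1) (Bd.const 1)
  simpa using h

theorem LM.nonneg (hm : LM m) {f : ℤ → ℝ} (hf : Bd f) (h : ∀ z, 0 ≤ f z) : 0 ≤ m f := by
  rw [← hm.zero]
  exact hm.mono _ _ (Bd.const 0) hf h

theorem LM.ci_eq (hm : LM m) (Q : ℕ) (hQ : 0 < Q) (a : ℤ) : m (ci Q a) = 1 / Q := by
  have h1 := fun z => ci_split 1 Q one_pos hQ 0 z
  have h2 : ∀ z, ci 1 0 z = 1 := by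
    intro z
    unfold ci
    rw [if_pos]
    exact_mod_cast Int.modEq_one
  have h3 : m (fun _ => 1) = ∑ j ∈ range Q, m (ci (1 * Q) (0 + j * (1 : ℕ))) := by
    rw [← hm.sum (range Q) fun i _ => ci_bd _ _]
    congr 1
    funext z
    rw [← h2 z, h1 z]
  have h4 : ∀ j : ℤ, m (ci (1 * Q) (0 + j * (1 : ℕ))) = m (ci Q a) := by
    intro j
    have h5 : (0 + j * (1 : ℕ) : ℤ) = a + (j - a) := by push_cast; ring
    rw [h5, one_mul, hm.ci_shift Q a (j - a)]
  have h6 : ∑ j ∈ range Q, m (ci (1 * Q) (0 + (j : ℤ) * (1 : ℕ))) = ∑ j ∈ range Q, m (ci Q a) :=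
    sum_congr rfl fun j _ => h4 j
  rw [hm.one, h6, sum_const, card_range, nsmul_eq_mul] at h3
  have hQ' : (0 : ℝ) < Q := by exact_mod_cast hQ
  field_simp
  linarith

/-- **Transfer core.** -/
theorem transfer_core (hm : LM m) {G N : ℤ → ℝ} (hG0 : ∀ z, 0 ≤ G z) (hG1 : ∀ z, G z ≤ 1)
    (hstar : ∀ δ : ℝ, 0 < δ → ∃ M : ℕ, 0 < M ∧ ∀ M' : ℕ, 0 < M' → ∀ r : ℤ, (M : ℤ) ∣ r →
      ∃ t : ℤ, t ≡ r [ZMOD M'] ∧ N t ≤ δ)
    (hLip : ∀ (Q : ℕ) (a t : ℤ), 0 < Q →
      m (fun z => ci Q a z * |G (z + t) - G z|) ≤ N t * m (ci Q a))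
    {e : ℝ} (he : 0 < e) {Q : ℕ} (hQ : 0 < Q) {a : ℤ}
    (hsm : m (fun z => ci Q a z * G z) ≤ e * m (ci Q a)) :
    ∃ M : ℕ, 0 < M ∧ Q ∣ M ∧ ∃ b : ℤ, b ≡ a [ZMOD Q] ∧ ∀ M' : ℕ, 0 < M' → M ∣ M' →
      ∀ c : ℤ, c ≡ b [ZMOD M] → m (fun z => ci M' c z * G z) ≤ 2 * e * m (ci M' c) := by
  have hGb : Bd G := Bd.of01 hG0 hG1
  obtain ⟨M₀, hM₀, hst⟩ := hstar e he
  have hsplit : ∀ (Q k : ℕ) (a : ℤ), 0 < Q → 0 < k →
      m (fun z => ci Q a z * G z) = ∑ j ∈ range k, m (fun z => ci (Q * k) (a + j * Q) z * G z) := by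
    intro Q k a hQ hk
    rw [← hm.sum (range k) fun i _ => (ci_bd _ _).mul hGb]
    congr 1
    funext z
    rw [ci_split Q k hQ hk a z, sum_mul]
  -- pigeonhole
  obtain ⟨j, hj, hjle⟩ : ∃ j ∈ range M₀,
      m (fun z => ci (Q * M₀) (a + j * Q) z * G z) ≤ e * (1 / (Q * M₀ : ℕ)) := by
    by_contra hcon
    push Not at hcon
    have h1 : ∑ j ∈ range M₀, e * (1 / ((Q * M₀ : ℕ) : ℝ)) <
        ∑ j ∈ range M₀, m (fun z => ci (Q * M₀) (a + j * Q) z * G z) := by
      apply sum_lt_sum_of_nonempty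
      · exact ⟨0, mem_range.mpr hM₀⟩
      · intro i hi
        exact hcon i hi
    rw [← hsplit Q M₀ a hQ hM₀, sum_const, card_range, nsmul_eq_mul] at h1
    have h2 := lt_of_lt_of_le h1 hsm
    rw [hm.ci_eq Q hQ a] at h2
    have hQ' : (0 : ℝ) < Q := by exact_mod_cast hQ
    have hM' : (0 : ℝ) < M₀ := by exact_mod_cast hM₀
    have h3 : (M₀ : ℝ) * (e * (1 / ((Q * M₀ : ℕ) : ℝ))) = e * (1 / Q) := by
      push_cast
      field_simp
    rw [h3] at h2
    exact lt_irrefl _ h2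
  refine ⟨Q * M₀, Nat.mul_pos hQ hM₀, Dvd.intro _ rfl, a + j * Q, ?_, ?_⟩
  · apply Int.ModEq.symm
    rw [Int.modEq_iff_dvd]
    exact ⟨j, by ring⟩
  set M : ℕ := Q * M₀ with hM
  set b : ℤ := a + j * Q with hb
  have hMpos : 0 < M := Nat.mul_pos hQ hM₀
  rintro M' hM' ⟨k, rfl⟩ c hc
  have hk : 0 < k := Nat.pos_of_mul_pos_left hM' |> fun h => by
    rcases Nat.eq_zero_or_pos k with h0 | h0
    · subst h0; simp at hM'
    · exact h0
  -- compare with every class inside `b mod M`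
  have hcmp : ∀ i ∈ range k, m (fun z => ci (M * k) c z * G z) ≤
      m (fun z => ci (M * k) (b + i * M) z * G z) + e * (1 / ((M * k : ℕ) : ℝ)) := by
    intro i _
    have hdvd : (M₀ : ℤ) ∣ (b + i * M - c) := by
      obtain ⟨s, hs⟩ := hc.symm.dvd
      -- c - b = M * s
      refine ⟨Q * (i - s), ?_⟩
      have : (M : ℤ) = Q * M₀ := by rw [hM]; push_cast; ring
      rw [this] at hs ⊢
      linear_combination -hs
    obtain ⟨t, ht, hNt⟩ := hst (M * k) hM' (b + i * M - c) hdvd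
    have h1 : ∀ z, ci (M * k) (b + i * M) (z + t) = ci (M * k) c z := by
      intro z
      rw [← T98.ci_shift (M * k) c z t]
      apply ci_congr
      have := ht.add_left c
      refine Int.ModEq.trans ?_ this.symm
      rw [show c + (b + i * M - c) = b + i * M by ring]
    have h2 : m (fun z => ci (M * k) (b + i * M) z * G z) =
        m (fun z => ci (M * k) c z * G (z + t)) := by
      rw [← hm.shift (fun z => ci (M * k) (b + i * M) z * G z) t ((ci_bd _ _).mul hGb)]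
      congr 1
      funext z
      rw [h1 z]
    have h3 := hLip (M * k) c t hM'
    rw [hm.ci_eq _ hM'] at h3
    have h4 : m (fun z => ci (M * k) c z * G z) ≤
        m (fun z => ci (M * k) c z * G (z + t) + ci (M * k) c z * |G (z + t) - G z|) := by
      apply hm.mono
      · exact (ci_bd _ _).mul hGb
      · exact ((ci_bd _ _).mul (hGb.shift t)).add ((ci_bd _ _).mul ((hGb.shift t).sub hGb).abs)
      · intro z
        have h5 : G z ≤ G (z + t) + |G (z + t) - G z| := by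
          have := neg_abs_le (G (z + t) - G z)
          linarith
        have h6 := mul_le_mul_of_nonneg_left h5 (ci_nonneg (M * k) c z)
        linarith
    rw [hm.add _ _ ((ci_bd _ _).mul (hGb.shift t))
      ((ci_bd _ _).mul ((hGb.shift t).sub hGb).abs)] at h4
    rw [h2]
    have h7 : N t * (1 / ((M * k : ℕ) : ℝ)) ≤ e * (1 / ((M * k : ℕ) : ℝ)) :=
      mul_le_mul_of_nonneg_right hNt (by positivity)
    linarith
  have hsum := sum_le_sum hcmp
  rw [sum_const, card_range, nsmul_eq_mul, sum_add_distrib, sum_const, card_range, nsmul_eq_mul,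
    ← hsplit M k b hMpos hk] at hsum
  rw [hm.ci_eq _ hM']
  have hMr : (0 : ℝ) < M := by exact_mod_cast hMpos
  have hkr : (0 : ℝ) < k := by exact_mod_cast hk
  have h8 : (k : ℝ) * m (fun z => ci (M * k) c z * G z) ≤ k * (2 * e * (1 / ((M * k : ℕ) : ℝ))) := by
    refine hsum.trans ?_
    have h9 : (k : ℝ) * (2 * e * (1 / ((M * k : ℕ) : ℝ))) = e * (1 / M) +
        k * (e * (1 / ((M * k : ℕ) : ℝ))) := by
      push_cast
      field_simp
      ring
    rw [h9]
    linarith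
  exact le_of_mul_le_mul_left h8 hkr

/-- the mean of a mean system -/
theorem lm_meanSys (S : FinA.MeanSys) : LM S.m := by
  have hlim : ∀ F, Bd F → Filter.Tendsto (fun k => ∑ n ∈ S.blk k, S.wt k n * F n) S.U
      (nhds (S.m F)) := fun F hF => S.m_lim F hF
  have hone : S.m (fun _ => 1) = 1 := by
    have h1 := hlim (fun _ => 1) (Bd.const 1)
    have h2 : (fun k => ∑ n ∈ S.blk k, S.wt k n * (1 : ℝ)) = fun _ => 1 := by
      funext k
      simp only [mul_one]
      exact S.wt_sum k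
    rw [h2] at h1
    exact tendsto_nhds_unique h1 tendsto_const_nhds
  have hsmul : ∀ (c : ℝ) f, Bd f → S.m (fun z => c * f z) = c * S.m f := by
    intro c f hf
    have h1 := hlim _ (hf.smul c)
    have h2 := (hlim _ hf).const_mul c
    have h3 : (fun k => c * ∑ n ∈ S.blk k, S.wt k n * f n) =
        fun k => ∑ n ∈ S.blk k, S.wt k n * (c * f n) := by
      funext k
      rw [mul_sum]
      exact sum_congr rfl fun n _ => by ring
    rw [h3] at h2
    exact tendsto_nhds_unique h1 h2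
  refine ⟨?_, hsmul, ?_, hone, ?_⟩
  · intro f g hf hg
    have h1 := hlim _ (hf.add hg)
    have h2 := (hlim _ hf).add (hlim _ hg)
    have h3 : (fun k => ∑ n ∈ S.blk k, S.wt k n * f n + ∑ n ∈ S.blk k, S.wt k n * g n) =
        fun k => ∑ n ∈ S.blk k, S.wt k n * (f n + g n) := by
      funext k
      rw [← sum_add_distrib]
      exact sum_congr rfl fun n _ => by ring
    rw [h3] at h2
    exact tendsto_nhds_unique h1 h2
  · intro f g hf hg h
    refine le_of_tendsto_of_tendsto' (hlim _ hf) (hlim _ hg) fun k => ?_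
    exact sum_le_sum fun n _ => mul_le_mul_of_nonneg_left (h n) (S.wt_nonneg k n)
  · intro f t hf
    obtain ⟨C, hC⟩ := hf
    have hf : Bd f := ⟨C, hC⟩
    have hC' : ∀ z, |f z| ≤ |C| + 1 := fun z => (hC z).trans (by linarith [le_abs_self C])
    have hCp : (0 : ℝ) < |C| + 1 := by positivity
    have h1 := (hlim _ (hf.shift t)).sub (hlim _ hf)
    have h0 : Filter.Tendsto (fun k => ∑ n ∈ S.blk k, S.wt k n * f (n + t) -
        ∑ n ∈ S.blk k, S.wt k n * f n) S.U (nhds 0) := by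
      rw [Metric.tendsto_nhds]
      intro ε hε
      have h2 := (S.shift_err t (ε / (2 * (|C| + 1))) (by positivity)).filter_mono S.free
      filter_upwards [h2] with k hk
      have h3 := hk (fun z => f z / (|C| + 1)) (fun z => by
        rw [abs_div, abs_of_pos hCp, div_le_one hCp]
        exact hC' z)
      have h4 : ∑ n ∈ S.blk k, S.wt k n * (f (n + t) / (|C| + 1)) -
          ∑ n ∈ S.blk k, S.wt k n * (f n / (|C| + 1)) =
          (∑ n ∈ S.blk k, S.wt k n * f (n + t) - ∑ n ∈ S.blk k, S.wt k n * f n) / (|C| + 1) := by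
        rw [sub_div, sum_div, sum_div]
        congr 1
        · exact sum_congr rfl fun n _ => by ring
        · exact sum_congr rfl fun n _ => by ring
      rw [h4, abs_div, abs_of_pos hCp, div_le_iff₀ hCp] at h3
      rw [Real.dist_eq, sub_zero]
      have h5 : ε / (2 * (|C| + 1)) * (|C| + 1) = ε / 2 := by field_simp
      rw [h5] at h3
      linarith
    have h2 := tendsto_nhds_unique h1 h0
    linarith

theorem ind_cls (Q : ℕ) (a z : ℤ) : FinA.ind (FinA.cls a Q) z = ci Q a z := by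
  unfold FinA.ind ci
  have h : z ∈ FinA.cls a Q ↔ z ≡ a [ZMOD Q] := by
    unfold FinA.cls
    rw [Set.mem_ofPred_eq]
    constructor
    · intro h; exact (Int.modEq_iff_dvd.mpr h).symm
    · intro h; exact h.symm.dvd
  by_cases h1 : z ∈ FinA.cls a Q
  · rw [if_pos h1, if_pos (h.mp h1)]
  · rw [if_neg h1, if_neg (fun h2 => h1 (h.mpr h2))]

theorem ind_nonneg' (A : Set ℤ) (z : ℤ) : 0 ≤ FinA.ind A z := by
  unfold FinA.ind; split_ifs <;> norm_num

theorem ind_le_one' (A : Set ℤ) (z : ℤ) : FinA.ind A z ≤ 1 := by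
  unfold FinA.ind; split_ifs <;> norm_num

theorem ind_bd (A : Set ℤ) : Bd (FinA.ind A) := Bd.of01 (ind_nonneg' A) (ind_le_one' A)

theorem ind_of_mem {A : Set ℤ} {z : ℤ} (h : z ∈ A) : FinA.ind A z = 1 := by
  unfold FinA.ind; rw [if_pos h]

theorem ind_of_notMem {A : Set ℤ} {z : ℤ} (h : z ∉ A) : FinA.ind A z = 0 := by
  unfold FinA.ind; rw [if_neg h]

end Pool.Agent.FIN.T98

namespace Pool.Agent.FinA
open Pool.Agent.FIN.T98 Finset

/-- **M11**: transfer to all classes. -/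
theorem m11 (S : MeanSys) (h6 : M6) (h10 : M10 S) : M11 S := by
  have hm := lm_meanSys S
  intro ε hε Q a hQ hQ2 ha
  have hQr : (0 : ℝ) < Q := by exact_mod_cast hQ
  have he' : (0 : ℝ) < ε / 5 / Q := by positivity
  refine ⟨ε / 5 / Q / 8, by positivity, ?_⟩
  intro J A hdis hsum
  obtain ⟨P, c, b, N, hP, hc, hN, hb01, hbm, hLip, hev⟩ := h10 J A hdis (ε / 5 / Q) he' hsum
  have hb0 : ∀ z, 0 ≤ b z := fun z => (hb01 z).1
  have hb1 : ∀ z, b z ≤ 1 := fun z => (hb01 z).2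
  have hbb : Bd b := Bd.of01 hb0 hb1
  have hst : ∀ δ : ℝ, 0 < δ → ∃ M : ℕ, 0 < M ∧ ∀ M' : ℕ, 0 < M' → ∀ r : ℤ, (M : ℤ) ∣ r →
      ∃ t : ℤ, t ≡ r [ZMOD M'] ∧ N t ≤ δ := by
    intro δ hδ
    obtain ⟨M, hM, h1⟩ := h6 N hN δ hδ
    refine ⟨M, hM, fun M' hM' r hr => ?_⟩
    obtain ⟨t, ht, h2⟩ := h1 M' hM' r hr
    exact ⟨t, (Int.modEq_iff_dvd.mpr ht).symm, h2⟩
  have hL : ∀ (q : ℕ) (x t : ℤ), 0 < q →
      S.m (fun z => ci q x z * |b (z + t) - b z|) ≤ N t * S.m (ci q x) := by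
    intro q x t hq
    have h1 := hLip x q hq t
    have h2 : (fun z => ind (cls x q) z * |b (z + t) - b z|) =
        fun z => ci q x z * |b (z + t) - b z| := by
      funext z; rw [ind_cls]
    rw [h2] at h1
    rw [hm.ci_eq q hq]
    calc _ ≤ N t / q := h1
      _ = N t * (1 / q) := by ring
  have hsm : S.m (fun z => ci Q a z * b z) ≤ (ε / 5) * S.m (ci Q a) := by
    rw [hm.ci_eq Q hQ]
    refine le_trans (hm.mono _ _ ((ci_bd _ _).mul hbb) hbb ?_) (hbm.trans (le_of_eq (by ring)))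
    intro z
    have h1 := mul_le_mul_of_nonneg_right (ci_le_one Q a z) (hb0 z)
    linarith
  obtain ⟨M, hM, hQM, a₁, ha₁, hfin⟩ :=
    transfer_core hm hb0 hb1 hst hL (by positivity : (0 : ℝ) < ε / 5) hQ hsm
  refine ⟨M, a₁, P, c, hM, hQM, ha₁.symm.dvd, hP, hc, ?_⟩
  intro a₂ R hR hMR ha₂
  have hRr : (0 : ℝ) < R := by exact_mod_cast hR
  have h1 := hfin R hR hMR a₂ (Int.modEq_iff_dvd.mpr ha₂).symm
  rw [hm.ci_eq R hR] at h1
  have h2 := hev (ε / 5 / R) (by positivity)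
  filter_upwards [h2] with k hk
  have h2R : (2 : ℤ) ∣ a₂ ∧ (2 : ℤ) ∣ R := by
    have h3 : (2 : ℤ) ∣ M := (by exact_mod_cast hQ2.trans hQM)
    have h4 : (2 : ℤ) ∣ R := (by exact_mod_cast (hQ2.trans hQM).trans hMR)
    have h5 : (2 : ℤ) ∣ a₂ - a₁ := h3.trans ha₂
    have h6 : (2 : ℤ) ∣ a₁ - a := (by exact_mod_cast hQ2 : (2 : ℤ) ∣ Q).trans ha₁.symm.dvd
    refine ⟨?_, h4⟩
    have h7 : a₂ = (a₂ - a₁) + (a₁ - a) + a := by ring
    rw [h7]
    exact dvd_add (dvd_add h5 h6) ha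
  have h3 : ∀ z, ind {z | z ∈ cls a₂ R ∧ ∀ i j, ∀ p ∈ P, ER S (A i) (A j) p.1 p.2 k z < c} z ≤
      2 * (ci R a₂ z * b z) +
        ind {z | Even z ∧ b z < 1 / 2 ∧ ∀ i j, ∀ p ∈ P, ER S (A i) (A j) p.1 p.2 k z < c} z := by
    intro z
    have hx : 0 ≤ ci R a₂ z * b z := mul_nonneg (ci_nonneg _ _ _) (hb0 z)
    by_cases h4 : z ∈ {z | z ∈ cls a₂ R ∧ ∀ i j, ∀ p ∈ P, ER S (A i) (A j) p.1 p.2 k z < c}
    · rw [ind_of_mem h4]
      obtain ⟨h5, h6⟩ := h4
      have h7 : ci R a₂ z = 1 := by rw [← ind_cls, ind_of_mem h5]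
      rw [h7, one_mul]
      by_cases h8 : b z < 1 / 2
      · have h9 : Even z := by
          obtain ⟨x, hx⟩ := h2R.1
          have h10 : (2 : ℤ) ∣ z - a₂ := h2R.2.trans h5
          obtain ⟨y, hy⟩ := h10
          exact even_iff_two_dvd.mpr ⟨x + y, by linarith⟩
        rw [ind_of_mem (show z ∈ {z | Even z ∧ b z < 1 / 2 ∧
          ∀ i j, ∀ p ∈ P, ER S (A i) (A j) p.1 p.2 k z < c} from ⟨h9, h8, h6⟩)]
        have := hb0 z
        linarith
      · push Not at h8
        have := ind_nonneg' {z | Even z ∧ b z < 1 / 2 ∧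
          ∀ i j, ∀ p ∈ P, ER S (A i) (A j) p.1 p.2 k z < c} z
        linarith
    · rw [ind_of_notMem h4]
      have := ind_nonneg' {z | Even z ∧ b z < 1 / 2 ∧
          ∀ i j, ∀ p ∈ P, ER S (A i) (A j) p.1 p.2 k z < c} z
      linarith
  have h4 := hm.mono _ _ (ind_bd _) ((((ci_bd R a₂).mul hbb).smul 2).add (ind_bd _)) h3
  rw [hm.add _ _ (((ci_bd R a₂).mul hbb).smul 2) (ind_bd _), hm.smul _ _ ((ci_bd R a₂).mul hbb)] at h4
  have h5 : 2 * (2 * (ε / 5) * (1 / R)) + ε / 5 / R = ε / R := by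
    field_simp
    ring
  linarith

end Pool.Agent.FinA
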