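import Pool.Agent.Lib.MP_60922f_co.FIN.Stmts43

/-!
FIN, module M2: honest limits (the diagonal property over disjoint blocks).
-/

set_option autoImplicit false

open Filter Topology

namespace Pool.Agent.FinA

namespace M288

variable (S : MeanSys)

theorem nu_mono' {F G : ℤ → ℝ} (k : ℕ) (h : ∀ n, F n ≤ G n) : S.nu k F ≤ S.nu k G :=
  Finset.sum_le_sum fun n _ => mul_le_mul_of_nonneg_left (h n) (S.wt_nonneg k n)

theorem m_lim' {F : ℤ → ℝ} (hF : Bdd F) : Tendsto (fun k => S.nu k F) S.U (𝓝 (S.m F)) :=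
  S.m_lim F hF

theorem m_mono' {F G : ℤ → ℝ} (hF : Bdd F) (hG : Bdd G) (h : ∀ n, F n ≤ G n) : S.m F ≤ S.m G :=
  le_of_tendsto_of_tendsto' (m_lim' S hF) (m_lim' S hG) fun k => nu_mono' S k h

theorem m_lin' {F G : ℤ → ℝ} (hF : Bdd F) (hG : Bdd G) (a b : ℝ) :
    S.m (fun n => a * F n + b * G n) = a * S.m F + b * S.m G := by
  obtain ⟨C, hC⟩ := id hF
  obtain ⟨D, hD⟩ := id hG
  have hB : Bdd (fun n => a * F n + b * G n) := by
    refine ⟨|a| * C + |b| * D, fun n => ?_⟩
    refine (abs_add_le _ _).trans ?_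
    rw [abs_mul, abs_mul]
    exact add_le_add (mul_le_mul_of_nonneg_left (hC n) (abs_nonneg _))
      (mul_le_mul_of_nonneg_left (hD n) (abs_nonneg _))
  refine tendsto_nhds_unique (m_lim' S hB) ?_
  refine (((m_lim' S hF).const_mul a).add ((m_lim' S hG).const_mul b)).congr fun k => ?_
  simp only [MeanSys.nu, Finset.mul_sum, ← Finset.sum_add_distrib]
  refine Finset.sum_congr rfl fun n _ => ?_
  ring

open Classical in
/-- index of the block containing `n` -/
noncomputable def bix (n : ℤ) : ℕ := if h : ∃ k, n ∈ S.blk k then h.choose else 0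

theorem bix_eq {n : ℤ} {k : ℕ} (hn : n ∈ S.blk k) : bix S n = k := by
  have h : ∃ k, n ∈ S.blk k := ⟨k, hn⟩
  rw [bix, dif_pos h]
  by_contra hne
  exact Finset.disjoint_left.1 (S.blk_disj _ _ hne) h.choose_spec hn

open Classical in
/-- the diagonal property -/
theorem diag {X : Type} (d : X → X → ℝ) (F : ℕ → ℤ → X) (eps : ℕ → ℝ)
    (hb : ∃ C : ℝ, ∀ j k n, |d (F j n) (F k n)| ≤ C)
    (h : ∀ k j, k ≤ j → S.m (fun n => d (F k n) (F j n)) < eps k) :
    ∃ J : ℤ → ℕ, (∀ k, ∀ A : Set ℤ, (∀ n ∈ A, J n < k) → S.m (ind A) = 0) ∧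
      ∀ k, S.m (fun n => d (F k n) (F (J n) n)) ≤ eps k := by
  obtain ⟨C, hC⟩ := hb
  let P : ℕ → ℕ → Prop := fun i j => j ≤ i ∧ ∀ k, k ≤ j →
    S.nu i (fun n => d (F k n) (F j n)) < eps k
  have hP : ∀ j, ∀ᶠ i in (S.U : Filter ℕ), P i j := by
    intro j
    have h1 : ∀ᶠ i in (S.U : Filter ℕ), ∀ k ∈ Finset.range (j + 1),
        S.nu i (fun n => d (F k n) (F j n)) < eps k := by
      rw [Filter.eventually_all_finset]
      intro k hk
      have hk' : k ≤ j := by rw [Finset.mem_range] at hk; omega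
      have hbd : Bdd (fun n => d (F k n) (F j n)) := ⟨C, fun n => hC _ _ _⟩
      exact (m_lim' S hbd).eventually (gt_mem_nhds (h k j hk'))
    filter_upwards [h1, (eventually_ge_atTop j).filter_mono S.free] with i hi1 hi2
    refine ⟨hi2, fun k hk => hi1 k ?_⟩
    rw [Finset.mem_range]; omega
  let Jw : ℕ → ℕ := fun i => Nat.findGreatest (P i) i
  refine ⟨fun n => Jw (bix S n), ?_, ?_⟩
  · intro k A hA
    have hbd : Bdd (ind A) := ⟨1, fun n => by unfold ind; split_ifs <;> simp⟩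
    refine tendsto_nhds_unique (m_lim' S hbd) ?_
    refine (tendsto_const_nhds (x := (0 : ℝ))).congr' ?_
    filter_upwards [hP k] with i hi
    unfold MeanSys.nu
    rw [Finset.sum_eq_zero]
    intro n hn
    have hx := bix_eq S hn
    have hk : k ≤ Jw i := Nat.le_findGreatest hi.1 hi
    have hnA : n ∉ A := by
      intro hnA
      have := hA n hnA
      simp only [hx] at this
      omega
    rw [ind, if_neg hnA, mul_zero]
  · intro k
    have hbd : Bdd (fun n => d (F k n) (F (Jw (bix S n)) n)) := ⟨C, fun n => hC _ _ _⟩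
    refine le_of_tendsto (m_lim' S hbd) ?_
    filter_upwards [hP k] with i hi
    have hk : k ≤ Jw i := Nat.le_findGreatest hi.1 hi
    have hs : P i (Jw i) := Nat.findGreatest_spec hi.1 hi
    refine le_of_eq_of_le ?_ (hs.2 k hk).le
    unfold MeanSys.nu
    refine Finset.sum_congr rfl fun n hn => ?_
    simp only [bix_eq S hn]

theorem bdd_sq {F G : ℤ → ℝ} (hF : U01 F) (hG : U01 G) : Bdd (fun n => (F n - G n) ^ 2) := by
  refine ⟨1, fun n => ?_⟩
  have h1 := hF n
  have h2 := hG n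
  rw [abs_of_nonneg (sq_nonneg _)]
  nlinarith

end M288

open M288

theorem m2a (S : MeanSys) : M2a S := by
  intro F hF hcau
  -- subsequence
  have hch : ∀ k : ℕ, ∃ R, ∀ r s, R ≤ r → R ≤ s →
      S.m (fun n => (F r n - F s n) ^ 2) ≤ (1 / 4 : ℝ) ^ (k + 1) :=
    fun k => hcau _ (by positivity)
  choose R hR using hch
  let ρ : ℕ → ℕ := fun k => (Finset.range (k + 1)).sup R
  have hρR : ∀ k, R k ≤ ρ k := fun k =>
    Finset.le_sup (f := R) (Finset.mem_range.2 (Nat.lt_succ_self k))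
  have hρmono : Monotone ρ := by
    intro k l hkl
    exact Finset.sup_mono (Finset.range_mono (by omega))
  have hlt : ∀ k : ℕ, (1 / 4 : ℝ) ^ (k + 1) < (1 / 4 : ℝ) ^ k := by
    intro k
    rw [pow_succ]
    have : (0 : ℝ) < (1 / 4 : ℝ) ^ k := by positivity
    linarith
  obtain ⟨J, -, hJ⟩ := diag S (X := ℝ) (fun x y => (x - y) ^ 2) (fun k n => F (ρ k) n)
    (fun k => (1 / 4 : ℝ) ^ k)
    (by
      refine ⟨1, fun j k n => ?_⟩
      have h1 := hF (ρ j) n
      have h2 := hF (ρ k) n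
      rw [abs_of_nonneg (sq_nonneg _)]
      nlinarith)
    (by
      intro k j hkj
      exact lt_of_le_of_lt (hR k _ _ (hρR k) ((hρR k).trans (hρmono hkj))) (hlt k))
  have hG : U01 (fun n => F (ρ (J n)) n) := fun n => hF _ n
  refine ⟨fun n => F (ρ (J n)) n, hG, ?_⟩
  intro ε hε
  obtain ⟨k, hk⟩ := exists_pow_lt_of_lt_one (x := ε / 4) (by positivity)
    (y := (1 / 4 : ℝ)) (by norm_num)
  refine ⟨ρ k, fun r hr => ?_⟩
  have h1 : S.m (fun n => (F r n - F (ρ k) n) ^ 2) ≤ (1 / 4 : ℝ) ^ (k + 1) :=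
    hR k _ _ ((hρR k).trans hr) (hρR k)
  have h2 : S.m (fun n => (F (ρ k) n - F (ρ (J n)) n) ^ 2) ≤ (1 / 4 : ℝ) ^ k := hJ k
  have h3 : S.m (fun n => (F r n - F (ρ (J n)) n) ^ 2) ≤
      S.m (fun n => 2 * (F r n - F (ρ k) n) ^ 2 + 2 * (F (ρ k) n - F (ρ (J n)) n) ^ 2) := by
    apply m_mono' S (bdd_sq (hF r) hG)
    · refine ⟨4, fun n => ?_⟩
      have e1 := hF r n
      have e2 := hF (ρ k) n
      have e3 := hF (ρ (J n)) n
      rw [abs_of_nonneg (by positivity)]
      nlinarith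
    · intro n
      nlinarith [sq_nonneg ((F r n - F (ρ k) n) - (F (ρ k) n - F (ρ (J n)) n))]
  rw [m_lin' S (bdd_sq (hF r) (hF (ρ k))) (bdd_sq (hF (ρ k)) hG)] at h3
  have := hlt k
  linarith

theorem m2b (S : MeanSys) : M2b S := by
  classical
  intro B hB s hs
  have hanti : ∀ i j, i ≤ j → B j ⊆ B i := by
    intro i j hij
    induction j, hij using Nat.le_induction with
    | base => exact subset_rfl
    | succ j _ ih => exact (hB j).trans ih
  have hbi : ∀ A : Set ℤ, Bdd (ind A) := fun A =>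
    ⟨1, fun n => by unfold ind; split_ifs <;> simp⟩
  have hneg : ∀ A : Set ℤ, S.m (fun n => -ind A n) = -S.m (ind A) := by
    intro A
    have := m_lin' S (hbi A) (hbi A) (-1) 0
    simpa using this
  obtain ⟨J, hJ0, hJ⟩ := diag S (X := ℝ) (fun _ y => -y) (fun k n => ind (B k) n)
    (fun k => -s + 1 / ((k : ℝ) + 1))
    (by
      refine ⟨1, fun j k n => ?_⟩
      unfold ind; split_ifs <;> simp)
    (by
      intro k j _
      have h1 := hneg (B j)
      have h2 := hs j
      have h3 : (0 : ℝ) < 1 / ((k : ℝ) + 1) := by positivity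
      linarith)
  refine ⟨{n | n ∈ B (J n)}, fun n hn => hanti 0 _ (Nat.zero_le _) hn, ?_, ?_⟩
  · intro r
    apply hJ0 r
    rintro n ⟨h1, h2⟩
    by_contra h3
    exact h2 (hanti r (J n) (not_lt.1 h3) h1)
  · have h1 : ∀ k : ℕ, s - 1 / ((k : ℝ) + 1) ≤ S.m (ind {n | n ∈ B (J n)}) := by
      intro k
      have h2 := hJ k
      have h3 : (fun n => -ind (B (J n)) n) = fun n => -ind {n | n ∈ B (J n)} n := by
        funext n
        rfl
      simp only [h3, hneg] at h2
      linarith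
    refine le_of_tendsto' (f := fun k : ℕ => s - 1 / ((k : ℝ) + 1)) (x := atTop) ?_ h1
    have h4 : Tendsto (fun k : ℕ => s - 1 / ((k : ℝ) + 1)) atTop (𝓝 (s - 0)) :=
      tendsto_const_nhds.sub tendsto_one_div_add_atTop_nhds_zero_nat
    simpa using h4

end Pool.Agent.FinA
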