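import Pool.Agent.Lib.MP_60922f_co.FIN.Defs82

/-!
FIN, analytic half: definitions and statements (as `Prop`s) of the modules M1 - M12.
Every module takes the mean system `S : MeanSys` as a parameter.
-/

set_option autoImplicit false

open Filter Topology

namespace Pool.Agent.FinA
open Pool.Agent.FinClique

/-- bounded functions -/
def Bdd (F : ℤ → ℝ) : Prop := ∃ C : ℝ, ∀ n, |F n| ≤ C

/-- functions with values in `[0,1]` -/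
def U01 (F : ℤ → ℝ) : Prop := ∀ n, 0 ≤ F n ∧ F n ≤ 1

open Classical in
/-- indicator function -/
noncomputable def ind (A : Set ℤ) (n : ℤ) : ℝ := if n ∈ A then 1 else 0

/-- residue class `c` modulo `Q` -/
def cls (c : ℤ) (Q : ℕ) : Set ℤ := {n | (Q : ℤ) ∣ n - c}

/-- A mean on bounded functions on `ℤ`: limit along a free ultrafilter of finite weighted averages
over DISJOINT blocks of positive integers, asymptotically shift invariant, with the dilation law. -/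
structure MeanSys where
  U : Ultrafilter ℕ
  blk : ℕ → Finset ℤ
  wt : ℕ → ℤ → ℝ
  m : (ℤ → ℝ) → ℝ
  free : (U : Filter ℕ) ≤ atTop
  wt_nonneg : ∀ k n, 0 ≤ wt k n
  wt_sum : ∀ k, ∑ n ∈ blk k, wt k n = 1
  blk_gt : ∀ k, ∀ n ∈ blk k, (k : ℤ) < n
  blk_disj : ∀ k l, k ≠ l → Disjoint (blk k) (blk l)
  m_lim : ∀ F, Bdd F → Tendsto (fun k => ∑ n ∈ blk k, wt k n * F n) U (𝓝 (m F))
  shift_err : ∀ t : ℤ, ∀ ε > (0 : ℝ), ∀ᶠ k in atTop, ∀ F : ℤ → ℝ, (∀ n, |F n| ≤ 1) →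
    |∑ n ∈ blk k, wt k n * F (n + t) - ∑ n ∈ blk k, wt k n * F n| ≤ ε
  dil_err : ∀ r : ℕ, 0 < r → ∀ ε > (0 : ℝ), ∀ᶠ k in atTop, ∀ F : ℤ → ℝ, (∀ n, |F n| ≤ 1) →
    |∑ n ∈ blk k, wt k n * F (r * n)
      - r * ∑ n ∈ blk k, wt k n * (if (r : ℤ) ∣ n then F n else 0)| ≤ ε

/-- finite average over block `k` -/
noncomputable def MeanSys.nu (S : MeanSys) (k : ℕ) (F : ℤ → ℝ) : ℝ :=
  ∑ n ∈ S.blk k, S.wt k n * F n

/-- M1 (existence): hyperfilter, blocks `(2^(k^2), 2^((k+1)^2)]`, weights `1/n` normalised. -/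
def M1 : Prop := Nonempty MeanSys

/-- totally bounded translation invariant pseudonorm on `ℤ` -/
structure PN (N : ℤ → ℝ) : Prop where
  nonneg : ∀ t, 0 ≤ N t
  zero : N 0 = 0
  neg : ∀ t, N (-t) = N t
  add : ∀ s t, N (s + t) ≤ N s + N t
  tb : ∀ η > 0, ∃ P : Finset ℤ, ∀ t, ∃ s ∈ P, N (t - s) ≤ η

/-- M2a: `L²(m)` Cauchy sequences of functions with values in `[0,1]` have honest limits. -/
def M2a (S : MeanSys) : Prop := ∀ F : ℕ → ℤ → ℝ, (∀ r, U01 (F r)) →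
  (∀ ε > 0, ∃ R, ∀ r s, R ≤ r → R ≤ s → S.m (fun n => (F r n - F s n) ^ 2) ≤ ε) →
  ∃ G : ℤ → ℝ, U01 G ∧ ∀ ε > 0, ∃ R, ∀ r, R ≤ r → S.m (fun n => (F r n - G n) ^ 2) ≤ ε

/-- M2b: decreasing sequences of sets have an honest lower limit. -/
def M2b (S : MeanSys) : Prop := ∀ B : ℕ → Set ℤ, (∀ r, B (r + 1) ⊆ B r) →
  ∀ s : ℝ, (∀ r, s ≤ S.m (ind (B r))) →
  ∃ C : Set ℤ, C ⊆ B 0 ∧ (∀ r, S.m (ind (C \ B r)) = 0) ∧ s ≤ S.m (ind C)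

/-- tie cell: for every `X ∈ A`, `f (X + y) ≠ f (X y)` for almost every `y ∈ A` -/
def TieCell (S : MeanSys) (f : ℕ → Bool) (A : Set ℤ) : Prop :=
  (∀ n ∈ A, 0 < n) ∧ ∀ X ∈ A, S.m (ind {y | y ∈ A ∧ f (X + y).toNat = f (X * y).toNat}) = 0

/-- There is no infinite set all of whose pairwise sums and pairwise products have one colour. -/
def InfBad (f : ℕ → Bool) : Prop :=
  ¬ ∃ a : ℕ → ℕ, StrictMono a ∧ (∀ i, 1 ≤ a i) ∧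
    ∃ c, ∀ i j, i < j → f (a i + a j) = c ∧ f (a i * a j) = c

/-- M3: exhaustion by finitely many disjoint tie cells -/
def M3 (S : MeanSys) : Prop := ∀ f : ℕ → Bool, InfBad f → ∀ θ > (0 : ℝ),
  ∃ (J : ℕ) (A : Fin J → Set ℤ), (∀ i j, i ≠ j → Disjoint (A i) (A j)) ∧
    (∀ i, TieCell S f (A i)) ∧ 1 - ∑ i, S.m (ind (A i)) ≤ θ

/-- M4: splitting into almost periodic and weakly mixing part -/
def M4 (S : MeanSys) : Prop := ∀ g : ℤ → ℝ, U01 g → ∃ N : ℤ → ℝ, PN N ∧ ∀ η > (0 : ℝ),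
  ∃ φ : ℤ → ℝ, Bdd φ ∧ (∀ t : ℤ, S.m (fun x => (φ (x + t) - φ x) ^ 2) ≤ (N t + η) ^ 2) ∧
    ∀ v : ℕ, 0 < v → ∀ᶠ k in (S.U : Filter ℕ),
      S.nu k (fun n => S.nu k (fun n' =>
        |S.m (fun x => (g (x - v * n) - φ (x - v * n)) * (g (x - v * n') - φ (x - v * n')))|)) ≤ η

/-- the density of representations `z = v n + u w`, `n ∈ Y` in block `k`, `w ∈ Y'` -/
noncomputable def EA (S : MeanSys) (u v : ℕ) (Y Y' : Set ℤ) (k : ℕ) (z : ℤ) : ℝ :=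
  S.nu k (ind {n | n ∈ Y ∧ ∃ w ∈ Y', z = v * n + u * w})

/-- M5: `EA` converges in `L²(m)` along `U`; the limit is almost periodic on every class -/
def M5 (S : MeanSys) : Prop := ∀ u v : ℕ, 0 < u → 0 < v → ∀ Y Y' : Set ℤ,
  ∃ A N : ℤ → ℝ, PN N ∧ U01 A ∧
    Tendsto (fun k => S.m (fun z => (EA S u v Y Y' k z - A z) ^ 2)) S.U (𝓝 0) ∧
    ∀ (c : ℤ) (Q : ℕ), 0 < Q → ∀ t : ℤ,
      S.m (fun z => ind (cls c Q) z * |A (z + t) - A z|) ≤ N t / Q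

/-- M6 (star): small elements of `N` in every class of `M ℤ` -/
def M6 : Prop := ∀ N : ℤ → ℝ, PN N → ∀ δ > (0 : ℝ), ∃ M : ℕ, 0 < M ∧
  ∀ R : ℕ, 0 < R → ∀ ρ : ℤ, (M : ℤ) ∣ ρ → ∃ t : ℤ, (R : ℤ) ∣ t - ρ ∧ N t ≤ δ

/-- M7: primes -/
def M7 (S : MeanSys) : Prop := ∃ P : Ultrafilter ℕ, (P : Filter ℕ) ≤ atTop ∧
  (∀ᶠ p in (P : Filter ℕ), p.Prime) ∧
  (∀ G : ℤ → ℝ, Bdd G → Tendsto (fun p : ℕ => S.m (fun n => G (p * n))) P (𝓝 (S.m G))) ∧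
  ∀ G H : ℤ → ℝ, Bdd G → Bdd H → ∃ l : ℝ, ∀ ε > (0 : ℝ),
    ∀ᶠ u : ℕ in (P : Filter ℕ), ∀ᶠ v : ℕ in (P : Filter ℕ),
      |S.m (fun n => G (v * n) * H (u * n)) - l| ≤ ε ∧
      |S.m (fun n => G (u * n) * H (v * n)) - l| ≤ ε

/-- M8: uniform averages of almost periodic functions along classes to generic moduli -/
def M8 (S : MeanSys) : Prop := ∀ w N : ℤ → ℝ, PN N → (∀ x t, |w (x + t) - w x| ≤ N t) →
  ∀ η > (0 : ℝ), ∃ M : ℕ, 0 < M ∧ ∀ Q : ℕ, 0 < Q → Q.Coprime M → ∃ L₀ : ℕ, 0 < L₀ ∧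
    ∀ L : ℕ, L₀ ≤ L → ∀ y a : ℤ,
      |(Q : ℝ) / L * (∑ s ∈ Finset.range L, if (Q : ℤ) ∣ y + s - a then w (y + s) else 0)
        - S.m w| ≤ η

/-- the four-fold correlation of `A` (index `i`), `B` (index `j`), `b` -/
noncomputable def Cor (S : MeanSys) (A B : Set ℤ) (u v : ℕ) (b : ℤ → ℝ) : ℝ :=
  S.m (fun n => S.m (fun w => ind A (v * n) * ind B (u * n) * (ind A (u * w) * ind B (v * w))
    * b (v * n + u * w)))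

/-- M9: positivity, uniform in `b` -/
def M9 (S : MeanSys) : Prop := ∀ (J : ℕ) (A : Fin J → Set ℤ),
  (∀ i j, i ≠ j → Disjoint (A i) (A j)) → ∀ ε > (0 : ℝ), 1 - ∑ i, S.m (ind (A i)) ≤ ε / 8 →
  ∃ κ > (0 : ℝ), ∀ N : ℤ → ℝ, PN N → ∃ c > (0 : ℝ), ∃ u v : ℕ, u.Prime ∧ v.Prime ∧ u < v ∧
    ∀ b : ℤ → ℝ, U01 b → (∀ n, ¬ Even n → b n = 0) → ε ≤ S.m b →
      (∀ t, S.m (fun n => |b (n + t) - b n|) ≤ N t + κ) →
      c ≤ ∑ i, ∑ j, Cor S (A i) (A j) u v b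

/-- `Y = {n : v n ∈ A, u n ∈ B}` (and `Y' = Yset A B u v` with `u, v` exchanged) -/
def Yset (A B : Set ℤ) (u v : ℕ) : Set ℤ := {n | (v : ℤ) * n ∈ A ∧ (u : ℤ) * n ∈ B}

/-- density of representations for the pair of cells `A, B` -/
noncomputable def ER (S : MeanSys) (A B : Set ℤ) (u v : ℕ) (k : ℕ) (z : ℤ) : ℝ :=
  EA S u v (Yset A B u v) (Yset A B v u) k z

/-- M10: almost everywhere positivity -/
def M10 (S : MeanSys) : Prop := ∀ (J : ℕ) (A : Fin J → Set ℤ),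
  (∀ i j, i ≠ j → Disjoint (A i) (A j)) → ∀ ε > (0 : ℝ), 1 - ∑ i, S.m (ind (A i)) ≤ ε / 8 →
  ∃ (P : Finset (ℕ × ℕ)) (c : ℝ) (b N : ℤ → ℝ), (∀ p ∈ P, 0 < p.1 ∧ p.1 < p.2) ∧ 0 < c ∧
    PN N ∧ U01 b ∧ S.m b ≤ ε ∧
    (∀ (a : ℤ) (Q : ℕ), 0 < Q → ∀ t : ℤ,
      S.m (fun z => ind (cls a Q) z * |b (z + t) - b z|) ≤ N t / Q) ∧
    ∀ η > (0 : ℝ), ∀ᶠ k in (S.U : Filter ℕ),
      S.m (ind {z | Even z ∧ b z < 1 / 2 ∧ ∀ i j, ∀ p ∈ P, ER S (A i) (A j) p.1 p.2 k z < c}) ≤ η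

/-- M11: transfer to all classes -/
def M11 (S : MeanSys) : Prop := ∀ ε > (0 : ℝ), ∀ (Q : ℕ) (a : ℤ), 0 < Q → 2 ∣ Q → 2 ∣ a →
  ∃ θ > (0 : ℝ), ∀ (J : ℕ) (A : Fin J → Set ℤ), (∀ i j, i ≠ j → Disjoint (A i) (A j)) →
    1 - ∑ i, S.m (ind (A i)) ≤ θ →
    ∃ (M : ℕ) (a₁ : ℤ) (P : Finset (ℕ × ℕ)) (c : ℝ), 0 < M ∧ Q ∣ M ∧ (Q : ℤ) ∣ a₁ - a ∧
      (∀ p ∈ P, 0 < p.1 ∧ p.1 < p.2) ∧ 0 < c ∧
      ∀ (a₂ : ℤ) (R : ℕ), 0 < R → M ∣ R → (M : ℤ) ∣ a₂ - a₁ → ∀ᶠ k in (S.U : Filter ℕ),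
        S.m (ind {z | z ∈ cls a₂ R ∧ ∀ i j, ∀ p ∈ P, ER S (A i) (A j) p.1 p.2 k z < c}) ≤ ε / R

/-- the set function used in the chain -/
noncomputable def mu (S : MeanSys) (B : Set ℕ) : ℝ := S.m (ind {n | 0 < n ∧ n.toNat ∈ B})

/-- M12: link to the chain -/
def M12 (S : MeanSys) : Prop := M3 S → M11 S → SubMean (mu S) ∧
  ∀ f : ℕ → Bool, InfBad f → Stab (mu S) f

end Pool.Agent.FinA
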