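import Pool.Agent.Lib.MP_60922f_co.FIN.Cells5
import Pool.Agent.Lib.MP_60922f_co.FIN.Stmts43

/-!
FIN, module M3: exhaustion by finitely many disjoint tie cells, for `MeanSys`.
-/

set_option autoImplicit false

open Filter Topology

namespace Pool.Agent.FinA
open Pool.Agent.FinClique

namespace M3h

variable (S : MeanSys)

theorem bdd_ind (A : Set ℤ) : Bdd (ind A) := ⟨1, fun n => by
  unfold ind; split <;> simp⟩

theorem ind_nonneg (A : Set ℤ) (n : ℤ) : 0 ≤ ind A n := by
  unfold ind; split <;> norm_num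

theorem ind_le_one (A : Set ℤ) (n : ℤ) : ind A n ≤ 1 := by
  unfold ind; split <;> norm_num

theorem ge_of_avg {F : ℤ → ℝ} (hF : Bdd F) (r : ℝ) (N₀ : ℤ) (h : ∀ n, N₀ < n → r ≤ F n) :
    r ≤ S.m F := by
  refine ge_of_tendsto (S.m_lim F hF) ?_
  refine S.free (eventually_atTop.2 ⟨N₀.toNat, fun k hk => ?_⟩)
  calc r = ∑ n ∈ S.blk k, S.wt k n * r := by rw [← Finset.sum_mul, S.wt_sum, one_mul]
    _ ≤ ∑ n ∈ S.blk k, S.wt k n * F n := by
      refine Finset.sum_le_sum fun n hn => ?_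
      refine mul_le_mul_of_nonneg_left (h n ?_) (S.wt_nonneg k n)
      have h1 := S.blk_gt k n hn
      omega

theorem le_of_avg {F : ℤ → ℝ} (hF : Bdd F) (r : ℝ) (N₀ : ℤ) (h : ∀ n, N₀ < n → F n ≤ r) :
    S.m F ≤ r := by
  refine le_of_tendsto (S.m_lim F hF) ?_
  refine S.free (eventually_atTop.2 ⟨N₀.toNat, fun k hk => ?_⟩)
  calc ∑ n ∈ S.blk k, S.wt k n * F n ≤ ∑ n ∈ S.blk k, S.wt k n * r := by
        refine Finset.sum_le_sum fun n hn => ?_
        refine mul_le_mul_of_nonneg_left (h n ?_) (S.wt_nonneg k n)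
        have h1 := S.blk_gt k n hn
        omega
    _ = r := by rw [← Finset.sum_mul, S.wt_sum, one_mul]

theorem mono {F G : ℤ → ℝ} (hF : Bdd F) (hG : Bdd G) (h : ∀ n, F n ≤ G n) : S.m F ≤ S.m G := by
  refine le_of_tendsto_of_tendsto' (S.m_lim F hF) (S.m_lim G hG) fun k => ?_
  exact Finset.sum_le_sum fun n _ => mul_le_mul_of_nonneg_left (h n) (S.wt_nonneg k n)

theorem add {F G : ℤ → ℝ} (hF : Bdd F) (hG : Bdd G) : S.m (fun n => F n + G n) = S.m F + S.m G := by
  have hFG : Bdd (fun n => F n + G n) := by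
    obtain ⟨C, hC⟩ := hF
    obtain ⟨D, hD⟩ := hG
    exact ⟨C + D, fun n => (abs_add_le _ _).trans (add_le_add (hC n) (hD n))⟩
  refine tendsto_nhds_unique (S.m_lim _ hFG) ?_
  refine ((S.m_lim F hF).add (S.m_lim G hG)).congr fun k => ?_
  rw [← Finset.sum_add_distrib]
  exact Finset.sum_congr rfl fun n _ => by ring

/-- the lift of a set of naturals to the positive integers -/
def lift (B : Set ℕ) : Set ℤ := {n | 0 < n ∧ n.toNat ∈ B}

theorem setMean : SetMean (mu S) where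
  nonneg A := ge_of_avg S (bdd_ind _) 0 0 fun n _ => ind_nonneg _ n
  mono A B hAB := mono S (bdd_ind _) (bdd_ind _) fun n => by
    unfold ind
    by_cases h : n ∈ {n : ℤ | 0 < n ∧ n.toNat ∈ A}
    · rw [if_pos h, if_pos (show n ∈ {n : ℤ | 0 < n ∧ n.toNat ∈ B} from ⟨h.1, hAB h.2⟩)]
    · rw [if_neg h]; split <;> norm_num
  add A B hAB := by
    unfold mu
    rw [← add S (bdd_ind _) (bdd_ind _)]
    congr 1
    funext n
    unfold ind
    by_cases h0 : 0 < n
    · by_cases hA : n.toNat ∈ A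
      · have hB : n.toNat ∉ B := Set.disjoint_left.1 hAB hA
        simp [h0, hA, hB]
      · by_cases hB : n.toNat ∈ B
        · simp [h0, hA, hB]
        · simp [h0, hA, hB]
    · simp [h0]
  finite A hA := by
    obtain ⟨M, hM⟩ := hA.bddAbove
    refine le_antisymm (le_of_avg S (bdd_ind _) 0 M fun n hn => ?_)
      (ge_of_avg S (bdd_ind _) 0 0 fun n _ => ind_nonneg _ n)
    unfold ind
    rw [if_neg]
    rintro ⟨_, h2⟩
    have := hM h2
    omega
  univ := by
    refine le_antisymm (le_of_avg S (bdd_ind _) 1 0 fun n _ => ind_le_one _ n)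
      (ge_of_avg S (bdd_ind _) 1 0 fun n hn => ?_)
    unfold ind
    rw [if_pos]
    exact ⟨hn, Set.mem_univ _⟩

theorem decrLim (h2 : M2b S) : DecrLim (mu S) := by
  intro B hB
  by_cases hs : ∃ s : ℝ, (∀ n, s ≤ mu S (B n))
  · -- the infimum
    set s : ℝ := ⨅ n, mu S (B n) with hsdef
    have hbd : BddBelow (Set.range fun n => mu S (B n)) := by
      obtain ⟨s, hs⟩ := hs
      exact ⟨s, by rintro _ ⟨n, rfl⟩; exact hs n⟩
    obtain ⟨C, hC0, hC1, hC2⟩ := h2 (fun n => lift (B n)) (fun r n hn => ⟨hn.1, hB r hn.2⟩) s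
      (fun r => ciInf_le hbd r)
    refine ⟨{n | 0 < n ∧ (n : ℤ) ∈ C}, fun n => ?_, fun r hr => ?_⟩
    · have h3 : (lift {n : ℕ | 0 < n ∧ (n : ℤ) ∈ C} \ lift (B n)) ⊆ C \ lift (B n) := by
        rintro x ⟨⟨hx0, hx1, hx2⟩, hx3⟩
        refine ⟨?_, hx3⟩
        rwa [Int.toNat_of_nonneg hx0.le] at hx2
      refine le_antisymm ?_ ((setMean S).nonneg _)
      rw [← hC1 n]
      refine mono S (bdd_ind _) (bdd_ind _) fun x => ?_
      unfold ind
      by_cases h : x ∈ {n_1 : ℤ | 0 < n_1 ∧ n_1.toNat ∈ {n : ℕ | 0 < n ∧ (n : ℤ) ∈ C} \ B n}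
      · rw [if_pos h, if_pos]
        exact h3 ⟨⟨h.1, h.2.1⟩, fun h4 => h.2.2 h4.2⟩
      · rw [if_neg h]; split <;> norm_num
    · have h3 : s ≤ mu S {n | 0 < n ∧ (n : ℤ) ∈ C} := by
        refine hC2.trans (mono S (bdd_ind _) (bdd_ind _) fun x => ?_)
        unfold ind
        by_cases h : x ∈ C
        · have h0 : 0 < x := (hC0 h).1
          rw [if_pos h, if_pos]
          refine ⟨h0, ?_, ?_⟩
          · omega
          · rwa [Int.toNat_of_nonneg h0.le]
        · rw [if_neg h]; split <;> norm_num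
      exact le_trans (le_ciInf hr) h3
  · exact absurd ⟨0, fun n => (setMean S).nonneg _⟩ hs

theorem tieCell_lift {f : ℕ → Bool} {A : Set ℕ} (hA : FinClique.TieCell (mu S) f A) :
    TieCell S f (lift A) := by
  refine ⟨fun n hn => hn.1, fun X hX => ?_⟩
  have h1 := hA X.toNat hX.2
  refine le_antisymm ?_ (ge_of_avg S (bdd_ind _) 0 0 fun n _ => ind_nonneg _ n)
  rw [← h1]
  refine mono S (bdd_ind _) (bdd_ind _) fun y => ?_
  unfold ind
  by_cases h : y ∈ {y | y ∈ lift A ∧ f (X + y).toNat = f (X * y).toNat}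
  · rw [if_pos h, if_pos]
    refine ⟨h.1.1, h.1.2, ?_⟩
    intro hne
    apply hne
    have h2 := h.2
    have hX0 := hX.1
    have hy0 := h.1.1
    have e1 : (X + y).toNat = X.toNat + y.toNat := Int.toNat_add hX0.le hy0.le
    have e2 : (X * y).toNat = X.toNat * y.toNat := Int.toNat_mul hX0.le hy0.le
    rw [e1, e2] at h2
    exact h2
  · rw [if_neg h]; split <;> norm_num

end M3h

/-- No infinite clique all of whose finite parts have a set of positive mean of common partners. -/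
def PosBad (S : MeanSys) (f : ℕ → Bool) : Prop :=
  ¬ ∃ (a : ℕ → ℕ) (c : Bool), StrictMono a ∧ (∀ i, 1 ≤ a i) ∧
    (∀ i j, i < j → f (a i + a j) = c ∧ f (a i * a j) = c) ∧
    ∀ k, 0 < mu S {y | ∀ i < k, f (a i + y) = c ∧ f (a i * y) = c}

theorem posBad_of_infBad (S : MeanSys) {f : ℕ → Bool} (h : InfBad f) : PosBad S f := by
  rintro ⟨a, c, h1, h2, h3, _⟩
  exact h ⟨a, h1, h2, c, h3⟩

/-- stronger form of M3 -/
theorem m3_posBad (S : MeanSys) (h2 : M2b S) (f : ℕ → Bool) (hf : PosBad S f) (θ : ℝ)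
    (hθ : 0 < θ) :
    ∃ (J : ℕ) (A : Fin J → Set ℤ), (∀ i j, i ≠ j → Disjoint (A i) (A j)) ∧
      (∀ i, TieCell S f (A i)) ∧ 1 - ∑ i, S.m (ind (A i)) ≤ θ := by
  obtain ⟨l, h1, h3, h4, _⟩ := cells_exhaust (M3h.setMean S) (M3h.decrLim S h2) hf hθ
  refine ⟨l.length, fun i => M3h.lift (l.get i), ?_, ?_, ?_⟩
  · intro i j hij
    have key : ∀ i j : Fin l.length, i < j → Disjoint (l.get i) (l.get j) := by
      rw [List.pairwise_iff_get] at h3
      exact h3
    have h5 : Disjoint (l.get i) (l.get j) := by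
      rcases lt_or_gt_of_ne hij with h | h
      · exact key i j h
      · exact (key j i h).symm
    refine Set.disjoint_left.2 fun x hx hx2 => ?_
    exact Set.disjoint_left.1 h5 hx.2 hx2.2
  · intro i
    exact M3h.tieCell_lift S (h1 _ (List.get_mem l i))
  · have h5 : (l.map (mu S)).sum = ∑ i : Fin l.length, S.m (ind (M3h.lift (l.get i))) := by
      have h6 : (l.map (mu S)).sum = (List.ofFn fun i : Fin l.length => mu S (l.get i)).sum := by
        congr 1
        exact (List.ofFn_getElem_eq_map l (mu S)).symm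
      rw [h6, List.sum_ofFn]
      rfl
    rw [← h5]
    linarith

theorem m3 (S : MeanSys) (h2 : M2b S) : M3 S := fun f hf θ hθ =>
  m3_posBad S h2 f (posBad_of_infBad S hf) θ hθ

end Pool.Agent.FinA
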