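import Pool.Agent.Lib.MP_60922f_co.FIN.Wiener69

/-!
Splitting of a vector in an almost periodic vector and a vector orthogonal to all eigenvectors
of a linear isometry, and the pseudonorm on `ℤ` of an almost periodic vector.
-/

open Finset Filter Topology
open scoped InnerProductSpace ComplexConjugate

namespace Pool.Agent.FIN.W69

variable {H : Type*} [NormedAddCommGroup H] [InnerProductSpace ℂ H] (T : H →ₗᵢ[ℂ] H)

/-- almost periodic vectors: totally bounded orbits -/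
def IsAP (x : H) : Prop :=
  ∀ η > (0 : ℝ), ∃ P : Finset ℕ, ∀ n : ℕ, ∃ s ∈ P, ‖T^[n] x - T^[s] x‖ ≤ η

lemma exists_rep {ι : Type*} (P : Finset ι) (c : ℕ → ι) (hc : ∀ n, c n ∈ P) :
    ∃ Q : Finset ℕ, ∀ n, ∃ s ∈ Q, c s = c n := by
  classical
  refine ⟨P.image (fun i => if h : ∃ n, c n = i then h.choose else 0), fun n => ?_⟩
  have h : ∃ m, c m = c n := ⟨n, rfl⟩
  refine ⟨h.choose, ?_, h.choose_spec⟩
  refine mem_image.2 ⟨c n, hc n, ?_⟩
  rw [dif_pos h]

lemma it_sub (n : ℕ) (x y : H) : T^[n] (x - y) = T^[n] x - T^[n] y := by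
  have h := it_add T n (x - y) y
  rw [sub_add_cancel] at h
  rw [h]; abel

lemma IsAP.add {x y : H} (hx : IsAP T x) (hy : IsAP T y) : IsAP T (x + y) := by
  intro η hη
  obtain ⟨P, hP⟩ := hx (η / 4) (by positivity)
  obtain ⟨Q, hQ⟩ := hy (η / 4) (by positivity)
  choose s hs1 hs2 using hP
  choose t ht1 ht2 using hQ
  obtain ⟨R, hR⟩ := exists_rep (P ×ˢ Q) (fun n => (s n, t n))
    (fun n => mem_product.2 ⟨hs1 n, ht1 n⟩)
  refine ⟨R, fun n => ?_⟩
  obtain ⟨r, hr, he⟩ := hR n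
  refine ⟨r, hr, ?_⟩
  have e1 : s r = s n := (Prod.ext_iff.1 he).1
  have e2 : t r = t n := (Prod.ext_iff.1 he).2
  have a1 := hs2 n
  have a2 := hs2 r
  have b1 := ht2 n
  have b2 := ht2 r
  rw [e1] at a2
  rw [e2] at b2
  have h : T^[n] (x + y) - T^[r] (x + y) = (T^[n] x - T^[s n] x) - (T^[r] x - T^[s n] x)
      + ((T^[n] y - T^[t n] y) - (T^[r] y - T^[t n] y)) := by
    rw [it_add, it_add]; abel
  rw [h]
  refine (norm_add_le _ _).trans ?_
  have c1 := norm_sub_le (T^[n] x - T^[s n] x) (T^[r] x - T^[s n] x)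
  have c2 := norm_sub_le (T^[n] y - T^[t n] y) (T^[r] y - T^[t n] y)
  linarith

lemma IsAP.smul {x : H} (c : ℂ) (hx : IsAP T x) : IsAP T (c • x) := by
  intro η hη
  obtain ⟨P, hP⟩ := hx (η / (‖c‖ + 1)) (by positivity)
  refine ⟨P, fun n => ?_⟩
  obtain ⟨s, hs, h⟩ := hP n
  refine ⟨s, hs, ?_⟩
  rw [it_smul, it_smul, ← smul_sub, norm_smul]
  rw [le_div_iff₀ (by positivity)] at h
  have := norm_nonneg (T^[n] x - T^[s] x)
  linarith

lemma IsAP.zero : IsAP T (0 : H) := by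
  intro η hη
  refine ⟨{0}, fun n => ⟨0, by simp, ?_⟩⟩
  simp only [it_zero, sub_zero, norm_zero]
  exact hη.le

lemma IsAP.of_approx {x : H} (h : ∀ δ > (0 : ℝ), ∃ y, IsAP T y ∧ ‖x - y‖ ≤ δ) : IsAP T x := by
  intro η hη
  obtain ⟨y, hy, hxy⟩ := h (η / 4) (by positivity)
  obtain ⟨P, hP⟩ := hy (η / 4) (by positivity)
  refine ⟨P, fun n => ?_⟩
  obtain ⟨s, hs, h⟩ := hP n
  refine ⟨s, hs, ?_⟩
  have e : T^[n] x - T^[s] x = T^[n] (x - y) - T^[s] (x - y) + (T^[n] y - T^[s] y) := by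
    rw [it_sub, it_sub]; abel
  rw [e]
  have c1 := norm_add_le (T^[n] (x - y) - T^[s] (x - y)) (T^[n] y - T^[s] y)
  have c2 := norm_sub_le (T^[n] (x - y)) (T^[s] (x - y))
  rw [it_norm, it_norm] at c2
  linarith

lemma it_eig {x : H} {z : ℂ} (h : T x = z • x) (n : ℕ) : T^[n] x = z ^ n • x := by
  induction n with
  | zero => simp
  | succ n ih => rw [Function.iterate_succ_apply', ih, map_smul, h, smul_smul, pow_succ]

lemma IsAP.eig {x : H} {z : ℂ} (hz : ‖z‖ = 1) (h : T x = z • x) : IsAP T x := by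
  intro η hη
  have htb : TotallyBounded (Metric.sphere (0 : ℂ) 1) := (isCompact_sphere _ _).totallyBounded
  set ε := η / (2 * (‖x‖ + 1)) with hε
  have hε0 : 0 < ε := by positivity
  obtain ⟨t, ht1, ht2⟩ := Metric.totallyBounded_iff.1 htb ε hε0
  have h1 : ∀ n : ℕ, ∃ y ∈ ht1.toFinset, dist (z ^ n) y < ε := by
    intro n
    have : z ^ n ∈ Metric.sphere (0 : ℂ) 1 := by simp [hz]
    have := ht2 this
    simp only [Set.mem_iUnion, Metric.mem_ball, exists_prop] at this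
    obtain ⟨y, hy, hy2⟩ := this
    exact ⟨y, by simpa using hy, hy2⟩
  choose c hc1 hc2 using h1
  obtain ⟨Q, hQ⟩ := exists_rep ht1.toFinset c hc1
  refine ⟨Q, fun n => ?_⟩
  obtain ⟨s, hs, he⟩ := hQ n
  refine ⟨s, hs, ?_⟩
  rw [it_eig T h, it_eig T h, ← sub_smul, norm_smul]
  have a1 := hc2 n
  have a2 := hc2 s
  rw [he] at a2
  have a3 : ‖z ^ n - z ^ s‖ ≤ 2 * ε := by
    rw [← dist_eq_norm]
    have := dist_triangle_right (z ^ n) (z ^ s) (c n)
    linarith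
  calc ‖z ^ n - z ^ s‖ * ‖x‖ ≤ 2 * ε * (‖x‖ + 1) := by
        gcongr; linarith
    _ = η := by rw [hε]; field_simp

/-- splitting -/
theorem split [CompleteSpace H] (x : H) : ∃ a h : H, x = a + h ∧ IsAP T a ∧
    ∀ (z : ℂ) (w : H), ‖z‖ = 1 → T w = z • w → inner ℂ w h = 0 := by
  set E : Set H := {w | ∃ z : ℂ, ‖z‖ = 1 ∧ T w = z • w} with hE
  set K := (Submodule.span ℂ E).topologicalClosure with hK
  have : CompleteSpace K := (Submodule.isClosed_topologicalClosure _).completeSpace_coe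
  obtain ⟨a, ha, h, hh, rfl⟩ := K.exists_add_mem_mem_orthogonal x
  refine ⟨a, h, rfl, ?_, ?_⟩
  · have hspan : ∀ y ∈ Submodule.span ℂ E, IsAP T y := by
      intro y hy
      induction hy using Submodule.span_induction with
      | mem y hy => obtain ⟨z, hz, hy⟩ := hy; exact IsAP.eig T hz hy
      | zero => exact IsAP.zero T
      | add y z _ _ h1 h2 => exact IsAP.add T h1 h2
      | smul c y _ h1 => exact IsAP.smul T c h1
    refine IsAP.of_approx T fun δ hδ => ?_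
    have ha' : a ∈ closure (Submodule.span ℂ E : Set H) := ha
    obtain ⟨y, hy, hay⟩ := Metric.mem_closure_iff.1 ha' δ hδ
    exact ⟨y, hspan y hy, by rw [← dist_eq_norm]; exact hay.le⟩
  · intro z w hz hw
    refine (Submodule.mem_orthogonal _ _).1 hh w ?_
    exact Submodule.le_topologicalClosure _ (Submodule.subset_span ⟨z, hz, hw⟩)

/-- the pseudonorm of a vector -/
noncomputable def NN (a : H) (t : ℤ) : ℝ := ‖T^[t.toNat] a - T^[(-t).toNat] a‖

lemma NN_eq (a : H) {t : ℤ} (m n : ℕ) (h : t = (m : ℤ) - n) :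
    NN T a t = ‖T^[m] a - T^[n] a‖ := by
  obtain ⟨k, hm, hn⟩ : ∃ k : ℕ, m = k + t.toNat ∧ n = k + (-t).toNat :=
    ⟨min m n, by omega, by omega⟩
  rw [hm, hn, Function.iterate_add_apply, Function.iterate_add_apply, ← it_sub, it_norm, NN]

lemma exists_sub (t : ℤ) : ∃ m n : ℕ, t = (m : ℤ) - n := ⟨t.toNat, (-t).toNat, by omega⟩

lemma NN_zero (a : H) : NN T a 0 = 0 := by
  rw [NN_eq T a 0 0 (by simp)]; simp

lemma NN_neg (a : H) (t : ℤ) : NN T a (-t) = NN T a t := by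
  obtain ⟨m, n, h⟩ := exists_sub t
  rw [NN_eq T a m n h, NN_eq T a n m (by rw [h]; ring), norm_sub_rev]

lemma NN_add (a : H) (s t : ℤ) : NN T a (s + t) ≤ NN T a s + NN T a t := by
  obtain ⟨p, q, h1⟩ := exists_sub s
  obtain ⟨m, n, h2⟩ := exists_sub t
  rw [NN_eq T a (m + p) (n + q) (by rw [h1, h2]; push_cast; ring), NN_eq T a p q h1,
    NN_eq T a m n h2]
  have e : T^[m + p] a - T^[n + q] a = T^[m] (T^[p] a - T^[q] a) + T^[q] (T^[m] a - T^[n] a) := by
    rw [it_sub, it_sub, ← Function.iterate_add_apply, ← Function.iterate_add_apply,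
      ← Function.iterate_add_apply, ← Function.iterate_add_apply, add_comm q m, add_comm q n]
    abel
  rw [e]
  refine (norm_add_le _ _).trans ?_
  rw [it_norm, it_norm]

lemma NN_tb {a : H} (ha : IsAP T a) (η : ℝ) (hη : 0 < η) :
    ∃ P : Finset ℤ, ∀ t : ℤ, ∃ s ∈ P, NN T a (t - s) ≤ η := by
  classical
  obtain ⟨P, hP⟩ := ha η hη
  refine ⟨P.image (fun n : ℕ => (n : ℤ)) ∪ P.image (fun n : ℕ => -(n : ℤ)), fun t => ?_⟩
  by_cases h0 : 0 ≤ t
  · obtain ⟨n, rfl⟩ := Int.eq_ofNat_of_zero_le h0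
    obtain ⟨s, hs, h⟩ := hP n
    refine ⟨(s : ℤ), ?_, ?_⟩
    · exact mem_union_left _ (mem_image.2 ⟨s, hs, rfl⟩)
    · rw [NN_eq T a n s rfl]; exact h
  · obtain ⟨n, hn⟩ := Int.eq_ofNat_of_zero_le (show 0 ≤ -t by omega)
    obtain ⟨s, hs, h⟩ := hP n
    refine ⟨-(s : ℤ), ?_, ?_⟩
    · exact mem_union_right _ (mem_image.2 ⟨s, hs, rfl⟩)
    · rw [NN_eq T a s n (by omega), norm_sub_rev]; exact h

end Pool.Agent.FIN.W69
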