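import Pool.Agent.Lib.MP_60922f_co.FIN.Calc55
import Pool.Agent.Lib.MP_60922f_co.FIN.Split69

/-!
M4: every function with values in `[0,1]` is the sum of an almost periodic part and a part which
correlates weakly with its own translates. Completion of the bounded complex functions, mean
ergodic theorem and the elementary Wiener lemma.
-/

set_option autoImplicit false

open Filter Topology
open scoped InnerProductSpace ComplexConjugate

namespace Pool.Agent.FinA
namespace M4w

/-- bounded complex functions -/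
def CBdd (F : ℤ → ℂ) : Prop := ∃ C : ℝ, ∀ n, ‖F n‖ ≤ C

lemma CBdd.add {F G : ℤ → ℂ} (hF : CBdd F) (hG : CBdd G) : CBdd (fun n => F n + G n) := by
  obtain ⟨C, hC⟩ := hF
  obtain ⟨D, hD⟩ := hG
  exact ⟨C + D, fun n => (norm_add_le _ _).trans (add_le_add (hC n) (hD n))⟩

lemma CBdd.mul {F G : ℤ → ℂ} (hF : CBdd F) (hG : CBdd G) : CBdd (fun n => F n * G n) := by
  obtain ⟨C, hC⟩ := hF
  obtain ⟨D, hD⟩ := hG
  refine ⟨C * D, fun n => ?_⟩
  rw [norm_mul]
  exact mul_le_mul (hC n) (hD n) (norm_nonneg _) ((norm_nonneg _).trans (hC n))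

lemma CBdd.const (c : ℂ) : CBdd (fun _ => c) := ⟨‖c‖, fun _ => le_rfl⟩

lemma CBdd.conj {F : ℤ → ℂ} (hF : CBdd F) : CBdd (fun n => conj (F n)) := by
  obtain ⟨C, hC⟩ := hF
  exact ⟨C, fun n => by rw [RCLike.norm_conj]; exact hC n⟩

lemma CBdd.comp {F : ℤ → ℂ} (hF : CBdd F) (e : ℤ → ℤ) : CBdd (fun n => F (e n)) := by
  obtain ⟨C, hC⟩ := hF
  exact ⟨C, fun n => hC _⟩

lemma CBdd.re {F : ℤ → ℂ} (hF : CBdd F) : Bdd (fun n => (F n).re) := by
  obtain ⟨C, hC⟩ := hF
  exact ⟨C, fun n => (Complex.abs_re_le_norm _).trans (hC n)⟩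

lemma CBdd.im {F : ℤ → ℂ} (hF : CBdd F) : Bdd (fun n => (F n).im) := by
  obtain ⟨C, hC⟩ := hF
  exact ⟨C, fun n => (Complex.abs_im_le_norm _).trans (hC n)⟩

lemma CBdd.ofReal {F : ℤ → ℝ} (hF : Bdd F) : CBdd (fun n => (F n : ℂ)) := by
  obtain ⟨C, hC⟩ := hF
  exact ⟨C, fun n => by rw [Complex.norm_real]; exact hC n⟩

variable (S : MeanSys)

/-- complex mean -/
noncomputable def mc (F : ℤ → ℂ) : ℂ := ⟨S.m fun x => (F x).re, S.m fun x => (F x).im⟩

lemma mc_add {F G : ℤ → ℂ} (hF : CBdd F) (hG : CBdd G) :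
    mc S (fun n => F n + G n) = mc S F + mc S G := by
  apply Complex.ext
  · simp only [mc, Complex.add_re]
    exact S.pf.add hF.re hG.re
  · simp only [mc, Complex.add_im]
    exact S.pf.add hF.im hG.im

lemma mc_smul (c : ℂ) {F : ℤ → ℂ} (hF : CBdd F) : mc S (fun n => c * F n) = c * mc S F := by
  apply Complex.ext
  · simp only [mc, Complex.mul_re]
    rw [S.pf.sub (hF.re.smul _) (hF.im.smul _), S.pf.smul _ hF.re, S.pf.smul _ hF.im]
  · simp only [mc, Complex.mul_im]
    rw [S.pf.add (hF.im.smul _) (hF.re.smul _), S.pf.smul _ hF.re, S.pf.smul _ hF.im]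

lemma mc_conj {F : ℤ → ℂ} (hF : CBdd F) : mc S (fun n => conj (F n)) = conj (mc S F) := by
  apply Complex.ext
  · simp only [mc, Complex.conj_re]
  · simp only [mc, Complex.conj_im]
    exact S.pf.neg hF.im

/-- bounded complex functions as a submodule -/
def CB : Submodule ℂ (ℤ → ℂ) where
  carrier := {F | CBdd F}
  add_mem' := fun hF hG => CBdd.add hF hG
  zero_mem' := ⟨0, fun n => by simp⟩
  smul_mem' := fun c _ hF => (CBdd.const c).mul hF

/-- the space of bounded complex functions with the seminorm of the mean system -/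
def Pre (_ : MeanSys) : Type := CB

noncomputable instance : AddCommGroup (Pre S) := inferInstanceAs (AddCommGroup CB)
noncomputable instance : Module ℂ (Pre S) := inferInstanceAs (Module ℂ CB)

variable {S}

/-- underlying function -/
def fn (F : Pre S) : ℤ → ℂ := Subtype.val (p := (· ∈ CB)) F

lemma fn_cb (F : Pre S) : CBdd (fn F) := Subtype.property (p := (· ∈ CB)) F

variable (S) in
/-- constructor -/
def mkP (F : ℤ → ℂ) (h : CBdd F) : Pre S := (⟨F, h⟩ : CB)

lemma fn_mk (F : ℤ → ℂ) (h : CBdd F) : fn (mkP S F h) = F := rfl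
lemma fn_add (F G : Pre S) (n : ℤ) : fn (F + G) n = fn F n + fn G n := rfl
lemma fn_sub (F G : Pre S) (n : ℤ) : fn (F - G) n = fn F n - fn G n := rfl
lemma fn_smul (c : ℂ) (F : Pre S) (n : ℤ) : fn (c • F) n = c * fn F n := rfl

/-- the semi inner product -/
noncomputable abbrev core : PreInnerProductSpace.Core ℂ (Pre S) where
  inner F G := mc S (fun x => conj (fn F x) * fn G x)
  conj_inner_symm F G := by
    rw [← mc_conj S ((fn_cb G).conj.mul (fn_cb F))]
    congr 1
    funext x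
    rw [map_mul, Complex.conj_conj, mul_comm]
  re_inner_nonneg F := by
    refine S.pf.nonneg ((fn_cb F).conj.mul (fn_cb F)).re fun n => ?_
    show 0 ≤ (conj (fn F n) * fn F n).re
    rw [← Complex.normSq_eq_conj_mul_self, Complex.ofReal_re]
    exact Complex.normSq_nonneg _
  add_left F G K := by
    rw [← mc_add S ((fn_cb F).conj.mul (fn_cb K)) ((fn_cb G).conj.mul (fn_cb K))]
    congr 1
    funext x
    rw [fn_add, map_add, add_mul]
  smul_left F G r := by
    rw [← mc_smul S _ ((fn_cb F).conj.mul (fn_cb G))]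
    congr 1
    funext x
    rw [fn_smul, map_mul, mul_assoc]

noncomputable instance : SeminormedAddCommGroup (Pre S) :=
  InnerProductSpace.Core.toSeminormedAddCommGroup (c := core (S := S))
noncomputable instance : InnerProductSpace ℂ (Pre S) :=
  InnerProductSpace.ofCore (core (S := S))

lemma inner_def (F G : Pre S) : inner ℂ F G = mc S (fun x => conj (fn F x) * fn G x) := rfl

lemma norm_sq_def (F : Pre S) : ‖F‖ ^ 2 = S.m (fun x => ‖fn F x‖ ^ 2) := by
  have h := inner_self_eq_norm_sq (𝕜 := ℂ) F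
  rw [← h, inner_def]
  show S.m _ = S.m _
  congr 1
  funext x
  show (conj (fn F x) * fn F x).re = _
  rw [← Complex.normSq_eq_conj_mul_self, Complex.ofReal_re, Complex.normSq_eq_norm_sq]

/-- the shift -/
noncomputable def sh : Pre S →ₗ[ℂ] Pre S where
  toFun F := mkP S (fun x => fn F (x - 1)) ((fn_cb F).comp _)
  map_add' _ _ := rfl
  map_smul' _ _ := rfl

lemma sh_norm (F : Pre S) : ‖sh F‖ = ‖F‖ := by
  have h : ‖sh F‖ ^ 2 = ‖F‖ ^ 2 := by
    rw [norm_sq_def, norm_sq_def]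
    have hb : Bdd (fun x => ‖fn F x‖ ^ 2) := by
      obtain ⟨C, hC⟩ := fn_cb F
      refine ⟨C ^ 2, fun n => ?_⟩
      rw [abs_of_nonneg (by positivity)]
      exact pow_le_pow_left₀ (norm_nonneg _) (hC n) 2
    exact S.m_shift_sub 1 hb
  exact (pow_left_inj₀ (norm_nonneg _) (norm_nonneg _) two_ne_zero).1 h

/-- the shift as a linear isometry -/
noncomputable def shI : Pre S →ₗᵢ[ℂ] Pre S := ⟨sh, sh_norm⟩

lemma fn_sh_it (F : Pre S) (n : ℕ) (x : ℤ) : fn (shI^[n] F) x = fn F (x - n) := by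
  induction n generalizing x with
  | zero => simp
  | succ n ih =>
    rw [Function.iterate_succ_apply']
    show fn (shI^[n] F) (x - 1) = _
    rw [ih]
    congr 1
    push_cast; ring

variable (S) in
/-- the Hilbert space -/
abbrev Hil := UniformSpace.Completion (Pre S)

/-- the extended shift -/
noncomputable def TT : Hil S →ₗᵢ[ℂ] Hil S where
  toLinearMap := (shI (S := S)).toContinuousLinearMap.completion.toLinearMap
  norm_map' x := by
    induction x using UniformSpace.Completion.induction_on with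
    | hp =>
      exact isClosed_eq ((shI (S := S)).toContinuousLinearMap.completion.continuous.norm)
        continuous_norm
    | ih a =>
      have : (shI (S := S)).toContinuousLinearMap.completion (a : Hil S) = ((shI a : Pre S) : Hil S) :=
        ContinuousLinearMap.completion_apply_coe _ a
      show ‖(shI (S := S)).toContinuousLinearMap.completion (a : Hil S)‖ = _
      rw [this, UniformSpace.Completion.norm_coe, UniformSpace.Completion.norm_coe, shI.norm_map]

lemma TT_coe (a : Pre S) : TT (a : Hil S) = ((shI a : Pre S) : Hil S) :=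
  ContinuousLinearMap.completion_apply_coe _ a

lemma TT_it_coe (a : Pre S) (n : ℕ) : TT^[n] (a : Hil S) = ((shI^[n] a : Pre S) : Hil S) := by
  induction n with
  | zero => rfl
  | succ n ih => rw [Function.iterate_succ_apply', ih, TT_coe, Function.iterate_succ_apply']

open Pool.Agent.FIN.W69 in
lemma PN_NN {a : Hil S} (ha : IsAP TT a) : PN (NN TT a) where
  nonneg _ := norm_nonneg _
  zero := NN_zero TT a
  neg := NN_neg TT a
  add := NN_add TT a
  tb := NN_tb TT ha

variable (S) in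
/-- block averages are controlled by averages over short runs, uniformly in the function -/
lemma nu_le_of_avg (C : ℝ) {L : ℕ} (hL : 0 < L) {ε : ℝ} (hε : 0 < ε) :
    ∀ᶠ k in (S.U : Filter ℕ), ∀ G : ℤ → ℝ, (∀ n, |G n| ≤ C) → ∀ B : ℝ,
      (∀ n : ℤ, 0 < n → ∑ j ∈ Finset.range L, G (n + j) ≤ L * B) → S.nu k G ≤ B + ε := by
  have h1 : ∀ᶠ k in atTop, ∀ j ∈ Finset.range L, ∀ F : ℤ → ℝ,
      (∀ n, |F n| ≤ C) → |S.nu k (fun n => F (n + (j : ℤ))) - S.nu k F| ≤ ε :=
    (Filter.eventually_all_finset _).2 fun j _ => S.nu_shift j C hε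
  filter_upwards [S.U_ev h1] with k hk G hG B hB
  have hLR : (0 : ℝ) < L := by exact_mod_cast hL
  have hb : Bdd G := ⟨C, hG⟩
  have h2 : (L : ℝ) * S.nu k G ≤ ∑ j ∈ Finset.range L, S.nu k (fun n => G (n + (j : ℤ))) + L * ε := by
    have h3 : ∑ j ∈ Finset.range L, S.nu k G
        ≤ ∑ j ∈ Finset.range L, (S.nu k (fun n => G (n + (j : ℤ))) + ε) := by
      refine Finset.sum_le_sum fun j hj => ?_
      have := (abs_le.1 (hk j hj G hG)).1
      linarith
    rw [Finset.sum_const, Finset.card_range, nsmul_eq_mul, Finset.sum_add_distrib,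
      Finset.sum_const, Finset.card_range, nsmul_eq_mul] at h3
    exact h3
  have h4 : ∑ j ∈ Finset.range L, S.nu k (fun n => G (n + (j : ℤ))) ≤ L * B := by
    rw [← (S.nu_pf k).sum _ _ fun j _ => hb.shift _]
    unfold MeanSys.nu
    calc ∑ n ∈ S.blk k, S.wt k n * ∑ j ∈ Finset.range L, G (n + (j : ℤ))
        ≤ ∑ n ∈ S.blk k, S.wt k n * (L * B) := by
          refine Finset.sum_le_sum fun n hn => mul_le_mul_of_nonneg_left (hB n ?_)
            (S.wt_nonneg k n)
          have := S.blk_gt k n hn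
          omega
      _ = L * B := by rw [← Finset.sum_mul, S.wt_sum, one_mul]
  have h5 : (L : ℝ) * S.nu k G ≤ L * (B + ε) := by
    calc _ ≤ _ := h2
      _ ≤ L * B + L * ε := by linarith
      _ = _ := by ring
  exact le_of_mul_le_mul_left h5 hLR

/-- sum over the block of a function bounded on the block -/
lemma nu_le_const (k : ℕ) {F : ℤ → ℝ} {C : ℝ} (h : ∀ n ∈ S.blk k, F n ≤ C) : S.nu k F ≤ C := by
  unfold MeanSys.nu
  calc _ ≤ ∑ n ∈ S.blk k, S.wt k n * C :=
        Finset.sum_le_sum fun n hn => mul_le_mul_of_nonneg_left (h n hn) (S.wt_nonneg k n)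
    _ = C := by rw [← Finset.sum_mul, S.wt_sum, one_mul]

lemma nu_le_nu (k : ℕ) {F G : ℤ → ℝ} (h : ∀ n ∈ S.blk k, F n ≤ G n) : S.nu k F ≤ S.nu k G :=
  Finset.sum_le_sum fun n hn => mul_le_mul_of_nonneg_left (h n hn) (S.wt_nonneg k n)

lemma it_h_le (h ψ : Hil S) (R : ℝ) (hh : ‖h‖ ≤ R) (hψ : ‖ψ‖ ≤ R) (n : ℕ) :
    ‖inner ℂ (TT^[n] h) ψ‖ ≤ R * R := by
  refine (norm_inner_le_norm _ _).trans ?_
  rw [Pool.Agent.FIN.W69.it_norm]
  exact mul_le_mul hh hψ (norm_nonneg _) ((norm_nonneg _).trans hh)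

open Pool.Agent.FIN.W69 in
/-- uniform weak mixing of `h` along multiples of `v` -/
lemma corr_small {h : Hil S}
    (hh : ∀ (z : ℂ) (w : Hil S), ‖z‖ = 1 → TT w = z • w → inner ℂ w h = 0)
    {R : ℝ} (hR : ‖h‖ ≤ R) {v : ℕ} (hv : 0 < v) {η : ℝ} (hη : 0 < η) :
    ∀ᶠ k in (S.U : Filter ℕ), ∀ ψ : Hil S, ‖ψ‖ ≤ R →
      S.nu k (fun n => ‖inner ℂ (TT^[v * n.toNat] h) ψ‖) ≤ η := by
  have hR0 : 0 ≤ R := (norm_nonneg _).trans hR
  have hvR : (0 : ℝ) < v := by exact_mod_cast hv
  obtain ⟨M0, hM0⟩ := wiener_ortho TT h hh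
    (τ := (η ^ 2 / (2 * (v * R ^ 2 + 1))) ^ 2) (by positivity)
  set L := M0 + 1 with hL
  have hL0 : 0 < L := by omega
  have hvL : M0 ≤ v * L := by
    calc M0 ≤ L := by omega
      _ = 1 * L := (one_mul _).symm
      _ ≤ v * L := Nat.mul_le_mul_right _ hv
  filter_upwards [nu_le_of_avg S ((R * R) ^ 2) hL0 (show 0 < η ^ 2 / 2 by positivity)]
    with k hk ψ hψ
  have hG := hk (fun n => ‖inner ℂ (TT^[v * n.toNat] h) ψ‖ ^ 2) (fun n => by
    rw [abs_of_nonneg (by positivity)]
    exact pow_le_pow_left₀ (norm_nonneg _) (it_h_le h ψ R hR hψ _) 2) (η ^ 2 / 2) (by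
    intro n hn
    obtain ⟨i, rfl⟩ := Int.eq_ofNat_of_zero_le hn.le
    have e1 : ∀ j ∈ Finset.range L, ‖inner ℂ (TT^[v * ((i : ℤ) + (j : ℤ)).toNat] h) ψ‖ ^ 2
        = ‖inner ℂ (TT^[v * i + v * j] h) ψ‖ ^ 2 := by
      intro j _
      have : ((i : ℤ) + (j : ℤ)).toNat = i + j := by omega
      rw [this, Nat.mul_add]
    rw [Finset.sum_congr rfl e1]
    have e2 : ∑ j ∈ Finset.range L, ‖inner ℂ (TT^[v * i + v * j] h) ψ‖ ^ 2
        ≤ ∑ l ∈ Finset.range (v * L), ‖inner ℂ (TT^[v * i + l] h) ψ‖ ^ 2 := by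
      have e3 : ∑ j ∈ Finset.range L, ‖inner ℂ (TT^[v * i + v * j] h) ψ‖ ^ 2
          = ∑ l ∈ (Finset.range L).image (fun j => v * j),
            ‖inner ℂ (TT^[v * i + l] h) ψ‖ ^ 2 := by
        rw [Finset.sum_image]
        intro a _ b _ hab
        exact Nat.eq_of_mul_eq_mul_left hv hab
      rw [e3]
      refine Finset.sum_le_sum_of_subset_of_nonneg ?_ fun _ _ _ => by positivity
      intro l hl
      rw [Finset.mem_image] at hl
      obtain ⟨j, hj, rfl⟩ := hl
      rw [Finset.mem_range] at hj ⊢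
      exact Nat.mul_lt_mul_of_pos_left hj hv
    refine e2.trans ((corr_le TT h ψ (v * L) (v * i)).trans ?_)
    have e4 : √(En TT h (v * L)) ≤ η ^ 2 / (2 * (v * R ^ 2 + 1)) := by
      rw [Real.sqrt_le_left (by positivity)]
      exact hM0 _ hvL
    push_cast
    calc (v : ℝ) * L * ‖ψ‖ ^ 2 * √(En TT h (v * L))
        ≤ v * L * R ^ 2 * (η ^ 2 / (2 * (v * R ^ 2 + 1))) := by gcongr
      _ = L * ((v * R ^ 2) / (v * R ^ 2 + 1) * (η ^ 2 / 2)) := by field_simp
      _ ≤ L * (1 * (η ^ 2 / 2)) := by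
          have : (v * R ^ 2) / (v * R ^ 2 + 1) ≤ 1 := by
            rw [div_le_one (by positivity)]; linarith
          gcongr
      _ = _ := by ring)
  have hb : Bdd (fun n : ℤ => ‖inner ℂ (TT^[v * n.toNat] h) ψ‖) :=
    ⟨R * R, fun n => by rw [abs_of_nonneg (norm_nonneg _)]; exact it_h_le h ψ R hR hψ _⟩
  have h6 := (S.nu_pf k).sq_le hb
  have h7 : (S.nu k (fun n => ‖inner ℂ (TT^[v * n.toNat] h) ψ‖)) ^ 2 ≤ η ^ 2 := by
    calc _ ≤ _ := h6
      _ ≤ η ^ 2 / 2 + η ^ 2 / 2 := hG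
      _ = _ := by ring
  exact (sq_le_sq₀ ((S.nu_pf k).nonneg hb fun n => norm_nonneg _) hη.le).1 h7

end M4w

open M4w Pool.Agent.FIN.W69

theorem m4 (S : MeanSys) : M4 S := by
  intro g hg
  have hgb : Bdd g := hg.bdd
  set G : Pre S := mkP S (fun x => (g x : ℂ)) (CBdd.ofReal hgb) with hG
  obtain ⟨a, h, hx, haAP, hh⟩ := split TT (G : Hil S)
  refine ⟨NN TT a, PN_NN haAP, fun η hη => ?_⟩
  set R : ℝ := ‖h‖ + 1 with hR
  have hR0 : 0 < R := by positivity
  obtain ⟨δ, hδ, hδ1, hδ2, hδ3⟩ : ∃ δ : ℝ, 0 < δ ∧ δ ≤ 1 ∧ 2 * δ ≤ η ∧ δ * R ≤ η / 2 := by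
    refine ⟨min 1 (min (η / 2) (η / 2 / R)), by positivity, min_le_left _ _, ?_, ?_⟩
    · have := (min_le_right 1 (min (η / 2) (η / 2 / R))).trans (min_le_left _ _)
      linarith
    · have := (min_le_right 1 (min (η / 2) (η / 2 / R))).trans (min_le_right _ _)
      rwa [le_div_iff₀ hR0] at this
  obtain ⟨Φ, hΦ⟩ : ∃ Φ : Pre S, ‖a - (Φ : Hil S)‖ < δ := by
    obtain ⟨Φ, hΦ⟩ := Metric.denseRange_iff.1
      (UniformSpace.Completion.denseRange_coe (α := Pre S)) a δ hδ
    exact ⟨Φ, by rwa [dist_eq_norm] at hΦ⟩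
  have hphi : Bdd (fun x => (fn Φ x).re) := (fn_cb Φ).re
  set φ : ℤ → ℝ := fun x => (fn Φ x).re with hφ
  set F : Pre S := G - Φ with hF
  have hFh : ‖(F : Hil S) - h‖ ≤ δ := by
    have e : (F : Hil S) - h = a - (Φ : Hil S) := by
      rw [hF, UniformSpace.Completion.coe_sub, hx]; abel
    rw [e]; exact hΦ.le
  have hFn : ‖F‖ ≤ R := by
    rw [← UniformSpace.Completion.norm_coe]
    calc ‖(F : Hil S)‖ ≤ ‖(F : Hil S) - h‖ + ‖h‖ := by
          have := norm_add_le ((F : Hil S) - h) h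
          rwa [sub_add_cancel] at this
      _ ≤ R := by rw [hR]; linarith
  refine ⟨φ, hphi, ?_, ?_⟩
  · -- almost periodicity
    intro t
    have hsh : ∀ n : ℕ, S.m (fun x => (φ (x - n) - φ x) ^ 2) ≤ (NN TT a n + η) ^ 2 := by
      intro n
      have h1 : S.m (fun x => (φ (x - n) - φ x) ^ 2) ≤ ‖shI^[n] Φ - Φ‖ ^ 2 := by
        rw [norm_sq_def]
        have hb2 : Bdd (fun x => ‖fn (shI^[n] Φ - Φ) x‖ ^ 2) := by
          obtain ⟨C, hC⟩ := fn_cb (shI^[n] Φ - Φ)
          refine ⟨C ^ 2, fun n => ?_⟩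
          rw [abs_of_nonneg (by positivity)]
          exact pow_le_pow_left₀ (norm_nonneg _) (hC n) 2
        refine S.pf.mono ((hphi.comp _).sub hphi).sq hb2 fun x => ?_
        rw [fn_sub, fn_sh_it]
        have h2 := Complex.abs_re_le_norm (fn Φ (x - n) - fn Φ x)
        rw [Complex.sub_re] at h2
        calc (φ (x - n) - φ x) ^ 2 = |φ (x - n) - φ x| ^ 2 := (sq_abs _).symm
          _ ≤ _ := pow_le_pow_left₀ (abs_nonneg _) h2 2
      have h3 : ‖shI^[n] Φ - Φ‖ ≤ NN TT a n + η := by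
        rw [← UniformSpace.Completion.norm_coe, UniformSpace.Completion.coe_sub, ← TT_it_coe,
          NN_eq TT a n 0 (by simp)]
        have e : TT^[n] (Φ : Hil S) - (Φ : Hil S) = (TT^[n] a - TT^[0] a)
            + (-(TT^[n] (a - (Φ : Hil S))) + (a - (Φ : Hil S))) := by
          rw [it_sub]
          simp only [Function.iterate_zero, id_eq]
          abel
        rw [e]
        refine (norm_add_le _ _).trans (add_le_add le_rfl ((norm_add_le _ _).trans ?_))
        rw [norm_neg, it_norm]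
        linarith [hΦ.le]
      exact h1.trans (pow_le_pow_left₀ (norm_nonneg _) h3 2)
    by_cases ht : 0 ≤ t
    · obtain ⟨n, rfl⟩ := Int.eq_ofNat_of_zero_le ht
      refine le_trans (le_of_eq ?_) (hsh n)
      have := S.m_shift_sub (n : ℤ) (F := fun x => (φ (x + n) - φ x) ^ 2)
        ((hphi.comp _).sub hphi).sq
      rw [← this]
      congr 1
      funext x
      rw [sub_add_cancel]
      ring
    · obtain ⟨n, hn⟩ := Int.eq_ofNat_of_zero_le (show 0 ≤ -t by omega)
      have ht' : t = -(n : ℤ) := by omega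
      rw [ht', NN_neg]
      exact hsh n
  · -- weak mixing
    intro v hv
    filter_upwards [corr_small hh (show ‖h‖ ≤ R by rw [hR]; linarith) hv
      (show 0 < η / 2 by positivity)] with k hk
    refine nu_le_const k fun n hn => ?_
    have hn0 : 0 < n := by have := S.blk_gt k n hn; omega
    set ψf : ℤ → ℝ := fun x => g (x - v * n) - φ (x - v * n) with hψf
    have hψb : Bdd ψf := (hgb.comp _).sub (hphi.comp _)
    set ψ : Pre S := mkP S (fun x => (ψf x : ℂ)) (CBdd.ofReal hψb) with hψ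
    have hψn : ‖ψ‖ ≤ R := by
      refine le_trans ?_ hFn
      have hsq : ‖ψ‖ ^ 2 ≤ ‖F‖ ^ 2 := by
        rw [norm_sq_def, norm_sq_def]
        have hb2 : Bdd (fun x => ‖fn F x‖ ^ 2) := by
          obtain ⟨C, hC⟩ := fn_cb F
          refine ⟨C ^ 2, fun n => ?_⟩
          rw [abs_of_nonneg (by positivity)]
          exact pow_le_pow_left₀ (norm_nonneg _) (hC n) 2
        rw [← S.m_shift_sub (v * n) hb2]
        have hb3 : Bdd (fun x => ‖fn ψ x‖ ^ 2) := by
          obtain ⟨C, hC⟩ := fn_cb ψ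
          refine ⟨C ^ 2, fun n => ?_⟩
          rw [abs_of_nonneg (by positivity)]
          exact pow_le_pow_left₀ (norm_nonneg _) (hC n) 2
        refine S.pf.mono hb3 (hb2.comp _) fun x => ?_
        refine pow_le_pow_left₀ (norm_nonneg _) ?_ 2
        rw [hψ, fn_mk, Complex.norm_real, hF, fn_sub, hG, fn_mk]
        have h2 := Complex.abs_re_le_norm ((g (x - v * n) : ℂ) - fn Φ (x - v * n))
        rw [Complex.sub_re, Complex.ofReal_re] at h2
        exact h2
      exact (sq_le_sq₀ (norm_nonneg _) (norm_nonneg _)).1 hsq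
    have hψn' : ‖(ψ : Hil S)‖ ≤ R := by rwa [UniformSpace.Completion.norm_coe]
    have key : ∀ n' ∈ S.blk k,
        |S.m (fun x => (g (x - v * n) - φ (x - v * n)) * (g (x - v * n') - φ (x - v * n')))|
          ≤ ‖inner ℂ (TT^[v * n'.toNat] h) (ψ : Hil S)‖ + η / 2 := by
      intro n' hn'
      have hn0' : 0 < n' := by have := S.blk_gt k n' hn'; omega
      obtain ⟨j, rfl⟩ := Int.eq_ofNat_of_zero_le hn0'.le
      rw [Int.toNat_natCast]
      have e1 : S.m (fun x => (g (x - v * n) - φ (x - v * n))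
          * (g (x - v * (j : ℤ)) - φ (x - v * (j : ℤ))))
          = (inner ℂ (shI^[v * j] F) ψ).re := by
        rw [inner_def]
        show S.m _ = S.m _
        congr 1
        funext x
        show _ = (conj (fn (shI^[v * j] F) x) * fn ψ x).re
        rw [fn_sh_it, hψ, fn_mk, Complex.re_mul_ofReal, Complex.conj_re, hF, fn_sub, hG, fn_mk,
          Complex.sub_re, Complex.ofReal_re]
        push_cast
        rw [mul_comm]
      rw [e1]
      refine (Complex.abs_re_le_norm _).trans ?_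
      rw [← UniformSpace.Completion.inner_coe, ← TT_it_coe]
      have e2 : TT^[v * j] (F : Hil S) = TT^[v * j] h + TT^[v * j] ((F : Hil S) - h) := by
        rw [← it_add, add_sub_cancel]
      rw [e2, inner_add_left]
      refine (norm_add_le _ _).trans (add_le_add le_rfl ?_)
      refine (norm_inner_le_norm _ _).trans ?_
      rw [it_norm]
      calc ‖(F : Hil S) - h‖ * ‖(ψ : Hil S)‖ ≤ δ * R :=
            mul_le_mul hFh hψn' (norm_nonneg _) hδ.le
        _ ≤ η / 2 := hδ3
    refine (nu_le_nu k key).trans ?_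
    have hb4 : Bdd (fun n' : ℤ => ‖inner ℂ (TT^[v * n'.toNat] h) (ψ : Hil S)‖) :=
      ⟨R * R, fun n' => by
        rw [abs_of_nonneg (norm_nonneg _)]
        exact it_h_le h ψ R (by rw [hR]; linarith) hψn' _⟩
    rw [(S.nu_pf k).add hb4 (Bdd.const _), (S.nu_pf k).const]
    have := hk (ψ : Hil S) hψn'
    linarith

end Pool.Agent.FinA
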