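import Mathlib

/-!
Lemma (star) of helper43: a totally bounded translation invariant pseudonorm `N` on the integers.
For every `d > 0` there is `M > 0` such that for every `Q > 0` every multiple of `M` is congruent
modulo `Q` to an integer `t` with `N t ≤ d`.
-/

namespace Pool.Agent.FinClique

/-- (star), in the form with explicit hypotheses. -/
theorem star_aux (N : ℤ → ℝ) (heven : ∀ t, N (-t) = N t) (hsub : ∀ s t, N (s + t) ≤ N s + N t)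
    (htb : ∀ η : ℝ, 0 < η → ∃ P : Finset ℤ, ∀ t, ∃ s ∈ P, N (t - s) ≤ η)
    (d : ℝ) (hd : 0 < d) :
    ∃ M : ℕ, 0 < M ∧ ∀ Q : ℕ, 0 < Q → ∀ r : ℤ, (M : ℤ) ∣ r →
      ∃ t : ℤ, (t ≡ r [ZMOD (M * Q : ℕ)]) ∧ N t ≤ d := by
  classical
  obtain ⟨P, hP⟩ := htb (d / 2) (by linarith)
  -- the net points reachable from multiples of `M`
  set A : ℕ → Finset ℤ := fun M => P.filter (fun s => ∃ t : ℤ, (M : ℤ) ∣ t ∧ N (t - s) ≤ d / 2) with hA
  have hmono : ∀ M M' : ℕ, M ∣ M' → A M' ⊆ A M := by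
    intro M M' h s hs
    simp only [hA, Finset.mem_filter] at hs ⊢
    obtain ⟨hsP, t, ht, hN⟩ := hs
    exact ⟨hsP, t, dvd_trans (Int.natCast_dvd_natCast.mpr h) ht, hN⟩
  have hex : ∃ n : ℕ, ∃ M : ℕ, 0 < M ∧ (A M).card = n := ⟨_, 1, one_pos, rfl⟩
  obtain ⟨M, hM, hcard⟩ := Nat.find_spec hex
  have hmin : ∀ M' : ℕ, 0 < M' → (A M).card ≤ (A M').card := by
    intro M' hM'
    rw [hcard]
    exact Nat.find_min' hex ⟨M', hM', rfl⟩
  refine ⟨M, hM, fun Q hQ r hr => ?_⟩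
  have hMQ : 0 < M * Q := Nat.mul_pos hM hQ
  have heq : A (M * Q) = A M :=
    Finset.eq_of_subset_of_card_le (hmono M (M * Q) (Dvd.intro Q rfl)) (hmin (M * Q) hMQ)
  obtain ⟨s, hsP, hs⟩ := hP r
  have hsA : s ∈ A M := by
    simp only [hA, Finset.mem_filter]
    exact ⟨hsP, r, hr, hs⟩
  rw [← heq] at hsA
  simp only [hA, Finset.mem_filter] at hsA
  obtain ⟨-, t', ht', hN'⟩ := hsA
  refine ⟨r - t', ?_, ?_⟩
  · rw [Int.modEq_iff_dvd]
    have : r - (r - t') = t' := by ring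
    rw [this]
    exact ht'
  · have h1 : r - t' = (r - s) + -(t' - s) := by ring
    rw [h1]
    refine (hsub _ _).trans ?_
    rw [heven]
    linarith

/-- (star) with two coprime moduli: every class modulo `Q` prime to `M` contains a multiple of `M`
with small `N`. -/
theorem star_coprime (N : ℤ → ℝ) (heven : ∀ t, N (-t) = N t) (hsub : ∀ s t, N (s + t) ≤ N s + N t)
    (htb : ∀ η : ℝ, 0 < η → ∃ P : Finset ℤ, ∀ t, ∃ s ∈ P, N (t - s) ≤ η)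
    (d : ℝ) (hd : 0 < d) :
    ∃ M : ℕ, 0 < M ∧ (∀ Q : ℕ, 0 < Q → ∀ r : ℤ, (M : ℤ) ∣ r →
      ∃ t : ℤ, (t ≡ r [ZMOD (M * Q : ℕ)]) ∧ N t ≤ d) ∧
      ∀ Q : ℕ, 0 < Q → Nat.Coprime M Q → ∀ a : ℤ,
        ∃ t : ℤ, (M : ℤ) ∣ t ∧ (t ≡ a [ZMOD Q]) ∧ N t ≤ d := by
  obtain ⟨M, hM, h⟩ := star_aux N heven hsub htb d hd
  refine ⟨M, hM, h, fun Q hQ hc a => ?_⟩
  -- choose `r = M * b` with `r = a mod Q`
  have hc' : IsCoprime (M : ℤ) (Q : ℤ) := Nat.isCoprime_iff_coprime.mpr hc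
  obtain ⟨u, v, huv⟩ := hc'
  obtain ⟨t, ht, hN⟩ := h Q hQ (M * (u * a)) (Dvd.intro _ rfl)
  have e1 : t ≡ M * (u * a) [ZMOD M] :=
    ht.of_dvd (by push_cast; exact Dvd.intro _ rfl)
  have e2 : t ≡ M * (u * a) [ZMOD Q] :=
    ht.of_dvd (by push_cast; exact Dvd.intro_left _ rfl)
  refine ⟨t, ?_, ?_, hN⟩
  · have e3 : M * (u * a) ≡ 0 [ZMOD M] := by
      rw [Int.modEq_zero_iff_dvd]; exact Dvd.intro _ rfl
    exact Int.modEq_zero_iff_dvd.mp (e1.trans e3)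
  · refine e2.trans ?_
    rw [Int.modEq_iff_dvd]
    refine ⟨v * a, ?_⟩
    have : a = (u * M + v * Q) * a := by rw [huv, one_mul]
    linear_combination this

end Pool.Agent.FinClique
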