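import Pool.Agent.Lib.MP_60922f_co.FIN.Stmts43
import Pool.Agent.Lib.MP_60922f_co.FIN.Star24

/-! M6 of the module list. -/

set_option autoImplicit false

namespace Pool.Agent.FinA
open Pool.Agent.FinClique

theorem m6 : M6 := by
  intro N hN δ hδ
  obtain ⟨M, hM, h⟩ := star_aux N hN.neg hN.add hN.tb δ hδ
  refine ⟨M, hM, fun R hR ρ hρ => ?_⟩
  obtain ⟨t, ht, hNt⟩ := h R hR ρ hρ
  refine ⟨t, ?_, hNt⟩
  have h2 : t ≡ ρ [ZMOD R] := ht.of_dvd (by push_cast; exact Dvd.intro_left _ rfl)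
  exact (Int.modEq_iff_dvd.mp h2.symm)

end Pool.Agent.FinA
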