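import Pool.Agent.Lib.MP_60922f_co.FIN.Stmts43
import Pool.Agent.Lib.MP_60922f_co.FIN.Calc55

/-!
M8: uniform averages of almost periodic functions along classes to generic moduli.
-/

set_option autoImplicit false

open Filter Topology

namespace Pool.Agent.FinA

namespace M8aux

/-- sum of `G` over the window `[y, y + L)` -/
noncomputable def win (G : ℤ → ℝ) (y : ℤ) (L : ℕ) : ℝ := ∑ s ∈ Finset.range L, G (y + s)

theorem win_succ (G : ℤ → ℝ) (y : ℤ) (L : ℕ) :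
    win G (y + 1) L - win G y L = G (y + L) - G y := by
  have h1 : win G y (L + 1) = win G y L + G (y + L) := by
    simp [win, Finset.sum_range_succ]
  have h2 : win G y (L + 1) = win G (y + 1) L + G y := by
    simp only [win]
    rw [Finset.sum_range_succ']
    congr 1
    · refine Finset.sum_congr rfl fun s _ => ?_
      congr 1
      push_cast
      ring
    · simp
  linarith

theorem win_shift_nat {G : ℤ → ℝ} {C : ℝ} (hG : ∀ n, |G n| ≤ C) (y : ℤ) (L k : ℕ) :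
    |win G (y + k) L - win G y L| ≤ 2 * C * k := by
  induction k with
  | zero => simp
  | succ k ih =>
    have h1 := win_succ G (y + k) L
    have h2 := abs_le.mp (hG (y + k + L))
    have h3 := abs_le.mp (hG (y + k))
    have h4 := abs_le.mp ih
    have e : (y + ((k + 1 : ℕ) : ℤ)) = y + k + 1 := by push_cast; ring
    rw [e, abs_le]
    push_cast
    constructor <;> linarith [h2.1, h2.2, h3.1, h3.2, h4.1, h4.2]

theorem win_shift {G : ℤ → ℝ} {C : ℝ} (hG : ∀ n, |G n| ≤ C) (y y' : ℤ) (L : ℕ) :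
    |win G y L - win G y' L| ≤ 2 * C * |(y : ℝ) - y'| := by
  rcases le_total y' y with h | h
  · obtain ⟨k, hk⟩ := Int.le.dest h
    have h1 := win_shift_nat hG y' L k
    have e : |(y : ℝ) - y'| = k := by
      rw [← hk]; push_cast
      rw [show (y' : ℝ) + k - y' = k by ring]
      exact abs_of_nonneg (Nat.cast_nonneg k)
    rw [e, ← hk]
    exact h1
  · obtain ⟨k, hk⟩ := Int.le.dest h
    have h1 := win_shift_nat hG y L k
    have e : |(y : ℝ) - y'| = k := by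
      rw [← hk]; push_cast
      rw [show (y : ℝ) - (y + k) = -k by ring, abs_neg]
      exact abs_of_nonneg (Nat.cast_nonneg k)
    rw [e, abs_sub_comm, ← hk]
    exact h1

/-- restriction to the class of `a` modulo `Q` -/
noncomputable def res (w : ℤ → ℝ) (Q : ℕ) (a n : ℤ) : ℝ := if (Q : ℤ) ∣ n - a then w n else 0

theorem res_abs {w : ℤ → ℝ} {C : ℝ} (hC : 0 ≤ C) (hw : ∀ n, |w n| ≤ C) (Q : ℕ) (a n : ℤ) :
    |res w Q a n| ≤ C := by
  unfold res
  split_ifs
  · exact hw n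
  · simpa using hC

/-- number of points of a class in a window -/
theorem count_le {Q : ℕ} (hQ : 0 < Q) (y a : ℤ) (L : ℕ) :
    win (fun n => if (Q : ℤ) ∣ n - a then (1 : ℝ) else 0) y L ≤ L / Q + 1 := by
  have hQ' : (0 : ℤ) < Q := by exact_mod_cast hQ
  have h1 : win (fun n => if (Q : ℤ) ∣ n - a then (1 : ℝ) else 0) y L =
      (((Finset.Ico y (y + L)).filter (fun n => n ≡ a [ZMOD (Q : ℤ)])).card : ℝ) := by
    unfold win
    rw [Finset.card_filter, Nat.cast_sum]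
    have h2 : Finset.Ico y (y + L) = (Finset.range L).image (fun s : ℕ => y + (s : ℤ)) := by
      ext n
      simp only [Finset.mem_Ico, Finset.mem_image, Finset.mem_range]
      constructor
      · rintro ⟨h1, h2⟩
        refine ⟨(n - y).toNat, ?_, ?_⟩ <;> omega
      · rintro ⟨s, hs, rfl⟩
        constructor <;> omega
    rw [h2, Finset.sum_image]
    · refine Finset.sum_congr rfl fun s _ => ?_
      have h3 : ((Q : ℤ) ∣ y + s - a) ↔ (y + s ≡ a [ZMOD (Q : ℤ)]) := by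
        rw [Int.modEq_comm, Int.modEq_iff_dvd]
      by_cases h : (Q : ℤ) ∣ y + s - a
      · simp only [if_pos h, if_pos (h3.mp h), Nat.cast_one]
      · simp only [if_neg h, if_neg (fun h' => h (h3.mpr h')), Nat.cast_zero]
    · intro s _ s' _ h
      have : (s : ℤ) = s' := by linarith
      exact_mod_cast this
  rw [h1]
  have h4 := Int.Ico_filter_modEq_card y (y + L) hQ' a
  have h5 : ((((Finset.Ico y (y + L)).filter (fun n => n ≡ a [ZMOD (Q : ℤ)])).card : ℤ) : ℝ) =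
    ((max (⌈(((y + L : ℤ) - a : ℤ) : ℚ) / ((Q : ℤ) : ℚ)⌉ - ⌈((y - a : ℤ) : ℚ) / ((Q : ℤ) : ℚ)⌉) 0 : ℤ) : ℝ) := by
    rw [h4]
    push_cast
    rfl
  have h6 : (((Finset.Ico y (y + L)).filter (fun n => n ≡ a [ZMOD (Q : ℤ)])).card : ℝ) =
    ((((Finset.Ico y (y + L)).filter (fun n => n ≡ a [ZMOD (Q : ℤ)])).card : ℤ) : ℝ) := by
    push_cast; rfl
  rw [h6, h5]
  have hQr : (0 : ℚ) < Q := by exact_mod_cast hQ
  have h7 : (⌈(((y + L : ℤ) - a : ℤ) : ℚ) / ((Q : ℤ) : ℚ)⌉ : ℚ) < (((y + L : ℤ) - a : ℤ) : ℚ) / ((Q : ℤ) : ℚ) + 1 :=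
    Int.ceil_lt_add_one _
  have h8 : ((y - a : ℤ) : ℚ) / ((Q : ℤ) : ℚ) ≤ (⌈((y - a : ℤ) : ℚ) / ((Q : ℤ) : ℚ)⌉ : ℚ) := Int.le_ceil _
  have h9 : ((max (⌈(((y + L : ℤ) - a : ℤ) : ℚ) / ((Q : ℤ) : ℚ)⌉ - ⌈((y - a : ℤ) : ℚ) / ((Q : ℤ) : ℚ)⌉) 0 : ℤ) : ℚ) ≤
      (L : ℚ) / Q + 1 := by
    rw [Int.cast_max]
    refine max_le ?_ ?_
    · push_cast at h7 h8 ⊢
      have h10 : ((y : ℚ) + L - a) / Q = (y - a) / Q + L / Q := by ring
      rw [h10] at h7 ⊢
      linarith
    · push_cast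
      positivity
  have h11 : (((max (⌈(((y + L : ℤ) - a : ℤ) : ℚ) / ((Q : ℤ) : ℚ)⌉ - ⌈((y - a : ℤ) : ℚ) / ((Q : ℤ) : ℚ)⌉) 0 : ℤ) : ℚ) : ℝ) ≤
      (((L : ℚ) / Q + 1 : ℚ) : ℝ) := by exact_mod_cast h9
  have h12 : (((max (⌈(((y + L : ℤ) - a : ℤ) : ℚ) / ((Q : ℤ) : ℚ)⌉ - ⌈((y - a : ℤ) : ℚ) / ((Q : ℤ) : ℚ)⌉) 0 : ℤ) : ℚ) : ℝ) =
    ((max (⌈(((y + L : ℤ) - a : ℤ) : ℚ) / ((Q : ℤ) : ℚ)⌉ - ⌈((y - a : ℤ) : ℚ) / ((Q : ℤ) : ℚ)⌉) 0 : ℤ) : ℝ) := by
    norm_cast
  rw [← h12]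
  refine h11.trans (le_of_eq ?_)
  push_cast
  ring

/-- comparison of two windows and two classes through a shift `t` -/
theorem win_res_compare {w N : ℤ → ℝ} (hw : ∀ x t, |w (x + t) - w x| ≤ N t) {C : ℝ} (hC : 0 ≤ C)
    (hb : ∀ n, |w n| ≤ C) {Q : ℕ} (hQ : 0 < Q) (y y' a a' t : ℤ) (ht : (Q : ℤ) ∣ t - (a' - a))
    {δ T : ℝ} (hδ : N t ≤ δ) (hT : |(t : ℝ) - (y' - y)| ≤ T) (L : ℕ) :
    |win (res w Q a) y L - win (res w Q a') y' L| ≤ (L / Q + 1) * δ + 2 * C * T := by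
  have hδ0 : 0 ≤ δ := le_trans (le_trans (abs_nonneg _) (hw 0 t)) hδ
  have h1 : |win (res w Q a') (y + t) L - win (res w Q a) y L| ≤ (L / Q + 1) * δ := by
    have h2 : win (res w Q a') (y + t) L - win (res w Q a) y L =
        ∑ s ∈ Finset.range L, (res w Q a' (y + t + s) - res w Q a (y + s)) := by
      unfold win
      rw [Finset.sum_sub_distrib]
    rw [h2]
    refine (Finset.abs_sum_le_sum_abs _ _).trans ?_
    have h3 : ∀ s ∈ Finset.range L, |res w Q a' (y + t + s) - res w Q a (y + s)| ≤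
        (if (Q : ℤ) ∣ (y + s) - a then (1 : ℝ) else 0) * δ := by
      intro s _
      have h4 : ((Q : ℤ) ∣ y + t + s - a') ↔ ((Q : ℤ) ∣ y + s - a) := by
        have e : y + t + s - a' = (y + s - a) + (t - (a' - a)) := by ring
        rw [e]
        exact dvd_add_left ht
      unfold res
      by_cases h : (Q : ℤ) ∣ y + s - a
      · rw [if_pos (h4.mpr h), if_pos h, if_pos h, one_mul]
        have e : y + t + s = y + s + t := by ring
        rw [e]
        exact (hw _ _).trans hδ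
      · rw [if_neg (fun h' => h (h4.mp h')), if_neg h, if_neg h]
        simp
    refine (Finset.sum_le_sum h3).trans ?_
    rw [← Finset.sum_mul]
    exact mul_le_mul_of_nonneg_right (count_le hQ y a L) hδ0
  have h2 := win_shift (res_abs hC hb Q a') (y + t) y' L
  have h3 : |((y + t : ℤ) : ℝ) - y'| ≤ T := by
    have e : ((y + t : ℤ) : ℝ) - y' = (t : ℝ) - (y' - y) := by push_cast; ring
    rw [e]; exact hT
  have h4 : 2 * C * |((y + t : ℤ) : ℝ) - y'| ≤ 2 * C * T := by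
    exact mul_le_mul_of_nonneg_left h3 (by positivity)
  have h5 := abs_sub_le (win (res w Q a) y L) (win (res w Q a') (y + t) L) (win (res w Q a') y' L)
  have h6 : |win (res w Q a) y L - win (res w Q a') (y + t) L| =
      |win (res w Q a') (y + t) L - win (res w Q a) y L| := abs_sub_comm _ _
  linarith

/-- shifts in a given class, near a given integer, of small pseudonorm -/
theorem exists_shift {N : ℤ → ℝ} (hN : PN N) {δ : ℝ} (hδ : 0 < δ) {Q M : ℕ} (hQ : 0 < Q)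
    (hco : Q.Coprime M)
    (hstar : ∀ R : ℕ, 0 < R → ∀ ρ : ℤ, (M : ℤ) ∣ ρ → ∃ t : ℤ, (R : ℤ) ∣ t - ρ ∧ N t ≤ δ) :
    ∃ T : ℝ, 0 ≤ T ∧ ∀ d e : ℤ, ∃ t : ℤ, (Q : ℤ) ∣ t - e ∧ N t ≤ 2 * δ ∧ |(t : ℝ) - d| ≤ T := by
  classical
  have hQ' : (0 : ℤ) < Q := by exact_mod_cast hQ
  -- elements of a class
  have h1 : ∀ e : ℤ, ∃ t : ℤ, (Q : ℤ) ∣ t - e ∧ N t ≤ δ := by
    intro e
    have hb : (Q : ℤ) * Int.gcdA Q M + M * Int.gcdB Q M = 1 := by
      have := Int.gcd_eq_gcd_ab (Q : ℤ) (M : ℤ)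
      rw [Int.gcd_natCast_natCast, hco.gcd_eq_one] at this
      simpa using this.symm
    obtain ⟨t, ht, hNt⟩ := hstar Q hQ (M * (Int.gcdB Q M * e)) (dvd_mul_right _ _)
    refine ⟨t, ?_, hNt⟩
    have h2 : t - e = (t - M * (Int.gcdB Q M * e)) + Q * (-(Int.gcdA Q M * e)) := by
      have : e = (Q * Int.gcdA Q M + M * Int.gcdB Q M) * e := by rw [hb]; ring
      nth_rewrite 1 [this]
      ring
    rw [h2]
    exact dvd_add ht (dvd_mul_right _ _)
  choose τ hτ1 hτ2 using h1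
  obtain ⟨P, hP⟩ := hN.tb (δ / 2) (by positivity)
  -- representatives in `Q ℤ`
  let r : ℤ → ℤ := fun s => if h : ∃ r : ℤ, (Q : ℤ) ∣ r ∧ N (r - s) ≤ δ / 2 then h.choose else 0
  have hr : ∀ s : ℤ, (∃ r : ℤ, (Q : ℤ) ∣ r ∧ N (r - s) ≤ δ / 2) →
      (Q : ℤ) ∣ r s ∧ N (r s - s) ≤ δ / 2 := by
    intro s h
    have : r s = h.choose := by simp only [r]; rw [dif_pos h]
    rw [this]
    exact h.choose_spec
  refine ⟨Q + ∑ s ∈ P, |(r s : ℝ)| + ∑ e ∈ Finset.range Q, |(τ e : ℝ)|, by positivity, ?_⟩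
  intro d e
  set d' : ℤ := Q * (d / Q) with hd'
  obtain ⟨s, hs, hds⟩ := hP d'
  have h2 := hr s ⟨d', dvd_mul_right _ _, hds⟩
  set e' : ℕ := (e % Q).toNat with he'
  have he0 : 0 ≤ e % Q := Int.emod_nonneg _ (by omega)
  have he1 : e % Q < Q := Int.emod_lt_of_pos _ hQ'
  have he2 : (e' : ℤ) = e % Q := Int.toNat_of_nonneg he0
  have he3 : e' ∈ Finset.range Q := by
    rw [Finset.mem_range]; omega
  refine ⟨(d' - r s) + τ e', ?_, ?_, ?_⟩
  · have h3 : (d' - r s) + τ e' - e = (d' - r s) + (τ e' - e') + (e' - e) := by ring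
    rw [h3]
    refine dvd_add (dvd_add (dvd_sub (dvd_mul_right _ _) h2.1) (hτ1 e')) ?_
    rw [he2]
    have h4 : e % Q - e = -(Q * (e / Q)) := by
      have := Int.emod_add_mul_ediv e Q
      linarith
    rw [h4]
    exact (dvd_mul_right _ _).neg_right
  · have h3 : N (d' - r s) ≤ δ := by
      have h4 : d' - r s = (d' - s) + (-(r s - s)) := by ring
      rw [h4]
      have h5 := hN.add (d' - s) (-(r s - s))
      rw [hN.neg (r s - s)] at h5
      linarith [h2.2]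
    have h5 := hN.add (d' - r s) (τ e')
    have h6 := hτ2 e'
    linarith
  · have h3 : |(r s : ℝ)| ≤ ∑ s ∈ P, |(r s : ℝ)| :=
      Finset.single_le_sum (f := fun s => |(r s : ℝ)|) (fun _ _ => abs_nonneg _) hs
    have h4 : |(τ e' : ℝ)| ≤ ∑ e ∈ Finset.range Q, |(τ e : ℝ)| :=
      Finset.single_le_sum (f := fun e : ℕ => |(τ e : ℝ)|) (fun _ _ => abs_nonneg _) he3
    have h5 : |(d' : ℝ) - d| ≤ Q := by
      have h6 : d' = d - d % Q := by
        have := Int.emod_add_mul_ediv d Q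
        rw [hd']; linarith
      have h7 : (d' : ℝ) - d = -((d % Q : ℤ) : ℝ) := by
        rw [h6]; push_cast; ring
      rw [h7, abs_neg, abs_of_nonneg]
      · have : d % Q < Q := Int.emod_lt_of_pos _ hQ'
        exact_mod_cast this.le
      · have : 0 ≤ d % Q := Int.emod_nonneg _ (by omega)
        exact_mod_cast this
    have h8 : (((d' - r s) + τ e' : ℤ) : ℝ) - d = ((d' : ℝ) - d) - r s + τ e' := by
      push_cast; ring
    rw [h8]
    have h9 := abs_add_le (((d' : ℝ) - d) - r s) (τ e')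
    have h10 := abs_sub ((d' : ℝ) - d) (r s : ℝ)
    linarith

theorem bdd_of_lip {w N : ℤ → ℝ} (hN : PN N) (hw : ∀ x t, |w (x + t) - w x| ≤ N t) :
    ∃ C : ℝ, 0 ≤ C ∧ ∀ n, |w n| ≤ C := by
  obtain ⟨P, hP⟩ := hN.tb 1 one_pos
  refine ⟨|w 0| + 1 + ∑ s ∈ P, N s, ?_, ?_⟩
  · have := Finset.sum_nonneg (s := P) (fun s _ => hN.nonneg s)
    positivity
  · intro n
    obtain ⟨s, hs, h⟩ := hP n
    have h1 := hw 0 n
    rw [zero_add] at h1
    have h2 : N n ≤ N (n - s) + N s := by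
      have := hN.add (n - s) s
      rwa [sub_add_cancel] at this
    have h3 : N s ≤ ∑ s ∈ P, N s :=
      Finset.single_le_sum (f := fun s => N s) (fun s _ => hN.nonneg s) hs
    have h4 : |w n| ≤ |w n - w 0| + |w 0| := by
      have := abs_add_le (w n - w 0) (w 0)
      rwa [sub_add_cancel] at this
    linarith

/-- the classes modulo `Q` partition every window -/
theorem sum_res (w : ℤ → ℝ) {Q : ℕ} (hQ : 0 < Q) (y : ℤ) (L : ℕ) :
    ∑ a ∈ Finset.range Q, win (res w Q a) y L = win w y L := by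
  unfold win
  rw [Finset.sum_comm]
  refine Finset.sum_congr rfl fun s _ => ?_
  have hQ' : (0 : ℤ) < Q := by exact_mod_cast hQ
  set n := y + (s : ℤ) with hn
  have h0 : 0 ≤ n % Q := Int.emod_nonneg _ (by omega)
  have h1 : n % Q < Q := Int.emod_lt_of_pos _ hQ'
  have h2 : ((n % Q).toNat : ℤ) = n % Q := Int.toNat_of_nonneg h0
  rw [Finset.sum_eq_single (n % Q).toNat]
  · unfold res
    rw [if_pos]
    rw [h2]
    exact Int.dvd_self_sub_emod
  · intro b hb hne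
    unfold res
    rw [if_neg]
    intro hd
    apply hne
    rw [Finset.mem_range] at hb
    have h3 : n % Q = b % Q := by
      exact (Int.emod_emod_of_dvd n (dvd_refl _)).symm.trans (Int.emod_emod_of_dvd n (dvd_refl _)) |>.trans
        (Int.emod_eq_emod_iff_emod_sub_eq_zero.mpr (Int.emod_eq_zero_of_dvd hd))
    have h4 : (b : ℤ) % Q = b := Int.emod_eq_of_lt (by omega) (by exact_mod_cast hb)
    omega
  · intro h
    exfalso
    apply h
    rw [Finset.mem_range]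
    omega

/-- near independence of the class and of the window -/
theorem uniform {w N : ℤ → ℝ} (h6 : M6) (hN : PN N) (hw : ∀ x t, |w (x + t) - w x| ≤ N t)
    {η : ℝ} (hη : 0 < η) : ∃ M : ℕ, 0 < M ∧ ∀ Q : ℕ, 0 < Q → Q.Coprime M → ∃ L₀ : ℕ, 0 < L₀ ∧
      ∀ L : ℕ, L₀ ≤ L → ∀ y a y' a' : ℤ,
        |(Q : ℝ) / L * win (res w Q a) y L - (Q : ℝ) / L * win (res w Q a') y' L| ≤ η := by
  obtain ⟨C, hC, hb⟩ := bdd_of_lip hN hw
  obtain ⟨M, hM, hstar⟩ := h6 N hN (η / 8) (by positivity)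
  refine ⟨M, hM, fun Q hQ hco => ?_⟩
  obtain ⟨T, hT, hshift⟩ := exists_shift hN (by positivity) hQ hco hstar
  have hQr : (0 : ℝ) < Q := by exact_mod_cast hQ
  obtain ⟨L₁, hL₁⟩ := exists_nat_gt (max (Q : ℝ) (4 * Q * C * T / η))
  have hL1 : (Q : ℝ) < L₁ := (le_max_left _ _).trans_lt hL₁
  have hL2 : 4 * Q * C * T / η < L₁ := (le_max_right _ _).trans_lt hL₁
  refine ⟨L₁, ?_, ?_⟩
  · have : (0 : ℝ) < L₁ := hQr.trans hL1
    exact_mod_cast this
  intro L hL y a y' a'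
  have hLr : (L₁ : ℝ) ≤ L := by exact_mod_cast hL
  have hL0 : (0 : ℝ) < L := hQr.trans (hL1.trans_le hLr)
  obtain ⟨t, ht1, ht2, ht3⟩ := hshift (y' - y) (a' - a)
  have ht3' : |(t : ℝ) - (y' - y)| ≤ T := by
    have : (((y' - y : ℤ)) : ℝ) = (y' : ℝ) - y := by push_cast; ring
    rw [← this]; exact ht3
  have h1 := win_res_compare hw hC hb hQ y y' a a' t ht1 ht2 ht3' L
  rw [← mul_sub, abs_mul, abs_of_pos (by positivity : (0 : ℝ) < Q / L)]
  have h2 : (Q : ℝ) / L * |win (res w Q a) y L - win (res w Q a') y' L| ≤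
      Q / L * ((L / Q + 1) * (2 * (η / 8)) + 2 * C * T) :=
    mul_le_mul_of_nonneg_left h1 (by positivity)
  refine h2.trans ?_
  have h3 : (Q : ℝ) / L * ((L / Q + 1) * (2 * (η / 8)) + 2 * C * T) =
      (1 + Q / L) * (η / 4) + (4 * Q * C * T) / (2 * L) := by
    field_simp
    ring
  rw [h3]
  have h4 : (Q : ℝ) / L ≤ 1 := by
    rw [div_le_one hL0]
    linarith
  have h5 : (4 * Q * C * T) / (2 * L) ≤ η / 2 := by
    rw [div_lt_iff₀ hη] at hL2
    rw [div_le_iff₀ (by positivity)]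
    nlinarith
  nlinarith

end M8aux

/-- M8 from M6 -/
theorem m8 (S : MeanSys) (h6 : M6) : M8 S := by
  intro w N hN hw η hη
  obtain ⟨C, hC, hb⟩ := M8aux.bdd_of_lip hN hw
  have hwb : Bdd w := ⟨C, hb⟩
  obtain ⟨M, hM, hu⟩ := M8aux.uniform h6 hN hw hη
  refine ⟨M, hM, fun Q hQ hco => ?_⟩
  obtain ⟨L₀, hL₀, hL⟩ := hu Q hQ hco
  refine ⟨L₀, hL₀, fun L hLL y a => ?_⟩
  have hLr : (0 : ℝ) < L := by exact_mod_cast hL₀.trans_le hLL
  have hQr : (0 : ℝ) < Q := by exact_mod_cast hQ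
  have e0 : (∑ s ∈ Finset.range L, if (Q : ℤ) ∣ y + s - a then w (y + s) else 0) =
      M8aux.win (M8aux.res w Q a) y L := rfl
  rw [e0]
  -- the average over all classes
  have h1 : ∀ x : ℤ, |(Q : ℝ) / L * M8aux.win (M8aux.res w Q a) y L - M8aux.win w x L / L| ≤ η := by
    intro x
    have h2 : M8aux.win w x L / L = (1 / (Q : ℝ)) * ∑ a' ∈ Finset.range Q,
        (Q : ℝ) / L * M8aux.win (M8aux.res w Q a') x L := by
      rw [← Finset.mul_sum, M8aux.sum_res w hQ x L]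
      field_simp
    have h3 : (Q : ℝ) / L * M8aux.win (M8aux.res w Q a) y L = (1 / (Q : ℝ)) *
        ∑ a' ∈ Finset.range Q, (Q : ℝ) / L * M8aux.win (M8aux.res w Q a) y L := by
      rw [Finset.sum_const, Finset.card_range, nsmul_eq_mul]
      field_simp
    rw [h2, h3, ← mul_sub, ← Finset.sum_sub_distrib, abs_mul, abs_of_pos (by positivity)]
    have h4 : |∑ a' ∈ Finset.range Q, ((Q : ℝ) / L * M8aux.win (M8aux.res w Q a) y L -
        (Q : ℝ) / L * M8aux.win (M8aux.res w Q a') x L)| ≤ ∑ a' ∈ Finset.range Q, η :=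
      (Finset.abs_sum_le_sum_abs _ _).trans
        (Finset.sum_le_sum fun a' _ => hL L hLL y a x a')
    rw [Finset.sum_const, Finset.card_range, nsmul_eq_mul] at h4
    calc 1 / (Q : ℝ) * _ ≤ 1 / (Q : ℝ) * (Q * η) := mul_le_mul_of_nonneg_left h4 (by positivity)
      _ = η := by field_simp
  -- its mean is the mean of `w`
  have hFb : Bdd (fun x => M8aux.win w x L) := by
    unfold M8aux.win
    exact Bdd.sum _ _ fun s _ => hwb.comp (fun x => x + s)
  have h2 : S.m (fun x => M8aux.win w x L / L) = S.m w := by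
    rw [S.pf.div_const hFb]
    have h3 : S.m (fun x => M8aux.win w x L) = ∑ s ∈ Finset.range L, S.m (fun x => w (x + s)) := by
      unfold M8aux.win
      exact S.pf.sum _ (fun (s : ℕ) x => w (x + s)) fun s _ => hwb.comp (fun x => x + s)
    have h4 : ∑ s ∈ Finset.range L, S.m (fun x => w (x + (s : ℤ))) = ∑ s ∈ Finset.range L, S.m w :=
      Finset.sum_congr rfl fun s _ => S.m_shift (s : ℤ) hwb
    rw [h3, h4, Finset.sum_const, Finset.card_range, nsmul_eq_mul]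
    field_simp
  have h3 : S.m (fun x => (Q : ℝ) / L * M8aux.win (M8aux.res w Q a) y L - M8aux.win w x L / L) =
      (Q : ℝ) / L * M8aux.win (M8aux.res w Q a) y L - S.m w := by
    rw [S.pf.sub (Bdd.const _) (hFb.div_const L), S.pf.const, h2]
  rw [← h3]
  exact S.pf.abs_le h1

end Pool.Agent.FinA
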