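import Pool.Agent.Lib.MP_60922f_co.FIN.Stmts43
import Pool.Agent.Lib.MP_60922f_co.FIN.DLim67

/-! FIN, module M7: dilations by primes along an ultrafilter. -/

set_option autoImplicit false

namespace Pool.Agent.FinA.P67
open Filter Topology Pool.Agent.FIN Pool.Agent.FinA

lemma bdd_const (c : ℝ) : Bdd fun _ => c := ⟨|c|, fun _ => le_rfl⟩

lemma bdd_add {F G : ℤ → ℝ} (hF : Bdd F) (hG : Bdd G) : Bdd fun n => F n + G n := by
  obtain ⟨C, hC⟩ := hF
  obtain ⟨D, hD⟩ := hG
  exact ⟨C + D, fun n => (abs_add_le _ _).trans (add_le_add (hC n) (hD n))⟩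

lemma bdd_smul {F : ℤ → ℝ} (c : ℝ) (hF : Bdd F) : Bdd fun n => c * F n := by
  obtain ⟨C, hC⟩ := hF
  exact ⟨|c| * C, fun n => by
    rw [abs_mul]
    exact mul_le_mul_of_nonneg_left (hC n) (abs_nonneg _)⟩

lemma bdd_sub {F G : ℤ → ℝ} (hF : Bdd F) (hG : Bdd G) : Bdd fun n => F n - G n := by
  obtain ⟨C, hC⟩ := hF
  obtain ⟨D, hD⟩ := hG
  exact ⟨C + D, fun n => (abs_sub _ _).trans (add_le_add (hC n) (hD n))⟩

lemma bdd_mul {F G : ℤ → ℝ} (hF : Bdd F) (hG : Bdd G) : Bdd fun n => F n * G n := by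
  obtain ⟨C, hC⟩ := hF
  obtain ⟨D, hD⟩ := hG
  refine ⟨C * D, fun n => ?_⟩
  rw [abs_mul]
  exact mul_le_mul (hC n) (hD n) (abs_nonneg _) ((abs_nonneg _).trans (hC n))

lemma bdd_comp {F : ℤ → ℝ} (hF : Bdd F) (g : ℤ → ℤ) : Bdd fun n => F (g n) := by
  obtain ⟨C, hC⟩ := hF
  exact ⟨C, fun n => hC _⟩

lemma bdd_ite {F : ℤ → ℝ} (hF : Bdd F) (p : ℤ → Prop) [DecidablePred p] :
    Bdd fun n => if p n then F n else 0 := by
  obtain ⟨C, hC⟩ := hF
  refine ⟨C, fun n => ?_⟩
  change |if p n then F n else 0| ≤ C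
  split_ifs
  · exact hC n
  · rw [abs_zero]; exact (abs_nonneg _).trans (hC n)

variable (S : MeanSys)

lemma m_add {F G : ℤ → ℝ} (hF : Bdd F) (hG : Bdd G) :
    S.m (fun n => F n + G n) = S.m F + S.m G := by
  refine tendsto_nhds_unique (S.m_lim _ (bdd_add hF hG)) ?_
  refine ((S.m_lim F hF).add (S.m_lim G hG)).congr fun k => ?_
  rw [← Finset.sum_add_distrib]
  exact Finset.sum_congr rfl fun n _ => by ring

lemma m_smul {F : ℤ → ℝ} (c : ℝ) (hF : Bdd F) : S.m (fun n => c * F n) = c * S.m F := by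
  refine tendsto_nhds_unique (S.m_lim _ (bdd_smul c hF)) ?_
  refine ((S.m_lim F hF).const_mul c).congr fun k => ?_
  rw [Finset.mul_sum]
  exact Finset.sum_congr rfl fun n _ => by ring

lemma m_sub {F G : ℤ → ℝ} (hF : Bdd F) (hG : Bdd G) :
    S.m (fun n => F n - G n) = S.m F - S.m G := by
  have h := m_add S hF (bdd_smul (-1) hG)
  rw [m_smul S (-1) hG] at h
  have h2 : (fun n => F n - G n) = fun n => F n + -1 * G n := by ext n; ring
  rw [h2, h]; ring

lemma m_nonneg {F : ℤ → ℝ} (hF : Bdd F) (h0 : ∀ n, 0 ≤ F n) : 0 ≤ S.m F :=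
  ge_of_tendsto' (S.m_lim F hF) fun k =>
    Finset.sum_nonneg fun n _ => mul_nonneg (S.wt_nonneg k n) (h0 n)

lemma m_mono {F G : ℤ → ℝ} (hF : Bdd F) (hG : Bdd G) (h : ∀ n, F n ≤ G n) :
    S.m F ≤ S.m G := by
  have := m_nonneg S (bdd_sub hG hF) fun n => sub_nonneg.mpr (h n)
  rw [m_sub S hG hF] at this
  linarith

lemma m_const (c : ℝ) : S.m (fun _ => c) = c := by
  refine tendsto_nhds_unique (S.m_lim _ (bdd_const c)) ?_
  refine (tendsto_const_nhds (x := c)).congr fun k => ?_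
  rw [← Finset.sum_mul, S.wt_sum, one_mul]

lemma m_abs_le {F : ℤ → ℝ} {C : ℝ} (hF : ∀ n, |F n| ≤ C) : |S.m F| ≤ C := by
  have hb : Bdd F := ⟨C, hF⟩
  rw [abs_le]
  constructor
  · have := m_mono S (bdd_const (-C)) hb fun n => (abs_le.mp (hF n)).1
    rwa [m_const] at this
  · have := m_mono S hb (bdd_const C) fun n => (abs_le.mp (hF n)).2
    rwa [m_const] at this

lemma m_dil1 {r : ℕ} (hr : 0 < r) {F : ℤ → ℝ} (hF : ∀ n, |F n| ≤ 1) :
    S.m (fun n => F (r * n)) = r * S.m (fun n => if (r : ℤ) ∣ n then F n else 0) := by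
  have hb : Bdd F := ⟨1, hF⟩
  have h1 := S.m_lim _ (bdd_comp hb fun n => r * n)
  have h2 := (S.m_lim _ (bdd_ite hb fun n => (r : ℤ) ∣ n)).const_mul (r : ℝ)
  have h3 := (h1.sub h2).abs
  have h4 : ∀ ε > (0 : ℝ),
      |S.m (fun n => F (r * n)) - r * S.m (fun n => if (r : ℤ) ∣ n then F n else 0)| ≤ ε := by
    intro ε hε
    refine le_of_tendsto h3 ?_
    exact ((S.dil_err r hr ε hε).filter_mono S.free).mono fun k hk => hk F hF
  have h5 : |S.m (fun n => F (r * n)) - r * S.m (fun n => if (r : ℤ) ∣ n then F n else 0)| ≤ 0 :=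
    le_of_forall_pos_le_add fun ε hε => by rw [zero_add]; exact h4 ε hε
  exact sub_eq_zero.mp (abs_nonpos_iff.mp h5)

lemma m_dil {r : ℕ} (hr : 0 < r) {F : ℤ → ℝ} (hF : Bdd F) :
    S.m (fun n => F (r * n)) = r * S.m (fun n => if (r : ℤ) ∣ n then F n else 0) := by
  obtain ⟨C, hC⟩ := hF
  have hF : Bdd F := ⟨C, hC⟩
  set D : ℝ := |C| + 1 with hD
  have hD0 : 0 < D := by positivity
  have hFD : ∀ n, |D⁻¹ * F n| ≤ 1 := by
    intro n
    rw [abs_mul, abs_of_pos (inv_pos.mpr hD0), inv_mul_le_iff₀ hD0, mul_one]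
    exact (hC n).trans ((le_abs_self C).trans (by rw [hD]; linarith))
  have h1 := m_dil1 S hr hFD
  have h2 : (fun n : ℤ => if (r : ℤ) ∣ n then D⁻¹ * F n else 0)
      = fun n => D⁻¹ * (if (r : ℤ) ∣ n then F n else 0) := by
    ext n; split_ifs <;> simp
  rw [m_smul S D⁻¹ (bdd_comp hF fun n => r * n), h2, m_smul S D⁻¹ (bdd_ite hF _)] at h1
  have h3 : D * (D⁻¹ * S.m (fun n => F (r * n)))
      = D * (r * (D⁻¹ * S.m (fun n => if (r : ℤ) ∣ n then F n else 0))) := by rw [h1]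
  have hD1 : D ≠ 0 := hD0.ne'
  calc S.m (fun n => F (r * n)) = D * (D⁻¹ * S.m (fun n => F (r * n))) := by
        rw [mul_inv_cancel_left₀ hD1]
    _ = D * (r * (D⁻¹ * S.m (fun n => if (r : ℤ) ∣ n then F n else 0))) := h3
    _ = (D * D⁻¹) * (r * S.m (fun n => if (r : ℤ) ∣ n then F n else 0)) := by ring
    _ = _ := by rw [mul_inv_cancel₀ hD1, one_mul]

/-- indicator of the multiples of `r` -/
noncomputable def dv (r : ℕ) (n : ℤ) : ℝ := if (r : ℤ) ∣ n then 1 else 0

lemma bdd_dv (r : ℕ) : Bdd (dv r) := bdd_ite (bdd_const 1) _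

lemma m_dv {r : ℕ} (hr : 0 < r) : S.m (dv r) = 1 / r := by
  have h := m_dil S hr (bdd_const 1)
  rw [m_const] at h
  have hr' : (r : ℝ) ≠ 0 := by positivity
  rw [eq_div_iff hr', mul_comm]
  exact h.symm

lemma m_dv_mul {r : ℕ} (hr : 0 < r) {F : ℤ → ℝ} (hF : Bdd F) :
    S.m (fun n => dv r n * F n) = S.m (fun n => F (r * n)) / r := by
  have h := m_dil S hr hF
  have hr' : (r : ℝ) ≠ 0 := by positivity
  rw [eq_div_iff hr', mul_comm, h]
  congr 2
  ext n
  unfold dv
  split_ifs <;> simp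

/-- normalised function of the prime `p` -/
noncomputable def ep (p : ℕ) (n : ℤ) : ℝ := (p * dv p n - 1) / Real.sqrt (p - 1)

lemma bdd_ep (p : ℕ) : Bdd (ep p) := by
  have h := bdd_smul (Real.sqrt (p - 1))⁻¹ (bdd_sub (bdd_smul (p : ℝ) (bdd_dv p)) (bdd_const 1))
  refine Eq.subst (motive := Bdd) ?_ h
  ext n
  unfold ep
  rw [div_eq_inv_mul]

lemma m_mul_ep {p : ℕ} (hp : p.Prime) {F : ℤ → ℝ} (hF : Bdd F) :
    S.m (fun n => F n * ep p n) = (S.m (fun n => F (p * n)) - S.m F) / Real.sqrt (p - 1) := by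
  have h1 : (fun n => F n * ep p n)
      = fun n => (Real.sqrt (p - 1))⁻¹ * (p * (dv p n * F n) - F n) := by
    ext n; unfold ep; rw [div_eq_inv_mul]; ring
  have hp' : (p : ℝ) ≠ 0 := by exact_mod_cast hp.ne_zero
  have hb : Bdd fun n => dv p n * F n := bdd_mul (bdd_dv p) hF
  rw [h1, m_smul S _ (bdd_sub (bdd_smul _ hb) hF), m_sub S (bdd_smul _ hb) hF, m_smul S _ hb,
    m_dv_mul S hp.pos hF, mul_div_cancel₀ _ hp', div_eq_inv_mul]

lemma m_ep_ep {p q : ℕ} (hp : p.Prime) (hq : q.Prime) :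
    S.m (fun n => ep p n * ep q n) = if p = q then 1 else 0 := by
  have hp1 : (1 : ℝ) < p := by exact_mod_cast hp.one_lt
  have hq1 : (1 : ℝ) < q := by exact_mod_cast hq.one_lt
  have hs : Real.sqrt (p - 1) * Real.sqrt (p - 1) = p - 1 := Real.mul_self_sqrt (by linarith)
  have hs0 : 0 < Real.sqrt (p - 1) := Real.sqrt_pos.mpr (by linarith)
  rw [m_mul_ep S hq (bdd_ep p)]
  have hmean : S.m (ep p) = 0 := by
    have h1 : ep p = fun n => (Real.sqrt (p - 1))⁻¹ * (p * dv p n - 1) := by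
      ext n; unfold ep; rw [div_eq_inv_mul]
    rw [h1, m_smul S _ (bdd_sub (bdd_smul _ (bdd_dv p)) (bdd_const 1)),
      m_sub S (bdd_smul _ (bdd_dv p)) (bdd_const 1), m_smul S _ (bdd_dv p), m_dv S hp.pos,
      m_const]
    field_simp
    ring
  rw [hmean, sub_zero]
  split_ifs with hpq
  · subst hpq
    have h2 : (fun n : ℤ => ep p (p * n)) = fun _ => Real.sqrt (p - 1) := by
      ext n
      unfold ep dv
      rw [if_pos (dvd_mul_right _ _), mul_one, div_eq_iff hs0.ne', hs]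
    rw [h2, m_const, div_self hs0.ne']
  · have h2 : (fun n : ℤ => ep p (q * n)) = ep p := by
      ext n
      unfold ep dv
      have h3 : ((p : ℤ) ∣ q * n) ↔ (p : ℤ) ∣ n := by
        constructor
        · intro h
          have hc : IsCoprime (p : ℤ) q := by
            rw [Nat.isCoprime_iff_coprime]
            exact (Nat.coprime_primes hp hq).mpr hpq
          exact hc.dvd_of_dvd_mul_left h
        · intro h
          exact h.mul_left _
      simp only [h3]
    rw [h2, hmean, zero_div]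

lemma bdd_sum {ι : Type*} (s : Finset ι) {F : ι → ℤ → ℝ} (hF : ∀ i ∈ s, Bdd (F i)) :
    Bdd fun n => ∑ i ∈ s, F i n := by
  classical
  induction s using Finset.induction_on with
  | empty => simpa using bdd_const 0
  | insert i s hi ih =>
    have h1 := bdd_add (hF i (Finset.mem_insert_self _ _))
      (ih fun j hj => hF j (Finset.mem_insert_of_mem hj))
    refine Eq.subst (motive := Bdd) ?_ h1
    ext n
    rw [Finset.sum_insert hi]

lemma m_sum {ι : Type*} (s : Finset ι) {F : ι → ℤ → ℝ} (hF : ∀ i ∈ s, Bdd (F i)) :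
    S.m (fun n => ∑ i ∈ s, F i n) = ∑ i ∈ s, S.m (F i) := by
  classical
  induction s using Finset.induction_on with
  | empty => simpa using m_const S 0
  | insert i s hi ih =>
    have h1 := m_add S (hF i (Finset.mem_insert_self _ _))
      (bdd_sum s fun j hj => hF j (Finset.mem_insert_of_mem hj))
    rw [Finset.sum_insert hi, ← ih fun j hj => hF j (Finset.mem_insert_of_mem hj), ← h1]
    congr 1
    ext n
    rw [Finset.sum_insert hi]

/-- Bessel inequality for dilations by primes -/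
lemma bessel {F : ℤ → ℝ} (hF : Bdd F) (s : Finset ℕ) (hs : ∀ p ∈ s, p.Prime) :
    ∑ p ∈ s, (S.m (fun n => F (p * n)) - S.m F) ^ 2 / ((p : ℝ) - 1) ≤ S.m (fun n => F n ^ 2) := by
  set c : ℕ → ℝ := fun p => S.m (fun n => F n * ep p n) with hc
  have hc2 : ∀ p ∈ s, (S.m (fun n => F (p * n)) - S.m F) ^ 2 / ((p : ℝ) - 1) = c p ^ 2 := by
    intro p hp
    have hp1 : (1 : ℝ) < p := by exact_mod_cast (hs p hp).one_lt
    rw [hc]
    simp only
    rw [m_mul_ep S (hs p hp) hF, div_pow, Real.sq_sqrt (by linarith)]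
  rw [Finset.sum_congr rfl hc2]
  have hFF : Bdd fun n => F n ^ 2 := by
    refine Eq.subst (motive := Bdd) ?_ (bdd_mul hF hF)
    ext n; rw [sq]
  have hb1 : ∀ p ∈ s, Bdd fun n => c p * (F n * ep p n) := fun p _ =>
    bdd_smul _ (bdd_mul hF (bdd_ep p))
  have hb2 : ∀ p ∈ s, ∀ q ∈ s, Bdd fun n => c p * c q * (ep p n * ep q n) := fun p _ q _ =>
    bdd_smul _ (bdd_mul (bdd_ep p) (bdd_ep q))
  have h0 : 0 ≤ S.m (fun n => (F n - ∑ p ∈ s, c p * ep p n) ^ 2) := by
    refine m_nonneg S ?_ fun n => sq_nonneg _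
    have h1 := bdd_sub hF (bdd_sum s fun p _ => bdd_smul (c p) (bdd_ep p))
    refine Eq.subst (motive := Bdd) ?_ (bdd_mul h1 h1)
    ext n; rw [sq]
  have h1 : (fun n => (F n - ∑ p ∈ s, c p * ep p n) ^ 2) = fun n =>
      (F n ^ 2 - 2 * ∑ p ∈ s, c p * (F n * ep p n))
        + ∑ p ∈ s, ∑ q ∈ s, c p * c q * (ep p n * ep q n) := by
    ext n
    have h2 : ∑ p ∈ s, ∑ q ∈ s, c p * c q * (ep p n * ep q n)
        = (∑ p ∈ s, c p * ep p n) * (∑ q ∈ s, c q * ep q n) := by
      rw [Finset.sum_mul_sum]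
      exact Finset.sum_congr rfl fun p _ => Finset.sum_congr rfl fun q _ => by ring
    have h3 : ∑ p ∈ s, c p * (F n * ep p n) = F n * ∑ p ∈ s, c p * ep p n := by
      rw [Finset.mul_sum]
      exact Finset.sum_congr rfl fun p _ => by ring
    rw [h2, h3]; ring
  have hbs : Bdd fun n => ∑ p ∈ s, c p * (F n * ep p n) := bdd_sum s hb1
  have hbss : Bdd fun n => ∑ p ∈ s, ∑ q ∈ s, c p * c q * (ep p n * ep q n) :=
    bdd_sum s fun p hp => bdd_sum s (hb2 p hp)
  rw [h1, m_add S (bdd_sub hFF (bdd_smul 2 hbs)) hbss, m_sub S hFF (bdd_smul 2 hbs),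
    m_smul S 2 hbs, m_sum S s hb1, m_sum S s fun p hp => bdd_sum s (hb2 p hp)] at h0
  have h4 : ∀ p ∈ s, S.m (fun n => c p * (F n * ep p n)) = c p ^ 2 := by
    intro p _
    rw [m_smul S _ (bdd_mul hF (bdd_ep p)), sq]
  have h5 : ∀ p ∈ s, S.m (fun n => ∑ q ∈ s, c p * c q * (ep p n * ep q n)) = c p ^ 2 := by
    intro p hp
    rw [m_sum S s (hb2 p hp)]
    have h6 : ∀ q ∈ s, S.m (fun n => c p * c q * (ep p n * ep q n))
        = if p = q then c p ^ 2 else 0 := by
      intro q hq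
      rw [m_smul S _ (bdd_mul (bdd_ep p) (bdd_ep q)), m_ep_ep S (hs p hp) (hs q hq)]
      split_ifs with h
      · subst h; ring
      · ring
    rw [Finset.sum_congr rfl h6, Finset.sum_ite_eq, if_pos hp]
  rw [Finset.sum_congr rfl h4, Finset.sum_congr rfl h5] at h0
  linarith

/-- dilation by most primes preserves the mean -/
lemma tendsto_dil {F : ℤ → ℝ} (hF : Bdd F) :
    Tendsto (fun p : ℕ => S.m (fun n => F (p * n))) primeU (𝓝 (S.m F)) := by
  have h1 := tendsto_zero_of_sum (fun p => (S.m (fun n => F (p * n)) - S.m F) ^ 2)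
    (fun p => sq_nonneg _) (S.m (fun n => F n ^ 2)) fun s hs => by
      refine le_trans (Finset.sum_le_sum fun p hp => ?_) (bessel S hF s hs)
      have hp1 : (1 : ℝ) < p := by exact_mod_cast (hs p hp).one_lt
      exact div_le_div_of_nonneg_left (sq_nonneg _) (by linarith) (by linarith)
  have h2 : Tendsto (fun p : ℕ => |S.m (fun n => F (p * n)) - S.m F|) primeU (𝓝 0) := by
    have h3 := (Real.continuous_sqrt.tendsto 0).comp h1
    rw [Real.sqrt_zero] at h3
    refine h3.congr fun p => ?_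
    simp only [Function.comp_apply]
    rw [Real.sqrt_sq_eq_abs]
  rw [tendsto_iff_norm_sub_tendsto_zero]
  exact h2

/-- bounded functions as a real vector space -/
def BF : Submodule ℝ (ℤ → ℝ) where
  carrier := {F | Bdd F}
  add_mem' := fun hF hG => bdd_add hF hG
  zero_mem' := bdd_const 0
  smul_mem' := fun c _ hF => bdd_smul c hF

/-- the semi-inner product of the mean -/
@[reducible]
def core : PreInnerProductSpace.Core ℝ BF where
  inner F G := S.m (fun n => F.1 n * G.1 n)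
  conj_inner_symm F G := by
    simp only [conj_trivial]
    congr 1
    ext n
    ring
  re_inner_nonneg F := by
    simp only [RCLike.re_to_real]
    exact m_nonneg S (bdd_mul F.2 F.2) fun n => mul_self_nonneg _
  add_left F G H := by
    rw [← m_add S (bdd_mul F.2 H.2) (bdd_mul G.2 H.2)]
    congr 1
    ext n
    simp only [Submodule.coe_add, Pi.add_apply]
    ring
  smul_left F G c := by
    simp only [conj_trivial]
    rw [← m_smul S c (bdd_mul F.2 G.2)]
    congr 1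
    ext n
    simp only [Submodule.coe_smul, Pi.smul_apply, smul_eq_mul]
    ring

/-- both iterated limits of correlations of dilations agree -/
lemma two_limits {G H : ℤ → ℝ} (hG : Bdd G) (hH : Bdd H) (P : Ultrafilter ℕ) :
    ∃ (l : ℝ) (a b : ℕ → ℝ),
      (∀ v : ℕ, Tendsto (fun u : ℕ => S.m (fun n => G (v * n) * H (u * n))) P (𝓝 (a v))) ∧
      Tendsto a P (𝓝 l) ∧
      (∀ u : ℕ, Tendsto (fun v : ℕ => S.m (fun n => G (v * n) * H (u * n))) P (𝓝 (b u))) ∧
      Tendsto b P (𝓝 l) := by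
  obtain ⟨C, hC⟩ := hG
  obtain ⟨D, hD⟩ := hH
  have hG : Bdd G := ⟨C, hC⟩
  have hH : Bdd H := ⟨D, hD⟩
  let _ := core S
  let _ : SeminormedAddCommGroup BF := InnerProductSpace.Core.toSeminormedAddCommGroup (𝕜 := ℝ)
  let _ : InnerProductSpace ℝ BF := InnerProductSpace.ofCore (core S)
  let g : ℕ → BF := fun v => ⟨fun n => G (v * n), bdd_comp hG fun n => v * n⟩
  let h : ℕ → BF := fun v => ⟨fun n => H (v * n), bdd_comp hH fun n => v * n⟩
  have key : ∀ (F : BF) (K : ℝ), (∀ n, |F.1 n| ≤ K) → ‖F‖ ≤ |K| := by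
    intro F K hK
    have h1 : ‖F‖ ^ 2 ≤ |K| ^ 2 := by
      rw [← real_inner_self_eq_norm_sq]
      change S.m (fun n => F.1 n * F.1 n) ≤ _
      refine (m_mono S (bdd_mul F.2 F.2) (bdd_const (|K| ^ 2)) fun n => ?_).trans_eq (m_const S _)
      have h2 : |F.1 n| ≤ |K| := (hK n).trans (le_abs_self K)
      calc F.1 n * F.1 n = |F.1 n| ^ 2 := by rw [sq_abs, sq]
        _ ≤ |K| ^ 2 := pow_le_pow_left₀ (abs_nonneg _) h2 2
    exact le_of_sq_le_sq h1 (abs_nonneg K)
  have hg : ∀ v, ‖g v‖ ≤ max |C| |D| := fun v =>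
    (key (g v) C fun n => hC _).trans (le_max_left _ _)
  have hh : ∀ v, ‖h v‖ ≤ max |C| |D| := fun v =>
    (key (h v) D fun n => hD _).trans (le_max_right _ _)
  obtain ⟨l, a, b, h1, h2, h3, h4⟩ := double_limit P g h _ hg hh
  exact ⟨l, a, b, h1, h2, h3, h4⟩

theorem m7 : M7 S := by
  refine ⟨primeU, ?_, eventually_prime, fun G hG => tendsto_dil S hG, fun G H hG hH => ?_⟩
  · rw [← Filter.tendsto_id', Filter.tendsto_atTop]
    exact fun N => eventually_ge N
  · obtain ⟨l, a, b, h1, h2, h3, h4⟩ := two_limits S hG hH primeU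
    refine ⟨l, fun ε hε => ?_⟩
    have hε2 : 0 < ε / 2 := by linarith
    have ha := Metric.tendsto_nhds.mp h2 (ε / 2) hε2
    have hb := Metric.tendsto_nhds.mp h4 (ε / 2) hε2
    filter_upwards [ha, hb] with u hau hbu
    have hv1 := Metric.tendsto_nhds.mp (h3 u) (ε / 2) hε2
    have hv2 := Metric.tendsto_nhds.mp (h1 u) (ε / 2) hε2
    filter_upwards [hv1, hv2] with v hv1 hv2
    rw [Real.dist_eq] at hau hbu hv1 hv2
    constructor
    · have := abs_sub_le (S.m (fun n => G (v * n) * H (u * n))) (b u) l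
      linarith
    · have := abs_sub_le (S.m (fun n => G (u * n) * H (v * n))) (a u) l
      linarith

end Pool.Agent.FinA.P67
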