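import Pool.Agent.Lib.MP_60922f_co.FIN.Link99
import Pool.Agent.Lib.MP_60922f_co.FIN.M2_88
import Pool.Agent.Lib.MP_60922f_co.FIN.M3_5
import Pool.Agent.Lib.MP_60922f_co.FIN.M4_69
import Pool.Agent.Lib.MP_60922f_co.FIN.M6_24
import Pool.Agent.Lib.MP_60922f_co.FIN.M8_78
import Pool.Agent.Lib.MP_60922f_co.FIN.M10_67
import Pool.Agent.Lib.MP_60922f_co.FIN.M11_98
import Pool.Agent.Lib.MP_60922f_co.FIN.Prime67

set_option autoImplicit false

/-!
Composition of the modules.  Open modules enter as hypotheses.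
-/

namespace Pool.Agent.FinA
open Pool.Agent.FinClique

/-- finitely many disjoint tie cells cover almost everything -/
def Cells (S : MeanSys) (f : ℕ → Bool) : Prop := ∀ θ > (0 : ℝ),
  ∃ (J : ℕ) (A : Fin J → Set ℤ), (∀ i j, i ≠ j → Disjoint (A i) (A j)) ∧
    (∀ i, TieCell S f (A i)) ∧ 1 - ∑ i, S.m (ind (A i)) ≤ θ

theorem cells_of_posBad (S : MeanSys) {f : ℕ → Bool} (hf : PosBad S f) : Cells S f :=
  fun θ hθ => m3_posBad S (m2b S) f hf θ hθ

/-- Everything except the open modules `M5`, `M9` and the link `M12`. -/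
theorem stab_glue (S : MeanSys)
    (h5 : M2a S → M4 S → M5 S) (h9 : M7 S → M8 S → M9 S)
    (h12 : M11 S → ∀ f, Cells S f → Stab (mu S) f)
    {f : ℕ → Bool} (hf : PosBad S f) : Stab (mu S) f :=
  h12 (m11 S m6 (P67.m10 S (h5 (m2a S) (m4 S)) (h9 (P67.m7 S) (m8 S m6)))) f
    (cells_of_posBad S hf)

end Pool.Agent.FinA
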