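import Pool.Agent.Lib.MP_60922f_co.FIN.Stmts43

/-!
FIN: the Hilbert space of a mean system: completion of the bounded functions for
`⟪F, G⟫ = m (F G)`, with the unitary shift.
-/

set_option autoImplicit false

namespace Pool.Agent.FinA

open Filter Topology Finset UniformSpace

namespace H42

lemma bdd_add {F G : ℤ → ℝ} (hF : Bdd F) (hG : Bdd G) : Bdd (fun n => F n + G n) := by
  obtain ⟨C, hC⟩ := hF
  obtain ⟨D, hD⟩ := hG
  exact ⟨C + D, fun n => (abs_add_le _ _).trans (add_le_add (hC n) (hD n))⟩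

lemma bdd_mul {F G : ℤ → ℝ} (hF : Bdd F) (hG : Bdd G) : Bdd (fun n => F n * G n) := by
  obtain ⟨C, hC⟩ := hF
  obtain ⟨D, hD⟩ := hG
  refine ⟨C * D, fun n => ?_⟩
  rw [abs_mul]
  exact mul_le_mul (hC n) (hD n) (abs_nonneg _) ((abs_nonneg _).trans (hC n))

lemma bdd_const (c : ℝ) : Bdd (fun _ => c) := ⟨|c|, fun _ => le_rfl⟩

lemma bdd_smul (c : ℝ) {F : ℤ → ℝ} (hF : Bdd F) : Bdd (fun n => c * F n) :=
  bdd_mul (bdd_const c) hF

lemma bdd_neg {F : ℤ → ℝ} (hF : Bdd F) : Bdd (fun n => -F n) := by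
  obtain ⟨C, hC⟩ := hF
  exact ⟨C, fun n => by rw [abs_neg]; exact hC n⟩

lemma bdd_sub {F G : ℤ → ℝ} (hF : Bdd F) (hG : Bdd G) : Bdd (fun n => F n - G n) := by
  simpa [sub_eq_add_neg] using bdd_add hF (bdd_neg hG)

lemma bdd_shift (t : ℤ) {F : ℤ → ℝ} (hF : Bdd F) : Bdd (fun n => F (n + t)) := by
  obtain ⟨C, hC⟩ := hF
  exact ⟨C, fun n => hC _⟩

lemma bdd_sum {ι : Type*} (s : Finset ι) {F : ι → ℤ → ℝ} (hF : ∀ i ∈ s, Bdd (F i)) :
    Bdd (fun n => ∑ i ∈ s, F i n) := by
  classical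
  induction s using Finset.induction_on with
  | empty => simpa using bdd_const 0
  | insert a s ha ih =>
    simp only [Finset.sum_insert ha]
    exact bdd_add (hF a (Finset.mem_insert_self a s))
      (ih fun i hi => hF i (Finset.mem_insert_of_mem hi))

variable (S : MeanSys)

lemma m_add {F G : ℤ → ℝ} (hF : Bdd F) (hG : Bdd G) :
    S.m (fun n => F n + G n) = S.m F + S.m G := by
  refine tendsto_nhds_unique (S.m_lim _ (bdd_add hF hG)) ?_
  refine ((S.m_lim F hF).add (S.m_lim G hG)).congr fun k => ?_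
  rw [← Finset.sum_add_distrib]
  exact Finset.sum_congr rfl fun n _ => by ring

lemma m_smul (c : ℝ) {F : ℤ → ℝ} (hF : Bdd F) :
    S.m (fun n => c * F n) = c * S.m F := by
  refine tendsto_nhds_unique (S.m_lim _ (bdd_smul c hF)) ?_
  refine ((S.m_lim F hF).const_mul c).congr fun k => ?_
  rw [Finset.mul_sum]
  exact Finset.sum_congr rfl fun n _ => by ring

lemma m_nonneg {F : ℤ → ℝ} (hF : Bdd F) (h : ∀ n, 0 ≤ F n) : 0 ≤ S.m F := by
  refine ge_of_tendsto' (S.m_lim F hF) fun k => ?_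
  exact Finset.sum_nonneg fun n _ => mul_nonneg (S.wt_nonneg k n) (h n)

lemma m_shift (t : ℤ) {F : ℤ → ℝ} (hF : Bdd F) : S.m (fun n => F (n + t)) = S.m F := by
  obtain ⟨C, hC⟩ := id hF
  have h1 := (S.m_lim _ (bdd_shift t hF)).sub (S.m_lim F hF)
  have h2 : Tendsto (fun k => ∑ n ∈ S.blk k, S.wt k n * F (n + t) -
      ∑ n ∈ S.blk k, S.wt k n * F n) (S.U : Filter ℕ) (𝓝 0) := by
    rw [Metric.tendsto_nhds]
    intro ε hε
    have hC0 : 0 ≤ C := (abs_nonneg _).trans (hC 0)
    have hpos : 0 < ε / 2 / (C + 1) := by positivity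
    filter_upwards [(S.shift_err t _ hpos).filter_mono S.free] with k hk
    have h3 := hk (fun n => F n / (C + 1)) (fun n => by
      rw [abs_div, abs_of_pos (by linarith : 0 < C + 1), div_le_one (by linarith)]
      linarith [hC n])
    have e : ∀ G : ℤ → ℝ, ∑ n ∈ S.blk k, S.wt k n * (G n / (C + 1)) =
        (∑ n ∈ S.blk k, S.wt k n * G n) / (C + 1) := by
      intro G
      rw [Finset.sum_div]
      exact Finset.sum_congr rfl fun n _ => by ring
    rw [e (fun n => F (n + t)), e F, ← sub_div, abs_div,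
      abs_of_pos (by linarith : 0 < C + 1), div_le_div_iff_of_pos_right (by linarith)] at h3
    rw [Real.dist_eq, sub_zero]
    linarith
  exact sub_eq_zero.1 (tendsto_nhds_unique h1 h2)

end H42

/-- the submodule of bounded functions -/
def bddSub : Submodule ℝ (ℤ → ℝ) where
  carrier := {F | Bdd F}
  add_mem' hF hG := H42.bdd_add hF hG
  zero_mem' := H42.bdd_const 0
  smul_mem' c _ hF := H42.bdd_smul c hF

namespace MeanSys

/-- bounded functions, with the seminorm of `S` -/
def BF (_ : MeanSys) : Type := bddSub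

instance (S : MeanSys) : AddCommGroup S.BF := inferInstanceAs (AddCommGroup bddSub)
instance (S : MeanSys) : Module ℝ S.BF := inferInstanceAs (Module ℝ bddSub)

/-- bundled bounded function -/
def mkBF (S : MeanSys) (F : ℤ → ℝ) (hF : Bdd F) : S.BF := (⟨F, hF⟩ : bddSub)

/-- underlying function -/
def fn {S : MeanSys} (F : S.BF) : ℤ → ℝ := (F : bddSub).1

lemma fn_bdd {S : MeanSys} (F : S.BF) : Bdd (fn F) := (F : bddSub).2

lemma fn_add {S : MeanSys} (F G : S.BF) (n : ℤ) : fn (F + G) n = fn F n + fn G n := rfl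

lemma fn_smul {S : MeanSys} (c : ℝ) (F : S.BF) (n : ℤ) : fn (c • F) n = c * fn F n := rfl

lemma fn_mk {S : MeanSys} (F : ℤ → ℝ) (hF : Bdd F) : fn (S.mkBF F hF) = F := rfl

lemma mk_fn {S : MeanSys} (F : S.BF) : S.mkBF (fn F) (fn_bdd F) = F := rfl

lemma ext_fn {S : MeanSys} {F G : S.BF} (h : ∀ n, fn F n = fn G n) : F = G :=
  Subtype.ext (funext h)

/-- the semi inner product -/
@[reducible] noncomputable def core (S : MeanSys) : PreInnerProductSpace.Core ℝ S.BF where
  inner F G := S.m (fun n => fn F n * fn G n)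
  conj_inner_symm F G := by
    simp only [conj_trivial]
    congr 1
    funext n
    ring
  re_inner_nonneg F := by
    simp only [RCLike.re_to_real]
    exact H42.m_nonneg S (H42.bdd_mul (fn_bdd F) (fn_bdd F)) fun n => mul_self_nonneg _
  add_left F G K := by
    rw [← H42.m_add S (H42.bdd_mul (fn_bdd F) (fn_bdd K)) (H42.bdd_mul (fn_bdd G) (fn_bdd K))]
    congr 1
    funext n
    rw [fn_add]
    ring
  smul_left F G c := by
    simp only [conj_trivial]
    rw [← H42.m_smul S c (H42.bdd_mul (fn_bdd F) (fn_bdd G))]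
    congr 1
    funext n
    rw [fn_smul]
    ring

noncomputable instance (S : MeanSys) : SeminormedAddCommGroup S.BF :=
  InnerProductSpace.Core.toSeminormedAddCommGroup (c := S.core)

noncomputable instance (S : MeanSys) : InnerProductSpace ℝ S.BF :=
  InnerProductSpace.ofCore S.core

lemma inner_BF {S : MeanSys} (F G : S.BF) :
    inner ℝ F G = S.m (fun n => fn F n * fn G n) := rfl

/-- the Hilbert space -/
def H (S : MeanSys) : Type := Completion S.BF

noncomputable instance (S : MeanSys) : NormedAddCommGroup S.H :=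
  inferInstanceAs (NormedAddCommGroup (Completion S.BF))
noncomputable instance (S : MeanSys) : InnerProductSpace ℝ S.H :=
  inferInstanceAs (InnerProductSpace ℝ (Completion S.BF))
instance (S : MeanSys) : CompleteSpace S.H :=
  inferInstanceAs (CompleteSpace (Completion S.BF))

/-- the embedding -/
noncomputable def toH (S : MeanSys) : S.BF →ₗᵢ[ℝ] S.H := Completion.toComplₗᵢ

lemma toH_dense (S : MeanSys) : DenseRange S.toH := Completion.denseRange_coe

lemma toH_unif (S : MeanSys) : IsUniformInducing S.toH := Completion.isUniformInducing_coe _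

open Classical in
/-- class of a function (zero if it is not bounded) -/
noncomputable def iota (S : MeanSys) (F : ℤ → ℝ) : S.H :=
  if h : Bdd F then S.toH (S.mkBF F h) else 0

lemma iota_eq {S : MeanSys} {F : ℤ → ℝ} (h : Bdd F) : S.iota F = S.toH (S.mkBF F h) := by
  unfold iota
  rw [dif_pos h]

lemma iota_add {S : MeanSys} {F G : ℤ → ℝ} (hF : Bdd F) (hG : Bdd G) :
    S.iota (fun n => F n + G n) = S.iota F + S.iota G := by
  rw [iota_eq hF, iota_eq hG, iota_eq (H42.bdd_add hF hG), ← map_add]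
  rfl

lemma iota_smul {S : MeanSys} (c : ℝ) {F : ℤ → ℝ} (hF : Bdd F) :
    S.iota (fun n => c * F n) = c • S.iota F := by
  rw [iota_eq hF, iota_eq (H42.bdd_smul c hF), ← map_smul]
  rfl

lemma iota_zero {S : MeanSys} : S.iota (fun _ => 0) = 0 := by
  have h := iota_smul (S := S) 0 (H42.bdd_const 0)
  simpa using h

lemma iota_neg {S : MeanSys} {F : ℤ → ℝ} (hF : Bdd F) :
    S.iota (fun n => -F n) = -S.iota F := by
  have h := iota_smul (S := S) (-1) hF
  simpa using h

lemma iota_sub {S : MeanSys} {F G : ℤ → ℝ} (hF : Bdd F) (hG : Bdd G) :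
    S.iota (fun n => F n - G n) = S.iota F - S.iota G := by
  have h := iota_add (S := S) hF (H42.bdd_neg hG)
  rw [iota_neg hG] at h
  simpa [sub_eq_add_neg] using h

lemma iota_sum {S : MeanSys} {ι : Type*} (s : Finset ι) {F : ι → ℤ → ℝ}
    (hF : ∀ i ∈ s, Bdd (F i)) :
    S.iota (fun n => ∑ i ∈ s, F i n) = ∑ i ∈ s, S.iota (F i) := by
  classical
  induction s using Finset.induction_on with
  | empty => simpa using iota_zero
  | insert a s ha ih =>
    have h1 : ∀ i ∈ s, Bdd (F i) := fun i hi => hF i (Finset.mem_insert_of_mem hi)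
    simp only [Finset.sum_insert ha]
    rw [iota_add (hF a (Finset.mem_insert_self a s)) (H42.bdd_sum s h1), ih h1]

lemma inner_iota {S : MeanSys} {F G : ℤ → ℝ} (hF : Bdd F) (hG : Bdd G) :
    inner ℝ (S.iota F) (S.iota G) = S.m (fun n => F n * G n) := by
  rw [iota_eq hF, iota_eq hG, LinearIsometry.inner_map_map, inner_BF]
  rfl

lemma norm_iota_sq {S : MeanSys} {F : ℤ → ℝ} (hF : Bdd F) :
    ‖S.iota F‖ ^ 2 = S.m (fun n => F n ^ 2) := by
  rw [← real_inner_self_eq_norm_sq, inner_iota hF hF]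
  congr 1
  funext n
  ring

lemma norm_iota {S : MeanSys} {F : ℤ → ℝ} (hF : Bdd F) :
    ‖S.iota F‖ = Real.sqrt (S.m (fun n => F n ^ 2)) := by
  rw [← norm_iota_sq hF, Real.sqrt_sq (norm_nonneg _)]

lemma iota_dense {S : MeanSys} (x : S.H) {e : ℝ} (he : 0 < e) :
    ∃ F, Bdd F ∧ ‖x - S.iota F‖ ≤ e := by
  obtain ⟨F, hF⟩ := S.toH_dense.exists_dist_lt x he
  refine ⟨fn F, fn_bdd F, ?_⟩
  rw [iota_eq (fn_bdd F), mk_fn, ← dist_eq_norm]
  exact hF.le

lemma dense_iota (S : MeanSys) : Dense {x : S.H | ∃ F, Bdd F ∧ S.iota F = x} := by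
  refine S.toH_dense.mono ?_
  rintro _ ⟨F, rfl⟩
  exact ⟨fn F, fn_bdd F, by rw [iota_eq (fn_bdd F), mk_fn]⟩

/-- shift on bounded functions -/
def shB (S : MeanSys) (t : ℤ) : S.BF →ₗ[ℝ] S.BF where
  toFun F := S.mkBF (fun n => fn F (n + t)) (H42.bdd_shift t (fn_bdd F))
  map_add' _ _ := rfl
  map_smul' _ _ := rfl

/-- shift on bounded functions, as an isometry -/
noncomputable def shI (S : MeanSys) (t : ℤ) : S.BF →ₗᵢ[ℝ] S.BF where
  toLinearMap := S.shB t
  norm_map' F := by
    have h : ‖S.shB t F‖ ^ 2 = ‖F‖ ^ 2 := by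
      rw [← real_inner_self_eq_norm_sq, ← real_inner_self_eq_norm_sq, inner_BF, inner_BF]
      exact H42.m_shift S t (H42.bdd_mul (fn_bdd F) (fn_bdd F))
    exact (sq_eq_sq₀ (norm_nonneg _) (norm_nonneg _)).1 h

/-- shift on the Hilbert space, continuous linear map -/
noncomputable def TL (S : MeanSys) (t : ℤ) : S.H →L[ℝ] S.H :=
  ContinuousLinearMap.extend ((S.toH.comp (S.shI t)).toContinuousLinearMap)
    S.toH.toContinuousLinearMap

lemma TL_toH (S : MeanSys) (t : ℤ) (F : S.BF) : S.TL t (S.toH F) = S.toH (S.shI t F) :=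
  ContinuousLinearMap.extend_eq ((S.toH.comp (S.shI t)).toContinuousLinearMap)
    (e := S.toH.toContinuousLinearMap) S.toH_dense S.toH_unif F

/-- the shift as a linear isometry -/
noncomputable def T (S : MeanSys) (t : ℤ) : S.H →ₗᵢ[ℝ] S.H where
  toLinearMap := (S.TL t).toLinearMap
  norm_map' x := by
    show ‖S.TL t x‖ = ‖x‖
    refine S.toH_dense.induction_on x ?_ ?_
    · exact isClosed_eq (S.TL t).continuous.norm continuous_norm
    · intro F
      rw [TL_toH, LinearIsometry.norm_map, LinearIsometry.norm_map, LinearIsometry.norm_map]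

lemma T_toH (S : MeanSys) (t : ℤ) (F : S.BF) : S.T t (S.toH F) = S.toH (S.shI t F) :=
  S.TL_toH t F

lemma T_iota {S : MeanSys} (t : ℤ) {F : ℤ → ℝ} (hF : Bdd F) :
    S.T t (S.iota F) = S.iota (fun n => F (n + t)) := by
  rw [iota_eq hF, iota_eq (H42.bdd_shift t hF), T_toH]
  rfl

lemma T_zero {S : MeanSys} (x : S.H) : S.T 0 x = x := by
  refine S.toH_dense.induction_on x ?_ ?_
  · exact isClosed_eq (S.T 0).continuous continuous_id
  · intro F
    rw [T_toH]
    congr 1
    exact ext_fn fun n => congrArg (fn F) (add_zero n)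

lemma T_add {S : MeanSys} (s t : ℤ) (x : S.H) : S.T (s + t) x = S.T s (S.T t x) := by
  refine S.toH_dense.induction_on x ?_ ?_
  · exact isClosed_eq (S.T (s + t)).continuous ((S.T s).continuous.comp (S.T t).continuous)
  · intro F
    rw [T_toH, T_toH, T_toH]
    congr 1
    exact ext_fn fun n => congrArg (fn F) (show n + (s + t) = n + s + t by ring)

lemma T_neg_apply {S : MeanSys} (t : ℤ) (x : S.H) : S.T (-t) (S.T t x) = x := by
  rw [← T_add, neg_add_cancel, T_zero]

lemma T_apply_neg {S : MeanSys} (t : ℤ) (x : S.H) : S.T t (S.T (-t) x) = x := by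
  rw [← T_add, add_neg_cancel, T_zero]

lemma inner_T {S : MeanSys} (t : ℤ) (x y : S.H) : inner ℝ (S.T t x) (S.T t y) = inner ℝ x y :=
  (S.T t).inner_map_map x y

lemma T_adj {S : MeanSys} (t : ℤ) (x y : S.H) :
    inner ℝ (S.T t x) y = inner ℝ x (S.T (-t) y) := by
  rw [← inner_T (-t) (S.T t x) y, T_neg_apply]

lemma T_adj' {S : MeanSys} (t : ℤ) (x y : S.H) :
    inner ℝ x (S.T t y) = inner ℝ (S.T (-t) x) y := by
  rw [← inner_T (-t) x (S.T t y), T_neg_apply]

lemma norm_T {S : MeanSys} (t : ℤ) (x : S.H) : ‖S.T t x‖ = ‖x‖ := (S.T t).norm_map x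

/-- distance of two shifts depends on the difference -/
lemma norm_T_sub_T {S : MeanSys} (s t : ℤ) (x : S.H) :
    ‖S.T s x - S.T t x‖ = ‖S.T (s - t) x - x‖ := by
  have h : S.T s x - S.T t x = S.T t (S.T (s - t) x - x) := by
    rw [map_sub, ← T_add, add_sub_cancel]
  rw [h, norm_T]

end MeanSys

end Pool.Agent.FinA
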