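import Pool.Agent.Lib.MP_60922f_co.FIN.M1_55

set_option autoImplicit false

/-!
The mean of `M1_55` sees only sets of positive upper logarithmic density.
-/

namespace Pool.Agent.FinA

open Filter Topology Finset
open Pool.Agent.FIN

open Classical in
/-- `Y` has positive upper logarithmic density: for some `δ > 0` there are arbitrarily large `N` with
`∑ 1 / n ≥ δ log N`, the sum over the elements `n ≤ N` of `Y`. -/
def PosULD (Y : Set ℕ) : Prop :=
  ∃ δ : ℝ, 0 < δ ∧ ∀ N₀ : ℕ, ∃ N : ℕ, N₀ ≤ N ∧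
    δ * Real.log N ≤ ∑ n ∈ (Finset.Icc 1 N).filter (fun n => n ∈ Y), (1 : ℝ) / n

lemma log_a55 (i : ℕ) : Real.log (Win.a i) = (i.factorial : ℝ) * Real.log 2 := by
  unfold Win.a
  push_cast
  rw [Real.log_pow]

lemma S_ge55 (k : ℕ) (hk : 1 ≤ k) : (1 / 4) * Real.log (Win.a (k + 2)) ≤ Win.S (k + 1) := by
  refine le_trans ?_ (Win.S_ge (k + 1))
  rw [log_a55, ← mul_assoc]
  apply mul_le_mul_of_nonneg_right _ (Real.log_nonneg (by norm_num))
  have h1 : ((k + 2).factorial : ℝ) = ((k : ℝ) + 2) * ((k + 1).factorial : ℝ) := by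
    rw [Nat.factorial_succ (k + 1)]; push_cast; ring
  have h2 : (1 : ℝ) ≤ ((k + 1).factorial : ℝ) := by
    exact_mod_cast Nat.factorial_pos (k + 1)
  have hk' : (1 : ℝ) ≤ (k : ℝ) := by exact_mod_cast hk
  rw [h1]
  push_cast
  nlinarith

theorem posULD_of_mu (Y : Set ℕ) (hY : 0 < mu meanSys55 Y) : PosULD Y := by
  classical
  set F : ℤ → ℝ := ind {n | 0 < n ∧ n.toNat ∈ Y} with hF
  have hB : Bdd F := ⟨1, fun n => by rw [hF]; unfold ind; split <;> norm_num⟩
  have hF1 : ∀ n, F n ≤ 1 := fun n => by rw [hF]; unfold ind; split <;> norm_num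
  have hlim := meanSys55.m_lim F hB
  have hpos : 0 < meanSys55.m F := hY
  refine ⟨meanSys55.m F / 2 * (1 / 4), by positivity, fun N₀ => ?_⟩
  have e1 : ∀ᶠ k in (meanSys55.U : Filter ℕ), meanSys55.m F / 2 <
      ∑ n ∈ meanSys55.blk k, meanSys55.wt k n * F n :=
    hlim.eventually_const_lt (by linarith)
  have e2 : ∀ᶠ k in (meanSys55.U : Filter ℕ), max 1 N₀ ≤ k :=
    meanSys55.free (eventually_ge_atTop _)
  obtain ⟨k, hk1, hk2⟩ := (e1.and e2).exists
  refine ⟨Win.a (k + 2), ?_, ?_⟩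
  · have := Win.le_a (k + 2)
    have := le_max_right 1 N₀
    omega
  · have h3 : ∑ n ∈ meanSys55.blk k, meanSys55.wt k n * F n = Win.EZ (k + 1) F := sum_blk55 k F
    rw [h3] at hk1
    unfold Win.EZ Win.E at hk1
    have hS := S_pos55 k
    rw [lt_div_iff₀ hS] at hk1
    have h4 : (1 / 4) * Real.log (Win.a (k + 2)) ≤ Win.S (k + 1) :=
      S_ge55 k ((le_max_left 1 N₀).trans hk2)
    have h5 : ∑ n ∈ Win.W (k + 1), F (n : ℤ) / n ≤
        ∑ n ∈ (Finset.Icc 1 (Win.a (k + 2))).filter (fun n => n ∈ Y), (1 : ℝ) / n := by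
      have h6 : ∑ n ∈ Win.W (k + 1), F (n : ℤ) / n =
          ∑ n ∈ (Win.W (k + 1)).filter (fun n => n ∈ Y), (1 : ℝ) / n := by
        rw [Finset.sum_filter]
        refine Finset.sum_congr rfl fun n hn => ?_
        rw [Win.W, Finset.mem_Ioc] at hn
        have hn0 : (0 : ℤ) < (n : ℤ) := by
          have := (Nat.zero_le _).trans_lt hn.1
          exact_mod_cast this
        by_cases h : n ∈ Y
        · rw [if_pos h, hF]
          unfold ind
          rw [if_pos]
          exact ⟨hn0, by simpa using h⟩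
        · rw [if_neg h, hF]
          unfold ind
          rw [if_neg, zero_div]
          rintro ⟨_, h'⟩
          exact h (by simpa using h')
      rw [h6]
      apply Finset.sum_le_sum_of_subset_of_nonneg
      · intro n hn
        rw [Finset.mem_filter] at hn ⊢
        refine ⟨?_, hn.2⟩
        have h7 := hn.1
        rw [Win.W, Finset.mem_Ioc] at h7
        rw [Finset.mem_Icc]
        exact ⟨(Nat.zero_le _).trans_lt h7.1, h7.2⟩
      · intro n _ _
        positivity
    calc meanSys55.m F / 2 * (1 / 4) * Real.log (Win.a (k + 2))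
        = meanSys55.m F / 2 * (1 / 4 * Real.log (Win.a (k + 2))) := by ring
      _ ≤ meanSys55.m F / 2 * Win.S (k + 1) :=
          mul_le_mul_of_nonneg_left h4 (by positivity)
      _ ≤ _ := hk1.le.trans h5

/-- M1 in the form needed for the final statement -/
theorem exists_meanSys_posULD : ∃ S : MeanSys, ∀ Y : Set ℕ, 0 < mu S Y → PosULD Y :=
  ⟨meanSys55, posULD_of_mu⟩

end Pool.Agent.FinA
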