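import Pool.Agent.Lib.MP_60922f_co.FIN.Calc55
import Pool.Agent.Lib.MP_60922f_co.FIN.PN24

/-! M10: almost everywhere positivity, from M5 and M9. -/

set_option autoImplicit false

open Filter Topology

namespace Pool.Agent.FinA

lemma U01.zero : U01 (fun _ => (0 : ℝ)) := fun _ => ⟨le_refl _, zero_le_one⟩

lemma EA_U01 (S : MeanSys) (u v : ℕ) (Y Y' : Set ℤ) (k : ℕ) : U01 (EA S u v Y Y' k) :=
  fun _ => ⟨(S.nu_pf k).ind_nonneg' _, (S.nu_pf k).ind_le_one' _⟩

lemma ER_U01 (S : MeanSys) (A B : Set ℤ) (u v : ℕ) (k : ℕ) : U01 (ER S A B u v k) :=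
  EA_U01 S u v _ _ k

/-- one summand of the correlation -/
lemma m_EA_term (S : MeanSys) {u v : ℕ} (hu : 0 < u) (Y Y' : Set ℤ) {b : ℤ → ℝ} (hb : U01 b)
    (n : ℤ) :
    S.m (fun z => ind {n | n ∈ Y ∧ ∃ w ∈ Y', z = v * n + u * w} n * b z)
      = (ind Y n * S.m (fun w => ind Y' w * b (v * n + u * w))) / u := by
  have hu' : (u : ℤ) ≠ 0 := by exact_mod_cast hu.ne'
  set W : Set ℤ := {x | ∃ w ∈ Y', x = u * w} with hW
  have hbb : Bdd b := hb.bdd
  have e1 : ∀ z, ind {n | n ∈ Y ∧ ∃ w ∈ Y', z = v * n + u * w} n * b z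
      = ind Y n * (ind W (z - v * n) * b z) := by
    intro z
    by_cases hY : n ∈ Y
    · by_cases hw : ∃ w ∈ Y', z = v * n + u * w
      · have h2 : z - v * n ∈ W := by
          obtain ⟨w, hw1, hw2⟩ := hw
          exact ⟨w, hw1, by rw [hw2]; ring⟩
        rw [ind_of_mem (show n ∈ {n | n ∈ Y ∧ ∃ w ∈ Y', z = v * n + u * w} from ⟨hY, hw⟩),
          ind_of_mem hY, ind_of_mem h2]
        ring
      · have h2 : z - v * n ∉ W := by
          rintro ⟨w, hw1, hw2⟩
          exact hw ⟨w, hw1, by linarith⟩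
        rw [ind_of_notMem (show n ∉ {n | n ∈ Y ∧ ∃ w ∈ Y', z = v * n + u * w} from
          fun h => hw h.2), ind_of_notMem h2]
        ring
    · rw [ind_of_notMem (show n ∉ {n | n ∈ Y ∧ ∃ w ∈ Y', z = v * n + u * w} from
          fun h => hY h.1), ind_of_notMem hY]
      ring
  have e2 : S.m (fun z => ind W (z - v * n) * b z) = S.m (fun z => ind W z * b (z + v * n)) := by
    have hF : Bdd (fun z => ind W (z - v * n) * b z) :=
      ((ind_bdd W).comp (fun z => z - v * n)).mul hbb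
    rw [← S.m_shift (v * n) hF]
    refine S.pf.congr fun z => ?_
    simp
  have e3 : S.m (fun z => ind W z * b (z + v * n))
      = S.m (fun w => ind Y' w * b (v * n + u * w)) / u := by
    have hF : Bdd (fun z => ind W z * b (z + v * n)) :=
      (ind_bdd W).mul (hbb.comp (fun z => z + v * n))
    have e4 : S.m (fun z => ind W z * b (z + v * n))
        = S.m (fun z => ind (cls 0 u) z * (ind W z * b (z + v * n))) := by
      refine S.pf.congr fun z => ?_
      by_cases hz : z ∈ W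
      · have : z ∈ cls 0 u := by
          obtain ⟨w, -, hw⟩ := hz
          show (u : ℤ) ∣ z - 0
          exact ⟨w, by rw [sub_zero]; exact hw⟩
        rw [ind_of_mem this]; ring
      · rw [ind_of_notMem hz]; ring
    rw [e4, S.m_dil_ind hu hF]
    congr 1
    refine S.pf.congr fun w => ?_
    have e5 : ind W (u * w) = ind Y' w := by
      by_cases hw : w ∈ Y'
      · rw [ind_of_mem hw, ind_of_mem (show (u : ℤ) * w ∈ W from ⟨w, hw, rfl⟩)]
      · rw [ind_of_notMem hw, ind_of_notMem]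
        rintro ⟨w', hw', he⟩
        have : w = w' := mul_left_cancel₀ hu' he
        exact hw (this ▸ hw')
    rw [e5, add_comm]
  rw [S.pf.congr e1, S.pf.smul _ (((ind_bdd W).comp (fun z => z - v * n)).mul hbb), e2, e3]
  ring

lemma ind_Yset (A B : Set ℤ) (u v : ℕ) (n : ℤ) :
    ind (Yset A B u v) n = ind A (v * n) * ind B (u * n) := by
  by_cases h1 : (v : ℤ) * n ∈ A <;> by_cases h2 : (u : ℤ) * n ∈ B
  · rw [ind_of_mem (show n ∈ Yset A B u v from ⟨h1, h2⟩), ind_of_mem h1, ind_of_mem h2]; ring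
  · rw [ind_of_notMem (show n ∉ Yset A B u v from fun h => h2 h.2), ind_of_notMem h2]; ring
  · rw [ind_of_notMem (show n ∉ Yset A B u v from fun h => h1 h.1), ind_of_notMem h1]; ring
  · rw [ind_of_notMem (show n ∉ Yset A B u v from fun h => h1 h.1), ind_of_notMem h1]; ring

/-- the mean of `ER_k * b` is a finite average -/
lemma m_ER_mul (S : MeanSys) {u v : ℕ} (hu : 0 < u) (A B : Set ℤ) {b : ℤ → ℝ} (hb : U01 b)
    (k : ℕ) :
    S.m (fun z => ER S A B u v k z * b z) = S.nu k (fun n =>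
      (ind (Yset A B u v) n * S.m (fun w => ind (Yset A B v u) w * b (v * n + u * w))) / u) := by
  have hbb : Bdd b := hb.bdd
  have e1 : ∀ z, ER S A B u v k z * b z = ∑ n ∈ S.blk k, S.wt k n *
      (ind {n | n ∈ Yset A B u v ∧ ∃ w ∈ Yset A B v u, z = v * n + u * w} n * b z) := by
    intro z
    simp only [ER, EA, MeanSys.nu, Finset.sum_mul]
    exact Finset.sum_congr rfl fun n _ => by ring
  have hbd : ∀ n : ℤ, Bdd (fun z => ind {n | n ∈ Yset A B u v ∧ ∃ w ∈ Yset A B v u,
      z = v * n + u * w} n * b z) := by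
    intro n
    refine ⟨1, fun z => ?_⟩
    rw [abs_mul]
    have h1 : |ind {n | n ∈ Yset A B u v ∧ ∃ w ∈ Yset A B v u, z = v * n + u * w} n| ≤ 1 :=
      (ind_U01 _).abs_le_one n
    have h2 : |b z| ≤ 1 := hb.abs_le_one z
    calc _ ≤ (1 : ℝ) * 1 := mul_le_mul h1 h2 (abs_nonneg _) zero_le_one
      _ = 1 := one_mul 1
  rw [S.pf.congr e1, S.pf.sum _ _ (fun n _ => (hbd n).smul _)]
  unfold MeanSys.nu
  refine Finset.sum_congr rfl fun n _ => ?_
  rw [S.pf.smul _ (hbd n), m_EA_term S hu _ _ hb n]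

lemma inner_bdd (S : MeanSys) (u v : ℕ) (Y Y' : Set ℤ) {b : ℤ → ℝ} (hb : U01 b) :
    Bdd (fun n => (ind Y n * S.m (fun w => ind Y' w * b (v * n + u * w))) / u) := by
  refine Bdd.div_const ?_ _
  refine (ind_bdd Y).mul ⟨1, fun n => ?_⟩
  refine S.pf.abs_le fun w => ?_
  rw [abs_mul]
  have h1 : |ind Y' w| ≤ 1 := (ind_U01 _).abs_le_one w
  have h2 : |b (v * n + u * w)| ≤ 1 := hb.abs_le_one _
  calc _ ≤ (1 : ℝ) * 1 := mul_le_mul h1 h2 (abs_nonneg _) zero_le_one
    _ = 1 := one_mul 1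

/-- the four-fold correlation is the mean of the density of representations against `b` -/
theorem cor_eq (S : MeanSys) {u v : ℕ} (hu : 0 < u) (A B : Set ℤ) {K b : ℤ → ℝ} (hK : U01 K)
    (hb : U01 b)
    (hlim : Tendsto (fun k => S.m (fun z => (ER S A B u v k z - K z) ^ 2)) S.U (𝓝 0)) :
    Cor S A B u v b = u * S.m (fun z => K z * b z) := by
  have hu' : (u : ℝ) ≠ 0 := by exact_mod_cast hu.ne'
  have hbb : Bdd b := hb.bdd
  have hKb : Bdd K := hK.bdd
  -- limit 1
  have h1 : Tendsto (fun k => S.m (fun z => ER S A B u v k z * b z)) S.U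
      (𝓝 (S.m (fun n => (ind (Yset A B u v) n *
        S.m (fun w => ind (Yset A B v u) w * b (v * n + u * w))) / u))) := by
    refine (S.tendsto_nu (inner_bdd S u v _ _ hb)).congr fun k => ?_
    exact (m_ER_mul S hu A B hb k).symm
  -- limit 2
  have h2 : Tendsto (fun k => S.m (fun z => ER S A B u v k z * b z)) S.U
      (𝓝 (S.m (fun z => K z * b z))) := by
    have h3 : Tendsto (fun k => Real.sqrt (S.m (fun z => (ER S A B u v k z - K z) ^ 2))) S.U
        (𝓝 0) := by
      have := (Real.continuous_sqrt.tendsto 0).comp hlim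
      rwa [Real.sqrt_zero] at this
    rw [tendsto_iff_dist_tendsto_zero]
    refine squeeze_zero (fun _ => dist_nonneg) (fun k => ?_) h3
    have hE : Bdd (ER S A B u v k) := (ER_U01 S A B u v k).bdd
    rw [Real.dist_eq]
    have h4 : |S.m (fun z => ER S A B u v k z * b z) - S.m (fun z => K z * b z)|
        ≤ S.m (fun z => |ER S A B u v k z * b z - K z * b z|) :=
      S.pf.abs_sub_le (hE.mul hbb) (hKb.mul hbb)
    have h5 : S.m (fun z => |ER S A B u v k z * b z - K z * b z|)
        ≤ S.m (fun z => |ER S A B u v k z - K z|) := by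
      refine S.pf.mono ((hE.mul hbb).sub (hKb.mul hbb)).abs (hE.sub hKb).abs fun z => ?_
      rw [← sub_mul, abs_mul]
      exact mul_le_of_le_one_right (abs_nonneg _) (hb.abs_le_one z)
    exact h4.trans (h5.trans (S.pf.abs_le_sqrt (hE.sub hKb)))
  have h3 := tendsto_nhds_unique h1 h2
  rw [← h3]
  unfold Cor
  have e : ∀ n : ℤ, S.m (fun w => ind A (v * n) * ind B (u * n) * (ind A (u * w) * ind B (v * w))
      * b (v * n + u * w)) = u * ((ind (Yset A B u v) n *
        S.m (fun w => ind (Yset A B v u) w * b (v * n + u * w))) / u) := by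
    intro n
    have hb' : Bdd (fun w => ind (Yset A B v u) w * b (v * n + u * w)) :=
      (ind_bdd _).mul (hbb.comp _)
    rw [← S.pf.smul _ hb']
    field_simp
    refine S.pf.congr fun w => ?_
    rw [ind_Yset, ind_Yset]
    ring
  rw [S.pf.congr e, S.pf.smul _ (inner_bdd S u v _ _ hb)]

/-- data of one pair of cells and one pair of multipliers -/
lemma exK (S : MeanSys) (h5 : M5 S) (A B : Set ℤ) (p : ℕ × ℕ) :
    ∃ K N : ℤ → ℝ, PN N ∧ U01 K ∧
      (0 < p.1 → 0 < p.2 →
        Tendsto (fun k => S.m (fun z => (ER S A B p.1 p.2 k z - K z) ^ 2)) S.U (𝓝 0)) ∧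
      ∀ (c : ℤ) (Q : ℕ), 0 < Q → ∀ t : ℤ,
        S.m (fun z => ind (cls c Q) z * |K (z + t) - K z|) ≤ N t / Q := by
  by_cases hp : 0 < p.1 ∧ 0 < p.2
  · obtain ⟨K, N, hN, hK, hT, hL⟩ := h5 p.1 p.2 hp.1 hp.2 (Yset A B p.1 p.2) (Yset A B p.2 p.1)
    exact ⟨K, N, hN, hK, fun _ _ => hT, hL⟩
  · refine ⟨fun _ => 0, fun _ => 0, PN.const_zero, U01.zero, fun h1 h2 => absurd ⟨h1, h2⟩ hp,
      fun c Q hQ t => ?_⟩
    have h0 : S.m (fun z => ind (cls c Q) z * |(0 : ℝ) - 0|) = 0 := by
      rw [S.pf.congr (G := fun _ => (0 : ℝ)) (fun z => by simp)]; exact S.pf.zero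
    rw [h0]; simp

/-- `1_even (1 - T / c)^+` -/
noncomputable def bfun (T : ℤ → ℝ) (c : ℝ) (z : ℤ) : ℝ :=
  if Even z then max 0 (1 - T z / c) else 0

lemma bfun_U01 {T : ℤ → ℝ} (hT : ∀ z, 0 ≤ T z) {c : ℝ} (hc : 0 < c) : U01 (bfun T c) := by
  intro z
  unfold bfun
  split_ifs
  · refine ⟨le_max_left _ _, max_le zero_le_one ?_⟩
    have := div_nonneg (hT z) hc.le
    linarith
  · exact ⟨le_refl _, zero_le_one⟩

lemma bfun_odd (T : ℤ → ℝ) (c : ℝ) {z : ℤ} (hz : ¬ Even z) : bfun T c z = 0 := by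
  unfold bfun; rw [if_neg hz]

lemma bfun_anti {T T' : ℤ → ℝ} {c c' : ℝ} (hT : ∀ z, 0 ≤ T z) (hTT : ∀ z, T z ≤ T' z)
    (hc' : 0 < c') (hcc : c' ≤ c) (z : ℤ) : bfun T' c' z ≤ bfun T c z := by
  unfold bfun
  split_ifs
  · refine max_le_max (le_refl _) ?_
    have h1 : T z / c ≤ T' z / c' :=
      div_le_div₀ ((hT z).trans (hTT z)) (hTT z) hc' hcc
    linarith
  · exact le_refl _

lemma bfun_lip {T : ℤ → ℝ} (hT : ∀ z, 0 ≤ T z) {c : ℝ} (hc : 0 < c) (z t : ℤ) :
    |bfun T c (z + t) - bfun T c z| ≤ (if Even t then 0 else 1) + (1 / c) * |T (z + t) - T z| := by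
  by_cases ht : Even t
  · rw [if_pos ht, zero_add]
    by_cases hz : Even z
    · have hzt : Even (z + t) := hz.add ht
      unfold bfun
      rw [if_pos hz, if_pos hzt]
      have h1 : |max 0 (1 - T (z + t) / c) - max 0 (1 - T z / c)|
          ≤ |(1 - T (z + t) / c) - (1 - T z / c)| := by
        rw [max_comm 0, max_comm 0]
        exact abs_max_sub_max_le_abs _ _ _
      refine h1.trans (le_of_eq ?_)
      have h2 : (1 - T (z + t) / c) - (1 - T z / c) = -((1 / c) * (T (z + t) - T z)) := by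
        field_simp
        ring
      rw [h2, abs_neg, abs_mul, abs_of_pos (by positivity : 0 < 1 / c)]
    · have hzt : ¬ Even (z + t) := by
        rw [Int.even_add]; tauto
      rw [bfun_odd T c hz, bfun_odd T c hzt, sub_self, abs_zero]
      positivity
  · rw [if_neg ht]
    have h1 := bfun_U01 hT hc (z + t)
    have h2 := bfun_U01 hT hc z
    have h3 : |bfun T c (z + t) - bfun T c z| ≤ 1 := by
      rw [abs_le]; constructor <;> linarith [h1.1, h1.2, h2.1, h2.2]
    have h4 : 0 ≤ (1 / c) * |T (z + t) - T z| := by positivity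
    linarith

/-- almost periodicity on classes -/
lemma class_lip (S : MeanSys) {ι : Type*} (s : Finset ι) (K NN : ι → ℤ → ℝ)
    (hK : ∀ x, U01 (K x))
    (hL : ∀ x, ∀ (c : ℤ) (Q : ℕ), 0 < Q → ∀ t : ℤ,
      S.m (fun z => ind (cls c Q) z * |K x (z + t) - K x z|) ≤ NN x t / Q)
    {c : ℝ} (hc : 0 < c) (a : ℤ) (Q : ℕ) (hQ : 0 < Q) (t : ℤ) :
    S.m (fun z => ind (cls a Q) z * |bfun (fun z => ∑ x ∈ s, K x z) c (z + t)
      - bfun (fun z => ∑ x ∈ s, K x z) c z|)
      ≤ ((if Even t then 0 else 1) + (1 / c) * ∑ x ∈ s, NN x t) / Q := by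
  classical
  set T : ℤ → ℝ := fun z => ∑ x ∈ s, K x z with hT
  have hT0 : ∀ z, 0 ≤ T z := fun z => Finset.sum_nonneg fun x _ => (hK x z).1
  have hbU := bfun_U01 hT0 hc
  have hKb : ∀ x, Bdd (fun z => ind (cls a Q) z * |K x (z + t) - K x z|) := fun x =>
    (ind_bdd _).mul (((hK x).bdd.comp (fun z => z + t)).sub (hK x).bdd).abs
  have hb1 : Bdd (fun z => ind (cls a Q) z * |bfun T c (z + t) - bfun T c z|) :=
    (ind_bdd _).mul ((hbU.bdd.comp (fun z => z + t)).sub hbU.bdd).abs
  have hb2 : Bdd (fun z => (if Even t then 0 else 1) * ind (cls a Q) z) := (ind_bdd _).smul _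
  have hb3 : Bdd (fun z => ∑ x ∈ s, ind (cls a Q) z * |K x (z + t) - K x z|) :=
    Bdd.sum s _ fun x _ => hKb x
  have hpt : ∀ z, ind (cls a Q) z * |bfun T c (z + t) - bfun T c z|
      ≤ (if Even t then 0 else 1) * ind (cls a Q) z
        + (1 / c) * ∑ x ∈ s, ind (cls a Q) z * |K x (z + t) - K x z| := by
    intro z
    have h1 := bfun_lip hT0 hc z t
    have h2 : |T (z + t) - T z| ≤ ∑ x ∈ s, |K x (z + t) - K x z| := by
      rw [hT]; simp only
      rw [← Finset.sum_sub_distrib]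
      exact Finset.abs_sum_le_sum_abs _ _
    have h3 : (1 / c) * |T (z + t) - T z| ≤ (1 / c) * ∑ x ∈ s, |K x (z + t) - K x z| :=
      mul_le_mul_of_nonneg_left h2 (by positivity)
    rw [← Finset.mul_sum]
    have h4 := mul_le_mul_of_nonneg_left (h1.trans (add_le_add (le_refl _) h3))
      (ind_nonneg (cls a Q) z)
    refine h4.trans (le_of_eq ?_)
    ring
  refine (S.pf.mono hb1 (hb2.add (hb3.smul _)) hpt).trans ?_
  rw [S.pf.add hb2 (hb3.smul _), S.pf.smul _ (ind_bdd _), S.pf.smul _ hb3,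
    S.pf.sum _ _ (fun x _ => hKb x), S.m_cls a hQ, add_div, mul_one_div]
  refine add_le_add (le_refl _) ?_
  rw [mul_div_assoc]
  refine mul_le_mul_of_nonneg_left ?_ (by positivity)
  rw [Finset.sum_div]
  exact Finset.sum_le_sum fun x _ => hL x a Q hQ t

theorem m10 (S : MeanSys) (h5 : M5 S) (h9 : M9 S) : M10 S := by
  classical
  intro J A hdisj ε hε hA
  have hex := fun x : (ℕ × ℕ) × (Fin J × Fin J) => exK S h5 (A x.2.1) (A x.2.2) x.1
  choose K NN hPN hU hlim hL using hex
  set idx : Finset (ℕ × ℕ) → Finset ((ℕ × ℕ) × (Fin J × Fin J)) :=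
    fun P => P ×ˢ Finset.univ with hidx
  set T : Finset (ℕ × ℕ) → ℤ → ℝ := fun P z => ∑ x ∈ idx P, K x z with hTdef
  set B : Finset (ℕ × ℕ) → ℝ → ℤ → ℝ := fun P c => bfun (T P) c with hBdef
  set NB : Finset (ℕ × ℕ) → ℝ → ℤ → ℝ :=
    fun P c t => (if Even t then 0 else 1) + (1 / c) * ∑ x ∈ idx P, NN x t with hNBdef
  have hT0 : ∀ P z, 0 ≤ T P z := fun P z => Finset.sum_nonneg fun x _ => (hU x z).1
  have hBU : ∀ P c, 0 < c → U01 (B P c) := fun P c hc => bfun_U01 (hT0 P) hc
  have hNB : ∀ P c, 0 < c → PN (NB P c) := fun P c hc =>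
    PN.sum2 (PN.parity zero_le_one)
      (PN.smul (PN.sum (idx P) fun x _ => hPN x) (by positivity))
  have hcls : ∀ P c, 0 < c → ∀ (a : ℤ) (Q : ℕ), 0 < Q → ∀ t : ℤ,
      S.m (fun z => ind (cls a Q) z * |B P c (z + t) - B P c z|) ≤ NB P c t / Q :=
    fun P c hc a Q hQ t => class_lip S (idx P) K NN hU hL hc a Q hQ t
  have hglob : ∀ P c, 0 < c → ∀ t : ℤ,
      S.m (fun z => |B P c (z + t) - B P c z|) ≤ NB P c t := by
    intro P c hc t
    have h1 := hcls P c hc 0 1 one_pos t
    have h2 : S.m (fun z => |B P c (z + t) - B P c z|)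
        = S.m (fun z => ind (cls 0 1) z * |B P c (z + t) - B P c z|) := by
      refine S.pf.congr fun z => ?_
      rw [ind_of_mem (show z ∈ cls 0 1 from by show ((1 : ℕ) : ℤ) ∣ z - 0; simp), one_mul]
    rw [h2]
    simpa using h1
  -- the key point: some list is good
  have key : ∃ (P : Finset (ℕ × ℕ)) (c : ℝ), (∀ p ∈ P, 0 < p.1 ∧ p.1 < p.2) ∧ 0 < c ∧
      S.m (B P c) ≤ ε := by
    by_contra hcon
    push Not at hcon
    obtain ⟨κ, hκ, h9'⟩ := h9 J A hdisj ε hε hA
    set V : Set ℝ := {x | ∃ (P : Finset (ℕ × ℕ)) (c : ℝ), (∀ p ∈ P, 0 < p.1 ∧ p.1 < p.2) ∧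
      0 < c ∧ x = S.m (B P c)} with hV
    have hVne : V.Nonempty := ⟨_, ∅, 1, by simp, one_pos, rfl⟩
    have hVb : BddBelow V := by
      refine ⟨0, ?_⟩
      rintro x ⟨P, c, -, hc, rfl⟩
      exact S.pf.nonneg (hBU P c hc).bdd fun z => (hBU P c hc z).1
    obtain ⟨x, hxV, hlt⟩ := exists_lt_of_csInf_lt hVne
      (lt_add_of_pos_right (sInf V) (half_pos hκ))
    obtain ⟨P, c, hP, hc, rfl⟩ := hxV
    obtain ⟨c', hc', u, v, hu, hv, huv, h9''⟩ := h9' (NB P c) (hNB P c hc)
    have hu0 : 0 < u := hu.pos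
    have hu0' : (0 : ℝ) < u := by exact_mod_cast hu0
    set P' : Finset (ℕ × ℕ) := insert (u, v) P with hP'
    set c'' : ℝ := min c (c' / (2 * u)) with hc''
    have hc''0 : 0 < c'' := lt_min hc (by positivity)
    have hPP : idx P ⊆ idx P' := Finset.product_subset_product_left (Finset.subset_insert _ _)
    have hTT : ∀ z, T P z ≤ T P' z := fun z =>
      Finset.sum_le_sum_of_subset_of_nonneg hPP fun x _ _ => (hU x z).1
    have hle : ∀ z, B P' c'' z ≤ B P c z :=
      bfun_anti (hT0 P) hTT hc''0 (min_le_left _ _)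
    have hP'v : ∀ p ∈ P', 0 < p.1 ∧ p.1 < p.2 := by
      intro p hp
      rcases Finset.mem_insert.mp hp with h | h
      · rw [h]; exact ⟨hu0, huv⟩
      · exact hP p h
    have hin : S.m (B P' c'') ∈ V := ⟨P', c'', hP'v, hc''0, rfl⟩
    have hbU := hBU P c hc
    have hb'U := hBU P' c'' hc''0
    have hbb := hbU.bdd
    have hb'b := hb'U.bdd
    have hdiff : S.m (B P c) - S.m (B P' c'') ≤ κ / 2 := by
      have := csInf_le hVb hin
      linarith
    have hreg : ∀ t, S.m (fun n => |B P' c'' (n + t) - B P' c'' n|) ≤ NB P c t + κ := by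
      intro t
      have h1 : ∀ n, |B P' c'' (n + t) - B P' c'' n| ≤ |B P c (n + t) - B P c n|
          + ((B P c (n + t) - B P' c'' (n + t)) + (B P c n - B P' c'' n)) := by
        intro n
        have e : B P' c'' (n + t) - B P' c'' n = (B P c (n + t) - B P c n)
          + (-(B P c (n + t) - B P' c'' (n + t)) + (B P c n - B P' c'' n)) := by ring
        rw [e]
        refine (abs_add_le _ _).trans (add_le_add (le_refl _) ?_)
        have h2 := hle (n + t)
        have h3 := hle n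
        rw [abs_le]
        constructor <;> linarith
      have hs1 : Bdd (fun n => |B P c (n + t) - B P c n|) :=
        ((hbb.comp (fun n => n + t)).sub hbb).abs
      have hs2 : Bdd (fun n => B P c (n + t) - B P' c'' (n + t)) :=
        (hbb.comp (fun n => n + t)).sub (hb'b.comp (fun n => n + t))
      have hs3 : Bdd (fun n => B P c n - B P' c'' n) := hbb.sub hb'b
      have hs4 : Bdd (fun n => |B P' c'' (n + t) - B P' c'' n|) :=
        ((hb'b.comp (fun n => n + t)).sub hb'b).abs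
      have h2 := S.pf.mono hs4 (hs1.add (hs2.add hs3)) h1
      rw [S.pf.add hs1 (hs2.add hs3), S.pf.add hs2 hs3] at h2
      have h3 : S.m (fun n => B P c (n + t) - B P' c'' (n + t))
          = S.m (fun n => B P c n - B P' c'' n) := S.m_shift t hs3
      have h4 : S.m (fun n => B P c n - B P' c'' n) = S.m (B P c) - S.m (B P' c'') :=
        S.pf.sub hbb hb'b
      rw [h3, h4] at h2
      have h5 := hglob P c hc t
      linarith
    have h10 := h9'' (B P' c'') hb'U (fun n hn => bfun_odd _ _ hn) (hcon P' c'' hP'v hc''0).le hreg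
    -- the new pairs see nothing of the support of `b'`
    have hcor : ∀ i j, Cor S (A i) (A j) u v (B P' c'')
        = u * S.m (fun z => K ((u, v), (i, j)) z * B P' c'' z) := by
      intro i j
      exact cor_eq S hu0 (A i) (A j) (hU _) hb'U (hlim ((u, v), (i, j)) hu0 (hu0.trans huv))
    have hKbb : ∀ i j, Bdd (fun z => K ((u, v), (i, j)) z * B P' c'' z) := fun i j =>
      (hU _).bdd.mul hb'b
    have hsum : ∑ i, ∑ j, Cor S (A i) (A j) u v (B P' c'')
        = u * S.m (fun z => ∑ i, ∑ j, K ((u, v), (i, j)) z * B P' c'' z) := by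
      rw [S.pf.sum _ _ (fun i _ => Bdd.sum _ _ fun j _ => hKbb i j), Finset.mul_sum]
      refine Finset.sum_congr rfl fun i _ => ?_
      rw [S.pf.sum _ _ (fun j _ => hKbb i j), Finset.mul_sum]
      exact Finset.sum_congr rfl fun j _ => hcor i j
    have hle2 : S.m (fun z => ∑ i, ∑ j, K ((u, v), (i, j)) z * B P' c'' z) ≤ c'' := by
      refine S.pf.le_of_le (Bdd.sum _ _ fun i _ => Bdd.sum _ _ fun j _ => hKbb i j) fun z => ?_
      have e1 : ∑ i, ∑ j, K ((u, v), (i, j)) z * B P' c'' z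
          = (∑ i, ∑ j, K ((u, v), (i, j)) z) * B P' c'' z := by
        rw [Finset.sum_mul]
        exact Finset.sum_congr rfl fun i _ => (Finset.sum_mul _ _ _).symm
      have e2 : ∑ i, ∑ j, K ((u, v), (i, j)) z ≤ T P' z := by
        have h3 : ∑ i, ∑ j, K ((u, v), (i, j)) z = ∑ x ∈ idx {(u, v)}, K x z := by
          rw [hidx]; simp only
          rw [Finset.sum_product]
          simp only [Finset.sum_singleton]
          rw [← Finset.univ_product_univ, Finset.sum_product]
        rw [h3]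
        refine Finset.sum_le_sum_of_subset_of_nonneg ?_ fun x _ _ => (hU x z).1
        refine Finset.product_subset_product_left ?_
        intro p hp
        rw [Finset.mem_singleton] at hp
        rw [hp]; exact Finset.mem_insert_self _ _
      rw [e1]
      have h4 := hb'U z
      by_cases h5 : B P' c'' z ≤ 0
      · have h6 : B P' c'' z = 0 := le_antisymm h5 h4.1
        rw [h6, mul_zero]; exact hc''0.le
      · push Not at h5
        have h6 : T P' z < c'' := by
          by_contra h7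
          push Not at h7
          have h8 : B P' c'' z ≤ 0 := by
            rw [hBdef]; simp only
            unfold bfun
            split_ifs
            · refine max_le (le_refl _) ?_
              have : 1 ≤ T P' z / c'' := by rw [le_div_iff₀ hc''0]; linarith
              linarith
            · exact le_refl _
          exact absurd h8 (not_le.mpr h5)
        have h7 : (∑ i, ∑ j, K ((u, v), (i, j)) z) * B P' c'' z ≤ T P' z * 1 :=
          mul_le_mul e2 h4.2 h4.1 (hT0 P' z)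
        linarith
    rw [hsum] at h10
    have h11 : u * S.m (fun z => ∑ i, ∑ j, K ((u, v), (i, j)) z * B P' c'' z) ≤ u * c'' :=
      mul_le_mul_of_nonneg_left hle2 hu0'.le
    have h12 : (u : ℝ) * c'' ≤ u * (c' / (2 * u)) :=
      mul_le_mul_of_nonneg_left (min_le_right _ _) hu0'.le
    have h13 : (u : ℝ) * (c' / (2 * u)) = c' / 2 := by field_simp
    linarith
  obtain ⟨P, c, hP, hc, hm⟩ := key
  set n0 : ℝ := (idx P).card + 1 with hn0
  have hn0p : 0 < n0 := by positivity
  refine ⟨P, c / (4 * n0), B P c, NB P c, hP, by positivity, hNB P c hc, hBU P c hc, hm,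
    hcls P c hc, fun η hη => ?_⟩
  have hER : ∀ (x : (ℕ × ℕ) × (Fin J × Fin J)) (k : ℕ),
      Bdd (fun z => (ER S (A x.2.1) (A x.2.2) x.1.1 x.1.2 k z - K x z) ^ 2) := fun x k =>
    ((ER_U01 S _ _ _ _ k).bdd.sub (hU x).bdd).sq
  have hlim2 : Tendsto (fun k => ∑ x ∈ idx P,
      S.m (fun z => (ER S (A x.2.1) (A x.2.2) x.1.1 x.1.2 k z - K x z) ^ 2)) S.U (𝓝 0) := by
    have h1 : Tendsto (fun k => ∑ x ∈ idx P,
      S.m (fun z => (ER S (A x.2.1) (A x.2.2) x.1.1 x.1.2 k z - K x z) ^ 2)) S.U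
        (𝓝 (∑ x ∈ idx P, (0 : ℝ))) := by
      refine tendsto_finsetSum _ fun x hx => ?_
      have hxP : x.1 ∈ P := (Finset.mem_product.mp hx).1
      exact hlim x (hP _ hxP).1 ((hP _ hxP).1.trans (hP _ hxP).2)
    simpa using h1
  have hden : 0 < (4 * n0 / c) ^ 2 := by positivity
  have hev : ∀ᶠ k in (S.U : Filter ℕ), ∑ x ∈ idx P,
      S.m (fun z => (ER S (A x.2.1) (A x.2.2) x.1.1 x.1.2 k z - K x z) ^ 2)
        < η / (4 * n0 / c) ^ 2 := hlim2.eventually_lt_const (by positivity)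
  filter_upwards [hev] with k hk
  set Z : Set ℤ := {z | Even z ∧ B P c z < 1 / 2 ∧ ∀ i j, ∀ p ∈ P,
    ER S (A i) (A j) p.1 p.2 k z < c / (4 * n0)} with hZ
  have hpt : ∀ z, ind Z z ≤ (4 * n0 / c) ^ 2 * ∑ x ∈ idx P,
      (ER S (A x.2.1) (A x.2.2) x.1.1 x.1.2 k z - K x z) ^ 2 := by
    intro z
    have hnn : ∀ x ∈ idx P, 0 ≤ (ER S (A x.2.1) (A x.2.2) x.1.1 x.1.2 k z - K x z) ^ 2 :=
      fun x _ => sq_nonneg _
    by_cases hz : z ∈ Z
    · rw [ind_of_mem hz]
      obtain ⟨hev, hb, hsmall⟩ := hz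
      -- some `K` is far from `ER`
      have hfar : ∃ x ∈ idx P,
          c / (4 * n0) ≤ K x z - ER S (A x.2.1) (A x.2.2) x.1.1 x.1.2 k z := by
        by_contra hno
        push Not at hno
        have h1 : T P z ≤ ∑ x ∈ idx P, c / (2 * n0) := by
          refine Finset.sum_le_sum fun x hx => ?_
          have h2 := hno x hx
          have h3 := hsmall x.2.1 x.2.2 x.1 (Finset.mem_product.mp hx).1
          have h4 : c / (2 * n0) = c / (4 * n0) + c / (4 * n0) := by field_simp; ring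
          linarith
        rw [Finset.sum_const, nsmul_eq_mul] at h1
        have h2 : ((idx P).card : ℝ) * (c / (2 * n0)) ≤ c / 2 := by
          have h3 : ((idx P).card : ℝ) ≤ n0 := by rw [hn0]; linarith
          have h4 : ((idx P).card : ℝ) * (c / (2 * n0)) ≤ n0 * (c / (2 * n0)) :=
            mul_le_mul_of_nonneg_right h3 (by positivity)
          have h5 : n0 * (c / (2 * n0)) = c / 2 := by field_simp
          linarith
        have h3 : T P z / c ≤ 1 / 2 := by
          rw [div_le_iff₀ hc]; linarith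
        have h4 : 1 - T P z / c ≤ B P c z := by
          rw [hBdef]; simp only
          unfold bfun
          rw [if_pos hev]
          exact le_max_right _ _
        linarith
      obtain ⟨x, hx, hxf⟩ := hfar
      have h1 : (c / (4 * n0)) ^ 2
          ≤ (ER S (A x.2.1) (A x.2.2) x.1.1 x.1.2 k z - K x z) ^ 2 := by
        have h2 : 0 < c / (4 * n0) := by positivity
        nlinarith [hxf, h2]
      have h2 : (c / (4 * n0)) ^ 2 ≤ ∑ x ∈ idx P,
          (ER S (A x.2.1) (A x.2.2) x.1.1 x.1.2 k z - K x z) ^ 2 :=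
        h1.trans (Finset.single_le_sum hnn hx)
      have h3 := mul_le_mul_of_nonneg_left h2 hden.le
      have h4 : (4 * n0 / c) ^ 2 * (c / (4 * n0)) ^ 2 = 1 := by
        field_simp
      linarith
    · rw [ind_of_notMem hz]
      exact mul_nonneg hden.le (Finset.sum_nonneg hnn)
  have hbs : Bdd (fun z => ∑ x ∈ idx P,
      (ER S (A x.2.1) (A x.2.2) x.1.1 x.1.2 k z - K x z) ^ 2) := Bdd.sum _ _ fun x _ => hER x k
  have h1 := S.pf.mono (ind_bdd Z) (hbs.smul _) hpt
  rw [S.pf.smul _ hbs, S.pf.sum _ _ (fun x _ => hER x k)] at h1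
  refine h1.trans ?_
  have h2 := mul_le_mul_of_nonneg_left hk.le hden.le
  refine h2.trans (le_of_eq ?_)
  field_simp

end Pool.Agent.FinA
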