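import Pool.Agent.Lib.MP_60922f_co.FIN.MeanZ55
import Pool.Agent.Lib.MP_60922f_co.FIN.Stmts43

set_option autoImplicit false

/-! Existence of the mean system (M1). -/

namespace Pool.Agent.FinA

open Filter Topology Finset
open Pool.Agent.FIN (Win.S)
open Pool.Agent.FIN

/-- block `k` : the window `k + 1`, as integers -/
noncomputable def blk55 (k : ℕ) : Finset ℤ := (Win.W (k + 1)).map Nat.castEmbedding

/-- normalised logarithmic weights -/
noncomputable def wt55 (k : ℕ) (n : ℤ) : ℝ := 1 / |(n : ℝ)| / Win.S (k + 1)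

lemma S_pos55 (k : ℕ) : 0 < Win.S (k + 1) := by
  unfold Win.S
  apply Finset.sum_pos
  · intro n hn
    rw [Win.W, Finset.mem_Ioc] at hn
    have : (0 : ℝ) < n := by exact_mod_cast (Nat.zero_le _).trans_lt hn.1
    positivity
  · rw [Win.W, Finset.nonempty_Ioc]
    unfold Win.a
    apply Nat.pow_lt_pow_right (by norm_num)
    rw [Nat.factorial_succ (k + 1)]
    have : 0 < (k + 1).factorial := Nat.factorial_pos _
    nlinarith

lemma sum_blk55 (k : ℕ) (F : ℤ → ℝ) :
    ∑ n ∈ blk55 k, wt55 k n * F n = Win.EZ (k + 1) F := by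
  unfold blk55 Win.EZ Win.E
  rw [Finset.sum_map, Finset.sum_div]
  refine Finset.sum_congr rfl fun n _ => ?_
  simp only [Nat.castEmbedding_apply, wt55, Int.cast_natCast, Nat.abs_cast]
  ring

lemma EZ_abs_le55 {F : ℤ → ℝ} {C : ℝ} (hF : ∀ n, |F n| ≤ C) (i : ℕ) : |Win.EZ i F| ≤ C :=
  Win.E_abs_le (f := fun n : ℕ => F n) (fun n => hF n) i

lemma S_succ_tendsto55 : Tendsto (fun k => Win.S (k + 1)) atTop atTop :=
  Win.S_tendsto.comp (tendsto_add_atTop_nat 1)

/-- the mean system -/
noncomputable def meanSys55 : MeanSys where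
  U := hyperfilter ℕ
  blk := blk55
  wt := wt55
  m := fun F => limUnder ((hyperfilter ℕ : Ultrafilter ℕ) : Filter ℕ)
    (fun k => ∑ n ∈ blk55 k, wt55 k n * F n)
  free := Nat.hyperfilter_le_atTop
  wt_nonneg := fun k n => by
    unfold wt55
    have := (S_pos55 k).le
    positivity
  wt_sum := fun k => by
    have h := sum_blk55 k (fun _ => 1)
    simp only [mul_one] at h
    rw [h]
    unfold Win.EZ Win.E
    exact div_self (S_pos55 k).ne'
  blk_gt := fun k n hn => by
    unfold blk55 at hn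
    rw [Finset.mem_map] at hn
    obtain ⟨a, ha, rfl⟩ := hn
    rw [Win.W, Finset.mem_Ioc] at ha
    have := Win.le_a (k + 1)
    simp only [Nat.castEmbedding_apply, Nat.cast_lt]
    omega
  blk_disj := fun k l hkl => by
    rw [Finset.disjoint_left]
    intro n hn hn'
    unfold blk55 at hn hn'
    rw [Finset.mem_map] at hn hn'
    obtain ⟨a, ha, rfl⟩ := hn
    obtain ⟨b, hb, hab⟩ := hn'
    have hab' : b = a := by
      simpa [Nat.castEmbedding_apply] using hab
    subst hab'
    have h1 := Win.ix_eq ha (by omega)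
    have h2 := Win.ix_eq hb (by omega)
    omega
  m_lim := fun F hF => by
    obtain ⟨C, hC⟩ := hF
    apply tendsto_nhds_limUnder
    exact Win.exists_lim (x := fun k => ∑ n ∈ blk55 k, wt55 k n * F n)
      (fun k => by rw [sum_blk55]; exact EZ_abs_le55 hC _)
  shift_err := fun t ε hε => by
    have h := S_succ_tendsto55.eventually_ge_atTop (|(t : ℝ)| * 3 / ε)
    filter_upwards [h] with k hk F hF
    rw [sum_blk55 k F, sum_blk55 k (fun n => F (n + t))]
    refine (Win.EZ_shift hF (k + 1) t).trans ?_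
    rw [mul_one, ← mul_div_assoc, div_le_iff₀ (S_pos55 k)]
    rw [div_le_iff₀ hε] at hk
    linarith
  dil_err := fun r hr ε hε => by
    have h := S_succ_tendsto55.eventually_ge_atTop (2 * (r : ℝ) ^ 2 / ε)
    filter_upwards [h] with k hk F hF
    rw [sum_blk55 k (fun n => F (r * n)), sum_blk55 k (fun n => if (r : ℤ) ∣ n then F n else 0)]
    refine (Win.EZ_dil hF r hr (k + 1)).trans ?_
    rw [mul_one, div_le_iff₀ (S_pos55 k)]
    rw [div_le_iff₀ hε] at hk
    linarith

theorem M1_holds : M1 := ⟨meanSys55⟩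

end Pool.Agent.FinA
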