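import Pool.Agent.Lib.MP_60922f_co.FIN.Hilb42

/-!
FIN, M4: splitting of a bounded function in an almost periodic and a weakly mixing part.
-/

set_option autoImplicit false

namespace Pool.Agent.FinA

open Filter Topology Finset

namespace M4x

/-- invariant mean on the integers -/
structure IM (M : (ℤ → ℝ) → ℝ) : Prop where
  add : ∀ F G, Bdd F → Bdd G → M (fun n => F n + G n) = M F + M G
  smul : ∀ (c : ℝ) (F : ℤ → ℝ), Bdd F → M (fun n => c * F n) = c * M F
  mono : ∀ F G, Bdd F → Bdd G → (∀ n, F n ≤ G n) → M F ≤ M G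
  const : ∀ c : ℝ, M (fun _ => c) = c
  shift : ∀ (t : ℤ) (F : ℤ → ℝ), Bdd F → M (fun n => F (n + t)) = M F

lemma IM.le_const {M : (ℤ → ℝ) → ℝ} (hM : IM M) {F : ℤ → ℝ} (hF : Bdd F) {C : ℝ}
    (h : ∀ n, F n ≤ C) : M F ≤ C := by
  have := hM.mono F (fun _ => C) hF (H42.bdd_const C) h
  rwa [hM.const] at this

lemma IM.const_le {M : (ℤ → ℝ) → ℝ} (hM : IM M) {F : ℤ → ℝ} (hF : Bdd F) {C : ℝ}
    (h : ∀ n, C ≤ F n) : C ≤ M F := by
  have := hM.mono (fun _ => C) F (H42.bdd_const C) hF h
  rwa [hM.const] at this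

lemma IM.abs_le {M : (ℤ → ℝ) → ℝ} (hM : IM M) {F : ℤ → ℝ} {C : ℝ}
    (h : ∀ n, |F n| ≤ C) : |M F| ≤ C := by
  rw [_root_.abs_le]
  exact ⟨hM.const_le ⟨C, h⟩ fun n => (_root_.abs_le.1 (h n)).1,
    hM.le_const ⟨C, h⟩ fun n => (_root_.abs_le.1 (h n)).2⟩

lemma IM.sum {M : (ℤ → ℝ) → ℝ} (hM : IM M) {ι : Type*} (s : Finset ι) {F : ι → ℤ → ℝ}
    (hF : ∀ i ∈ s, Bdd (F i)) : M (fun n => ∑ i ∈ s, F i n) = ∑ i ∈ s, M (F i) := by
  classical
  induction s using Finset.induction_on with
  | empty => simpa using hM.const 0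
  | insert a s ha ih =>
    have h1 : ∀ i ∈ s, Bdd (F i) := fun i hi => hF i (Finset.mem_insert_of_mem hi)
    simp only [Finset.sum_insert ha]
    rw [hM.add _ _ (hF a (Finset.mem_insert_self a s)) (H42.bdd_sum s h1), ih h1]

/-- rounding -/
lemma round {f : ℤ → ℝ} {C : ℝ} (hf : ∀ t, |f t| ≤ C) {δ : ℝ} (hδ : 0 < δ) :
    ∃ (α : Type) (_ : Finite α) (c : ℤ → α), ∀ t t', c t = c t' → |f t - f t'| ≤ δ := by
  refine ⟨Set.Icc ⌊-C / δ⌋ ⌊C / δ⌋, inferInstance, fun t => ⟨⌊f t / δ⌋, ?_, ?_⟩, ?_⟩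
  · exact Int.floor_le_floor (div_le_div_of_nonneg_right (_root_.abs_le.1 (hf t)).1 hδ.le)
  · exact Int.floor_le_floor (div_le_div_of_nonneg_right (_root_.abs_le.1 (hf t)).2 hδ.le)
  · intro t t' h
    have h1 : ⌊f t / δ⌋ = ⌊f t' / δ⌋ := congrArg Subtype.val h
    have h2 := Int.abs_sub_lt_one_of_floor_eq_floor h1
    rw [← sub_div, abs_div, abs_of_pos hδ, div_lt_one hδ] at h2
    exact h2.le

section AP

variable {H : Type*} [NormedAddCommGroup H] [InnerProductSpace ℝ H] (T : ℤ → H →ₗᵢ[ℝ] H)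

/-- almost periodic vector: the orbit is totally bounded -/
def AP (x : H) : Prop := ∀ ε > (0 : ℝ), ∃ (α : Type) (_ : Finite α) (c : ℤ → α),
  ∀ t t', c t = c t' → ‖T t x - T t' x‖ ≤ ε

/-- the almost periodic vectors -/
def APsub : Submodule ℝ H where
  carrier := {x | AP T x}
  zero_mem' := fun ε hε => ⟨Unit, inferInstance, fun _ => (), fun t t' _ => by simpa using hε.le⟩
  add_mem' := by
    intro x y hx hy ε hε
    obtain ⟨α, hα, c, hc⟩ := hx (ε / 2) (by positivity)
    obtain ⟨β, hβ, d, hd⟩ := hy (ε / 2) (by positivity)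
    refine ⟨α × β, inferInstance, fun t => (c t, d t), fun t t' h => ?_⟩
    have h1 := hc t t' (congrArg Prod.fst h)
    have h2 := hd t t' (congrArg Prod.snd h)
    rw [map_add, map_add]
    calc ‖T t x + T t y - (T t' x + T t' y)‖ = ‖(T t x - T t' x) + (T t y - T t' y)‖ := by
          congr 1; abel
      _ ≤ _ := norm_add_le _ _
      _ ≤ ε / 2 + ε / 2 := add_le_add h1 h2
      _ = ε := by ring
  smul_mem' := by
    intro a x hx ε hε
    obtain ⟨α, hα, c, hc⟩ := hx (ε / (|a| + 1)) (by positivity)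
    refine ⟨α, hα, c, fun t t' h => ?_⟩
    rw [map_smul, map_smul, ← smul_sub, norm_smul, Real.norm_eq_abs]
    calc |a| * ‖T t x - T t' x‖ ≤ |a| * (ε / (|a| + 1)) :=
          mul_le_mul_of_nonneg_left (hc t t' h) (abs_nonneg _)
      _ ≤ (|a| + 1) * (ε / (|a| + 1)) := mul_le_mul_of_nonneg_right (by linarith) (by positivity)
      _ = ε := by field_simp

lemma APsub_closed : IsClosed (APsub T : Set H) := by
  rw [← closure_subset_iff_isClosed]
  intro x hx ε hε
  rw [Metric.mem_closure_iff] at hx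
  obtain ⟨y, hy, hxy⟩ := hx (ε / 4) (by positivity)
  obtain ⟨α, hα, c, hc⟩ := hy (ε / 2) (by positivity)
  refine ⟨α, hα, c, fun t t' h => ?_⟩
  have h1 := hc t t' h
  have h2 : ‖T t (x - y)‖ = ‖x - y‖ := (T t).norm_map _
  have h3 : ‖T t' (x - y)‖ = ‖x - y‖ := (T t').norm_map _
  rw [dist_eq_norm] at hxy
  calc ‖T t x - T t' x‖ = ‖T t (x - y) + (T t y - T t' y) - T t' (x - y)‖ := by
        rw [map_sub, map_sub]; congr 1; abel
    _ ≤ ‖T t (x - y)‖ + ‖T t y - T t' y‖ + ‖T t' (x - y)‖ :=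
        (norm_sub_le _ _).trans (by linarith [norm_add_le (T t (x - y)) (T t y - T t' y)])
    _ ≤ ε := by rw [h2, h3]; linarith

variable {T}

lemma bdd_inner (f : ℤ → ℤ) (x y : H) : ∀ t, |inner ℝ (T (f t) x) y| ≤ ‖x‖ * ‖y‖ := fun t => by
  have := abs_real_inner_le_norm (T (f t) x) y
  rwa [(T (f t)).norm_map] at this

/-- the mean of products with a fixed vector is represented by an almost periodic vector -/
theorem core [CompleteSpace H] (hT0 : ∀ x, T 0 x = x) (hTa : ∀ s t x, T (s + t) x = T s (T t x))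
    {M : (ℤ → ℝ) → ℝ} (hM : IM M) (h : H) {v : ℕ} (hv : 0 < v) :
    ∃ q, AP T q ∧ inner ℝ q h = M (fun t => (inner ℝ (T (v * t) h) h) ^ 2) := by
  classical
  have hadj : ∀ t x y, inner ℝ (T t x) y = inner ℝ x (T (-t) y) := fun t x y => by
    rw [← (T (-t)).inner_map_map (T t x) y, ← hTa, neg_add_cancel, hT0]
  have hb : ∀ x, Bdd (fun t => inner ℝ (T (v * t) h) x) := fun x => ⟨_, bdd_inner _ h x⟩
  -- the functional
  have hbd : ∀ x, Bdd (fun t => inner ℝ (T (v * t) h) h * inner ℝ (T (v * t) h) x) :=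
    fun x => H42.bdd_mul (hb h) (hb x)
  let L : H →ₗ[ℝ] ℝ :=
    { toFun := fun x => M (fun t => inner ℝ (T (v * t) h) h * inner ℝ (T (v * t) h) x)
      map_add' := fun x y => by
        rw [← hM.add _ _ (hbd x) (hbd y)]
        congr 1
        funext t
        rw [inner_add_right]
        ring
      map_smul' := fun c x => by
        simp only [RingHom.id_apply, smul_eq_mul]
        rw [← hM.smul c _ (hbd x)]
        congr 1
        funext t
        rw [real_inner_smul_right]
        ring }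
  have hL : ∀ x, ‖L x‖ ≤ ‖h‖ * ‖h‖ * ‖h‖ * ‖x‖ := fun x => by
    rw [Real.norm_eq_abs]
    refine hM.abs_le fun t => ?_
    rw [abs_mul]
    calc |inner ℝ (T (v * t) h) h| * |inner ℝ (T (v * t) h) x|
        ≤ (‖h‖ * ‖h‖) * (‖h‖ * ‖x‖) :=
          mul_le_mul (bdd_inner _ h h t) (bdd_inner _ h x t) (abs_nonneg _) (by positivity)
      _ = ‖h‖ * ‖h‖ * ‖h‖ * ‖x‖ := by ring
  let Lc : StrongDual ℝ H := L.mkContinuous _ hL
  let q : H := (InnerProductSpace.toDual ℝ H).symm Lc
  have hq : ∀ x, inner ℝ q x = M (fun t => inner ℝ (T (v * t) h) h * inner ℝ (T (v * t) h) x) :=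
    fun x => InnerProductSpace.toDual_symm_apply
  refine ⟨q, ?_, ?_⟩
  swap
  · rw [hq h]
    congr 1
    funext t
    ring
  intro ε hε
  -- parameters
  set η : ℝ := ε / (2 * (‖h‖ ^ 4 + 1)) with hη
  have hη0 : 0 < η := by positivity
  -- maximal orthonormal family with large mean square
  let P : ℕ → Prop := fun n => ∃ e : Fin n → H, Orthonormal ℝ e ∧
    ∀ i, η ^ 2 ≤ M (fun t => inner ℝ (T (v * t) h) (e i) ^ 2)
  have hbsq : ∀ x, Bdd (fun t => inner ℝ (T (v * t) h) x ^ 2) := fun x => by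
    have := H42.bdd_mul (hb x) (hb x)
    simpa [sq] using this
  have hP0 : P 0 := ⟨fun i => i.elim0, ⟨fun i => i.elim0, fun i => i.elim0⟩, fun i => i.elim0⟩
  have hPb : ∀ n, P n → (n : ℝ) * η ^ 2 ≤ ‖h‖ ^ 2 := by
    rintro n ⟨e, he, hge⟩
    calc (n : ℝ) * η ^ 2 = ∑ _i : Fin n, η ^ 2 := by simp
      _ ≤ ∑ i : Fin n, M (fun t => inner ℝ (T (v * t) h) (e i) ^ 2) :=
          Finset.sum_le_sum fun i _ => hge i
      _ = M (fun t => ∑ i : Fin n, inner ℝ (T (v * t) h) (e i) ^ 2) :=
          (hM.sum _ fun i _ => hbsq _).symm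
      _ ≤ ‖h‖ ^ 2 := by
          refine hM.le_const (H42.bdd_sum _ fun i _ => hbsq _) fun t => ?_
          have := he.sum_inner_products_le (T (v * t) h) (s := Finset.univ)
          rw [(T (v * t)).norm_map] at this
          refine le_trans (le_of_eq ?_) this
          refine Finset.sum_congr rfl fun i _ => ?_
          rw [real_inner_comm, Real.norm_eq_abs, sq_abs]
  obtain ⟨r, hPr, hPr'⟩ : ∃ r, P r ∧ ¬ P (r + 1) := by
    by_contra hcon
    push Not at hcon
    have hall : ∀ n, P n := fun n => by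
      induction n with
      | zero => exact hP0
      | succ n ih => exact hcon n ih
    obtain ⟨n, hn⟩ := exists_nat_gt (‖h‖ ^ 2 / η ^ 2)
    have := hPb n (hall n)
    rw [div_lt_iff₀ (by positivity)] at hn
    linarith
  obtain ⟨e, he, hge⟩ := hPr
  -- unit vectors orthogonal to the family have small mean square
  have hsmall : ∀ x : H, ‖x‖ = 1 → (∀ i, inner ℝ (e i) x = 0) →
      M (fun t => inner ℝ (T (v * t) h) x ^ 2) < η ^ 2 := by
    intro x hx hox
    by_contra hcon
    push Not at hcon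
    apply hPr'
    refine ⟨Fin.snoc e x, ⟨?_, ?_⟩, ?_⟩
    · intro i
      refine Fin.lastCases ?_ (fun i => ?_) i
      · rw [Fin.snoc_last]; exact hx
      · rw [Fin.snoc_castSucc]; exact he.1 i
    · intro i j
      refine Fin.lastCases ?_ (fun i => ?_) i
      · refine Fin.lastCases ?_ (fun j => ?_) j
        · intro hne; exact absurd rfl hne
        · intro _
          show inner ℝ _ _ = 0
          rw [Fin.snoc_last, Fin.snoc_castSucc, real_inner_comm]
          exact hox j
      · refine Fin.lastCases ?_ (fun j => ?_) j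
        · intro _
          show inner ℝ _ _ = 0
          rw [Fin.snoc_last, Fin.snoc_castSucc]
          exact hox i
        · intro hne
          show inner ℝ _ _ = 0
          rw [Fin.snoc_castSucc, Fin.snoc_castSucc]
          exact he.2 fun hij => hne (congrArg Fin.castSucc hij)
    · intro i
      refine Fin.lastCases ?_ (fun i => ?_) i
      · rw [Fin.snoc_last]; exact hcon
      · rw [Fin.snoc_castSucc]; exact hge i
  -- correlation of the translates of q with such vectors
  set κ : ℝ := η * (‖h‖ ^ 4 + 1) / 2 with hκ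
  have hκε : κ = ε / 4 := by
    rw [hκ, hη]; field_simp; ring
  have hcorr : ∀ (s : ℤ) (x : H), ‖x‖ = 1 → (∀ i, inner ℝ (e i) x = 0) →
      |inner ℝ (T (v * s) q) x| ≤ κ := by
    intro s x hx hox
    have h1 : inner ℝ (T (v * s) q) x =
        M (fun t => inner ℝ (T (v * t) h) h * inner ℝ (T (v * (t + s)) h) x) := by
      rw [hadj, hq]
      congr 1
      funext t
      rw [← hadj, ← hTa]
      congr 4
      ring
    have h2 := hsmall x hx hox
    have h3 : M (fun t => inner ℝ (T (v * (t + s)) h) x ^ 2) < η ^ 2 := by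
      rw [hM.shift s (fun t => inner ℝ (T (v * t) h) x ^ 2) (hbsq x)]
      exact h2
    have h4 : M (fun t => inner ℝ (T (v * t) h) h ^ 2) ≤ ‖h‖ ^ 4 := by
      refine hM.le_const (hbsq h) fun t => ?_
      have := bdd_inner (T := T) (fun t => v * t) h h t
      calc inner ℝ (T (v * t) h) h ^ 2 = |inner ℝ (T (v * t) h) h| ^ 2 := (sq_abs _).symm
        _ ≤ (‖h‖ * ‖h‖) ^ 2 := pow_le_pow_left₀ (abs_nonneg _) this 2
        _ = ‖h‖ ^ 4 := by ring
    have hb2 : Bdd (fun t => inner ℝ (T (v * (t + s)) h) x ^ 2) := by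
      obtain ⟨C, hC⟩ := hbsq x
      exact ⟨C, fun t => hC (t + s)⟩
    have hb3 : Bdd (fun t => inner ℝ (T (v * (t + s)) h) x) := by
      obtain ⟨C, hC⟩ := hb x
      exact ⟨C, fun t => hC (t + s)⟩
    have h5 : M (fun t => η / 2 * inner ℝ (T (v * t) h) h ^ 2 +
        1 / (2 * η) * inner ℝ (T (v * (t + s)) h) x ^ 2) ≤ κ := by
      rw [hM.add _ _ (H42.bdd_smul _ (hbsq h)) (H42.bdd_smul _ hb2), hM.smul _ _ (hbsq h),
        hM.smul _ _ hb2]
      calc η / 2 * M (fun t => inner ℝ (T (v * t) h) h ^ 2) +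
            1 / (2 * η) * M (fun t => inner ℝ (T (v * (t + s)) h) x ^ 2)
          ≤ η / 2 * ‖h‖ ^ 4 + 1 / (2 * η) * η ^ 2 :=
            add_le_add (mul_le_mul_of_nonneg_left h4 (by positivity))
              (mul_le_mul_of_nonneg_left h3.le (by positivity))
        _ = κ := by rw [hκ]; field_simp
    have hpt : ∀ a b : ℝ, |a * b| ≤ η / 2 * a ^ 2 + 1 / (2 * η) * b ^ 2 := by
      intro a b
      have h6 : 0 ≤ (η * |a| - |b|) ^ 2 := sq_nonneg _
      have h7 : η / 2 * a ^ 2 + 1 / (2 * η) * b ^ 2 - |a| * |b| =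
          (η * |a| - |b|) ^ 2 / (2 * η) := by
        rw [← sq_abs a, ← sq_abs b]; field_simp; ring
      have h8 : 0 ≤ (η * |a| - |b|) ^ 2 / (2 * η) := by positivity
      rw [abs_mul]
      linarith
    have hbR : Bdd (fun t => η / 2 * inner ℝ (T (v * t) h) h ^ 2 +
        1 / (2 * η) * inner ℝ (T (v * (t + s)) h) x ^ 2) :=
      H42.bdd_add (H42.bdd_smul _ (hbsq h)) (H42.bdd_smul _ hb2)
    have hbL : Bdd (fun t => inner ℝ (T (v * t) h) h * inner ℝ (T (v * (t + s)) h) x) :=
      H42.bdd_mul (hb h) hb3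
    rw [h1, _root_.abs_le]
    constructor
    · have h9 := hM.mono _ _ (H42.bdd_neg hbR) hbL fun t =>
        (_root_.abs_le.1 (hpt (inner ℝ (T (v * t) h) h) (inner ℝ (T (v * (t + s)) h) x))).1
      have h10 := hM.smul (-1) _ hbR
      simp only [neg_mul, one_mul] at h10
      rw [h10] at h9
      linarith
    · have h9 := hM.mono _ _ hbL hbR fun t =>
        (_root_.abs_le.1 (hpt (inner ℝ (T (v * t) h) h) (inner ℝ (T (v * (t + s)) h) x))).2
      linarith
  -- distance of the translates to the span of the family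
  have hdist : ∀ s : ℤ, ‖T (v * s) q - ∑ i, inner ℝ (e i) (T (v * s) q) • e i‖ ≤ κ := by
    intro s
    set y := T (v * s) q with hy
    set z := y - ∑ i, inner ℝ (e i) y • e i with hz
    have hoz : ∀ i, inner ℝ (e i) z = 0 := by
      intro i
      rw [hz, inner_sub_right, inner_sum]
      have : ∀ j, inner ℝ (e i) (inner ℝ (e j) y • e j) = if i = j then inner ℝ (e j) y else 0 := by
        intro j
        rw [real_inner_smul_right, orthonormal_iff_ite.1 he i j]
        split_ifs <;> simp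
      simp only [this, Finset.sum_ite_eq, Finset.mem_univ, if_true, sub_self]
    rcases eq_or_ne z 0 with hz0 | hz0
    · rw [hz0, norm_zero, hκε]; positivity
    have hzn : 0 < ‖z‖ := norm_pos_iff.2 hz0
    have hyz : inner ℝ y z = ‖z‖ ^ 2 := by
      have : y = z + ∑ i, inner ℝ (e i) y • e i := by rw [hz]; abel
      rw [this, inner_add_left, sum_inner, real_inner_self_eq_norm_sq]
      simp only [real_inner_smul_left, hoz, mul_zero, Finset.sum_const_zero, add_zero]
    have hu : ‖(‖z‖⁻¹ : ℝ) • z‖ = 1 := by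
      rw [norm_smul, norm_inv, norm_norm, inv_mul_cancel₀ hzn.ne']
    have h1 := hcorr s ((‖z‖⁻¹ : ℝ) • z) hu fun i => by rw [real_inner_smul_right, hoz, mul_zero]
    rw [← hy, real_inner_smul_right, hyz] at h1
    have h2 : ‖z‖⁻¹ * ‖z‖ ^ 2 = ‖z‖ := by field_simp
    rw [h2, abs_of_pos hzn] at h1
    exact h1
  -- rounding of the coordinates
  have hδ : 0 < ε / (2 * (r + 1)) := by positivity
  have hcoord : ∀ i : Fin r, ∃ (α : Type) (_ : Finite α) (c : ℤ → α), ∀ s s', c s = c s' →
      |inner ℝ (e i) (T (v * s) q) - inner ℝ (e i) (T (v * s') q)| ≤ ε / (2 * (r + 1)) := by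
    intro i
    refine round (f := fun s => inner ℝ (e i) (T (v * s) q)) (C := ‖q‖) (fun s => ?_) hδ
    have := abs_real_inner_le_norm (e i) (T (v * s) q)
    rwa [he.1 i, one_mul, (T (v * s)).norm_map] at this
  choose α hα c hc using hcoord
  have hv' : (v : ℤ) ≠ 0 := by exact_mod_cast hv.ne'
  refine ⟨(∀ i, α i) × Set.Ico (0 : ℤ) v, inferInstance,
    fun t => (fun i => c i (t / v), ⟨t % v, Int.emod_nonneg t hv', Int.emod_lt_of_pos t (by exact_mod_cast hv)⟩),
    fun t t' htt => ?_⟩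
  have hc1 : ∀ i, c i (t / v) = c i (t' / v) := fun i => congrFun (congrArg Prod.fst htt) i
  have hmod : t % v = t' % v := congrArg Subtype.val (congrArg Prod.snd htt)
  have et : t = t % v + v * (t / v) := (Int.emod_add_mul_ediv t v).symm
  have et' : t' = t' % v + v * (t' / v) := (Int.emod_add_mul_ediv t' v).symm
  have key : ‖T (v * (t / v)) q - T (v * (t' / v)) q‖ ≤ ε := by
    have h1 := hdist (t / v)
    have h2 := hdist (t' / v)
    have h3 : ‖∑ i, inner ℝ (e i) (T (v * (t / v)) q) • e i -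
        ∑ i, inner ℝ (e i) (T (v * (t' / v)) q) • e i‖ ≤ ε / 2 := by
      rw [← Finset.sum_sub_distrib]
      refine (norm_sum_le _ _).trans ?_
      calc ∑ i, ‖inner ℝ (e i) (T (v * (t / v)) q) • e i - inner ℝ (e i) (T (v * (t' / v)) q) • e i‖
          ≤ ∑ _i : Fin r, ε / (2 * (r + 1)) := by
            refine Finset.sum_le_sum fun i _ => ?_
            rw [← sub_smul, norm_smul, he.1 i, mul_one, Real.norm_eq_abs]
            exact hc i _ _ (hc1 i)
        _ = r * (ε / (2 * (r + 1))) := by simp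
        _ ≤ ε / 2 := by
            rw [mul_div_assoc', div_le_div_iff₀ (by positivity) (by positivity)]
            nlinarith
    have e1 : T (v * (t / v)) q - T (v * (t' / v)) q =
        (T (v * (t / v)) q - ∑ i, inner ℝ (e i) (T (v * (t / v)) q) • e i) +
        (∑ i, inner ℝ (e i) (T (v * (t / v)) q) • e i -
          ∑ i, inner ℝ (e i) (T (v * (t' / v)) q) • e i) -
        (T (v * (t' / v)) q - ∑ i, inner ℝ (e i) (T (v * (t' / v)) q) • e i) := by abel
    rw [e1]
    refine (norm_sub_le _ _).trans ?_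
    refine (add_le_add (norm_add_le _ _) le_rfl).trans ?_
    linarith
  calc ‖T t q - T t' q‖ = ‖T (t % v) (T (v * (t / v)) q - T (v * (t' / v)) q)‖ := by
        rw [map_sub, ← hTa, ← et]
        congr 2
        rw [hmod, ← hTa, ← et']
    _ = ‖T (v * (t / v)) q - T (v * (t' / v)) q‖ := (T (t % v)).norm_map _
    _ ≤ ε := key

end AP

/-! ### the double mean of a mean system -/

section dd

variable (S : MeanSys)

lemma nu_add (k : ℕ) (F G : ℤ → ℝ) : S.nu k (fun n => F n + G n) = S.nu k F + S.nu k G := by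
  unfold MeanSys.nu
  rw [← Finset.sum_add_distrib]
  exact Finset.sum_congr rfl fun n _ => by ring

lemma nu_smul (k : ℕ) (c : ℝ) (F : ℤ → ℝ) : S.nu k (fun n => c * F n) = c * S.nu k F := by
  unfold MeanSys.nu
  rw [Finset.mul_sum]
  exact Finset.sum_congr rfl fun n _ => by ring

lemma nu_mono (k : ℕ) {F G : ℤ → ℝ} (h : ∀ n, F n ≤ G n) : S.nu k F ≤ S.nu k G :=
  Finset.sum_le_sum fun n _ => mul_le_mul_of_nonneg_left (h n) (S.wt_nonneg k n)

lemma nu_const (k : ℕ) (c : ℝ) : S.nu k (fun _ => c) = c := by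
  unfold MeanSys.nu
  rw [← Finset.sum_mul, S.wt_sum, one_mul]

lemma nu_abs_le (k : ℕ) {F : ℤ → ℝ} {C : ℝ} (h : ∀ n, |F n| ≤ C) : |S.nu k F| ≤ C := by
  rw [abs_le]
  constructor
  · have := nu_mono S k (F := fun _ => -C) (G := F) fun n => (abs_le.1 (h n)).1
    rwa [nu_const] at this
  · have := nu_mono S k (F := F) (G := fun _ => C) fun n => (abs_le.1 (h n)).2
    rwa [nu_const] at this

/-- double average of a function of the difference -/
noncomputable def dd (k : ℕ) (ψ : ℤ → ℝ) : ℝ := S.nu k (fun n => S.nu k (fun n' => ψ (n' - n)))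

/-- its limit -/
noncomputable def MM (ψ : ℤ → ℝ) : ℝ := limUnder (S.U : Filter ℕ) (fun k => dd S k ψ)

lemma dd_abs_le (k : ℕ) {ψ : ℤ → ℝ} {C : ℝ} (h : ∀ n, |ψ n| ≤ C) : |dd S k ψ| ≤ C :=
  nu_abs_le S k fun _ => nu_abs_le S k fun _ => h _

lemma exists_ulim (U : Ultrafilter ℕ) {x : ℕ → ℝ} {C : ℝ} (hx : ∀ i, |x i| ≤ C) :
    ∃ L, Tendsto x (U : Filter ℕ) (𝓝 L) := by
  have hc : IsCompact (Set.Icc (-C) C) := isCompact_Icc
  have hmem : (U.map x : Filter ℝ) ≤ 𝓟 (Set.Icc (-C) C) := by
    rw [Filter.le_principal_iff]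
    have : x ⁻¹' (Set.Icc (-C) C) = Set.univ := by
      ext i; simp only [Set.mem_preimage, Set.mem_univ, iff_true]
      exact abs_le.1 (hx i)
    show x ⁻¹' (Set.Icc (-C) C) ∈ (U : Filter ℕ)
    rw [this]; exact Filter.univ_mem
  obtain ⟨L, _, hL⟩ := hc.ultrafilter_le_nhds (U.map x) hmem
  exact ⟨L, hL⟩

lemma MM_lim {ψ : ℤ → ℝ} (h : Bdd ψ) :
    Tendsto (fun k => dd S k ψ) (S.U : Filter ℕ) (𝓝 (MM S ψ)) := by
  obtain ⟨C, hC⟩ := h
  exact tendsto_nhds_limUnder (exists_ulim S.U fun k => dd_abs_le S k hC)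

lemma MM_eq {ψ : ℤ → ℝ} {L : ℝ} (h : Tendsto (fun k => dd S k ψ) (S.U : Filter ℕ) (𝓝 L)) :
    MM S ψ = L := h.limUnder_eq

lemma dd_add (k : ℕ) (F G : ℤ → ℝ) : dd S k (fun n => F n + G n) = dd S k F + dd S k G := by
  unfold dd
  rw [← nu_add]
  congr 1
  funext n
  rw [← nu_add]

lemma dd_smul (k : ℕ) (c : ℝ) (F : ℤ → ℝ) : dd S k (fun n => c * F n) = c * dd S k F := by
  unfold dd
  rw [← nu_smul]
  congr 1
  funext n
  rw [← nu_smul]

lemma dd_mono (k : ℕ) {F G : ℤ → ℝ} (h : ∀ n, F n ≤ G n) : dd S k F ≤ dd S k G :=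
  nu_mono S k fun _ => nu_mono S k fun _ => h _

lemma dd_const (k : ℕ) (c : ℝ) : dd S k (fun _ => c) = c := by
  unfold dd
  simp only [nu_const]

lemma dd_shift (t : ℤ) {F : ℤ → ℝ} {C : ℝ} (hC : ∀ n, |F n| ≤ C) {ε : ℝ} (hε : 0 < ε) :
    ∀ᶠ k in (S.U : Filter ℕ), |dd S k (fun n => F (n + t)) - dd S k F| ≤ ε := by
  have hC0 : 0 ≤ C := (abs_nonneg _).trans (hC 0)
  have hpos : 0 < ε / (C + 1) := by positivity
  filter_upwards [(S.shift_err t _ hpos).filter_mono S.free] with k hk
  have h0 : ∀ n, |S.nu k (fun n' => F (n' - n + t)) - S.nu k (fun n' => F (n' - n))| ≤ ε := by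
    intro n
    have h3 := hk (fun n' => F (n' - n) / (C + 1)) (fun n' => by
      rw [abs_div, abs_of_pos (by linarith : 0 < C + 1), div_le_one (by linarith)]
      linarith [hC (n' - n)])
    have e : ∀ G : ℤ → ℝ, ∑ n ∈ S.blk k, S.wt k n * (G n / (C + 1)) = S.nu k G / (C + 1) := by
      intro G
      unfold MeanSys.nu
      rw [Finset.sum_div]
      exact Finset.sum_congr rfl fun n _ => by ring
    have e2 := e (fun n' => F (n' + t - n))
    have e3 := e (fun n' => F (n' - n))
    rw [e2, e3, ← sub_div, abs_div,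
      abs_of_pos (by linarith : 0 < C + 1), div_le_div_iff_of_pos_right (by linarith)] at h3
    have e4 : (fun n' : ℤ => F (n' - n + t)) = fun n' => F (n' + t - n) := by
      funext n'; congr 1; ring
    rw [e4]
    exact h3
  have h1 : dd S k (fun n => F (n + t)) - dd S k F =
      S.nu k (fun n => S.nu k (fun n' => F (n' - n + t)) - S.nu k (fun n' => F (n' - n))) := by
    have h2 := nu_add S k (fun n => S.nu k (fun n' => F (n' - n + t)))
      (fun n => (-1) * S.nu k (fun n' => F (n' - n)))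
    rw [nu_smul] at h2
    unfold dd
    simp only [neg_mul, one_mul, ← sub_eq_add_neg] at h2
    exact h2.symm
  rw [h1]
  exact nu_abs_le S k h0

lemma MM_IM : IM (MM S) where
  add F G hF hG := by
    apply MM_eq
    refine ((MM_lim S hF).add (MM_lim S hG)).congr fun k => ?_
    rw [dd_add]
  smul c F hF := by
    apply MM_eq
    refine ((MM_lim S hF).const_mul c).congr fun k => ?_
    rw [dd_smul]
  mono F G hF hG h := le_of_tendsto_of_tendsto' (MM_lim S hF) (MM_lim S hG) fun k => dd_mono S k h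
  const c := by
    apply MM_eq
    refine tendsto_const_nhds.congr fun k => ?_
    rw [dd_const]
  shift t F hF := by
    obtain ⟨C, hC⟩ := id hF
    have h1 := (MM_lim S (H42.bdd_shift t hF)).sub (MM_lim S hF)
    have h2 : Tendsto (fun k => dd S k (fun n => F (n + t)) - dd S k F)
        (S.U : Filter ℕ) (𝓝 0) := by
      rw [Metric.tendsto_nhds]
      intro ε hε
      filter_upwards [dd_shift S t hC (half_pos hε)] with k hk
      rw [Real.dist_eq, sub_zero]
      linarith
    exact sub_eq_zero.1 (tendsto_nhds_unique h1 h2)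

end dd

end M4x

open M4x MeanSys in
/-- M4 holds for every mean system -/
theorem m4 (S : MeanSys) : M4 S := by
  intro g hg
  have hgb : Bdd g := ⟨1, fun n => abs_le.2 ⟨by linarith [(hg n).1], (hg n).2⟩⟩
  have : CompleteSpace (APsub S.T) := (APsub_closed S.T).completeSpace_coe
  obtain ⟨p, hp, hpo⟩ :=
    Submodule.HasOrthogonalProjection.exists_orthogonal (K := APsub S.T) (S.iota g)
  set h : S.H := S.iota g - p with hh
  have hpAP : AP S.T p := hp
  have hort : ∀ q, AP S.T q → inner ℝ q h = 0 := fun q hq =>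
    (Submodule.mem_orthogonal _ _).1 hpo q hq
  refine ⟨fun t => ‖S.T t p - p‖, ⟨fun t => norm_nonneg _, by rw [T_zero, sub_self, norm_zero],
    fun t => ?_, fun s t => ?_, fun η hη => ?_⟩, fun η hη => ?_⟩
  · have h1 := norm_T_sub_T (S := S) 0 t p
    rw [T_zero, zero_sub] at h1
    rw [← h1, norm_sub_rev]
  · have h1 : S.T (s + t) p - p = S.T s (S.T t p - p) + (S.T s p - p) := by
      rw [T_add, map_sub]; abel
    rw [h1]
    refine (norm_add_le _ _).trans ?_
    rw [norm_T, add_comm]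
  · obtain ⟨α, hα, c, hc⟩ := hpAP η hη
    classical
    have := Fintype.ofFinite α
    let P : Finset ℤ := Finset.univ.image fun a : α =>
      if h : ∃ t, c t = a then Classical.choose h else 0
    refine ⟨P, fun t => ?_⟩
    have hex : ∃ t', c t' = c t := ⟨t, rfl⟩
    refine ⟨Classical.choose hex, ?_, ?_⟩
    · refine Finset.mem_image.2 ⟨c t, Finset.mem_univ _, ?_⟩
      rw [dif_pos hex]
    · have h1 := hc t (Classical.choose hex) (Classical.choose_spec hex).symm
      rw [norm_T_sub_T] at h1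
      exact h1
  · -- the approximation
    have hε : 0 < min 1 (η / (4 * (‖h‖ + 1))) := lt_min one_pos (by positivity)
    set ε : ℝ := min 1 (η / (4 * (‖h‖ + 1))) with hεd
    have hε1 : ε ≤ 1 := min_le_left _ _
    have hε2 : ε * (4 * (‖h‖ + 1)) ≤ η := by
      have := min_le_right 1 (η / (4 * (‖h‖ + 1)))
      rw [← hεd, le_div_iff₀ (by positivity)] at this
      exact this
    have hhn : 0 ≤ ‖h‖ := norm_nonneg h
    obtain ⟨φ, hφ, hφp⟩ := iota_dense p hε
    refine ⟨φ, hφ, fun t => ?_, fun v hv => ?_⟩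
    · rw [← norm_iota_sq (S := S) (H42.bdd_sub (H42.bdd_shift t hφ) hφ),
        iota_sub (H42.bdd_shift t hφ) hφ, ← T_iota t hφ]
      refine pow_le_pow_left₀ (norm_nonneg _) ?_ 2
      have h1 : S.T t (S.iota φ) - S.iota φ =
          (S.T t p - p) - S.T t (p - S.iota φ) + (p - S.iota φ) := by
        rw [map_sub]; abel
      rw [h1]
      refine (norm_add_le _ _).trans ?_
      refine (add_le_add (norm_sub_le _ _) le_rfl).trans ?_
      rw [norm_T]
      nlinarith
    · -- the weakly mixing part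
      obtain ⟨q, hq, hqh⟩ := core (T := S.T) (fun x => T_zero x) (fun s t x => T_add s t x)
        (MM_IM S) h hv
      rw [hort q hq] at hqh
      have hb0 : Bdd (fun t => (inner ℝ (S.T (v * t) h) h : ℝ)) :=
        ⟨_, bdd_inner (T := S.T) (fun t => v * t) h h⟩
      have hb : Bdd (fun t => (inner ℝ (S.T (v * t) h) h : ℝ) ^ 2) := by
        have := H42.bdd_mul hb0 hb0
        simpa [sq] using this
      have hlim := MM_lim S hb
      rw [← hqh] at hlim
      have hτ : 0 < (η / 2) ^ 2 := by positivity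
      have hev := hlim.eventually (gt_mem_nhds hτ)
      filter_upwards [hev] with k hk
      have hr : Bdd (fun x => g x - φ x) := H42.bdd_sub hgb hφ
      -- pointwise estimate
      have hpt : ∀ n n' : ℤ,
          |S.m (fun x => (g (x - v * n) - φ (x - v * n)) * (g (x - v * n') - φ (x - v * n')))| ≤
          (η / 4 + 1 / η * (inner ℝ (S.T (v * (n' - n)) h) h : ℝ) ^ 2) + η / 2 := by
        intro n n'
        have e1 : S.m (fun x => (g (x - v * n) - φ (x - v * n)) *
            (g (x - v * n') - φ (x - v * n'))) =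
            inner ℝ (S.T (-(v * n)) (h + (p - S.iota φ))) (S.T (-(v * n')) (h + (p - S.iota φ))) := by
          have e2 : h + (p - S.iota φ) = S.iota (fun x => g x - φ x) := by
            rw [iota_sub hgb hφ, hh]; abel
          rw [e2, T_iota _ hr, T_iota _ hr, inner_iota (H42.bdd_shift _ hr) (H42.bdd_shift _ hr)]
          rfl
        set d : S.H := p - S.iota φ with hd
        have e3 : inner ℝ (S.T (-(v * n)) (h + d)) (S.T (-(v * n')) (h + d)) =
            inner ℝ (S.T (v * (n' - n)) h) h + (inner ℝ (S.T (-(v * n)) h) (S.T (-(v * n')) d) +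
            inner ℝ (S.T (-(v * n)) d) (S.T (-(v * n')) h) +
            inner ℝ (S.T (-(v * n)) d) (S.T (-(v * n')) d)) := by
          have e4 : inner ℝ (S.T (-(v * n)) h) (S.T (-(v * n')) h) =
              inner ℝ (S.T (v * (n' - n)) h) h := by
            rw [T_adj', ← T_add]
            congr 2
            ring_nf
          rw [map_add, map_add, inner_add_left, inner_add_right, inner_add_right, e4]
          ring
        have b1 := abs_real_inner_le_norm (S.T (-(v * n)) h) (S.T (-(v * n')) d)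
        have b2 := abs_real_inner_le_norm (S.T (-(v * n)) d) (S.T (-(v * n')) h)
        have b3 := abs_real_inner_le_norm (S.T (-(v * n)) d) (S.T (-(v * n')) d)
        rw [norm_T, norm_T] at b1 b2 b3
        have hd0 : 0 ≤ ‖d‖ := norm_nonneg d
        have b4 : ‖h‖ * ‖d‖ + ‖d‖ * ‖h‖ + ‖d‖ * ‖d‖ ≤ η / 2 := by nlinarith
        have b5 : |(inner ℝ (S.T (v * (n' - n)) h) h : ℝ)| ≤
            η / 4 + 1 / η * (inner ℝ (S.T (v * (n' - n)) h) h : ℝ) ^ 2 := by
          set a : ℝ := inner ℝ (S.T (v * (n' - n)) h) h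
          have h6 : 0 ≤ (η / 2 - |a|) ^ 2 / η := by positivity
          have h7 : η / 4 + 1 / η * a ^ 2 - |a| = (η / 2 - |a|) ^ 2 / η := by
            rw [← sq_abs a]; field_simp; ring
          linarith
        rw [e1, e3]
        refine (abs_add_le _ _).trans (add_le_add b5 ?_)
        refine (abs_add_three _ _ _).trans ?_
        linarith
      calc S.nu k (fun n => S.nu k (fun n' =>
            |S.m (fun x => (g (x - v * n) - φ (x - v * n)) * (g (x - v * n') - φ (x - v * n')))|))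
          ≤ S.nu k (fun n => S.nu k (fun n' =>
            (η / 4 + 1 / η * (inner ℝ (S.T (v * (n' - n)) h) h : ℝ) ^ 2) + η / 2)) :=
            nu_mono S k fun n => nu_mono S k fun n' => hpt n n'
        _ = dd S k (fun t => (η / 4 + 1 / η * (inner ℝ (S.T (v * t) h) h : ℝ) ^ 2) + η / 2) := rfl
        _ = η / 4 + 1 / η * dd S k (fun t => (inner ℝ (S.T (v * t) h) h : ℝ) ^ 2) + η / 2 := by
            rw [dd_add S k (fun t => η / 4 + 1 / η * (inner ℝ (S.T (v * t) h) h : ℝ) ^ 2)
              (fun _ => η / 2), dd_add S k (fun _ => η / 4), dd_smul, dd_const, dd_const]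
        _ ≤ η / 4 + 1 / η * (η / 2) ^ 2 + η / 2 := by
            have : 1 / η * dd S k (fun t => (inner ℝ (S.T (v * t) h) h : ℝ) ^ 2) ≤
                1 / η * (η / 2) ^ 2 := mul_le_mul_of_nonneg_left hk.le (by positivity)
            linarith
        _ = η := by field_simp; ring

end Pool.Agent.FinA
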