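import Pool.Agent.Lib.MP_60922f_co.FIN.Stmts43
import Pool.Agent.Lib.MP_60922f_co.FIN.Prime67

/-! FIN, module M9, main half: the abstract inequality. -/

set_option autoImplicit false
set_option linter.unusedVariables false

namespace Pool.Agent.FinA.M9m
open Filter Topology Pool.Agent.FinA Pool.Agent.FinA.P67

variable (S : MeanSys)

lemma m_shift {F : ℤ → ℝ} (hF : Bdd F) (t : ℤ) : S.m (fun n => F (n + t)) = S.m F := by
  obtain ⟨C, hC⟩ := hF
  have hF : Bdd F := ⟨C, hC⟩
  set D : ℝ := |C| + 1 with hD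
  have hD0 : 0 < D := by positivity
  have hFD : ∀ n, |D⁻¹ * F n| ≤ 1 := by
    intro n
    rw [abs_mul, abs_of_pos (inv_pos.mpr hD0), inv_mul_le_iff₀ hD0, mul_one]
    exact (hC n).trans ((le_abs_self C).trans (by rw [hD]; linarith))
  have hb1 : Bdd fun n => D⁻¹ * F n := ⟨1, hFD⟩
  have h1 := S.m_lim _ (bdd_comp hb1 fun n => n + t)
  have h2 := S.m_lim _ hb1
  have h3 := (h1.sub h2).abs
  have h4 : ∀ ε > (0 : ℝ),
      |S.m (fun n => D⁻¹ * F (n + t)) - S.m (fun n => D⁻¹ * F n)| ≤ ε := by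
    intro ε hε
    refine le_of_tendsto h3 ?_
    exact ((S.shift_err t ε hε).filter_mono S.free).mono fun k hk => hk _ hFD
  have h5 : |S.m (fun n => D⁻¹ * F (n + t)) - S.m (fun n => D⁻¹ * F n)| ≤ 0 :=
    le_of_forall_pos_le_add fun ε hε => by rw [zero_add]; exact h4 ε hε
  have h6 := sub_eq_zero.mp (abs_nonpos_iff.mp h5)
  rw [m_smul S _ (bdd_comp hF fun n => n + t), m_smul S _ hF] at h6
  exact mul_left_cancel₀ (inv_ne_zero hD0.ne') h6

lemma ind_nonneg (A : Set ℤ) (n : ℤ) : 0 ≤ ind A n := by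
  unfold ind; split_ifs <;> norm_num

lemma ind_le_one (A : Set ℤ) (n : ℤ) : ind A n ≤ 1 := by
  unfold ind; split_ifs <;> norm_num

lemma abs_ind_le (A : Set ℤ) (n : ℤ) : |ind A n| ≤ 1 := by
  rw [abs_of_nonneg (ind_nonneg A n)]; exact ind_le_one A n

lemma bdd_ind (A : Set ℤ) : Bdd (ind A) := ⟨1, abs_ind_le A⟩

lemma bdd_abs {F : ℤ → ℝ} (hF : Bdd F) : Bdd fun n => |F n| := by
  obtain ⟨C, hC⟩ := hF
  exact ⟨C, fun n => by rw [abs_abs]; exact hC n⟩

/-! ### double means -/

/-- uniformly bounded functions of two variables -/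
def B2 (F : ℤ → ℤ → ℝ) : Prop := ∃ C : ℝ, ∀ n w, |F n w| ≤ C

/-- the iterated mean -/
noncomputable def mm (F : ℤ → ℤ → ℝ) : ℝ := S.m (fun n => S.m (fun w => F n w))

variable {S}

lemma B2.row {F : ℤ → ℤ → ℝ} (h : B2 F) (n : ℤ) : Bdd fun w => F n w := by
  obtain ⟨C, hC⟩ := h; exact ⟨C, fun w => hC n w⟩

lemma B2.outer (S : MeanSys) {F : ℤ → ℤ → ℝ} (h : B2 F) : Bdd fun n => S.m (fun w => F n w) := by
  obtain ⟨C, hC⟩ := h; exact ⟨C, fun n => m_abs_le S fun w => hC n w⟩

lemma B2.add {F G : ℤ → ℤ → ℝ} (hF : B2 F) (hG : B2 G) : B2 fun n w => F n w + G n w := by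
  obtain ⟨C, hC⟩ := hF
  obtain ⟨D, hD⟩ := hG
  exact ⟨C + D, fun n w => (abs_add_le _ _).trans (add_le_add (hC n w) (hD n w))⟩

lemma B2.mul {F G : ℤ → ℤ → ℝ} (hF : B2 F) (hG : B2 G) : B2 fun n w => F n w * G n w := by
  obtain ⟨C, hC⟩ := hF
  obtain ⟨D, hD⟩ := hG
  refine ⟨C * D, fun n w => ?_⟩
  rw [abs_mul]
  exact mul_le_mul (hC n w) (hD n w) (abs_nonneg _) ((abs_nonneg _).trans (hC n w))

lemma B2.smul {F : ℤ → ℤ → ℝ} (c : ℝ) (hF : B2 F) : B2 fun n w => c * F n w := by
  obtain ⟨C, hC⟩ := hF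
  exact ⟨|c| * C, fun n w => by
    rw [abs_mul]; exact mul_le_mul_of_nonneg_left (hC n w) (abs_nonneg _)⟩

lemma B2.abs {F : ℤ → ℤ → ℝ} (hF : B2 F) : B2 fun n w => |F n w| := by
  obtain ⟨C, hC⟩ := hF
  exact ⟨C, fun n w => by rw [abs_abs]; exact hC n w⟩

lemma B2.sub {F G : ℤ → ℤ → ℝ} (hF : B2 F) (hG : B2 G) : B2 fun n w => F n w - G n w := by
  obtain ⟨C, hC⟩ := hF
  obtain ⟨D, hD⟩ := hG
  exact ⟨C + D, fun n w => (abs_sub _ _).trans (add_le_add (hC n w) (hD n w))⟩

lemma B2.of {f : ℤ → ℝ} (hf : Bdd f) (g : ℤ → ℤ → ℤ) : B2 fun n w => f (g n w) := by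
  obtain ⟨C, hC⟩ := hf; exact ⟨C, fun n w => hC _⟩

lemma mm_add {F G : ℤ → ℤ → ℝ} (hF : B2 F) (hG : B2 G) :
    mm S (fun n w => F n w + G n w) = mm S F + mm S G := by
  unfold mm
  have : (fun n => S.m fun w => F n w + G n w)
      = fun n => S.m (fun w => F n w) + S.m (fun w => G n w) := by
    ext n; exact m_add S (hF.row n) (hG.row n)
  rw [this, m_add S (hF.outer S) (hG.outer S)]

lemma mm_smul {F : ℤ → ℤ → ℝ} (c : ℝ) (hF : B2 F) :
    mm S (fun n w => c * F n w) = c * mm S F := by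
  unfold mm
  have : (fun n => S.m fun w => c * F n w) = fun n => c * S.m (fun w => F n w) := by
    ext n; exact m_smul S c (hF.row n)
  rw [this, m_smul S c (hF.outer S)]

lemma mm_mono {F G : ℤ → ℤ → ℝ} (hF : B2 F) (hG : B2 G) (h : ∀ n w, F n w ≤ G n w) :
    mm S F ≤ mm S G :=
  m_mono S (hF.outer S) (hG.outer S) fun n => m_mono S (hF.row n) (hG.row n) (h n)

lemma B2.zero : B2 fun _ _ => (0 : ℝ) := ⟨0, fun _ _ => by simp⟩

lemma B2.sum {ι : Type*} (s : Finset ι) {F : ι → ℤ → ℤ → ℝ} (hF : ∀ i ∈ s, B2 (F i)) :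
    B2 fun n w => ∑ i ∈ s, F i n w := by
  classical
  induction s using Finset.induction_on with
  | empty => simpa using B2.zero
  | insert a s ha ih =>
    have h1 := (hF a (Finset.mem_insert_self a s)).add
      (ih fun i hi => hF i (Finset.mem_insert_of_mem hi))
    refine Eq.subst (motive := B2) ?_ h1
    ext n w
    rw [Finset.sum_insert ha]

lemma mm_sum {ι : Type*} (s : Finset ι) {F : ι → ℤ → ℤ → ℝ} (hF : ∀ i ∈ s, B2 (F i)) :
    mm S (fun n w => ∑ i ∈ s, F i n w) = ∑ i ∈ s, mm S (F i) := by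
  classical
  induction s using Finset.induction_on with
  | empty =>
    simp only [Finset.sum_empty]
    unfold mm
    simp only [m_const]
  | insert a s ha ih =>
    have hs : B2 fun n w => ∑ i ∈ s, F i n w :=
      B2.sum s fun i hi => hF i (Finset.mem_insert_of_mem hi)
    rw [Finset.sum_insert ha, ← ih fun i hi => hF i (Finset.mem_insert_of_mem hi),
      ← mm_add (hF a (Finset.mem_insert_self a s)) hs]
    congr 1
    ext n w
    rw [Finset.sum_insert ha]

lemma mm_mul {f g : ℤ → ℝ} (hf : Bdd f) (hg : Bdd g) :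
    mm S (fun n w => f n * g w) = S.m f * S.m g := by
  unfold mm
  have : (fun n => S.m fun w => f n * g w) = fun n => S.m g * f n := by
    ext n; rw [m_smul S (f n) hg, mul_comm]
  rw [this, m_smul S _ hf, mul_comm]

/-! ### sums of indicators of disjoint sets -/

lemma sum_ind_le {J : ℕ} {A : Fin J → Set ℤ} (hA : ∀ i j, i ≠ j → Disjoint (A i) (A j)) (n : ℤ) :
    ∑ i, ind (A i) n ≤ 1 := by
  classical
  by_cases h : ∃ i, n ∈ A i
  · obtain ⟨i, hi⟩ := h
    rw [Finset.sum_eq_single i]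
    · exact ind_le_one _ _
    · intro j _ hj
      unfold ind
      rw [if_neg]
      exact fun h => Set.disjoint_left.mp (hA j i hj) h hi
    · intro h; exact absurd (Finset.mem_univ i) h
  · push Not at h
    rw [Finset.sum_eq_zero]
    · norm_num
    · intro i _; unfold ind; rw [if_neg (h i)]

lemma sum_ind_nonneg {J : ℕ} (A : Fin J → Set ℤ) (n : ℤ) : 0 ≤ ∑ i, ind (A i) n :=
  Finset.sum_nonneg fun i _ => ind_nonneg _ _

/-- The abstract main inequality. -/
theorem main43 (S : MeanSys) {J : ℕ} {A : Fin J → Set ℤ}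
    (hA : ∀ i j, i ≠ j → Disjoint (A i) (A j)) {W : ℤ → ℝ} {C η e E lam : ℝ} {u v L : ℕ}
    (hu : 0 < u) (hv : 0 < v) (hL : 0 < L) (hη : 0 ≤ η) (hlam : η ≤ 2 * lam)
    (hW0 : ∀ n, 0 ≤ W n) (hWC : ∀ n, W n ≤ C)
    (hpq : ∀ i j, ∀ s : ℤ,
      S.m (fun w => ind (A i) (u * w) * ind (A j) (v * w) * W (u * w + s)) - η ≤
      S.m (fun n => ind (A i) (v * n) * ind (A j) (u * n) * W (v * n + s)))
    (hU1 : ∀ x : ℤ, 1 / (L : ℝ) * ∑ s ∈ Finset.range L, W (x + s) ≤ 1 + η)
    (hUu : ∀ y : ℤ, Even y → 2 - 2 * η ≤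
      (u : ℝ) / L * ∑ s ∈ Finset.range L, if (u : ℤ) ∣ y + s then W (y + 2 * s) else 0)
    (hexu : S.m (fun w => 1 - ∑ i, ind (A i) (u * w)) ≤ e)
    (hexv : S.m (fun w => 1 - ∑ i, ind (A i) (v * w)) ≤ e)
    {b : ℤ → ℝ} (hb : U01 b) (hbodd : ∀ n, ¬ Even n → b n = 0)
    (herr : 1 / (L : ℝ) * ∑ s ∈ Finset.range L, S.m (fun n => S.m (fun w =>
      W (v * n + s) * W (u * w + s) * |b (v * n + u * w) - b (u * w - s)|)) ≤ E) :
    (2 * lam - η) * ((2 - 2 * η) * S.m b - (1 + η) * (2 * e)) - lam ^ 2 * J ^ 2 - E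
      ≤ C ^ 2 * ∑ i, ∑ j, Cor S (A i) (A j) u v b := by
  classical
  have hC0 : 0 ≤ C := (hW0 0).trans (hWC 0)
  have hWb : Bdd W := ⟨C, fun n => by rw [abs_of_nonneg (hW0 n)]; exact hWC n⟩
  have hbb : Bdd b := ⟨1, fun n => by rw [abs_of_nonneg (hb n).1]; exact (hb n).2⟩
  have hLr : (0 : ℝ) < L := by exact_mod_cast hL
  have hur : (0 : ℝ) < u := by exact_mod_cast hu
  -- abbreviations
  set p : Fin J → Fin J → ℤ → ℝ := fun i j s =>
    S.m (fun n => ind (A i) (v * n) * ind (A j) (u * n) * W (v * n + s)) with hp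
  set qb : Fin J → Fin J → ℤ → ℝ := fun i j s =>
    S.m (fun w => ind (A i) (u * w) * ind (A j) (v * w) * (W (u * w + s) * b (u * w - s))) with hqb
  have bi : ∀ (i : Fin J) (r : ℤ), Bdd fun n => ind (A i) (r * n) := fun i r =>
    bdd_comp (bdd_ind (A i)) fun n => r * n
  have bW : ∀ (r s : ℤ), Bdd fun n => W (r * n + s) := fun r s =>
    bdd_comp hWb fun n => r * n + s
  have bb : ∀ (r s : ℤ), Bdd fun n => b (r * n - s) := fun r s =>
    bdd_comp hbb fun n => r * n - s
  have bq : ∀ i j (s : ℤ), Bdd fun w : ℤ =>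
      ind (A i) (u * w) * ind (A j) (v * w) * (W (u * w + s) * b (u * w - s)) := fun i j s =>
    bdd_mul (bdd_mul (bi i u) (bi j v)) (bdd_mul (bW u s) (bb u s))
  have hqb0 : ∀ i j s, 0 ≤ qb i j s := fun i j s =>
    m_nonneg S (bq i j s) fun w => mul_nonneg (mul_nonneg (ind_nonneg _ _) (ind_nonneg _ _))
      (mul_nonneg (hW0 _) (hb _).1)
  have hqbq : ∀ i j (s : ℤ), qb i j s ≤
      S.m (fun w => ind (A i) (u * w) * ind (A j) (v * w) * W (u * w + s)) := by
    intro i j s
    refine m_mono S (bq i j s) (bdd_mul (bdd_mul (bi i u) (bi j v)) (bW u s)) fun w => ?_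
    refine mul_le_mul_of_nonneg_left ?_ (mul_nonneg (ind_nonneg _ _) (ind_nonneg _ _))
    exact mul_le_of_le_one_right (hW0 _) (hb _).2
  -- step 1
  have step1 : ∀ i j (s : ℤ), p i j s * qb i j s ≤ C ^ 2 * Cor S (A i) (A j) u v b +
      mm S (fun n w => (ind (A i) (v * n) * ind (A j) (u * n)) *
        (ind (A i) (u * w) * ind (A j) (v * w)) *
        (W (v * n + s) * W (u * w + s) * |b (v * n + u * w) - b (u * w - s)|)) := by
    intro i j s
    have e1 : p i j s * qb i j s = mm S (fun n w =>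
        (ind (A i) (v * n) * ind (A j) (u * n) * W (v * n + s)) *
        (ind (A i) (u * w) * ind (A j) (v * w) * (W (u * w + s) * b (u * w - s)))) := by
      rw [hp, hqb]
      exact (mm_mul (bdd_mul (bdd_mul (bi i v) (bi j u)) (bW v s)) (bq i j s)).symm
    have b1 : B2 fun n w : ℤ => (ind (A i) (v * n) * ind (A j) (u * n)) *
        (ind (A i) (u * w) * ind (A j) (v * w)) :=
      ((B2.of (bdd_ind (A i)) fun n _ => v * n).mul (B2.of (bdd_ind (A j)) fun n _ => u * n)).mul
        ((B2.of (bdd_ind (A i)) fun _ w => u * w).mul (B2.of (bdd_ind (A j)) fun _ w => v * w))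
    have b2 : B2 fun n w : ℤ => W (v * n + s) * W (u * w + s) :=
      (B2.of hWb fun n _ => v * n + s).mul (B2.of hWb fun _ w => u * w + s)
    have b3 : B2 fun n w : ℤ => b (v * n + u * w) := B2.of hbb fun n w => v * n + u * w
    have b4 : B2 fun n w : ℤ => b (u * w - s) := B2.of hbb fun _ w => u * w - s
    have e2 : Cor S (A i) (A j) u v b = mm S (fun n w =>
        (ind (A i) (v * n) * ind (A j) (u * n)) *
        (ind (A i) (u * w) * ind (A j) (v * w)) * b (v * n + u * w)) := rfl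
    rw [e1, e2, ← mm_smul (C ^ 2) (b1.mul b3),
      ← mm_add ((b1.mul b3).smul (C ^ 2)) (b1.mul (b2.mul (b3.sub b4).abs))]
    refine mm_mono ?_ (((b1.mul b3).smul (C ^ 2)).add (b1.mul (b2.mul (b3.sub b4).abs))) ?_
    · exact (((B2.of (bdd_ind (A i)) fun n _ => v * n).mul
        (B2.of (bdd_ind (A j)) fun n _ => u * n)).mul (B2.of hWb fun n _ => v * n + s)).mul
        (((B2.of (bdd_ind (A i)) fun _ w => u * w).mul
        (B2.of (bdd_ind (A j)) fun _ w => v * w)).mul
        ((B2.of hWb fun _ w => u * w + s).mul b4))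
    · intro n w
      have h1 : 0 ≤ (ind (A i) (v * n) * ind (A j) (u * n)) *
          (ind (A i) (u * w) * ind (A j) (v * w)) :=
        mul_nonneg (mul_nonneg (ind_nonneg _ _) (ind_nonneg _ _))
          (mul_nonneg (ind_nonneg _ _) (ind_nonneg _ _))
      have h2 : 0 ≤ W (v * n + s) * W (u * w + s) := mul_nonneg (hW0 _) (hW0 _)
      have h3 : W (v * n + s) * W (u * w + s) ≤ C ^ 2 := by
        rw [pow_two]; exact mul_le_mul (hWC _) (hWC _) (hW0 _) hC0
      have h4 : b (u * w - s) ≤ b (v * n + u * w) + |b (v * n + u * w) - b (u * w - s)| := by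
        have := neg_abs_le (b (v * n + u * w) - b (u * w - s)); linarith
      have h5 : W (v * n + s) * W (u * w + s) * b (u * w - s) ≤ C ^ 2 * b (v * n + u * w) +
          W (v * n + s) * W (u * w + s) * |b (v * n + u * w) - b (u * w - s)| := by
        have h6 := mul_le_mul_of_nonneg_left h4 h2
        have h7 := mul_le_mul_of_nonneg_right h3 (hb (v * n + u * w)).1
        linarith
      have h8 := mul_le_mul_of_nonneg_left h5 h1
      calc _ = (ind (A i) (v * n) * ind (A j) (u * n)) *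
          (ind (A i) (u * w) * ind (A j) (v * w)) *
          (W (v * n + s) * W (u * w + s) * b (u * w - s)) := by ring
        _ ≤ _ := h8
        _ = _ := by ring
  -- step 2: summation of the errors over the pairs
  have step2 : ∀ s : ℤ, ∑ i, ∑ j, mm S (fun n w => (ind (A i) (v * n) * ind (A j) (u * n)) *
        (ind (A i) (u * w) * ind (A j) (v * w)) *
        (W (v * n + s) * W (u * w + s) * |b (v * n + u * w) - b (u * w - s)|)) ≤
      S.m (fun n => S.m (fun w =>
        W (v * n + s) * W (u * w + s) * |b (v * n + u * w) - b (u * w - s)|)) := by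
    intro s
    have b2 : B2 fun n w : ℤ => W (v * n + s) * W (u * w + s) :=
      (B2.of hWb fun n _ => v * n + s).mul (B2.of hWb fun _ w => u * w + s)
    have b3 : B2 fun n w : ℤ => b (v * n + u * w) := B2.of hbb fun n w => v * n + u * w
    have b4 : B2 fun n w : ℤ => b (u * w - s) := B2.of hbb fun _ w => u * w - s
    have b1 : ∀ i j, B2 fun n w : ℤ => (ind (A i) (v * n) * ind (A j) (u * n)) *
        (ind (A i) (u * w) * ind (A j) (v * w)) := fun i j =>
      ((B2.of (bdd_ind (A i)) fun n _ => v * n).mul (B2.of (bdd_ind (A j)) fun n _ => u * n)).mul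
        ((B2.of (bdd_ind (A i)) fun _ w => u * w).mul (B2.of (bdd_ind (A j)) fun _ w => v * w))
    have b5 : ∀ i j, B2 fun n w : ℤ => (ind (A i) (v * n) * ind (A j) (u * n)) *
        (ind (A i) (u * w) * ind (A j) (v * w)) *
        (W (v * n + s) * W (u * w + s) * |b (v * n + u * w) - b (u * w - s)|) := fun i j =>
      (b1 i j).mul (b2.mul (b3.sub b4).abs)
    have e1 : ∀ i, ∑ j, mm S (fun n w => (ind (A i) (v * n) * ind (A j) (u * n)) *
        (ind (A i) (u * w) * ind (A j) (v * w)) *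
        (W (v * n + s) * W (u * w + s) * |b (v * n + u * w) - b (u * w - s)|)) =
        mm S (fun n w => ∑ j, (ind (A i) (v * n) * ind (A j) (u * n)) *
        (ind (A i) (u * w) * ind (A j) (v * w)) *
        (W (v * n + s) * W (u * w + s) * |b (v * n + u * w) - b (u * w - s)|)) := fun i =>
      (mm_sum Finset.univ fun j _ => b5 i j).symm
    simp only [e1]
    rw [← mm_sum Finset.univ fun i _ => B2.sum Finset.univ fun j _ => b5 i j]
    change _ ≤ mm S (fun n w =>
        W (v * n + s) * W (u * w + s) * |b (v * n + u * w) - b (u * w - s)|)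
    refine mm_mono (B2.sum Finset.univ fun i _ => B2.sum Finset.univ fun j _ => b5 i j)
      (b2.mul (b3.sub b4).abs) fun n w => ?_
    have h2 : 0 ≤ W (v * n + s) * W (u * w + s) * |b (v * n + u * w) - b (u * w - s)| :=
      mul_nonneg (mul_nonneg (hW0 _) (hW0 _)) (abs_nonneg _)
    simp only [← Finset.sum_mul]
    refine mul_le_of_le_one_left h2 ?_
    calc ∑ i, ∑ j, ind (A i) (v * n) * ind (A j) (u * n) *
          (ind (A i) (u * w) * ind (A j) (v * w))
        ≤ ∑ i, ∑ j, ind (A i) (v * n) * ind (A j) (u * n) := by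
          refine Finset.sum_le_sum fun i _ => Finset.sum_le_sum fun j _ => ?_
          refine mul_le_of_le_one_right (mul_nonneg (ind_nonneg _ _) (ind_nonneg _ _)) ?_
          exact mul_le_one₀ (ind_le_one _ _) (ind_nonneg _ _) (ind_le_one _ _)
      _ = (∑ i, ind (A i) (v * n)) * ∑ j, ind (A j) (u * n) := by
          rw [Finset.sum_mul_sum]
      _ ≤ 1 := mul_le_one₀ (sum_ind_le hA _) (sum_ind_nonneg A _) (sum_ind_le hA _)
  -- step 3: pointwise lower bound
  have step3 : ∀ i j (s : ℤ), (2 * lam - η) * qb i j s - lam ^ 2 ≤ p i j s * qb i j s := by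
    intro i j s
    have h1 : qb i j s - η ≤ p i j s := by
      have := hpq i j s; have := hqbq i j s; simp only [hp] at *; linarith
    have h2 := mul_le_mul_of_nonneg_right h1 (hqb0 i j s)
    nlinarith [sq_nonneg (qb i j s - lam)]
  -- step 4: lower bound for the sum of the `qb`
  have step4 : (2 - 2 * η) * S.m b - (1 + η) * (2 * e) ≤
      1 / (L : ℝ) * ∑ s ∈ Finset.range L, ∑ i, ∑ j, qb i j (s : ℤ) := by
    set ex : ℤ → ℝ := fun w => (1 - ∑ i, ind (A i) (u * w)) + (1 - ∑ i, ind (A i) (v * w)) with hex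
    have bs : ∀ r : ℤ, Bdd fun w => ∑ i, ind (A i) (r * w) := fun r =>
      bdd_sum Finset.univ fun i _ => bi i r
    have bex : Bdd ex := bdd_add (bdd_sub (bdd_const 1) (bs u)) (bdd_sub (bdd_const 1) (bs v))
    have hex0 : ∀ w, 0 ≤ ex w := by
      intro w
      have h1 := sum_ind_le hA ((u : ℤ) * w)
      have h2 := sum_ind_le hA ((v : ℤ) * w)
      simp only [hex]; linarith
    have hexm : S.m ex ≤ 2 * e := by
      simp only [hex]
      rw [m_add S (bdd_sub (bdd_const 1) (bs u)) (bdd_sub (bdd_const 1) (bs v))]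
      linarith
    have bX : ∀ s : ℤ, Bdd fun w : ℤ => W (u * w + s) * b (u * w - s) := fun s =>
      bdd_mul (bW u s) (bb u s)
    have beW : ∀ s : ℤ, Bdd fun w : ℤ => ex w * W (u * w + s) := fun s =>
      bdd_mul bex (bW u s)
    have h1 : ∀ s : ℤ, S.m (fun w => W (u * w + s) * b (u * w - s)) -
        S.m (fun w => ex w * W (u * w + s)) ≤ ∑ i, ∑ j, qb i j s := by
      intro s
      have e1 : ∑ i, ∑ j, qb i j s = S.m (fun w => ∑ i, ∑ j,
          ind (A i) (u * w) * ind (A j) (v * w) * (W (u * w + s) * b (u * w - s))) := by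
        rw [m_sum S Finset.univ fun i _ => bdd_sum Finset.univ fun j _ => bq i j s]
        refine Finset.sum_congr rfl fun i _ => ?_
        rw [m_sum S Finset.univ fun j _ => bq i j s]
      rw [e1, ← m_sub S (bX s) (beW s)]
      refine m_mono S (bdd_sub (bX s) (beW s))
        (bdd_sum Finset.univ fun i _ => bdd_sum Finset.univ fun j _ => bq i j s) fun w => ?_
      simp only [← Finset.sum_mul]
      rw [← Finset.sum_mul_sum]
      have hx0 : 0 ≤ W (u * w + s) * b (u * w - s) := mul_nonneg (hW0 _) (hb _).1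
      have hx1 : W (u * w + s) * b (u * w - s) ≤ W (u * w + s) :=
        mul_le_of_le_one_right (hW0 _) (hb _).2
      set a1 := ∑ i, ind (A i) (u * w) with ha1
      set a2 := ∑ i, ind (A i) (v * w) with ha2
      have ha10 : 0 ≤ a1 := sum_ind_nonneg A _
      have ha20 : 0 ≤ a2 := sum_ind_nonneg A _
      have ha11 : a1 ≤ 1 := sum_ind_le hA _
      have ha21 : a2 ≤ 1 := sum_ind_le hA _
      have h3 : 1 - ((1 - a1) + (1 - a2)) ≤ a1 * a2 := by
        nlinarith [mul_nonneg (sub_nonneg.mpr ha11) (sub_nonneg.mpr ha21)]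
      have h4 : ex w = (1 - a1) + (1 - a2) := rfl
      have h5 := mul_le_mul_of_nonneg_right h3 hx0
      have h6 := mul_le_mul_of_nonneg_left hx1 (hex0 w)
      rw [← h4] at h5
      linarith
    -- the average of the first terms
    have h2 : (2 - 2 * η) * S.m b ≤ 1 / (L : ℝ) * ∑ s ∈ Finset.range L,
        S.m (fun w => W (u * w + (s : ℤ)) * b (u * w - (s : ℤ))) := by
      have e1 : ∀ s : ℕ, S.m (fun w => W (u * w + (s : ℤ)) * b (u * w - (s : ℤ))) =
          u * S.m (fun y => (if (u : ℤ) ∣ y + s then W (y + 2 * s) else 0) * b y) := by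
        intro s
        have hF : Bdd fun x : ℤ => W (x + s) * b (x - s) :=
          bdd_mul (bdd_comp hWb fun x => x + s) (bdd_comp hbb fun x => x - s)
        rw [m_dil S hu hF, ← m_shift S (bdd_ite hF fun x => (u : ℤ) ∣ x) (s : ℤ)]
        congr 2
        ext y
        have e2 : y + (s : ℤ) + s = y + 2 * s := by ring
        have e3 : y + (s : ℤ) - s = y := by ring
        rw [e2, e3]
        split_ifs <;> simp
      have bF : ∀ s : ℕ, Bdd fun y : ℤ =>
          (if (u : ℤ) ∣ y + s then W (y + 2 * s) else 0) * b y := fun s =>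
        bdd_mul (bdd_ite (bdd_comp hWb fun y => y + 2 * s) fun y => (u : ℤ) ∣ y + s) hbb
      simp only [e1]
      rw [← Finset.mul_sum, ← m_sum S (Finset.range L) fun s _ => bF s, ← mul_assoc,
        ← m_smul S _ (bdd_sum _ fun s _ => bF s), ← m_smul S _ hbb]
      refine m_mono S (bdd_smul _ hbb) (bdd_smul _ (bdd_sum _ fun s _ => bF s)) fun y => ?_
      by_cases hy : Even y
      · have h3 := mul_le_mul_of_nonneg_right (hUu y hy) (hb y).1
        refine h3.trans (le_of_eq ?_)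
        rw [← Finset.sum_mul]
        ring
      · rw [hbodd y hy, mul_zero]
        simp
    -- the average of the second terms
    have h3 : 1 / (L : ℝ) * ∑ s ∈ Finset.range L, S.m (fun w => ex w * W (u * w + (s : ℤ)))
        ≤ (1 + η) * (2 * e) := by
      have bsum : Bdd fun w : ℤ => ∑ s ∈ Finset.range L, ex w * W (u * w + (s : ℤ)) :=
        bdd_sum (F := fun (s : ℕ) (w : ℤ) => ex w * W (u * w + (s : ℤ))) (Finset.range L)
          fun s _ => beW s
      rw [← m_sum S (F := fun (s : ℕ) (w : ℤ) => ex w * W (u * w + (s : ℤ))) (Finset.range L)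
        fun s _ => beW s, ← m_smul S _ bsum]
      have h4 : S.m (fun w => 1 / (L : ℝ) * ∑ s ∈ Finset.range L, ex w * W (u * w + (s : ℤ))) ≤
          S.m (fun w => (1 + η) * ex w) := by
        refine m_mono S (bdd_smul _ bsum) (bdd_smul _ bex) fun w => ?_
        rw [← Finset.mul_sum]
        have h5 := mul_le_mul_of_nonneg_right (hU1 (u * w)) (hex0 w)
        calc _ = 1 / (L : ℝ) * (∑ s ∈ Finset.range L, W (u * w + (s : ℤ))) * ex w := by ring
          _ ≤ _ := h5
      rw [m_smul S _ bex] at h4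
      exact h4.trans (mul_le_mul_of_nonneg_left hexm (by linarith))
    calc (2 - 2 * η) * S.m b - (1 + η) * (2 * e)
        ≤ 1 / (L : ℝ) * ∑ s ∈ Finset.range L,
            S.m (fun w => W (u * w + (s : ℤ)) * b (u * w - (s : ℤ))) -
          1 / (L : ℝ) * ∑ s ∈ Finset.range L, S.m (fun w => ex w * W (u * w + (s : ℤ))) := by
          linarith
      _ = 1 / (L : ℝ) * ∑ s ∈ Finset.range L,
            (S.m (fun w => W (u * w + (s : ℤ)) * b (u * w - (s : ℤ))) -
              S.m (fun w => ex w * W (u * w + (s : ℤ)))) := by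
          rw [Finset.sum_sub_distrib]; ring
      _ ≤ _ := by
          refine mul_le_mul_of_nonneg_left (Finset.sum_le_sum fun s _ => h1 s) (by positivity)
  -- combination
  have key : ∀ s : ℤ, (2 * lam - η) * (∑ i, ∑ j, qb i j s) - lam ^ 2 * J ^ 2 ≤
      C ^ 2 * (∑ i, ∑ j, Cor S (A i) (A j) u v b) + S.m (fun n => S.m (fun w =>
        W (v * n + s) * W (u * w + s) * |b (v * n + u * w) - b (u * w - s)|)) := by
    intro s
    have h1 : ∑ i : Fin J, ∑ j : Fin J, ((2 * lam - η) * qb i j s - lam ^ 2) ≤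
        ∑ i, ∑ j, (C ^ 2 * Cor S (A i) (A j) u v b +
      mm S (fun n w => (ind (A i) (v * n) * ind (A j) (u * n)) *
        (ind (A i) (u * w) * ind (A j) (v * w)) *
        (W (v * n + s) * W (u * w + s) * |b (v * n + u * w) - b (u * w - s)|))) :=
      Finset.sum_le_sum fun i _ => Finset.sum_le_sum fun j _ => (step3 i j s).trans (step1 i j s)
    have e1 : ∑ i : Fin J, ∑ j : Fin J, ((2 * lam - η) * qb i j s - lam ^ 2) =
        (2 * lam - η) * (∑ i, ∑ j, qb i j s) - lam ^ 2 * J ^ 2 := by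
      simp only [Finset.sum_sub_distrib, ← Finset.mul_sum, Finset.sum_const, Finset.card_univ,
        Fintype.card_fin, nsmul_eq_mul]
      ring
    have e2 := step2 s
    simp only [Finset.sum_add_distrib, ← Finset.mul_sum] at h1
    rw [e1] at h1
    linarith
  have key2 : 1 / (L : ℝ) * ∑ s ∈ Finset.range L,
      ((2 * lam - η) * (∑ i, ∑ j, qb i j (s : ℤ)) - lam ^ 2 * J ^ 2) ≤
      1 / (L : ℝ) * ∑ s ∈ Finset.range L,
      (C ^ 2 * (∑ i, ∑ j, Cor S (A i) (A j) u v b) + S.m (fun n => S.m (fun w =>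
        W (v * n + (s : ℤ)) * W (u * w + (s : ℤ)) *
          |b (v * n + u * w) - b (u * w - (s : ℤ))|))) :=
    mul_le_mul_of_nonneg_left (Finset.sum_le_sum fun s _ => key s) (by positivity)
  rw [Finset.sum_sub_distrib, Finset.sum_add_distrib, Finset.sum_const, Finset.sum_const,
    Finset.card_range, nsmul_eq_mul, nsmul_eq_mul, ← Finset.mul_sum, mul_sub, mul_add] at key2
  have e1 : 1 / (L : ℝ) * (L * (lam ^ 2 * J ^ 2)) = lam ^ 2 * J ^ 2 := by
    field_simp
  have e2 : 1 / (L : ℝ) * (L * (C ^ 2 * (∑ i, ∑ j, Cor S (A i) (A j) u v b))) =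
      C ^ 2 * (∑ i, ∑ j, Cor S (A i) (A j) u v b) := by
    field_simp
  rw [e1, e2] at key2
  have h5 := mul_le_mul_of_nonneg_left step4 (show 0 ≤ 2 * lam - η by linarith)
  have e3 : 1 / (L : ℝ) * ((2 * lam - η) * ∑ s ∈ Finset.range L, ∑ i, ∑ j, qb i j (s : ℤ)) =
      (2 * lam - η) * (1 / (L : ℝ) * ∑ s ∈ Finset.range L, ∑ i, ∑ j, qb i j (s : ℤ)) := by ring
  rw [e3] at key2
  linarith

end Pool.Agent.FinA.M9m
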