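import Mathlib

set_option autoImplicit false

/-!
The logarithmic mean on disjoint windows, and its abstract interface `Mean`.
-/

namespace Pool.Agent.FIN

open Filter Topology Finset

/-- bounded real sequences -/
def Bdd (f : ℕ → ℝ) : Prop := ∃ C : ℝ, ∀ n, |f n| ≤ C

/-- A shift invariant mean with the dilation law and the diagonal property. -/
structure Mean where
  m : (ℕ → ℝ) → ℝ
  add : ∀ f g : ℕ → ℝ, Bdd f → Bdd g → m (fun n => f n + g n) = m f + m g
  smul : ∀ (c : ℝ) (f : ℕ → ℝ), Bdd f → m (fun n => c * f n) = c * m f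
  mono : ∀ f g : ℕ → ℝ, Bdd f → Bdd g → (∀ n, f n ≤ g n) → m f ≤ m g
  one : m (fun _ => 1) = 1
  shift : ∀ f : ℕ → ℝ, Bdd f → m (fun n => f (n + 1)) = m f
  dil : ∀ (r : ℕ) (f : ℕ → ℝ), 0 < r → Bdd f →
    m (fun n => f (r * n)) = r * m (fun n => if r ∣ n then f n else 0)
  fin : ∀ (f : ℕ → ℝ) (N0 : ℕ), (∀ n, N0 ≤ n → f n = 0) → m f = 0
  diag : ∀ (X : Type) (d : X → X → ℝ) (F : ℕ → ℕ → X) (eps : ℕ → ℝ),
    (∃ C : ℝ, ∀ j k n, |d (F j n) (F k n)| ≤ C) →
    (∀ k j, k ≤ j → m (fun n => d (F k n) (F j n)) < eps k) →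
    ∃ J : ℕ → ℕ, (∀ k, m (fun n => if J n < k then 1 else 0) = 0) ∧
      ∀ k, m (fun n => d (F k n) (F (J n) n)) ≤ eps k

namespace Win

/-- window end points -/
def a (i : ℕ) : ℕ := 2 ^ (i.factorial)

lemma a_pos (i : ℕ) : 0 < a i := by unfold a; positivity

lemma one_le_a (i : ℕ) : 1 ≤ a i := a_pos i

lemma a_mono : Monotone a := by
  intro i j h
  exact Nat.pow_le_pow_right (by norm_num) (Nat.factorial_le h)

lemma le_a (i : ℕ) : i ≤ a i := by
  unfold a
  calc i ≤ i.factorial := Nat.self_le_factorial i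
    _ ≤ 2 ^ (i.factorial) := (Nat.lt_two_pow_self).le

/-- the `i`-th window -/
def W (i : ℕ) : Finset ℕ := Ioc (a i) (a (i + 1))

/-- log weight of the window -/
noncomputable def S (i : ℕ) : ℝ := ∑ n ∈ W i, (1 : ℝ) / n

/-- log average over the window -/
noncomputable def E (i : ℕ) (f : ℕ → ℝ) : ℝ := (∑ n ∈ W i, f n / n) / S i

lemma log_le (M N : ℕ) (h : M ≤ N) :
    Real.log (N + 1) - Real.log (M + 1) ≤ ∑ n ∈ Ioc M N, (1 : ℝ) / n := by
  induction N, h using Nat.le_induction with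
  | base => simp
  | succ N hN ih =>
    rw [Finset.sum_Ioc_succ_top (by omega)]
    have hpos : (0 : ℝ) < (N : ℝ) + 1 := by positivity
    have h2 : Real.log ((N : ℝ) + 1 + 1) - Real.log ((N : ℝ) + 1) ≤ 1 / ((N : ℝ) + 1) := by
      rw [← Real.log_div (by positivity) (by positivity)]
      have := Real.log_le_sub_one_of_pos (x := ((N : ℝ) + 1 + 1) / ((N : ℝ) + 1)) (by positivity)
      have h3 : ((N : ℝ) + 1 + 1) / ((N : ℝ) + 1) - 1 = 1 / ((N : ℝ) + 1) := by
        field_simp; ring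
      linarith
    push_cast
    linarith

lemma S_ge (i : ℕ) : ((i : ℝ) * (i.factorial : ℝ) - 1) * Real.log 2 ≤ S i := by
  have h := log_le (a i) (a (i + 1)) (a_mono (Nat.le_succ i))
  have h1 : Real.log ((a i : ℝ) + 1) ≤ ((i.factorial : ℝ) + 1) * Real.log 2 := by
    have : ((a i : ℝ) + 1) ≤ 2 ^ (i.factorial + 1) := by
      have : (a i : ℝ) = 2 ^ (i.factorial) := by simp [a]
      rw [this, pow_succ]
      have : (1 : ℝ) ≤ 2 ^ (i.factorial) := one_le_pow₀ (by norm_num)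
      linarith
    calc Real.log ((a i : ℝ) + 1) ≤ Real.log (2 ^ (i.factorial + 1)) :=
          Real.log_le_log (by positivity) this
      _ = ((i.factorial : ℝ) + 1) * Real.log 2 := by
          rw [Real.log_pow]; push_cast; ring
  have h2 : ((i + 1).factorial : ℝ) * Real.log 2 ≤ Real.log ((a (i + 1) : ℝ) + 1) := by
    have : (2 : ℝ) ^ ((i + 1).factorial) ≤ (a (i + 1) : ℝ) + 1 := by
      have : (a (i + 1) : ℝ) = 2 ^ ((i + 1).factorial) := by simp [a]
      rw [this]; linarith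
    calc ((i + 1).factorial : ℝ) * Real.log 2 = Real.log (2 ^ ((i + 1).factorial)) := by
          rw [Real.log_pow]
      _ ≤ _ := Real.log_le_log (by positivity) this
  have h3 : (((i + 1).factorial : ℕ) : ℝ) = ((i : ℝ) + 1) * (i.factorial : ℝ) := by
    rw [Nat.factorial_succ]; push_cast; ring
  rw [h3] at h2
  unfold S W
  nlinarith [h, h1, h2]

lemma S_nonneg (i : ℕ) : 0 ≤ S i := by
  unfold S
  exact Finset.sum_nonneg fun n _ => by positivity

lemma S_tendsto : Tendsto S atTop atTop := by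
  have h1 : Tendsto (fun i : ℕ => ((i : ℝ) - 1) * Real.log 2) atTop atTop := by
    apply Tendsto.atTop_mul_const (Real.log_pos (by norm_num))
    exact tendsto_atTop_add_const_right _ _ tendsto_natCast_atTop_atTop
  refine tendsto_atTop_mono (fun i => ?_) h1
  refine le_trans ?_ (S_ge i)
  apply mul_le_mul_of_nonneg_right _ (Real.log_nonneg (by norm_num))
  have : (1 : ℝ) ≤ (i.factorial : ℝ) := by exact_mod_cast Nat.one_le_iff_ne_zero.2 (Nat.factorial_ne_zero i)
  have h0 : (0 : ℝ) ≤ i := by positivity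
  nlinarith

lemma sum_abs_le {f : ℕ → ℝ} {C : ℝ} (hf : ∀ n, |f n| ≤ C) (s : Finset ℕ) :
    |∑ n ∈ s, f n / n| ≤ C * ∑ n ∈ s, (1 : ℝ) / n := by
  refine (Finset.abs_sum_le_sum_abs _ _).trans ?_
  rw [Finset.mul_sum]
  refine Finset.sum_le_sum fun n _ => ?_
  rw [abs_div, Nat.abs_cast, mul_one_div]
  exact div_le_div_of_nonneg_right (hf n) (by positivity)

lemma E_abs_le {f : ℕ → ℝ} {C : ℝ} (hf : ∀ n, |f n| ≤ C) (i : ℕ) : |E i f| ≤ C := by
  have hC : 0 ≤ C := (abs_nonneg _).trans (hf 0)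
  unfold E
  rcases (S_nonneg i).eq_or_lt with h | h
  · rw [← h]; simpa using hC
  · rw [abs_div, abs_of_pos h, div_le_iff₀ h]
    exact sum_abs_le hf _

/-- the ultrafilter -/
noncomputable def U : Ultrafilter ℕ := hyperfilter ℕ

lemma U_le : (U : Filter ℕ) ≤ atTop := Nat.hyperfilter_le_atTop

/-- the mean -/
noncomputable def mm (f : ℕ → ℝ) : ℝ := limUnder (U : Filter ℕ) (fun i => E i f)

lemma exists_lim {x : ℕ → ℝ} {C : ℝ} (hx : ∀ i, |x i| ≤ C) :
    ∃ L, Tendsto x (U : Filter ℕ) (𝓝 L) := by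
  have hc : IsCompact (Set.Icc (-C) C) := isCompact_Icc
  have hmem : (U.map x : Filter ℝ) ≤ 𝓟 (Set.Icc (-C) C) := by
    rw [Filter.le_principal_iff]
    have : x ⁻¹' (Set.Icc (-C) C) = Set.univ := by
      ext i; simp only [Set.mem_preimage, Set.mem_univ, iff_true]
      exact abs_le.1 (hx i)
    show x ⁻¹' (Set.Icc (-C) C) ∈ (U : Filter ℕ)
    rw [this]; exact Filter.univ_mem
  obtain ⟨L, _, hL⟩ := hc.ultrafilter_le_nhds (U.map x) hmem
  exact ⟨L, hL⟩

lemma mm_tendsto {f : ℕ → ℝ} (hf : Bdd f) :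
    Tendsto (fun i => E i f) (U : Filter ℕ) (𝓝 (mm f)) := by
  obtain ⟨C, hC⟩ := hf
  exact tendsto_nhds_limUnder (exists_lim (fun i => E_abs_le hC i))

lemma mm_eq {f : ℕ → ℝ} {L : ℝ} (h : Tendsto (fun i => E i f) (U : Filter ℕ) (𝓝 L)) :
    mm f = L := h.limUnder_eq

/-- shift error -/
lemma shift_aux {f : ℕ → ℝ} {C : ℝ} (hf : ∀ n, |f n| ≤ C) (M N : ℕ) (hM : 1 ≤ M) (h : M ≤ N) :
    |∑ n ∈ Ioc M N, (f (n + 1) / n - f n / n) - f (N + 1) / N| ≤ 2 * C / M - C / N := by
  have hC : 0 ≤ C := (abs_nonneg _).trans (hf 0)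
  induction N, h using Nat.le_induction with
  | base =>
    have hM' : (0 : ℝ) < M := by exact_mod_cast hM
    simp only [Finset.Ioc_self, Finset.sum_empty, zero_sub, abs_neg, abs_div, Nat.abs_cast]
    have := div_le_div_of_nonneg_right (hf (M + 1)) hM'.le
    have h2 : 2 * C / (M : ℝ) - C / M = C / M := by ring
    rw [h2]; exact this
  | succ N hN ih =>
    have hN' : (0 : ℝ) < N := by exact_mod_cast (lt_of_lt_of_le hM hN)
    rw [Finset.sum_Ioc_succ_top (by omega)]
    have e : ∑ n ∈ Ioc M N, (f (n + 1) / n - f n / n) +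
        (f (N + 1 + 1) / ((N + 1 : ℕ) : ℝ) - f (N + 1) / ((N + 1 : ℕ) : ℝ)) -
        f (N + 1 + 1) / ((N + 1 : ℕ) : ℝ) =
        (∑ n ∈ Ioc M N, (f (n + 1) / n - f n / n) - f (N + 1) / N) +
        f (N + 1) * (1 / (N : ℝ) - 1 / ((N : ℝ) + 1)) := by
      push_cast; ring
    rw [e]
    refine (abs_add_le _ _).trans ?_
    have hd : 0 ≤ (1 / (N : ℝ) - 1 / ((N : ℝ) + 1)) := by
      rw [sub_nonneg]
      exact one_div_le_one_div_of_le hN' (by linarith)
    have h1 : |f (N + 1) * (1 / (N : ℝ) - 1 / ((N : ℝ) + 1))| ≤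
        C * (1 / (N : ℝ) - 1 / ((N : ℝ) + 1)) := by
      rw [abs_mul, abs_of_nonneg hd]
      exact mul_le_mul_of_nonneg_right (hf _) hd
    have h2 : C * (1 / (N : ℝ) - 1 / ((N : ℝ) + 1)) = C / N - C / ((N : ℝ) + 1) := by ring
    push_cast
    linarith

lemma shift_err {f : ℕ → ℝ} {C : ℝ} (hf : ∀ n, |f n| ≤ C) (i : ℕ) :
    |E i (fun n => f (n + 1)) - E i f| ≤ 3 * C / S i := by
  have hC : 0 ≤ C := (abs_nonneg _).trans (hf 0)
  rcases (S_nonneg i).eq_or_lt with h | h
  · unfold E; rw [← h]; simp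
  · unfold E
    rw [← sub_div, abs_div, abs_of_pos h]
    refine div_le_div_of_nonneg_right ?_ h.le
    rw [← Finset.sum_sub_distrib]
    have h1 := shift_aux hf (a i) (a (i + 1)) (one_le_a i) (a_mono (Nat.le_succ i))
    have hN1 : (1 : ℝ) ≤ (a (i + 1) : ℝ) := by exact_mod_cast one_le_a (i + 1)
    have hM1 : (1 : ℝ) ≤ (a i : ℝ) := by exact_mod_cast one_le_a i
    have h2 : |f (a (i + 1) + 1) / (a (i + 1) : ℝ)| ≤ C := by
      rw [abs_div, Nat.abs_cast]
      exact (div_le_self (abs_nonneg _) hN1).trans (hf _)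
    have h3 : 2 * C / (a i : ℝ) ≤ 2 * C := div_le_self (by linarith) hM1
    have h4 : 0 ≤ C / (a (i + 1) : ℝ) := by positivity
    have h5 := abs_sub_abs_le_abs_sub (∑ n ∈ W i, (f (n + 1) / n - f n / n))
      (f (a (i + 1) + 1) / (a (i + 1) : ℝ))
    unfold W at *
    linarith

/-- dilation error -/
lemma dil_aux (G : ℕ → ℝ) (r : ℕ) (hr : 0 < r) (hG : ∀ k, ¬ r ∣ k → G k = 0) (N : ℕ) :
    ∑ n ∈ Ioc 0 N, G (r * n) = ∑ k ∈ Ioc 0 (r * N), G k := by
  induction N with
  | zero => simp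
  | succ N ih =>
    rw [Finset.sum_Ioc_succ_top (by omega), ih,
      ← Finset.sum_Ioc_consecutive G (Nat.zero_le (r * N)) (Nat.mul_le_mul_left r (Nat.le_succ N))]
    congr 1
    symm
    apply Finset.sum_eq_single
    · intro b hb hne
      apply hG
      rintro ⟨c, rfl⟩
      rw [Finset.mem_Ioc] at hb
      have h1 : N < c := lt_of_mul_lt_mul_left hb.1 (Nat.zero_le r)
      have h2 : c ≤ N + 1 := le_of_mul_le_mul_left hb.2 hr
      exact hne (by congr 1; omega)
    · intro hb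
      exfalso; apply hb
      rw [Finset.mem_Ioc]
      exact ⟨Nat.mul_lt_mul_of_pos_left (Nat.lt_succ_self N) hr, le_rfl⟩

lemma dil_err {f : ℕ → ℝ} {C : ℝ} (hf : ∀ n, |f n| ≤ C) (r : ℕ) (hr : 0 < r) (i : ℕ) :
    |E i (fun n => f (r * n)) - r * E i (fun n => if r ∣ n then f n else 0)| ≤
      2 * r ^ 2 * C / S i := by
  have hC : 0 ≤ C := (abs_nonneg _).trans (hf 0)
  have hr' : (0 : ℝ) < r := by exact_mod_cast hr
  rcases (S_nonneg i).eq_or_lt with h | h
  · unfold E; rw [← h]; simp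
  · set G : ℕ → ℝ := fun k => if r ∣ k then f k / k else 0 with hGdef
    have hG0 : ∀ k, ¬ r ∣ k → G k = 0 := fun k hk => by simp [hGdef, hk]
    have hGb : ∀ k, |G k| ≤ C * (1 / k) := by
      intro k
      by_cases hk : r ∣ k
      · simp only [hGdef, hk, if_true, abs_div, Nat.abs_cast, mul_one_div]
        exact div_le_div_of_nonneg_right (hf k) (by positivity)
      · simp only [hGdef, hk, if_false, abs_zero]; positivity
    have key : ∀ N : ℕ, |∑ k ∈ Ioc 0 (r * N), G k - ∑ k ∈ Ioc 0 N, G k| ≤ C * r := by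
      intro N
      rw [← Finset.sum_Ioc_consecutive G (Nat.zero_le N) (Nat.le_mul_of_pos_left N hr),
        add_sub_cancel_left]
      refine (Finset.abs_sum_le_sum_abs _ _).trans ?_
      rcases Nat.eq_zero_or_pos N with hN | hN
      · subst hN; simp; positivity
      have hN' : (0 : ℝ) < N := by exact_mod_cast hN
      calc ∑ k ∈ Ioc N (r * N), |G k| ≤ ∑ k ∈ Ioc N (r * N), C * (1 / N) := by
            refine Finset.sum_le_sum fun k hk => (hGb k).trans ?_
            rw [Finset.mem_Ioc] at hk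
            apply mul_le_mul_of_nonneg_left _ hC
            apply one_div_le_one_div_of_le hN'
            exact_mod_cast hk.1.le
        _ = ((r * N - N : ℕ) : ℝ) * (C * (1 / N)) := by
            rw [Finset.sum_const, Nat.card_Ioc, nsmul_eq_mul]
        _ ≤ ((r * N : ℕ) : ℝ) * (C * (1 / N)) := by
            apply mul_le_mul_of_nonneg_right _ (by positivity)
            exact_mod_cast Nat.sub_le _ _
        _ = C * r := by push_cast; field_simp
    have e1 : ∑ n ∈ W i, f (r * n) / n = r * ∑ n ∈ W i, G (r * n) := by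
      rw [Finset.mul_sum]
      refine Finset.sum_congr rfl fun n hn => ?_
      rw [W, Finset.mem_Ioc] at hn
      have hn0 : (0 : ℝ) < n := by exact_mod_cast lt_of_le_of_lt (Nat.zero_le _) hn.1
      simp only [hGdef, dvd_mul_right, if_true]
      push_cast
      field_simp
    have e2 : ∑ n ∈ W i, (if r ∣ n then f n else 0) / (n : ℝ) = ∑ n ∈ W i, G n := by
      refine Finset.sum_congr rfl fun n _ => ?_
      by_cases hk : r ∣ n <;> simp [hGdef, hk]
    have sp : ∀ H : ℕ → ℝ, ∑ n ∈ W i, H n = ∑ n ∈ Ioc 0 (a (i + 1)), H n - ∑ n ∈ Ioc 0 (a i), H n := by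
      intro H
      rw [W, ← Finset.sum_Ioc_consecutive H (Nat.zero_le (a i)) (a_mono (Nat.le_succ i))]
      ring
    unfold E
    rw [e1, e2, ← mul_div_assoc, ← sub_div, abs_div, abs_of_pos h]
    refine div_le_div_of_nonneg_right ?_ h.le
    rw [← mul_sub, abs_mul, Nat.abs_cast, sp (fun n => G (r * n)), sp G, dil_aux G r hr hG0,
      dil_aux G r hr hG0]
    have k1 := key (a (i + 1))
    have k2 := key (a i)
    rw [abs_le] at k1 k2
    have : |(∑ k ∈ Ioc 0 (r * a (i + 1)), G k - ∑ k ∈ Ioc 0 (r * a i), G k) -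
        (∑ n ∈ Ioc 0 (a (i + 1)), G n - ∑ n ∈ Ioc 0 (a i), G n)| ≤ 2 * C * r := by
      rw [abs_le]; constructor <;> linarith
    calc (r : ℝ) * _ ≤ r * (2 * C * r) := mul_le_mul_of_nonneg_left this hr'.le
      _ = 2 * r ^ 2 * C := by ring

lemma div_S_tendsto (c : ℝ) : Tendsto (fun i => c / S i) (U : Filter ℕ) (𝓝 0) :=
  (tendsto_const_nhds.div_atTop S_tendsto).mono_left U_le

lemma mm_add {f g : ℕ → ℝ} (hf : Bdd f) (hg : Bdd g) : mm (fun n => f n + g n) = mm f + mm g := by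
  apply mm_eq
  refine ((mm_tendsto hf).add (mm_tendsto hg)).congr fun i => ?_
  simp only [E, add_div, Finset.sum_add_distrib]

lemma mm_smul (c : ℝ) {f : ℕ → ℝ} (hf : Bdd f) : mm (fun n => c * f n) = c * mm f := by
  apply mm_eq
  refine ((mm_tendsto hf).const_mul c).congr fun i => ?_
  simp only [E, mul_div_assoc, ← Finset.mul_sum]

lemma mm_mono {f g : ℕ → ℝ} (hf : Bdd f) (hg : Bdd g) (h : ∀ n, f n ≤ g n) : mm f ≤ mm g := by
  refine le_of_tendsto_of_tendsto' (mm_tendsto hf) (mm_tendsto hg) fun i => ?_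
  refine div_le_div_of_nonneg_right (Finset.sum_le_sum fun n _ => ?_) (S_nonneg i)
  exact div_le_div_of_nonneg_right (h n) (by positivity)

lemma mm_one : mm (fun _ => 1) = 1 := by
  apply mm_eq
  refine (tendsto_const_nhds (x := (1 : ℝ))).congr' ?_
  have : ∀ᶠ i in atTop, 0 < S i := S_tendsto.eventually_gt_atTop 0
  filter_upwards [this.filter_mono U_le] with i hi
  unfold E S
  exact (div_self (ne_of_gt hi)).symm

lemma bdd_shift {f : ℕ → ℝ} (hf : Bdd f) : Bdd (fun n => f (n + 1)) := by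
  obtain ⟨C, hC⟩ := hf; exact ⟨C, fun n => hC _⟩

lemma bdd_dil (r : ℕ) {f : ℕ → ℝ} (hf : Bdd f) : Bdd (fun n => f (r * n)) := by
  obtain ⟨C, hC⟩ := hf; exact ⟨C, fun n => hC _⟩

lemma bdd_ite (r : ℕ) {f : ℕ → ℝ} (hf : Bdd f) : Bdd (fun n => if r ∣ n then f n else 0) := by
  obtain ⟨C, hC⟩ := hf
  refine ⟨C, fun n => ?_⟩
  by_cases h : r ∣ n
  · simpa [h] using hC n
  · simpa [h] using (abs_nonneg _).trans (hC n)

lemma mm_shift {f : ℕ → ℝ} (hf : Bdd f) : mm (fun n => f (n + 1)) = mm f := by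
  obtain ⟨C, hC⟩ := id hf
  have h1 := (mm_tendsto (bdd_shift hf)).sub (mm_tendsto hf)
  have h2 : Tendsto (fun i => E i (fun n => f (n + 1)) - E i f) (U : Filter ℕ) (𝓝 0) :=
    squeeze_zero_norm (fun i => by rw [Real.norm_eq_abs]; exact shift_err hC i)
      (div_S_tendsto (3 * C))
  exact sub_eq_zero.1 (tendsto_nhds_unique h1 h2)

lemma mm_dil (r : ℕ) {f : ℕ → ℝ} (hr : 0 < r) (hf : Bdd f) :
    mm (fun n => f (r * n)) = r * mm (fun n => if r ∣ n then f n else 0) := by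
  obtain ⟨C, hC⟩ := id hf
  have h1 := (mm_tendsto (bdd_dil r hf)).sub ((mm_tendsto (bdd_ite r hf)).const_mul (r : ℝ))
  have h2 : Tendsto (fun i => E i (fun n => f (r * n)) -
      r * E i (fun n => if r ∣ n then f n else 0)) (U : Filter ℕ) (𝓝 0) :=
    squeeze_zero_norm (fun i => by rw [Real.norm_eq_abs]; exact dil_err hC r hr i)
      (div_S_tendsto (2 * r ^ 2 * C))
  exact sub_eq_zero.1 (tendsto_nhds_unique h1 h2)

lemma mm_fin {f : ℕ → ℝ} (N0 : ℕ) (h : ∀ n, N0 ≤ n → f n = 0) : mm f = 0 := by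
  apply mm_eq
  refine (tendsto_const_nhds (x := (0 : ℝ))).congr' ?_
  filter_upwards [(eventually_ge_atTop N0).filter_mono U_le] with i hi
  unfold E
  rw [Finset.sum_eq_zero, zero_div]
  intro n hn
  rw [W, Finset.mem_Ioc] at hn
  rw [h n (le_trans (hi.trans (le_a i)) hn.1.le), zero_div]

/-- index of the window containing `n` -/
noncomputable def ix (n : ℕ) : ℕ := sInf {i | n ≤ a (i + 1)}

lemma ix_eq {n i : ℕ} (hn : n ∈ W i) (hi : 1 ≤ i) : ix n = i := by
  rw [W, Finset.mem_Ioc] at hn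
  apply le_antisymm
  · exact Nat.sInf_le hn.2
  · have hne : {i | n ≤ a (i + 1)}.Nonempty := ⟨i, hn.2⟩
    have h1 : n ≤ a (ix n + 1) := Nat.sInf_mem hne
    by_contra hlt
    push Not at hlt
    have : a (ix n + 1) ≤ a i := a_mono (by omega)
    omega

open Classical in
lemma mm_diag (X : Type) (d : X → X → ℝ) (F : ℕ → ℕ → X) (eps : ℕ → ℝ)
    (hb : ∃ C : ℝ, ∀ j k n, |d (F j n) (F k n)| ≤ C)
    (h : ∀ k j, k ≤ j → mm (fun n => d (F k n) (F j n)) < eps k) :
    ∃ J : ℕ → ℕ, (∀ k, mm (fun n => if J n < k then 1 else 0) = 0) ∧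
      ∀ k, mm (fun n => d (F k n) (F (J n) n)) ≤ eps k := by
  obtain ⟨C, hC⟩ := hb
  let P : ℕ → ℕ → Prop := fun i j => j ≤ i ∧ 1 ≤ i ∧ ∀ k, k ≤ j →
    E i (fun n => d (F k n) (F j n)) < eps k
  have hP : ∀ j, ∀ᶠ i in (U : Filter ℕ), P i j := by
    intro j
    have h1 : ∀ᶠ i in (U : Filter ℕ), ∀ k ∈ Finset.range (j + 1),
        E i (fun n => d (F k n) (F j n)) < eps k := by
      rw [Filter.eventually_all_finset]
      intro k hk
      have hk' : k ≤ j := by rw [Finset.mem_range] at hk; omega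
      have hbd : Bdd (fun n => d (F k n) (F j n)) := ⟨C, fun n => hC _ _ _⟩
      exact (mm_tendsto hbd).eventually (gt_mem_nhds (h k j hk')) 
    filter_upwards [h1, (eventually_ge_atTop (max j 1)).filter_mono U_le] with i hi1 hi2
    refine ⟨(le_max_left _ _).trans hi2, (le_max_right _ _).trans hi2, fun k hk => hi1 k ?_⟩
    rw [Finset.mem_range]; omega
  let Jw : ℕ → ℕ := fun i => Nat.findGreatest (P i) i
  refine ⟨fun n => Jw (ix n), ?_, ?_⟩
  · intro k
    apply mm_eq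
    refine (tendsto_const_nhds (x := (0 : ℝ))).congr' ?_
    filter_upwards [hP k] with i hi
    unfold E
    rw [Finset.sum_eq_zero, zero_div]
    intro n hn
    have hx := ix_eq hn hi.2.1
    have hk : k ≤ Jw i := Nat.le_findGreatest hi.1 hi
    simp only [hx, if_neg (not_lt.2 hk), zero_div]
  · intro k
    have hbd : Bdd (fun n => d (F k n) (F (Jw (ix n)) n)) := ⟨C, fun n => hC _ _ _⟩
    refine le_of_tendsto (mm_tendsto hbd) ?_
    filter_upwards [hP k] with i hi
    have hk : k ≤ Jw i := Nat.le_findGreatest hi.1 hi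
    have hs : P i (Jw i) := Nat.findGreatest_spec hi.1 hi
    refine le_of_eq_of_le ?_ (hs.2.2 k hk).le
    unfold E
    congr 1
    refine Finset.sum_congr rfl fun n hn => ?_
    simp only [ix_eq hn hi.2.1]

end Win

/-- the log mean along disjoint windows -/
noncomputable def logMean : Mean where
  m := Win.mm
  add := fun _ _ hf hg => Win.mm_add hf hg
  smul := fun c _ hf => Win.mm_smul c hf
  mono := fun _ _ hf hg h => Win.mm_mono hf hg h
  one := Win.mm_one
  shift := fun _ hf => Win.mm_shift hf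
  dil := fun r _ hr hf => Win.mm_dil r hr hf
  fin := fun _ N0 h => Win.mm_fin N0 h
  diag := Win.mm_diag

end Pool.Agent.FIN
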