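import Pool.Agent.Lib.MP_60922f_co.FIN.Mean55

set_option autoImplicit false

namespace Pool.Agent.FIN.Win

open Filter Topology Finset

/-- log average over the `i`-th window of a function on the integers -/
noncomputable def EZ (i : ℕ) (F : ℤ → ℝ) : ℝ := E i (fun n => F n)

lemma EZ_step {F : ℤ → ℝ} {C : ℝ} (hF : ∀ n, |F n| ≤ C) (i : ℕ) :
    |EZ i (fun n => F (n + 1)) - EZ i F| ≤ 3 * C / S i := by
  have := shift_err (f := fun n : ℕ => F n) (fun n => hF n) i
  simpa [EZ] using this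

lemma EZ_shift_nat {F : ℤ → ℝ} {C : ℝ} (hF : ∀ n, |F n| ≤ C) (i s : ℕ) :
    |EZ i (fun n => F (n + s)) - EZ i F| ≤ s * (3 * C / S i) := by
  induction s with
  | zero => simp
  | succ s ih =>
    have h1 := EZ_step (F := fun n => F (n + s)) (fun n => hF _) i
    have e : (fun n : ℤ => F (n + 1 + s)) = fun n : ℤ => F (n + (s + 1 : ℕ)) := by
      funext n; congr 1; push_cast; ring
    simp only [e] at h1
    calc |EZ i (fun n => F (n + (s + 1 : ℕ))) - EZ i F|
        ≤ |EZ i (fun n => F (n + (s + 1 : ℕ))) - EZ i (fun n => F (n + s))| +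
          |EZ i (fun n => F (n + s)) - EZ i F| := abs_sub_le _ _ _
      _ ≤ 3 * C / S i + s * (3 * C / S i) := add_le_add h1 ih
      _ = ((s + 1 : ℕ) : ℝ) * (3 * C / S i) := by push_cast; ring

lemma EZ_shift {F : ℤ → ℝ} {C : ℝ} (hF : ∀ n, |F n| ≤ C) (i : ℕ) (s : ℤ) :
    |EZ i (fun n => F (n + s)) - EZ i F| ≤ |(s : ℝ)| * (3 * C / S i) := by
  obtain ⟨t, rfl | rfl⟩ := s.eq_nat_or_neg
  · simpa using EZ_shift_nat hF i t
  · have h := EZ_shift_nat (F := fun n => F (n + -(t : ℤ))) (fun n => hF _) i t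
    have e : (fun n : ℤ => F (n + (t : ℤ) + -(t : ℤ))) = F := by
      funext n; congr 1; ring
    simp only [e] at h
    rw [abs_sub_comm]
    simpa using h

lemma EZ_dil {F : ℤ → ℝ} {C : ℝ} (hF : ∀ n, |F n| ≤ C) (r : ℕ) (hr : 0 < r) (i : ℕ) :
    |EZ i (fun n => F (r * n)) - r * EZ i (fun n => if (r : ℤ) ∣ n then F n else 0)| ≤
      2 * r ^ 2 * C / S i := by
  have := dil_err (f := fun n : ℕ => F n) (fun n => hF n) r hr i
  simpa [EZ, Int.natCast_dvd_natCast] using this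

end Pool.Agent.FIN.Win
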