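import Mathlib

/-!
# An elementary Wiener lemma for linear isometries

`T` is a linear isometry of a complex inner product space. Notation:
`S T w N g = ∑_{n < N} w ^ n • T^[n] g` and
`En T g N = (1 / N ^ 2) ∑_{i, j < N} ‖⟪T^[i] g, T^[j] g⟫‖ ^ 2`.

* `En_le_of_S_le`: `En T g M ≤ 8 F ‖g‖ ^ 2` if `‖S T w (2 M) g‖ ^ 2 ≤ F (2 M) ^ 2` on the circle.
* `corr_le`: `∑_{j < N} ‖⟪T^[k + j] g, ψ⟫‖ ^ 2 ≤ N ‖ψ‖ ^ 2 √(En T g N)`.
* `wiener_ortho`, `wiener`: energy tends to zero orthogonally to the eigenvectors, and the finite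
  splitting of a vector in eigenvectors and a vector of small energy.
-/

open Finset Filter Topology
open scoped InnerProductSpace ComplexConjugate

namespace Pool.Agent.FIN.W69

section roots

lemma root_sum {N : ℕ} {ζ : ℂ} (hζ : IsPrimitiveRoot ζ N) (m : ℤ) :
    ∑ k ∈ range N, (ζ ^ m) ^ k = if (N : ℤ) ∣ m then (N : ℂ) else 0 := by
  split_ifs with h
  · have : ζ ^ m = 1 := (hζ.zpow_eq_one_iff_dvd m).2 h
    simp [this]
  · have h1 : ζ ^ m ≠ 1 := fun h' => h ((hζ.zpow_eq_one_iff_dvd m).1 h')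
    rw [geom_sum_eq h1]
    have h2 : (ζ ^ m) ^ N = 1 := by
      rw [← zpow_natCast, ← zpow_mul, mul_comm, zpow_mul, zpow_natCast, hζ.pow_eq_one, one_zpow]
    rw [h2]; simp

lemma conj_zpow_pow {ζ : ℂ} (h1 : ‖ζ‖ = 1) (d : ℤ) (k : ℕ) :
    (starRingEnd ℂ) ((ζ ^ d) ^ k) = (ζ ^ (-d)) ^ k := by
  have : (starRingEnd ℂ) ζ = ζ⁻¹ := by
    rw [Complex.inv_def, Complex.normSq_eq_norm_sq, h1]; simp
  rw [map_pow, map_zpow₀, this, inv_zpow', ]

variable {E : Type*} [NormedAddCommGroup E] [InnerProductSpace ℂ E]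

lemma parseval {N : ℕ} (hN : 0 < N) {ζ : ℂ} (hζ : IsPrimitiveRoot ζ N) (s : Finset ℤ)
    (hs : ∀ a ∈ s, ∀ b ∈ s, (N : ℤ) ∣ a - b → a = b) (x : ℤ → E) :
    ∑ k ∈ range N, ‖∑ d ∈ s, ((ζ ^ d) ^ k) • x d‖ ^ 2 = N * ∑ d ∈ s, ‖x d‖ ^ 2 := by
  have hnorm : ‖ζ‖ = 1 := hζ.norm'_eq_one hN.ne'
  have hz : ζ ≠ 0 := hζ.ne_zero hN.ne'
  have key : ((∑ k ∈ range N, ‖∑ d ∈ s, ((ζ ^ d) ^ k) • x d‖ ^ 2 : ℝ) : ℂ)
      = ((N * ∑ d ∈ s, ‖x d‖ ^ 2 : ℝ) : ℂ) := by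
    push_cast
    have h1 : ∀ k ∈ range N, ((‖∑ d ∈ s, ((ζ ^ d) ^ k) • x d‖ : ℂ)) ^ 2
        = ∑ d ∈ s, ∑ e ∈ s, (ζ ^ (e - d)) ^ k * inner ℂ (x d) (x e) := by
      intro k _
      have := inner_self_eq_norm_sq_to_K (𝕜 := ℂ) (∑ d ∈ s, ((ζ ^ d) ^ k) • x d)
      rw [← Complex.coe_algebraMap, ← this] 
      rw [sum_inner]
      refine sum_congr rfl fun d _ => ?_
      rw [inner_sum]
      refine sum_congr rfl fun e _ => ?_
      rw [inner_smul_left, inner_smul_right, conj_zpow_pow hnorm, ← mul_assoc, ← mul_pow,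
        ← zpow_add₀ hz]
      congr 3; ring
    rw [sum_congr rfl h1, sum_comm]
    have h2 : ∀ d ∈ s, ∑ k ∈ range N, ∑ e ∈ s, (ζ ^ (e - d)) ^ k * inner ℂ (x d) (x e)
        = (N : ℂ) * (‖x d‖ : ℂ) ^ 2 := by
      intro d hd
      rw [sum_comm]
      have h3 : ∀ e ∈ s, ∑ k ∈ range N, (ζ ^ (e - d)) ^ k * inner ℂ (x d) (x e)
          = if e = d then (N : ℂ) * (‖x d‖ : ℂ) ^ 2 else 0 := by
        intro e he
        rw [← sum_mul, root_sum hζ]
        by_cases hed : e = d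
        · subst hed
          simp
        · rw [if_neg hed, if_neg (fun h => hed (hs e he d hd h)), zero_mul]
      rw [sum_congr rfl h3, sum_ite_eq' s d, if_pos hd]
    rw [sum_congr rfl h2, mul_sum]
  exact_mod_cast key

end roots

section basics

variable {H : Type*} [NormedAddCommGroup H] [InnerProductSpace ℂ H] (T : H →ₗᵢ[ℂ] H)

lemma it_add (n : ℕ) (x y : H) : T^[n] (x + y) = T^[n] x + T^[n] y := by
  induction n generalizing x y with
  | zero => rfl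
  | succ n ih => rw [Function.iterate_succ_apply, map_add, ih]; rfl

lemma it_smul (n : ℕ) (c : ℂ) (x : H) : T^[n] (c • x) = c • T^[n] x := by
  induction n generalizing x with
  | zero => rfl
  | succ n ih => rw [Function.iterate_succ_apply, map_smul, ih]; rfl

lemma it_zero (n : ℕ) : T^[n] (0 : H) = 0 := by
  induction n with
  | zero => rfl
  | succ n ih => rw [Function.iterate_succ_apply, map_zero, ih]

lemma it_sum {ι : Type*} (s : Finset ι) (n : ℕ) (x : ι → H) :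
    T^[n] (∑ i ∈ s, x i) = ∑ i ∈ s, T^[n] (x i) := by
  classical
  induction s using Finset.induction_on with
  | empty => simp
  | insert a s ha ih => rw [sum_insert ha, sum_insert ha, it_add, ih]

lemma it_inner (n : ℕ) (x y : H) : inner ℂ (T^[n] x) (T^[n] y) = inner ℂ x y := by
  induction n generalizing x y with
  | zero => rfl
  | succ n ih => rw [Function.iterate_succ_apply, Function.iterate_succ_apply, ih,
      T.inner_map_map]

lemma it_norm (n : ℕ) (x : H) : ‖T^[n] x‖ = ‖x‖ := by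
  induction n generalizing x with
  | zero => rfl
  | succ n ih => rw [Function.iterate_succ_apply, ih, T.norm_map]

/-- the correlation sequence -/
noncomputable def gam (g : H) (d : ℤ) : ℂ :=
  if 0 ≤ d then inner ℂ g (T^[d.toNat] g) else inner ℂ (T^[(-d).toNat] g) g

lemma gam_eq (g : H) (i j : ℕ) : inner ℂ (T^[i] g) (T^[j] g) = gam T g ((j : ℤ) - i) := by
  unfold gam
  split_ifs with h
  · have hij : i ≤ j := by omega
    obtain ⟨k, rfl⟩ := Nat.exists_eq_add_of_le hij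
    have : (((i + k : ℕ) : ℤ) - i).toNat = k := by omega
    rw [this, Function.iterate_add_apply, it_inner]
  · have hij : j ≤ i := by omega
    obtain ⟨k, rfl⟩ := Nat.exists_eq_add_of_le hij
    have : (-((j : ℤ) - ((j + k : ℕ) : ℤ))).toNat = k := by omega
    rw [this, Function.iterate_add_apply, it_inner]

/-- twisted sums -/
noncomputable def S (w : ℂ) (N : ℕ) (g : H) : H := ∑ n ∈ range N, w ^ n • T^[n] g

/-- mean square correlation -/
noncomputable def En (g : H) (N : ℕ) : ℝ :=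
  (1 / (N : ℝ) ^ 2) * ∑ i ∈ range N, ∑ j ∈ range N, ‖inner ℂ (T^[i] g) (T^[j] g)‖ ^ 2

lemma En_nonneg (g : H) (N : ℕ) : 0 ≤ En T g N := by
  unfold En; positivity

/-- number of pairs with a given difference -/
def rr (N : ℕ) (d : ℤ) : ℕ :=
  #{p ∈ range N ×ˢ range N | ((p.2 : ℕ) : ℤ) - ((p.1 : ℕ) : ℤ) = d}

lemma rr_ge (M : ℕ) (d : ℤ) (hd : d ∈ Ioo (-(M : ℤ)) M) : M ≤ rr (2 * M) d := by
  rw [mem_Ioo] at hd
  unfold rr
  have hinj : ∀ (a : ℤ), Function.Injective (fun i : ℕ => ((i, i) : ℕ × ℕ)) := by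
    intro a x y h; simpa using h
  by_cases h0 : 0 ≤ d
  · obtain ⟨e, rfl⟩ := Int.eq_ofNat_of_zero_le h0
    calc M = #((range M).image (fun i : ℕ => ((i, i + e) : ℕ × ℕ))) := by
          rw [card_image_of_injective _ (fun x y h => by simpa using (Prod.ext_iff.1 h).1),
            card_range]
      _ ≤ _ := by
          refine card_le_card fun p hp => ?_
          simp only [mem_image, mem_range] at hp
          obtain ⟨i, hi, rfl⟩ := hp
          simp only [mem_filter, mem_product, mem_range]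
          refine ⟨⟨by omega, by omega⟩, by push_cast; ring⟩
  · obtain ⟨e, he⟩ := Int.eq_ofNat_of_zero_le (show 0 ≤ -d by omega)
    calc M = #((range M).image (fun i : ℕ => ((i + e, i) : ℕ × ℕ))) := by
          rw [card_image_of_injective _ (fun x y h => by simpa using (Prod.ext_iff.1 h).2),
            card_range]
      _ ≤ _ := by
          refine card_le_card fun p hp => ?_
          simp only [mem_image, mem_range] at hp
          obtain ⟨i, hi, rfl⟩ := hp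
          simp only [mem_filter, mem_product, mem_range]
          refine ⟨⟨by omega, by omega⟩, by push_cast; omega⟩

lemma S_norm_sq (g : H) {ζ : ℂ} (hζ : ‖ζ‖ = 1) (k N : ℕ) :
    ((‖S T (ζ ^ k) N g‖ ^ 2 : ℝ) : ℂ)
      = ∑ d ∈ Ioo (-(N : ℤ)) N, (ζ ^ d) ^ k • ((rr N d : ℂ) * gam T g d) := by
  have hz : ζ ≠ 0 := by
    intro h; simp [h] at hζ
  have h1 : ((‖S T (ζ ^ k) N g‖ ^ 2 : ℝ) : ℂ)
      = ∑ p ∈ range N ×ˢ range N, (ζ ^ (((p.2 : ℕ) : ℤ) - ((p.1 : ℕ) : ℤ))) ^ k *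
          gam T g (((p.2 : ℕ) : ℤ) - ((p.1 : ℕ) : ℤ)) := by
    push_cast
    rw [← Complex.coe_algebraMap, ← inner_self_eq_norm_sq_to_K (𝕜 := ℂ), S, sum_inner,
      sum_product]
    refine sum_congr rfl fun i _ => ?_
    rw [inner_sum]
    refine sum_congr rfl fun j _ => ?_
    rw [inner_smul_left, inner_smul_right, gam_eq, ← mul_assoc]
    congr 1
    have e1 : (ζ ^ k) ^ i = (ζ ^ (i : ℤ)) ^ k := by
      rw [zpow_natCast, ← pow_mul, ← pow_mul, mul_comm]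
    have e2 : (ζ ^ k) ^ j = (ζ ^ (j : ℤ)) ^ k := by
      rw [zpow_natCast, ← pow_mul, ← pow_mul, mul_comm]
    rw [e1, e2, conj_zpow_pow hζ, ← mul_pow, ← zpow_add₀ hz]
    congr 2; ring
  rw [h1]
  have hmap : ∀ p ∈ range N ×ˢ range N,
      (((p.2 : ℕ) : ℤ) - ((p.1 : ℕ) : ℤ)) ∈ Ioo (-(N : ℤ)) N := by
    intro p hp
    rw [mem_product, mem_range, mem_range] at hp
    rw [mem_Ioo]; omega
  rw [← sum_fiberwise_of_maps_to hmap]
  refine sum_congr rfl fun d _ => ?_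
  have : ∀ p ∈ (range N ×ˢ range N).filter
      (fun p : ℕ × ℕ => ((p.2 : ℕ) : ℤ) - ((p.1 : ℕ) : ℤ) = d),
      (ζ ^ (((p.2 : ℕ) : ℤ) - ((p.1 : ℕ) : ℤ))) ^ k *
          gam T g (((p.2 : ℕ) : ℤ) - ((p.1 : ℕ) : ℤ)) = (ζ ^ d) ^ k * gam T g d := by
    intro p hp
    rw [mem_filter] at hp
    rw [hp.2]
  rw [sum_congr rfl this, sum_const, nsmul_eq_mul, smul_eq_mul]
  unfold rr
  ring

/-- small twisted sums give small energy -/
theorem En_le_of_S_le (g : H) {M : ℕ} (hM : 0 < M) {F : ℝ} 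
    (hF : ∀ w : ℂ, ‖w‖ = 1 → ‖S T w (2 * M) g‖ ^ 2 ≤ F * (2 * M : ℝ) ^ 2) :
    En T g M ≤ 8 * F * ‖g‖ ^ 2 := by
  set N := 2 * M with hN
  have hN0 : 0 < 2 * N := by omega
  obtain ⟨ζ, hζ⟩ : ∃ ζ : ℂ, IsPrimitiveRoot ζ (2 * N) :=
    ⟨_, Complex.isPrimitiveRoot_exp (2 * N) hN0.ne'⟩
  have hnorm : ‖ζ‖ = 1 := hζ.norm'_eq_one hN0.ne'
  -- first Parseval
  have hP1 : ∑ k ∈ range (2 * N), ‖S T (ζ ^ k) N g‖ ^ 2 = (2 * N : ℕ) * (N * ‖g‖ ^ 2) := by
    have h := parseval (E := H) hN0 hζ ((range N).map ⟨(fun n : ℕ => (n : ℤ)),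
      Nat.cast_injective⟩) (by
        intro a ha b hb hab
        simp only [Finset.mem_map, mem_range, Function.Embedding.coeFn_mk] at ha hb
        obtain ⟨a', ha', rfl⟩ := ha
        obtain ⟨b', hb', rfl⟩ := hb
        have := Int.eq_zero_of_abs_lt_dvd hab (by rw [abs_lt]; push_cast; omega)
        omega) (fun d => T^[d.toNat] g)
    simp only [sum_map, Function.Embedding.coeFn_mk, Int.toNat_natCast, it_norm, sum_const,
      card_map, card_range, nsmul_eq_mul] at h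
    rw [← h]
    refine sum_congr rfl fun k _ => ?_
    congr 2
    unfold S
    refine sum_congr rfl fun n _ => ?_
    rw [zpow_natCast, ← pow_mul, ← pow_mul, mul_comm]
  -- second Parseval
  have hP2 : ∑ k ∈ range (2 * N), (‖S T (ζ ^ k) N g‖ ^ 2) ^ 2
      = (2 * N : ℕ) * ∑ d ∈ Ioo (-(N : ℤ)) N, ((rr N d : ℝ) * ‖gam T g d‖) ^ 2 := by
    have h := parseval (E := ℂ) hN0 hζ (Ioo (-(N : ℤ)) N) (by
        intro a ha b hb hab
        rw [mem_Ioo] at ha hb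
        have := Int.eq_zero_of_abs_lt_dvd hab (by rw [abs_lt]; push_cast; omega)
        omega) (fun d => (rr N d : ℂ) * gam T g d)
    have h2 : ∀ k ∈ range (2 * N), (‖S T (ζ ^ k) N g‖ ^ 2) ^ 2
        = ‖∑ d ∈ Ioo (-(N : ℤ)) N, (ζ ^ d) ^ k • ((rr N d : ℂ) * gam T g d)‖ ^ 2 := by
      intro k _
      rw [← S_norm_sq T g hnorm k N, Complex.norm_real, Real.norm_eq_abs, sq_abs]
    rw [sum_congr rfl h2, h]
    congr 1
    refine sum_congr rfl fun d _ => ?_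
    rw [norm_mul, Complex.norm_natCast]
  -- comparison
  have hF' : ∀ k ∈ range (2 * N), (‖S T (ζ ^ k) N g‖ ^ 2) ^ 2
      ≤ (F * (2 * M : ℝ) ^ 2) * ‖S T (ζ ^ k) N g‖ ^ 2 := by
    intro k _
    rw [sq (‖S T (ζ ^ k) N g‖ ^ 2)]
    exact mul_le_mul_of_nonneg_right (hF _ (by rw [norm_pow, hnorm, one_pow])) (by positivity)
  have h3 := sum_le_sum hF'
  rw [hP2, ← mul_sum, hP1] at h3
  have hNR : (0 : ℝ) < ((2 * N : ℕ) : ℝ) := by exact_mod_cast hN0
  have h4 : ∑ d ∈ Ioo (-(N : ℤ)) N, ((rr N d : ℝ) * ‖gam T g d‖) ^ 2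
      ≤ (F * (2 * M : ℝ) ^ 2) * (N * ‖g‖ ^ 2) := by
    refine le_of_mul_le_mul_left ?_ hNR
    calc _ ≤ _ := h3
      _ = _ := by ring
  -- lower bound
  have hMR : (0 : ℝ) < M := by exact_mod_cast hM
  have h5 : (M : ℝ) ^ 2 * ∑ d ∈ Ioo (-(M : ℤ)) M, ‖gam T g d‖ ^ 2
      ≤ ∑ d ∈ Ioo (-(N : ℤ)) N, ((rr N d : ℝ) * ‖gam T g d‖) ^ 2 := by
    rw [mul_sum]
    refine (sum_le_sum (fun d hd => ?_)).trans
      (sum_le_sum_of_subset_of_nonneg (t := Ioo (-(N : ℤ)) N) ?_ ?_)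
    · show _ ≤ ((rr N d : ℝ) * ‖gam T g d‖) ^ 2
      rw [mul_pow]
      have : (M : ℝ) ≤ rr N d := by exact_mod_cast rr_ge M d hd
      gcongr
    · intro d hd
      rw [mem_Ioo] at hd ⊢; omega
    · intro d _ _; positivity
  have h6 : ∑ i ∈ range M, ∑ j ∈ range M, ‖inner ℂ (T^[i] g) (T^[j] g)‖ ^ 2
      ≤ M * ∑ d ∈ Ioo (-(M : ℤ)) M, ‖gam T g d‖ ^ 2 := by
    have h7 : ∀ i ∈ range M, ∑ j ∈ range M, ‖inner ℂ (T^[i] g) (T^[j] g)‖ ^ 2
        ≤ ∑ d ∈ Ioo (-(M : ℤ)) M, ‖gam T g d‖ ^ 2 := by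
      intro i hi
      rw [mem_range] at hi
      have e : ∑ j ∈ range M, ‖inner ℂ (T^[i] g) (T^[j] g)‖ ^ 2
          = ∑ d ∈ (range M).image (fun j : ℕ => (j : ℤ) - i), ‖gam T g d‖ ^ 2 := by
        rw [sum_image (fun a _ b _ h => by simpa using h)]
        exact sum_congr rfl fun j _ => by rw [gam_eq]
      rw [e]
      refine sum_le_sum_of_subset_of_nonneg ?_ (fun _ _ _ => by positivity)
      intro d hd
      simp only [mem_image, mem_range] at hd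
      obtain ⟨j, hj, rfl⟩ := hd
      rw [mem_Ioo]; omega
    calc _ ≤ ∑ i ∈ range M, ∑ d ∈ Ioo (-(M : ℤ)) M, ‖gam T g d‖ ^ 2 := sum_le_sum h7
      _ = _ := by rw [sum_const, card_range, nsmul_eq_mul]
  unfold En
  have h8 : (M : ℝ) ^ 2 * ∑ i ∈ range M, ∑ j ∈ range M, ‖inner ℂ (T^[i] g) (T^[j] g)‖ ^ 2
      ≤ M * ((F * (2 * M : ℝ) ^ 2) * (N * ‖g‖ ^ 2)) := by
    calc _ ≤ (M : ℝ) ^ 2 * (M * ∑ d ∈ Ioo (-(M : ℤ)) M, ‖gam T g d‖ ^ 2) := by gcongr
      _ = M * ((M : ℝ) ^ 2 * ∑ d ∈ Ioo (-(M : ℤ)) M, ‖gam T g d‖ ^ 2) := by ring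
      _ ≤ _ := mul_le_mul_of_nonneg_left (h5.trans h4) hMR.le
  have hNM : (N : ℝ) = 2 * M := by rw [hN]; push_cast; ring
  rw [hNM] at h8
  rw [one_div, inv_mul_le_iff₀ (by positivity)]
  have h9 : (M : ℝ) ^ 2 * ∑ i ∈ range M, ∑ j ∈ range M, ‖inner ℂ (T^[i] g) (T^[j] g)‖ ^ 2
      ≤ (M : ℝ) ^ 2 * ((M : ℝ) ^ 2 * (8 * F * ‖g‖ ^ 2)) := by
    calc _ ≤ _ := h8
      _ = _ := by ring
  exact le_of_mul_le_mul_left h9 (by positivity)

lemma alg_aux {Q s t G : ℝ} (hQ0 : 0 ≤ Q) (hG : 0 ≤ G) (h2 : Q ≤ s * t) (h3 : s ^ 2 ≤ Q * G) :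
    Q ≤ t ^ 2 * G := by
  have h4 : Q * Q ≤ Q * (t ^ 2 * G) := by
    calc Q * Q ≤ (s * t) * (s * t) := mul_le_mul h2 h2 hQ0 (hQ0.trans h2)
      _ = s ^ 2 * t ^ 2 := by ring
      _ ≤ (Q * G) * t ^ 2 := mul_le_mul_of_nonneg_right h3 (sq_nonneg t)
      _ = _ := by ring
  rcases hQ0.eq_or_lt with h | h
  · rw [← h]; positivity
  · exact le_of_mul_le_mul_left h4 h

lemma alg_aux2 {Q t G N : ℝ} (hN : 0 < N) (h : Q ≤ t ^ 2 * G) : Q ≤ N * t ^ 2 * (G / N) := by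
  have : N * t ^ 2 * (G / N) = t ^ 2 * G := by field_simp
  rw [this]; exact h

/-- correlations with a vector are controlled by the energy -/
theorem corr_le (g ψ : H) (N k : ℕ) :
    ∑ j ∈ range N, ‖inner ℂ (T^[k + j] g) ψ‖ ^ 2 ≤ N * ‖ψ‖ ^ 2 * √(En T g N) := by
  set x : ℕ → H := fun j => T^[k + j] g with hx
  set a : ℕ → ℂ := fun j => inner ℂ (x j) ψ with ha
  obtain ⟨Q, hQ⟩ : ∃ Q : ℝ, Q = ∑ j ∈ range N, ‖a j‖ ^ 2 := ⟨_, rfl⟩
  rw [show ∑ j ∈ range N, ‖inner ℂ (T^[k + j] g) ψ‖ ^ 2 = Q from hQ.symm]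
  have hQ0 : 0 ≤ Q := by rw [hQ]; positivity
  rcases Nat.eq_zero_or_pos N with hN | hN
  · have : Q = 0 := by rw [hQ, hN]; simp
    rw [this]; positivity
  have hNR : (0 : ℝ) < N := by exact_mod_cast hN
  -- Q = ⟪∑ a x, ψ⟫
  have h1 : ((Q : ℝ) : ℂ) = inner ℂ (∑ j ∈ range N, a j • x j) ψ := by
    rw [sum_inner, hQ]
    push_cast
    refine sum_congr rfl fun j _ => ?_
    rw [inner_smul_left, ← Complex.normSq_eq_conj_mul_self, Complex.normSq_eq_norm_sq]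
    push_cast; rfl
  have h2 : Q ≤ ‖∑ j ∈ range N, a j • x j‖ * ‖ψ‖ := by
    have := norm_inner_le_norm (𝕜 := ℂ) (∑ j ∈ range N, a j • x j) ψ
    rw [← h1, Complex.norm_real, Real.norm_eq_abs, abs_of_nonneg hQ0] at this
    exact this
  obtain ⟨G, hG⟩ : ∃ G : ℝ, G = ∑ i ∈ range N, ∑ j ∈ range N,
      ‖inner ℂ (T^[i] g) (T^[j] g)‖ ^ 2 := ⟨_, rfl⟩
  have hG0 : 0 ≤ G := by rw [hG]; positivity
  have hxx : ∀ i j, inner ℂ (x i) (x j) = inner ℂ (T^[i] g) (T^[j] g) := by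
    intro i j
    simp only [hx, Function.iterate_add_apply, it_inner]
  have h3 : ‖∑ j ∈ range N, a j • x j‖ ^ 2 ≤ Q * √G := by
    have e : ((‖∑ j ∈ range N, a j • x j‖ ^ 2 : ℝ) : ℂ) =
        ∑ p ∈ range N ×ˢ range N, (starRingEnd ℂ) (a p.1) * (a p.2 * inner ℂ (x p.1) (x p.2)) := by
      push_cast
      rw [← Complex.coe_algebraMap, ← inner_self_eq_norm_sq_to_K (𝕜 := ℂ), sum_inner, sum_product]
      refine sum_congr rfl fun i _ => ?_
      rw [inner_sum]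
      refine sum_congr rfl fun j _ => ?_
      rw [inner_smul_left, inner_smul_right]
    have e2 : ‖∑ j ∈ range N, a j • x j‖ ^ 2 ≤
        ∑ p ∈ range N ×ˢ range N, (‖a p.1‖ * ‖a p.2‖) * ‖inner ℂ (x p.1) (x p.2)‖ := by
      calc ‖∑ j ∈ range N, a j • x j‖ ^ 2 = ‖((‖∑ j ∈ range N, a j • x j‖ ^ 2 : ℝ) : ℂ)‖ := by
            rw [Complex.norm_real, Real.norm_eq_abs, abs_of_nonneg (by positivity)]
        _ ≤ _ := by
            rw [e]
            refine (norm_sum_le _ _).trans (sum_le_sum fun p _ => ?_)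
            rw [norm_mul, norm_mul, RCLike.norm_conj, mul_assoc]
    have e3 := Real.sum_mul_le_sqrt_mul_sqrt (range N ×ˢ range N)
      (fun p : ℕ × ℕ => ‖a p.1‖ * ‖a p.2‖) (fun p => ‖inner ℂ (x p.1) (x p.2)‖)
    have e4 : ∑ p ∈ range N ×ˢ range N, (‖a p.1‖ * ‖a p.2‖) ^ 2 = Q ^ 2 := by
      rw [sum_product, sq Q, hQ, sum_mul_sum]
      refine sum_congr rfl fun i _ => sum_congr rfl fun j _ => by ring
    have e5 : ∑ p ∈ range N ×ˢ range N, ‖inner ℂ (x p.1) (x p.2)‖ ^ 2 = G := by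
      rw [sum_product, hG]
      refine sum_congr rfl fun i _ => sum_congr rfl fun j _ => by rw [hxx]
    rw [e4, e5, Real.sqrt_sq hQ0] at e3
    exact e2.trans e3
  have h5 : Q ≤ ‖ψ‖ ^ 2 * √G := alg_aux hQ0 (Real.sqrt_nonneg _) h2 h3
  have h6 : √(En T g N) = √G / N := by
    have : En T g N = G / (N : ℝ) ^ 2 := by
      rw [hG, En, one_div, inv_mul_eq_div]
    rw [this, Real.sqrt_div hG0, Real.sqrt_sq hNR.le]
  rw [h6]
  exact alg_aux2 hNR h5

end basics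

section unif

variable {H : Type*} [NormedAddCommGroup H] [InnerProductSpace ℂ H] (T : H →ₗᵢ[ℂ] H)

lemma S_norm_le {w : ℂ} (hw : ‖w‖ = 1) (N : ℕ) (g : H) : ‖S T w N g‖ ≤ N * ‖g‖ := by
  unfold S
  refine (norm_sum_le _ _).trans ?_
  simp [norm_smul, hw, it_norm]

lemma S_cont (N : ℕ) (g : H) : Continuous (fun w : ℂ => S T w N g) := by
  unfold S
  fun_prop

lemma S_sum {ι : Type*} (s : Finset ι) (w : ℂ) (N : ℕ) (x : ι → H) :
    S T w N (∑ i ∈ s, x i) = ∑ i ∈ s, S T w N (x i) := by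
  unfold S
  rw [sum_comm]
  refine sum_congr rfl fun n _ => ?_
  rw [it_sum, smul_sum]

lemma S_smul (c w : ℂ) (N : ℕ) (x : H) : S T w N (c • x) = c • S T w N x := by
  unfold S
  rw [smul_sum]
  refine sum_congr rfl fun n _ => ?_
  rw [it_smul, smul_comm]

lemma S_step {w : ℂ} (hw : ‖w‖ = 1) (N : ℕ) (g : H) :
    ‖S T w N (w • T g) - S T w N g‖ ≤ 2 * ‖g‖ := by
  have h : S T w N (w • T g) - S T w N g = w ^ N • T^[N] g - g := by
    unfold S
    have := sum_range_sub (fun n => w ^ n • T^[n] g) N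
    rw [← sum_sub_distrib]
    simp only [pow_zero, one_smul, Function.iterate_zero, id_eq] at this
    rw [← this]
    refine sum_congr rfl fun n _ => ?_
    rw [it_smul, smul_smul, ← pow_succ, Function.iterate_succ_apply]
  rw [h]
  refine (norm_sub_le _ _).trans ?_
  rw [norm_smul, norm_pow, hw, one_pow, one_mul, it_norm]
  linarith

lemma S_steps {w : ℂ} (hw : ‖w‖ = 1) (N k : ℕ) (g : H) :
    ‖S T w N (w ^ k • T^[k] g) - S T w N g‖ ≤ k * (2 * ‖g‖) := by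
  induction k with
  | zero => simp
  | succ k ih =>
    have h1 := S_step T hw N (w ^ k • T^[k] g)
    have e : w • T (w ^ k • T^[k] g) = w ^ (k + 1) • T^[k + 1] g := by
      rw [map_smul, smul_smul, ← pow_succ', Function.iterate_succ_apply']
    have e2 : ‖w ^ k • T^[k] g‖ = ‖g‖ := by
      rw [norm_smul, norm_pow, hw, one_pow, one_mul, it_norm]
    rw [e, e2] at h1
    calc ‖S T w N (w ^ (k + 1) • T^[k + 1] g) - S T w N g‖
        ≤ ‖S T w N (w ^ (k + 1) • T^[k + 1] g) - S T w N (w ^ k • T^[k] g)‖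
          + ‖S T w N (w ^ k • T^[k] g) - S T w N g‖ := norm_sub_le_norm_sub_add_norm_sub _ _ _
      _ ≤ 2 * ‖g‖ + k * (2 * ‖g‖) := add_le_add h1 ih
      _ = _ := by push_cast; ring

lemma S_compare {w : ℂ} (hw : ‖w‖ = 1) (N : ℕ) {K : ℕ} (hK : 0 < K) (g : H) :
    ‖S T w N g‖ ≤ N / K * ‖S T w K g‖ + 2 * K * ‖g‖ := by
  have hKR : (0 : ℝ) < K := by exact_mod_cast hK
  have h1 : ∑ k ∈ range K, (S T w N (w ^ k • T^[k] g) - S T w N g)
      = S T w N (S T w K g) - (K : ℂ) • S T w N g := by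
    rw [sum_sub_distrib, ← S_sum, sum_const, card_range, ← Nat.cast_smul_eq_nsmul ℂ]
    rfl
  have h2 : ‖∑ k ∈ range K, (S T w N (w ^ k • T^[k] g) - S T w N g)‖ ≤ K * (K * (2 * ‖g‖)) := by
    refine (norm_sum_le _ _).trans ?_
    calc _ ≤ ∑ k ∈ range K, (K : ℝ) * (2 * ‖g‖) := by
          refine sum_le_sum fun k hk => (S_steps T hw N k g).trans ?_
          have : (k : ℝ) ≤ K := by exact_mod_cast (mem_range.1 hk).le
          gcongr
      _ = _ := by rw [sum_const, card_range, nsmul_eq_mul]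
  have h3 : (K : ℝ) * ‖S T w N g‖ ≤ N * ‖S T w K g‖ + K * (K * (2 * ‖g‖)) := by
    have e : (K : ℂ) • S T w N g = S T w N (S T w K g)
        - ∑ k ∈ range K, (S T w N (w ^ k • T^[k] g) - S T w N g) := by
      rw [h1]; abel
    calc (K : ℝ) * ‖S T w N g‖ = ‖(K : ℂ) • S T w N g‖ := by
          rw [norm_smul, Complex.norm_natCast]
      _ ≤ ‖S T w N (S T w K g)‖
          + ‖∑ k ∈ range K, (S T w N (w ^ k • T^[k] g) - S T w N g)‖ := by
          rw [e]; exact norm_sub_le _ _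
      _ ≤ _ := add_le_add (S_norm_le T hw N _) h2
  refine le_of_mul_le_mul_left (h3.trans (le_of_eq ?_)) hKR
  field_simp

/-- compactness of the circle: pointwise smallness gives uniform smallness -/
theorem unif_small (g : H) {σ : ℝ} (hσ : 0 < σ)
    (h : ∀ w : ℂ, ‖w‖ = 1 → ∃ K : ℕ, 0 < K ∧ ‖S T w K g‖ < σ * K) :
    ∃ N0 : ℕ, ∀ N, N0 ≤ N → ∀ w : ℂ, ‖w‖ = 1 → ‖S T w N g‖ ≤ 2 * σ * N := by
  have hc : ∃ K0 : ℕ, ∀ w ∈ Metric.sphere (0 : ℂ) 1, ∃ K : ℕ, 0 < K ∧ K ≤ K0 ∧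
      ‖S T w K g‖ < σ * K := by
    refine (isCompact_sphere (0 : ℂ) 1).induction_on
      (p := fun s => ∃ K0 : ℕ, ∀ w ∈ s, ∃ K : ℕ, 0 < K ∧ K ≤ K0 ∧ ‖S T w K g‖ < σ * K)
      ⟨0, by simp⟩ ?_ ?_ ?_
    · rintro s t hst ⟨K0, hK0⟩
      exact ⟨K0, fun w hw => hK0 w (hst hw)⟩
    · rintro s t ⟨K0, hK0⟩ ⟨K1, hK1⟩
      refine ⟨max K0 K1, fun w hw => ?_⟩
      rcases hw with hw | hw
      · obtain ⟨K, h1, h2, h3⟩ := hK0 w hw
        exact ⟨K, h1, h2.trans (le_max_left _ _), h3⟩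
      · obtain ⟨K, h1, h2, h3⟩ := hK1 w hw
        exact ⟨K, h1, h2.trans (le_max_right _ _), h3⟩
    · intro w hw
      obtain ⟨K, hK, hK'⟩ := h w (by simpa using hw)
      refine ⟨{w' | ‖S T w' K g‖ < σ * K}, mem_nhdsWithin_of_mem_nhds ?_,
        K, fun w' hw' => ⟨K, hK, le_rfl, hw'⟩⟩
      exact (isOpen_lt (S_cont T K g).norm continuous_const).mem_nhds hK'
  obtain ⟨K0, hK0⟩ := hc
  obtain ⟨N0, hN0⟩ := exists_nat_ge (2 * K0 * ‖g‖ / σ)
  refine ⟨N0, fun N hN w hw => ?_⟩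
  obtain ⟨K, h1, h2, h3⟩ := hK0 w (by simpa using hw)
  have hKR : (0 : ℝ) < K := by exact_mod_cast h1
  have h2R : (K : ℝ) ≤ K0 := by exact_mod_cast h2
  have h4 := S_compare T hw N h1 g
  have h5 : (N : ℝ) / K * ‖S T w K g‖ ≤ σ * N := by
    calc (N : ℝ) / K * ‖S T w K g‖ ≤ N / K * (σ * K) := by gcongr
      _ = σ * N := by field_simp
  have h6 : 2 * K * ‖g‖ ≤ σ * N := by
    have : 2 * K0 * ‖g‖ ≤ σ * N0 := by
      rw [div_le_iff₀ hσ] at hN0; linarith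
    have hNR : (N0 : ℝ) ≤ N := by exact_mod_cast hN
    calc 2 * K * ‖g‖ ≤ 2 * K0 * ‖g‖ := by gcongr
      _ ≤ σ * N0 := this
      _ ≤ σ * N := by gcongr
  linarith

theorem En_small (g : H) {τ : ℝ} (hτ : 0 < τ)
    (h : ∀ σ : ℝ, 0 < σ → ∀ w : ℂ, ‖w‖ = 1 → ∃ K : ℕ, 0 < K ∧ ‖S T w K g‖ < σ * K) :
    ∃ M0 : ℕ, ∀ M, M0 ≤ M → En T g M ≤ τ := by
  obtain ⟨σ, hσ, hσ2⟩ : ∃ σ : ℝ, 0 < σ ∧ 8 * (2 * σ) ^ 2 * ‖g‖ ^ 2 ≤ τ := by
    refine ⟨√(τ / (32 * (‖g‖ ^ 2 + 1))), by positivity, ?_⟩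
    rw [mul_pow, Real.sq_sqrt (by positivity)]
    have : 8 * (2 ^ 2 * (τ / (32 * (‖g‖ ^ 2 + 1)))) * ‖g‖ ^ 2
        = τ * (‖g‖ ^ 2 / (‖g‖ ^ 2 + 1)) := by
      field_simp; ring
    rw [this]
    have h1 : ‖g‖ ^ 2 / (‖g‖ ^ 2 + 1) ≤ 1 := by
      rw [div_le_one (by positivity)]; linarith
    nlinarith
  obtain ⟨N0, hN0⟩ := unif_small T g hσ (h σ hσ)
  refine ⟨N0 + 1, fun M hM => ?_⟩
  refine (En_le_of_S_le T g (by omega) (F := (2 * σ) ^ 2) fun w hw => ?_).trans hσ2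
  have h1 := hN0 (2 * M) (by omega) w hw
  push_cast at h1
  rw [← mul_pow]
  exact pow_le_pow_left₀ (norm_nonneg _) h1 2

variable [CompleteSpace H]

/-- energy tends to zero for vectors orthogonal to the eigenvectors -/
theorem wiener_ortho (g : H)
    (hg : ∀ (z : ℂ) (x : H), ‖z‖ = 1 → T x = z • x → inner ℂ x g = 0) {τ : ℝ} (hτ : 0 < τ) :
    ∃ M0 : ℕ, ∀ M, M0 ≤ M → En T g M ≤ τ := by
  refine En_small T g hτ fun σ hσ w hw => ?_
  have hw0 : w ≠ 0 := by intro h; simp [h] at hw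
  set f : H →L[ℂ] H := w • T.toContinuousLinearMap with hf
  have hfx : ∀ x, f x = w • T x := fun x => rfl
  have hfn : ‖f‖ ≤ 1 := by
    refine ContinuousLinearMap.opNorm_le_bound _ zero_le_one fun x => ?_
    rw [hfx, norm_smul, hw, T.norm_map]
  have hit : ∀ n, f^[n] g = w ^ n • T^[n] g := by
    intro n
    induction n with
    | zero => simp
    | succ n ih =>
      rw [Function.iterate_succ_apply', ih, hfx, map_smul, smul_smul, ← pow_succ',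
        Function.iterate_succ_apply']
  have hlim := f.tendsto_birkhoffAverage_orthogonalProjection hfn g
  have h0 : ((f.eqLocus (1 : H →L[ℂ] H)).orthogonalProjectionOnto g : H) = 0 := by
    rw [Submodule.coe_eq_zero]
    rw [Submodule.orthogonalProjectionOnto_eq_zero_iff]
    rw [Submodule.mem_orthogonal]
    intro x hx
    have hx' : f x = x := hx
    rw [hfx] at hx'
    refine hg w⁻¹ x (by rw [norm_inv, hw, inv_one]) ?_
    calc T x = w⁻¹ • (w • T x) := by rw [smul_smul, inv_mul_cancel₀ hw0, one_smul]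
      _ = w⁻¹ • x := by rw [hx']
  rw [h0] at hlim
  have hev := (hlim.norm.eventually (gt_mem_nhds (by simpa using hσ))).and (eventually_gt_atTop 0)
  obtain ⟨K, hK1, hK2⟩ := hev.exists
  refine ⟨K, hK2, ?_⟩
  have hKR : (0 : ℝ) < K := by exact_mod_cast hK2
  have e : birkhoffAverage ℂ f _root_.id K g = (K : ℂ)⁻¹ • S T w K g := by
    unfold birkhoffAverage birkhoffSum S
    congr 1
    exact sum_congr rfl fun n _ => hit n
  rw [e, norm_smul, norm_inv, Complex.norm_natCast, inv_mul_eq_div, div_lt_iff₀ hKR] at hK1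
  exact hK1

end unif

end Pool.Agent.FIN.W69
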